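import Pool.Agent.H81Sel.Glob0

/-! Row GLOB1: boxes of Weierstrass equations, integral objects. -/

namespace SelAvg.FF

open WeierstrassCurve WithZero Filter Topology Matrix
open scoped Classical ENNReal

variable {F : Type} [Field F] [Cv F]

lemma glob1_map_inv {R S : Type} [CommRing R] [CommRing S] (φ : R →+* S) (C : VariableChange R) :
    (C⁻¹).map φ = (C.map φ)⁻¹ := (VariableChange.mapHom φ).map_inv C

/-- the box of Weierstrass equations -/
noncomputable def WB (D : Div F) : Finset (WeierstrassCurve F) :=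
  (Fintype.piFinset fun i => box (kW i • D)).map wEquivVec.symm.toEmbedding

lemma mem_WB {D : Div F} {W : WeierstrassCurve F} : W ∈ WB D ↔
    W.a₁ ∈ LL D ∧ W.a₂ ∈ LL (2 • D) ∧ W.a₃ ∈ LL (3 • D) ∧ W.a₄ ∈ LL (4 • D) ∧ W.a₆ ∈ LL (6 • D) := by
  rw [WB, Finset.mem_map_equiv, Fintype.mem_piFinset]
  simp only [mem_box, Fin.forall_fin_succ, Equiv.symm_symm]
  simp [kW]
  rfl

omit [Cv F] in
lemma glob1_cW (D : Div F) (W : WeierstrassCurve (A F)) : cW D • W = wsc (piD D : A F) W := by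
  rw [wsc_unit, cW, piD_neg]

lemma glob1_int (D : Div F) (n : ℕ) (x : F) :
    (piD D : A F) ^ n * toA F x ∈ Oh F ↔ x ∈ LL (n • D) := by
  rw [← Units.val_pow_eq_pow_val, ← piD_nsmul, ← mem_AD_zero, unit_mul_mem_AD, idiv_piD, zero_add,
    toA_mem_AD]

lemma mem_WB_iff_int {D : Div F} {W : WeierstrassCurve F} :
    W ∈ WB D ↔ ∃ W₀ : WeierstrassCurve (Oh F), W₀.map (inc F) = cW D • W.map (toA F) := by
  rw [mem_WB, glob1_cW]
  have h1 := glob1_int D 1 W.a₁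
  rw [one_smul, pow_one] at h1
  rw [← h1, ← glob1_int, ← glob1_int, ← glob1_int, ← glob1_int]
  constructor
  · rintro ⟨h1, h2, h3, h4, h6⟩
    exact ⟨⟨⟨_, h1⟩, ⟨_, h2⟩, ⟨_, h3⟩, ⟨_, h4⟩, ⟨_, h6⟩⟩, rfl⟩
  · rintro ⟨W₀, h⟩
    have e1 : (W₀.a₁ : A F) = _ := congrArg WeierstrassCurve.a₁ h
    have e2 : (W₀.a₂ : A F) = _ := congrArg WeierstrassCurve.a₂ h
    have e3 : (W₀.a₃ : A F) = _ := congrArg WeierstrassCurve.a₃ h
    have e4 : (W₀.a₄ : A F) = _ := congrArg WeierstrassCurve.a₄ h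
    have e6 : (W₀.a₆ : A F) = _ := congrArg WeierstrassCurve.a₆ h
    have hm : ∀ {a : A F} {b : Oh F}, (b : A F) = a → a ∈ Oh F := fun {a b} hab => hab ▸ b.2
    exact ⟨hm e1, hm e2, hm e3, hm e4, hm e6⟩

lemma WB_mono {D E : Div F} (h : D ≤ E) : WB D ⊆ WB E := by
  intro W hW
  rw [mem_WB] at hW ⊢
  exact ⟨LL_mono h hW.1, LL_mono (nsmul_le_nsmul_right h 2) hW.2.1,
    LL_mono (nsmul_le_nsmul_right h 3) hW.2.2.1, LL_mono (nsmul_le_nsmul_right h 4) hW.2.2.2.1,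
    LL_mono (nsmul_le_nsmul_right h 6) hW.2.2.2.2⟩

lemma exists_mem_WB (W : WeierstrassCurve F) : ∃ D, (c0 F : ℤ) ≤ deg D ∧ W ∈ WB D := by
  obtain ⟨B, hB, h⟩ := exists_mem_LL (wEquivVec W)
  have hP : 0 ≤ c0 F • PP F := nsmul_nonneg PP_nonneg _
  have hle : ∀ n : ℕ, B ≤ (n + 1) • B := fun n => by
    rw [succ_nsmul]
    exact le_add_of_nonneg_left (nsmul_nonneg hB n)
  refine ⟨B + c0 F • PP F, ?_, WB_mono (le_add_of_nonneg_right hP) ?_⟩
  · rw [map_add, map_nsmul, deg_PP, nsmul_eq_mul]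
    have h1 := deg_nonneg hB
    have h2 : (1 : ℤ) ≤ pp F := by exact_mod_cast dg_pos (Cv.P : Place F)
    have h3 : (0 : ℤ) ≤ c0 F := Int.natCast_nonneg _
    nlinarith
  · exact mem_WB.2 ⟨h 0, LL_mono (hle 1) (h 1), LL_mono (hle 2) (h 2), LL_mono (hle 3) (h 3),
      LL_mono (hle 5) (h 4)⟩

lemma card_WB {D : Div F} (h : (c0 F : ℤ) ≤ deg D) :
    ((WB D).card : ℝ) = qq F ^ (16 * deg D + 5 * cc F) := by
  have h0 : (0 : ℤ) ≤ c0 F := Int.natCast_nonneg _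
  have hb : ∀ i, ((box (kW i • D)).card : ℝ) = qq F ^ ((kW i : ℤ) * deg D + cc F) := fun i => by
    have hk : (1 : ℤ) ≤ kW i := by exact_mod_cast kW_pos i
    have hd : deg (kW i • D) = (kW i : ℤ) * deg D := by rw [map_nsmul, nsmul_eq_mul]
    rw [card_box (by rw [hd]; nlinarith), hd]
  have hq : qq F ≠ 0 := (zero_lt_one.trans one_lt_qq).ne'
  rw [WB, Finset.card_map, Fintype.card_piFinset, Nat.cast_prod]
  simp only [hb]
  rw [Fin.prod_univ_five, ← zpow_add₀ hq, ← zpow_add₀ hq, ← zpow_add₀ hq, ← zpow_add₀ hq]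
  congr 1
  simp only [kW, Matrix.cons_val]
  push_cast
  ring

lemma locW_map {D : Div F} {W : WeierstrassCurve F} (hW : W ∈ WB D) (v : Place F) :
    (locW v D W).map v.loc.incl = (cW D).map (pr v) • W.map (algebraMap F v.Compl) := by
  obtain ⟨W₀, h⟩ := mem_WB_iff_int.1 hW
  rw [locW_eq h, WeierstrassCurve.map_map, incl_comp_prO, ← WeierstrassCurve.map_map, h,
    ← map_variableChange, WeierstrassCurve.map_map, pr_comp_toA]

lemma glob1_v_Delta {D : Div F} {W : WeierstrassCurve F} (hW : W ∈ WB D) (v : Place F) :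
    v.vc ((locW v D W).Δ : v.Compl) = exp (-(12 * D v)) * v.1 W.Δ := by
  have h1 : ((locW v D W).Δ : v.Compl) = ((locW v D W).map v.loc.incl).Δ := by
    rw [map_Δ]; rfl
  have h2 : ((((cW D).map (pr v)).u⁻¹ : v.Complˣ) : v.Compl) = pr v ((piD (-D))⁻¹ : (A F)ˣ) := rfl
  rw [h1, locW_map hW, variableChange_Δ, map_Δ, map_mul, map_pow, Place.vc_algebraMap, h2, vc_unit,
    idiv_inv, idiv_piD, neg_neg, ← WithZero.exp_nsmul]
  congr 2
  simp

lemma locW_Delta {D : Div F} {W : WeierstrassCurve F} (hW : W ∈ WB D) (hΔ : W.Δ ≠ 0) (v : Place F) :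
    (locW v D W).Δ ≠ 0 := by
  intro h0
  have h := glob1_v_Delta hW v
  rw [h0, ZeroMemClass.coe_zero, map_zero] at h
  exact mul_ne_zero exp_ne_zero ((Valuation.ne_zero_iff _).2 hΔ) h.symm

lemma v_locW_Delta {D : Div F} {W : WeierstrassCurve F} (hW : W ∈ WB D) (v : Place F) :
    v.vc ((locW v D W).Δ : v.Compl) = exp (-(12 * D v)) * v.1 W.Δ := by
  exact glob1_v_Delta hW v

/-- the object is integral for `g` and lies over an equation that is integral for `D` -/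
def IntO (D : Div F) (z : Obj F) (g : G (A F)) : Prop :=
  IntM g z.f ∧ IntC (g.Gam (z.f.map (toA F)) * z.γ.map (toA F) * (cW D)⁻¹)

lemma intO_iff {D : Div F} {z : Obj F} {g : G (A F)} : IntO D z g ↔
    ∃ z₀ : Obj (Oh F), z₀.map (inc F) = (g • z.map (toA F)).rmul (cW D)⁻¹ := by
  constructor
  · rintro ⟨⟨f₀, hf⟩, C₀, hC⟩
    refine ⟨⟨f₀, C₀⟩, Obj.ext ?_ ?_⟩
    · rw [Obj.map_f, Obj.rmul_f, Obj.smul_f, Obj.map_f]
      exact hf
    · rw [Obj.map_γ, Obj.rmul_γ, Obj.smul_γ, Obj.map_f, Obj.map_γ]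
      exact hC
  · rintro ⟨z₀, h⟩
    have h1 := congrArg Obj.f h
    have h2 := congrArg Obj.γ h
    rw [Obj.map_f, Obj.rmul_f, Obj.smul_f, Obj.map_f] at h1
    rw [Obj.map_γ, Obj.rmul_γ, Obj.smul_γ, Obj.map_f, Obj.map_γ] at h2
    exact ⟨⟨z₀.f, h1⟩, z₀.γ, h2⟩

lemma intO_K {k : G (A F)} (hk : k ∈ KG F) (D : Div F) (z : Obj F) (g : G (A F)) :
    IntO D z (k * g) ↔ IntO D z g := by
  obtain ⟨k₀, rfl⟩ := hk
  rw [intO_iff, intO_iff, mul_smul, ← Obj.smul_rmul]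
  constructor
  · rintro ⟨z₀, h⟩
    exact ⟨k₀⁻¹ • z₀, by rw [Obj.map_smul, h, map_inv, inv_smul_smul]⟩
  · rintro ⟨z₀, h⟩
    exact ⟨k₀ • z₀, by rw [Obj.map_smul, h]⟩

lemma intO_act (γ : G F) (D : Div F) (z : Obj F) (g : G (A F)) :
    IntO D (γ • z) (g * (gA F γ)⁻¹) ↔ IntO D z g := by
  rw [intO_iff, intO_iff, Obj.map_smul, mul_smul, inv_smul_smul]

lemma IntO.cls_eq {D : Div F} {z : Obj F} {g : G (A F)} (h : IntO D z g) :
    cls g = D + dv ((z.γ.u : Fˣ) : F) := by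
  have h1 := (intC_iff.1 h.2).1
  have h2 : (g.Gam (z.f.map (toA F)) * z.γ.map (toA F) * (cW D)⁻¹).u =
      (g.Gam (z.f.map (toA F))).u * uA z.γ.u * (piD (-D))⁻¹ := rfl
  rw [h2, G.Gam_u, idiv_mul, idiv_mul, idiv_mul, idiv_inv, idiv_inv, idiv_piD, idiv_uA] at h1
  rw [cls, ← sub_eq_zero, ← neg_eq_zero, ← h1]
  abel

lemma glob1_over {D : Div F} {z : Obj F} {g : G (A F)} {z₀ : Obj (Oh F)}
    (h : z₀.map (inc F) = (g • z.map (toA F)).rmul (cW D)⁻¹) {W : WeierstrassCurve F}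
    (hz : z.Over W) : (z₀.γ⁻¹ • z₀.f.jac).map (inc F) = cW D • W.map (toA F) := by
  have h1 : (z₀.map (inc F)).Over (cW D • W.map (toA F)) := by
    rw [h]
    refine Obj.Over.rmul ?_
    rw [inv_smul_smul]
    exact (hz.map _).smul g
  unfold Obj.Over at h1
  rw [Obj.map_f, Obj.map_γ, Model.jac_map] at h1
  rw [← map_variableChange, h1, glob1_map_inv, inv_smul_smul]

lemma IntO.mem_WB {D : Div F} {z : Obj F} {g : G (A F)} (h : IntO D z g) {W : WeierstrassCurve F}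
    (hz : z.Over W) : W ∈ WB D := by
  obtain ⟨z₀, h₀⟩ := intO_iff.1 h
  exact mem_WB_iff_int.2 ⟨_, glob1_over h₀ hz⟩

lemma IntO.jac_loc {D : Div F} {z : Obj F} {g : G (A F)} (h : IntO D z g) {W : WeierstrassCurve F}
    (hz : z.Over W) (v : Place F) :
    ∃ C : VariableChange v.loc.O, (locM v g z.f).jac = C • locW v D W := by
  obtain ⟨z₀, h₀⟩ := intO_iff.1 h
  refine ⟨z₀.γ.map (prO v), ?_⟩
  rw [locW_eq (glob1_over h₀ hz), locM_eq (f₀ := z₀.f) (congrArg Obj.f h₀), Model.jac_map,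
    map_variableChange, smul_inv_smul]

/-- the object over the completion, lying over the local equation -/
noncomputable def objAt (v : Place F) (D : Div F) (z : Obj F) : Obj v.Compl :=
  (z.map (algebraMap F v.Compl)).rmul ((cW D).map (pr v))⁻¹

lemma objAt_over {D : Div F} {z : Obj F} {W : WeierstrassCurve F} (hW : W ∈ WB D) (hz : z.Over W)
    (v : Place F) : (objAt v D z).Over ((locW v D W).map v.loc.incl) := by
  rw [locW_map hW]
  refine Obj.Over.rmul ?_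
  rw [inv_smul_smul]
  exact hz.map _

lemma glob1_map_pr (v : Place F) (D : Div F) (z : Obj F) (g : G (A F)) :
    ((g • z.map (toA F)).rmul (cW D)⁻¹).map (pr v) = G.map (pr v) g • objAt v D z := by
  rw [Obj.map_rmul, Obj.map_smul, Obj.map_map, pr_comp_toA, glob1_map_inv, objAt, Obj.smul_rmul]

lemma glob1_loc {D : Div F} {z : Obj F} {g : G (A F)} {z₀ : Obj (Oh F)}
    (h : z₀.map (inc F) = (g • z.map (toA F)).rmul (cW D)⁻¹) (v : Place F) :
    G.map (pr v) g • objAt v D z = (z₀.map (prO v)).map v.loc.incl := by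
  rw [← glob1_map_pr, ← h, Obj.map_map, Obj.map_map, incl_comp_prO]

lemma glob1_vec {R S : Type} [CommRing R] [CommRing S] (φ : R →+* S) (f : Model R) (i : Fin 8) :
    Model.equivVec (f.map φ) i = φ (Model.equivVec f i) := by
  fin_cases i <;> rfl

omit [Cv F] in
lemma glob1_glue (y : Obj (A F))
    (h : ∀ v : Place F, ∃ z₀ : Obj v.loc.O, y.map (pr v) = z₀.map v.loc.incl) :
    ∃ z₀ : Obj (Oh F), z₀.map (inc F) = y := by
  choose z₀ h₀ using h
  have hle : ∀ (v : Place F) {a : A F} {b : v.loc.O}, pr v a = v.loc.incl b →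
      v.vc (pr v a) ≤ 1 := fun v a b hab => by rw [hab]; exact b.2
  have hf : ∀ i, Model.equivVec y.f i ∈ Oh F := fun i v => by
    have h1 := congrArg (fun y => Model.equivVec y.f i) (h₀ v)
    simp only [Obj.map_f, glob1_vec] at h1
    exact hle v h1
  have hC : IntC y.γ := by
    refine intC_iff.2 ⟨?_, fun v => ?_, fun v => ?_, fun v => ?_⟩
    · ext v
      have h1 : pr v y.γ.u = v.loc.incl (z₀ v).γ.u :=
        congrArg (fun y => (y.γ.u : v.Compl)) (h₀ v)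
      have h2 : v.vc (v.loc.incl ((z₀ v).γ.u : v.loc.O)) = 1 :=
        (v.loc.isUnit_iff _).1 (z₀ v).γ.u.isUnit
      rw [idiv_apply, h1, h2]
      simp
    · exact hle v (congrArg (fun y => y.γ.r) (h₀ v))
    · exact hle v (congrArg (fun y => y.γ.s) (h₀ v))
    · exact hle v (congrArg (fun y => y.γ.t) (h₀ v))
  obtain ⟨C₀, hC₀⟩ := hC
  exact ⟨⟨Model.equivVec.symm fun i => ⟨_, hf i⟩, C₀⟩, Obj.ext rfl hC₀⟩

/-- integrality can be tested place by place -/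
lemma intO_iff_forall {D : Div F} {z : Obj F} {g : G (A F)} : IntO D z g ↔
    ∀ v : Place F, ∃ z₀ : Obj v.loc.O, G.map (pr v) g • objAt v D z = z₀.map v.loc.incl := by
  constructor
  · intro h v
    obtain ⟨z₀, h₀⟩ := intO_iff.1 h
    exact ⟨z₀.map (prO v), glob1_loc h₀ v⟩
  · intro h
    simp only [← glob1_map_pr] at h
    exact intO_iff.2 (glob1_glue _ h)

/-- the local representatives given by an integral object -/
lemma IntO.exists_locRep {D : Div F} {z : Obj F} {g : G (A F)} (h : IntO D z g) (v : Place F) :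
    ∃ p : v.loc.LocRep (objAt v D z), p.g = G.map (pr v) g ∧ p.z.f = locM v g z.f := by
  obtain ⟨z₀, h₀⟩ := intO_iff.1 h
  exact ⟨⟨G.map (pr v) g, z₀.map (prO v), glob1_loc h₀ v⟩, rfl,
    (FF.locM_eq (f₀ := z₀.f) (congrArg Obj.f h₀) v).symm⟩

lemma IntO.locM_eq {D : Div F} {z : Obj F} {g : G (A F)} (h : IntO D z g) {v : Place F}
    (p : v.loc.LocRep (objAt v D z)) (hp : p.g = G.map (pr v) g) : locM v g z.f = p.z.f := by
  refine Model.map_injective v.loc.incl_injective ?_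
  rw [locM_map h.1, ← hp]
  exact congrArg Obj.f p.eq

/-- an object is integral at almost all places -/
lemma eventually_objAt_int (D : Div F) (z : Obj F) :
    ∀ᶠ v : Place F in cofinite, ∃ z₀ : Obj v.loc.O, objAt v D z = z₀.map v.loc.incl := by
  have h0 : ∀ v : Place F, objAt v D z = ((z.map (toA F)).rmul (cW D)⁻¹).map (pr v) := fun v => by
    have := glob1_map_pr v D z 1
    rwa [one_smul, map_one, one_smul, eq_comm] at this
  simp only [h0]
  generalize (z.map (toA F)).rmul (cW D)⁻¹ = y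
  have h : ∀ a : A F, ∀ᶠ v : Place F in cofinite, v.vc (pr v a) ≤ 1 := fun a => mem_Ad.1 a.2
  filter_upwards [h y.f.l, h y.f.m, h y.f.n, h y.f.a, h y.f.b, h y.f.c, h y.f.d, h y.f.e,
    h y.γ.u, h (y.γ.u⁻¹ : (A F)ˣ), h y.γ.r, h y.γ.s, h y.γ.t] with v h1 h2 h3 h4 h5 h6 h7 h8 hu hu'
    hr hs ht
  refine ⟨⟨⟨⟨_, h1⟩, ⟨_, h2⟩, ⟨_, h3⟩, ⟨_, h4⟩, ⟨_, h5⟩, ⟨_, h6⟩, ⟨_, h7⟩, ⟨_, h8⟩⟩,
    ⟨⟨⟨_, hu⟩, ⟨_, hu'⟩, Subtype.ext ?_, Subtype.ext ?_⟩, ⟨_, hr⟩, ⟨_, hs⟩, ⟨_, ht⟩⟩⟩, rfl⟩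
  · change pr v _ * pr v _ = 1
    rw [← map_mul, Units.mul_inv, map_one]
  · change pr v _ * pr v _ = 1
    rw [← map_mul, Units.inv_mul, map_one]

end SelAvg.FF
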