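import Pool.Agent.H81Sel.Gt
import Pool.Agent.H81Sel.Glob1

/-! Row ORB: the main orbit over a fixed bundle and its family of lattices. -/

namespace SelAvg.FF

open WeierstrassCurve WithZero Filter Topology Matrix
open scoped Classical ENNReal

section Lin

variable {R : Type} [CommRing R]

omit [CommRing R] in
lemma orb_toM (x : Fin 8 → R) : toM x = ⟨x 0, x 1, x 2, x 3, x 4, x 5, x 6, x 7⟩ := rfl

lemma orb_add (f f' : Model R) : Model.equivVec f + Model.equivVec f' = Model.equivVec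
    ⟨f.l + f'.l, f.m + f'.m, f.n + f'.n, f.a + f'.a, f.b + f'.b, f.c + f'.c, f.d + f'.d,
      f.e + f'.e⟩ := by
  funext i
  fin_cases i <;> rfl

lemma orb_smul (a : R) (f : Model R) : a • Model.equivVec f = Model.equivVec
    ⟨a * f.l, a * f.m, a * f.n, a * f.a, a * f.b, a * f.c, a * f.d, a * f.e⟩ := by
  funext i
  fin_cases i <;> rfl

lemma lin_add {g : G R} (h0 : g.r0 = 0) (h1 : g.r1 = 0) (h2 : g.r2 = 0) (x y : Fin 8 → R) :
    Model.equivVec (g • toM (x + y)) = Model.equivVec (g • toM x) + Model.equivVec (g • toM y) := by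
  rw [orb_add]
  congr 1
  simp only [G.smul_def, h0, h1, h2, Model.shift_zero]
  ext <;> simp only [orb_toM, Model.subst, Model.scale, Pi.add_apply] <;> ring

lemma lin_smul {g : G R} (h0 : g.r0 = 0) (h1 : g.r1 = 0) (h2 : g.r2 = 0) (a : R) (x : Fin 8 → R) :
    Model.equivVec (g • toM (a • x)) = a • Model.equivVec (g • toM x) := by
  rw [orb_smul]
  congr 1
  simp only [G.smul_def, h0, h1, h2, Model.shift_zero]
  ext <;> simp only [orb_toM, Model.subst, Model.scale, Pi.smul_apply, smul_eq_mul] <;> ring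

/-- the action of an element without shift on coefficient vectors -/
noncomputable def linG (M : GL (Fin 2) R) (μ : Rˣ) : (Fin 8 → R) ≃ₗ[R] (Fin 8 → R) where
  toFun x := Model.equivVec ((⟨M, μ, 0, 0, 0⟩ : G R) • toM x)
  invFun x := Model.equivVec ((⟨M, μ, 0, 0, 0⟩ : G R)⁻¹ • toM x)
  map_add' := lin_add rfl rfl rfl
  map_smul' := lin_smul rfl rfl rfl
  left_inv x := by simp [toM]
  right_inv x := by simp [toM]

lemma linG_apply (M : GL (Fin 2) R) (μ : Rˣ) (x : Fin 8 → R) :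
    linG M μ x = Model.equivVec ((⟨M, μ, 0, 0, 0⟩ : G R) • toM x) := rfl

end Lin

variable {F : Type} [Field F]

lemma orb_wdg (u : (A F)ˣ) (f : Model (A F)) :
    wdg kV u (Model.equivVec f) = Model.equivVec (f.scale (u : A F)) := by
  funext i
  rw [wdg_apply]
  fin_cases i
  exacts [congrArg (· * f.l) (pow_one _), congrArg (· * f.m) (pow_one _),
    congrArg (· * f.n) (pow_one _), rfl, rfl, rfl, rfl, rfl]

lemma linG_comm (M : GL (Fin 2) (A F)) (μ u : (A F)ˣ) (a : Fin 8 → A F) :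
    linG M μ (wdg kV u a) = wdg kV u (linG M μ a) := by
  have e := orb_wdg u (toM a)
  rw [Equiv.apply_symm_apply] at e
  rw [linG_apply, linG_apply, e, orb_wdg]
  unfold toM
  rw [Equiv.symm_apply_apply]
  simp only [G.smul_def, Model.shift_zero, Model.subst_scale, Model.scale_scale, mul_comm]

/-- the family of lattices of models -/
noncomputable def LV (B Z : Div F) (η : A F) (R : Div F) : Lat F 8 :=
  ⟨kV, kV_pos, linG (tri B Z η) (piD (B + Z - R)), linG_comm _ _⟩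

/-- the family of lattices of Weierstrass equations -/
noncomputable def LW (R : Div F) : Lat F 5 := LD (fun i => kW i • R) kW kW_pos

variable [Cv F]

/-- the split torsor -/
noncomputable def gm (B Z : Div F) (η : A F) (R : Div F) (m : ℕ) : G (A F) :=
  gt B Z η (B + Z - (R + m • PP F)) 0 0 0

lemma cls_gm (B Z : Div F) (η : A F) (R : Div F) (m : ℕ) : cls (gm B Z η R m) = R + m • PP F := by
  rw [gm, cls_gt, sub_sub_cancel]

lemma orb_mul {R : Type} [CommRing R] (M : GL (Fin 2) R) (μ u ν : Rˣ) (r0 r1 r2 s0 s1 s2 : R)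
    (b z : Rˣ) (y : R) (hM : (M : Matrix (Fin 2) (Fin 2) R) = !![(b : R), 0; y, z]) :
    (⟨M, μ, r0, r1, r2⟩ * ⟨1, u, s0, s1, s2⟩ : G R) =
      ⟨1, μ * u * ν⁻¹, (ν⁻¹ : Rˣ) * (u * r0 + s0 * (b * b : Rˣ)),
        (ν⁻¹ : Rˣ) * (u * r1 + 2 * s0 * b * y + s1 * (b * z : Rˣ)),
        (ν⁻¹ : Rˣ) * (u * r2 + s0 * y ^ 2 + s1 * y * z + s2 * (z * z : Rˣ))⟩ *
        ⟨M, ν, 0, 0, 0⟩ := by
  refine G.ext (by simp) (by simp) ?_ ?_ ?_
  · simp only [G.mul_r0, G.m11, G.m12, hM, Units.mul_inv_cancel_left, Units.val_mul]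
    simp
    ring
  · simp only [G.mul_r1, G.m11, G.m12, G.m21, G.m22, hM, Units.mul_inv_cancel_left, Units.val_mul]
    simp
    ring
  · simp only [G.mul_r2, G.m21, G.m22, hM, Units.mul_inv_cancel_left, Units.val_mul]
    simp
    ring

lemma orb_ev (a : ℤ) : ∀ᶠ m : ℕ in atTop, a ≤ deg (m • PP F) := by
  filter_upwards [eventually_ge_atTop a.toNat] with m hm
  have h : (1 : ℤ) ≤ pp F := by exact_mod_cast dg_pos (Cv.P : Place F)
  rw [map_nsmul, deg_PP, nsmul_eq_mul]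
  have h1 : a ≤ m := by omega
  exact h1.trans (le_mul_of_one_le_right (Nat.cast_nonneg m) h)

lemma orb_approx (w : (A F)ˣ) {E : Div F} (h : (c0 F : ℤ) ≤ deg (E + idiv w)) (a : A F) :
    ∃ s : F, a + toA F s * w ∈ AD E := by
  obtain ⟨s, hs⟩ := approx h (-(((w⁻¹ : (A F)ˣ) : A F) * a))
  refine ⟨s, ?_⟩
  have h1 := (unit_mul_mem_AD w).2 hs
  rwa [sub_neg_eq_add, mul_add, Units.mul_inv_cancel_left, add_comm, mul_comm] at h1

/-- Write `x = mk (gt B Z η C r)` (`exists_gt'`); multiply by `G.ofMu u` to get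
`C = B + Z - (R + m P)`, then remove the shift by `G.ofShift` and `approx` (triangular system with
divisors `2 B - C`, `B + Z - C`, `2 Z - C` of large degree). -/
theorem exists_gm (B Z : Div F) (η : A F) (R : Div F) : ∀ᶠ m : ℕ in atTop,
    ∀ x ∈ XD (R + m • PP F), pM x = RC.mk (K2 F) (tri B Z η) →
      ∃ γ : G F, actG F γ x = RC.mk (KG F) (gm B Z η R m) := by
  filter_upwards [orb_ev (F := F) (c0 F - deg B + deg Z - deg R), orb_ev (F := F) (c0 F - deg R),
    orb_ev (F := F) (c0 F + deg B - deg Z - deg R)] with m h0 h1 h2 x hx hM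
  obtain ⟨u, hu⟩ := hx
  obtain ⟨k, hk, C, r0, r1, r2, e⟩ := exists_gt' (g := x.out) hM
  rw [e, cls_K hk, cls_gt] at hu
  have hx : x = RC.mk (KG F) (gt B Z η C r0 r1 r2) := by
    rw [← RC.mk_out x]
    exact (RC.mk_eq.2 ⟨k, hk, e⟩).symm
  obtain ⟨E, hE⟩ : ∃ E, E = B + Z - (R + m • PP F) := ⟨_, rfl⟩
  have hd : deg (-E) = deg R + deg (m • PP F) - deg B - deg Z := by
    rw [hE]; simp only [map_neg, map_sub, map_add]; ring
  obtain ⟨s0, a0⟩ := orb_approx (piD B * piD B) (E := -E)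
    (by simp only [map_add, idiv_mul, idiv_piD, hd]; omega) (toA F u * r0)
  obtain ⟨s1, a1⟩ := orb_approx (piD B * piD Z) (E := -E)
    (by simp only [map_add, idiv_mul, idiv_piD, hd]; omega)
    (toA F u * r1 + 2 * toA F s0 * piD B * (piD Z * η))
  obtain ⟨s2, a2⟩ := orb_approx (piD Z * piD Z) (E := -E)
    (by simp only [map_add, idiv_mul, idiv_piD, hd]; omega)
    (toA F u * r2 + toA F s0 * (piD Z * η) ^ 2 + toA F s1 * (piD Z * η) * piD Z)
  have hO : ∀ a ∈ AD (-E), (((piD E)⁻¹ : (A F)ˣ) : A F) * a ∈ Oh F := fun a ha => by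
    rw [← mem_AD_zero, unit_mul_mem_AD, idiv_inv, idiv_piD, zero_add]; exact ha
  have hg : gA F ⟨1, u, s0, s1, s2⟩ = ⟨1, uA u, toA F s0, toA F s1, toA F s2⟩ :=
    G.ext (map_one (glA F)) rfl rfl rfl rfl
  have hc : idiv (piD C * uA u * (piD E)⁻¹) = 0 := by
    rw [idiv_mul, idiv_mul, idiv_piD, idiv_uA, idiv_inv, idiv_piD, hE, ← sub_eq_iff_eq_add'.2 hu]
    abel
  refine ⟨(⟨1, u, s0, s1, s2⟩ : G F)⁻¹, ?_⟩
  rw [hx, actG_mk, map_inv, inv_inv, gm, ← hE, hg]
  refine (RC.mk_eq.2 ⟨_, ?_, orb_mul (tri B Z η) (piD C) (uA u) (piD E) r0 r1 r2 (toA F s0)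
    (toA F s1) (toA F s2) (piD B) (piD Z) (piD Z * η) (tri_val B Z η)⟩).symm
  exact mem_KG.2 ⟨one_mem _, hc, hO _ a0, hO _ a1, hO _ a2⟩

theorem card_VB_gm (B Z : Div F) (η : A F) (R : Div F) : ∀ᶠ m : ℕ in atTop,
    ((VB (gm B Z η R m)).card : ℝ) = qq F ^ (13 * deg (R + m • PP F) + 8 * cc F) := by
  filter_upwards [orb_ev (F := F) (c0 F + |deg B| + |deg Z| + |deg R|)] with m hm
  have hB := abs_le.1 (le_refl |deg B|)
  have hZ := abs_le.1 (le_refl |deg Z|)
  have hR := abs_le.1 (le_refl |deg R|)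
  have h0 : (0 : ℤ) ≤ c0 F := Nat.cast_nonneg _
  rw [gm, card_VB_gt, sub_sub_cancel]
  intro i
  generalize m • PP F = T at hm
  fin_cases i <;>
    simp only [DV, Fin.reduceFinMk, Fin.zero_eta, Fin.mk_one, Fin.isValue, cons_val, cons_val_zero,
      cons_val_one, map_sub, map_add, map_nsmul, nsmul_eq_mul, Nat.cast_ofNat] <;>
    linarith [hB.1, hB.2, hZ.1, hZ.2, hR.1, hR.2]

lemma LV_tw (B Z : Div F) (η : A F) (R : Div F) (m : ℕ) (x : Fin 8 → F) :
    (LV B Z η R).tw m (dlg x) = Model.equivVec (gm B Z η R m • (toM x).map (toA F)) := by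
  have e : piD (B + Z - (R + m • PP F)) = (piD (m • PP F))⁻¹ * piD (B + Z - R) := by
    rw [← piD_neg, ← piD_add]; congr 1; abel
  change wdg kV (piD (m • PP F)) (linG (tri B Z η) (piD (B + Z - R)) (dlg x)) = _
  rw [linG_apply, orb_wdg]
  simp only [gm, gt, G.smul_def, Model.scale_scale, e, mul_inv, inv_inv, Units.val_mul]
  rfl

lemma mem_LV_box {B Z : Div F} {η : A F} {R : Div F} {m : ℕ} {x : Fin 8 → F} :
    x ∈ (LV B Z η R).box m ↔ IntM (gm B Z η R m) (toM x) := by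
  rw [Lat.box, mem_hbox, LV_tw, intM_iff]

lemma LV_loc (B Z : Div F) (η : A F) (R : Div F) (m : ℕ) (v : Place F) (x : Fin 8 → F) :
    toM ((LV B Z η R).loc m v x) = locM v (gm B Z η R m) (toM x) := by
  unfold Lat.loc locM
  rw [LV_tw]

lemma avg_VB_gm (B Z : Div F) (η : A F) (R : Div F) (m : ℕ) (h : Model F → ℝ) :
    avg (VB (gm B Z η R m)) h = avg ((LV B Z η R).box m) fun x => h (toM x) := by
  have e : VB (gm B Z η R m) = ((LV B Z η R).box m).map Model.equivVec.symm.toEmbedding := by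
    ext f
    rw [Finset.mem_map_equiv, mem_LV_box, mem_VB, Equiv.symm_symm, toM, Equiv.symm_apply_apply]
  rw [e, avg, avg, Finset.sum_map, Finset.card_map]
  rfl

lemma orb_WB (R : Div F) (m : ℕ) :
    WB (R + m • PP F) = ((LW R).box m).map wEquivVec.symm.toEmbedding := by
  rw [LW, ← PB_eq_box, WB, PB]
  simp only [smul_add, smul_smul]

lemma mem_LW_box {R : Div F} {m : ℕ} {x : Fin 5 → F} :
    x ∈ (LW R).box m ↔ toW x ∈ WB (R + m • PP F) := by
  rw [orb_WB, Finset.mem_map_equiv, Equiv.symm_symm, toW, Equiv.apply_symm_apply]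

lemma LW_loc (R : Div F) (m : ℕ) (v : Place F) (x : Fin 5 → F) :
    toW ((LW R).loc m v x) = locW v (R + m • PP F) (toW x) := by
  unfold Lat.loc locW
  congr 1
  funext i
  congr 1
  change wdg kW (piD (m • PP F)) (ddg (fun i => kW i • R) (dlg x)) i = _
  rw [wdg_apply, ddg_apply, cW, piD_neg, ← wsc_unit, piD_nsmul R, piD_add, Units.val_mul,
    Units.val_pow_eq_pow_val, ← mul_assoc, ← mul_pow, mul_comm (piD (m • PP F) : A F)]
  fin_cases i
  exacts [congrArg (· * toA F (x 0)) (pow_one _), rfl, rfl, rfl, rfl]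

lemma avg_WB (R : Div F) (m : ℕ) (h : WeierstrassCurve F → ℝ) :
    avg (WB (R + m • PP F)) h = avg ((LW R).box m) fun x => h (toW x) := by
  rw [orb_WB, avg, avg, Finset.sum_map, Finset.card_map]
  rfl

end SelAvg.FF
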