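import Pool.Agent.H81Sel.Sum0
import Pool.Agent.H81Sel.Orb

/-! Row SUM1: dominated convergence over the bundles of rank two. -/

namespace SelAvg.FF

open WeierstrassCurve WithZero Filter Topology Matrix
open scoped Classical ENNReal

variable {F : Type} [Field F] [Cv F]

/-- `card_GB`, `card_WB` -/
lemma norm_const {D : Div F} (hD : (c0 F : ℤ) ≤ deg D) :
    ((GB D).card : ℝ) * fibM D * qq F ^ (13 * deg D + 8 * cc F) =
      qq F ^ (3 * cc F) * (WB D).card := by
  have hq : qq F ≠ 0 := (zero_lt_one.trans one_lt_qq).ne'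
  have hw : (ww F : ℝ) ≠ 0 := Nat.cast_ne_zero.2 ww_pos.ne'
  rw [card_GB hD, card_WB hD, fibM, mul_div_assoc', mul_assoc, mul_div_cancel_left₀ _ hw,
    ← zpow_add₀ hq, ← zpow_add₀ hq, ← zpow_add₀ hq]
  congr 1
  ring

lemma sum1_deg (R : Div F) : ∀ᶠ m : ℕ in atTop, (c0 F : ℤ) ≤ deg (R + m • PP F) := by
  filter_upwards [eventually_ge_atTop ((c0 F : ℤ) - deg R).toNat] with m hm
  have := dv_le_deg R m
  omega

/-- the real masses of the bundles of the two allowed degrees -/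
lemma sum1_mass {ρ₂ : X2 F → ℝ≥0∞} (h₂ : IsBru (act2 F) ρ₂) : ∃ r : X2 F → ℝ, Summable r ∧
    (∀ y, 0 ≤ r y) ∧ ∑' y, r y = 2 * kapR F * (qq F ^ (-3 * cc F) * zt F) ∧
    ∀ (u : X2 F → ℝ) (C Q : ℝ), (∀ y, 0 ≤ u y ∧ u y ≤ C) → 0 ≤ Q →
      ∑' y, ρ₂ y * (if par y then ENNReal.ofReal (u y * Q) else 0) =
        ENNReal.ofReal ((∑' y, r y * u y) * Q) := by
  have hfin : ∀ y, (if par y then ρ₂ y else 0) ≠ ⊤ := fun y => by
    split_ifs
    · exact ne_top_of_le_ne_top ENNReal.one_ne_top (h₂.le_one y)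
    · exact ENNReal.zero_ne_top
  have hs : Summable fun y => (if par y then ρ₂ y else 0).toReal :=
    ENNReal.summable_toReal (by rw [siegel_par h₂]; exact ENNReal.ofReal_ne_top)
  refine ⟨fun y => (if par y then ρ₂ y else 0).toReal, hs, fun y => ENNReal.toReal_nonneg, ?_, ?_⟩
  · have h1 : 0 < qq F := zero_lt_one.trans one_lt_qq
    have h2 : 0 < kapR F := kapR_pos
    have h3 : 0 < zt F := zero_lt_one.trans_le one_le_zt
    rw [← ENNReal.tsum_toReal_eq hfin, siegel_par h₂, ENNReal.toReal_ofReal (by positivity)]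
  · intro u C Q hu hQ
    have hs' : Summable fun y => (if par y then ρ₂ y else 0).toReal * u y :=
      (hs.mul_right C).of_nonneg_of_le (fun y => mul_nonneg ENNReal.toReal_nonneg (hu y).1)
        fun y => mul_le_mul_of_nonneg_left (hu y).2 ENNReal.toReal_nonneg
    rw [← tsum_mul_right, ENNReal.ofReal_tsum_of_nonneg
      (fun y => mul_nonneg (mul_nonneg ENNReal.toReal_nonneg (hu y).1) hQ) (hs'.mul_right Q)]
    refine tsum_congr fun y => ?_
    rw [mul_assoc, ENNReal.ofReal_mul ENNReal.toReal_nonneg, ENNReal.ofReal_toReal (hfin y)]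
    split_ifs <;> simp

/-- on the main orbit the total weight is the average times the size of the box -/
lemma sum1_Psi {h : G (A F) → Model F → ℝ} (hh : Adm h) {x : XG F} {γ : G F} {g : G (A F)}
    (hγ : actG F γ x = RC.mk (KG F) g) {Q : ℝ} (hQ : 0 < Q) (hc : ((VB g).card : ℝ) = Q) :
    Psi h x = avg (VB g) (h g) * Q := by
  rw [← hh.Psi_act γ x, hγ, hh.Psi_mk, avg, hc, div_mul_cancel₀ _ hQ.ne']

lemma sum1_const {D : Div F} (hD : (c0 F : ℤ) ≤ deg D) {T : ℝ} :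
    ((GB D).card : ℝ≥0∞) * (ENNReal.ofReal (fibM D) *
      ENNReal.ofReal (T * qq F ^ (13 * deg D + 8 * cc F))) =
      ENNReal.ofReal (qq F ^ (3 * cc F) * T * (WB D).card) := by
  rw [← ENNReal.ofReal_natCast, ← ENNReal.ofReal_mul (fibM_pos D).le,
    ← ENNReal.ofReal_mul (Nat.cast_nonneg _)]
  congr 1
  linear_combination T * norm_const hD

lemma sum1_kap (a : ℝ) : kap F * ENNReal.ofReal a = ENNReal.ofReal (kapR F * a) := by
  rw [← ofReal_kapR, ← ENNReal.ofReal_mul kapR_pos.le]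

lemma sum1_WB_pos {D : Div F} (hD : (c0 F : ℤ) ≤ deg D) : (0 : ℝ) < (WB D).card := by
  rw [card_WB hD]
  exact zpow_pos (zero_lt_one.trans one_lt_qq) _

lemma sum1_inv : qq F ^ (3 * cc F) * qq F ^ (-3 * cc F) = 1 := by
  rw [← zpow_add₀ (zero_lt_one.trans one_lt_qq).ne']
  simp

/-- Let `ρ₂` be a Bruhat function for `act2`, `r y = if par y then (ρ₂ y).toReal else 0`
(summable with sum `2 kapR q^(-3 c) ζ`, `siegel_par`).  For each `y` choose `B, Z, η`
(`exists_mk_tri`).  Let `u m y` be the average over `VB (gm ..)` if the conclusions of `exists_gm`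
and `card_VB_gm` hold for `m` and the average is at most `L`, and the constant of `exists_Psi_le`
otherwise.  Use `SD_le_tsum`, `fibre_le`, `norm_const`, `tsum_eventually_le`. -/
theorem SD_eventually_le (R : Div F) (S : Finset (Place F)) {L : ℝ} (hL : 0 ≤ L)
    (h : ∀ B Z η, ∀ᶠ m : ℕ in atTop, avg (VB (gm B Z η R m)) (upF S (gm B Z η R m)) ≤ L)
    {ε : ℝ} (hε : 0 < ε) : ∀ᶠ m : ℕ in atTop, SD (R + m • PP F) ≤ 2 * zt F * L + ε := by
  obtain ⟨ρ₂, h₂⟩ := exists_bru (act2 F) finite_stab2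
  obtain ⟨ρ, hρ, hfib⟩ := exists_rhoG h₂
  obtain ⟨r, hr, hr0, hrs, hru⟩ := sum1_mass h₂
  obtain ⟨C, hC0, hC⟩ := exists_Psi_le (F := F)
  choose B Z η hy using exists_mk_tri (F := F)
  have hq : 0 < qq F := zero_lt_one.trans one_lt_qq
  have hk : 0 < kapR F := kapR_pos
  obtain ⟨Good, hGood⟩ : ∃ Good : ℕ → X2 F → Prop, ∀ m y, Good m y ↔
      (∀ x ∈ XD (R + m • PP F), pM x = RC.mk (K2 F) (tri (B y) (Z y) (η y)) →
        ∃ γ : G F, actG F γ x = RC.mk (KG F) (gm (B y) (Z y) (η y) R m)) ∧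
      ((VB (gm (B y) (Z y) (η y) R m)).card : ℝ) = qq F ^ (13 * deg (R + m • PP F) + 8 * cc F) ∧
      avg (VB (gm (B y) (Z y) (η y) R m)) (upF S (gm (B y) (Z y) (η y) R m)) ≤ L :=
    ⟨_, fun _ _ => Iff.rfl⟩
  obtain ⟨u, hu⟩ : ∃ u : ℕ → X2 F → ℝ, ∀ m y, u m y = if Good m y then
      avg (VB (gm (B y) (Z y) (η y) R m)) (upF S (gm (B y) (Z y) (η y) R m)) else C :=
    ⟨_, fun _ _ => rfl⟩
  have hub : ∀ m y, 0 ≤ u m y ∧ u m y ≤ max C L := fun m y => by
    rw [hu]
    split_ifs with hg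
    · exact ⟨avg_nonneg fun f _ => (adm_upF S).nonneg _ f,
        ((hGood m y).1 hg).2.2.trans (le_max_right _ _)⟩
    · exact ⟨hC0.le, le_max_left _ _⟩
  have huL : ∀ y, ∀ᶠ m in atTop, u m y ≤ L := fun y => by
    filter_upwards [exists_gm (B y) (Z y) (η y) R, card_VB_gm (B y) (Z y) (η y) R,
      h (B y) (Z y) (η y)] with m h1 h2 h3
    rw [hu, if_pos ((hGood m y).2 ⟨h1, h2, h3⟩)]
    exact h3
  have hε' : 0 < ε * kapR F * qq F ^ (-3 * cc F) := by positivity
  filter_upwards [tsum_eventually_le hr hr0 u hL (Eventually.of_forall hub) huL hε', sum1_deg R]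
    with m hm hD
  have hQ : 0 < qq F ^ (13 * deg (R + m • PP F) + 8 * cc F) := zpow_pos hq _
  have h1 := fibre_le (hfib (R + m • PP F))
    (fun x => if par (pM x) then ENNReal.ofReal (Psi (upF S) x) else 0)
    (fun y => if par y then
      ENNReal.ofReal (u m y * qq F ^ (13 * deg (R + m • PP F) + 8 * cc F)) else 0) fun x hx => by
      split_ifs
      · refine ENNReal.ofReal_le_ofReal ?_
        rw [hu]
        split_ifs with hg
        · obtain ⟨g1, g2, -⟩ := (hGood m _).1 hg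
          obtain ⟨γ, hγ⟩ := g1 x hx (hy _)
          exact (sum1_Psi (adm_upF S) hγ hQ g2).le
        · exact hC _ (adm_upF S) _ ((Int.natCast_nonneg _).trans hD) x hx
      · exact le_rfl
  have hT : 0 ≤ ∑' y, r y * u m y := tsum_nonneg fun y => mul_nonneg (hr0 y) (hub m y).1
  have h2 := (SD_le_tsum hD S hρ).trans (mul_le_mul_right h1 _)
  rw [hru (u m) _ _ (hub m) hQ.le, sum1_const hD, sum1_kap,
    ENNReal.ofReal_le_ofReal_iff (mul_nonneg (mul_nonneg (zpow_pos hq _).le hT)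
      (sum1_WB_pos hD).le), ← mul_assoc] at h2
  have h3 := le_of_mul_le_mul_right h2 (sum1_WB_pos hD)
  have h4 := mul_le_mul_of_nonneg_left hm (zpow_pos hq (3 * cc F)).le
  rw [hrs] at h4
  refine le_of_mul_le_mul_left (h3.trans (h4.trans_eq ?_)) hk
  linear_combination (2 * L * kapR F * zt F + ε * kapR F) * sum1_inv (F := F)

/-- The same with `u m y = 0` in the bad case, `tsum_le_SD`, `le_fibre`, `tsum_eventually_ge`
(averages are at most `768`). -/
theorem SD_eventually_ge (R : Div F) (S : Finset (Place F)) {L : ℝ}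
    (h : ∀ B Z η, ∀ᶠ m : ℕ in atTop, L ≤ avg (VB (gm B Z η R m)) (lowF S (gm B Z η R m)))
    {ε : ℝ} (hε : 0 < ε) : ∀ᶠ m : ℕ in atTop, 2 * zt F * L - ε ≤ SD (R + m • PP F) := by
  obtain ⟨ρ₂, h₂⟩ := exists_bru (act2 F) finite_stab2
  obtain ⟨ρ, hρ, hfib⟩ := exists_rhoG h₂
  obtain ⟨r, hr, hr0, hrs, hru⟩ := sum1_mass h₂
  choose B Z η hy using exists_mk_tri (F := F)
  have hq : 0 < qq F := zero_lt_one.trans one_lt_qq
  have hk : 0 < kapR F := kapR_pos
  obtain ⟨Good, hGood⟩ : ∃ Good : ℕ → X2 F → Prop, ∀ m y, Good m y ↔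
      (∀ x ∈ XD (R + m • PP F), pM x = RC.mk (K2 F) (tri (B y) (Z y) (η y)) →
        ∃ γ : G F, actG F γ x = RC.mk (KG F) (gm (B y) (Z y) (η y) R m)) ∧
      ((VB (gm (B y) (Z y) (η y) R m)).card : ℝ) = qq F ^ (13 * deg (R + m • PP F) + 8 * cc F) ∧
      L ≤ avg (VB (gm (B y) (Z y) (η y) R m)) (lowF S (gm (B y) (Z y) (η y) R m)) :=
    ⟨_, fun _ _ => Iff.rfl⟩
  obtain ⟨u, hu⟩ : ∃ u : ℕ → X2 F → ℝ, ∀ m y, u m y = if Good m y then
      avg (VB (gm (B y) (Z y) (η y) R m)) (lowF S (gm (B y) (Z y) (η y) R m)) else 0 :=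
    ⟨_, fun _ _ => rfl⟩
  have hub : ∀ m y, 0 ≤ u m y ∧ u m y ≤ 768 := fun m y => by
    rw [hu]
    split_ifs with hg
    · refine ⟨avg_nonneg fun f _ => (adm_lowF S).nonneg _ f,
        avg_le_of_le (by norm_num) fun f hf => ((adm_lowF S).le _ f (mem_VB.1 hf)).trans ?_⟩
      have := ind_le_one (¬f.Triv)
      linarith
    · exact ⟨le_rfl, by norm_num⟩
  have huL : ∀ y, ∀ᶠ m in atTop, L ≤ u m y := fun y => by
    filter_upwards [exists_gm (B y) (Z y) (η y) R, card_VB_gm (B y) (Z y) (η y) R,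
      h (B y) (Z y) (η y)] with m h1 h2 h3
    rw [hu, if_pos ((hGood m y).2 ⟨h1, h2, h3⟩)]
    exact h3
  have hε' : 0 < ε * kapR F * qq F ^ (-3 * cc F) := by positivity
  filter_upwards [tsum_eventually_ge hr hr0 u (Eventually.of_forall hub) huL hε', sum1_deg R]
    with m hm hD
  have hQ : 0 < qq F ^ (13 * deg (R + m • PP F) + 8 * cc F) := zpow_pos hq _
  have h1 := le_fibre (hfib (R + m • PP F))
    (fun x => if par (pM x) then ENNReal.ofReal (Psi (lowF S) x) else 0)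
    (fun y => if par y then
      ENNReal.ofReal (u m y * qq F ^ (13 * deg (R + m • PP F) + 8 * cc F)) else 0) fun x hx => by
      split_ifs
      · refine ENNReal.ofReal_le_ofReal ?_
        rw [hu]
        split_ifs with hg
        · obtain ⟨g1, g2, -⟩ := (hGood m _).1 hg
          obtain ⟨γ, hγ⟩ := g1 x hx (hy _)
          exact (sum1_Psi (adm_lowF S) hγ hQ g2).ge
        · rw [zero_mul]
          exact (adm_lowF S).Psi_nonneg x
      · exact le_rfl
  have hS : 0 ≤ SD (R + m • PP F) := avg_nonneg fun W _ =>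
    mul_nonneg (mul_nonneg (ind_nonneg _) (Nat.cast_nonneg _)) (Nat.cast_nonneg _)
  have h2 := (mul_le_mul_right h1 _).trans (tsum_le_SD hD S hρ)
  rw [hru (u m) _ _ (hub m) hQ.le, sum1_const hD, sum1_kap,
    ENNReal.ofReal_le_ofReal_iff (mul_nonneg hk.le (mul_nonneg hS (sum1_WB_pos hD).le)),
    ← mul_assoc] at h2
  have h3 := le_of_mul_le_mul_right h2 (sum1_WB_pos hD)
  have h4 := mul_le_mul_of_nonneg_left hm (zpow_pos hq (3 * cc F)).le
  rw [hrs] at h4
  refine le_of_mul_le_mul_left ((Eq.trans_le ?_ h4).trans h3) hk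
  linear_combination (-(2 * L * kapR F * zt F - ε * kapR F)) * sum1_inv (F := F)

end SelAvg.FF
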