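import Pool.Agent.H81Sel.Ade

/-! Row DER: the derivation, from `Cv` alone.

Plan.  `p = ringChar F`.
* `[F : F^p] ≤ p`: if `x 0, .., x p` are independent over `F^p` and lie in `L(B)`, the map
  `(y i) ↦ ∑ y i ^ p * x i` from `L(m P)^(p+1)` to `L(p m P + B)` is injective, which contradicts
  `card_box` for large `m`.
* A uniformiser `π` has `1, π, .., π^(p-1)` independent over `F^p` (valuations distinct modulo
  `p`), so they form a basis; `D (∑ y i ^ p π^i) = ∑ i y i ^ p π^(i-1)`; the kernel is `F^p`.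
  (Any construction is fine, for instance `F = F^p[X] / (X^p - π^p)` and `Polynomial.derivative`.)
* Bound at all places at once.  Let `R = ⋃ m, L(m P)`.  For `x` with pole divisor `s P`, `s > 0`,
  and large `m`: `L((m + s) P) = L(m P) + x L(m P)` by `card_box` (the intersection is
  `x L((m - s) P)`).  So `R` is additively generated by the `x^j y`, `y ∈ L(m₀ P + s P)`, and `D R`
  has poles outside `P` bounded by one divisor.  For `v ≠ P`, an element of the valuation ring is
  `a / b` with `a, b ∈ R`, `v b = 1` (`approx` or `card_box`).  For `v = P` (or any single place)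
  write `x = ∑ y i ^ p π_v^i`: the valuations of the terms are distinct, so each term is integral,
  and `D x = (∑ i y i ^ p π_v^(i-1)) D π_v`. -/

namespace SelAvg.FF

open WithZero

variable {F : Type} [Field F]

/-- a derivation with kernel the `p`-th powers and bounded poles -/
structure IsDer (D : F →+ F) (t : F) (K : Div F) : Prop where
  nonneg : 0 ≤ K
  leibniz : ∀ x y, D (x * y) = x * D y + D x * y
  one : D t = 1
  ker : ∀ x, D x = 0 → ∃ y, x = y ^ ringChar F
  bound : ∀ (v : Place F) (x : F), v.1 x ≤ 1 → v.1 (D x) ≤ exp (K v)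

section Aux

open Polynomial

lemma der_term (v : Place F) {π : F} (hπ : v.1 π = exp (-1)) {y : F} (hy : y ≠ 0) (p i : ℕ) :
    v.1 (y ^ p * π ^ i) = exp ((p : ℤ) * log (v.1 y) - i) := by
  have h0 : v.1 y ≠ 0 := (Valuation.ne_zero_iff _).2 hy
  obtain ⟨a, ha⟩ : ∃ a : ℤ, v.1 y = exp a := ⟨_, (exp_log h0).symm⟩
  rw [map_mul, map_pow, map_pow, hπ, ha, log_exp, ← exp_nsmul, ← exp_nsmul, ← exp_add]
  congr 1
  simp only [nsmul_eq_mul]
  ring

lemma der_le_sum (v : Place F) {π : F} (hπ : v.1 π = exp (-1)) {p : ℕ} (y : Fin p → F)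
    (j : Fin p) : v.1 (y j ^ p * π ^ (j : ℕ)) ≤ v.1 (∑ i : Fin p, y i ^ p * π ^ (i : ℕ)) := by
  classical
  have hp : p ≠ 0 := j.pos.ne'
  obtain ⟨i0, -, hi0⟩ := Finset.exists_max_image Finset.univ
    (fun i : Fin p => v.1 (y i ^ p * π ^ (i : ℕ))) ⟨j, Finset.mem_univ _⟩
  by_cases h0 : y i0 = 0
  · refine (hi0 j (Finset.mem_univ _)).trans ?_
    simp [h0, hp]
  rw [v.1.map_sum_eq_of_lt (Finset.mem_univ i0)]
  · exact hi0 j (Finset.mem_univ _)
  intro i hi
  have hne : i ≠ i0 := by simpa using hi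
  refine lt_of_le_of_ne (hi0 i (Finset.mem_univ _)) fun h => ?_
  by_cases hi' : y i = 0
  · rw [der_term v hπ h0, hi', zero_pow hp, zero_mul, map_zero] at h
    exact exp_ne_zero h.symm
  · rw [der_term v hπ h0, der_term v hπ hi', exp_inj] at h
    have hd : (p : ℤ) ∣ ((i : ℕ) : ℤ) - ((i0 : ℕ) : ℤ) :=
      ⟨log (v.1 (y i)) - log (v.1 (y i0)), by linear_combination -h⟩
    have h1 := i.2
    have h2 := i0.2
    have := Int.eq_zero_of_abs_lt_dvd hd (by rw [abs_lt]; constructor <;> omega)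
    exact hne (Fin.ext (by omega))

lemma der_indep (v : Place F) {π : F} (hπ : v.1 π = exp (-1)) {p : ℕ} (y : Fin p → F)
    (h : ∑ i : Fin p, y i ^ p * π ^ (i : ℕ) = 0) (j : Fin p) : y j = 0 := by
  by_contra hj
  have := der_le_sum v hπ y j
  rw [h, map_zero, der_term v hπ hj] at this
  exact exp_ne_zero (le_antisymm this zero_le)

lemma der_int (v : Place F) (n : ℤ) : v.1 (n : F) ≤ 1 :=
  (Valuation.mem_integer_iff _ _).1 (intCast_mem v.1.integer n)

variable {p : ℕ} [Fact p.Prime] [CharP F p]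

lemma der_ev_zero (v : Place F) {π : F} (hπ : v.1 π = exp (-1)) {r : F[X]} (hr : r.natDegree < p)
    (h : r.eval₂ (frobenius F p) π = 0) : r = 0 := by
  rw [eval₂_eq_sum_range' _ hr, Finset.sum_range] at h
  ext i
  by_cases hi : i < p
  · exact der_indep v hπ (fun i : Fin p => r.coeff i) h ⟨i, hi⟩
  · exact coeff_eq_zero_of_natDegree_lt (by omega)

omit [CharP F p] in
lemma der_red (π : F) (f : F[X]) : ∃ r g : F[X], r.natDegree < p ∧
    f = r + (X ^ p - C π) * g := by
  have hp : p ≠ 0 := (Fact.out : p.Prime).ne_zero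
  have hm : (X ^ p - C π : F[X]).Monic := monic_X_pow_sub_C π hp
  refine ⟨f %ₘ (X ^ p - C π), f /ₘ (X ^ p - C π), ?_, (modByMonic_add_div _ _).symm⟩
  have := natDegree_modByMonic_lt f hm fun h => hp (by
    have := congrArg natDegree h
    rwa [natDegree_X_pow_sub_C, natDegree_one] at this)
  rwa [natDegree_X_pow_sub_C] at this

lemma der_ev_mod (π : F) : (X ^ p - C π : F[X]).eval₂ (frobenius F p) π = 0 := by
  simp [frobenius_def]

lemma der_ev_der (v : Place F) {π : F} (hπ : v.1 π = exp (-1)) {f : F[X]}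
    (h : f.eval₂ (frobenius F p) π = 0) : (derivative f).eval₂ (frobenius F p) π = 0 := by
  obtain ⟨r, g, hr, rfl⟩ := der_red (p := p) π f
  rw [eval₂_add, eval₂_mul, der_ev_mod, zero_mul, add_zero] at h
  rw [der_ev_zero v hπ hr h, zero_add, derivative_mul, eval₂_add, eval₂_mul, eval₂_mul,
    der_ev_mod]
  simp [derivative_X_pow]

lemma der_exists (v : Place F) {π : F} (hπ : v.1 π = exp (-1))
    (hs : ∀ x : F, ∃ y : Fin p → F, x = ∑ i : Fin p, y i ^ p * π ^ (i : ℕ)) :
    ∃ D : F →+ F, (∀ x y, D (x * y) = x * D y + D x * y) ∧ D π = 1 ∧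
      ∀ x, D x = 0 → ∃ y, x = y ^ p := by
  have hs' : ∀ x : F, ∃ f : F[X], f.eval₂ (frobenius F p) π = x := fun x => by
    obtain ⟨y, rfl⟩ := hs x
    exact ⟨∑ i : Fin p, C (y i) * X ^ (i : ℕ), by simp [eval₂_finsetSum, frobenius_def]⟩
  choose g hg using hs'
  have key : ∀ f : F[X], (derivative (g (f.eval₂ (frobenius F p) π))).eval₂ (frobenius F p) π =
      (derivative f).eval₂ (frobenius F p) π := fun f => by
    have := der_ev_der v hπ (f := g (f.eval₂ (frobenius F p) π) - f) (by rw [eval₂_sub, hg, sub_self])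
    rwa [derivative_sub, eval₂_sub, sub_eq_zero] at this
  refine ⟨AddMonoidHom.mk' (fun x => (derivative (g x)).eval₂ (frobenius F p) π) fun x y => ?_,
    fun x y => ?_, ?_, fun x hx => ?_⟩
  · have := key (g x + g y)
    rwa [eval₂_add, hg, hg, derivative_add, eval₂_add] at this
  · have := key (g x * g y)
    rw [eval₂_mul, hg, hg, derivative_mul, eval₂_add, eval₂_mul, eval₂_mul, hg, hg] at this
    simp only [AddMonoidHom.mk'_apply]
    rw [this, add_comm]
  · have := key X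
    rwa [eval₂_X, derivative_X, eval₂_one] at this
  · obtain ⟨r, h, hr, e⟩ := der_red (p := p) π (g x)
    have hx' : r.eval₂ (frobenius F p) π = x := by
      rw [← hg x, e, eval₂_add, eval₂_mul, der_ev_mod, zero_mul, add_zero]
    have h1 := key r
    rw [hx'] at h1
    have h2 : derivative r = 0 := der_ev_zero v hπ
      (lt_of_le_of_lt ((natDegree_derivative_le r).trans (Nat.sub_le _ _)) hr) (h1.symm.trans hx)
    have h3 : r = C (r.coeff 0) := by
      ext i
      rcases i with _ | i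
      · simp
      · rw [coeff_C_succ]
        by_cases hi : i + 1 < p
        · have h4 := congrArg (fun f : F[X] => f.coeff i) h2
          simp only [coeff_derivative, coeff_zero, mul_eq_zero] at h4
          refine h4.resolve_right fun h5 => ?_
          have h6 : ((i + 1 : ℕ) : F) = 0 := by exact_mod_cast h5
          rw [CharP.cast_eq_zero_iff F p] at h6
          exact absurd (Nat.le_of_dvd (by omega) h6) (by omega)
        · exact coeff_eq_zero_of_natDegree_lt (by omega)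
    exact ⟨r.coeff 0, by rw [← hx', h3, eval₂_C, frobenius_def, coeff_C_zero]⟩

lemma der_pow {D : F →+ F} (hD : ∀ x y, D (x * y) = x * D y + D x * y) (x : F) (n : ℕ) :
    D (x ^ (n + 1)) = (n + 1) * x ^ n * D x := by
  induction n with
  | zero => simp
  | succ n ih =>
    rw [pow_succ, hD, ih]
    push_cast
    ring

lemma der_one {D : F →+ F} (hD : ∀ x y, D (x * y) = x * D y + D x * y) : D 1 = 0 := by
  have := hD 1 1
  simpa using this

lemma der_pow_char {D : F →+ F} (hD : ∀ x y, D (x * y) = x * D y + D x * y) (x : F) :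
    D (x ^ p) = 0 := by
  obtain ⟨n, hn⟩ : ∃ n, p = n + 1 := ⟨p - 1, by have := (Fact.out : p.Prime).pos; omega⟩
  have h : ((n : F) + 1) = 0 := by
    have := CharP.cast_eq_zero F p
    rw [hn] at this
    exact_mod_cast this
  rw [hn, der_pow hD, h, zero_mul, zero_mul]

/-- the poles of the derivative of an integral element are bounded by those of `D π` -/
lemma der_loc {D : F →+ F} (hD : ∀ x y, D (x * y) = x * D y + D x * y) (v : Place F) {π : F}
    (hπ : v.1 π = exp (-1))
    (hs : ∀ x : F, ∃ y : Fin p → F, x = ∑ i : Fin p, y i ^ p * π ^ (i : ℕ)) {x : F}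
    (hx : v.1 x ≤ 1) : v.1 (D x) ≤ v.1 (D π) := by
  obtain ⟨y, rfl⟩ := hs x
  rw [map_sum]
  refine v.1.map_sum_le fun j _ => ?_
  have hy : v.1 (y j) ≤ 1 := by
    by_cases h0 : y j = 0
    · simp [h0]
    · have h1 := (der_le_sum v hπ y j).trans hx
      rw [der_term v hπ h0, ← exp_zero, exp_le_exp] at h1
      have h2 : v.1 (y j) ≠ 0 := (Valuation.ne_zero_iff _).2 h0
      rw [← exp_log h2, ← exp_zero, exp_le_exp]
      have h3 : ((j : ℕ) : ℤ) < p := by exact_mod_cast j.2
      by_contra h4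
      nlinarith
  have hπ1 : v.1 π ≤ 1 := by rw [hπ, ← exp_zero, exp_le_exp]; norm_num
  rw [hD, der_pow_char hD, zero_mul, add_zero, map_mul, map_pow]
  refine (mul_le_of_le_one_left' (pow_le_one' hy _)).trans ?_
  rcases (j : ℕ) with _ | n
  · simp [der_one hD]
  · rw [der_pow hD, map_mul, map_mul, map_pow]
    have h1 : v.1 ((n : F) + 1) ≤ 1 := by
      have := der_int v (n + 1)
      push_cast at this
      exact this
    exact mul_le_of_le_one_left' (mul_le_one' h1 (pow_le_one' hπ1 _))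

lemma der_dep [Cv F] (x : Fin (p + 1) → F) :
    ∃ y : Fin (p + 1) → F, y ≠ 0 ∧ ∑ i, y i ^ p * x i = 0 := by
  classical
  obtain ⟨B, hB0, hB⟩ := exists_mem_LL x
  have hpp : (1 : ℤ) ≤ pp F := by exact_mod_cast dg_pos (Cv.P : Place F)
  have hp1 : (1 : ℤ) ≤ p := by exact_mod_cast (Fact.out : p.Prime).pos
  have hdB := deg_nonneg hB0
  obtain ⟨m, hm1, hm2⟩ : ∃ m : ℕ, (c0 F : ℤ) ≤ m ∧ deg B - p * cc F < m :=
    ⟨c0 F + (deg B - p * cc F).toNat + 1, by push_cast; omega, by push_cast; omega⟩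
  have hm0 : (0 : ℤ) ≤ m := Int.natCast_nonneg m
  have hd1 : deg (m • PP F) = m * pp F := by rw [map_nsmul, deg_PP, nsmul_eq_mul]
  have hd2 : deg (p • m • PP F + B) = p * (m * pp F) + deg B := by
    rw [map_add, map_nsmul, hd1, nsmul_eq_mul]
  have hm3 : (m : ℤ) ≤ m * pp F := by nlinarith
  have hc1 := card_box (D := m • PP F) (by rw [hd1]; omega)
  have hc2 := card_box (D := p • m • PP F + B) (by rw [hd2]; nlinarith)
  have hlt : (box (p • m • PP F + B)).card <
      (Fintype.piFinset fun _ : Fin (p + 1) => box (m • PP F)).card := by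
    rw [Fintype.card_piFinset_const, ← Nat.cast_lt (α := ℝ), Nat.cast_pow, hc1, hc2,
      ← zpow_natCast, ← zpow_mul, hd1, hd2]
    refine zpow_lt_zpow_right₀ one_lt_qq ?_
    push_cast
    nlinarith
  obtain ⟨y, -, y', -, hne, he⟩ := Finset.exists_ne_map_eq_of_card_lt_of_maps_to hlt
    (f := fun y => ∑ i, y i ^ p * x i) fun y hy => by
      rw [Finset.mem_coe, Fintype.mem_piFinset] at hy
      rw [Finset.mem_coe, mem_box]
      exact sum_mem fun i _ => mul_mem_LL (pow_mem_LL (mem_box.1 (hy i)) p) (hB i)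
  refine ⟨y - y', sub_ne_zero.2 hne, ?_⟩
  simp only [Pi.sub_apply, sub_pow_char, sub_mul, Finset.sum_sub_distrib]
  exact sub_eq_zero.2 he

lemma der_span [Cv F] (v : Place F) {π : F} (hπ : v.1 π = exp (-1)) (x : F) :
    ∃ y : Fin p → F, x = ∑ i : Fin p, y i ^ p * π ^ (i : ℕ) := by
  have hp : p ≠ 0 := (Fact.out : p.Prime).ne_zero
  obtain ⟨y, hy, h⟩ := der_dep (p := p) (Fin.cons x fun i : Fin p => π ^ (i : ℕ))
  rw [Fin.sum_univ_succ] at h
  simp only [Fin.cons_zero, Fin.cons_succ] at h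
  have h0 : y 0 ≠ 0 := fun h0 => hy (by
    rw [h0, zero_pow hp, zero_mul, zero_add] at h
    funext i
    refine Fin.cases h0 (fun i => ?_) i
    exact der_indep v hπ (fun i => y i.succ) h i)
  refine ⟨fun i => (0 - y i.succ) / y 0, ?_⟩
  have h1 : y 0 ^ p ≠ 0 := pow_ne_zero _ h0
  apply mul_left_cancel₀ h1
  rw [eq_neg_of_add_eq_zero_left h, Finset.mul_sum, ← Finset.sum_neg_distrib]
  refine Finset.sum_congr rfl fun i _ => ?_
  rw [div_pow, sub_pow_char, zero_pow hp]
  field_simp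
  ring

lemma der_approx [Cv F] (w : Place F) (y : F) {E : Div F} (h : (c0 F : ℤ) ≤ deg E) :
    ∃ x : F, w.1 (x - y) ≤ exp (E w) ∧ ∀ v, v ≠ w → v.1 x ≤ exp (E v) := by
  classical
  obtain ⟨b, hb⟩ := exists_adele (fun v : Place F => if v = w then algebraMap F v.Compl y else 0)
    ((Set.finite_singleton w).subset fun v hv => by
      by_contra hne
      exact hv (by simp [show v ≠ w from hne]))
  obtain ⟨x, hx⟩ := approx h b
  refine ⟨x, ?_, fun v hv => ?_⟩
  · have := mem_AD.1 hx w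
    rwa [map_sub, hb, if_pos rfl, pr_toA, ← map_sub, Place.vc_algebraMap] at this
  · have := mem_AD.1 hx v
    rwa [map_sub, hb, if_neg hv, sub_zero, pr_toA, Place.vc_algebraMap] at this

lemma der_PP_self [Cv F] (m : ℕ) : (m • PP F) (Cv.P : Place F) = m := by
  simp [PP]

lemma der_PP_ne [Cv F] (m : ℕ) {v : Place F} (hv : v ≠ Cv.P) : (m • PP F) v = 0 := by
  simp [PP, Finsupp.single_eq_of_ne hv]

lemma der_deg [Cv F] {m : ℕ} (hm : c0 F ≤ m) : (c0 F : ℤ) ≤ deg (m • PP F) := by
  have hpp : (1 : ℤ) ≤ pp F := by exact_mod_cast dg_pos (Cv.P : Place F)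
  have hm' : (c0 F : ℤ) ≤ m := by exact_mod_cast hm
  have hm0 : (0 : ℤ) ≤ m := Int.natCast_nonneg m
  rw [map_nsmul, deg_PP, nsmul_eq_mul]
  nlinarith

lemma der_mem [Cv F] {m : ℕ} {z : F} : z ∈ LL (m • PP F) ↔
    (Cv.P : Place F).1 z ≤ exp (m : ℤ) ∧ ∀ v : Place F, v ≠ Cv.P → v.1 z ≤ 1 := by
  refine ⟨fun h => ⟨by simpa only [der_PP_self] using h Cv.P, fun v hv => ?_⟩, fun h v => ?_⟩
  · simpa only [der_PP_ne m hv, exp_zero] using h v
  · by_cases hv : v = Cv.P
    · rw [hv, der_PP_self]; exact h.1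
    · rw [der_PP_ne m hv, exp_zero]; exact h.2 v hv

/-- one divisor bounds the poles outside `P` of the derivatives of all elements of `L(n P)` -/
lemma der_ring [Cv F] {D : F →+ F} (hD : ∀ x y, D (x * y) = x * D y + D x * y) :
    ∃ B : Div F, 0 ≤ B ∧ ∀ (n : ℕ) (z : F), z ∈ LL (n • PP F) →
      ∀ v : Place F, v ≠ Cv.P → v.1 (D z) ≤ exp (B v) := by
  obtain ⟨a, ha⟩ := (Cv.P : Place F).2 (exp ((c0 F + 1 : ℕ) : ℤ))
  obtain ⟨x, hx1, hx2⟩ := der_approx Cv.P a (der_deg (F := F) le_rfl)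
  rw [der_PP_self] at hx1
  have hxP : (Cv.P : Place F).1 x = exp ((c0 F + 1 : ℕ) : ℤ) := by
    rw [← ha, ← sub_add_cancel x a]
    refine Valuation.map_add_eq_of_lt_right _ (hx1.trans_lt ?_)
    rw [ha, exp_lt_exp]
    push_cast
    omega
  have hx0 : x ≠ 0 := fun h => by
    rw [h, map_zero] at hxP
    exact exp_ne_zero hxP.symm
  have hxv : ∀ v : Place F, v ≠ Cv.P → v.1 x ≤ 1 := fun v hv => by
    simpa only [der_PP_ne _ hv, exp_zero] using hx2 v hv
  obtain ⟨B, hB0, hB⟩ := exists_mem_LL fun y : box ((2 * c0 F + 1) • PP F) => D y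
  have hbase : ∀ n : ℕ, n ≤ 2 * c0 F + 1 → ∀ z : F, z ∈ LL (n • PP F) →
      ∀ v : Place F, v.1 (D z) ≤ exp (B v) := fun n hn z hz v =>
    hB ⟨z, mem_box.2 (LL_mono (nsmul_le_nsmul_left PP_nonneg hn) hz)⟩ v
  have hDx := hbase (c0 F + 1) (by omega) x (der_mem.2 ⟨hxP.le, hxv⟩)
  refine ⟨B, hB0, fun n => ?_⟩
  induction n using Nat.strong_induction_on with
  | _ n ih =>
    intro z hz v hv
    by_cases hn : n ≤ 2 * c0 F + 1
    · exact hbase n hn z hz v
    obtain ⟨k, rfl⟩ : ∃ k, n = k + 1 + (c0 F + 1) := ⟨n - (c0 F + 2), by omega⟩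
    obtain ⟨w, hw1, hw2⟩ := der_approx Cv.P (z / x) (der_deg (F := F) (m := k) (by omega))
    rw [der_PP_self] at hw1
    have hwv : ∀ v : Place F, v ≠ Cv.P → v.1 w ≤ 1 := fun v hv => by
      simpa only [der_PP_ne _ hv, exp_zero] using hw2 v hv
    obtain ⟨hz1, hz2⟩ := der_mem.1 hz
    have hzx : (Cv.P : Place F).1 (z / x) ≤ exp ((k + 1 : ℕ) : ℤ) := by
      rw [map_div₀, hxP, div_le_iff₀ (zero_lt_iff.2 exp_ne_zero), ← exp_add]
      exact_mod_cast hz1
    have hw : w ∈ LL ((k + 1) • PP F) := der_mem.2 ⟨by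
      rw [← sub_add_cancel w (z / x)]
      refine Valuation.map_add_le _ (hw1.trans ?_) hzx
      rw [exp_le_exp]
      push_cast
      omega, hwv⟩
    have hz' : z - x * w ∈ LL ((k + (c0 F + 1)) • PP F) := der_mem.2 ⟨by
      have e : z - x * w = -(x * (w - z / x)) := by field_simp; ring
      rw [e, Valuation.map_neg, map_mul, hxP, Nat.cast_add k, add_comm (k : ℤ), exp_add]
      exact mul_le_mul_right hw1 _, fun v hv =>
        Valuation.map_sub_le _ (hz2 v hv) (by rw [map_mul]; exact mul_le_one' (hxv v hv) (hwv v hv))⟩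
    have e : D z = D (z - x * w) + (x * D w + D x * w) := by rw [map_sub, hD]; ring
    rw [e]
    refine Valuation.map_add_le _ (ih _ (by omega) _ hz' v hv) (Valuation.map_add_le _ ?_ ?_)
    · rw [map_mul]
      exact (mul_le_of_le_one_left' (hxv v hv)).trans (ih _ (by omega) _ hw v hv)
    · rw [map_mul]
      exact (mul_le_of_le_one_right' (hwv v hv)).trans (hDx v)

/-- a uniformiser without poles outside `P` -/
lemma der_unif [Cv F] {v : Place F} (hv : v ≠ Cv.P) :
    ∃ (n : ℕ) (π : F), π ∈ LL (n • PP F) ∧ v.1 π = exp (-1) := by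
  obtain ⟨a, ha⟩ := v.2 (exp (-1))
  have hpp : (1 : ℤ) ≤ pp F := by exact_mod_cast dg_pos (Cv.P : Place F)
  obtain ⟨x, hx1, hx2⟩ := der_approx v a
    (E := (c0 F + 2 * dg v) • PP F + Finsupp.single v (-2)) (by
      rw [map_add, map_nsmul, deg_PP, deg_single, nsmul_eq_mul]
      push_cast
      have h1 : (0 : ℤ) ≤ c0 F := Int.natCast_nonneg _
      have h2 : (0 : ℤ) ≤ dg v := Int.natCast_nonneg _
      nlinarith)
  rw [Finsupp.add_apply, der_PP_ne _ hv, Finsupp.single_eq_same] at hx1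
  have hxv : v.1 x = exp (-1) := by
    rw [← ha, ← sub_add_cancel x a]
    refine Valuation.map_add_eq_of_lt_right _ (hx1.trans_lt ?_)
    rw [ha, exp_lt_exp]
    norm_num
  refine ⟨c0 F + 2 * dg v, x, fun w => ?_, hxv⟩
  by_cases hw : w = v
  · rw [hw, hxv, der_PP_ne _ hv, exp_le_exp]
    norm_num
  · have := hx2 w hw
    rwa [Finsupp.add_apply, Finsupp.single_eq_of_ne hw, add_zero] at this

lemma der_zpow {D : F →+ F} (hD : ∀ x y, D (x * y) = x * D y + D x * y) {π : F} (hπ : π ≠ 0)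
    (k : ℤ) : D (π ^ k) = k * π ^ (k - 1) * D π := by
  induction k using Int.induction_on with
  | zero => simp [der_one hD]
  | succ n ih =>
    rw [zpow_add_one₀ hπ, hD, ih, add_sub_cancel_right, zpow_sub_one₀ hπ]
    push_cast
    field_simp
    ring
  | pred n ih =>
    have h := hD (π ^ (-(n : ℤ) - 1)) π
    rw [← zpow_add_one₀ hπ, sub_add_cancel, ih] at h
    apply mul_right_cancel₀ hπ
    rw [eq_sub_of_add_eq' h.symm, zpow_sub_one₀ hπ (-(n : ℤ) - 1)]
    push_cast
    field_simp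

end Aux

theorem exists_der [Cv F] : ∃ (D : F →+ F) (t : F) (K : Div F), IsDer D t K := by
  have : Fact (ringChar F).Prime := ⟨prime_ringChar⟩
  obtain ⟨t, ht⟩ := (Cv.P : Place F).2 (exp (-1))
  obtain ⟨D, hD, h1, hk⟩ := der_exists (p := ringChar F) Cv.P ht (der_span Cv.P ht)
  obtain ⟨B, hB0, hB⟩ := der_ring hD
  refine ⟨D, t, B, hB0, hD, h1, hk, fun v x hx => ?_⟩
  by_cases hv : v = Cv.P
  · subst hv
    refine (der_loc (p := ringChar F) hD _ ht (der_span _ ht) hx).trans ?_
    rw [h1, map_one, ← exp_zero, exp_le_exp]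
    exact hB0 _
  · obtain ⟨n, π, hn, hπ⟩ := der_unif hv
    exact (der_loc (p := ringChar F) hD v hπ (der_span v hπ) hx).trans (hB n π hn v hv)

variable {D : F →+ F} {t : F} {K : Div F}

lemma IsDer.map_one (h : IsDer D t K) : D 1 = 0 := by
  exact der_one h.leibniz

lemma IsDer.map_pow (h : IsDer D t K) (x : F) (n : ℕ) : D (x ^ (n + 1)) = (n + 1) * x ^ n * D x := by
  exact der_pow h.leibniz x n

lemma IsDer.map_pow_char [Cv F] (h : IsDer D t K) (x : F) : D (x ^ ringChar F) = 0 := by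
  have : Fact (ringChar F).Prime := ⟨prime_ringChar⟩
  exact der_pow_char h.leibniz x

lemma IsDer.map_intCast (h : IsDer D t K) (n : ℤ) : D n = 0 := by
  rw [← zsmul_one, map_zsmul, h.map_one, smul_zero]

lemma der_pole (h : IsDer D t K) (v : Place F) {x : F} {m : ℤ} (hx : v.1 x ≤ exp m) :
    ∃ a b : F, D x = m * a + b ∧ v.1 a ≤ exp (m + K v + 1) ∧ v.1 b ≤ exp (m + K v) := by
  obtain ⟨π, hπ⟩ := v.2 (exp (-1))
  have hπ0 : π ≠ 0 := fun h => by
    rw [h, map_zero] at hπ
    exact exp_ne_zero hπ.symm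
  have hz : ∀ k : ℤ, v.1 (π ^ k) = exp (-k) := fun k => by
    rw [map_zpow₀, hπ, ← exp_zsmul]
    simp
  have hu : v.1 (x * π ^ m) ≤ 1 := by
    rw [map_mul, hz, ← exp_zero, ← add_neg_cancel m, exp_add]
    exact mul_le_mul_left hx _
  have hπ1 : v.1 π ≤ 1 := by rw [hπ, ← exp_zero, exp_le_exp]; norm_num
  have e : x = x * π ^ m * π ^ (-m) := by
    rw [mul_assoc, ← zpow_add₀ hπ0, add_neg_cancel, zpow_zero, mul_one]
  refine ⟨-(x * π ^ m * (π ^ (-m - 1) * D π)), D (x * π ^ m) * π ^ (-m), ?_, ?_, ?_⟩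
  · conv_lhs => rw [e, h.leibniz, der_zpow h.leibniz hπ0 (-m)]
    push_cast
    ring
  · rw [Valuation.map_neg, map_mul]
    refine (mul_le_of_le_one_left' hu).trans ?_
    rw [map_mul, hz, show m + K v + 1 = -(-m - 1) + K v by ring, exp_add]
    exact mul_le_mul_right (h.bound v π hπ1) _
  · rw [map_mul, hz, neg_neg, add_comm, exp_add]
    exact mul_le_mul_left (h.bound v _ hu) _

/-- write `x = π^(-m) u` -/
lemma IsDer.pole (h : IsDer D t K) (v : Place F) {x : F} {m : ℤ} (hx : v.1 x ≤ exp m) :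
    v.1 (D x) ≤ exp (m + K v + 1) := by
  obtain ⟨a, b, e, ha, hb⟩ := der_pole h v hx
  rw [e]
  refine Valuation.map_add_le _ ?_ (hb.trans (exp_le_exp.2 (by omega)))
  rw [map_mul]
  exact (mul_le_of_le_one_left' (der_int v m)).trans ha

/-- no loss if the order is zero in `F` -/
lemma IsDer.pole' (h : IsDer D t K) (v : Place F) {x : F} {m : ℤ} (hm : (m : F) = 0)
    (hx : v.1 x ≤ exp m) : v.1 (D x) ≤ exp (m + K v) := by
  obtain ⟨a, b, e, -, hb⟩ := der_pole h v hx
  rwa [e, hm, zero_mul, zero_add]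

/-- `D` maps `L(A + m P)` into `L(A + B + m P)` -/
theorem IsDer.map_LL [Cv F] (h : IsDer D t K) (A : Div F) : ∃ B : Div F, 0 ≤ B ∧
    ∀ (m : ℕ) (x : F), x ∈ LL (A + m • PP F) → D x ∈ LL (A + B + m • PP F) := by
  classical
  refine ⟨K + Finsupp.onFinset (insert Cv.P A.support)
    (fun v => if v ∈ insert Cv.P A.support then 1 else 0) (fun v hv => by by_contra hc; exact hv (if_neg hc)),
    add_nonneg h.nonneg fun v => ?_, fun m x hx v => ?_⟩
  · simp only [Finsupp.coe_zero, Pi.zero_apply, Finsupp.onFinset_apply]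
    split_ifs <;> norm_num
  · have hv := hx v
    simp only [Finsupp.add_apply, Finsupp.onFinset_apply] at hv ⊢
    split_ifs with hs
    · refine (h.pole v hv).trans (exp_le_exp.2 (le_of_eq ?_))
      ring
    · rw [Finset.mem_insert, not_or, Finsupp.notMem_support_iff] at hs
      rw [hs.2, der_PP_ne m hs.1] at hv ⊢
      simpa using h.bound v x (by simpa using hv)

end SelAvg.FF
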