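import Pool.Agent.H81Sel.TailA
import Pool.Agent.H81Sel.Der

/-! Row TAILB: squares of large places dividing the values of a separable polynomial. -/

namespace SelAvg.FF

open Polynomial WithZero Filter Topology
open scoped Classical

variable {F : Type} [Field F] {D : F →+ F} {t : F} {K : Div F}

/-- differentiate the coefficients -/
noncomputable def dcf (D : F →+ F) (P : F[X]) : F[X] := P.sum fun i a => monomial i (D a)

lemma coeff_dcf (P : F[X]) (i : ℕ) : (dcf D P).coeff i = D (P.coeff i) := by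
  unfold dcf
  rw [Polynomial.sum, finsetSum_coeff]
  simp only [coeff_monomial]
  rw [Finset.sum_ite_eq']
  split_ifs with h
  · rfl
  · rw [notMem_support_iff.1 h, map_zero]

lemma natDegree_dcf_le (P : F[X]) : (dcf D P).natDegree ≤ P.natDegree := by
  refine natDegree_le_iff_coeff_eq_zero.2 fun i hi => ?_
  rw [coeff_dcf, coeff_eq_zero_of_natDegree_lt hi, map_zero]

/-- the chain rule -/
lemma IsDer.eval (h : IsDer D t K) (P : F[X]) (e : F) :
    D (P.eval e) = (dcf D P + C (D e) * derivative P).eval e := by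
  induction P using Polynomial.induction_on' with
  | add p q hp hq =>
    have e1 : dcf D (p + q) = dcf D p + dcf D q := by
      ext1 i
      rw [coeff_add, coeff_dcf, coeff_dcf, coeff_dcf, coeff_add, map_add]
    rw [eval_add, map_add, hp, hq, e1, derivative_add]
    simp only [eval_add, eval_mul]
    ring
  | monomial n a =>
    have e1 : dcf D (monomial n a) = monomial n (D a) := by
      ext1 i
      rw [coeff_dcf, coeff_monomial, coeff_monomial]
      split_ifs
      · rfl
      · exact map_zero _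
    rw [e1, derivative_monomial, eval_add, eval_mul, eval_C, eval_monomial, eval_monomial,
      eval_monomial, h.leibniz]
    cases n with
    | zero => simp [h.map_one]
    | succ n =>
      rw [h.map_pow]
      simp only [Nat.add_sub_cancel, Nat.cast_add, Nat.cast_one]
      ring

lemma tb_deg {P : F[X]} (h3 : P.natDegree ≤ 3) (u : F) :
    (dcf D P + C u * derivative P).natDegree ≤ 3 :=
  natDegree_add_le_of_degree_le ((natDegree_dcf_le P).trans h3) ((natDegree_C_mul_le _ _).trans
    ((natDegree_derivative_le P).trans ((Nat.sub_le _ _).trans h3)))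

lemma tb_comp {P : F[X]} (h3 : P.natDegree ≤ 3) {p : ℕ} (c : F) :
    (P.comp (X ^ p + C c)).natDegree ≤ 3 * p := by
  refine natDegree_comp_le.trans (Nat.mul_le_mul h3 ?_)
  rw [natDegree_X_pow_add_C]

/-- For at most three values of `u` the resultant vanishes: over an algebraic closure `P` and
`dcf P + u P'` have a common root `ρ`, `P'(ρ) ≠ 0`, so `u` is determined by `ρ`. -/
theorem tb_card_resultant {P : F[X]} (h3 : P.natDegree ≤ 3) (hsep : P.Separable) (s : Finset F)
    (hs : ∀ u ∈ s, P.resultant (dcf D P + C u * derivative P) P.natDegree 3 = 0) :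
    s.card ≤ 3 := by
  let φ : F →+* AlgebraicClosure F := algebraMap _ _
  have hφ : Function.Injective φ := φ.injective
  have h1 : (P.map φ).Separable := hsep.map
  have h2 : (P.map φ).natDegree = P.natDegree := natDegree_map_eq_of_injective hφ P
  refine le_trans (Finset.card_le_card_of_injOn φ
    (t := (P.map φ).roots.toFinset.image fun ρ =>
      -((dcf D P).map φ).eval ρ / (derivative (P.map φ)).eval ρ) (fun u hu => ?_) hφ.injOn)
    (Finset.card_image_le.trans ((Multiset.toFinset_card_le _).trans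
      ((card_roots' _).trans (h2.le.trans h3))))
  have h4 := resultant_map_map P (dcf D P + C u * derivative P) P.natDegree 3 φ
  rw [hs u hu, map_zero, ← h2, resultant_eq_prod_eval _ _ _
    (natDegree_map_le.trans (tb_deg h3 u)) (IsAlgClosed.splits _), mul_eq_zero,
    Multiset.prod_eq_zero_iff, Multiset.mem_map] at h4
  rcases h4 with h4 | ⟨ρ, h5, h6⟩
  · exact absurd (leadingCoeff_eq_zero.1 (pow_eq_zero_iff (by norm_num) |>.1 h4)) h1.ne_zero
  · have h7 : (derivative (P.map φ)).eval ρ ≠ 0 := by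
      have := h1.aeval_derivative_ne_zero (x := ρ) (by
        rw [coe_aeval_eq_eval]
        exact (mem_roots h1.ne_zero).1 h5)
      rwa [coe_aeval_eq_eval] at this
    refine Finset.mem_coe.2 (Finset.mem_image.2 ⟨ρ, Multiset.mem_toFinset.2 h5, ?_⟩)
    rw [Polynomial.map_add, Polynomial.map_mul, map_C, ← derivative_map, eval_add, eval_mul,
      eval_C] at h6
    rw [div_eq_iff h7]
    linear_combination -h6

/-- a common root modulo `v` of two integral polynomials -/
lemma tb_resultant_lt {v : Place F} {P Q : F[X]} (hP : ∀ i, v.1 (P.coeff i) ≤ 1)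
    (hQ : ∀ i, v.1 (Q.coeff i) ≤ 1) (h3 : Q.natDegree ≤ 3) {e : F} (he : v.1 e ≤ 1)
    (h1 : v.1 (P.eval e) < 1) (h2 : v.1 (Q.eval e) < 1) :
    v.1 (P.resultant Q P.natDegree 3) < 1 := by
  obtain ⟨P', rfl⟩ := ta_lift hP
  obtain ⟨Q', rfl⟩ := ta_lift hQ
  lift e to OO v using he
  rw [natDegree_map_eq_of_injective (OO v).subtype_injective] at h3 ⊢
  obtain ⟨a, b, -, -, hab⟩ := exists_mul_add_mul_eq_C_resultant (m := P'.natDegree) (n := 3) P'
    Q' le_rfl h3 (Or.inr (by norm_num))
  have h4 := congrArg (eval e) hab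
  rw [eval_C, eval_add, eval_mul, eval_mul] at h4
  have e1 : ∀ R : (OO v)[X], (R.map (OO v).subtype).eval (e : F) = (R.eval e : OO v) := fun R => by
    rw [eval_map]
    exact eval₂_hom (OO v).subtype e
  rw [e1] at h1 h2
  rw [resultant_map_map, ← h4]
  refine (rO_eq_zero (eval e P' * eval e a + eval e Q' * eval e b)).1 ?_
  rw [map_add, map_mul, map_mul, (rO_eq_zero _).2 h1, (rO_eq_zero _).2 h2, zero_mul, zero_mul,
    add_zero]

/-- the resultant is a determinant whose entries are coefficients -/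
lemma tb_resultant_mem (P Q : F[X]) (m n : ℕ) {E : Div F} (hP : ∀ i, P.coeff i ∈ LL E)
    (hQ : ∀ i, Q.coeff i ∈ LL E) : P.resultant Q m n ∈ LL ((m + n) • E) := by
  rw [resultant, Matrix.det_apply]
  refine sum_mem fun σ _ => ?_
  rw [Units.smul_def]
  refine AddSubgroup.zsmul_mem _ ?_ _
  have h := ta_prod_mem Finset.univ (fun j => P.sylvester Q m n (σ j) j) (fun _ => E) fun j _ => by
    unfold sylvester
    rw [Matrix.of_apply]
    refine Fin.addCases (fun j => ?_) (fun j => ?_) j
    · rw [Fin.addCases_left]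
      split_ifs
      · exact hQ _
      · exact zero_mem _
    · rw [Fin.addCases_right]
      split_ifs
      · exact hP _
      · exact zero_mem _
  rwa [Finset.sum_const, Finset.card_univ, Fintype.card_fin] at h

variable [Cv F]

/-- a bad value of the derivative is rare -/
lemma tb_few {A : Div F} {N : ℕ} (h0 : (c0 F : ℤ) ≤ deg A) (hN : (N : ℤ) ≤ deg A) (Bad : F → Prop)
    {r : ℕ} (h : ∀ s : Finset F, (∀ u ∈ s, Bad u) → s.card ≤ r) (a : F) :
    dens (box A) (fun w => Bad (a + w ^ ringChar F)) ≤ r * (tkap F * (1 / 2 : ℝ) ^ N) := by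
  have := Fact.mk (prime_ringChar (F := F))
  refine dens_few_le h0 hN fun s hs => ?_
  have hi : Function.Injective fun w : F => a + w ^ ringChar F := fun x y e =>
    frobenius_inj F (ringChar F) (add_left_cancel e)
  rw [← Finset.card_image_of_injective _ hi]
  refine h _ fun u hu => ?_
  obtain ⟨w, hw, rfl⟩ := Finset.mem_image.1 hu
  exact hs w hw

/-- decoupling an element from its derivative -/
lemma tb_main (hD : IsDer D t K) {A A' T : Div F} {N : ℕ} (h0 : (c0 F : ℤ) ≤ deg A')
    (hN : (N : ℤ) ≤ deg A') (hT : 0 ≤ T) (ht : t ∈ LL T) (hA : T + ringChar F • A' ≤ A)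
    (Bad : F → Prop) {r : ℕ} (h : ∀ s : Finset F, (∀ u ∈ s, Bad u) → s.card ≤ r) {Φ : F → Prop}
    {c : ℝ} (hc : 0 ≤ c) (hΦ : ∀ a ∈ LL A, ¬Bad (D a) →
      dens (box A') (fun w => Φ (a + w ^ ringChar F)) ≤ c) :
    dens (box A) Φ ≤ r * (tkap F * (1 / 2 : ℝ) ^ N) + c := by
  have hk := tkap_nonneg (F := F)
  have hadd : ∀ x ∈ box A, ∀ y ∈ box A, x + y ∈ box A := fun x hx y hy =>
    mem_box.2 (add_mem (mem_box.1 hx) (mem_box.1 hy))
  have hpow : ∀ w ∈ box A', w ^ ringChar F ∈ box A := fun w hw =>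
    mem_box.2 (LL_mono ((le_add_of_nonneg_left hT).trans hA) (pow_mem_LL (mem_box.1 hw) _))
  have hpow' : ∀ w ∈ box A', t * w ^ ringChar F ∈ box A := fun w hw =>
    mem_box.2 (LL_mono hA (mul_mem_LL ht (pow_mem_LL (mem_box.1 hw) _)))
  have hne : (box A').Nonempty := ⟨0, zero_mem_box _⟩
  rw [dens_eq_avg, avg_shift hadd hne (fun w => w ^ ringChar F) hpow,
    avg_shift hadd hne (fun w => t * w ^ ringChar F) hpow']
  refine avg_le_of_le (by positivity) fun e he => ?_
  refine (avg_mono (G := fun w => ind (Bad (D e + w ^ ringChar F)) + c) fun w hw => ?_).trans ?_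
  · rw [← dens_eq_avg _ fun v => Φ (e + t * w ^ ringChar F + v ^ ringChar F)]
    by_cases hb : Bad (D e + w ^ ringChar F)
    · rw [ind_pos hb]
      exact (dens_le_one _ _).trans (le_add_of_nonneg_right hc)
    · rw [ind_neg hb, zero_add]
      refine hΦ _ (mem_box.1 (hadd _ he _ (hpow' w hw))) ?_
      rwa [map_add, hD.leibniz, hD.map_pow_char, hD.one, mul_zero, zero_add, one_mul]
  · rw [avg_add, avg_const hne, ← dens_eq_avg]
    exact add_le_add (tb_few h0 hN Bad h _) le_rfl

/-- Write `e = e₁ + t w₁^p + w₀^p` with `w₀, w₁ ∈ L(A')`; the derivative is `u = D e₁ + w₁^p`.  The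
resultant of `P` and `dcf P + u P'` vanishes for at most three `w₁`.  Otherwise apply `ek_one` to
the resultant and the polynomial `P.comp (X^p + C (e₁ + t w₁^p))`. -/
theorem tail_core (hD : IsDer D t K) {A A' T E : Div F} {N : ℕ} (h0 : (c0 F : ℤ) ≤ deg A')
    (hN : (N : ℤ) ≤ deg A') (hT : 0 ≤ T) (ht : t ∈ LL T) (hA : T + ringChar F • A' ≤ A)
    (hE : 0 ≤ E) {B : ℕ} (hB : deg E ≤ B) (hDA : ∀ x ∈ LL A, D x ∈ LL E) {P : F[X]}
    (h3 : P.natDegree ≤ 3) (hsep : P.Separable) (hP : ∀ i, P.coeff i ∈ LL E)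
    (hP' : ∀ i, D (P.coeff i) ∈ LL E) (G : Place F → Prop)
    (hG : ∀ v, G v → A v = 0 ∧ A' v = 0 ∧ E v = 0 ∧ K v = 0 ∧ N ≤ dg v) :
    dens (box A) (fun e => ∃ v, G v ∧ RedNe v P ∧ v.1 (P.eval e) ≤ exp (-2)) ≤
      (3 + 36 * ringChar F * B) * (tkap F * (1 / 2 : ℝ) ^ N) := by
  have hp := prime_ringChar (F := F)
  have hk := tkap_nonneg (F := F)
  refine (tb_main hD h0 hN hT ht hA
    (fun u => P.resultant (dcf D P + C u * derivative P) P.natDegree 3 = 0)
    (tb_card_resultant h3 hsep)
    (c := ((12 * B : ℕ) : ℝ) * (((3 * ringChar F : ℕ) : ℝ) * (tkap F * (1 / 2 : ℝ) ^ N)))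
    (by positivity) fun a ha hR => ?_).trans_eq (by push_cast; ring)
  have hQ : ∀ i, (dcf D P + C (D a) * derivative P).coeff i ∈ LL (E + E) := fun i => by
    rw [coeff_add, coeff_dcf, coeff_C_mul, coeff_derivative]
    refine add_mem (LL_mono (le_add_of_nonneg_left hE) (hP' i)) (mul_mem_LL (hDA a ha) ?_)
    have := mul_mem_LL (hP (i + 1)) (natCast_mem_LL (F := F) (i + 1))
    rwa [add_zero, Nat.cast_succ] at this
  have hP2 : ∀ i, P.coeff i ∈ LL (E + E) := fun i => LL_mono (le_add_of_nonneg_left hE) (hP i)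
  refine le_trans (dens_mono fun w hw => ?_) (ek_one h0 hN hR
    (LL_mono (nsmul_le_nsmul_left (add_nonneg hE hE) (by omega : P.natDegree + 3 ≤ 6))
      (tb_resultant_mem _ _ _ _ hP2 hQ)) (B := 12 * B) ?_ (tb_comp h3 a) G fun v hv => ?_)
  · rintro ⟨v, h1, h2, h4⟩
    obtain ⟨g1, g2, g3, g4, -⟩ := hG v h1
    have a1 : v.1 a ≤ 1 := ta_le_one ha g1
    have a2 : v.1 (a + w ^ ringChar F) ≤ 1 := by
      refine v.1.map_add_le a1 ?_
      rw [map_pow]
      exact pow_le_one' (ta_le_one (mem_box.1 hw) g2) _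
    have a3 : v.1 (P.eval (a + w ^ ringChar F)) < 1 :=
      h4.trans_lt (by rw [← exp_zero, exp_lt_exp]; norm_num)
    have g5 : (E + E) v = 0 := by rw [Finsupp.add_apply, g3, add_zero]
    refine ⟨v, h1, tb_resultant_lt (fun i => ta_le_one (hP2 i) g5) (fun i => ta_le_one (hQ i) g5)
      (tb_deg h3 _) a2 a3 ?_, ?_, ?_⟩
    · have a4 := hD.eval P (a + w ^ ringChar F)
      rw [map_add D a, hD.map_pow_char, add_zero] at a4
      rw [← a4]
      refine (hD.pole v h4).trans_lt ?_
      rw [g4, ← exp_zero, exp_lt_exp]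
      norm_num
    · obtain ⟨P', rfl, h2⟩ := h2
      refine ⟨P'.comp (X ^ ringChar F + C ⟨a, a1⟩), ?_, ?_⟩
      · rw [map_comp, Polynomial.map_add, Polynomial.map_pow, map_X, map_C]
        rfl
      · rw [map_comp, Polynomial.map_add, Polynomial.map_pow, map_X, map_C]
        exact tailCore_ne h2 hp.ne_zero _
    · rwa [eval_comp, eval_add, eval_pow, eval_X, eval_C, add_comm]
  · rw [map_nsmul, map_add, nsmul_eq_mul]
    push_cast
    linarith
  · obtain ⟨-, g2, g3, -, g5⟩ := hG v hv
    exact ⟨g2, by rw [Finsupp.smul_apply, Finsupp.add_apply, g3, add_zero, smul_zero], g5⟩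

/-- `dcf P + u P'` vanishes for at most one `u`; otherwise use `dens_root_zero_le`. -/
theorem dens_der_eq_zero (hD : IsDer D t K) {A A' T : Div F} {N : ℕ} (h0 : (c0 F : ℤ) ≤ deg A')
    (hN : (N : ℤ) ≤ deg A') (hT : 0 ≤ T) (ht : t ∈ LL T) (hA : T + ringChar F • A' ≤ A)
    {P : F[X]} (h3 : P.natDegree ≤ 3) (h : derivative P ≠ 0) :
    dens (box A) (fun e => D (P.eval e) = 0) ≤
      (1 + 3 * ringChar F) * (tkap F * (1 / 2 : ℝ) ^ N) := by
  have hp := prime_ringChar (F := F)
  have hk := tkap_nonneg (F := F)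
  refine (tb_main hD h0 hN hT ht hA (fun u => dcf D P + C u * derivative P = 0) (r := 1)
    (fun s hs => Finset.card_le_one.2 fun a ha b hb => ?_)
    (c := ((3 * ringChar F : ℕ) : ℝ) * (tkap F * (1 / 2 : ℝ) ^ N)) (by positivity)
    fun a _ hR => ?_).trans_eq (by push_cast; ring)
  · exact C_injective (mul_right_cancel₀ h (add_left_cancel ((hs a ha).trans (hs b hb).symm)))
  · refine le_trans (dens_mono fun w _ hw => ?_) (dens_root_zero_le h0 hN
      (tailCore_ne hR hp.ne_zero a) (tb_comp (tb_deg h3 (D a)) a))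
    have e : (X ^ ringChar F + C a).eval w = a + w ^ ringChar F := by
      rw [eval_add, eval_pow, eval_X, eval_C, add_comm]
    have a4 := hD.eval P (a + w ^ ringChar F)
    rw [map_add D a, hD.map_pow_char, add_zero] at a4
    rw [eval_comp, e, ← a4]
    exact hw

/-- the small box inside `L(A + j P)` -/
lemma tb_small (A : Div F) {T : Div F} (hT : 0 ≤ T) (j : ℕ) :
    T + ringChar F • ((-A⁻ - T) + (j / ringChar F) • PP F) ≤ A + j • PP F := by
  have hp := (prime_ringChar (F := F)).one_le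
  have h1 : ringChar F • (-A⁻ - T) ≤ -A⁻ - T := by
    have h2 : 0 ≤ A⁻ + T := add_nonneg (negPart_nonneg A) hT
    have h3 := nsmul_le_nsmul_left h2 hp
    rw [one_nsmul] at h3
    rw [← neg_add', smul_neg]
    exact neg_le_neg h3
  rw [smul_add, smul_smul, ← add_assoc]
  refine add_le_add ?_ (nsmul_le_nsmul_left PP_nonneg (Nat.mul_div_le _ _))
  refine (add_le_add le_rfl h1).trans ?_
  rw [add_sub_cancel]
  exact neg_le.1 (neg_le_negPart A)

end SelAvg.FF
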