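import Pool.Agent.H81Sel.LatB
import Pool.Agent.H81Sel.TailB

/-! Block TAIL (helper38): negligible sets on product boxes.  `PB D k m` is the box of the family
`⟨k, _, ddg D, _⟩ : Lat F n` (`PB_eq_box`), so `Lat.equidist` and `Lat.sieve` apply to it. -/

namespace SelAvg.FF

open WeierstrassCurve WithZero Filter Topology
open scoped Classical

/-- the weights of the coefficients of a model -/
def kV : Fin 8 → ℕ := ![1, 1, 1, 2, 2, 2, 2, 2]

/-- the weights of the coefficients of a Weierstrass equation -/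
def kW : Fin 5 → ℕ := ![1, 2, 3, 4, 6]

lemma kV_pos (i : Fin 8) : 0 < kV i := by fin_cases i <;> simp [kV]

lemma kW_pos (i : Fin 5) : 0 < kW i := by fin_cases i <;> simp [kW]

/-- the model with the given coefficient vector -/
abbrev toM {R : Type} (x : Fin 8 → R) : Model R := Model.equivVec.symm x

/-- the Weierstrass equation with the given coefficient vector -/
abbrev toW {R : Type} (x : Fin 5 → R) : WeierstrassCurve R := wEquivVec.symm x

variable {F : Type} [Field F]

/-- the diagonal family -/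
noncomputable def LD {n : ℕ} (D : Fin n → Div F) (k : Fin n → ℕ) (hk : ∀ i, 0 < k i) : Lat F n where
  k := k
  kpos := hk
  T := ddg D
  comm u a := by
    funext i
    simp only [ddg_apply, wdg_apply]
    ring

/-- the valuation ring of `F` at `v` inside that of the completion -/
noncomputable def tl_inc (v : Place F) : OO v →+* v.loc.O :=
  ((algebraMap F v.Compl).comp (OO v).subtype).codRestrict v.loc.v.valuationSubring fun y =>
    (v.loc_v y).trans_le y.2

lemma tl_scale {v : Place F} {x z : F} (h : x ≠ 0 ∨ z ≠ 0) :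
    ∃ (t : F) (a b : OO v), IsCoprime a b ∧ (OO v).subtype a = t * x ∧
      (OO v).subtype b = t * z := by
  rcases le_total (v.1 x) (v.1 z) with h1 | h1
  · have hz : z ≠ 0 := by
      rintro rfl
      rw [map_zero, le_zero_iff, map_eq_zero] at h1
      exact h.elim (fun h => h h1) fun h => h rfl
    refine ⟨z⁻¹, ⟨z⁻¹ * x, ?_⟩, 1, isCoprime_one_right, rfl, (inv_mul_cancel₀ hz).symm⟩
    rw [Valuation.mem_valuationSubring_iff, map_mul, map_inv₀]
    exact inv_mul_le_one_of_le₀ h1 zero_le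
  · have hx : x ≠ 0 := by
      rintro rfl
      rw [map_zero, le_zero_iff, map_eq_zero] at h1
      exact h.elim (fun h => h rfl) fun h => h h1
    refine ⟨x⁻¹, 1, ⟨x⁻¹ * z, ?_⟩, isCoprime_one_left, (inv_mul_cancel₀ hx).symm, rfl⟩
    rw [Valuation.mem_valuationSubring_iff, map_mul, map_inv₀]
    exact inv_mul_le_one_of_le₀ h1 zero_le

/-- the form `q^2 + 4 g` is homogeneous of degree 4, so a zero can be scaled to a primitive one -/
lemma tl_coprime {v : Place F} {f : Model (OO v)} (h : (f.map (OO v).subtype).Triv) :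
    ∃ x z : OO v, IsCoprime x z ∧ f.q x z ^ 2 + 4 * f.g x z = 0 := by
  obtain ⟨Q, hQ, h0⟩ := h
  obtain ⟨t, a, b, hab, ha, hb⟩ := tl_scale (v := v) hQ.prim
  refine ⟨a, b, hab, (OO v).subtype_injective ?_⟩
  have h1 := (f.map (OO v).subtype).psi_sq Q
  rw [h0, hQ.eq] at h1
  have h2 := negl_hom (f.map (OO v).subtype) t Q.x Q.z
  rw [← ha, ← hb] at h2
  have h3 := Model.map_q (OO v).subtype f a b
  have h4 := Model.map_g (OO v).subtype f a b
  rw [map_add, map_mul, map_pow, map_ofNat, map_zero, ← h3, ← h4]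
  linear_combination h2 - t ^ 4 * h1

/-- `x` is a root of a monic cubic, hence integral, and `y = -(a₁ x + a₃) / 2` -/
lemma tl_twoTorsion {R : Type} [CommRing R] [IsDomain R] [Algebra R F] [IsFractionRing R F]
    [IsIntegrallyClosed R] {u : R} (hu : 2 * u = 1) {W : WeierstrassCurve R}
    (h : ¬NoTwoTorsion (W.map (algebraMap R F))) {κ : Type} [Field κ] (φ : R →+* κ) :
    ¬NoTwoTorsion (W.map φ) := by
  simp only [NoTwoTorsion, not_forall, not_not] at h ⊢
  obtain ⟨x, y, hxy, h0⟩ := h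
  have hu' : 2 * algebraMap R F u = 1 := by
    rw [← map_ofNat (algebraMap R F) 2, ← map_mul, hu, map_one]
  rw [Affine.equation_iff] at hxy
  simp only [map_a₁, map_a₂, map_a₃, map_a₄, map_a₆] at hxy h0
  have hy : y = -(algebraMap R F u * (algebraMap R F W.a₁ * x + algebraMap R F W.a₃)) := by
    linear_combination algebraMap R F u * h0 - y * hu'
  obtain ⟨x₀, rfl⟩ : ∃ x₀, algebraMap R F x₀ = x := by
    refine IsIntegrallyClosed.isIntegral_iff.1 ⟨Polynomial.X ^ 3 +
      (Polynomial.C (W.a₂ + (u * W.a₁) ^ 2) * Polynomial.X ^ 2 +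
      Polynomial.C (W.a₄ + u * W.a₁ * W.a₃) * Polynomial.X +
      Polynomial.C (W.a₆ + (u * W.a₃) ^ 2)), ?_, ?_⟩
    · monicity!
    · simp only [Polynomial.eval₂_add, Polynomial.eval₂_mul, Polynomial.eval₂_pow,
        Polynomial.eval₂_X, Polynomial.eval₂_C, map_add, map_mul, map_pow]
      rw [hy] at hxy
      linear_combination -hxy + algebraMap R F u * ((algebraMap R F W.a₁ * x) ^ 2 +
        algebraMap R F W.a₁ * algebraMap R F W.a₃ * x + algebraMap R F W.a₃ ^ 2) * hu'
  have he : W.toAffine.Equation x₀ (-(u * (W.a₁ * x₀ + W.a₃))) := by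
    rw [Affine.equation_iff]
    apply IsFractionRing.injective R F
    rw [hy] at hxy
    simpa only [map_add, map_mul, map_pow, map_neg] using hxy
  refine ⟨φ x₀, φ (-(u * (W.a₁ * x₀ + W.a₃))), he.map φ, ?_⟩
  have h3 : 2 * -(u * (W.a₁ * x₀ + W.a₃)) + W.a₁ * x₀ + W.a₃ = 0 := by
    linear_combination -(W.a₁ * x₀ + W.a₃) * hu
  simpa only [map_add, map_mul, map_ofNat, map_zero, map_a₁, map_a₃] using congrArg φ h3

/-- Translate the 2-torsion point to the origin: `a₃ = a₆ = 0`, so `Δ = a₁^4 a₄^2`. -/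
lemma tl_Delta_sq (h4 : (2 : F) = 0) {W : WeierstrassCurve F} (h : ¬NoTwoTorsion W) :
    ∃ s, W.Δ = s ^ 2 := by
  simp only [NoTwoTorsion, not_forall, not_not] at h
  obtain ⟨x, y, hxy, h0⟩ := h
  rw [Affine.equation_iff] at hxy
  have hΔ : (wsh x 0 y • W).Δ = W.Δ := by
    rw [variableChange_Δ]
    simp [wsh]
  have a3 : (wsh x 0 y • W).a₃ = 0 := by
    rw [variableChange_a₃]
    simp only [wsh, inv_one, Units.val_one]
    linear_combination h0
  have a6 : (wsh x 0 y • W).a₆ = 0 := by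
    rw [variableChange_a₆]
    simp only [wsh, inv_one, Units.val_one]
    linear_combination -hxy
  generalize wsh x 0 y • W = V at hΔ a3 a6
  refine ⟨V.a₁ ^ 2 * V.a₄, ?_⟩
  rw [← hΔ]
  simp only [WeierstrassCurve.Δ, b₂, b₄, b₆, b₈, a3, a6]
  linear_combination -(32 * V.a₄ ^ 3 - 4 * V.a₁ ^ 2 * V.a₂ * V.a₄ ^ 2 -
    8 * V.a₂ ^ 2 * V.a₄ ^ 2) * h4

lemma tl_sep {x : Fin 8 → F} (h : ¬MvPolynomial.aeval x (genV F).cub.discr = 0) :
    (toM x).cub.toPoly.Separable ∧ (toM x).cub.toPoly.natDegree ≠ 0 := by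
  rw [aeval_genV_discr] at h
  exact cubic_separable h

lemma tl_eval (x : Fin 8 → F) (a : F) :
    (toM (Function.update x 7 a)).jac.Δ = (toM x).cub.toPoly.eval a := by
  rw [← Model.eval_cub, Model.cub_update]
  rfl

lemma tl_quad {v : Place F} (a b : OO v) {a' b' : F} (ha : a' = (OO v).subtype a)
    (hb : b' = (OO v).subtype b) :
    RedNe v (Polynomial.X ^ 2 + Polynomial.C a' * Polynomial.X + Polynomial.C b') := by
  refine ⟨_, ?_, tail_quad_ne (rO v) a b⟩
  rw [ha, hb, Polynomial.map_add, Polynomial.map_add, Polynomial.map_mul, Polynomial.map_pow,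
    Polynomial.map_X, Polynomial.map_C, Polynomial.map_C]

lemma tl_lin {v : Place F} (a b : OO v) {b' : F} (ha : rO v a ≠ 0) (hb : b' = (OO v).subtype b) :
    RedNe v (Polynomial.C ((OO v).subtype a) * Polynomial.X + Polynomial.C b') := by
  refine ⟨_, ?_, tail_lin_ne (rO v) b ha⟩
  rw [hb, Polynomial.map_add, Polynomial.map_mul, Polynomial.map_X, Polynomial.map_C,
    Polynomial.map_C]

lemma tl_lt {v : Place F} {a : OO v} (h : rO v a = 0) {a' : F} (ha : a' = (OO v).subtype a) :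
    v.1 a' < 1 := ha ▸ (rO_eq_zero a).1 h

variable [Cv F]

lemma tl_tw {n : ℕ} (D : Fin n → Div F) (k : Fin n → ℕ) (hk : ∀ i, 0 < k i) (m : ℕ)
    (x : Fin n → F) (i : Fin n) :
    (LD D k hk).tw m (dlg x) i = (piD (D i + (k i * m) • PP F) : A F) * toA F (x i) := by
  change wdg k (piD (m • PP F)) (ddg D (dlg x)) i = _
  rw [wdg_apply, ddg_apply, piD_add, mul_smul, piD_nsmul (m • PP F), Units.val_mul,
    Units.val_pow_eq_pow_val, dlg]
  ring

lemma PB_eq_box {n : ℕ} (D : Fin n → Div F) (k : Fin n → ℕ) (hk : ∀ i, 0 < k i) (m : ℕ) :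
    PB D k m = (LD D k hk).box m := by
  ext x
  rw [mem_PB, Lat.box, mem_hbox]
  refine forall_congr' fun i => ?_
  rw [tl_tw, ← mem_AD_zero, unit_mul_mem_AD, idiv_piD, zero_add, toA_mem_AD]

/-- elements of product boxes are integral at places of large degree -/
lemma tl_integral {n : ℕ} (D : Fin n → Div F) (k : Fin n → ℕ) : ∃ c : ℕ, ∀ v : Place F, c ≤ dg v →
    (∀ i (j : ℕ), (D i + j • PP F) v = 0) ∧
      ∀ m, ∀ x ∈ PB D k m, ∃ y : Fin n → OO v, x = fun i => (OO v).subtype (y i) := by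
  choose c hc using fun i => ta_supp (D i)
  refine ⟨∑ i, c i, fun v hv => ?_⟩
  have h : ∀ i (j : ℕ), (D i + j • PP F) v = 0 := fun i j => hc i v ((Finset.single_le_sum
    (f := c) (fun _ _ => Nat.zero_le _) (Finset.mem_univ i)).trans hv) j
  exact ⟨h, fun m x hx => ⟨fun i => ⟨x i, ta_le_one (mem_PB.1 hx i) (h i _)⟩, rfl⟩⟩

/-- the sieve for product boxes -/
theorem PB_sieve {n : ℕ} (D : Fin n → Div F) {k : Fin n → ℕ} (hk : ∀ i, 0 < k i)
    (Bad : (Fin n → F) → Prop) {c : ℝ} (hc : 0 < c) (N₀ : ℕ)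
    (Q : ∀ v : Place F, (Fin n → kv v) → Prop)
    (hQ : ∀ v, N₀ ≤ dg v → dens Finset.univ (Q v) ≤ 1 - c)
    (hB : ∀ (v : Place F) (y : Fin n → OO v), Bad (fun i => (OO v).subtype (y i)) →
      Q v fun i => (resv v).comp (tl_inc v) (y i)) :
    Tendsto (fun m => dens (PB D k m) Bad) atTop (𝓝 0) := by
  obtain ⟨c₁, h₁⟩ := tl_integral D k
  simp only [PB_eq_box D k hk]
  refine (LD D k hk).sieve (fun _ => Bad) hc (N₀ + c₁) Q (fun v hv => hQ v (by omega))
    fun m v hv x hx hb => ?_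
  obtain ⟨a1, a2⟩ := h₁ v (by omega)
  rw [← PB_eq_box] at hx
  obtain ⟨y, rfl⟩ := a2 m x hx
  convert hB v y hb using 2 with i
  have e : pr v ((LD D k hk).tw m (dlg fun i => (OO v).subtype (y i)) i) =
      algebraMap F v.Compl (y i) := by
    rw [tl_tw, map_mul, pr_piD, a1, zpow_zero, one_mul, pr_toA]
    rfl
  rw [RingHom.comp_apply]
  congr 1
  apply v.loc.incl_injective
  rw [Lat.loc, incl_cO v (by rw [e, v.vc_algebraMap]; exact (y i).2), e]
  rfl

/-- By `cases_of_cub_eq_zero` the event is contained in three events of the form of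
`ek_tendsto`. -/
theorem tendsto_cub_zero (D : Fin 8 → Div F) {N : ℕ → ℕ} {c e : ℕ} (he : 0 < e)
    (hN : ∀ m, (m - c) / e ≤ N m) :
    Tendsto (fun m => dens (PB D kV m) fun x => ∃ v : Place F, N m ≤ dg v ∧
      ¬RedNe v (toM x).cub.toPoly) atTop (𝓝 0) := by
  have h1 := ek_tendsto D kV_pos he hN 4 (genV_cA_ne_zero F)
    (fun x a => by rw [aeval_genV_cA, aeval_genV_cA]; rfl)
    (fun x => Polynomial.X ^ 2 + Polynomial.C (x 0 * x 1) * Polynomial.X +
      Polynomial.C (-(x 0 ^ 2 * x 5 + x 1 ^ 2 * x 3 + 4 * x 3 * x 5)))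
    (fun _ _ => rfl) (fun _ => tail_quad_le _ _)
  have h2 := ek_tendsto D kV_pos he hN 1 (genV_cA_ne_zero F)
    (fun x a => by rw [aeval_genV_cA, aeval_genV_cA]; rfl)
    (fun x => Polynomial.X ^ 2 + Polynomial.C 0 * Polynomial.X +
      Polynomial.C (4 * (x 5 - x 0 * x 2)))
    (fun _ _ => rfl) (fun _ => tail_quad_le _ _)
  have h3 := ek_tendsto D kV_pos he hN 6 (MvPolynomial.X_ne_zero (1 : Fin 8))
    (fun x a => by rw [MvPolynomial.aeval_X, MvPolynomial.aeval_X]; rfl)
    (fun x => Polynomial.C (x 0) * Polynomial.X + Polynomial.C (x 2 * x 4)) (fun _ _ => rfl)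
    (fun _ => tail_lin_le _ _)
  have h4 := h1.add (h2.add h3)
  rw [add_zero, add_zero] at h4
  obtain ⟨c₁, h₁⟩ := tl_integral D kV
  refine squeeze_zero' (Eventually.of_forall fun d => dens_nonneg _ _) ?_ h4
  filter_upwards [(ta_tendsto he hN).eventually_ge_atTop c₁] with m hm
  refine le_trans (dens_mono fun x hx => ?_)
    ((dens_or_le _ _ _).trans (add_le_add le_rfl (dens_or_le _ _ _)))
  rintro ⟨v, hv, h0⟩
  obtain ⟨y, rfl⟩ := (h₁ v (hm.trans hv)).2 m x hx
  have h5 : ((toM y).map (rO v)).cub.toPoly = 0 := by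
    by_contra h6
    refine h0 ⟨(toM y).cub.toPoly, ?_, ?_⟩
    · rw [← Cubic.map_toPoly, ← Model.cub_map, Model.equivVec_symm_map]
    · rwa [← Cubic.map_toPoly, ← Model.cub_map]
  have hA : rO v (toM y).cA = 0 →
      v.1 (MvPolynomial.aeval (fun i => (OO v).subtype (y i)) (genV F).cA) < 1 := fun a1 => by
    rw [aeval_genV_cA, ← Model.equivVec_symm_map, Model.cA_map]
    exact (rO_eq_zero _).1 a1
  rcases cases_of_cub_eq_zero h5 with ⟨a1, a2⟩ | ⟨a1, a2⟩ | ⟨a1, a2, a3⟩
  · rw [Model.cA_map] at a1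
    rw [Model.cB_map] at a2
    refine Or.inl ⟨v, hv, hA a1, tl_quad (y 0 * y 1)
      (-(y 0 ^ 2 * y 5 + y 1 ^ 2 * y 3 + 4 * y 3 * y 5)) (map_mul _ _ _).symm ?_, tl_lt a2 ?_⟩
    · simp only [map_mul, map_neg, map_add, map_pow, map_ofNat]
    · rw [← Model.cB_map, Model.equivVec_symm_map]
      simp only [Model.cB, Model.equivVec, Equiv.coe_fn_symm_mk, Polynomial.eval_add,
        Polynomial.eval_mul, Polynomial.eval_pow, Polynomial.eval_X, Polynomial.eval_C]
      ring
  · rw [Model.cA_map] at a1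
    have a4 : rO v (y 1 ^ 2 + 4 * (y 5 - y 0 * y 2)) = 0 := by
      rw [← a2, Model.equivVec_symm_map]
      simp only [Model.equivVec, Equiv.coe_fn_symm_mk, map_add, map_mul, map_pow, map_sub,
        map_ofNat]
    refine Or.inr (Or.inl ⟨v, hv, hA a1, tl_quad 0 (4 * (y 5 - y 0 * y 2)) (map_zero _).symm ?_,
      tl_lt a4 ?_⟩)
    · simp only [map_mul, map_sub, map_ofNat]
    · rw [Polynomial.eval_add, Polynomial.eval_add, Polynomial.eval_mul, Polynomial.eval_pow,
        Polynomial.eval_X, Polynomial.eval_C, Polynomial.eval_C, zero_mul, add_zero]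
      simp only [map_add, map_mul, map_pow, map_sub, map_ofNat]
  · have a4 : rO v (y 0 * y 6 + y 2 * y 4) = 0 := by
      rw [← a3, Model.equivVec_symm_map]
      simp only [Model.equivVec, Equiv.coe_fn_symm_mk, map_add, map_mul]
    refine Or.inr (Or.inr ⟨v, hv, tl_lt a1 (MvPolynomial.aeval_X _ _), tl_lin (y 0) (y 2 * y 4) a2
      (map_mul _ _ _).symm, tl_lt a4 ?_⟩)
    simp only [Polynomial.eval_add, Polynomial.eval_mul, Polynomial.eval_X, Polynomial.eval_C,
      map_add, map_mul]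

/-- the poles of the coefficients of the cubic -/
lemma tl_cub (D : Fin 8 → Div F) : ∃ (B : Div F) (c : ℕ), 0 ≤ B ∧ (∀ m, ∀ x ∈ PB D kV m, ∀ j,
    (toM x).cub.toPoly.coeff j ∈ LL (B + (c * m) • PP F)) ∧
      ∀ m, D 7 + (kV 7 * m) • PP F ≤ B + (c * m) • PP F := by
  choose B c h0 h using fun j : Fin 4 => aeval_PB D kV ((genV F).cub.toPoly.coeff j)
  have hB : 0 ≤ ∑ j, B j := Finset.sum_nonneg fun j _ => h0 j
  refine ⟨(D 7)⁺ + ∑ j, B j, kV 7 + ∑ j, c j, add_nonneg (posPart_nonneg _) hB,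
    fun m x hx j => ?_, fun m => add_le_add ((le_posPart _).trans (le_add_of_nonneg_right hB))
      (nsmul_le_nsmul_left PP_nonneg (Nat.mul_le_mul_right _ (Nat.le_add_right _ _)))⟩
  rcases lt_or_ge j 4 with hj | hj
  · rw [toM, ← genV_map (k := F) x, Model.cub_map, Cubic.map_toPoly, Polynomial.coeff_map]
    refine LL_mono (add_le_add ?_ ?_) (h ⟨j, hj⟩ m x hx)
    · exact (Finset.single_le_sum (f := B) (fun j _ => h0 j) (Finset.mem_univ _)).trans
        (le_add_of_nonneg_left (posPart_nonneg _))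
    · exact nsmul_le_nsmul_left PP_nonneg (Nat.mul_le_mul_right _ ((Finset.single_le_sum (f := c)
        (fun _ _ => Nat.zero_le _) (Finset.mem_univ _)).trans (Nat.le_add_left _ _)))
  · rw [Cubic.coeff_eq_zero hj]
    exact zero_mem _

lemma tl_div (m c p : ℕ) : (m - c * p) / p ≤ kV 7 * m / p - c := by
  rw [mul_comm c, Nat.sub_mul_div]
  exact Nat.sub_le_sub_right (Nat.div_le_div_right (Nat.le_mul_of_pos_left m (kV_pos 7))) c

/-- `dens_pi_le` in the coordinate `7` with the bad set `discr = 0`, and `tail_core` -/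
theorem tendsto_large_core (D : Fin 8 → Div F) {N : ℕ → ℕ} {c e : ℕ} (he : 0 < e)
    (hN : ∀ m, (m - c) / e ≤ N m) :
    Tendsto (fun m => dens (PB D kV m) fun x => ∃ v : Place F, N m ≤ dg v ∧
      RedNe v (toM x).cub.toPoly ∧ v.1 (toM x).jac.Δ ≤ exp (-2)) atTop (𝓝 0) := by
  obtain ⟨d, t, K, hd⟩ := exists_der (F := F)
  obtain ⟨T, hT, ht⟩ := exists_mem_LL fun _ : Unit => t
  obtain ⟨B, b, hB0, hB, hB7⟩ := tl_cub D
  obtain ⟨B', hB0', hB'⟩ := hd.map_LL B
  obtain ⟨c₁, hc₁⟩ := ta_deg_ge (-(D 7)⁻ - T)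
  obtain ⟨c₂, hc₂⟩ := ta_supp (D 7)
  obtain ⟨c₃, hc₃⟩ := ta_supp (-(D 7)⁻ - T)
  obtain ⟨c₄, hc₄⟩ := ta_supp (B + B')
  obtain ⟨c₅, hc₅⟩ := ta_supp K
  have hp := (prime_ringChar (F := F)).pos
  have hk := tkap_nonneg (F := F)
  have h1 := dens_aeval_tendsto D kV_pos (genV_discr_ne_zero F)
  have h2 := tendsto_lin_mul_pow (36 * ringChar F * (b * pp F) * tkap F)
    ((3 + 36 * ringChar F * (deg (B + B')).natAbs) * tkap F)
    (fun m => (m - (c + c₁ * ringChar F)) / (e * ringChar F)) (c + c₁ * ringChar F)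
    (e * ringChar F) (Nat.mul_pos he hp) fun _ => le_rfl
  have h3 := h1.add h2
  rw [add_zero] at h3
  refine squeeze_zero' (Eventually.of_forall fun d => dens_nonneg _ _) ?_ h3
  filter_upwards [eventually_ge_atTop (c₁ * ringChar F),
    (ta_tendsto he hN).eventually_ge_atTop (c₂ + c₃ + c₄ + c₅)] with m hm hm'
  have h5 := hc₁ (kV 7 * m / ringChar F) ((Nat.le_div_iff_mul_le hp).2
    (hm.trans (Nat.le_mul_of_pos_left m (kV_pos 7))))
  have h6 : B + (b * m) • PP F ≤ B + B' + (b * m) • PP F :=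
    add_le_add (le_add_of_nonneg_right hB0') le_rfl
  refine dens_pi_le _ 7 _ _ (by positivity) fun x hx h => ?_
  simp only [tl_eval, Model.cub_update]
  refine (tail_core hd (N := (m - (c + c₁ * ringChar F)) / (e * ringChar F)) h5.1
    (le_trans ?_ h5.2) hT (ht ()) (tb_small (D 7) hT _)
    (add_nonneg (add_nonneg hB0 hB0') (nsmul_nonneg PP_nonneg _)) (ta_deg_le (B + B') b m)
    (fun y hy => hB' _ y (LL_mono (hB7 m) hy)) (cubic_natDegree_le _) (tl_sep h).1
    (fun j => LL_mono h6 (hB m x hx j)) (fun j => hB' _ _ (hB m x hx j)) (fun v => N m ≤ dg v)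
    fun v hv => ⟨hc₂ v (by omega) _, hc₃ v (by omega) _, hc₄ v (by omega) _, ?_, ?_⟩).trans_eq ?_
  · refine Nat.cast_le.2 (le_trans ?_ (tl_div m c₁ _))
    exact Nat.div_le_div (by omega) (Nat.le_mul_of_pos_left _ he) hp.ne'
  · simpa using hc₅ v (by omega) 0
  · exact (Nat.div_le_div (by omega) (Nat.le_mul_of_pos_right _ hp) he.ne').trans
      ((hN m).trans hv)
  · push_cast
    ring

/-- a separable polynomial of positive degree has nonzero derivative; `dens_der_eq_zero` -/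
theorem tendsto_der_Delta (D : Fin 8 → Div F) {d : F →+ F} {t : F} {K : Div F}
    (hd : IsDer d t K) :
    Tendsto (fun m => dens (PB D kV m) fun x => d (toM x).jac.Δ = 0) atTop (𝓝 0) := by
  obtain ⟨T, hT, ht⟩ := exists_mem_LL fun _ : Unit => t
  obtain ⟨c₁, hc₁⟩ := ta_deg_ge (-(D 7)⁻ - T)
  have hp := (prime_ringChar (F := F)).pos
  have hk := tkap_nonneg (F := F)
  have h1 := dens_aeval_tendsto D kV_pos (genV_discr_ne_zero F)
  have h2 := tendsto_lin_mul_pow 0 ((1 + 3 * ringChar F) * tkap F)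
    (fun m => (m - c₁ * ringChar F) / ringChar F) (c₁ * ringChar F) (ringChar F) hp
    fun _ => le_rfl
  have h3 := h1.add h2
  rw [add_zero] at h3
  refine squeeze_zero' (Eventually.of_forall fun d => dens_nonneg _ _) ?_ h3
  filter_upwards [eventually_ge_atTop (c₁ * ringChar F)] with m hm
  have h5 := hc₁ (kV 7 * m / ringChar F) ((Nat.le_div_iff_mul_le hp).2
    (hm.trans (Nat.le_mul_of_pos_left m (kV_pos 7))))
  refine dens_pi_le _ 7 _ _ (by positivity) fun x _ h => ?_
  simp only [tl_eval]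
  refine (dens_der_eq_zero hd (N := (m - c₁ * ringChar F) / ringChar F) h5.1
    (le_trans (Nat.cast_le.2 (tl_div m c₁ _)) h5.2) hT (ht ()) (tb_small (D 7) hT _)
    (cubic_natDegree_le _) fun h0 => ?_).trans_eq (by ring)
  obtain ⟨a1, a2⟩ := tl_sep h
  rw [Polynomial.separable_def, h0, isCoprime_zero_right] at a1
  exact a2 (Polynomial.natDegree_eq_zero_of_isUnit a1)

/-- large places: port of `tendsto_cub_zero`, `tendsto_large_core` -/
theorem tendsto_large (D : Fin 8 → Div F) (b : ℕ) :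
    Tendsto (fun m => dens (PB D kV m) fun x => ∃ v : Place F, m * pp F < 2 * dg v + b ∧
      v.1 (toM x).jac.Δ ≤ exp (-2)) atTop (𝓝 0) := by
  have h1 := (tendsto_cub_zero D (N := fun m => (m - b) / 2) two_pos fun _ => le_rfl).add
    (tendsto_large_core D (N := fun m => (m - b) / 2) two_pos fun _ => le_rfl)
  rw [add_zero] at h1
  refine squeeze_zero (fun _ => dens_nonneg _ _) (fun m => ?_) h1
  refine le_trans (dens_mono fun x _ => ?_) (dens_or_le _ _ _)
  rintro ⟨v, h2, h3⟩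
  have h4 : m ≤ m * pp F := Nat.le_mul_of_pos_right m pp_pos
  have h5 : (m - b) / 2 ≤ dg v := by omega
  by_cases h : RedNe v (toM x).cub.toPoly
  · exact Or.inr ⟨v, h5, h, h3⟩
  · exact Or.inl ⟨v, h5, h⟩

theorem tendsto_c46_V (D : Fin 8 → Div F) :
    Tendsto (fun m => dens (PB D kV m) fun x => (toM x).jac.c₄ = 0 ∨ (toM x).jac.c₆ = 0) atTop
      (𝓝 0) := by
  simp only [← mul_eq_zero, ← aeval_genV_c46 (k := F)]
  exact dens_aeval_tendsto D kV_pos (genV_c46_ne_zero F)

theorem tendsto_c46_W (D : Fin 5 → Div F) :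
    Tendsto (fun m => dens (PB D kW m) fun x => (toW x).c₄ = 0 ∨ (toW x).c₆ = 0) atTop (𝓝 0) := by
  simp only [← mul_eq_zero, ← aeval_genW_c46 (k := F)]
  exact dens_aeval_tendsto D kW_pos (genW_c46_ne_zero F)

theorem tendsto_Delta_W (D : Fin 5 → Div F) :
    Tendsto (fun m => dens (PB D kW m) fun x => (toW x).Δ = 0) atTop (𝓝 0) := by
  simp only [← aeval_genW_Delta (k := F)]
  exact dens_aeval_tendsto D kW_pos (genW_Delta_ne_zero F)

theorem tendsto_twoTorsion (D : Fin 8 → Div F) :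
    Tendsto (fun m => dens (PB D kV m) fun x => ¬NoTwoTorsion (toM x).jac) atTop (𝓝 0) := by
  have hp := Fact.mk (prime_ringChar (F := F))
  by_cases h2 : ringChar F = 2
  · obtain ⟨d, t, K, hd⟩ := exists_der (F := F)
    refine squeeze_zero (fun _ => dens_nonneg _ _) (fun m => dens_mono fun x _ h => ?_)
      (tendsto_der_Delta D hd)
    obtain ⟨s, hs⟩ := tl_Delta_sq (by exact_mod_cast h2 ▸ ringChar.Nat.cast_ringChar (R := F)) h
    rw [hs, ← h2, hd.map_pow_char]
  obtain ⟨u, hu⟩ := hp.out.odd_of_ne_two h2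
  have h0 : ∀ v : Place F, ((ringChar F : ℕ) : OO v) = 0 := fun v =>
    (OO v).subtype_injective (by rw [map_natCast, map_zero, ringChar.Nat.cast_ringChar])
  have h3 : ∀ v : Place F, (2 : OO v) * -(u : OO v) = 1 := fun v => by
    have := h0 v
    rw [hu] at this
    push_cast at this
    linear_combination -this
  refine PB_sieve D kV_pos _ (c := 1 / 16) (by norm_num)
    (12 * (genW (ZMod (ringChar F))).Δ.totalDegree)
    (fun v y => ¬(NoTwoTorsion (toM y).jac ∧ (toM y).jac.Δ ≠ 0)) (fun v hv => ?_) fun v y h => ?_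
  · rw [dens_not Finset.univ_nonempty, negl_dens_equiv Model.equivVec.symm
      fun f : Model (kv v) => NoTwoTorsion f.jac ∧ f.jac.Δ ≠ 0]
    refine sub_le_sub_left (dens_V_noTwoTorsion_ge ?_ ?_) _
    · have := congrArg ((resv v).comp (tl_inc v)) (h3 v)
      rw [map_mul, map_one, map_ofNat] at this
      exact left_ne_zero_of_mul_eq_one this
    · have : CharP (kv v) (ringChar F) := (CharP.charP_iff_prime_eq_zero hp.out).2 (by
        rw [← map_natCast ((resv v).comp (tl_inc v)), h0, map_zero])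
      let _ : Algebra (ZMod (ringChar F)) (kv v) := ZMod.algebra _ _
      rw [← negl_dens_equiv wEquivVec.symm]
      simp only [← aeval_genW_Delta (k := ZMod (ringChar F))]
      refine (dens_aeval_field (genW_Delta_ne_zero _) _).trans ?_
      have h5 : dg v ≤ Fintype.card (kv v) := by
        rw [← Nat.card_eq_fintype_card, (card_kv v).2]
        exact (Nat.lt_pow_self (Cv.two_le (F := F))).le
      have h4 : (12 : ℝ) * (genW (ZMod (ringChar F))).Δ.totalDegree ≤ Fintype.card (kv v) := by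
        exact_mod_cast hv.trans h5
      rw [div_le_iff₀ (Nat.cast_pos.2 Fintype.card_pos)]
      linarith
  · rw [toM, ← Model.equivVec_symm_map, Model.jac_map] at h ⊢
    exact fun h1 => tl_twoTorsion (F := F) (h3 v) h _ h1.1

theorem tendsto_triv (D : Fin 8 → Div F) :
    Tendsto (fun m => dens (PB D kV m) fun x => (toM x).Triv) atTop (𝓝 0) := by
  refine PB_sieve D kV_pos _ (c := 1 / 16) (by norm_num) 0
    (fun v y => ∃ x z, (x ≠ 0 ∨ z ≠ 0) ∧ (toM y).q x z ^ 2 + 4 * (toM y).g x z = 0)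
    (fun v _ => ?_) fun v y h => ?_
  · exact (negl_dens_equiv Model.equivVec.symm fun f : Model (kv v) =>
      ∃ x z, (x ≠ 0 ∨ z ≠ 0) ∧ f.q x z ^ 2 + 4 * f.g x z = 0).trans_le dens_branch_le
  · rw [toM, ← Model.equivVec_symm_map] at h
    obtain ⟨a, b, hab, h1⟩ := tl_coprime h
    refine ⟨_, _, (hab.map ((resv v).comp (tl_inc v))).ne_zero_or_ne_zero, ?_⟩
    rw [toM, ← Model.equivVec_symm_map, Model.map_q, Model.map_g, ← map_pow,
      ← map_ofNat ((resv v).comp (tl_inc v)) 4, ← map_mul, ← map_add, h1, map_zero]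

end SelAvg.FF
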