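import Pool.Agent.H81Sel.Glob0

/-! Row GT: triangular form of the group elements, the boxes of models, the cusp bound. -/

namespace SelAvg.FF

open WeierstrassCurve WithZero Filter Topology Matrix
open scoped Classical ENNReal

variable {F : Type} [Field F]

/-- the triangular elements -/
noncomputable def gt (B Z : Div F) (η : A F) (C : Div F) (r0 r1 r2 : A F) : G (A F) :=
  ⟨tri B Z η, piD C, r0, r1, r2⟩

lemma gt_aux {g : G (A F)} {k : GL (Fin 2) (A F)} (hk : k ∈ K2 F) {B Z : Div F} {η : A F}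
    (h : g.M = k * tri B Z η) : ∃ k ∈ KG F, ∃ C r0 r1 r2, g = k * gt B Z η C r0 r1 r2 := by
  obtain ⟨k₀, h1, h2, h3⟩ : ∃ k₀ : G (A F), k₀ ∈ KG F ∧ k₀.M = k ∧
      k₀.μ = g.μ * (piD (idiv g.μ))⁻¹ :=
    ⟨⟨k, g.μ * (piD (idiv g.μ))⁻¹, 0, 0, 0⟩, mem_KG.2 ⟨hk, by
      rw [idiv_mul, idiv_inv, idiv_piD, add_neg_cancel], zero_mem _, zero_mem _, zero_mem _⟩,
      rfl, rfl⟩
  refine ⟨k₀, h1, idiv g.μ, (k₀⁻¹ * g).r0, (k₀⁻¹ * g).r1, (k₀⁻¹ * g).r2,
    inv_mul_eq_iff_eq_mul.1 (G.ext ?_ ?_ rfl rfl rfl)⟩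
  · rw [G.mul_M, G.inv_M, h2, h, inv_mul_cancel_left]
    rfl
  · rw [G.mul_μ, G.inv_μ, h3, _root_.mul_inv_rev, inv_inv, inv_mul_cancel_right]
    rfl

lemma gt_smul (B Z : Div F) (η : A F) (C : Div F) (r0 r1 r2 : A F) (f : Model (A F)) :
    gt B Z η C r0 r1 r2 • f = ((f.subst (piD B : A F) 0 (piD Z * η) (piD Z)).shift r0 r1 r2).scale
      (((piD C)⁻¹ : (A F)ˣ) : A F) := rfl

/-- the leading coefficients of the triangular substitution -/
def gtW {R : Type} [CommRing R] (α δ ν : R) : Fin 8 → R :=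
  ![α ^ 2 * ν, α * δ * ν, δ ^ 2 * ν, α ^ 4 * ν ^ 2, α ^ 3 * δ * ν ^ 2, α ^ 2 * δ ^ 2 * ν ^ 2,
    α * δ ^ 3 * ν ^ 2, δ ^ 4 * ν ^ 2]

lemma gt_dep {R : Type} [CommRing R] (α δ ν η r0 r1 r2 : R) (x y : Fin 8 → R) (i : Fin 8)
    (h : ∀ j, j < i → x j = y j) :
    Model.equivVec ((((toM x).subst α 0 (δ * η) δ).shift r0 r1 r2).scale ν) i - gtW α δ ν i * x i =
    Model.equivVec ((((toM y).subst α 0 (δ * η) δ).shift r0 r1 r2).scale ν) i -
      gtW α δ ν i * y i := by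
  have hx : ∀ x : Fin 8 → R, toM x = ⟨x 0, x 1, x 2, x 3, x 4, x 5, x 6, x 7⟩ := fun _ => rfl
  have e : ∀ f : Model R, Model.equivVec f = ![f.l, f.m, f.n, f.a, f.b, f.c, f.d, f.e] :=
    fun _ => rfl
  rw [hx, hx, e, e]
  fin_cases i <;>
    simp (disch := decide) only [gtW, Fin.zero_eta, Fin.mk_one, Fin.reduceFinMk, cons_val_zero,
      cons_val_one, cons_val, Model.scale, Model.shift, Model.subst, h] <;> ring

lemma gt_l {R : Type} [CommRing R] (α γ δ ν r0 r1 r2 : R) (f : Model R) :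
    Model.equivVec (((f.subst α 0 γ δ).shift r0 r1 r2).scale ν) 0 = ν * (f.l * α ^ 2 + 2 * r0) := by
  change (((f.subst α 0 γ δ).shift r0 r1 r2).scale ν).l = _
  simp only [Model.scale, Model.shift, Model.subst]
  ring

lemma gt_a {R : Type} [CommRing R] (α γ δ ν r0 r1 r2 : R) (f : Model R) :
    Model.equivVec (((f.subst α 0 γ δ).shift r0 r1 r2).scale ν) 3 =
      ν ^ 2 * (-(f.l * α ^ 2) * r0 + f.a * α ^ 4 - r0 ^ 2) := by
  change (((f.subst α 0 γ δ).shift r0 r1 r2).scale ν).a = _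
  simp only [Model.scale, Model.shift, Model.subst]
  ring

/-- `exists_tri`, `idiv_eq_zero_iff` -/
theorem exists_gt (g : G (A F)) : ∃ k ∈ KG F, ∃ B Z η C r0 r1 r2, g = k * gt B Z η C r0 r1 r2 := by
  obtain ⟨k, hk, B, Z, η, h⟩ := exists_tri g.M
  obtain ⟨k', hk', C, r0, r1, r2, h'⟩ := gt_aux hk h
  exact ⟨k', hk', B, Z, η, C, r0, r1, r2, h'⟩

/-- the same with a prescribed triangular matrix -/
theorem exists_gt' {g : G (A F)} {B Z : Div F} {η : A F}
    (h : RC.mk (K2 F) g.M = RC.mk (K2 F) (tri B Z η)) :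
    ∃ k ∈ KG F, ∃ C r0 r1 r2, g = k * gt B Z η C r0 r1 r2 := by
  obtain ⟨k, hk, h'⟩ := RC.mk_eq.1 h.symm
  exact gt_aux hk h'

lemma cls_gt (B Z : Div F) (η : A F) (C : Div F) (r0 r1 r2 : A F) :
    cls (gt B Z η C r0 r1 r2) = B + Z - C := by
  change idiv (GeneralLinearGroup.det (tri B Z η)) - idiv (piD C) = _
  rw [det_tri, idiv_piD, idiv_piD]

/-- the divisors of the eight coefficients -/
noncomputable def DV (B Z C : Div F) : Fin 8 → Div F :=
  ![2 • B - C, B + Z - C, 2 • Z - C, 4 • B - 2 • C, 3 • B + Z - 2 • C, 2 • B + 2 • Z - 2 • C,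
    B + 3 • Z - 2 • C, 4 • Z - 2 • C]

lemma gt_piD (B Z C : Div F) (i : Fin 8) : (piD (DV B Z C i) : A F) =
    gtW (piD B : A F) (piD Z) (((piD C)⁻¹ : (A F)ˣ) : A F) i := by
  have h : ∀ D E : Div F, piD (D - E) = piD D * (piD E)⁻¹ := fun D E => by
    rw [sub_eq_add_neg, piD_add, piD_neg]
  fin_cases i <;>
    simp only [DV, gtW, Fin.zero_eta, Fin.mk_one, Fin.reduceFinMk, cons_val_zero, cons_val_one,
      cons_val, h, piD_add, piD_nsmul, ← inv_pow, Units.val_mul, Units.val_pow_eq_pow_val]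

variable [Cv F]

lemma sum_deg_DV (B Z C : Div F) : ∑ i, deg (DV B Z C i) = 13 * deg (B + Z - C) := by
  rw [Fin.sum_univ_eight]
  change deg (2 • B - C) + deg (B + Z - C) + deg (2 • Z - C) + deg (4 • B - 2 • C) +
    deg (3 • B + Z - 2 • C) + deg (2 • B + 2 • Z - 2 • C) + deg (B + 3 • Z - 2 • C) +
    deg (4 • Z - 2 • C) = _
  simp only [map_sub, map_add, map_nsmul, nsmul_eq_mul]
  push_cast
  ring

lemma gt_prod (B Z C : Div F) : ∏ i, qq F ^ (deg (DV B Z C i) + cc F) =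
    qq F ^ (13 * deg (B + Z - C) + 8 * cc F) := by
  have hq : qq F ≠ 0 := (one_pos.trans one_lt_qq).ne'
  have h : ∀ (s : Finset (Fin 8)) (e : Fin 8 → ℤ), ∏ i ∈ s, qq F ^ e i = qq F ^ ∑ i ∈ s, e i := by
    intro s e
    induction s using Finset.induction_on with
    | empty => simp
    | insert a s ha ih => rw [Finset.prod_insert ha, Finset.sum_insert ha, zpow_add₀ hq, ih]
  rw [h, Finset.sum_add_distrib, sum_deg_DV, Finset.sum_const, Finset.card_univ, Fintype.card_fin,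
    nsmul_eq_mul, Nat.cast_ofNat]

lemma gt_deg {B Z C : Div F} {b b' : ℕ} (h1 : -(b : ℤ) ≤ deg (Z - B)) (h2 : 0 ≤ deg (B + Z - C))
    (h3 : -(b' : ℤ) ≤ deg (2 • B - C)) (i : Fin 8) :
    -((2 * (b + b') : ℕ) : ℤ) ≤ deg (DV B Z C i) := by
  simp only [map_sub, map_add, map_nsmul, nsmul_eq_mul, Nat.cast_ofNat] at h1 h2 h3
  fin_cases i <;>
    simp only [DV, Fin.zero_eta, Fin.mk_one, Fin.reduceFinMk, cons_val_zero, cons_val_one,
      cons_val, map_sub, map_add, map_nsmul, nsmul_eq_mul, Nat.cast_ofNat] <;> omega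

/-- The `i`-th coefficient of `gt .. • f` is `ϖ^(DV i) * (x i + φ i x)` where `φ i x` only depends
on the earlier coefficients (`G.smul_def`, `Model.subst` with `β = 0`, `Model.shift`). -/
theorem exists_tri_desc (B Z : Div F) (η : A F) (C : Div F) (r0 r1 r2 : A F) :
    ∃ φ : Fin 8 → (Fin 8 → F) → A F, (∀ i x y, (∀ j, j < i → x j = y j) → φ i x = φ i y) ∧
      ∀ x, IntM (gt B Z η C r0 r1 r2) (toM x) ↔ ∀ i, toA F (x i) + φ i x ∈ AD (DV B Z C i) := by
  refine ⟨fun i x => (((piD (DV B Z C i))⁻¹ : (A F)ˣ) : A F) *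
    Model.equivVec (gt B Z η C r0 r1 r2 • (toM x).map (toA F)) i - toA F (x i),
    fun i x y h => ?_, fun x => ?_⟩
  · have h1 := gt_dep (piD B : A F) (piD Z) (((piD C)⁻¹ : (A F)ˣ) : A F) η r0 r1 r2
      (fun j => toA F (x j)) (fun j => toA F (y j)) i fun j hj => congrArg (toA F) (h j hj)
    rw [← gt_piD, ← gt_smul, ← gt_smul] at h1
    have h2 := (piD (DV B Z C i)).inv_mul
    change _ * Model.equivVec (gt B Z η C r0 r1 r2 • toM fun j => toA F (x j)) i - _ =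
      _ * Model.equivVec (gt B Z η C r0 r1 r2 • toM fun j => toA F (y j)) i - _
    linear_combination (((piD (DV B Z C i))⁻¹ : (A F)ˣ) : A F) * h1 +
      (toA F (x i) - toA F (y i)) * h2
  · rw [intM_iff]
    refine forall_congr' fun i => ?_
    rw [add_sub_cancel, unit_mul_mem_AD, idiv_inv, idiv_piD, add_neg_cancel, mem_AD_zero]

/-- `exists_gt`, `intM_K`, `exists_tri_desc`, `card_tri_le` -/
theorem finite_intM (g : G (A F)) : {f : Model F | IntM g f}.Finite := by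
  obtain ⟨k, hk, B, Z, η, C, r0, r1, r2, rfl⟩ := exists_gt g
  obtain ⟨φ, hφ, h⟩ := exists_tri_desc B Z η C r0 r1 r2
  have h1 : {x : Fin 8 → F | IntM (gt B Z η C r0 r1 r2) (toM x)}.Finite := by
    by_contra h1
    obtain ⟨s, hs, hc⟩ := Set.Infinite.exists_subset_card_eq h1 (∏ i, (box (DV B Z C i)).card + 1)
    have h2 := card_tri_le (DV B Z C) φ hφ s fun x hx => (h x).1 (hs hx)
    omega
  refine (h1.image toM).subset fun f hf => ⟨Model.equivVec f, ?_, rfl⟩
  exact (intM_K hk _ f).1 hf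

/-- the box of models -/
noncomputable def VB (g : G (A F)) : Finset (Model F) := (finite_intM g).toFinset

lemma mem_VB {g : G (A F)} {f : Model F} : f ∈ VB g ↔ IntM g f := by simp [VB]

lemma VB_K {k : G (A F)} (hk : k ∈ KG F) (g : G (A F)) : VB (k * g) = VB g := by
  ext f
  rw [mem_VB, mem_VB, intM_K hk]

lemma sum_VB_act {M : Type} [AddCommMonoid M] (γ : G F) (g : G (A F)) (h : Model F → M) :
    ∑ f ∈ VB (g * (gA F γ)⁻¹), h f = ∑ f ∈ VB g, h (γ • f) := by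
  refine (Finset.sum_equiv (MulAction.toPerm γ) (fun f => ?_) fun f _ => rfl).symm
  rw [mem_VB, mem_VB, MulAction.toPerm_apply, intM_act]

theorem card_VB_gt_le (B Z : Div F) (η : A F) (C : Div F) (r0 r1 r2 : A F) :
    (VB (gt B Z η C r0 r1 r2)).card ≤ ∏ i, (box (DV B Z C i)).card := by
  obtain ⟨φ, hφ, h⟩ := exists_tri_desc B Z η C r0 r1 r2
  rw [← Finset.card_map Model.equivVec.toEmbedding]
  exact card_tri_le (DV B Z C) φ hφ _ fun x hx =>
    (h x).1 (mem_VB.1 (Finset.mem_map_equiv.1 hx))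

theorem card_VB_gt {B Z C : Div F} (η r0 r1 r2 : A F) (h : ∀ i, (c0 F : ℤ) ≤ deg (DV B Z C i)) :
    ((VB (gt B Z η C r0 r1 r2)).card : ℝ) = qq F ^ (13 * deg (B + Z - C) + 8 * cc F) := by
  obtain ⟨φ, hφ, h'⟩ := exists_tri_desc B Z η C r0 r1 r2
  rw [← Finset.card_map Model.equivVec.toEmbedding, card_tri (DV B Z C) h φ hφ _ fun x =>
    Finset.mem_map_equiv.trans (mem_VB.trans (h' x)), Nat.cast_prod,
    Finset.prod_congr rfl fun i _ => card_box (h i), gt_prod]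

/-- Let `E = 2 B - C`.  `cA = l^2 + 4 a` is invariant under shifts, so `cA f ∈ L(2 E)` vanishes.
If `2 ≠ 0` the point `(1, 0, -l / 2)` is fixed by the involution.  If `2 = 0` then `l = 0` and
`a - ρ^2 ∈ A(2 E)` with `ρ = r0 ϖ^(-2 B)`; approximate `ρ` at `v` by `y ∈ F` (`approx_one`), then
`D a = D (a - y^2)` and `IsDer.pole'` give `D a ∈ L(2 E + K) = 0`, so `a` is a square
(`IsDer.ker`) and `(1, 0, √a)` is fixed. -/
theorem exists_triv : ∃ b : ℕ, ∀ (B Z : Div F) (η : A F) (C : Div F) (r0 r1 r2 : A F),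
    deg (2 • B - C) < -b → ∀ f, IntM (gt B Z η C r0 r1 r2) f → f.Triv := by
  obtain ⟨D, t, K, hD⟩ := exists_der (F := F)
  refine ⟨(deg K).toNat, fun B Z η C r0 r1 r2 hb f hf => ?_⟩
  have hK := deg_nonneg hD.nonneg
  rw [Int.toNat_of_nonneg hK] at hb
  obtain ⟨E, hE⟩ : ∃ E, E = 2 • B - C := ⟨_, rfl⟩
  rw [← hE] at hb
  have hp : (piD (2 • E) : A F) = (piD B : A F) ^ 4 * (((piD C)⁻¹ : (A F)ˣ) : A F) ^ 2 := by
    rw [show 2 • E = DV B Z C 3 by rw [hE]; change _ = 4 • B - 2 • C; abel]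
    exact gt_piD B Z C 3
  have hl : (((piD C)⁻¹ : (A F)ˣ) : A F) * (toA F f.l * (piD B : A F) ^ 2 + 2 * r0) ∈ Oh F := by
    have h := intM_iff.1 hf 0
    rwa [gt_smul, gt_l] at h
  have ha : (((piD C)⁻¹ : (A F)ˣ) : A F) ^ 2 * (-(toA F f.l * (piD B : A F) ^ 2) * r0 +
      toA F f.a * (piD B : A F) ^ 4 - r0 ^ 2) ∈ Oh F := by
    have h := intM_iff.1 hf 3
    rwa [gt_smul, gt_a] at h
  have hdeg : deg (2 • E) = 2 * deg E := by rw [map_nsmul, two_nsmul, two_mul]
  have hc : f.l ^ 2 + 4 * f.a = 0 := by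
    refine eq_zero_of_deg_neg (D := 2 • E) (by rw [hdeg]; linarith) (toA_mem_AD.1 ?_)
    have h1 := (Oh F).add_mem ((Oh F).pow_mem hl 2) ((Oh F).mul_mem (natCast_mem (Oh F) 4) ha)
    have h2 : (piD (2 • E) : A F) * toA F (f.l ^ 2 + 4 * f.a) ∈ AD (0 : Div F) := by
      rw [mem_AD_zero, hp, map_add, map_pow, map_mul, map_ofNat]
      refine Eq.subst (motive := fun a => a ∈ Oh F) ?_ h1
      push_cast
      ring
    rwa [unit_mul_mem_AD, idiv_piD, zero_add] at h2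
  by_cases h2 : (2 : F) = 0
  · have hl0 : f.l = 0 := by
      refine pow_eq_zero_iff (two_ne_zero (α := ℕ)) |>.1 ?_
      linear_combination hc - 2 * f.a * h2
    obtain ⟨ρ, hρ⟩ : ∃ ρ : A F, r0 = (piD B : A F) ^ 2 * ρ :=
      ⟨(((piD B)⁻¹ : (A F)ˣ) : A F) ^ 2 * r0, by
        rw [← mul_assoc, ← mul_pow, Units.mul_inv, one_pow, one_mul]⟩
    have h3 : toA F f.a - ρ ^ 2 ∈ AD (2 • E) := by
      have h4 : (piD (2 • E) : A F) * (toA F f.a - ρ ^ 2) ∈ AD (0 : Div F) := by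
        rw [mem_AD_zero, hp]
        refine Eq.subst (motive := fun a => a ∈ Oh F) ?_ ha
        rw [hl0, map_zero, hρ]
        ring
      rwa [unit_mul_mem_AD, idiv_piD, zero_add] at h4
    have h4 : D f.a ∈ LL (2 • E + K) := fun v => by
      obtain ⟨y, hy⟩ := approx_one v (pr v ρ) (E v)
      have h5 := h3 v
      have e2 : (2 • E : Div F) v = E v + E v := by rw [two_nsmul, Finsupp.add_apply]
      rw [map_sub, map_pow, pr_toA, e2] at h5
      have h6 : (2 : v.Compl) = 0 := by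
        rw [← map_ofNat (algebraMap F v.Compl) 2, h2, map_zero]
      have h7 : v.1 (f.a - y ^ 2) ≤ exp (E v + E v) := by
        rw [← v.vc_algebraMap, map_sub, map_pow, show algebraMap F v.Compl f.a -
          algebraMap F v.Compl y ^ 2 = (algebraMap F v.Compl f.a - pr v ρ ^ 2) +
            (algebraMap F v.Compl y - pr v ρ) * (algebraMap F v.Compl y - pr v ρ) by
          linear_combination (algebraMap F v.Compl y * pr v ρ - algebraMap F v.Compl y ^ 2) * h6]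
        refine v.vc.map_add_le h5 ?_
        rw [map_mul, exp_add]
        exact mul_le_mul' hy hy
      have h8 := hD.pole' v (m := E v + E v) (by push_cast; linear_combination (E v : F) * h2) h7
      have h9 : D (y ^ 2) = 0 := by
        rw [hD.map_pow y 1]
        push_cast
        linear_combination y * D y * h2
      rwa [map_sub, h9, sub_zero, ← e2, ← Finsupp.add_apply] at h8
    obtain ⟨y, hy⟩ := hD.ker _
      (eq_zero_of_deg_neg (by rw [map_add, hdeg]; linarith) h4)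
    have hch : ringChar F = 2 := (Nat.prime_dvd_prime_iff_eq prime_ringChar Nat.prime_two).1
      (ringChar.dvd (by exact_mod_cast h2))
    rw [hch] at hy
    refine ⟨⟨1, 0, y⟩, ⟨Or.inl one_ne_zero, ?_⟩, ?_⟩
    · simp only [Model.F, Model.q, Model.g, hl0, hy]
      ring
    · simp only [Model.psi, Model.q, hl0, h2]
      ring
  · obtain ⟨y, hy⟩ : ∃ y, f.l = -(2 * y) := ⟨-f.l / 2, by field_simp⟩
    refine ⟨⟨1, 0, y⟩, ⟨Or.inl one_ne_zero, ?_⟩, ?_⟩
    · refine mul_left_cancel₀ (mul_ne_zero h2 h2) ?_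
      rw [hy] at hc
      simp only [Model.F, Model.q, Model.g, hy]
      linear_combination -hc
    · simp only [Model.psi, Model.q, hy]
      ring

/-- The cusp bound.  Move `g` by `G.ofM γ` to reduced form (`exists_reduced`, `exists_gt'`,
`sum_VB_act`, `Model.triv_smul`).  With `d = deg (cls g) ≥ 0` and `n = deg (Z - B) ≥ -b` the
degrees of the `DV i` are `d - n, d, d + n, 2 d - 2 n, 2 d - n, 2 d, 2 d + n, 2 d + 2 n`; either
`exists_triv` applies or all are bounded below, and `card_box_le` applies. -/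
theorem cusp : ∃ C : ℝ, 0 < C ∧ ∀ g : G (A F), 0 ≤ deg (cls g) →
    (((VB g).filter fun f => ¬f.Triv).card : ℝ) ≤ C * qq F ^ (13 * deg (cls g) + 8 * cc F) := by
  obtain ⟨b, hb⟩ := exists_reduced (F := F)
  obtain ⟨b', hb'⟩ := exists_triv (F := F)
  obtain ⟨C₀, hC₀, hC⟩ := card_box_le (F := F) (2 * (b + b'))
  have hq0 : 0 < qq F := one_pos.trans one_lt_qq
  have hC0 : 0 < C₀ := one_pos.trans_le hC₀
  refine ⟨C₀ ^ 8, by positivity, fun g hg => ?_⟩
  obtain ⟨γ, B, Z, η, h1, h2⟩ := hb (RC.mk (K2 F) g.M)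
  have h3 : RC.mk (K2 F) (g * (gA F (G.ofM γ))⁻¹).M = RC.mk (K2 F) (tri B Z η) := by
    rw [← h1, act2_mk, G.mul_M, G.inv_M]
    rfl
  obtain ⟨k, hk, C, r0, r1, r2, h4⟩ := exists_gt' h3
  have h5 : deg (cls g) = deg (B + Z - C) := by
    have h6 := congrArg (fun x => deg (cls x)) h4
    simpa only [cls_act, cls_K hk, cls_gt, map_add (deg (F := F)) _ (dv _),
      map_sub (deg (F := F)) _ (dv _), deg_dv, sub_zero, add_zero] using h6
  have h6 : ((VB g).filter fun f => ¬f.Triv).card =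
      ((VB (gt B Z η C r0 r1 r2)).filter fun f => ¬f.Triv).card := by
    rw [← VB_K hk (gt B Z η C r0 r1 r2), ← h4, Finset.card_filter, Finset.card_filter, sum_VB_act]
    exact Finset.sum_congr rfl fun f _ => if_congr (by rw [Model.triv_smul]) rfl rfl
  rw [h6, h5]
  rw [h5] at hg
  by_cases h7 : deg (2 • B - C) < -b'
  · rw [Finset.filter_false_of_mem fun f hf => not_not.2 (hb' B Z η C r0 r1 r2 h7 f (mem_VB.1 hf)),
      Finset.card_empty, Nat.cast_zero]
    positivity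
  · have h8 : ∀ i, -((2 * (b + b') : ℕ) : ℤ) ≤ deg (DV B Z C i) :=
      gt_deg h2 hg (not_lt.1 h7)
    calc (((VB (gt B Z η C r0 r1 r2)).filter fun f => ¬f.Triv).card : ℝ)
        ≤ ∏ i, ((box (DV B Z C i)).card : ℝ) := by
          exact_mod_cast (Finset.card_filter_le _ _).trans (card_VB_gt_le B Z η C r0 r1 r2)
      _ ≤ ∏ i, C₀ * qq F ^ (deg (DV B Z C i) + cc F) :=
          Finset.prod_le_prod (fun i _ => Nat.cast_nonneg _) fun i _ => hC _ (h8 i)
      _ = _ := by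
          rw [Finset.prod_mul_distrib, gt_prod, Finset.prod_const, Finset.card_univ,
            Fintype.card_fin]

end SelAvg.FF
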