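import Pool.Agent.H81Sel.Glob1
import Pool.Agent.H81Sel.Gt

/-! Row VCP: patching of changes of variables, the transfer from objects to models,
automorphism groups. -/

namespace SelAvg.FF

open WeierstrassCurve WithZero Filter Topology Matrix
open scoped Classical ENNReal

variable {F : Type} [Field F]

/-- the order of the automorphism group -/
noncomputable def aut (W : WeierstrassCurve F) : ℕ := Nat.card {C : VariableChange F // C • W = W}

lemma vcp_card_le {W : WeierstrassCurve F} (hΔ : W.Δ ≠ 0) (s : Finset (VariableChange F))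
    (hs : ∀ C ∈ s, C • W = W) : s.card ≤ 192 := by
  have h1 : ∀ C ∈ s, ((C.u⁻¹ : Fˣ) : F) ∈ (Polynomial.nthRoots 12 (1 : F)).toFinset := by
    intro C hC
    have e := congrArg WeierstrassCurve.Δ (hs C hC)
    rw [variableChange_Δ] at e
    rw [Multiset.mem_toFinset, Polynomial.mem_nthRoots (by norm_num)]
    exact mul_right_cancel₀ hΔ (by rw [e, one_mul])
  have h2 : (Polynomial.nthRoots 12 (1 : F)).toFinset.card ≤ 12 :=
    (Multiset.toFinset_card_le _).trans (Polynomial.card_nthRoots 12 1)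
  have h3 := Finset.card_le_mul_card_image_of_maps_to h1 16 fun b _ => by
    rcases (s.filter fun C => ((C.u⁻¹ : Fˣ) : F) = b).eq_empty_or_nonempty with h | ⟨C₀, h⟩
    · rw [h]; simp
    · refine stab_card_le W C₀.u _ fun C hC => ⟨?_, hs C (Finset.mem_filter.1 hC).1⟩
      exact inv_injective (Units.ext
        ((Finset.mem_filter.1 hC).2.trans (Finset.mem_filter.1 h).2.symm))
  omega

/-- `u^12 = 1` (`variableChange_Δ`), `stab_card_le` -/
theorem finite_aut {W : WeierstrassCurve F} (hΔ : W.Δ ≠ 0) :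
    {C : VariableChange F | C • W = W}.Finite := by
  by_contra hinf
  obtain ⟨s, hs, hc⟩ := Set.Infinite.exists_subset_card_eq hinf 193
  have := vcp_card_le hΔ s fun C hC => hs hC
  omega

theorem aut_le {W : WeierstrassCurve F} (hΔ : W.Δ ≠ 0) : aut W ≤ 192 := by
  have e : aut W = (finite_aut hΔ).toFinset.card :=
    (Nat.card_coe_set_eq _).trans (Set.ncard_eq_toFinset_card _ (finite_aut hΔ))
  rw [e]
  exact vcp_card_le hΔ _ fun C hC => (finite_aut hΔ).mem_toFinset.1 hC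

theorem two_le_aut {W : WeierstrassCurve F} (hΔ : W.Δ ≠ 0) : 2 ≤ aut W := by
  have : Finite {C : VariableChange F // C • W = W} := (finite_aut hΔ).to_subtype
  exact Finite.one_lt_card_iff_nontrivial.2 ⟨⟨negC W, negC_smul W⟩, ⟨1, one_smul _ W⟩,
    fun h => negC_ne_one hΔ (congrArg Subtype.val h)⟩

/-- `stab_generic` -/
theorem aut_le_two {W : WeierstrassCurve F} (h4 : W.c₄ ≠ 0) (h6 : W.c₆ ≠ 0) : aut W ≤ 2 := by
  have e : aut W = {C : VariableChange F | C • W = W}.ncard := Nat.card_coe_set_eq _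
  have h : {C : VariableChange F | C • W = W} ⊆ {1, negC W} := fun C hC => stab_generic h4 h6 hC
  rw [e]
  refine (Set.ncard_le_ncard h (Set.toFinite _)).trans ((Set.ncard_insert_le _ _).trans ?_)
  rw [Set.ncard_singleton]

/-- conjugation -/
theorem aut_smul (C : VariableChange F) (W : WeierstrassCurve F) : aut (C • W) = aut W := by
  refine Nat.card_congr (Equiv.subtypeEquiv (MulAut.conj C⁻¹).toEquiv fun B => ?_)
  change _ ↔ (C⁻¹ * B * C⁻¹⁻¹) • W = W
  rw [inv_inv, mul_smul, mul_smul, inv_smul_eq_iff]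

variable [Cv F]

theorem finite_GB (D : Div F) : {C : VariableChange F | dv ((C.u : Fˣ) : F) = 0 ∧
    C.r ∈ LL (2 • D) ∧ C.s ∈ LL D ∧ C.t ∈ LL (3 • D)}.Finite := by
  refine (((finite_ww (F := F)).prod ((finite_LL (2 • D)).prod
    ((finite_LL D).prod (finite_LL (3 • D))))).image
      fun p => (⟨p.1, p.2.1, p.2.2.1, p.2.2.2⟩ : VariableChange F)).subset fun C hC => ?_
  exact ⟨(C.u, C.r, C.s, C.t), ⟨hC.1, hC.2.1, hC.2.2.1, hC.2.2.2⟩, rfl⟩

/-- the changes of variables that preserve the box -/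
noncomputable def GB (D : Div F) : Finset (VariableChange F) := (finite_GB D).toFinset

lemma mem_GB {D : Div F} {C : VariableChange F} : C ∈ GB D ↔ dv ((C.u : Fˣ) : F) = 0 ∧
    C.r ∈ LL (2 • D) ∧ C.s ∈ LL D ∧ C.t ∈ LL (3 • D) := by simp [GB]

omit [Cv F] in
lemma vcp_intC (B : VariableChange (A F)) (D : Div F) : IntC (B * (cW D)⁻¹) ↔
    idiv B.u + D = 0 ∧ B.r ∈ AD (2 • D) ∧ B.s ∈ AD D ∧ B.t ∈ AD (3 • D) := by
  have e : B * (cW D)⁻¹ = ⟨B.u * piD D, (piD (2 • D) : A F) * B.r, (piD D : A F) * B.s,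
      (piD (3 • D) : A F) * B.t⟩ := by
    simp [cW, wdiag, VariableChange.mul_def, VariableChange.inv_def, piD_neg, piD_nsmul, mul_comm]
  rw [intC_iff, e]
  simp only [← mem_AD_zero, unit_mul_mem_AD, idiv_mul, idiv_piD, zero_add]

lemma mem_GB_iff {D : Div F} {C : VariableChange F} :
    C ∈ GB D ↔ IntC (cW D * C.map (toA F) * (cW D)⁻¹) := by
  have e : cW D * C.map (toA F) =
      ⟨piD (-D) * uA C.u, toA F C.r, toA F C.s, toA F C.t⟩ := by
    simp [cW, wdiag, VariableChange.mul_def, VariableChange.map]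
  rw [mem_GB, vcp_intC, e]
  simp only [toA_mem_AD, idiv_mul, idiv_piD, idiv_uA, neg_add_cancel_comm]

lemma one_mem_GB (D : Div F) : 1 ∈ GB D := by
  exact mem_GB.2 ⟨dv_one, zero_mem _, zero_mem _, zero_mem _⟩

lemma mul_mem_GB {D : Div F} {C C' : VariableChange F} (h : C ∈ GB D) (h' : C' ∈ GB D) :
    C * C' ∈ GB D := by
  have := (mem_GB_iff.1 h).mul (mem_GB_iff.1 h')
  rw [mem_GB_iff, Obj.vc_map_mul]
  simpa only [mul_assoc, inv_mul_cancel_left] using this

lemma vcp_map_inv (C : VariableChange F) : C⁻¹.map (toA F) = (C.map (toA F))⁻¹ :=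
  (VariableChange.mapHom (toA F)).map_inv C

lemma inv_mem_GB {D : Div F} {C : VariableChange F} (h : C ∈ GB D) : C⁻¹ ∈ GB D := by
  have := (mem_GB_iff.1 h).inv
  rw [mem_GB_iff, vcp_map_inv]
  simpa only [_root_.mul_inv_rev, inv_inv, mul_assoc] using this

lemma vcp_smul {D : Div F} {C : VariableChange F} {C₀ : VariableChange (Oh F)}
    (hC : C₀.map (inc F) = cW D * C.map (toA F) * (cW D)⁻¹) {W : WeierstrassCurve F}
    {W₀ : WeierstrassCurve (Oh F)} (hW : W₀.map (inc F) = cW D • W.map (toA F)) :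
    (C₀ • W₀).map (inc F) = cW D • (C • W).map (toA F) := by
  rw [← map_variableChange, ← map_variableChange, hC, hW, mul_smul, inv_smul_smul, mul_smul]

lemma smul_mem_WB {D : Div F} {C : VariableChange F} (h : C ∈ GB D) {W : WeierstrassCurve F}
    (hW : W ∈ WB D) : C • W ∈ WB D := by
  obtain ⟨C₀, hC⟩ := mem_GB_iff.1 h
  obtain ⟨W₀, hW₀⟩ := mem_WB_iff_int.1 hW
  exact mem_WB_iff_int.2 ⟨C₀ • W₀, vcp_smul hC hW₀⟩

lemma locW_smul {D : Div F} {C : VariableChange F} (h : C ∈ GB D) {W : WeierstrassCurve F}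
    (hW : W ∈ WB D) (v : Place F) :
    ∃ C₀ : VariableChange v.loc.O, locW v D (C • W) = C₀ • locW v D W := by
  obtain ⟨C₀, hC⟩ := mem_GB_iff.1 h
  obtain ⟨W₀, hW₀⟩ := mem_WB_iff_int.1 hW
  exact ⟨C₀.map (prO v), by rw [locW_eq (vcp_smul hC hW₀), locW_eq hW₀, map_variableChange]⟩

theorem card_GB {D : Div F} (h : (c0 F : ℤ) ≤ deg D) :
    ((GB D).card : ℝ) = ww F * qq F ^ (6 * deg D + 3 * cc F) := by
  have h0 : (0 : ℤ) ≤ c0 F := Int.natCast_nonneg _
  have hq : qq F ≠ 0 := (zero_lt_one.trans one_lt_qq).ne'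
  have e : (GB D).card = ((finite_ww (F := F)).toFinset ×ˢ box (2 • D) ×ˢ box D ×ˢ
      box (3 • D)).card := by
    refine Finset.card_nbij' (fun C => (C.u, C.r, C.s, C.t))
      (fun p => ⟨p.1, p.2.1, p.2.2.1, p.2.2.2⟩) (fun C hC => ?_) (fun p hp => ?_)
      (fun _ _ => rfl) fun _ _ => rfl
    · simpa [mem_box, mem_GB] using hC
    · simpa [mem_box, mem_GB] using hp
  have ew : (finite_ww (F := F)).toFinset.card = ww F :=
    ((Nat.card_coe_set_eq _).trans (Set.ncard_eq_toFinset_card _ finite_ww)).symm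
  have h2 : deg (2 • D) = 2 * deg D := by rw [map_nsmul]; simp
  have h3 : deg (3 • D) = 3 * deg D := by rw [map_nsmul]; simp
  rw [e]
  simp only [Finset.card_product, Nat.cast_mul]
  rw [ew, card_box h, card_box (D := 2 • D) (by omega), card_box (D := 3 • D) (by omega), h2, h3,
    ← zpow_add₀ hq, ← zpow_add₀ hq]
  congr 2
  ring

/-- Put `C' = C⁻¹ * cW D`; we need `γ = C' * B` with `B.u = ε` an integral unit, `B.r ∈ A(2 D)`,
`B.s ∈ A(D)`, `B.t ∈ A(3 D)`.  Choose `γ.r`, `γ.s`, then `γ.t` by `approx`. -/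
theorem exists_intC {D : Div F} (hD : (c0 F : ℤ) ≤ deg D) (C : VariableChange (A F)) (u : Fˣ)
    (hu : -idiv C.u = D + dv (u : F)) :
    ∃ γ : VariableChange F, γ.u = u ∧ IntC (C * γ.map (toA F) * (cW D)⁻¹) := by
  have h0 : (0 : ℤ) ≤ c0 F := Int.natCast_nonneg _
  have h2 : deg (2 • D) = 2 * deg D := by rw [map_nsmul]; simp
  have h3 : deg (3 • D) = 3 * deg D := by rw [map_nsmul]; simp
  obtain ⟨r, hr⟩ := approx (D := 2 • D) (by omega) (-(C.r * (uA u : A F) ^ 2))
  obtain ⟨s, hs⟩ := approx hD (-((uA u : A F) * C.s))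
  obtain ⟨t, ht⟩ := approx (D := 3 • D) (by omega)
    (-(C.t * (uA u : A F) ^ 3 + C.r * toA F s * (uA u : A F) ^ 2))
  rw [sub_neg_eq_add, add_comm] at hr hs ht
  refine ⟨⟨u, r, s, t⟩, rfl, (vcp_intC _ _).2 ⟨?_, hr, hs, ht⟩⟩
  change idiv (C.u * uA u) + D = 0
  rw [idiv_mul, idiv_uA, add_assoc, add_comm _ D, ← hu, add_neg_cancel]

/-- the solutions form a coset of `GB D` -/
theorem intC_iff_of_intC {D : Div F} {C : VariableChange (A F)} {γ₀ : VariableChange F}
    (h : IntC (C * γ₀.map (toA F) * (cW D)⁻¹)) (γ : VariableChange F) :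
    IntC (C * γ.map (toA F) * (cW D)⁻¹) ↔ γ₀⁻¹ * γ ∈ GB D := by
  rw [mem_GB_iff, Obj.vc_map_mul, vcp_map_inv]
  refine ⟨fun h' => ?_, fun h' => ?_⟩
  · simpa only [_root_.mul_inv_rev, inv_inv, mul_assoc, inv_mul_cancel_left] using h.inv.mul h'
  · simpa only [mul_assoc, inv_mul_cancel_left, mul_inv_cancel_left] using h.mul h'

/-- An object `z = (f, γ)` lies over exactly one `W = γ⁻¹ • jac f`, which is in `WB D` if `z` is
integral (`IntO.mem_WB`).  For `f ∈ VB g` the number of `γ` is `card (GB D)` or `0`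
(`exists_intC`, `intC_iff_of_intC`, `IntO.cls_eq`, `G.Gam_u`). -/
theorem transfer {D : Div F} (hD : (c0 F : ℤ) ≤ deg D) (g : G (A F)) (h : Model F → ℝ≥0∞)
    (H : WeierstrassCurve F → Obj F → ℝ≥0∞)
    (hH : ∀ W z, z.Over W → IntO D z g → H W z = h z.f) :
    ∑ W ∈ WB D, ∑' z : Obj F, (if z.Over W ∧ IntO D z g then H W z else 0) =
      if ∃ u : Fˣ, cls g = D + dv (u : F) then (GB D).card * ∑ f ∈ VB g, h f else 0 := by
  have h1 : ∀ z : Obj F, (∑ W ∈ WB D, if z.Over W ∧ IntO D z g then H W z else 0) =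
      if IntO D z g then h z.f else 0 := by
    intro z
    split_ifs with hz
    · have ho : z.Over (z.γ⁻¹ • z.f.jac) := (smul_inv_smul _ _).symm
      rw [Finset.sum_eq_single_of_mem _ (hz.mem_WB ho), if_pos ⟨ho, hz⟩, hH _ _ ho hz]
      intro W _ hW
      refine if_neg fun hc => hW ?_
      rw [show z.f.jac = z.γ • W from hc.1, inv_smul_smul]
    · exact Finset.sum_eq_zero fun W _ => if_neg fun hc => hz hc.2
  rw [← Summable.tsum_finsetSum fun _ _ => ENNReal.summable, tsum_congr h1]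
  split_ifs with hu
  · obtain ⟨u, hu⟩ := hu
    let e : Model F × VariableChange F ≃ Obj F :=
      ⟨fun p => ⟨p.1, p.2⟩, fun z => (z.f, z.γ), fun _ => rfl, fun _ => rfl⟩
    have h2 : ∀ f : Model F, (∑' γ : VariableChange F, if IntO D ⟨f, γ⟩ g then h f else 0) =
        if f ∈ VB g then (GB D).card * h f else 0 := by
      intro f
      split_ifs with hf
      · obtain ⟨γ₀, -, hγ⟩ := exists_intC hD (g.Gam (f.map (toA F))) u (by
          rw [G.Gam_u, idiv_mul, idiv_inv, ← hu, cls]; abel)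
        have h3 : ∀ γ, IntO D ⟨f, γ⟩ g ↔ γ₀⁻¹ * γ ∈ GB D := fun γ => by
          rw [IntO, ← intC_iff_of_intC hγ γ]
          dsimp only
          exact and_iff_right (mem_VB.1 hf)
        simp only [h3]
        rw [← (Equiv.mulLeft γ₀).tsum_eq]
        simp only [Equiv.coe_mulLeft, inv_mul_cancel_left]
        rw [tsum_eq_sum (s := GB D) fun γ hγ' => if_neg hγ', ← nsmul_eq_mul, ← Finset.sum_const]
        exact Finset.sum_congr rfl fun γ hγ' => if_pos hγ'
      · exact ENNReal.tsum_eq_zero.2 fun γ => if_neg fun hc => hf (mem_VB.2 hc.1)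
    rw [← e.tsum_eq, ENNReal.tsum_prod']
    refine (tsum_congr h2).trans ?_
    rw [tsum_eq_sum (s := VB g) fun f hf => if_neg hf, Finset.mul_sum]
    exact Finset.sum_congr rfl fun f hf => if_pos hf
  · exact ENNReal.tsum_eq_zero.2 fun z => if_neg fun hc => hu ⟨_, hc.cls_eq⟩

end SelAvg.FF
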