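import Pool.Agent.H81Sel.Gt

/-! Row FIB: the mass of the torsors over a given bundle of rank two. -/

namespace SelAvg.FF

open WeierstrassCurve WithZero Filter Topology Matrix
open scoped Classical ENNReal

variable {F : Type} [Field F] [Cv F]

/-- the mass of a fibre -/
noncomputable def fibM (D : Div F) : ℝ := qq F ^ (-3 * (deg D + cc F)) / ww F

lemma fibM_pos (D : Div F) : 0 < fibM D :=
  div_pos (zpow_pos (zero_lt_one.trans one_lt_qq) _) (Nat.cast_pos.2 ww_pos)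

/-- the shift with a given vector -/
def fibS {R : Type} [CommRing R] (a : Fin 3 → R) : G R := G.ofShift (a 0) (a 1) (a 2)

lemma fibS_add {R : Type} [CommRing R] (a b : Fin 3 → R) : fibS (a + b) = fibS a * fibS b := by
  refine G.ext (by simp [fibS]) (by simp [fibS]) ?_ ?_ ?_ <;>
    simp [fibS, G.mul_r0, G.mul_r1, G.mul_r2]

lemma fibS_eq {R : Type} [CommRing R] {g : G R} (h : g.M = 1) (h' : g.μ = 1) :
    fibS ![g.r0, g.r1, g.r2] = g := G.ext h.symm h'.symm rfl rfl rfl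

/-- the shifts as a subgroup -/
def fibI (R : Type) [CommRing R] : Multiplicative (Fin 3 → R) →* G R where
  toFun a := fibS a.toAdd
  map_one' := rfl
  map_mul' a b := fibS_add a.toAdd b.toAdd

lemma fibI_inj {R : Type} [CommRing R] : Function.Injective (fibI R) := by
  intro a b h
  refine Multiplicative.toAdd.injective (funext fun i => ?_)
  fin_cases i
  exacts [congrArg G.r0 h, congrArg G.r1 h, congrArg G.r2 h]

/-- the unipotent part -/
def fibU {R : Type} [CommRing R] (η : R) : (Fin 3 → R) ≃ₗ[R] (Fin 3 → R) where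
  toFun a := ![a 0, a 1 + 2 * η * a 0, a 2 + η * a 1 + η ^ 2 * a 0]
  invFun a := ![a 0, a 1 - 2 * η * a 0, a 2 - η * a 1 + η ^ 2 * a 0]
  map_add' a b := by funext i; fin_cases i <;> simp <;> ring
  map_smul' s a := by funext i; fin_cases i <;> simp <;> ring
  left_inv a := by funext i; fin_cases i <;> simp; ring
  right_inv a := by funext i; fin_cases i <;> simp; ring

lemma fibU_apply {R : Type} [CommRing R] (η : R) (a : Fin 3 → R) :
    fibU η a = ![a 0, a 1 + 2 * η * a 0, a 2 + η * a 1 + η ^ 2 * a 0] := rfl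

omit [Cv F] in
/-- the lattice of the shifts -/
noncomputable def fibT (B Z : Div F) (η : A F) (C : Div F) : (Fin 3 → A F) ≃ₗ[A F] (Fin 3 → A F) :=
  (fibU η).trans (ddg ![2 • B - C, B + Z - C, 2 • Z - C])

omit [Cv F] in
lemma fib_conj (B Z : Div F) (η : A F) (C : Div F) (a : Fin 3 → A F) :
    gt B Z η C 0 0 0 * fibS a = fibS (fibT B Z η C a) * gt B Z η C 0 0 0 := by
  have e : ∀ E : Div F, (piD C : A F) * piD (E - C) = piD E := fun E => by
    rw [← Units.val_mul, ← piD_add, add_sub_cancel]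
  have e0 := e (2 • B)
  have e1 := e (B + Z)
  have e2 := e (2 • Z)
  rw [piD_nsmul, Units.val_pow_eq_pow_val] at e0 e2
  rw [piD_add, Units.val_mul] at e1
  refine G.ext (by simp [fibS]) (by simp [fibS]) ?_ ?_ ?_ <;>
    simp only [fibS, G.mul_r0, G.mul_r1, G.mul_r2, gt, G.m11, G.m12, G.m21, G.m22, tri_val,
      G.ofShift_r0, G.ofShift_r1, G.ofShift_r2, fibT, LinearEquiv.trans_apply, ddg_apply,
      fibU_apply, of_apply, cons_val]
  · linear_combination -(a 0) * e0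
  · linear_combination -(a 1 + 2 * η * a 0) * e1
  · linear_combination -(a 2 + η * a 1 + η ^ 2 * a 0) * e2

omit [Cv F] in
lemma fibS_mem {a : Fin 3 → A F} : fibS a ∈ KG F ↔ ∀ i, a i ∈ Oh F := by
  rw [mem_KG, Fin.forall_fin_succ, Fin.forall_fin_two]
  simp [fibS]

omit [Cv F] in
lemma fib_mu (g : G (A F)) : idiv (RC.mk (KG F) g).out.μ = idiv g.μ := by
  obtain ⟨k, hk, h⟩ := RC.out_mk (K := KG F) g
  rw [h, G.mul_μ, idiv_mul, (mem_KG.1 hk).2.1, zero_add]

lemma fib_NN (B Z : Div F) (η : A F) (C : Div F) :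
    NN (fibT B Z η C) = qq F ^ (3 * (deg (B + Z - C) + cc F)) := by
  rw [NN_tri (n := 3) _ ![2 • B - C, B + Z - C, 2 • Z - C]
    (fun i => (LinearMap.proj i : (Fin 3 → A F) →ₗ[A F] A F).comp
      ((fibU η).toLinearMap - LinearMap.id)) (fun i a a' h => ?_)
    fun a i => by simp [fibT, ddg_apply]]
  · congr 1
    simp only [Fin.sum_univ_three, cons_val, map_sub, map_add, map_nsmul, nsmul_eq_mul]
    push_cast
    ring
  · fin_cases i
    · simp [fibU_apply]
    · simp [fibU_apply, h 0 (by decide)]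
    · simp [fibU_apply, h 0 (by decide), h 1 (by decide), add_assoc]

lemma fib_mass {σ : XG F → ℝ≥0∞} (hσ : IsBru ((actG F).comp (fibI F)) σ) (B Z : Div F) (η : A F)
    (C : Div F) : ∑' x, (if pM x = RC.mk (K2 F) (tri B Z η) ∧ idiv x.out.μ = C then σ x else 0) =
      ENNReal.ofReal (qq F ^ (-3 * (deg (B + Z - C) + cc F))) := by
  have h := mass_lattice (fibT B Z η C) (NN_pos _) (NN_spec _)
    (fun a => RC.mk (KG F) (gt B Z η C 0 0 0 * fibS a)) (fun a a' => ?_) σ fun a => ?_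
  · rw [fib_NN, ← _root_.zpow_neg, ← neg_mul] at h
    rw [← h]
    refine tsum_congr fun x => if_congr ⟨fun hx => ?_, ?_⟩ rfl rfl
    · obtain ⟨k, hk, C', r0, r1, r2, hg⟩ := exists_gt' hx.1
      have hC : C' = C := by
        rw [← hx.2, hg, G.mul_μ, idiv_mul, (mem_KG.1 hk).2.1, zero_add]
        exact (idiv_piD C').symm
      subst hC
      have e := fibS_eq (g := (gt B Z η C' 0 0 0)⁻¹ * gt B Z η C' r0 r1 r2) (by simp [gt])
        (by simp [gt])
      exact ⟨_, (RC.mk_eq.2 ⟨k, hk, by rw [e, mul_inv_cancel_left]; exact hg⟩).trans x.mk_out⟩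
    · rintro ⟨a, rfl⟩
      rw [pM_mk, fib_mu]
      simp [gt, fibS]
  · rw [eq_comm, RC.mk_eq, ← fibS_mem, ← sub_add_cancel a a', fibS_add, ← mul_assoc, fib_conj,
      mul_assoc, add_sub_cancel_right]
    exact ⟨fun ⟨k, hk, h⟩ => mul_right_cancel h ▸ hk, fun h => ⟨_, h, rfl⟩⟩
  · rw [← hσ (RC.mk (KG F) (gt B Z η C 0 0 0 * fibS a)),
      ← ((Equiv.neg (Fin 3 → F)).trans Multiplicative.ofAdd).tsum_eq]
    refine tsum_congr fun y => congrArg σ ?_
    rw [MonoidHom.comp_apply, actG_mk, ← map_inv, ← map_inv, fibS_add, mul_assoc]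
    simp only [Equiv.trans_apply, Equiv.neg_apply, ofAdd_neg, inv_inv]
    exact congrArg (fun g => RC.mk (KG F) (gt B Z η C 0 0 0 * (fibS a * g)))
      (G.ext (by simp [fibS, fibI]) (by simp [fibS, fibI]) rfl rfl rfl)

/-- Apply `IsBru.mul` to `G F → GL₂(F) × Fˣ`, `p x = (pM x, -idiv x.out.μ)`, the product action
`(act2, actD)`, `β (y, E) = ρ₂ y * βD E`, and the shifts `Multiplicative (Fin 3 → F)` (`G.ofShift`)
with a Bruhat function `σ` (`exists_bru`, `finite_stabG`).  The torsors over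
`(mk (tri B Z η), -C)` are the `e a = mk (⟨tri B Z η, piD C, 0, 0, 0⟩ * ofShift (a 0) (a 1) (a 2))`
(`exists_gt'`), and `mass_lattice` with `NN_tri` (divisors `2 B - C`, `B + Z - C`, `2 Z - C`)
gives the mass `q^(-3 (deg (B + Z - C) + c))`.  Then `class_mass`. -/
theorem exists_rhoG {ρ₂ : X2 F → ℝ≥0∞} (h₂ : IsBru (act2 F) ρ₂) : ∃ ρ, IsBru (actG F) ρ ∧
    ∀ (D : Div F) (y : X2 F), ∑' x, (if x ∈ XD D ∧ pM x = y then ρ x else 0) =
      ρ₂ y * ENNReal.ofReal (fibM D) := by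
  obtain ⟨β, hβ⟩ := exists_bruD (F := F)
  obtain ⟨σ, hσ⟩ := exists_bru ((actG F).comp (fibI F)) fun x =>
    (finite_stabG x).preimage fibI_inj.injOn
  let π : G F →* GL (Fin 2) F × Fˣ :=
    { toFun := fun g => (g.M, g.μ), map_one' := rfl, map_mul' := fun _ _ => rfl }
  let φ' : GL (Fin 2) F × Fˣ →* Equiv.Perm (X2 F × Div F) :=
    { toFun := fun g => Equiv.prodCongr (act2 F g.1) (actD F g.2)
      map_one' := by ext1 x; simp
      map_mul' := fun g g' => by ext1 x; simp [Prod.map] }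
  have hb : IsBru φ' fun z => ρ₂ z.1 * β z.2 := fun z => by
    rw [ENNReal.tsum_prod']
    show ∑' γ, ∑' u, ρ₂ (act2 F γ z.1) * β (actD F u z.2) = 1
    simp only [ENNReal.tsum_mul_left, hβ z.2, mul_one, h₂ z.1]
  refine ⟨_, IsBru.mul π (fun z => ⟨⟨z.1, z.2, 0, 0, 0⟩, rfl⟩) (fun x => (pM x, -idiv x.out.μ))
    (fun g x => ?_) (fibI F) fibI_inj (fun g => ⟨fun h => ⟨Multiplicative.ofAdd ![g.r0, g.r1, g.r2],
      fibS_eq (congrArg Prod.fst h) (congrArg Prod.snd h)⟩, ?_⟩) hb hσ, fun D y => ?_⟩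
  · refine Prod.ext (pM_act g x) ?_
    obtain ⟨x, rfl⟩ := x.mk_surj
    show -idiv _ = actD F g.μ _
    rw [actG_mk, fib_mu, fib_mu, actD_apply, G.mul_μ, G.inv_μ, idiv_mul, idiv_inv, G.map_μ,
      idiv_uA]
    abel
  · rintro ⟨u, rfl⟩
    rfl
  obtain ⟨B, Z, η, rfl⟩ := exists_mk_tri y
  have h1 : ∀ x : XG F, (if x ∈ XD D ∧ pM x = RC.mk (K2 F) (tri B Z η) then
      ρ₂ (pM x) * β (-idiv x.out.μ) * σ x else 0) = ∑' E : Div F, ρ₂ (RC.mk (K2 F) (tri B Z η)) *
        ((if ∃ u : Fˣ, E = D - B - Z + dv (u : F) then β E else 0) *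
          if pM x = RC.mk (K2 F) (tri B Z η) ∧ idiv x.out.μ = -E then σ x else 0) := by
    intro x
    rw [tsum_eq_single (-idiv x.out.μ) fun E hE => by
      rw [if_neg (c := _ ∧ _) fun h => hE (by rw [h.2, neg_neg]), mul_zero, mul_zero]]
    by_cases hx : pM x = RC.mk (K2 F) (tri B Z η)
    · have h2 : cls x.out = B + Z - idiv x.out.μ := by
        obtain ⟨k, hk, C', r0, r1, r2, hg⟩ := exists_gt' hx
        rw [hg, cls_K hk, cls_gt, G.mul_μ, idiv_mul, (mem_KG.1 hk).2.1, zero_add]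
        exact congrArg _ (idiv_piD C').symm
      have h3 : x ∈ XD D ↔ ∃ u : Fˣ, -idiv x.out.μ = D - B - Z + dv (u : F) :=
        exists_congr fun u => by
          rw [h2]
          rw [sub_eq_add_neg (B + Z), ← eq_sub_iff_add_eq']
          exact Eq.congr_right (by abel)
      simp only [hx, neg_neg, and_true, if_true, h3]
      split_ifs <;> simp [mul_assoc]
    · simp [hx]
  rw [tsum_congr h1, ENNReal.tsum_comm]
  simp only [ENNReal.tsum_mul_left, fib_mass hσ]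
  congr 1
  rw [fibM, ENNReal.ofReal_div_of_pos (Nat.cast_pos.2 ww_pos), ENNReal.ofReal_natCast,
    div_eq_mul_inv, ← class_mass hβ (D - B - Z), ← ENNReal.tsum_mul_left]
  refine tsum_congr fun E => ?_
  split_ifs with h
  · obtain ⟨u, rfl⟩ := h
    have e : deg (B + Z - -(D - B - Z + dv (u : F))) = deg D := by
      simp only [map_sub, map_add, map_neg, deg_dv]
      ring
    rw [e, mul_comm]
  · simp

lemma fib_eq {ρ₂ : X2 F → ℝ≥0∞} {ρ : XG F → ℝ≥0∞} {D : Div F}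
    (h : ∀ y : X2 F, ∑' x, (if x ∈ XD D ∧ pM x = y then ρ x else 0) =
      ρ₂ y * ENNReal.ofReal (fibM D)) (u : X2 F → ℝ≥0∞) :
    ∑' x, ρ x * (if x ∈ XD D then u (pM x) else 0) =
      ENNReal.ofReal (fibM D) * ∑' y, ρ₂ y * u y := by
  have h1 : ∀ x, ρ x * (if x ∈ XD D then u (pM x) else 0) =
      ∑' y, (if x ∈ XD D ∧ pM x = y then ρ x else 0) * u y := fun x => by
    rw [tsum_eq_single (pM x) fun y hy => by rw [if_neg fun h => hy h.2.symm, zero_mul]]
    by_cases hx : x ∈ XD D <;> simp [hx]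
  rw [tsum_congr h1, ENNReal.tsum_comm, ← ENNReal.tsum_mul_left]
  refine tsum_congr fun y => ?_
  rw [ENNReal.tsum_mul_right, h]
  ring

variable {ρ₂ : X2 F → ℝ≥0∞} {ρ : XG F → ℝ≥0∞} {D : Div F}

theorem fibre_le (h : ∀ y : X2 F, ∑' x, (if x ∈ XD D ∧ pM x = y then ρ x else 0) =
      ρ₂ y * ENNReal.ofReal (fibM D)) (Ψ : XG F → ℝ≥0∞) (u : X2 F → ℝ≥0∞)
    (hu : ∀ x ∈ XD D, Ψ x ≤ u (pM x)) :
    ∑' x, ρ x * (if x ∈ XD D then Ψ x else 0) ≤ ENNReal.ofReal (fibM D) * ∑' y, ρ₂ y * u y := by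
  rw [← fib_eq h]
  refine ENNReal.tsum_le_tsum fun x => mul_le_mul_right ?_ _
  split_ifs with hx
  exacts [hu x hx, le_rfl]

theorem le_fibre (h : ∀ y : X2 F, ∑' x, (if x ∈ XD D ∧ pM x = y then ρ x else 0) =
      ρ₂ y * ENNReal.ofReal (fibM D)) (Ψ : XG F → ℝ≥0∞) (u : X2 F → ℝ≥0∞)
    (hu : ∀ x ∈ XD D, u (pM x) ≤ Ψ x) :
    ENNReal.ofReal (fibM D) * ∑' y, ρ₂ y * u y ≤ ∑' x, ρ x * (if x ∈ XD D then Ψ x else 0) := by
  rw [← fib_eq h]
  refine ENNReal.tsum_le_tsum fun x => mul_le_mul_right ?_ _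
  split_ifs with hx
  exacts [hu x hx, le_rfl]

end SelAvg.FF
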