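import Mathlib

/-! Row BRU: Bruhat functions (masses of quotient groupoids by Fubini), right coset spaces,
two limit lemmas. -/

namespace SelAvg.FF

open Filter Topology
open scoped Classical ENNReal

section Bru

variable {H H' U Z X X' O : Type} [Group H] [Group H'] [Group U] [Group Z]

/-- `ρ` has total mass one on every orbit, counted over the group -/
def IsBru (φ : H →* Equiv.Perm X) (ρ : X → ℝ≥0∞) : Prop := ∀ x, ∑' h : H, ρ (φ h x) = 1

/-- the sum over `g` of a function of `φ g x₀`, grouped by the value of `φ g x₀` -/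
lemma bru_fib {A B : Type} (f : A → B) (F : A → ℝ≥0∞) :
    ∑' a, F a = ∑' b, ∑' a : {a // f a = b}, F a.1 := by
  rw [← (Equiv.sigmaFiberEquiv f).tsum_eq F, ENNReal.tsum_sigma']
  rfl

/-- the elements moving `x` to `φ g₀ x` are the elements `g₀ * s` with `s` in the stabiliser -/
def bru_stabEquiv (φ : H →* Equiv.Perm X) (x : X) (g₀ : H) :
    {s : H // φ s x = x} ≃ {g : H // φ g x = φ g₀ x} where
  toFun s := ⟨g₀ * s.1, by rw [map_mul, Equiv.Perm.mul_apply, s.2]⟩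
  invFun g := ⟨g₀⁻¹ * g.1, by
    rw [map_mul, Equiv.Perm.mul_apply, g.2, ← Equiv.Perm.mul_apply, ← map_mul, inv_mul_cancel,
      map_one, Equiv.Perm.one_apply]⟩
  left_inv s := Subtype.ext (by simp)
  right_inv g := Subtype.ext (by simp)

lemma bru_card_ne {A : Type} [Finite A] [Nonempty A] : (Nat.card A : ℝ≥0∞) ≠ 0 := by
  exact_mod_cast (Nat.card_pos (α := A)).ne'

lemma bru_tsum_const {A : Type} [Finite A] (c : ℝ≥0∞) : ∑' _ : A, c = (Nat.card A : ℝ≥0∞) * c := by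
  have := Fintype.ofFinite A
  rw [tsum_fintype, Finset.sum_const, Finset.card_univ, Nat.card_eq_fintype_card, nsmul_eq_mul]

lemma bru_sum_orbit (φ : H →* Equiv.Perm X) (x₀ : X) (hfin : {g : H | φ g x₀ = x₀}.Finite)
    (ρ : X → ℝ≥0∞) : ∑' g : H, ρ (φ g x₀) =
      (Nat.card {g : H // φ g x₀ = x₀} : ℝ≥0∞) * ∑' x, (if ∃ g, φ g x₀ = x then ρ x else 0) := by
  have : Finite {g : H // φ g x₀ = x₀} := hfin
  rw [bru_fib (fun g => φ g x₀), ← ENNReal.tsum_mul_left]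
  refine tsum_congr fun x => ?_
  split_ifs with hx
  · obtain ⟨g₀, rfl⟩ := hx
    rw [← (bru_stabEquiv φ x₀ g₀).tsum_eq, ← bru_tsum_const]
    exact tsum_congr fun s => by rw [((bru_stabEquiv φ x₀ g₀) s).2]
  · have : IsEmpty {g : H // φ g x₀ = x} := ⟨fun g => hx ⟨g.1, g.2⟩⟩
    simp

/-- take `1 / card (stabiliser)` on a chosen point of each orbit and `0` elsewhere -/
theorem exists_bru (φ : H →* Equiv.Perm X) (hfin : ∀ x, {h : H | φ h x = x}.Finite) :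
    ∃ ρ, IsBru φ ρ := by
  let S : Setoid X := ⟨fun x y => ∃ g, φ g x = y, fun x => ⟨1, by simp⟩,
    fun {x y} ⟨g, hg⟩ => ⟨g⁻¹, by rw [← hg, ← Equiv.Perm.mul_apply, ← map_mul]; simp⟩,
    fun {x y z} ⟨g, hg⟩ ⟨g', hg'⟩ => ⟨g' * g, by rw [map_mul, Equiv.Perm.mul_apply, hg, hg']⟩⟩
  refine ⟨fun x => if (Quotient.mk S x).out = x then
    (Nat.card {g : H // φ g x = x} : ℝ≥0∞)⁻¹ else 0, fun x => ?_⟩
  obtain ⟨g₀, hg₀⟩ : ∃ g, φ g (Quotient.mk S x).out = x := Quotient.exact (Quotient.out_eq (Quotient.mk S x))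
  set x₀ := (Quotient.mk S x).out with hx₀
  have h0 : (Quotient.mk S x₀).out = x₀ := by rw [hx₀, Quotient.out_eq]
  have e1 : ∀ F : X → ℝ≥0∞, ∑' g : H, F (φ g x) = ∑' g : H, F (φ g x₀) := fun F => by
    rw [← (Equiv.mulRight g₀).tsum_eq (fun g => F (φ g x₀))]
    exact tsum_congr fun g => by simp [map_mul, hg₀]
  refine (e1 (fun x => if (Quotient.mk S x).out = x then
    (Nat.card {g : H // φ g x = x} : ℝ≥0∞)⁻¹ else 0)).trans ((bru_sum_orbit φ x₀ (hfin x₀)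
    (fun x => if (Quotient.mk S x).out = x then
    (Nat.card {g : H // φ g x = x} : ℝ≥0∞)⁻¹ else 0)).trans ?_)
  rw [tsum_eq_single x₀]
  · have : Finite {g : H // φ g x₀ = x₀} := hfin x₀
    have : Nonempty {g : H // φ g x₀ = x₀} := ⟨⟨1, by simp⟩⟩
    rw [if_pos ⟨1, by simp⟩, if_pos h0]
    exact ENNReal.mul_inv_cancel bru_card_ne (ENNReal.natCast_ne_top _)
  · intro y hy
    split_ifs with h1 h2
    · exact absurd (by rw [← h2, ← h0]; exact congrArg Quotient.out (Quotient.sound (s := S) h1).symm) hy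
    · rfl
    · rfl

variable {φ : H →* Equiv.Perm X} {ρ ρ' : X → ℝ≥0∞}

lemma IsBru.le_one (h : IsBru φ ρ) (x : X) : ρ x ≤ 1 := by
  rw [← h x]
  simpa using ENNReal.le_tsum (f := fun g : H => ρ (φ g x)) 1

lemma bru_swap (h : IsBru φ ρ) (F : X → ℝ≥0∞) :
    ∑' x, F x = ∑' x, ρ x * ∑' g : H, F (φ g⁻¹ x) := by
  calc ∑' x, F x = ∑' x, ∑' g : H, F x * ρ (φ g x) :=
        tsum_congr fun x => by rw [ENNReal.tsum_mul_left, h x, mul_one]
    _ = ∑' g : H, ∑' x, F x * ρ (φ g x) := ENNReal.tsum_comm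
    _ = ∑' g : H, ∑' x, ρ x * F (φ g⁻¹ x) := tsum_congr fun g => by
        rw [← (φ g).tsum_eq (fun x => ρ x * F (φ g⁻¹ x))]
        exact tsum_congr fun x => by rw [mul_comm]; simp
    _ = _ := by rw [ENNReal.tsum_comm]; exact tsum_congr fun x => ENNReal.tsum_mul_left

/-- insert `1 = ∑' g, ρ' (φ g x)`, `ENNReal.tsum_comm`, substitute `x ↦ φ g⁻¹ x`, `g ↦ g⁻¹` -/
theorem IsBru.tsum_eq (h : IsBru φ ρ) (h' : IsBru φ ρ') (Φ : X → ℝ≥0∞)
    (hΦ : ∀ g x, Φ (φ g x) = Φ x) : ∑' x, ρ x * Φ x = ∑' x, ρ' x * Φ x := by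
  rw [bru_swap h' (fun x => ρ x * Φ x)]
  refine tsum_congr fun x => ?_
  simp only [hΦ]
  have e : ∑' g : H, ρ (φ g⁻¹ x) = 1 := ((Equiv.inv H).tsum_eq (fun g => ρ (φ g x))).trans (h x)
  rw [ENNReal.tsum_mul_right, e, one_mul]

/-- the mass of one orbit -/
theorem IsBru.orbit (h : IsBru φ ρ) (x₀ : X) (hfin : {g : H | φ g x₀ = x₀}.Finite) :
    (Nat.card {g : H // φ g x₀ = x₀} : ℝ≥0∞) * ∑' x, (if ∃ g, φ g x₀ = x then ρ x else 0) = 1 := by
  rw [← bru_sum_orbit φ x₀ hfin ρ, h x₀]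

theorem IsBru.comp_perm (h : IsBru φ ρ) (e : Equiv.Perm X) (he : ∀ g x, e (φ g x) = φ g (e x)) :
    IsBru φ fun x => ρ (e x) := by
  intro x
  simp only [he]
  exact h (e x)

/-- sum over the fibres of `π`; each fibre is `ι U * g₀` -/
theorem IsBru.mul {φ' : H' →* Equiv.Perm X'} (π : H →* H') (hπ : Function.Surjective π)
    (p : X → X') (hp : ∀ g x, p (φ g x) = φ' (π g) (p x)) (ι : U →* H) (hι : Function.Injective ι)
    (hker : ∀ g, π g = 1 ↔ ∃ u, ι u = g) {β : X' → ℝ≥0∞} (hβ : IsBru φ' β) {σ : X → ℝ≥0∞}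
    (hσ : IsBru (φ.comp ι) σ) : IsBru φ fun x => β (p x) * σ x := by
  intro x
  rw [bru_fib π, ← hβ (p x)]
  refine tsum_congr fun h' => ?_
  obtain ⟨g₀, rfl⟩ := hπ h'
  have hb : Function.Bijective (fun u : U => (⟨ι u * g₀, by
      rw [map_mul, (hker _).2 ⟨u, rfl⟩, one_mul]⟩ : {g // π g = π g₀})) := by
    refine ⟨fun u v huv => hι (mul_right_cancel (congrArg Subtype.val huv)), fun g => ?_⟩
    obtain ⟨u, hu⟩ := (hker (g.1 * g₀⁻¹)).1 (by rw [map_mul, g.2, map_inv, mul_inv_cancel])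
    exact ⟨u, Subtype.ext (by simp [hu])⟩
  rw [← (Equiv.ofBijective _ hb).tsum_eq]
  have e : ∀ u : U, β (p (φ (ι u * g₀) x)) * σ (φ (ι u * g₀) x) =
      β (φ' (π g₀) (p x)) * σ ((φ.comp ι) u (φ g₀ x)) := fun u => by
    rw [hp, map_mul π, (hker _).2 ⟨u, rfl⟩, one_mul, map_mul]; rfl
  exact (tsum_congr e).trans (by rw [ENNReal.tsum_mul_left, hσ, mul_one])

lemma bru_unfold (ψ : H →* Equiv.Perm O) (hρ : IsBru φ ρ) (τ : X → ℝ≥0∞) (z₀ : O)
    (Φ : O → X → ℝ≥0∞) (hΦ : ∀ g z x, Φ (ψ g z) (φ g x) = Φ z x) :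
    ∑' x, τ x * Φ z₀ x =
      ∑' x, ρ x * ∑' z, (∑' g : {g : H // ψ g z₀ = z}, τ (φ g.1⁻¹ x)) * Φ z x := by
  rw [bru_swap hρ (fun x => τ x * Φ z₀ x)]
  refine tsum_congr fun x => ?_
  rw [bru_fib (fun g => ψ g z₀)]
  refine congrArg _ (tsum_congr fun z => ?_)
  rw [← ENNReal.tsum_mul_right]
  refine tsum_congr fun g => ?_
  rw [← hΦ g.1 z₀, g.2]
  simp

lemma bru_inner (ψ : H →* Equiv.Perm O) (τ : X → ℝ≥0∞) (z₀ : O) (g₀ : H) (x : X) :
    ∑' g : {g : H // ψ g z₀ = ψ g₀ z₀}, τ (φ g.1⁻¹ x) =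
      ∑' s : {s : H // ψ s z₀ = z₀}, τ (φ s.1 (φ g₀⁻¹ x)) := by
  have hi : ∀ s : H, ψ s z₀ = z₀ → ψ s⁻¹ z₀ = z₀ := fun s hs => by
    rw [map_inv, Equiv.Perm.inv_eq_iff_eq, hs]
  let e : {s : H // ψ s z₀ = z₀} ≃ {s : H // ψ s z₀ = z₀} :=
    ⟨fun s => ⟨s.1⁻¹, hi _ s.2⟩, fun s => ⟨s.1⁻¹, hi _ s.2⟩, fun s => Subtype.ext (inv_inv _),
      fun s => Subtype.ext (inv_inv _)⟩
  rw [← (e.trans (bru_stabEquiv ψ z₀ g₀)).tsum_eq]
  refine tsum_congr fun s => ?_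
  show τ (φ (g₀ * s.1⁻¹)⁻¹ x) = _
  rw [mul_inv_rev, inv_inv, map_mul, Equiv.Perm.mul_apply]

lemma bru_ge (ψ : H →* Equiv.Perm O) (ι : Z →* H) (hι : Function.Injective ι)
    {τ : X → ℝ≥0∞} (hτ : IsBru (φ.comp ι) τ) (z₀ : O) (hz : ∀ t, ψ (ι t) z₀ = z₀) (y : X) :
    1 ≤ ∑' s : {s : H // ψ s z₀ = z₀}, τ (φ s.1 y) := by
  rw [← hτ y]
  exact ENNReal.tsum_comp_le_tsum_of_injective
    (f := fun t : Z => (⟨ι t, hz t⟩ : {s : H // ψ s z₀ = z₀}))
    (fun a b hab => hι (congrArg Subtype.val hab)) (fun s => τ (φ s.1 y))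

lemma bru_le (ψ : H →* Equiv.Perm O) (ι : Z →* H)
    {τ : X → ℝ≥0∞} (hτ : IsBru (φ.comp ι) τ) (z₀ : O) (hz : ∀ t, ψ (ι t) z₀ = z₀)
    (n : ℕ) (hn : ∀ s : Finset H, (∀ g ∈ s, ψ g z₀ = z₀) →
      (∀ g ∈ s, ∀ g' ∈ s, ∀ t, g' = ι t * g → g = g') → s.card ≤ n) (y : X) :
    ∑' s : {s : H // ψ s z₀ = z₀}, τ (φ s.1 y) ≤ n := by
  let A : Set ℕ := {m | ∃ s : Finset H, (∀ g ∈ s, ψ g z₀ = z₀) ∧
    (∀ g ∈ s, ∀ g' ∈ s, ∀ t, g' = ι t * g → g = g') ∧ s.card = m}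
  have hb : BddAbove A := ⟨n, fun m ⟨s, a, b, c⟩ => c ▸ hn s a b⟩
  obtain ⟨s, a, b, c⟩ := Nat.sSup_mem (s := A) ⟨0, ∅, by simp, by simp, rfl⟩ hb
  have hs : Function.Surjective (fun q : s × Z => (⟨ι q.2 * q.1.1, by
      rw [map_mul, Equiv.Perm.mul_apply, a _ q.1.2, hz]⟩ : {s : H // ψ s z₀ = z₀})) := fun g => by
    by_contra hg
    have h1 : ∀ g' ∈ s, ∀ t, g.1 ≠ ι t * g' := fun g' hg' t e =>
      hg ⟨(⟨g', hg'⟩, t), Subtype.ext e.symm⟩
    have h2 : g.1 ∉ s := fun h => h1 _ h 1 (by simp)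
    have h3 : s.card + 1 ∈ A := by
      refine ⟨insert g.1 s, fun u hu => ?_, fun u hu v hv t e => ?_, Finset.card_insert_of_notMem h2⟩
      · rcases Finset.mem_insert.1 hu with rfl | hu
        exacts [g.2, a _ hu]
      · rcases Finset.mem_insert.1 hu with rfl | hu <;> rcases Finset.mem_insert.1 hv with rfl | hv
        · rfl
        · exact absurd (by rw [e, map_inv]; simp) (h1 v hv t⁻¹)
        · exact absurd e (h1 u hu t)
        · exact b _ hu _ hv t e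
    have := le_csSup hb h3
    omega
  refine (ENNReal.tsum_le_tsum_comp_of_surjective hs (fun s => τ (φ s.1 y))).trans ?_
  rw [ENNReal.tsum_prod']
  have e : ∀ u : s, ∑' t : Z, τ (φ (ι t * u.1) y) = 1 := fun u => by
    rw [← hτ (φ u.1 y)]
    exact tsum_congr fun t => by rw [map_mul]; rfl
  rw [tsum_congr e, tsum_fintype, Finset.sum_const, Finset.card_univ, Fintype.card_coe, nsmul_one]
  exact_mod_cast hn s a b

/-- Both sides are compared through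
`∑' x, τ x * Φ z₀ x = ∑' x, ρ x * ∑' z, Φ z x * ∑' g with ψ g z₀ = z, τ (φ g⁻¹ x)`; the inner sum
is the number of cosets `ι Z * s` in the stabiliser of `z₀` if `z` is in the orbit. -/
theorem unfold_le (ψ : H →* Equiv.Perm O) (ι : Z →* H) (hι : Function.Injective ι)
    (hρ : IsBru φ ρ) {τ : X → ℝ≥0∞} (hτ : IsBru (φ.comp ι) τ) (z₀ : O)
    (hz : ∀ t, ψ (ι t) z₀ = z₀) (Φ : O → X → ℝ≥0∞) (hΦ : ∀ g z x, Φ (ψ g z) (φ g x) = Φ z x) :
    ∑' x, ρ x * ∑' z, (if ∃ g, ψ g z₀ = z then Φ z x else 0) ≤ ∑' x, τ x * Φ z₀ x := by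
  rw [bru_unfold ψ hρ τ z₀ Φ hΦ]
  refine ENNReal.tsum_le_tsum fun x => mul_le_mul_right (ENNReal.tsum_le_tsum fun z => ?_) _
  split_ifs with h
  · obtain ⟨g₀, rfl⟩ := h
    rw [bru_inner]
    exact le_mul_of_one_le_left' (bru_ge ψ ι hι hτ z₀ hz _)
  · exact zero_le

theorem le_unfold (ψ : H →* Equiv.Perm O) (ι : Z →* H) (hι : Function.Injective ι)
    (hρ : IsBru φ ρ) {τ : X → ℝ≥0∞} (hτ : IsBru (φ.comp ι) τ) (z₀ : O)
    (hz : ∀ t, ψ (ι t) z₀ = z₀) (Φ : O → X → ℝ≥0∞) (hΦ : ∀ g z x, Φ (ψ g z) (φ g x) = Φ z x)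
    (n : ℕ) (hn : ∀ s : Finset H, (∀ g ∈ s, ψ g z₀ = z₀) →
      (∀ g ∈ s, ∀ g' ∈ s, ∀ t, g' = ι t * g → g = g') → s.card ≤ n) :
    ∑' x, τ x * Φ z₀ x ≤ n * ∑' x, ρ x * ∑' z, (if ∃ g, ψ g z₀ = z then Φ z x else 0) := by
  rw [bru_unfold ψ hρ τ z₀ Φ hΦ, ← ENNReal.tsum_mul_left]
  refine ENNReal.tsum_le_tsum fun x => ?_
  rw [mul_left_comm, ← ENNReal.tsum_mul_left (a := (n : ℝ≥0∞))]
  refine mul_le_mul_right (ENNReal.tsum_le_tsum fun z => ?_) _
  split_ifs with h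
  · obtain ⟨g₀, rfl⟩ := h
    rw [bru_inner]
    exact mul_le_mul_left (bru_le ψ ι hτ z₀ hz n hn _) _
  · have : IsEmpty {g : H // ψ g z₀ = z} := ⟨fun g => h ⟨g.1, g.2⟩⟩
    simp

/-- the case where `ι Z` is the whole stabiliser -/
theorem unfold_eq (ψ : H →* Equiv.Perm O) (ι : Z →* H) (hι : Function.Injective ι)
    (hρ : IsBru φ ρ) {τ : X → ℝ≥0∞} (hτ : IsBru (φ.comp ι) τ) (z₀ : O)
    (hz : ∀ g, ψ g z₀ = z₀ ↔ ∃ t, ι t = g) (Φ : O → X → ℝ≥0∞)
    (hΦ : ∀ g z x, Φ (ψ g z) (φ g x) = Φ z x) :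
    ∑' x, ρ x * ∑' z, (if ∃ g, ψ g z₀ = z then Φ z x else 0) = ∑' x, τ x * Φ z₀ x := by
  have hz' : ∀ t, ψ (ι t) z₀ = z₀ := fun t => (hz _).2 ⟨t, rfl⟩
  refine le_antisymm (unfold_le ψ ι hι hρ hτ z₀ hz' Φ hΦ) ?_
  have := le_unfold ψ ι hι hρ hτ z₀ hz' Φ hΦ 1 fun s a b => Finset.card_le_one.2 fun g hg g' hg' => by
    obtain ⟨t, ht⟩ := (hz g).1 (a g hg)
    obtain ⟨t', ht'⟩ := (hz g').1 (a g' hg')
    exact b g hg g' hg' (t' * t⁻¹) (by rw [← ht, ← ht', map_mul, map_inv]; simp)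
  simpa using this

end Bru

section RC

variable {Γ : Type} [Group Γ]

/-- right cosets `K g` -/
def RC (K : Subgroup Γ) : Type := Quotient (QuotientGroup.rightRel K)

/-- the coset of `g` -/
def RC.mk (K : Subgroup Γ) (g : Γ) : RC K := Quotient.mk _ g

variable {K : Subgroup Γ}

/-- a representative -/
noncomputable def RC.out (x : RC K) : Γ := Quotient.out x

@[simp] lemma RC.mk_out (x : RC K) : RC.mk K x.out = x := Quotient.out_eq x

lemma RC.mk_surj (x : RC K) : ∃ g, RC.mk K g = x := ⟨_, x.mk_out⟩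

lemma RC.mk_eq {g g' : Γ} : RC.mk K g = RC.mk K g' ↔ ∃ k ∈ K, g' = k * g := by
  refine (Quotient.eq.trans QuotientGroup.rightRel_apply).trans ⟨fun h => ⟨_, h, by simp⟩, ?_⟩
  rintro ⟨k, hk, rfl⟩
  simpa using hk

lemma RC.out_mk (g : Γ) : ∃ k ∈ K, (RC.mk K g).out = k * g := RC.mk_eq.1 (RC.mk_out _).symm

/-- right multiplication -/
def RC.rmul (γ : Γ) : RC K → RC K :=
  Quotient.map (fun g => g * γ) fun a b h => by
    have h' := QuotientGroup.rightRel_apply.1 h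
    exact QuotientGroup.rightRel_apply.2 (by simpa [mul_assoc] using h')

lemma RC.rmul_mk (γ g : Γ) : RC.rmul γ (RC.mk K g) = RC.mk K (g * γ) := rfl

/-- the action `K g ↦ K g γ⁻¹` -/
def RC.act (K : Subgroup Γ) : Γ →* Equiv.Perm (RC K) where
  toFun γ :=
    { toFun := RC.rmul γ⁻¹
      invFun := RC.rmul γ
      left_inv := fun x => by obtain ⟨g, rfl⟩ := x.mk_surj; simp [RC.rmul_mk]
      right_inv := fun x => by obtain ⟨g, rfl⟩ := x.mk_surj; simp [RC.rmul_mk] }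
  map_one' := Equiv.ext fun x => by obtain ⟨g, rfl⟩ := x.mk_surj; simp [RC.rmul_mk]
  map_mul' γ γ' := Equiv.ext fun x => by
    obtain ⟨g, rfl⟩ := x.mk_surj; simp [RC.rmul_mk, mul_assoc]

lemma RC.act_mk (γ g : Γ) : RC.act K γ (RC.mk K g) = RC.mk K (g * γ⁻¹) := rfl

end RC

section Lim

variable {X : Type}

/-- dominated convergence, upper form -/
theorem tsum_eventually_le {r : X → ℝ} (hr : Summable r) (hr0 : ∀ x, 0 ≤ r x) (u : ℕ → X → ℝ)
    {C L : ℝ} (hL : 0 ≤ L) (hC : ∀ᶠ m in atTop, ∀ x, 0 ≤ u m x ∧ u m x ≤ C)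
    (h : ∀ x, ∀ᶠ m in atTop, u m x ≤ L) {ε : ℝ} (hε : 0 < ε) :
    ∀ᶠ m in atTop, ∑' x, r x * u m x ≤ L * ∑' x, r x + ε := by
  have ht := tendsto_tsum_of_dominated_convergence (𝓕 := atTop)
    (f := fun m x => r x * max (u m x) L) (g := fun x => r x * L) (hr.mul_right (max C L))
    (fun x => tendsto_const_nhds.congr' ((h x).mono fun m hm => by simp only [max_eq_right hm]))
    (hC.mono fun m hm x => by
      rw [Real.norm_of_nonneg (mul_nonneg (hr0 x) (le_max_of_le_right hL))]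
      exact mul_le_mul_of_nonneg_left (max_le_max (hm x).2 le_rfl) (hr0 x))
  rw [tsum_mul_right, mul_comm] at ht
  filter_upwards [hC, ht.eventually (ge_mem_nhds (lt_add_of_pos_right _ hε))] with m hm h2
  refine le_trans (Summable.tsum_le_tsum (fun x => mul_le_mul_of_nonneg_left (le_max_left _ _) (hr0 x))
    ?_ ?_) h2
  · exact Summable.of_nonneg_of_le (fun x => mul_nonneg (hr0 x) (hm x).1)
      (fun x => mul_le_mul_of_nonneg_left (hm x).2 (hr0 x)) (hr.mul_right C)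
  · exact Summable.of_nonneg_of_le (fun x => mul_nonneg (hr0 x) (le_max_of_le_right hL))
      (fun x => mul_le_mul_of_nonneg_left (max_le_max (hm x).2 le_rfl) (hr0 x)) (hr.mul_right _)

/-- dominated convergence, lower form -/
theorem tsum_eventually_ge {r : X → ℝ} (hr : Summable r) (hr0 : ∀ x, 0 ≤ r x) (u : ℕ → X → ℝ)
    {C L : ℝ} (hC : ∀ᶠ m in atTop, ∀ x, 0 ≤ u m x ∧ u m x ≤ C)
    (h : ∀ x, ∀ᶠ m in atTop, L ≤ u m x) {ε : ℝ} (hε : 0 < ε) :
    ∀ᶠ m in atTop, L * ∑' x, r x - ε ≤ ∑' x, r x * u m x := by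
  have hb : ∀ᶠ m in atTop, ∀ x, ‖r x * min (u m x) L‖ ≤ r x * |L| := hC.mono fun m hm x => by
    rw [Real.norm_eq_abs, abs_mul, abs_of_nonneg (hr0 x)]
    refine mul_le_mul_of_nonneg_left (abs_le.2 ⟨le_min ?_ (neg_abs_le L), ?_⟩) (hr0 x)
    · exact (neg_nonpos.2 (abs_nonneg L)).trans (hm x).1
    · exact (min_le_right _ _).trans (le_abs_self L)
  have ht := tendsto_tsum_of_dominated_convergence (𝓕 := atTop)
    (f := fun m x => r x * min (u m x) L) (g := fun x => r x * L) (hr.mul_right |L|)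
    (fun x => tendsto_const_nhds.congr' ((h x).mono fun m hm => by simp only [min_eq_right hm])) hb
  rw [tsum_mul_right, mul_comm] at ht
  filter_upwards [hC, hb, ht.eventually (le_mem_nhds (sub_lt_self _ hε))] with m hm h1 h2
  refine h2.trans (Summable.tsum_le_tsum (fun x => mul_le_mul_of_nonneg_left (min_le_left _ _) (hr0 x))
    (Summable.of_norm_bounded (hr.mul_right |L|) h1) ?_)
  exact Summable.of_nonneg_of_le (fun x => mul_nonneg (hr0 x) (hm x).1)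
    (fun x => mul_le_mul_of_nonneg_left (hm x).2 (hr0 x)) (hr.mul_right C)

/-- Monotone limit used for the mass formulas: `b m x` decreases to `1`.  If
`∑' x, r x * b m x = M + e m * ∑' x, r x` with `e m → 0`, `e m < 1` for large `m` and `M` finite
then `∑' x, r x = M` (from `1 ≤ b m x` the sum is finite, then dominated convergence). -/
theorem tsum_eq_of_antitone (r : X → ℝ≥0∞) (b : ℕ → X → ℝ≥0∞) (hb : ∀ m x, b (m + 1) x ≤ b m x)
    (hb1 : ∀ x, ∀ᶠ m in atTop, b m x = 1) (a : ℕ → X → ℝ≥0∞) (e : ℕ → ℝ≥0∞)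
    (he : Tendsto e atTop (𝓝 0)) (hab : ∀ m x, b m x = a m x + e m) {M : ℝ≥0∞} (hM : M ≠ ⊤)
    (h : ∀ m, ∑' x, r x * a m x = M) : ∑' x, r x = M := by
  have hanti : ∀ x, Antitone fun m => b m x := fun x => antitone_nat_of_succ_le fun m => hb m x
  have h1 : ∀ m x, 1 ≤ b m x := fun m x => by
    obtain ⟨k, hk, hk'⟩ := ((hb1 x).and (eventually_ge_atTop m)).exists
    exact hk ▸ hanti x hk'
  have hs : ∀ m, ∑' x, r x * b m x = M + (∑' x, r x) * e m := fun m => by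
    simp only [hab, mul_add]
    rw [ENNReal.tsum_add, h m, ENNReal.tsum_mul_right]
  obtain ⟨m₀, hm₀⟩ := (he.eventually (ge_mem_nhds (show (0 : ℝ≥0∞) < 2⁻¹ by simp))).exists
  have hS : ∑' x, r x ≠ ⊤ := by
    have h2 : ∀ x, 2⁻¹ ≤ a m₀ x := fun x => by
      have h3 : (2⁻¹ : ℝ≥0∞) + 2⁻¹ ≤ a m₀ x + 2⁻¹ := by
        rw [ENNReal.inv_two_add_inv_two]
        exact (h1 m₀ x).trans ((hab m₀ x).le.trans (add_le_add_right hm₀ _))
      exact ENNReal.le_of_add_le_add_right (by simp) h3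
    have h3 : (∑' x, r x) * 2⁻¹ ≤ M := by
      rw [← ENNReal.tsum_mul_right, ← h m₀]
      exact ENNReal.tsum_le_tsum fun x => mul_le_mul_right (h2 x) _
    intro h4
    rw [h4, ENNReal.top_mul (by simp)] at h3
    exact hM (top_le_iff.1 h3)
  refine le_antisymm ?_ ?_
  · have ht : Tendsto (fun m => M + (∑' x, r x) * e m) atTop (𝓝 (M + (∑' x, r x) * 0)) :=
      (ENNReal.Tendsto.const_mul he (Or.inr hS)).const_add M
    rw [mul_zero, add_zero] at ht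
    refine ge_of_tendsto' ht fun m => ?_
    rw [← hs m]
    exact ENNReal.tsum_le_tsum fun x => le_mul_of_one_le_right' (h1 m x)
  · have hf : ∑' x, r x * b m₀ x ≠ ⊤ := by
      rw [hs]
      exact ENNReal.add_ne_top.2 ⟨hM, ENNReal.mul_ne_top hS (ne_top_of_le_ne_top (by simp) hm₀)⟩
    have ht := (ENNReal.tendsto_tsum_compl_atTop_zero hf).const_add (∑' x, r x)
    rw [add_zero] at ht
    refine ge_of_tendsto' ht fun s => ?_
    obtain ⟨m, hm, hm'⟩ := (((eventually_all_finset s).2 fun x _ => hb1 x).and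
      (eventually_ge_atTop m₀)).exists
    calc M ≤ ∑' x, r x * b m x := by rw [hs]; exact le_self_add
      _ = ∑ x ∈ s, r x * b m x + ∑' x : {x // x ∉ s}, r x * b m x :=
          (ENNReal.sum_add_tsum_compl s _).symm
      _ ≤ _ := by
          refine add_le_add ?_ (ENNReal.tsum_le_tsum fun x => mul_le_mul_right (hanti x.1 hm') _)
          rw [Finset.sum_congr rfl fun x hx => by rw [hm x hx, mul_one]]
          exact ENNReal.sum_le_tsum s

end Lim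

end SelAvg.FF
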