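import Pool.Agent.H81Sel.Dv
import Pool.Agent.H81Sel.Bru

/-! Row ZETA: the mass of the divisor classes, effective divisors, the zeta value at 2. -/

namespace SelAvg.FF

open WeierstrassCurve WithZero Filter Topology
open scoped Classical ENNReal

variable {F : Type} [Field F] [Cv F]

variable (F) in
/-- translation by principal divisors -/
noncomputable def actD : Fˣ →* Equiv.Perm (Div F) where
  toFun u := Equiv.addRight (dv (u : F))
  map_one' := by ext1 E; simp
  map_mul' u u' := by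
    ext1 E
    simp only [Units.val_mul, dv_mul u.ne_zero u'.ne_zero, Equiv.coe_addRight, Equiv.Perm.mul_apply]
    abel

lemma actD_apply (u : Fˣ) (E : Div F) : actD F u E = E + dv (u : F) := rfl

/-- `exists_bru`, `finite_ww` -/
theorem exists_bruD : ∃ β, IsBru (actD F) β := by
  refine exists_bru (actD F) fun E => (finite_ww (F := F)).subset fun u hu => ?_
  have h : E + dv (u : F) = E := hu
  exact add_eq_left.1 h

variable (F) in
/-- the mass of the divisor classes of degree zero -/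
noncomputable def kap : ℝ≥0∞ :=
  ∑' E : Div F, if deg E = 0 then (exists_bruD (F := F)).choose E else 0

/-- `IsBru.tsum_eq`, and `IsBru.comp_perm` for the translation by a divisor of degree `j` -/
theorem kap_eq {β : Div F → ℝ≥0∞} (hβ : IsBru (actD F) β) {j : ℤ} (hj : (dl F : ℤ) ∣ j) :
    ∑' E : Div F, (if deg E = j then β E else 0) = kap F := by
  obtain ⟨D, hD⟩ := exists_deg_eq hj
  have h0 := (exists_bruD (F := F)).choose_spec
  have h1 : IsBru (actD F) fun E => β (Equiv.addRight D E) :=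
    hβ.comp_perm (Equiv.addRight D) fun g x => by
      simp only [actD_apply, Equiv.coe_addRight]
      abel
  have h2 := h1.tsum_eq h0 (fun E => if deg E = 0 then 1 else 0) fun g x => by
    simp only [actD_apply, map_add, deg_dv, add_zero]
  rw [← (Equiv.addRight D).tsum_eq, kap]
  refine Eq.trans (tsum_congr fun E => ?_) (h2.trans (tsum_congr fun E => ?_))
  · simp only [Equiv.coe_addRight, map_add, hD, add_eq_right, mul_ite, mul_one, mul_zero]
  · simp only [mul_ite, mul_one, mul_zero]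

/-- `IsBru.orbit` -/
theorem class_mass {β : Div F → ℝ≥0∞} (hβ : IsBru (actD F) β) (E₀ : Div F) :
    ∑' E : Div F, (if ∃ u : Fˣ, E = E₀ + dv (u : F) then β E else 0) = (ww F : ℝ≥0∞)⁻¹ := by
  have hf : {g : Fˣ | actD F g E₀ = E₀}.Finite := (finite_ww (F := F)).subset fun u hu => by
    have h : E₀ + dv (u : F) = E₀ := hu
    exact add_eq_left.1 h
  have h := hβ.orbit E₀ hf
  have hc : Nat.card {g : Fˣ // actD F g E₀ = E₀} = ww F :=
    Nat.card_congr (Equiv.subtypeEquivRight fun u => by rw [actD_apply, add_eq_left])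
  rw [hc, mul_comm] at h
  rw [← ENNReal.eq_inv_of_mul_eq_one_left h]
  refine tsum_congr fun E => if_congr ?_ rfl rfl
  exact exists_congr fun u => by rw [actD_apply, eq_comm]

theorem kap_ne_zero : kap F ≠ 0 := by
  have h := class_mass (exists_bruD (F := F)).choose_spec 0
  have h1 : (ww F : ℝ≥0∞)⁻¹ ≤ kap F := by
    rw [← h, kap]
    refine ENNReal.tsum_le_tsum fun E => ?_
    by_cases hE : ∃ u : Fˣ, E = 0 + dv (u : F)
    · rw [if_pos hE]
      obtain ⟨u, rfl⟩ := hE
      rw [if_pos (by rw [zero_add, deg_dv])]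
    · rw [if_neg hE]
      exact bot_le
  intro h0
  rw [h0, nonpos_iff_eq_zero, ENNReal.inv_eq_zero] at h1
  exact ENNReal.natCast_ne_top _ h1

variable (F) in
/-- the number of effective divisors of degree `i` -/
noncomputable def ee (i : ℤ) : ℕ := (finite_eff (F := F) i).toFinset.card

/-- the number of nonzero elements of `L(D)` -/
lemma zeta_count {D : Div F} (h : (c0 F : ℤ) ≤ deg D) :
    (∑' u : Fˣ, if 0 ≤ D + dv (u : F) then (1 : ℝ≥0∞) else 0) =
      ENNReal.ofReal (qq F ^ (deg D + cc F) - 1) := by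
  have h1 : (∑' u : Fˣ, if 0 ≤ D + dv (u : F) then (1 : ℝ≥0∞) else 0) =
      ∑' x : F, if x ∈ (box D).erase 0 then (1 : ℝ≥0∞) else 0 := by
    rw [← Units.val_injective.tsum_eq (f := fun x : F => if x ∈ (box D).erase 0 then (1 : ℝ≥0∞) else 0)
      fun x hx => ?_]
    · refine tsum_congr fun u => if_congr ?_ rfl rfl
      rw [Finset.mem_erase, mem_box, mem_LL_iff, add_comm]
      simp only [ne_eq, Units.ne_zero, not_false_eq_true, false_or, true_and]
    · have h2 : x ∈ (box D).erase 0 := by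
        by_contra h2
        exact hx (if_neg h2)
      exact ⟨Units.mk0 x (Finset.mem_erase.1 h2).1, rfl⟩
  rw [h1, tsum_eq_sum (s := (box D).erase 0) fun x hx => if_neg hx,
    Finset.sum_congr rfl fun x hx => if_pos hx, Finset.sum_const, nsmul_eq_mul, mul_one,
    ← card_box h, ← Finset.card_erase_add_one (zero_mem_box D), Nat.cast_add, Nat.cast_one,
    add_sub_cancel_right, ENNReal.ofReal_natCast]

/-- Count the pairs `(E, s)`, `deg E = i`, `0 ≠ s ∈ L(E)`, by the effective divisor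
`Z = E + dv s`: `∑' E, β E * (card (box E) - 1) = ∑ Z, ∑' s, β (Z - dv s) = ee i`. -/
theorem kap_mul {i : ℤ} (hi : (dl F : ℤ) ∣ i) (h : (c0 F : ℤ) ≤ i) :
    kap F * ENNReal.ofReal (qq F ^ (i + cc F) - 1) = ee F i := by
  have hβ := (exists_bruD (F := F)).choose_spec
  rw [← kap_eq hβ hi, ← ENNReal.tsum_mul_right]
  generalize (exists_bruD (F := F)).choose = β at hβ ⊢
  have h1 : ∀ E : Div F, (if deg E = i then β E else 0) * ENNReal.ofReal (qq F ^ (i + cc F) - 1) =
      ∑' u : Fˣ, if 0 ≤ E + dv (u : F) ∧ deg E = i then β E else 0 := by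
    intro E
    by_cases hE : deg E = i
    · have h2 := zeta_count (D := E) (hE ▸ h)
      rw [hE] at h2
      rw [if_pos hE, ← h2, ← ENNReal.tsum_mul_left]
      refine tsum_congr fun u => ?_
      simp only [hE, and_true, mul_ite, mul_one, mul_zero]
    · simp only [hE, if_false, zero_mul, and_false, tsum_zero]
  rw [tsum_congr h1, ENNReal.tsum_comm]
  have h2 : ∀ u : Fˣ, (∑' E : Div F, if 0 ≤ E + dv (u : F) ∧ deg E = i then β E else 0) =
      ∑' Z : Div F, if 0 ≤ Z ∧ deg Z = i then β (actD F u⁻¹ Z) else 0 := by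
    intro u
    rw [← (actD F u⁻¹).tsum_eq]
    refine tsum_congr fun Z => if_congr ?_ rfl rfl
    rw [actD_apply, map_add, deg_dv, add_zero, Units.val_inv_eq_inv_val, dv_inv,
      neg_add_cancel_right]
  rw [tsum_congr h2, ENNReal.tsum_comm]
  have h3 : ∀ Z : Div F, (∑' u : Fˣ, if 0 ≤ Z ∧ deg Z = i then β (actD F u⁻¹ Z) else 0) =
      if Z ∈ (finite_eff (F := F) i).toFinset then 1 else 0 := by
    intro Z
    have hm : Z ∈ (finite_eff (F := F) i).toFinset ↔ 0 ≤ Z ∧ deg Z = i := Set.Finite.mem_toFinset _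
    by_cases hZ : 0 ≤ Z ∧ deg Z = i
    · rw [if_pos (hm.2 hZ), ← hβ Z, ← (Equiv.inv Fˣ).tsum_eq]
      refine tsum_congr fun u => ?_
      rw [if_pos hZ, Equiv.inv_apply, inv_inv]
    · rw [if_neg (mt hm.1 hZ)]
      simp only [hZ, if_false, tsum_zero]
  rw [tsum_congr h3, tsum_eq_sum (s := (finite_eff (F := F) i).toFinset)
    fun Z hZ => if_neg hZ, Finset.sum_congr rfl fun Z hZ => if_pos hZ]
  simp only [ee, Finset.sum_const, nsmul_eq_mul, mul_one]

/-- take `i` with `0 < i + c` -/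
theorem kap_ne_top : kap F ≠ ⊤ := by
  have hd : (1 : ℤ) ≤ dl F := by exact_mod_cast dl_pos (F := F)
  obtain ⟨n, hn, hn'⟩ : ∃ n : ℕ, (c0 F : ℤ) ≤ n ∧ 0 < (n : ℤ) + cc F :=
    ⟨c0 F + (cc F).natAbs + 1, by push_cast; have := abs_nonneg (cc F); linarith, by
      push_cast; have := neg_abs_le (cc F); have : (0 : ℤ) ≤ c0 F := Int.natCast_nonneg _
      linarith⟩
  have hle : (n : ℤ) ≤ dl F * n := le_mul_of_one_le_left (Int.natCast_nonneg _) hd
  have h := kap_mul (F := F) (i := dl F * n) (dvd_mul_right _ _) (hn.trans hle)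
  have h1 : 1 < qq F ^ ((dl F : ℤ) * n + cc F) := one_lt_zpow₀ one_lt_qq (by linarith)
  intro h0
  rw [h0, ENNReal.top_mul (ENNReal.ofReal_pos.2 (sub_pos.2 h1)).ne'] at h
  exact ENNReal.natCast_ne_top _ h.symm

variable (F) in
/-- the mass as a real number -/
noncomputable def kapR : ℝ := (kap F).toReal

lemma kapR_pos : 0 < kapR F := ENNReal.toReal_pos kap_ne_zero kap_ne_top

lemma ofReal_kapR : ENNReal.ofReal (kapR F) = kap F := ENNReal.ofReal_toReal kap_ne_top

theorem ee_eq {i : ℤ} (hi : (dl F : ℤ) ∣ i) (h : (c0 F : ℤ) ≤ i) :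
    (ee F i : ℝ) = kapR F * (qq F ^ (i + cc F) - 1) := by
  obtain ⟨D, hD⟩ := exists_deg_eq hi
  have h1 := card_box (D := D) (hD ▸ h)
  rw [hD] at h1
  have h2 : (1 : ℝ) ≤ (box D).card := by
    exact_mod_cast Finset.card_pos.2 ⟨0, zero_mem_box D⟩
  have h3 := congrArg ENNReal.toReal (kap_mul hi h)
  rw [ENNReal.toReal_mul, ENNReal.toReal_ofReal (by rw [← h1]; linarith),
    ENNReal.toReal_natCast] at h3
  exact h3.symm

theorem ee_eq_zero {i : ℤ} (hi : ¬(dl F : ℤ) ∣ i ∨ i < 0) : ee F i = 0 := by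
  rw [ee, Finset.card_eq_zero, Finset.eq_empty_iff_forall_notMem]
  intro Z hZ
  obtain ⟨h0, h1⟩ := (Set.Finite.mem_toFinset _).1 hZ
  rcases hi with hi | hi
  · exact hi (h1 ▸ dl_dvd Z)
  · exact absurd (h1 ▸ deg_nonneg h0) (not_le.2 hi)

/-- the term of the zeta series at `2` -/
noncomputable def ztTerm (Z : Div F) : ℝ := if 0 ≤ Z then qq F ^ (-2 * deg Z) else 0

lemma zeta_ee_le : ∃ C : ℝ, 0 ≤ C ∧ ∀ n : ℕ, (ee F n : ℝ) ≤ C * qq F ^ n := by
  have hq := one_lt_qq (F := F)
  have hq0 : 0 < qq F := one_pos.trans hq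
  have hk := kapR_pos (F := F)
  have hA : 0 ≤ kapR F * qq F ^ cc F := by positivity
  have hB : (0 : ℝ) ≤ ∑ j ∈ Finset.range (c0 F), (ee F j : ℝ) := by positivity
  refine ⟨kapR F * qq F ^ cc F + ∑ j ∈ Finset.range (c0 F), (ee F j : ℝ), by positivity,
    fun n => ?_⟩
  have hn : 1 ≤ qq F ^ n := one_le_pow₀ hq.le
  by_cases h : n < c0 F
  · have h1 : (ee F n : ℝ) ≤ ∑ j ∈ Finset.range (c0 F), (ee F j : ℝ) :=
      Finset.single_le_sum (f := fun j : ℕ => (ee F j : ℝ)) (fun j _ => by positivity)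
        (Finset.mem_range.2 h)
    exact (h1.trans (le_add_of_nonneg_left hA)).trans (le_mul_of_one_le_right (by positivity) hn)
  · by_cases hd : (dl F : ℤ) ∣ n
    · rw [ee_eq hd (by exact_mod_cast not_lt.1 h), zpow_add₀ hq0.ne', zpow_natCast]
      have h2 : 0 ≤ (∑ j ∈ Finset.range (c0 F), (ee F j : ℝ)) * qq F ^ n := by positivity
      nlinarith
    · rw [ee_eq_zero (Or.inl hd), Nat.cast_zero]
      positivity

lemma zeta_term_nonneg (Z : Div F) : 0 ≤ ztTerm Z := by
  have hq0 : 0 < qq F := one_pos.trans one_lt_qq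
  unfold ztTerm
  split_ifs
  · positivity
  · exact le_rfl

lemma zeta_term_zero : ztTerm (0 : Div F) = 1 := by
  rw [ztTerm, if_pos le_rfl, map_zero, mul_zero, zpow_zero]

lemma zeta_term_add (v : Place F) {Z : Div F} (h : 0 ≤ Z) :
    ztTerm (Z + Finsupp.single v 1) = 1 / (qq F ^ dg v) ^ 2 * ztTerm Z := by
  have hq0 : 0 < qq F := one_pos.trans one_lt_qq
  rw [ztTerm, ztTerm, if_pos h, if_pos (add_nonneg h (Finsupp.single_nonneg.2 zero_le_one)),
    map_add, deg_single, one_mul, mul_add, zpow_add₀ hq0.ne', mul_comm, one_div, ← pow_mul,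
    ← zpow_natCast, ← zpow_neg]
  congr 2
  push_cast
  ring

/-- group by degree; `ee i ≤ C q^i` -/
theorem summable_ztTerm : Summable (ztTerm (F := F)) := by
  obtain ⟨C, hC0, hC⟩ := zeta_ee_le (F := F)
  have hq := one_lt_qq (F := F)
  have hq0 : 0 < qq F := one_pos.trans hq
  have hg : Summable fun n : ℕ => C * (qq F)⁻¹ ^ n :=
    (summable_geometric_of_lt_one (inv_nonneg.2 hq0.le) (inv_lt_one_of_one_lt₀ hq)).mul_left C
  refine summable_of_sum_le (c := ∑' n : ℕ, C * (qq F)⁻¹ ^ n) (fun Z => zeta_term_nonneg Z)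
    fun u => ?_
  rw [← Finset.sum_fiberwise_of_maps_to (s := u) (t := u.image fun Z => (deg Z).toNat)
    (g := fun Z => (deg Z).toNat) fun Z hZ => Finset.mem_image_of_mem _ hZ]
  refine le_trans (Finset.sum_le_sum fun n _ => ?_)
    (hg.sum_le_tsum (u.image fun Z => (deg Z).toNat) fun n _ => by positivity)
  have h1 : ∑ Z ∈ u with (deg Z).toNat = n, ztTerm Z ≤
      ∑ Z ∈ (finite_eff (F := F) n).toFinset, ztTerm Z := by
    rw [← Finset.sum_filter_ne_zero]
    refine Finset.sum_le_sum_of_subset_of_nonneg (fun Z hZ => ?_) fun Z _ _ => zeta_term_nonneg Z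
    obtain ⟨h2, hne⟩ := Finset.mem_filter.1 hZ
    have h0 : 0 ≤ Z := by
      by_contra h0
      exact hne (if_neg h0)
    refine (Set.Finite.mem_toFinset _).2 ⟨h0, ?_⟩
    rw [← (Finset.mem_filter.1 h2).2, Int.toNat_of_nonneg (deg_nonneg h0)]
  refine h1.trans ?_
  have h2 : ∀ Z ∈ (finite_eff (F := F) n).toFinset, ztTerm Z = (qq F)⁻¹ ^ n * (qq F)⁻¹ ^ n := by
    intro Z hZ
    obtain ⟨h0, h1⟩ := (Set.Finite.mem_toFinset _).1 hZ
    rw [ztTerm, if_pos h0, h1, show -2 * (n : ℤ) = -n + -n by ring, zpow_add₀ hq0.ne', zpow_neg,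
      zpow_natCast, inv_pow]
  rw [Finset.sum_congr rfl h2, Finset.sum_const, nsmul_eq_mul, ← mul_assoc]
  refine mul_le_mul_of_nonneg_right ?_ (by positivity)
  rw [inv_pow, ← div_eq_mul_inv, div_le_iff₀ (by positivity)]
  exact hC n

variable (F) in
/-- the value `ζ(2)` -/
noncomputable def zt : ℝ := ∑' Z : Div F, ztTerm Z

lemma one_le_zt : 1 ≤ zt F := by
  rw [← zeta_term_zero (F := F)]
  exact summable_ztTerm.le_tsum 0 fun Z _ => zeta_term_nonneg Z

lemma tsum_ofReal_ztTerm : ∑' Z : Div F, ENNReal.ofReal (ztTerm Z) = ENNReal.ofReal (zt F) := by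
  exact (ENNReal.ofReal_tsum_of_nonneg zeta_term_nonneg summable_ztTerm).symm

/-- the product of the local masses -/
noncomputable def cS (S : Finset (Place F)) : ℝ := ∏ v ∈ S, (1 - 1 / (qq F ^ dg v) ^ 2)

lemma zeta_loc_nonneg (v : Place F) : 0 ≤ 1 / (qq F ^ dg v) ^ 2 := by positivity

lemma zeta_loc_le_one (v : Place F) : 1 / (qq F ^ dg v) ^ 2 ≤ 1 :=
  div_le_one_of_le₀ (one_le_pow₀ (one_le_pow₀ (one_lt_qq (F := F)).le)) (by positivity)

lemma cS_nonneg (S : Finset (Place F)) : 0 ≤ cS S := by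
  exact Finset.prod_nonneg fun v _ => sub_nonneg.2 (zeta_loc_le_one v)

lemma cS_le_one (S : Finset (Place F)) : cS S ≤ 1 := by
  exact Finset.prod_le_one (fun v _ => sub_nonneg.2 (zeta_loc_le_one v))
    fun v _ => sub_le_self _ (zeta_loc_nonneg v)

/-- the terms of the divisors that are prime to `S` -/
noncomputable def zetaG (S : Finset (Place F)) (Z : Div F) : ℝ :=
  if ∀ v ∈ S, Z v = 0 then ztTerm Z else 0

lemma zeta_G_nonneg (S : Finset (Place F)) (Z : Div F) : 0 ≤ zetaG S Z := by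
  unfold zetaG
  split_ifs
  · exact zeta_term_nonneg Z
  · exact le_rfl

lemma zeta_G_le (S : Finset (Place F)) (Z : Div F) : zetaG S Z ≤ ztTerm Z := by
  unfold zetaG
  split_ifs
  · exact le_rfl
  · exact zeta_term_nonneg Z

lemma zeta_G_zero (S : Finset (Place F)) : zetaG S 0 = 1 := by
  exact (if_pos fun v _ => rfl).trans zeta_term_zero

lemma zeta_G_summable (S : Finset (Place F)) : Summable (zetaG S) :=
  Summable.of_nonneg_of_le (zeta_G_nonneg S) (zeta_G_le S) summable_ztTerm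

lemma zeta_shift {S : Finset (Place F)} {v : Place F} (hv : v ∉ S) (Z : Div F) :
    (if (Z + Finsupp.single v 1 : Div F) v = 0 then 0 else zetaG S (Z + Finsupp.single v 1)) =
      1 / (qq F ^ dg v) ^ 2 * zetaG S Z := by
  have h1 : ∀ w, w ≠ v → (Z + Finsupp.single v 1 : Div F) w = Z w := fun w hw => by
    rw [Finsupp.add_apply, Finsupp.single_eq_of_ne hw, add_zero]
  have h2 : (Z + Finsupp.single v 1 : Div F) v = Z v + 1 := by
    rw [Finsupp.add_apply, Finsupp.single_eq_same]
  have h3 : (∀ w ∈ S, (Z + Finsupp.single v 1 : Div F) w = 0) ↔ ∀ w ∈ S, Z w = 0 :=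
    forall₂_congr fun w hw => by rw [h1 w fun e => hv (e ▸ hw)]
  by_cases h0 : 0 ≤ Z
  · have h4 : (0 : ℤ) ≤ Z v := h0 v
    rw [if_neg (by rw [h2]; omega), zetaG, zetaG, zeta_term_add v h0, if_congr h3 rfl rfl, mul_ite,
      mul_zero]
  · have h4 : zetaG S Z = 0 := le_antisymm ((zeta_G_le S Z).trans (if_neg h0).le) (zeta_G_nonneg S Z)
    rw [h4, mul_zero]
    split_ifs with h5
    · rfl
    · refine le_antisymm ((zeta_G_le S _).trans (if_neg fun h6 => h0 fun w => ?_).le)
        (zeta_G_nonneg S _)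
      have h7 : (0 : ℤ) ≤ (Z + Finsupp.single v 1 : Div F) w := h6 w
      change (0 : ℤ) ≤ Z w
      by_cases hw : w = v
      · subst hw
        rw [h2] at h5 h7
        omega
      · rwa [h1 w hw] at h7

lemma zeta_insert {S : Finset (Place F)} {v : Place F} (hv : v ∉ S) :
    (1 - 1 / (qq F ^ dg v) ^ 2) * ∑' Z : Div F, zetaG S Z = ∑' Z : Div F, zetaG (insert v S) Z := by
  have h1 : ∀ Z : Div F, zetaG (insert v S) Z = zetaG S Z - if Z v = 0 then 0 else zetaG S Z := by
    intro Z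
    by_cases h : Z v = 0
    · rw [if_pos h, sub_zero, zetaG, zetaG]
      exact if_congr (by rw [Finset.forall_mem_insert, and_iff_right h]) rfl rfl
    · rw [if_neg h, sub_self, zetaG, if_neg fun h' => h (h' v (Finset.mem_insert_self _ _))]
  have h2 : Summable fun Z : Div F => if Z v = 0 then 0 else zetaG S Z := by
    refine Summable.of_nonneg_of_le (fun Z => ?_) (fun Z => ?_) (zeta_G_summable S) <;> split_ifs
    exacts [le_rfl, zeta_G_nonneg S Z, zeta_G_nonneg S Z, le_rfl]
  rw [tsum_congr h1, (zeta_G_summable S).tsum_sub h2,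
    ← (Equiv.addRight (Finsupp.single v 1 : Div F)).tsum_eq
      fun Z : Div F => if Z v = 0 then 0 else zetaG S Z]
  simp only [Equiv.coe_addRight, zeta_shift hv]
  rw [tsum_mul_left, sub_mul, one_mul]

/-- port of `tsum_eulerTerm_insert`: remove the divisors that contain `v` -/
theorem cS_mul_zt (S : Finset (Place F)) :
    cS S * zt F = ∑' Z : Div F, if ∀ v ∈ S, Z v = 0 then ztTerm Z else 0 := by
  change cS S * zt F = ∑' Z : Div F, zetaG S Z
  induction S using Finset.induction_on with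
  | empty =>
    simp only [cS, Finset.prod_empty, one_mul, zt, zetaG, Finset.notMem_empty, false_imp_iff,
      implies_true, if_true]
  | insert v S hv ih =>
    rw [cS, Finset.prod_insert hv, mul_assoc, ← cS, ih, zeta_insert hv]

/-- the term `Z = 0` -/
theorem one_le_cS_mul_zt (S : Finset (Place F)) : 1 ≤ cS S * zt F := by
  rw [cS_mul_zt]
  have h := (zeta_G_summable S).le_tsum 0 fun Z _ => zeta_G_nonneg S Z
  rwa [zeta_G_zero] at h

/-- dominated convergence (`tendsto_tsum_of_dominated_convergence`) -/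
theorem tendsto_cS_mul_zt : Tendsto (fun N => cS (plLE F N) * zt F) atTop (𝓝 1) := by
  have h := tendsto_tsum_of_dominated_convergence (𝓕 := atTop)
    (f := fun (N : ℕ) (Z : Div F) => zetaG (plLE F N) Z) (g := fun Z => if Z = 0 then (1 : ℝ) else 0)
    summable_ztTerm (fun Z => ?_) (Eventually.of_forall fun N Z => ?_)
  · rw [tsum_ite_eq] at h
    exact h.congr fun N => (cS_mul_zt _).symm
  · by_cases hZ : Z = 0
    · subst hZ
      simp only [zeta_G_zero, if_true]
      exact tendsto_const_nhds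
    · rw [if_neg hZ]
      obtain ⟨v, hv⟩ := Finsupp.ne_iff.1 hZ
      refine tendsto_const_nhds.congr' ((eventually_ge_atTop (dg v)).mono fun N hN => ?_)
      exact (if_neg fun h => hv (h v (mem_plLE.2 hN))).symm
  · rw [Real.norm_of_nonneg (zeta_G_nonneg _ _)]
    exact zeta_G_le _ _

variable (F) in
/-- the tail of the sum over places -/
noncomputable def tau (N : ℕ) : ℝ := ∑' v : Place F, if N < dg v then 1 / (qq F ^ dg v) ^ 2 else 0

/-- the places inject into the effective divisors -/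
theorem summable_place : Summable fun v : Place F => 1 / (qq F ^ dg v) ^ 2 := by
  have h := (summable_ztTerm (F := F)).comp_injective
    (Finsupp.single_left_injective (α := Place F) (one_ne_zero (α := ℤ)))
  refine h.congr fun v => ?_
  have h1 := zeta_term_add v (Z := 0) le_rfl
  rwa [zero_add, zeta_term_zero, mul_one] at h1

lemma zeta_tau_nonneg (N : ℕ) (v : Place F) :
    0 ≤ (if N < dg v then 1 / (qq F ^ dg v) ^ 2 else 0 : ℝ) := by
  split_ifs
  · exact zeta_loc_nonneg v
  · exact le_rfl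

lemma zeta_tau_le (N : ℕ) (v : Place F) :
    (if N < dg v then 1 / (qq F ^ dg v) ^ 2 else 0 : ℝ) ≤ 1 / (qq F ^ dg v) ^ 2 := by
  split_ifs
  · exact le_rfl
  · exact zeta_loc_nonneg v

lemma zeta_tau_summable (N : ℕ) :
    Summable fun v : Place F => (if N < dg v then 1 / (qq F ^ dg v) ^ 2 else 0 : ℝ) :=
  Summable.of_nonneg_of_le (zeta_tau_nonneg N) (zeta_tau_le N) summable_place

lemma tau_nonneg (N : ℕ) : 0 ≤ tau F N := by
  exact tsum_nonneg (zeta_tau_nonneg N)

theorem sum_le_tau {N : ℕ} (T : Finset (Place F)) (hT : ∀ v ∈ T, N < dg v) :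
    ∑ v ∈ T, 1 / (qq F ^ dg v) ^ 2 ≤ tau F N := by
  refine le_trans (le_of_eq ?_) ((zeta_tau_summable N).sum_le_tsum T fun v _ => zeta_tau_nonneg N v)
  exact Finset.sum_congr rfl fun v hv => (if_pos (hT v hv)).symm

theorem tendsto_tau : Tendsto (tau F) atTop (𝓝 0) := by
  have h := tendsto_tsum_of_dominated_convergence (𝓕 := atTop)
    (f := fun (N : ℕ) (v : Place F) => if N < dg v then 1 / (qq F ^ dg v) ^ 2 else 0)
    (g := fun _ => (0 : ℝ)) summable_place (fun v => ?_) (Eventually.of_forall fun N v => ?_)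
  · rwa [tsum_zero] at h
  · refine tendsto_const_nhds.congr' ((eventually_ge_atTop (dg v)).mono fun N hN => ?_)
    exact (if_neg (not_lt.2 hN)).symm
  · rw [Real.norm_of_nonneg (zeta_tau_nonneg N v)]
    exact zeta_tau_le N v

end SelAvg.FF
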