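import Pool.Agent.H81Sel.Iwa
import Pool.Agent.H81Sel.Zeta

/-! Row ZORNB: the number of integral cosets and the power series argument. -/

namespace SelAvg.FF

open WeierstrassCurve WithZero Filter Topology Matrix
open scoped Classical

lemma zornb_poly (f : PowerSeries ℝ) (h : ∀ᶠ n in atTop, PowerSeries.coeff n f = 0) :
    ∃ P : Polynomial ℝ, (P : PowerSeries ℝ) = f := by
  obtain ⟨N, hN⟩ := eventually_atTop.1 h
  refine ⟨PowerSeries.trunc N f, ?_⟩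
  ext n
  rw [Polynomial.coeff_coe, PowerSeries.coeff_trunc]
  split_ifs with hn
  · rfl
  · exact (hN n (not_lt.1 hn)).symm

lemma zornb_geom (u : ℝ) :
    (1 - PowerSeries.C u * PowerSeries.X) * PowerSeries.mk (fun n => u ^ n) = 1 := by
  ext n
  rw [sub_mul, one_mul, map_sub, mul_assoc, PowerSeries.coeff_C_mul, PowerSeries.coeff_mk]
  cases n with
  | zero => simp
  | succ n => simp [PowerSeries.coeff_succ_X_mul, pow_succ', PowerSeries.coeff_one]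

lemma zornb_rat (u v α β : ℝ) (E : ℕ → ℝ) (h : ∀ᶠ n in atTop, E n = α * u ^ n - β * v ^ n) :
    ∃ R : Polynomial ℝ, (R : PowerSeries ℝ) = (1 - PowerSeries.C u * PowerSeries.X) *
      (1 - PowerSeries.C v * PowerSeries.X) * PowerSeries.mk E ∧
      ∀ x : ℝ, (1 - u * x) * (1 - v * x) = 0 → R.eval x = α * (1 - v * x) - β * (1 - u * x) := by
  obtain ⟨P, hP⟩ := zornb_poly (PowerSeries.mk fun n => E n - (α * u ^ n - β * v ^ n))
    (h.mono fun n hn => by simp [hn])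
  have hE : PowerSeries.mk E = P + (PowerSeries.C α * PowerSeries.mk (fun n => u ^ n) -
      PowerSeries.C β * PowerSeries.mk (fun n => v ^ n)) := by
    rw [hP]; ext n; simp
  refine ⟨(1 - Polynomial.C u * Polynomial.X) * (1 - Polynomial.C v * Polynomial.X) * P +
    (Polynomial.C α * (1 - Polynomial.C v * Polynomial.X) -
      Polynomial.C β * (1 - Polynomial.C u * Polynomial.X)), ?_, fun x hx => ?_⟩
  · rw [hE]
    simp only [Polynomial.coe_add, Polynomial.coe_mul, Polynomial.coe_sub, Polynomial.coe_one,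
      Polynomial.coe_C, Polynomial.coe_X]
    linear_combination
      (-PowerSeries.C α * (1 - PowerSeries.C v * PowerSeries.X)) * zornb_geom u +
        (PowerSeries.C β * (1 - PowerSeries.C u * PowerSeries.X)) * zornb_geom v
  · simp only [Polynomial.eval_add, Polynomial.eval_mul, Polynomial.eval_sub, Polynomial.eval_one,
      Polynomial.eval_C, Polynomial.eval_X, hx, zero_mul, zero_add]

lemma zornb_rec {W : ℝ} (a : ℕ → ℝ) {s : ℕ} (hs : 0 < s)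
    (h : ∀ r, r < s → ∃ α' β' : ℝ, ∀ᶠ m in atTop, a (r + m * s) = α' * W ^ m - β') :
    ∃ S : Polynomial ℝ, (S : PowerSeries ℝ) = (1 - PowerSeries.X ^ s) *
      (1 - PowerSeries.C W * PowerSeries.X ^ s) * PowerSeries.mk a := by
  have h1 : ∀ r : Fin s, ∀ᶠ m in atTop,
      a (r + m * s + s + s) - (1 + W) * a (r + m * s + s) + W * a (r + m * s) = 0 := by
    intro r
    obtain ⟨α', β', h'⟩ := h r r.2
    obtain ⟨N, hN⟩ := eventually_atTop.1 h'
    refine eventually_atTop.2 ⟨N, fun m hm => ?_⟩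
    have e1 : (r : ℕ) + m * s + s = r + (m + 1) * s := by ring
    have e2 : (r : ℕ) + (m + 1) * s + s = r + (m + 2) * s := by ring
    rw [e1, e2, hN m hm, hN (m + 1) (by omega), hN (m + 2) (by omega)]
    ring
  obtain ⟨N, hN⟩ := eventually_atTop.1 (eventually_all.2 h1)
  refine zornb_poly _ (eventually_atTop.2 ⟨N * s + s + s, fun n hn => ?_⟩)
  obtain ⟨d, rfl⟩ : ∃ d, n = d + s + s := ⟨n - s - s, by omega⟩
  have hd : N ≤ d / s := (Nat.le_div_iff_mul_le hs).2 (by omega)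
  have h2 := hN (d / s) hd ⟨d % s, Nat.mod_lt _ hs⟩
  simp only [Nat.mod_add_div'] at h2
  have e : (1 - PowerSeries.X ^ s) * (1 - PowerSeries.C W * PowerSeries.X ^ s) * PowerSeries.mk a =
      PowerSeries.mk a - PowerSeries.C (1 + W) * (PowerSeries.X ^ s * PowerSeries.mk a) +
        PowerSeries.C W * (PowerSeries.X ^ s * (PowerSeries.X ^ s * PowerSeries.mk a)) := by
    rw [map_add, map_one]; ring
  rw [e, map_add, map_sub, PowerSeries.coeff_C_mul, PowerSeries.coeff_C_mul,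
    PowerSeries.coeff_X_pow_mul, PowerSeries.coeff_X_pow_mul, PowerSeries.coeff_X_pow_mul]
  simpa only [PowerSeries.coeff_mk] using h2

/-- Let `Z = mk E`, as power series over `ℝ`.  `R = (1 - X) (1 - Q X) Z` is a polynomial with
`R(1) = κ (Q - 1)`, `R(1 / Q) = α (1 - 1 / Q)`; `mk a = rescale Q Z * Z`; and
`S = (1 - X^s) (1 - Q^(2 s) X^s) mk a` is a polynomial.  So
`R(X) R(Q X) (1 - X^s) (1 - Q^(2 s) X^s) = S (1 - X) (1 - Q X)^2 (1 - Q^2 X)`; evaluate at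
`1 / Q`. -/
theorem zorn_series {Q α κ : ℝ} (hQ : 1 < Q) (hα : α ≠ 0) (hκ : κ ≠ 0) (E a : ℕ → ℝ)
    (hE : ∀ᶠ n in atTop, E n = α * Q ^ n - κ)
    (ha : ∀ n, a n = ∑ p ∈ Finset.HasAntidiagonal.antidiagonal n, E p.1 * Q ^ p.1 * E p.2) {s : ℕ} (hs : 0 < s)
    (h : ∀ r, r < s → ∃ α' β' : ℝ, ∀ᶠ m in atTop, a (r + m * s) = α' * (Q ^ (2 * s)) ^ m - β') :
    False := by
  obtain ⟨R₁, h₁, e₁⟩ := zornb_rat Q 1 α κ E (hE.mono fun n hn => by simp [hn])
  obtain ⟨R₂, h₂, e₂⟩ := zornb_rat (Q * Q) Q α κ (fun n => E n * Q ^ n)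
    (hE.mono fun n hn => by simp only [hn, mul_pow]; ring)
  obtain ⟨S, hS⟩ := zornb_rec a hs h
  have hm : PowerSeries.mk a = PowerSeries.mk (fun n => E n * Q ^ n) * PowerSeries.mk E := by
    ext n
    simp only [PowerSeries.coeff_mul, PowerSeries.coeff_mk, ha n]
  have key : R₁ * R₂ * ((1 - Polynomial.X ^ s) *
      (1 - Polynomial.C (Q ^ (2 * s)) * Polynomial.X ^ s)) =
      S * ((1 - Polynomial.C Q * Polynomial.X) * (1 - Polynomial.C 1 * Polynomial.X) *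
        ((1 - Polynomial.C (Q * Q) * Polynomial.X) * (1 - Polynomial.C Q * Polynomial.X))) := by
    apply Polynomial.coe_injective
    simp only [Polynomial.coe_mul, Polynomial.coe_sub, Polynomial.coe_one, Polynomial.coe_C,
      Polynomial.coe_X, Polynomial.coe_pow, h₁, h₂, hS, hm]
    ring
  have hQ0 : Q ≠ 0 := by positivity
  have hx : 1 - Q * Q⁻¹ = 0 := by rw [mul_inv_cancel₀ hQ0, sub_self]
  have k2 := congrArg (Polynomial.eval Q⁻¹) key
  simp only [Polynomial.eval_mul, Polynomial.eval_sub, Polynomial.eval_one, Polynomial.eval_C,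
    Polynomial.eval_X, Polynomial.eval_pow, hx, zero_mul, mul_zero,
    e₁ Q⁻¹ (by rw [hx, zero_mul]), e₂ Q⁻¹ (by rw [hx, mul_zero]), sub_zero, zero_sub] at k2
  have hi : Q⁻¹ < 1 := inv_lt_one_of_one_lt₀ hQ
  have a1 : 1 - 1 * Q⁻¹ ≠ 0 := by linarith [hi]
  have a2 : 1 - Q * Q * Q⁻¹ ≠ 0 := by rw [mul_inv_cancel_right₀ hQ0]; linarith
  have a3 : 1 - Q⁻¹ ^ s ≠ 0 := by
    have := pow_lt_one₀ (by positivity) hi hs.ne'
    linarith
  have a4 : 1 - Q ^ (2 * s) * Q⁻¹ ^ s ≠ 0 := by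
    have e : Q ^ (2 * s) * Q⁻¹ ^ s = Q ^ s := by
      rw [two_mul, pow_add, mul_assoc, ← mul_pow, mul_inv_cancel₀ hQ0, one_pow, mul_one]
    have := one_lt_pow₀ hQ hs.ne'
    rw [e]; linarith
  exact mul_ne_zero (mul_ne_zero (mul_ne_zero hα a1) (neg_ne_zero.2 (mul_ne_zero hκ a2)))
    (mul_ne_zero a3 a4) k2

variable {F : Type} [Field F] [Cv F]

variable (F) in
/-- the integral cosets of degree `k` -/
def intK (k : ℤ) : Set (X2 F) := {x | deg2 x = k ∧ ∀ i j, x.out.1 i j ∈ Oh F}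

lemma mk_mem_intK {k : ℤ} {g : GL (Fin 2) (A F)} : RC.mk (K2 F) g ∈ intK F k ↔
    deg (idiv (GeneralLinearGroup.det g)) = k ∧ ∀ i j, g.1 i j ∈ Oh F := by
  have hmul : ∀ u ∈ K2 F, ∀ h : GL (Fin 2) (A F), (∀ i j, h.1 i j ∈ Oh F) →
      ∀ i j, (u * h).1 i j ∈ Oh F := by
    intro u hu h hh i j
    rw [Units.val_mul, Matrix.mul_apply]
    exact sum_mem fun l _ => mul_mem ((mem_K2.1 hu).1 i l) (hh l j)
  obtain ⟨u, hu, e⟩ := RC.out_mk (K := K2 F) g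
  refine and_congr (by rw [deg2, det2_mk]) ⟨fun h => ?_, fun h => ?_⟩
  · have := hmul u⁻¹ (inv_mem hu) _ h
    rwa [e, inv_mul_cancel_left] at this
  · rw [e]; exact hmul u hu g h

lemma zornb_tri {k : ℤ} {B Z : Div F} {η : A F} : RC.mk (K2 F) (tri B Z η) ∈ intK F k ↔
    deg B + deg Z = k ∧ 0 ≤ B ∧ 0 ≤ Z ∧ η ∈ AD Z := by
  rw [mk_mem_intK, det_tri, idiv_piD, map_add]
  refine and_congr_right fun _ => ?_
  have e1 : (piD B : A F) ∈ Oh F ↔ 0 ≤ B := by rw [unit_mem_Oh, idiv_piD]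
  have e2 : (piD Z : A F) ∈ Oh F ↔ 0 ≤ Z := by rw [unit_mem_Oh, idiv_piD]
  have e3 : (piD Z : A F) * η ∈ Oh F ↔ η ∈ AD Z := by
    rw [← mem_AD_zero, unit_mul_mem_AD, idiv_piD, zero_add]
  rw [← e1, ← e2, ← e3]
  refine ⟨fun h => ⟨h 0 0, h 1 1, h 1 0⟩, fun h i j => ?_⟩
  fin_cases i <;> fin_cases j
  exacts [h.1, zero_mem _, h.2.2, h.2.1]

/-- a transversal of `A(Z - B)` in `A(Z)` -/
lemma zornb_trans (B Z : Div F) : ∃ s : Finset (A F), 0 ≤ B →
    (s.card : ℝ) = qq F ^ deg B ∧ (∀ b ∈ s, b ∈ AD Z) ∧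
      ∀ a ∈ AD Z, ∃! b, b ∈ s ∧ a - b ∈ AD (Z - B) := by
  by_cases h : 0 ≤ B
  · obtain ⟨s, h1, h2⟩ := exists_transversal (D := Z - B) (E := Z) (sub_le_self Z h)
    refine ⟨s, fun _ => ⟨?_, h2⟩⟩
    rw [h1, map_sub, sub_sub_cancel]
  · exact ⟨∅, fun h' => absurd h' h⟩

lemma zornb_nat {B : Div F} (h : 0 ≤ B) : ∃ i : ℕ, deg B = dl F * i := by
  obtain ⟨j, hj⟩ := dl_dvd B
  have h0 : 0 ≤ j := by
    have h1 := deg_nonneg h
    have h2 : (0 : ℤ) < dl F := by exact_mod_cast dl_pos (F := F)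
    rw [hj] at h1
    exact nonneg_of_mul_nonneg_right h1 h2
  obtain ⟨i, rfl⟩ := Int.eq_ofNat_of_zero_le h0
  exact ⟨i, hj⟩

lemma zornb_main (n : ℕ) : ∃ T : Finset (X2 F), (T : Set (X2 F)) = intK F (dl F * n) ∧
    (T.card : ℝ) = ∑ p ∈ Finset.HasAntidiagonal.antidiagonal n,
      (ee F (dl F * p.1) : ℝ) * (qq F ^ dl F) ^ p.1 * ee F (dl F * p.2) := by
  choose s hs using zornb_trans (F := F)
  have hd : (dl F : ℤ) ≠ 0 := by exact_mod_cast (dl_pos (F := F)).ne'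
  let U : Finset (Σ _ : ℕ × ℕ, Σ _ : Div F × Div F, A F) :=
    (Finset.HasAntidiagonal.antidiagonal n).sigma fun p =>
      ((finite_eff (F := F) (dl F * p.1)).toFinset ×ˢ
        (finite_eff (F := F) (dl F * p.2)).toFinset).sigma fun D => s D.1 D.2
  have hU : ∀ y, y ∈ U ↔ y.1.1 + y.1.2 = n ∧ ((0 ≤ y.2.1.1 ∧ deg y.2.1.1 = dl F * y.1.1) ∧
      (0 ≤ y.2.1.2 ∧ deg y.2.1.2 = dl F * y.1.2)) ∧ y.2.2 ∈ s y.2.1.1 y.2.1.2 := by
    intro y
    simp only [U, Finset.mem_sigma, Finset.HasAntidiagonal.mem_antidiagonal, Finset.mem_product,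
      Set.Finite.mem_toFinset, Set.mem_ofPred_eq]
  refine ⟨U.image fun y => RC.mk (K2 F) (tri y.2.1.1 y.2.1.2 y.2.2), ?_, ?_⟩
  · ext x
    rw [Finset.mem_coe, Finset.mem_image]
    constructor
    · rintro ⟨y, hy, rfl⟩
      obtain ⟨h1, ⟨⟨h2, h3⟩, h4, h5⟩, h6⟩ := (hU y).1 hy
      refine zornb_tri.2 ⟨?_, h2, h4, (hs _ _ h2).2.1 _ h6⟩
      rw [h3, h5, ← h1]; push_cast; ring
    · intro hx
      obtain ⟨B, Z, η, rfl⟩ := exists_mk_tri x
      obtain ⟨h1, h2, h3, h4⟩ := zornb_tri.1 hx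
      obtain ⟨i, hi⟩ := zornb_nat h2
      obtain ⟨j, hj⟩ := zornb_nat h3
      obtain ⟨b, ⟨hb, hb'⟩, -⟩ := (hs B Z h2).2.2 η h4
      refine ⟨⟨(i, j), (B, Z), b⟩, (hU _).2 ⟨?_, ⟨⟨h2, hi⟩, h3, hj⟩, hb⟩,
        (tri_eq_iff.2 ⟨rfl, rfl, hb'⟩).symm⟩
      rw [hi, hj, ← mul_add] at h1
      exact_mod_cast mul_left_cancel₀ hd h1
  · rw [Finset.card_image_of_injOn]
    · simp only [U, Finset.card_sigma, Nat.cast_sum]
      refine Finset.sum_congr rfl fun p _ => ?_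
      rw [Finset.sum_congr rfl (g := fun _ => (qq F ^ dl F) ^ p.1)]
      · rw [Finset.sum_const, Finset.card_product, nsmul_eq_mul, Nat.cast_mul, ee, ee]
        ring
      · intro D hD
        have h1 := (Set.Finite.mem_toFinset _).1 (Finset.mem_product.1 hD).1
        rw [(hs _ _ h1.1).1, h1.2, ← pow_mul, ← zpow_natCast, Nat.cast_mul]
    · rintro ⟨⟨i, j⟩, ⟨B, Z⟩, b⟩ hy ⟨⟨i', j'⟩, ⟨B', Z'⟩, b'⟩ hy' e
      obtain ⟨-, ⟨⟨h2, h3⟩, -, h5⟩, h6⟩ := (hU _).1 hy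
      obtain ⟨-, ⟨⟨-, h3'⟩, -, h5'⟩, h6'⟩ := (hU _).1 hy'
      obtain ⟨e1, e2, e3⟩ := tri_eq_iff.1 e
      dsimp only at h2 h3 h5 h6 h3' h5' h6' e1 e2 e3
      subst e1 e2
      have a1 : i = i' := by exact_mod_cast mul_left_cancel₀ hd (h3.symm.trans h3')
      have a2 : j = j' := by exact_mod_cast mul_left_cancel₀ hd (h5.symm.trans h5')
      have a3 : b = b' := ((hs B Z h2).2.2 b ((hs B Z h2).2.1 b h6)).unique
        ⟨h6, by rw [sub_self]; exact zero_mem _⟩ ⟨h6', e3⟩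
      rw [a1, a2, a3]

/-- `tri B Z η` is integral iff `0 ≤ B`, `0 ≤ Z`, `η ∈ A(Z)`; for given `B, Z` there are
`q^(deg B)` classes of `η` modulo `A(Z - B)` (`exists_transversal`, `tri_eq_iff`). -/
theorem finite_intK (k : ℤ) : (intK F k).Finite := by
  rcases (intK F k).eq_empty_or_nonempty with h | ⟨x, hx⟩
  · rw [h]; exact Set.finite_empty
  · obtain ⟨B, Z, η, rfl⟩ := exists_mk_tri x
    obtain ⟨h1, h2, h3, -⟩ := zornb_tri.1 hx
    obtain ⟨n, hn⟩ := zornb_nat (add_nonneg h2 h3)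
    obtain ⟨T, hT, -⟩ := zornb_main (F := F) n
    rw [← h1, ← map_add, hn, ← hT]
    exact T.finite_toSet

theorem ncard_intK (n : ℕ) : ((intK F (dl F * n)).ncard : ℝ) =
    ∑ p ∈ Finset.HasAntidiagonal.antidiagonal n,
      (ee F (dl F * p.1) : ℝ) * (qq F ^ dl F) ^ p.1 * ee F (dl F * p.2) := by
  obtain ⟨T, hT, h⟩ := zornb_main (F := F) n
  rw [← hT, Set.ncard_coe_finset, h]

end SelAvg.FF
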