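import Pool.Agent.H81Sel.ZornA
import Pool.Agent.H81Sel.ZornB

/-! Row ZORN: the Hasse principle for conics (argument of Zorn). -/

namespace SelAvg.FF

open WeierstrassCurve WithZero Filter Topology Matrix
open scoped Classical ENNReal

/-- the entries of a matrix as a vector -/
def zornFlat (R : Type) [CommRing R] : Matrix (Fin 2) (Fin 2) R ≃ₗ[R] (Fin 4 → R) where
  toFun M := ![M 0 0, M 0 1, M 1 0, M 1 1]
  invFun a := !![a 0, a 1; a 2, a 3]
  map_add' M N := by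
    funext i
    fin_cases i <;> rfl
  map_smul' r M := by
    funext i
    fin_cases i <;> rfl
  left_inv M := by
    ext i j
    fin_cases i <;> fin_cases j <;> rfl
  right_inv a := by
    funext i
    fin_cases i <;> rfl

lemma zornFlat_apply {R : Type} [CommRing R] (M : Matrix (Fin 2) (Fin 2) R) :
    zornFlat R M = ![M 0 0, M 0 1, M 1 0, M 1 1] := rfl

lemma zornFlat_symm_apply {R : Type} [CommRing R] (a : Fin 4 → R) :
    (zornFlat R).symm a = !![a 0, a 1; a 2, a 3] := rfl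

lemma zornFlat_mem {R : Type} [CommRing R] (S : Subring R) (M : Matrix (Fin 2) (Fin 2) R) :
    (∀ i, zornFlat R M i ∈ S) ↔ ∀ i j, M i j ∈ S := by
  constructor
  · intro h i j
    fin_cases i <;> fin_cases j
    · exact h 0
    · exact h 1
    · exact h 2
    · exact h 3
  · intro h i
    fin_cases i
    · exact h 0 0
    · exact h 0 1
    · exact h 1 0
    · exact h 1 1

/-- multiplication on both sides -/
def zornLR {R : Type} [CommRing R] (g g' : GL (Fin 2) R) :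
    Matrix (Fin 2) (Fin 2) R ≃ₗ[R] Matrix (Fin 2) (Fin 2) R where
  toFun M := g.1 * M * g'.1
  invFun M := (g⁻¹).1 * M * (g'⁻¹).1
  map_add' M N := by rw [mul_add, add_mul]
  map_smul' r M := by simp
  left_inv M := by
    simp only [← mul_assoc, Units.inv_mul, one_mul]
    rw [mul_assoc, Units.mul_inv, mul_one]
  right_inv M := by
    simp only [← mul_assoc, Units.mul_inv, one_mul]
    rw [mul_assoc, Units.inv_mul, mul_one]

lemma zornLR_apply {R : Type} [CommRing R] (g g' : GL (Fin 2) R) (M : Matrix (Fin 2) (Fin 2) R) :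
    zornLR g g' M = g.1 * M * g'.1 := rfl

lemma zorn_mul_mem {R : Type} [CommRing R] (S : Subring R) {M N : Matrix (Fin 2) (Fin 2) R}
    (hM : ∀ i j, M i j ∈ S) (hN : ∀ i j, N i j ∈ S) (i j : Fin 2) : (M * N) i j ∈ S := by
  rw [Matrix.mul_apply]
  exact S.sum_mem fun l _ => S.mul_mem (hM i l) (hN l j)

lemma zorn_K2_mul {F : Type} [Field F] {k : GL (Fin 2) (A F)} (hk : k ∈ K2 F)
    (M : Matrix (Fin 2) (Fin 2) (A F)) : (∀ i j, (k.1 * M) i j ∈ Oh F) ↔ ∀ i j, M i j ∈ Oh F := by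
  refine ⟨fun h => ?_, fun h => zorn_mul_mem _ (mem_K2.1 hk).1 h⟩
  have := zorn_mul_mem _ (mem_K2.1 ((K2 F).inv_mem hk)).1 h
  rwa [← mul_assoc, Units.inv_mul, one_mul] at this

variable {F : Type} [Field F] [Cv F] {Γ : Subgroup (GL (Fin 2) (A F))}
  {ι : (Fin 4 → A F) ≃ₗ[A F] Matrix (Fin 2) (Fin 2) (A F)}

/-- left multiplication on the entries -/
noncomputable def zornS (g : GL (Fin 2) (A F)) : (Fin 4 → A F) ≃ₗ[A F] (Fin 4 → A F) :=
  ((zornFlat (A F)).symm.trans (zornLR g 1)).trans (zornFlat (A F))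

omit [Cv F] in
lemma zornS_apply (g : GL (Fin 2) (A F)) (a : Fin 4 → A F) :
    zornS g a = zornFlat (A F) (g.1 * (zornFlat (A F)).symm a) := by
  simp [zornS, zornLR_apply]

lemma zorn_NN_S (g : GL (Fin 2) (A F)) :
    NN (zornS g) = qq F ^ (2 * deg (idiv (GeneralLinearGroup.det g)) + 4 * cc F) := by
  obtain ⟨k, hk, B, Z, η, rfl⟩ := exists_tri g
  have h1 : NN (zornS (k * tri B Z η)) = NN (zornS (tri B Z η)) := by
    refine NN_congr fun a => ?_
    rw [zornS_apply, zornS_apply, zornFlat_mem, zornFlat_mem, Units.val_mul, mul_assoc,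
      zorn_K2_mul hk]
  have h2 := NN_tri (zornS (tri B Z η)) ![B, B, Z, Z]
    ![0, 0, η • LinearMap.proj 0, η • LinearMap.proj 1] (by
      intro i a a' h
      fin_cases i
      · rfl
      · rfl
      · change η * a 0 = η * a' 0
        rw [h 0 (by decide)]
      · change η * a 1 = η * a' 1
        rw [h 1 (by decide)]) (by
      intro a i
      rw [zornS_apply, zornFlat_apply, zornFlat_symm_apply, tri_val]
      fin_cases i <;> simp [Matrix.mul_apply, Fin.sum_univ_two] <;> ring)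
  rw [h1, h2, map_mul, idiv_mul, (mem_K2.1 hk).2, zero_add, det_tri, idiv_piD, map_add]
  congr 1
  simp [Fin.sum_univ_four]
  ring

/-- There is a linear automorphism `T g` of `A^4` (the entries of `g * ι a`, in the order
`00, 01, 10, 11`) with `NN (T g) = N₀ q^(2 deg det g)`: `NN_trans`, `exists_tri`, `NN_congr`,
`NN_tri`. -/
theorem exists_quatLat (ι : (Fin 4 → A F) ≃ₗ[A F] Matrix (Fin 2) (Fin 2) (A F)) :
    ∃ (T : GL (Fin 2) (A F) → (Fin 4 → A F) ≃ₗ[A F] (Fin 4 → A F)) (N₀ : ℝ), 0 < N₀ ∧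
      (∀ g a, T g a = ![(g.1 * ι a) 0 0, (g.1 * ι a) 0 1, (g.1 * ι a) 1 0, (g.1 * ι a) 1 1]) ∧
      ∀ g, NN (T g) = N₀ * qq F ^ (2 * deg (idiv (GeneralLinearGroup.det g))) := by
  refine ⟨fun g => (ι.trans (zornFlat (A F))).trans (zornS g), NN (ι.trans (zornFlat (A F))),
    NN_pos _, fun g a => ?_, fun g => ?_⟩
  · rw [LinearEquiv.trans_apply, LinearEquiv.trans_apply, zornS_apply,
      LinearEquiv.symm_apply_apply, zornFlat_apply]
  · have h := NN_trans (ι.trans (zornFlat (A F))) (zornS g)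
    have hq : qq F ≠ 0 := (zero_lt_one.trans one_lt_qq).ne'
    rw [zorn_NN_S, zpow_add₀ hq, ← mul_assoc] at h
    exact mul_right_cancel₀ (zpow_ne_zero _ hq) h

/-- a stabiliser element `γ = g⁻¹ k g` gives a section of the lattice `a ↦ g * ι a * g⁻¹`, or
bound the coordinates with `exists_bound` -/
theorem IsDiv.finite_stab (h : IsDiv Γ ι) (x : X2 F) :
    {γ : Γ | RC.act (K2 F) γ x = x}.Finite := by
  obtain ⟨g, rfl⟩ := x.mk_surj
  have hf := (finite_HH ((ι.trans (zornLR g g⁻¹)).trans (zornFlat (A F)))).image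
    fun y => ι (dlg y)
  have hinj : Function.Injective fun γ : Γ => (γ : GL (Fin 2) (A F)).1 :=
    fun a b hab => Subtype.ext (Units.ext hab)
  refine (hf.preimage hinj.injOn).subset fun γ hγ => ?_
  obtain ⟨y, hy⟩ := h.mem γ γ.2
  refine ⟨y, ?_, hy.symm⟩
  obtain ⟨k, hk, e⟩ := RC.mk_eq.1 ((RC.act_mk _ _).symm.trans hγ)
  have e' : g * γ * g⁻¹ = k := by
    rw [mul_inv_eq_iff_eq_mul, ← eq_mul_inv_iff_mul_eq, mul_assoc]
    exact e
  change ∀ i, zornFlat (A F) (g.1 * ι (dlg y) * (g⁻¹).1) i ∈ Oh F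
  rw [zornFlat_mem, ← hy, ← Units.val_mul, ← Units.val_mul, e']
  exact (mem_K2.1 hk).1

lemma zorn_deg2_mk (g : GL (Fin 2) (A F)) :
    deg2 (RC.mk (K2 F) g) = deg (idiv (GeneralLinearGroup.det g)) := by
  rw [deg2, det2_mk]

lemma IsDiv.zorn_deg_mul (h : IsDiv Γ ι) (g : GL (Fin 2) (A F)) {γ : GL (Fin 2) (A F)}
    (hγ : γ ∈ Γ) : deg (idiv (GeneralLinearGroup.det (g * γ))) =
      deg (idiv (GeneralLinearGroup.det g)) := by
  rw [map_mul, idiv_mul, map_add, h.dg0 γ hγ, add_zero]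

lemma IsDiv.zorn_deg2_act (h : IsDiv Γ ι) {γ : GL (Fin 2) (A F)} (hγ : γ ∈ Γ) (x : X2 F) :
    deg2 (RC.act (K2 F) γ x) = deg2 x := by
  obtain ⟨g, rfl⟩ := x.mk_surj
  rw [RC.act_mk, zorn_deg2_mk, zorn_deg2_mk, h.zorn_deg_mul g (Γ.inv_mem hγ)]

omit [Cv F] in
lemma zorn_tw2_symm_act (E : Div F) (γ : GL (Fin 2) (A F)) (x : X2 F) :
    (tw2 E).symm (RC.act (K2 F) γ x) = RC.act (K2 F) γ ((tw2 E).symm x) := by
  rw [Equiv.symm_apply_eq, tw2_act, Equiv.apply_symm_apply]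

lemma zorn_deg_nsmul (m : ℕ) : deg (m • PP F) = m * pp F := by
  rw [map_nsmul, deg_PP, nsmul_eq_mul]

lemma zorn_tendsto (N₀ : ℝ) (hN : 0 < N₀) (k : ℤ) :
    ∃ m : ℕ, 1 < N₀ * qq F ^ (2 * (k + 2 * (m * pp F : ℤ))) := by
  have hq : 0 < qq F := zero_lt_one.trans one_lt_qq
  have hp : 0 < pp F := dg_pos _
  have h1 : 1 < qq F ^ (4 * pp F) := one_lt_pow₀ one_lt_qq (by omega)
  have hc : 0 < N₀ * qq F ^ (2 * k) := mul_pos hN (zpow_pos hq _)
  obtain ⟨m, hm⟩ := pow_unbounded_of_one_lt (N₀ * qq F ^ (2 * k))⁻¹ h1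
  refine ⟨m, ?_⟩
  have e : qq F ^ (2 * (k + 2 * (m * pp F : ℤ))) = qq F ^ (2 * k) * (qq F ^ (4 * pp F)) ^ m := by
    rw [← pow_mul, ← zpow_natCast, ← zpow_add₀ hq.ne']
    congr 1
    push_cast
    ring
  rw [e, ← mul_assoc]
  rwa [inv_lt_iff_one_lt_mul₀' hc] at hm

/-- Twist to a fixed large degree `k'`; there every `x` has a nonzero section (`NN_le_card`), so
its orbit meets the finite set `intK F k'`. -/
theorem IsDiv.finite_orbits (h : IsDiv Γ ι) (k : ℤ) : ∃ s : Finset (X2 F), (∀ x ∈ s, deg2 x = k) ∧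
    ∀ x, deg2 x = k → ∃ x₀ ∈ s, ∃ γ ∈ Γ, RC.act (K2 F) γ x₀ = x := by
  obtain ⟨T, N₀, hN, hT, hNN⟩ := exists_quatLat ι
  obtain ⟨m, hm⟩ := zorn_tendsto (F := F) N₀ hN k
  refine ⟨(finite_intK (F := F) (k + 2 * (m * pp F))).toFinset.image (tw2 (m • PP F)).symm,
    fun x hx => ?_, fun x hx => ?_⟩
  · obtain ⟨x', hx', rfl⟩ := Finset.mem_image.1 hx
    have h1 := ((Set.Finite.mem_toFinset _).1 hx').1
    have h2 := deg2_tw2 (m • PP F) ((tw2 (m • PP F)).symm x')
    rw [Equiv.apply_symm_apply, h1, zorn_deg_nsmul] at h2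
    omega
  · obtain ⟨g, hg⟩ := (tw2 (m • PP F) x).mk_surj
    have hd : deg (idiv (GeneralLinearGroup.det g)) = k + 2 * (m * pp F) := by
      rw [← zorn_deg2_mk, hg, deg2_tw2, hx, zorn_deg_nsmul]
    have h1 : (1 : ℝ) < (hbox (T g)).card := by
      refine lt_of_lt_of_le ?_ (NN_le_card (T g))
      rw [hNN, hd]
      exact hm
    obtain ⟨y, hy, hy0⟩ := Finset.exists_mem_ne (by exact_mod_cast h1) (0 : Fin 4 → F)
    obtain ⟨γ, hγ, e⟩ := h.ex y hy0
    refine ⟨(tw2 (m • PP F)).symm (RC.mk (K2 F) (g * γ)), Finset.mem_image_of_mem _ ?_, γ, hγ, ?_⟩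
    · rw [Set.Finite.mem_toFinset, mk_mem_intK, h.zorn_deg_mul g hγ]
      refine ⟨hd, ?_⟩
      rw [Units.val_mul, e, ← zornFlat_mem, zornFlat_apply, ← hT]
      exact mem_hbox.1 hy
    · rw [← zorn_tw2_symm_act, RC.act_mk, mul_inv_cancel_right, hg, Equiv.symm_apply_apply]

/-- the number of elements of the group that move `x` into `I` -/
noncomputable def zornCnt (Γ : Subgroup (GL (Fin 2) (A F))) (I : Set (X2 F)) (x : X2 F) : ℝ≥0∞ :=
  ∑' γ : Γ, if RC.act (K2 F) (γ⁻¹ : Γ) x ∈ I then 1 else 0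

omit [Cv F] in
lemma zornCnt_act (I : Set (X2 F)) {δ : GL (Fin 2) (A F)} (hδ : δ ∈ Γ) (x : X2 F) :
    zornCnt Γ I (RC.act (K2 F) δ x) = zornCnt Γ I x := by
  unfold zornCnt
  rw [← (Equiv.mulLeft (⟨δ, hδ⟩ : Γ)).tsum_eq]
  refine tsum_congr fun γ => ?_
  rw [← Equiv.Perm.mul_apply, ← map_mul]
  simp

omit [Cv F] in
lemma zorn_sum {ρ : X2 F → ℝ≥0∞} (hρ : IsBru ((RC.act (K2 F)).comp Γ.subtype) ρ) {I : Set (X2 F)}
    (hI : I.Finite) : ∑' x, ρ x * zornCnt Γ I x = I.ncard := by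
  unfold zornCnt
  simp_rw [← ENNReal.tsum_mul_left]
  rw [ENNReal.tsum_comm]
  have h1 : ∀ γ : Γ, ∑' x, ρ x * (if RC.act (K2 F) (γ⁻¹ : Γ) x ∈ I then 1 else 0) =
      ∑' x, ρ (RC.act (K2 F) γ x) * (if x ∈ I then 1 else 0) := by
    intro γ
    rw [← (RC.act (K2 F) γ).tsum_eq]
    refine tsum_congr fun x => ?_
    rw [← Equiv.Perm.mul_apply, ← map_mul]
    simp
  simp_rw [h1]
  rw [ENNReal.tsum_comm]
  simp_rw [ENNReal.tsum_mul_right]
  have h2 : ∀ x, ∑' γ : Γ, ρ (RC.act (K2 F) γ x) = 1 := hρ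
  simp_rw [h2, one_mul]
  rw [tsum_eq_sum (s := hI.toFinset) fun x hx => if_neg fun h => hx (hI.mem_toFinset.2 h),
    Finset.sum_congr rfl fun x hx => if_pos (hI.mem_toFinset.1 hx), Set.ncard_eq_toFinset_card I hI]
  simp

lemma IsDiv.zornCnt_ne (h : IsDiv Γ ι) {k : ℤ} {x : X2 F} (hx : deg2 x ≠ k) :
    zornCnt Γ (intK F k) x = 0 := by
  unfold zornCnt
  rw [ENNReal.tsum_eq_zero]
  intro γ
  refine if_neg fun hI => hx ?_
  rw [← h.zorn_deg2_act (γ⁻¹).2 x]
  exact hI.1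

lemma zorn_dlg_injective {n : ℕ} : Function.Injective (dlg : (Fin n → F) → Fin n → A F) :=
  fun _ _ hab => funext fun i => toA_injective (congrFun hab i)

lemma IsDiv.zornCnt_mk (h : IsDiv Γ ι) {k : ℤ} {g : GL (Fin 2) (A F)}
    (hg : deg (idiv (GeneralLinearGroup.det g)) = k) (s : Finset (Fin 4 → F))
    (hs : ∀ y, y ∈ s ↔ ∀ i j, (g.1 * ι (dlg y)) i j ∈ Oh F) :
    zornCnt Γ (intK F k) (RC.mk (K2 F) g) = (s.erase 0).card := by
  have hf : ∀ y : Fin 4 → F, ∃ γ : Γ, y ≠ 0 → (γ : GL (Fin 2) (A F)).1 = ι (dlg y) := by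
    intro y
    by_cases hy : y = 0
    · exact ⟨1, fun h => (h hy).elim⟩
    · obtain ⟨γ, hγ, e⟩ := h.ex y hy
      exact ⟨⟨γ, hγ⟩, fun _ => e⟩
  choose f hf using hf
  have : Nontrivial (A F) := toA_injective.nontrivial
  have hiff : ∀ γ : Γ, RC.act (K2 F) (γ⁻¹ : Γ) (RC.mk (K2 F) g) ∈ intK F k ↔
      γ ∈ (s.erase 0).image f := by
    intro γ
    rw [RC.act_mk, Subgroup.coe_inv, inv_inv, mk_mem_intK, h.zorn_deg_mul g γ.2, Units.val_mul,
      Finset.mem_image]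
    constructor
    · rintro ⟨-, hi⟩
      obtain ⟨y, hy⟩ := h.mem γ γ.2
      have hy0 : y ≠ 0 := by
        rintro rfl
        have : dlg (0 : Fin 4 → F) = 0 := funext fun i => map_zero _
        rw [this, map_zero] at hy
        exact Units.ne_zero _ hy
      refine ⟨y, Finset.mem_erase.2 ⟨hy0, (hs y).2 (hy ▸ hi)⟩, ?_⟩
      exact Subtype.ext (Units.ext ((hf y hy0).trans hy.symm))
    · rintro ⟨y, hy, rfl⟩
      rw [hf y (Finset.mem_erase.1 hy).1]
      exact ⟨hg, (hs y).1 (Finset.mem_erase.1 hy).2⟩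
  unfold zornCnt
  simp_rw [hiff]
  rw [tsum_eq_sum (s := (s.erase 0).image f) fun x hx => if_neg hx,
    Finset.sum_congr rfl fun x hx => if_pos hx, Finset.sum_const, nsmul_eq_mul, mul_one,
    Finset.card_image_of_injOn]
  intro y hy y' hy' e
  have h1 := hf y (Finset.mem_erase.1 hy).1
  rw [e, hf y' (Finset.mem_erase.1 hy').1] at h1
  exact (zorn_dlg_injective (ι.injective h1)).symm

/-- Let `ρ` be a Bruhat function for `Γ` (`exists_bru`) and `H x` the sections.  Then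
`∑' x of degree k', ρ x * (card (H x) - 1) = ∑ x ∈ intK k', ∑' γ, ρ (γ x) = ncard (intK k')`.
For `k' = k + 2 m p` use the Bruhat function `ρ ∘ (tw2 (m P))⁻¹` and the finitely many orbits in
degree `k` (`IsBru.orbit`, `NN_spec`). -/
theorem IsDiv.ncard_eq (h : IsDiv Γ ι) (k : ℤ) : ∃ α β : ℝ, ∀ᶠ m : ℕ in atTop,
    ((intK F (k + 2 * (m * pp F))).ncard : ℝ) = α * (qq F ^ (4 * pp F)) ^ m - β := by
  obtain ⟨T, N₀, -, hT, hNN⟩ := exists_quatLat ι
  obtain ⟨ρ, hρ⟩ := exists_bru ((RC.act (K2 F)).comp Γ.subtype) h.finite_stab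
  obtain ⟨s, hs, hs'⟩ := h.finite_orbits k
  set μ : ℝ≥0∞ := ∑' x, if deg2 x = k then ρ x else 0 with hμ
  refine ⟨N₀ * qq F ^ (2 * k) * μ.toReal, μ.toReal, ?_⟩
  have hev : ∀ᶠ m : ℕ in atTop, ∀ x ∈ s, ((hbox (tw1 (T x.out) m)).card : ℝ) =
      NN (T x.out) * qq F ^ (4 * m * pp F) :=
    (Finset.eventually_all s).2 fun x _ => NN_spec (T x.out)
  filter_upwards [hev] with m hm
  set k' : ℤ := k + 2 * (m * pp F) with hk'
  set C : ℝ := N₀ * qq F ^ (2 * k) * (qq F ^ (4 * pp F)) ^ m - 1 with hC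
  have hρ' := hρ.comp_perm (tw2 (m • PP F)).symm fun g x => zorn_tw2_symm_act _ _ _
  have h1 := zorn_sum hρ' (finite_intK (F := F) k')
  rw [← (tw2 (m • PP F)).tsum_eq] at h1
  have h0 : ∀ x ∈ s, 0 ≤ C ∧
      zornCnt Γ (intK F k') (tw2 (m • PP F) x) = ENNReal.ofReal C := by
    intro x hx
    have hd : deg (idiv (GeneralLinearGroup.det x.out)) = k := hs x hx
    have hc : (((hbox (tw1 (T x.out) m)).erase 0).card : ℝ) = C := by
      rw [Finset.card_erase_of_mem (zero_mem_hbox _),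
        Nat.cast_sub (Finset.card_pos.2 ⟨0, zero_mem_hbox _⟩), hm x hx, hNN, hd, hC, ← pow_mul]
      congr 3
      · ring
      · exact Nat.cast_one
    refine ⟨hc ▸ Nat.cast_nonneg _, ?_⟩
    rw [← hc, ENNReal.ofReal_natCast]
    conv_lhs => rw [← x.mk_out, tw2_mk]
    refine h.zornCnt_mk ?_ _ fun y => ?_
    · rw [← zorn_deg2_mk, ← tw2_mk, deg2_tw2, RC.mk_out, hs x hx, zorn_deg_nsmul]
    · rw [mem_hbox, ← zornFlat_mem]
      have e : tw1 (T x.out) m (dlg y) =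
          zornFlat (A F) ((G.scM (piD (m • PP F)) * x.out).1 * ι (dlg y)) := by
        have e1 : (G.scM (piD (m • PP F)) * x.out).1 * ι (dlg y) =
            (piD (m • PP F) : A F) • (x.out.1 * ι (dlg y)) := by
          rw [Units.val_mul, mul_assoc]
          ext i j
          simp [G.scM, Matrix.GeneralLinearGroup.scalar, Matrix.scalar_apply]
        rw [e1, map_smul, zornFlat_apply, ← hT]
        funext i
        rw [tw1, LinearEquiv.trans_apply, wdg_apply, pow_one, Pi.smul_apply, smul_eq_mul]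
      rw [e]
  have h2 : ∀ x, ρ ((tw2 (m • PP F)).symm (tw2 (m • PP F) x)) *
      zornCnt Γ (intK F k') (tw2 (m • PP F) x) =
      ENNReal.ofReal C * if deg2 x = k then ρ x else 0 := by
    intro x
    rw [Equiv.symm_apply_apply]
    by_cases hx : deg2 x = k
    · obtain ⟨x₀, hx₀, γ, hγ, e⟩ := hs' x hx
      rw [if_pos hx, mul_comm]
      congr 1
      rw [← e, tw2_act, zornCnt_act _ hγ, (h0 x₀ hx₀).2]
    · rw [if_neg hx, mul_zero, h.zornCnt_ne, mul_zero]
      rw [deg2_tw2, zorn_deg_nsmul]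
      omega
  rw [tsum_congr h2, ENNReal.tsum_mul_left, ← hμ] at h1
  have h3 := congrArg ENNReal.toReal h1
  rw [ENNReal.toReal_mul, ENNReal.toReal_natCast] at h3
  rw [← h3]
  by_cases hne : s.Nonempty
  · obtain ⟨x, hx⟩ := hne
    rw [ENNReal.toReal_ofReal (h0 x hx).1, hC]
    ring
  · have : μ = 0 := by
      rw [hμ, ENNReal.tsum_eq_zero]
      intro x
      refine if_neg fun hx => ?_
      obtain ⟨x₀, hx₀, -⟩ := hs' x hx
      exact hne ⟨x₀, hx₀⟩
    simp [this]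

/-- `zorn_series` with `Q = q^dl`, `s = 2 p / dl`, `ee_eq`, `ncard_intK` -/
theorem IsDiv.false (h : IsDiv Γ ι) : False := by
  have hq : 0 < qq F := zero_lt_one.trans one_lt_qq
  have hd : 0 < dl F := dl_pos
  obtain ⟨t, ht⟩ : dl F ∣ pp F := by
    have := dl_dvd (PP F)
    rw [deg_PP] at this
    exact_mod_cast this
  have hp : 0 < pp F := dg_pos _
  have ht0 : 0 < t := Nat.pos_of_ne_zero fun h0 => by rw [h0] at ht; omega
  refine zorn_series (Q := qq F ^ dl F) (α := kapR F * qq F ^ cc F) (κ := kapR F)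
    (one_lt_pow₀ one_lt_qq hd.ne') (mul_pos kapR_pos (zpow_pos hq _)).ne' kapR_pos.ne'
    (fun n => (ee F (dl F * n) : ℝ)) (fun n => ((intK F (dl F * n)).ncard : ℝ)) ?_ ?_
    (s := 2 * t) (by omega) fun r _ => ?_
  · filter_upwards [eventually_ge_atTop (c0 F)] with n hn
    rw [ee_eq (dvd_mul_right _ _) (by exact_mod_cast hn.trans (Nat.le_mul_of_pos_left n hd)),
      zpow_add₀ hq.ne', ← pow_mul, ← zpow_natCast (qq F) (dl F * n), Nat.cast_mul]
    ring
  · exact fun n => ncard_intK n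
  · obtain ⟨α, β, hm⟩ := h.ncard_eq (dl F * r)
    refine ⟨α, β, hm.mono fun m hm => ?_⟩
    have e1 : (dl F : ℤ) * (r + m * (2 * t) : ℕ) = dl F * r + 2 * (m * pp F) := by
      rw [ht]
      push_cast
      ring
    have e2 : (qq F ^ dl F) ^ (2 * (2 * t)) = qq F ^ (4 * pp F) := by
      rw [← pow_mul, ht]
      congr 1
      ring
    rw [e1, e2]
    exact hm

lemma zorn_isotropic_mul {K : Type} [Field K] {lam : K} (hl : lam ≠ 0) (a : Fin 6 → K) :
    Isotropic (fun i => lam * a i) ↔ Isotropic a := by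
  refine exists_congr fun c => and_congr_right fun _ => ?_
  have : tern (fun i => lam * a i) c = lam * tern a c := by
    simp only [tern]
    ring
  rw [this, mul_eq_zero, or_iff_right hl]

theorem hasseConic : HasseConic F := by
  intro a δ hδ h hloc
  by_contra hi
  obtain ⟨c, b, lam, T, hT, hl, hb, hc, e⟩ := exists_norm_form (h ▸ pow_ne_zero 2 hδ) hi
  have hi' : ¬Isotropic (nf c b) := fun h' =>
    hi ((isotropic_tcomp a hT).1 (e ▸ (zorn_isotropic_mul hl _).2 h'))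
  obtain ⟨u₀, u₁, hu⟩ := exists_adelic_norm (b := b) hc fun v => by
    have hT' : (T.map (algebraMap F v.Compl)).det ≠ 0 := by
      rw [← RingHom.mapMatrix_apply, ← RingHom.map_det]
      exact (map_ne_zero _).2 hT
    have h1 := (isotropic_tcomp _ hT').2 (hloc v)
    rw [tcomp_map, e] at h1
    simp only [map_mul] at h1
    exact (zorn_isotropic_mul ((map_ne_zero _).2 hl) _).1 h1
  obtain ⟨Γ, ι, hΓ⟩ := exists_isDiv hc hb hi' hu
  exact hΓ.false

end SelAvg.FF
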