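import Pool.Agent.H81Sel.Fin1

/-! Row FIN2: the ratio for one divisor class. -/

namespace SelAvg.FF

open WeierstrassCurve WithZero Filter Topology
open scoped Classical

variable {F : Type} [Field F] [Cv F]

lemma fin2_zt_pos : 0 < zt F := zero_lt_one.trans_le one_le_zt

lemma fin2_tau (C : ℝ) {a : ℝ} (ha : 0 < a) : ∀ᶠ N : ℕ in atTop, C * tau F N ≤ a := by
  have h := (tendsto_tau (F := F)).const_mul C
  rw [mul_zero] at h
  exact h.eventually (eventually_le_nhds ha)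

/-- `le_TD`, `le_delta`, `tendsto_tau` -/
theorem TD_ge (R : Div F) : ∀ᶠ m : ℕ in atTop, (1 / zt F) ^ 5 ≤ TD (R + m • PP F) := by
  obtain ⟨C, -, hC⟩ := le_TD (F := F)
  have ha : 0 < (1 / zt F) ^ 5 / 2 := half_pos (pow_pos (one_div_pos.2 fin2_zt_pos) _)
  obtain ⟨N, hN⟩ := (fin2_tau (F := F) C ha).exists
  filter_upwards [hC N le_rfl ha R] with m hm
  have := le_delta (plLE F N) 2
  linarith

/-- Choose `N` with `cS (plLE F N) * ζ` close to `1` and `tau F N` small, then `j` from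
`exists_level`.  `SD ≤ 2 ζ (2 cS δ + 2 ε₁ + η) + ε₂` (`SD_eventually_le`, `Uup_le`) with
`0 ≤ δ ≤ 1`, and `2 TD ≥ 4 δ - 2 C tau - 2 η` (`le_TD`). -/
theorem SD_sub_le (R : Div F) {ε : ℝ} (hε : 0 < ε) :
    ∀ᶠ m : ℕ in atTop, SD (R + m • PP F) - 2 * TD (R + m • PP F) ≤ ε := by
  obtain ⟨C, -, hC⟩ := le_TD (F := F)
  have hz : 0 < zt F := fin2_zt_pos
  have ha : 0 < ε / 16 := by positivity
  have hb : 0 < ε / 16 / zt F := div_pos ha hz
  have h1 : ∀ᶠ N : ℕ in atTop, cS (plLE F N) * zt F ≤ 1 + ε / 16 :=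
    (tendsto_cS_mul_zt (F := F)).eventually (eventually_le_nhds (lt_add_of_pos_right _ ha))
  obtain ⟨N, hN1, hN2⟩ := (h1.and (fin2_tau (F := F) C ha)).exists
  obtain ⟨j, hj, hL⟩ := exists_level (plLE F N) hb
  have hd0 := delta_nonneg (plLE F N) j
  have hd1 := delta_le_one (plLE F N) j
  have hc0 := cS_nonneg (plLE F N)
  have hL0 : 0 ≤ 2 * (cS (plLE F N) * delta (plLE F N) j) + 2 * (ε / 16 / zt F) +
      ε / 16 / zt F := by positivity
  filter_upwards [SD_eventually_le R (plLE F N) hL0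
    (fun B Z η => Uup_le (plLE F N) hj hb hL B Z η R) ha, hC N hj ha R] with m hm hm'
  have e : 2 * zt F * (2 * (cS (plLE F N) * delta (plLE F N) j) + 2 * (ε / 16 / zt F) +
      ε / 16 / zt F) = 4 * (cS (plLE F N) * zt F * delta (plLE F N) j) + 6 * (ε / 16) := by
    field_simp
    ring
  have h2 : cS (plLE F N) * zt F * delta (plLE F N) j ≤ (1 + ε / 16) * delta (plLE F N) j :=
    mul_le_mul_of_nonneg_right hN1 hd0
  have h3 : ε / 16 * delta (plLE F N) j ≤ ε / 16 := mul_le_of_le_one_right ha.le hd1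
  rw [e] at hm
  linarith

/-- `SD_eventually_ge`, `le_Ulow`, `TD_le`, `one_le_cS_mul_zt` -/
theorem le_SD_sub (R : Div F) {ε : ℝ} (hε : 0 < ε) :
    ∀ᶠ m : ℕ in atTop, -ε ≤ SD (R + m • PP F) - 2 * TD (R + m • PP F) := by
  have hz : 0 < zt F := fin2_zt_pos
  have ha : 0 < ε / 32 := by positivity
  have hb : 0 < ε / 32 / zt F := div_pos ha hz
  obtain ⟨N, hN⟩ := (fin2_tau (F := F) (zt F) ha).exists
  have hCS := CS_pos (plLE F N)
  obtain ⟨j, hj, hL⟩ := exists_level (plLE F N) (div_pos hb hCS)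
  have hd0 := delta_nonneg (plLE F N) j
  filter_upwards [SD_eventually_ge R (plLE F N)
    (fun B Z η => le_Ulow N hj hb hL B Z η R) ha, TD_le (plLE F N) hj ha R] with m hm hm'
  have e : 2 * zt F * (2 * (cS (plLE F N) * delta (plLE F N) j) -
      2 * CS (plLE F N) * (ε / 32 / zt F / CS (plLE F N)) - 8 * tau F N - ε / 32 / zt F) =
      4 * (cS (plLE F N) * zt F * delta (plLE F N) j) - 16 * (zt F * tau F N) - 6 * (ε / 32) := by
    field_simp
    ring
  have h2 : delta (plLE F N) j ≤ cS (plLE F N) * zt F * delta (plLE F N) j :=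
    le_mul_of_one_le_left hd0 (one_le_cS_mul_zt _)
  rw [e] at hm
  linarith

theorem abs_SD_sub_le (R : Div F) {ε : ℝ} (hε : 0 < ε) : ∀ᶠ m : ℕ in atTop,
    |SD (R + m • PP F) - 2 * TD (R + m • PP F)| ≤ ε * TD (R + m • PP F) := by
  have ha : 0 < ε * (1 / zt F) ^ 5 := mul_pos hε (pow_pos (one_div_pos.2 fin2_zt_pos) _)
  filter_upwards [TD_ge R, SD_sub_le R ha, le_SD_sub R ha] with m h1 h2 h3
  exact (abs_le.2 ⟨h3, h2⟩).trans (mul_le_mul_of_nonneg_left h1 hε.le)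

end SelAvg.FF
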