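import Pool.Agent.H81Sel.Dv

/-! Row AD: adeles, ideles, strong approximation, residue rings. -/

namespace SelAvg.FF

open WeierstrassCurve WithZero Filter Topology
open scoped Classical

variable {F : Type} [Field F]

lemma A_ext {a b : A F} (h : ∀ v, pr v a = pr v b) : a = b := Subtype.ext (funext h)

lemma ad_vc_pi (v : Place F) (n : ℤ) : v.vc (v.loc.ϖ ^ n) = exp (-n) := by
  have h : v.vc v.loc.ϖ = exp (-1) := v.loc.v_ϖ
  rw [map_zpow₀, h, ← exp_zsmul]
  simp

lemma AD_mono {D E : Div F} (h : D ≤ E) : AD D ≤ AD E :=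
  fun _ ha v => (ha v).trans (exp_le_exp.2 (h v))

lemma mul_mem_AD {D E : Div F} {a b : A F} (ha : a ∈ AD D) (hb : b ∈ AD E) :
    a * b ∈ AD (D + E) := fun v => by
  rw [map_mul, map_mul, Finsupp.add_apply, exp_add]
  exact mul_le_mul' (ha v) (hb v)

lemma mem_AD_zero {a : A F} : a ∈ AD (0 : Div F) ↔ a ∈ Oh F := by
  simp [mem_AD, mem_Oh]

lemma ad_le_exp_log (x : ℤᵐ⁰) : x ≤ exp (log x) := by
  by_cases h : x = 0
  · rw [h]; exact zero_le
  · rw [exp_log h]

lemma ad_exists_one (a : A F) : ∃ B : Div F, 0 ≤ B ∧ a ∈ AD B := by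
  have hf : (Function.support fun v : Place F => max 0 (log (v.vc (pr v a)))).Finite := by
    refine (mem_Ad.1 a.2).subset fun v hv h => hv ?_
    have h' : v.vc (pr v a) ≤ 1 := h
    refine max_eq_left ?_
    by_cases h0 : v.vc (pr v a) = 0
    · rw [h0, log_zero]
    · rwa [← exp_log h0, ← exp_zero, exp_le_exp] at h'
  refine ⟨Finsupp.ofSupportFinite _ hf, fun v => le_max_left _ _, fun v => ?_⟩
  exact (ad_le_exp_log _).trans (exp_le_exp.2 (le_max_right _ _))

lemma exists_mem_AD {ι : Type} [Finite ι] (a : ι → A F) : ∃ B : Div F, 0 ≤ B ∧ ∀ i, a i ∈ AD B := by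
  have := Fintype.ofFinite ι
  choose B hB using fun i => ad_exists_one (a i)
  refine ⟨∑ i, B i, Finset.sum_nonneg fun i _ => (hB i).1, fun i => AD_mono ?_ (hB i).2⟩
  exact Finset.single_le_sum (f := B) (fun i _ => (hB i).1) (Finset.mem_univ i)

lemma vc_unit (u : (A F)ˣ) (v : Place F) : v.vc (pr v (u : A F)) = exp (-idiv u v) := by
  have h : v.vc (pr v (u : A F)) ≠ 0 := ((u.isUnit.map (pr v)).map v.vc).ne_zero
  rw [idiv_apply, neg_neg, exp_log h]

lemma idiv_mul (u u' : (A F)ˣ) : idiv (u * u') = idiv u + idiv u' := by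
  ext v
  have h := vc_unit (u * u') v
  rw [Units.val_mul, map_mul, map_mul, vc_unit, vc_unit, ← exp_add, exp_inj] at h
  rw [Finsupp.add_apply]
  omega

@[simp] lemma idiv_one : idiv (1 : (A F)ˣ) = 0 := by
  ext v
  simp [idiv_apply]

@[simp] lemma idiv_inv (u : (A F)ˣ) : idiv u⁻¹ = -idiv u := by
  have h := idiv_mul u u⁻¹
  rw [mul_inv_cancel, idiv_one] at h
  exact eq_neg_of_add_eq_zero_right h.symm

lemma idiv_pow (u : (A F)ˣ) (n : ℕ) : idiv (u ^ n) = n • idiv u := by
  induction n with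
  | zero => simp
  | succ n ih => rw [pow_succ, idiv_mul, ih, succ_nsmul]

@[simp] lemma idiv_piD (D : Div F) : idiv (piD D) = D := by
  ext v
  rw [idiv_apply, pr_piD, ad_vc_pi, log_exp, neg_neg]

lemma piD_add (D E : Div F) : piD (D + E) = piD D * piD E := by
  refine Units.ext (A_ext fun v => ?_)
  rw [Units.val_mul, map_mul, pr_piD, pr_piD, pr_piD, Finsupp.add_apply,
    zpow_add₀ (loc_unif_ne_zero v)]

@[simp] lemma piD_zero : piD (0 : Div F) = 1 := by
  refine Units.ext (A_ext fun v => ?_)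
  rw [pr_piD, Finsupp.zero_apply, zpow_zero, Units.val_one, map_one]

lemma piD_neg (D : Div F) : piD (-D) = (piD D)⁻¹ := by
  refine eq_inv_of_mul_eq_one_right ?_
  rw [← piD_add, add_neg_cancel, piD_zero]

lemma piD_nsmul (D : Div F) (n : ℕ) : piD (n • D) = piD D ^ n := by
  induction n with
  | zero => simp
  | succ n ih => rw [succ_nsmul, piD_add, ih, pow_succ]

lemma ad_unit_mem (u : (A F)ˣ) : (u : A F) ∈ AD (-idiv u) := fun v => by
  rw [vc_unit, Finsupp.neg_apply]

lemma unit_mul_mem_AD (u : (A F)ˣ) {D : Div F} {a : A F} :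
    (u : A F) * a ∈ AD D ↔ a ∈ AD (D + idiv u) := by
  constructor
  · intro h
    have h1 := mul_mem_AD h (ad_unit_mem u⁻¹)
    rwa [idiv_inv, neg_neg, mul_right_comm, Units.mul_inv, one_mul] at h1
  · intro h
    have h1 := mul_mem_AD (ad_unit_mem u) h
    rwa [add_comm D, neg_add_cancel_left] at h1

lemma unit_mem_AD (u : (A F)ˣ) : (u : A F) ∈ AD (-idiv u) := ad_unit_mem u

lemma unit_mem_Oh (u : (A F)ˣ) : (u : A F) ∈ Oh F ↔ 0 ≤ idiv u := by
  rw [mem_Oh, Finsupp.le_def]
  refine forall_congr' fun v => ?_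
  rw [vc_unit, ← exp_zero, exp_le_exp, Finsupp.zero_apply, neg_nonpos]

lemma idiv_eq_zero_iff (u : (A F)ˣ) :
    idiv u = 0 ↔ ∃ e : (Oh F)ˣ, Units.map ((Oh F).subtype : Oh F →* A F) e = u := by
  constructor
  · intro h
    have h1 : (u : A F) ∈ Oh F := (unit_mem_Oh u).2 h.ge
    have h2 : ((u⁻¹ : (A F)ˣ) : A F) ∈ Oh F := (unit_mem_Oh u⁻¹).2 (by rw [idiv_inv, h, neg_zero])
    exact ⟨⟨⟨_, h1⟩, ⟨_, h2⟩, Subtype.ext u.mul_inv, Subtype.ext u.inv_mul⟩, Units.ext rfl⟩
  · rintro ⟨e, rfl⟩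
    have h1 := (unit_mem_Oh (Units.map ((Oh F).subtype : Oh F →* A F) e)).1 (e : Oh F).2
    have h2 := (unit_mem_Oh (Units.map ((Oh F).subtype : Oh F →* A F) e)⁻¹).1
      ((e⁻¹ : (Oh F)ˣ) : Oh F).2
    rw [idiv_inv, neg_nonneg] at h2
    exact le_antisymm h2 h1

/-- an adele whose components are nonzero and almost all units is an idele -/
lemma isUnit_of_forall {a : A F} (h : ∀ v, pr v a ≠ 0) (h' : ∀ᶠ v : Place F in cofinite, v.vc (pr v a) = 1) :
    IsUnit a := by
  have hb : (fun v => (pr v a)⁻¹) ∈ Ad F :=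
    mem_Ad.2 (h'.mono fun v hv => by rw [map_inv₀, hv, inv_one])
  refine IsUnit.of_mul_eq_one (⟨_, hb⟩ : A F) (A_ext fun v => ?_)
  rw [map_mul, map_one]
  exact mul_inv_cancel₀ (h v)

lemma exists_adele (a : ∀ v : Place F, v.Compl) (h : ∀ᶠ v : Place F in cofinite, v.vc (a v) ≤ 1) :
    ∃ b : A F, ∀ v, pr v b = a v := ⟨⟨a, mem_Ad.2 h⟩, fun _ => rfl⟩

lemma exists_Oh (a : ∀ v : Place F, v.loc.O) : ∃ b : Oh F, ∀ v, prO v b = a v :=
  ⟨⟨⟨fun v => (a v : v.Compl), mem_Ad.2 (Eventually.of_forall fun v => (a v).2)⟩,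
    fun v => (a v).2⟩, fun _ => rfl⟩

lemma Oh_ext {a b : Oh F} (h : ∀ v, prO v a = prO v b) : a = b :=
  Subtype.ext (A_ext fun v => congrArg Subtype.val (h v))

lemma isUnit_Oh_iff (a : Oh F) : IsUnit a ↔ ∀ v, IsUnit (prO v a) := by
  refine ⟨fun h v => h.map _, fun h => ?_⟩
  choose c hc using fun v => (h v).exists_right_inv
  obtain ⟨b, hb⟩ := exists_Oh c
  refine IsUnit.of_mul_eq_one b (Oh_ext fun v => ?_)
  rw [map_mul, map_one, hb, hc]

lemma incl_prO (v : Place F) (a : Oh F) : v.loc.incl (prO v a) = pr v a := rfl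

lemma incl_comp_prO (v : Place F) : v.loc.incl.comp (prO v) = (pr v).comp (Oh F).subtype := rfl

lemma cO_coe (v : Place F) (a : Oh F) : cO v (a : A F) = prO v a := by
  unfold cO
  rw [dif_pos (a.2 v)]
  rfl

lemma incl_cO (v : Place F) {a : A F} (h : v.vc (pr v a) ≤ 1) : v.loc.incl (cO v a) = pr v a := by
  unfold cO
  rw [dif_pos h]
  rfl

lemma redv_isRed (v : Place F) (M : ℕ) : v.loc.IsRed (redv v M) M := v.loc.exists_isRed M

lemma resv_isRed (v : Place F) : v.loc.IsRed (resv v) 1 := v.loc.locDisc_isRed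

lemma thv_isResidue (v : Place F) (j : ℕ) : IsResidue (thv v j) := by
  have e : ∀ y, thv v j (redv v (2 * (j + 1)) y) = resv v y := fun _ => rfl
  constructor
  · intro z
    obtain ⟨y, rfl⟩ := (resv_isRed v).surj z
    exact ⟨_, e y⟩
  · intro x
    refine ⟨fun h => (h.map (thv v j)).ne_zero, fun h => ?_⟩
    obtain ⟨y, rfl⟩ := (redv_isRed v (2 * (j + 1))).surj x
    rw [e] at h
    exact (((resv_isRed v).isUnit_iff y).2 h).map _

variable [Cv F]

lemma toA_injective : Function.Injective (toA F) := fun _ _ h =>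
  (algebraMap F (Cv.P : Place F).Compl).injective (congrArg (pr (Cv.P : Place F)) h)

lemma pr_comp_toA (v : Place F) : (pr v).comp (toA F) = algebraMap F v.Compl := rfl

lemma vc_pr_toA (v : Place F) (x : F) : v.vc (pr v (toA F x)) = v.1 x :=
  v.vc_algebraMap x

lemma toA_mem_AD {D : Div F} {x : F} : toA F x ∈ AD D ↔ x ∈ LL D := by
  simp only [mem_AD, mem_LL, vc_pr_toA]

@[simp] lemma idiv_uA (u : Fˣ) : idiv (uA u) = dv (u : F) := by
  ext v
  have h : v.vc (pr v ((uA u : (A F)ˣ) : A F)) = v.1 (u : F) := vc_pr_toA v u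
  rw [idiv_apply, h, dv_apply, ord]

omit [Cv F] in
/-- the inclusion of valuation rings -/
noncomputable def ad_j (v : Place F) : v.1.valuationSubring →+* v.loc.O :=
  ((algebraMap F v.Compl).comp v.1.valuationSubring.subtype).codRestrict
    v.loc.v.valuationSubring fun x => by
      rw [Valuation.mem_valuationSubring_iff, RingHom.comp_apply, Place.loc_v]
      exact x.2

omit [Cv F] in
lemma ad_j_v (v : Place F) (x : v.1.valuationSubring) :
    v.loc.v (ad_j v x : v.Compl) = v.1 (x : F) := v.loc_v x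

omit [Cv F] in
lemma ad_j_ker (v : Place F) (x : v.1.valuationSubring)
    (hx : x ∈ IsLocalRing.maximalIdeal v.1.valuationSubring) : (resv v).comp (ad_j v) x = 0 := by
  rw [RingHom.comp_apply, (resv_isRed v).red_eq_zero, ad_j_v]
  exact (Valuation.mem_maximalIdeal_iff F v.1).1 hx

omit [Cv F] in
lemma ad_j_surj (v : Place F) : Function.Surjective ((resv v).comp (ad_j v)) := by
  intro z
  obtain ⟨y, rfl⟩ := (resv_isRed v).surj z
  obtain ⟨x, hx⟩ := v.dense (y : v.Compl) 1
  have h1 : v.vc ((y : v.Compl) - algebraMap F v.Compl x) ≤ 1 :=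
    hx.trans (by rw [← exp_zero, exp_le_exp]; norm_num)
  have hx1 : v.1 x ≤ 1 := by
    have e : algebraMap F v.Compl x = y - (y - algebraMap F v.Compl x) := by ring
    rw [← v.vc_algebraMap, e]
    exact v.vc.map_sub_le y.2 h1
  refine ⟨⟨x, hx1⟩, ?_⟩
  rw [RingHom.comp_apply, eq_comm, (resv_isRed v).eq_iff]
  exact hx

lemma ad_res_aux {R κ : Type} [CommRing R] [IsLocalRing R] [Field κ] (f : R →+* κ)
    (hk : ∀ x ∈ IsLocalRing.maximalIdeal R, f x = 0) (hs : Function.Surjective f) :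
    ∃ φ : IsLocalRing.ResidueField R → κ, Function.Bijective φ := by
  let φ : IsLocalRing.ResidueField R →+* κ := Ideal.Quotient.lift _ f hk
  refine ⟨φ, φ.injective, fun z => ?_⟩
  obtain ⟨x, rfl⟩ := hs z
  exact ⟨IsLocalRing.residue R x, rfl⟩

omit [Cv F] in
lemma ad_res_bij (v : Place F) :
    ∃ φ : IsLocalRing.ResidueField v.1.valuationSubring → kv v, Function.Bijective φ :=
  ad_res_aux _ (ad_j_ker v) (ad_j_surj v)

/-- the residue field of `F` at `v` maps isomorphically to the residue field of the completion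
(`Place.dense`) -/
theorem card_kv (v : Place F) : Finite (kv v) ∧ Nat.card (kv v) = Cv.q F ^ dg v := by
  have := Cv.res_fin v
  obtain ⟨φ, hφ⟩ := ad_res_bij v
  exact ⟨Finite.of_surjective φ hφ.2, by
    rw [← Nat.card_eq_of_bijective φ hφ]; exact Cv.q_eq v⟩

instance (v : Place F) : Finite (kv v) := (card_kv v).1

noncomputable instance (v : Place F) : Fintype (kv v) := Fintype.ofFinite _

instance (v : Place F) (M : ℕ) : Finite (Rv v M) :=
  (LocalField.IsRed.card (resv_isRed v) (redv_isRed v M)).1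

noncomputable instance (v : Place F) (M : ℕ) : Fintype (Rv v M) := Fintype.ofFinite _

lemma card_kv_real (v : Place F) : (Fintype.card (kv v) : ℝ) = qq F ^ dg v := by
  rw [← Nat.card_eq_fintype_card, (card_kv v).2]
  push_cast
  rfl

lemma card_Rv (v : Place F) (M : ℕ) : Fintype.card (Rv v M) = Fintype.card (kv v) ^ M := by
  rw [← Nat.card_eq_fintype_card, ← Nat.card_eq_fintype_card]
  exact (LocalField.IsRed.card (resv_isRed v) (redv_isRed v M)).2

omit [Cv F] in
/-- the leading part at `v` of an adele in `A(E)` -/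
noncomputable def ad_lead (E : Div F) (v : Place F) : AD E →+ v.loc.O where
  toFun a := ⟨v.loc.ϖ ^ E v * pr v (a : A F), by
    change v.vc _ ≤ 1
    rw [map_mul, ad_vc_pi, ← exp_zero, ← neg_add_cancel (E v), exp_add]
    exact mul_le_mul_right (a.2 v) _⟩
  map_zero' := Subtype.ext (by simp)
  map_add' a b := Subtype.ext (by simp [mul_add])

omit [Cv F] in
lemma ad_lead_v (E : Div F) (v : Place F) (a : AD E) :
    v.loc.v (ad_lead E v a : v.Compl) = exp (-E v) * v.vc (pr v (a : A F)) := by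
  change v.vc (v.loc.ϖ ^ E v * pr v (a : A F)) = _
  rw [map_mul, ad_vc_pi]

omit [Cv F] in
lemma ad_lead_surj (E : Div F) (v : Place F) : Function.Surjective (ad_lead E v) := by
  intro y
  have hfin : ∀ᶠ w : Place F in cofinite, w ≠ v := eventually_cofinite_ne v
  obtain ⟨b, hb⟩ := exists_adele
    (Pi.single v (v.loc.ϖ ^ (-E v) * (y : v.Compl)) : ∀ w : Place F, w.Compl)
    (hfin.mono fun w hw => by rw [Pi.single_eq_of_ne hw, map_zero]; exact zero_le)
  have hE : b ∈ AD E := fun w => by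
    rw [hb]
    by_cases hw : w = v
    · subst hw
      rw [Pi.single_eq_same, map_mul, ad_vc_pi, neg_neg]
      exact mul_le_of_le_one_right' y.2
    · rw [Pi.single_eq_of_ne hw, map_zero]; exact zero_le
  refine ⟨⟨b, hE⟩, Subtype.ext ?_⟩
  change v.loc.ϖ ^ E v * pr v b = y
  rw [hb, Pi.single_eq_same, ← mul_assoc, ← zpow_add₀ (loc_unif_ne_zero v), add_neg_cancel,
    zpow_zero, one_mul]

lemma ad_relIndex_single (D : Div F) (v : Place F) (M : ℕ) :
    (AD D).relIndex (AD (D + Finsupp.single v (M : ℤ))) = (Cv.q F ^ dg v) ^ M := by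
  set E : Div F := D + Finsupp.single v (M : ℤ) with hE
  have hv : E v = D v + M := by rw [hE, Finsupp.add_apply, Finsupp.single_eq_same]
  let φ : AD E →+ Rv v M := (redv v M).toAddMonoidHom.comp (ad_lead E v)
  have hs : Function.Surjective φ := (redv_isRed v M).surj.comp (ad_lead_surj E v)
  have hk : (AD D).addSubgroupOf (AD E) = φ.ker := by
    ext a
    rw [AddSubgroup.mem_addSubgroupOf, AddMonoidHom.mem_ker]
    change _ ↔ redv v M (ad_lead E v a) = 0
    have e : (exp (-(M : ℤ)) : ℤᵐ⁰) = exp (-E v) * exp (D v) := by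
      rw [← exp_add, hv]; congr 1; ring
    rw [(redv_isRed v M).ker, ad_lead_v, e, mul_le_mul_iff_right₀ exp_pos]
    refine ⟨fun h => h v, fun h w => ?_⟩
    by_cases hw : w = v
    · subst hw; exact h
    · have e' : E w = D w := by
        rw [hE, Finsupp.add_apply, Finsupp.single_eq_of_ne hw, add_zero]
      rw [← e']
      exact a.2 w
  rw [AddSubgroup.relIndex, hk, AddSubgroup.index_ker, AddMonoidHom.range_eq_top.2 hs,
    AddSubgroup.card_top, (LocalField.IsRed.card (resv_isRed v) (redv_isRed v M)).2, (card_kv v).2]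

lemma ad_relIndex_add (Z : Div F) : 0 ≤ Z → ∀ D : Div F,
    ((AD D).relIndex (AD (D + Z)) : ℝ) = qq F ^ deg Z := by
  induction Z using Finsupp.induction with
  | zero => intro _ D; simp
  | single_add v m f hv _ ih =>
    intro h D
    have hf : f v = 0 := Finsupp.notMem_support_iff.1 hv
    have hm : 0 ≤ m := by
      have h1 := h v
      simpa [hf] using h1
    have hf0 : 0 ≤ f := fun w => by
      by_cases hw : w = v
      · subst hw; simp [hf]
      · have h1 := h w
        simpa [Finsupp.single_eq_of_ne hw] using h1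
    obtain ⟨M, rfl⟩ := Int.eq_ofNat_of_zero_le hm
    have h1 : D ≤ D + Finsupp.single v (M : ℤ) :=
      le_add_of_nonneg_right (Finsupp.single_nonneg.2 hm)
    have h2 : D + Finsupp.single v (M : ℤ) ≤ D + Finsupp.single v (M : ℤ) + f :=
      le_add_of_nonneg_right hf0
    have hq : qq F ≠ 0 := (zero_lt_one.trans one_lt_qq).ne'
    rw [← add_assoc, ← AddSubgroup.relIndex_mul_relIndex _ _ _ (AD_mono h1) (AD_mono h2),
      Nat.cast_mul, ih hf0, ad_relIndex_single, map_add, deg_single, zpow_add₀ hq, ← pow_mul,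
      ← Nat.cast_mul, zpow_natCast, mul_comm M, Nat.cast_pow]

/-- the index of `A(D)` in `A(E)` -/
theorem ad_relIndex {D E : Div F} (h : D ≤ E) :
    ((AD D).relIndex (AD E) : ℝ) = qq F ^ (deg E - deg D) := by
  have h1 := ad_relIndex_add (E - D) (sub_nonneg.2 h) D
  rwa [add_sub_cancel, map_sub] at h1

/-- The index of `A(D)` in `A(E)`.  The additive map `a ↦ (ϖ^E a mod ϖ^(E - D))_v` to the product
of the `Rv v (E v - D v)` over the support of `E - D` is onto with kernel `A(D)`; take a section. -/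
theorem exists_transversal {D E : Div F} (h : D ≤ E) : ∃ s : Finset (A F),
    (s.card : ℝ) = qq F ^ (deg E - deg D) ∧ (∀ b ∈ s, b ∈ AD E) ∧
      ∀ a ∈ AD E, ∃! b, b ∈ s ∧ a - b ∈ AD D := by
  have hi := ad_relIndex h
  have hq : (0 : ℝ) < qq F := zero_lt_one.trans one_lt_qq
  have hne : ((AD D).addSubgroupOf (AD E)).index ≠ 0 := by
    intro h0
    have h1 : (AD D).relIndex (AD E) = 0 := h0
    rw [h1, Nat.cast_zero] at hi
    exact (zpow_pos hq _).ne hi
  have : Finite (AD E ⧸ (AD D).addSubgroupOf (AD E)) := Nat.finite_of_card_ne_zero hne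
  have := Fintype.ofFinite (AD E ⧸ (AD D).addSubgroupOf (AD E))
  have hinj : Function.Injective
      fun c : AD E ⧸ (AD D).addSubgroupOf (AD E) => ((c.out : AD E) : A F) :=
    Subtype.val_injective.comp Quotient.out_injective
  have key : ∀ (a : AD E) (c : AD E ⧸ (AD D).addSubgroupOf (AD E)),
      (a : A F) - ((c.out : AD E) : A F) ∈ AD D ↔ c = QuotientAddGroup.mk a := by
    intro a c
    conv_rhs => rw [← QuotientAddGroup.out_eq' c]
    rw [QuotientAddGroup.eq, AddSubgroup.mem_addSubgroupOf, neg_add_eq_sub]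
    rfl
  refine ⟨Finset.univ.image fun c : AD E ⧸ (AD D).addSubgroupOf (AD E) => ((c.out : AD E) : A F),
    ?_, ?_, fun a ha => ?_⟩
  · rw [Finset.card_image_of_injective _ hinj, Finset.card_univ, ← Nat.card_eq_fintype_card]
    exact hi
  · intro b hb
    obtain ⟨c, -, rfl⟩ := Finset.mem_image.1 hb
    exact c.out.2
  · refine ⟨_, ⟨Finset.mem_image_of_mem _ (Finset.mem_univ (QuotientAddGroup.mk ⟨a, ha⟩)),
      (key ⟨a, ha⟩ _).2 rfl⟩, ?_⟩
    rintro b ⟨hb, hb'⟩
    obtain ⟨c, -, rfl⟩ := Finset.mem_image.1 hb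
    rw [(key ⟨a, ha⟩ c).1 hb']

/-- Strong approximation.  Let `E ≥ D` with `a ∈ A(E)`.  The map from `L(E) / L(D)` to the
transversal of `A(D)` in `A(E)` is injective and both sets have `q^(deg E - deg D)` elements. -/
theorem approx {D : Div F} (h : (c0 F : ℤ) ≤ deg D) (a : A F) : ∃ x : F, toA F x - a ∈ AD D := by
  obtain ⟨B, -, hB⟩ := ad_exists_one a
  set E : Div F := D ⊔ B
  have hDE : D ≤ E := le_sup_left
  have ha : a ∈ AD E := AD_mono le_sup_right hB
  have hq : (0 : ℝ) < qq F := zero_lt_one.trans one_lt_qq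
  have hi := ad_relIndex hDE
  have hne : ((AD D).addSubgroupOf (AD E)).index ≠ 0 := by
    intro h0
    have h1 : (AD D).relIndex (AD E) = 0 := h0
    rw [h1, Nat.cast_zero] at hi
    exact (zpow_pos hq _).ne hi
  have : Finite (AD E ⧸ (AD D).addSubgroupOf (AD E)) := Nat.finite_of_card_ne_zero hne
  let ι : LL E →+ AD E :=
    ((toA F).toAddMonoidHom.comp (LL E).subtype).codRestrict _ fun x => toA_mem_AD.2 x.2
  let ψ := (QuotientAddGroup.mk' ((AD D).addSubgroupOf (AD E))).comp ι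
  have hk : ψ.ker = (LL D).addSubgroupOf (LL E) := by
    ext x
    rw [AddMonoidHom.mem_ker, AddSubgroup.mem_addSubgroupOf, ← toA_mem_AD]
    exact QuotientAddGroup.eq_zero_iff _
  have c1 : (Nat.card (LL D) : ℝ) = qq F ^ (deg D + cc F) := Cv.rr D h
  have c2 : (Nat.card (LL E) : ℝ) = qq F ^ (deg E + cc F) := Cv.rr E (h.trans (deg_mono hDE))
  have c3 : Nat.card (LL D) * Nat.card ψ.range = Nat.card (LL E) := by
    rw [← AddSubgroup.index_ker, ← AddSubgroup.card_mul_index ψ.ker, hk,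
      Nat.card_congr (AddSubgroup.addSubgroupOfEquivOfLe (LL_mono hDE)).toEquiv]
  have c4 : Nat.card ψ.range = Nat.card (AD E ⧸ (AD D).addSubgroupOf (AD E)) := by
    have c5 : qq F ^ (deg D + cc F) * (Nat.card ψ.range : ℝ) =
        qq F ^ (deg D + cc F) * ((AD D).relIndex (AD E) : ℝ) := by
      rw [hi, ← zpow_add₀ hq.ne', ← c1, ← Nat.cast_mul, c3, c2]
      congr 1
      ring
    exact Nat.cast_injective (mul_left_cancel₀ (zpow_pos hq _).ne' c5)
  obtain ⟨x, hx⟩ := AddMonoidHom.range_eq_top.1 (AddSubgroup.eq_top_of_card_eq _ c4)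
    (QuotientAddGroup.mk ⟨a, ha⟩)
  have hx' : (QuotientAddGroup.mk ⟨a, ha⟩ : AD E ⧸ (AD D).addSubgroupOf (AD E)) =
      QuotientAddGroup.mk (ι x) := hx.symm
  rw [QuotientAddGroup.eq, AddSubgroup.mem_addSubgroupOf, neg_add_eq_sub] at hx'
  exact ⟨x, hx'⟩

/-- weak approximation at one place -/
theorem approx_one (v : Place F) (y : v.Compl) (m : ℤ) :
    ∃ x : F, v.vc (algebraMap F v.Compl x - y) ≤ exp m := by
  obtain ⟨x, hx⟩ := v.dense y (-m).toNat
  refine ⟨x, ?_⟩
  rw [Valuation.map_sub_swap]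
  exact hx.trans (exp_le_exp.2 (by omega))

end SelAvg.FF
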