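import Pool.Agent.H38Sel.Main
import Pool.Agent.H38Sel.Bridge

/-!
Function fields over a finite field: the interface `Cv` (product formula and the theorem of
Riemann), divisors, adeles, residue rings.  Definitions only; the lemmas are in the next files.
-/

namespace SelAvg.FF

open WeierstrassCurve WithZero Filter Topology
open scoped Classical

/-- divisors -/
abbrev Div (F : Type) [Field F] : Type := Place F →₀ ℤ

variable {F : Type} [Field F]

/-- the order of vanishing (`ord v 0 = 0`) -/
noncomputable def ord (v : Place F) (x : F) : ℤ := -log (v.1 x)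

/-- the space `L(D)` -/
def LL (D : Div F) : AddSubgroup F where
  carrier := {x | ∀ v : Place F, v.1 x ≤ exp (D v)}
  add_mem' ha hb v := v.1.map_add_le (ha v) (hb v)
  zero_mem' v := by simp
  neg_mem' ha v := by simpa using ha v

lemma mem_LL {D : Div F} {x : F} : x ∈ LL D ↔ ∀ v : Place F, v.1 x ≤ exp (D v) := Iff.rfl

/-- What is used about a function field in one variable over a field with `q` elements. -/
class Cv (F : Type) [Field F] where
  q : ℕ
  dg : Place F → ℕ
  c : ℤ
  c0 : ℕ
  P : Place F
  two_le : 2 ≤ q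
  res_fin : ∀ v : Place F, Finite (IsLocalRing.ResidueField v.1.valuationSubring)
  q_eq : ∀ v : Place F, v.q = q ^ dg v
  fin_supp : ∀ x : F, x ≠ 0 → {v : Place F | v.1 x ≠ 1}.Finite
  prod : ∀ (x : F) (D : Div F), x ≠ 0 → (∀ v, D v = ord v x) →
    (D.sum fun v m => m * (dg v : ℤ)) = 0
  rr : ∀ D : Div F, (c0 : ℤ) ≤ (D.sum fun v m => m * (dg v : ℤ)) →
    (Nat.card (LL D) : ℝ) = (q : ℝ) ^ ((D.sum fun v m => m * (dg v : ℤ)) + c)

variable [Cv F]

/-- the degree of a place -/
abbrev dg (v : Place F) : ℕ := Cv.dg v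

variable (F) in
/-- `q` as a real number -/
abbrev qq : ℝ := (Cv.q F : ℝ)

variable (F) in
/-- the constant in the theorem of Riemann -/
abbrev cc : ℤ := Cv.c F

variable (F) in
/-- the threshold in the theorem of Riemann -/
abbrev c0 : ℕ := Cv.c0 F

variable (F) in
/-- the divisor of the chosen place -/
noncomputable def PP : Div F := Finsupp.single (Cv.P : Place F) 1

variable (F) in
/-- the degree of the chosen place -/
abbrev pp : ℕ := dg (Cv.P : Place F)

/-- the degree of a divisor -/
noncomputable def deg : Div F →+ ℤ :=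
  Finsupp.liftAddHom fun v => AddMonoidHom.mulRight (dg v : ℤ)

lemma deg_eq (D : Div F) : deg D = D.sum fun v m => m * (dg v : ℤ) := rfl

lemma finite_ord (x : F) : (Function.support fun v : Place F => ord v x).Finite := by
  by_cases hx : x = 0
  · subst hx; simp [ord]
  · refine (Cv.fin_supp x hx).subset fun v hv h => hv ?_
    simp [ord, h]

/-- the divisor of `x` (`dv 0 = 0`) -/
noncomputable def dv (x : F) : Div F := Finsupp.ofSupportFinite _ (finite_ord x)

lemma dv_apply (x : F) (v : Place F) : dv x v = ord v x := rfl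

/-- `L(D)` as a finite set (see `mem_box`) -/
noncomputable def box (D : Div F) : Finset F :=
  if h : (LL D : Set F).Finite then h.toFinset else ∅

omit [Cv F] in
/-- the chosen uniformiser; its image in the completion is `v.loc.ϖ` -/
noncomputable def unifF (v : Place F) : F := (v.2 (exp (-1))).choose

/-! Adeles -/

/-- the adeles -/
noncomputable def Ad (F : Type) [Field F] : Subring (∀ v : Place F, v.Compl) where
  carrier := {a | ∀ᶠ v : Place F in cofinite, v.vc (a v) ≤ 1}
  mul_mem' {a b} ha hb := by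
    simp only [Set.mem_ofPred_eq] at ha hb ⊢
    exact (ha.and hb).mono fun v h => by rw [Pi.mul_apply, map_mul]; exact mul_le_one' h.1 h.2
  one_mem' := by
    simp only [Set.mem_ofPred_eq]
    exact Eventually.of_forall fun v => by simp
  add_mem' {a b} ha hb := by
    simp only [Set.mem_ofPred_eq] at ha hb ⊢
    exact (ha.and hb).mono fun v h => v.vc.map_add_le h.1 h.2
  zero_mem' := by
    simp only [Set.mem_ofPred_eq]
    exact Eventually.of_forall fun v => by simp
  neg_mem' {a} ha := by
    simp only [Set.mem_ofPred_eq] at ha ⊢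
    exact ha.mono fun v h => by simpa using h

omit [Cv F] in
lemma mem_Ad {a : ∀ v : Place F, v.Compl} :
    a ∈ Ad F ↔ ∀ᶠ v : Place F in cofinite, v.vc (a v) ≤ 1 := Iff.rfl

/-- the ring of adeles -/
abbrev A (F : Type) [Field F] : Type := Ad F

omit [Cv F] in
/-- the component at `v` -/
noncomputable def pr (v : Place F) : A F →+* v.Compl :=
  (Pi.evalRingHom (fun v : Place F => v.Compl) v).comp (Ad F).subtype

lemma toA_mem (x : F) : (fun v : Place F => algebraMap F v.Compl x) ∈ Ad F := by
  rw [mem_Ad]
  by_cases hx : x = 0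
  · subst hx; exact Eventually.of_forall fun v => by simp
  · refine (Cv.fin_supp x hx).subset fun v hv h => hv ?_
    simp only [Set.mem_ofPred_eq, Place.vc_algebraMap, h, le_refl]

variable (F) in
/-- the diagonal embedding -/
noncomputable def toA : F →+* A F :=
  (Pi.ringHom fun v : Place F => algebraMap F v.Compl).codRestrict (Ad F) toA_mem

lemma pr_toA (v : Place F) (x : F) : pr v (toA F x) = algebraMap F v.Compl x := rfl

omit [Cv F] in
/-- the adeles with poles bounded by `D` -/
noncomputable def AD (D : Div F) : AddSubgroup (A F) where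
  carrier := {a | ∀ v : Place F, v.vc (pr v a) ≤ exp (D v)}
  add_mem' {a b} ha hb v := by rw [map_add]; exact v.vc.map_add_le (ha v) (hb v)
  zero_mem' v := by simp
  neg_mem' {a} ha v := by simpa using ha v

omit [Cv F] in
lemma mem_AD {D : Div F} {a : A F} : a ∈ AD D ↔ ∀ v : Place F, v.vc (pr v a) ≤ exp (D v) :=
  Iff.rfl

/-- the integral adeles -/
noncomputable def Oh (F : Type) [Field F] : Subring (A F) where
  carrier := {a | ∀ v : Place F, v.vc (pr v a) ≤ 1}
  mul_mem' {a b} ha hb v := by rw [map_mul, map_mul]; exact mul_le_one' (ha v) (hb v)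
  one_mem' v := by simp
  add_mem' {a b} ha hb v := by rw [map_add]; exact v.vc.map_add_le (ha v) (hb v)
  zero_mem' v := by simp
  neg_mem' {a} ha v := by simpa using ha v

omit [Cv F] in
lemma mem_Oh {a : A F} : a ∈ Oh F ↔ ∀ v : Place F, v.vc (pr v a) ≤ 1 := Iff.rfl

omit [Cv F] in
lemma finite_idiv (u : (A F)ˣ) :
    (Function.support fun v : Place F => -log (v.vc (pr v (u : A F)))).Finite := by
  refine ((mem_Ad.1 (u : A F).2).and (mem_Ad.1 ((u⁻¹ : (A F)ˣ) : A F).2)).subset
    fun v hv h => hv ?_
  have h1 : v.vc (pr v (u : A F)) * v.vc (pr v ((u⁻¹ : (A F)ˣ) : A F)) = 1 := by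
    rw [← map_mul, ← map_mul, Units.mul_inv, map_one, map_one]
  have h2 : v.vc (pr v (u : A F)) = 1 := le_antisymm h.1 (by
    calc (1 : ℤᵐ⁰) = _ := h1.symm
      _ ≤ v.vc (pr v (u : A F)) * 1 := mul_le_mul_right h.2 _
      _ = _ := mul_one _)
  simp [h2]

omit [Cv F] in
/-- the divisor of an idele -/
noncomputable def idiv (u : (A F)ˣ) : Div F := Finsupp.ofSupportFinite _ (finite_idiv u)

omit [Cv F] in
lemma idiv_apply (u : (A F)ˣ) (v : Place F) : idiv u v = -log (v.vc (pr v (u : A F))) := rfl

omit [Cv F] in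
lemma piA_mem (D : Div F) : (fun v : Place F => v.loc.ϖ ^ D v) ∈ Ad F :=
  mem_Ad.2 (D.finite_support.subset fun v hv h => hv (by simp [h]))

omit [Cv F] in
lemma loc_unif_ne_zero (v : Place F) : v.loc.ϖ ≠ 0 := fun h => by
  have := v.loc.v_ϖ
  rw [h, map_zero] at this
  exact exp_ne_zero this.symm

omit [Cv F] in
/-- the idele `ϖ ^ D` -/
noncomputable def piD (D : Div F) : (A F)ˣ where
  val := ⟨_, piA_mem D⟩
  inv := ⟨_, piA_mem (-D)⟩
  val_inv := Subtype.ext (funext fun v => by
    change v.loc.ϖ ^ D v * v.loc.ϖ ^ (-D) v = 1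
    rw [Finsupp.neg_apply, zpow_neg, mul_inv_cancel₀ (zpow_ne_zero _ (loc_unif_ne_zero v))])
  inv_val := Subtype.ext (funext fun v => by
    change v.loc.ϖ ^ (-D) v * v.loc.ϖ ^ D v = 1
    rw [Finsupp.neg_apply, zpow_neg, inv_mul_cancel₀ (zpow_ne_zero _ (loc_unif_ne_zero v))])

omit [Cv F] in
lemma pr_piD (v : Place F) (D : Div F) : pr v (piD D : A F) = v.loc.ϖ ^ D v := rfl

/-- a nonzero element of the field as an idele -/
noncomputable abbrev uA (u : Fˣ) : (A F)ˣ := Units.map (toA F : F →* A F) u

omit [Cv F] in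
/-- the component at `v` as an element of the valuation ring (junk value `0`) -/
noncomputable def cO (v : Place F) (a : A F) : v.loc.O :=
  if h : v.vc (pr v a) ≤ 1 then ⟨pr v a, h⟩ else 0

omit [Cv F] in
/-- the component at `v` of an integral adele -/
noncomputable def prO (v : Place F) : Oh F →+* v.loc.O :=
  ((pr v).comp (Oh F).subtype).codRestrict v.loc.v.valuationSubring fun a => a.2 v

/-! Residue rings -/

/-- the residue field of the completion -/
abbrev kv (v : Place F) : Type := IsLocalRing.ResidueField v.loc.O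

omit [Cv F] in
/-- the residue map -/
noncomputable abbrev resv (v : Place F) : v.loc.O →+* kv v := IsLocalRing.residue v.loc.O

/-- the quotient by the `M`-th power of the maximal ideal -/
abbrev Rv (v : Place F) (M : ℕ) : Type := v.loc.O ⧸ Ideal.span {v.loc.unif ^ M}

omit [Cv F] in
/-- the quotient map -/
noncomputable abbrev redv (v : Place F) (M : ℕ) : v.loc.O →+* Rv v M := Ideal.Quotient.mk _

omit [Cv F] in
lemma resv_unif (v : Place F) : resv v v.loc.unif = 0 := by
  rw [IsLocalRing.residue_eq_zero_iff, IsLocalRing.mem_maximalIdeal, mem_nonunits_iff,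
    v.loc.isUnit_iff]
  change ¬v.loc.v v.loc.ϖ = 1
  rw [v.loc.v_ϖ, ← exp_zero, exp_inj]
  norm_num

omit [Cv F] in
/-- the residue map of `O / 𝔪^(2 (j + 1))` -/
noncomputable def thv (v : Place F) (j : ℕ) : Rv v (2 * (j + 1)) →+* kv v :=
  Ideal.Quotient.lift _ (resv v) fun a ha => by
    obtain ⟨b, rfl⟩ := Ideal.mem_span_singleton.1 ha
    rw [map_mul, map_pow, resv_unif, zero_pow (by omega), zero_mul]

omit [Cv F] in
lemma thv_comp (v : Place F) (j : ℕ) : (thv v j).comp (redv v (2 * (j + 1))) = resv v := rfl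

end SelAvg.FF
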