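import Pool.Agent.H81Sel.Ade
import Pool.Agent.H81Sel.Zeta

/-! Row DENSA: local densities. -/

namespace SelAvg.FF

open WeierstrassCurve WithZero Filter Topology
open scoped Classical

variable {F : Type} [Field F]

lemma redv_eq_zero_iff (v : Place F) (M : ℕ) (x : v.loc.O) :
    redv v M x = 0 ↔ v.loc.unif ^ M ∣ x := by
  rw [Ideal.Quotient.eq_zero_iff_mem, Ideal.mem_span_singleton]

/-- `nonMin_map_iff` -/
lemma nonMin_redv_iff (v : Place F) {j : ℕ} (hj : 2 ≤ j) (W : WeierstrassCurve v.loc.O) :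
    NonMin (redv v (2 * (j + 1)) v.loc.unif) (W.map (redv v (2 * (j + 1)))) ↔
      NonMin v.loc.unif W := by
  refine nonMin_map_iff (redv v (2 * (j + 1))) Ideal.Quotient.mk_surjective (fun x hx => ?_) W
  exact (pow_dvd_pow v.loc.unif (by omega)).trans ((redv_eq_zero_iff v _ x).1 hx)

variable [Cv F]

section Generic

variable {R : Type*} [CommRing R] [IsDomain R] {π : R}

/-- a polynomial of degree at most `r` has at most `r` pairwise incongruent approximate roots -/
theorem densA_card_roots (hπ : Prime π) (a t r : ℕ) (g : Polynomial R)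
    (hg : g.natDegree ≤ r) (ha : ¬π ^ a ∣ g.coeff r) (s : Finset R)
    (hs : ∀ x ∈ s, π ^ (a + r * t) ∣ g.eval x)
    (hs' : ∀ x ∈ s, ∀ y ∈ s, π ^ t ∣ x - y → x = y) : s.card ≤ r := by
  induction r generalizing g s with
  | zero =>
    refine Nat.le_zero.2 (Finset.card_eq_zero.2 (Finset.eq_empty_of_forall_notMem fun x hx => ?_))
    have h := hs x hx
    rw [Polynomial.eq_C_of_natDegree_le_zero hg, Polynomial.eval_C, zero_mul, add_zero] at h
    exact ha h
  | succ r ih =>
    rcases s.eq_empty_or_nonempty with rfl | ⟨x₀, h₀⟩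
    · simp
    have h1 : (g /ₘ (Polynomial.X - Polynomial.C x₀)).natDegree ≤ r := by
      rw [Polynomial.natDegree_divByMonic _ (Polynomial.monic_X_sub_C x₀),
        Polynomial.natDegree_X_sub_C]
      omega
    have h2 := Polynomial.modByMonic_add_div g (Polynomial.X - Polynomial.C x₀)
    rw [Polynomial.modByMonic_X_sub_C_eq_C_eval] at h2
    generalize g /ₘ (Polynomial.X - Polynomial.C x₀) = g₁ at h1 h2
    have h3 : g₁.coeff r = g.coeff (r + 1) := by
      rw [← h2, Polynomial.coeff_add, Polynomial.coeff_C_succ, sub_mul, Polynomial.coeff_sub,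
        Polynomial.coeff_X_mul, Polynomial.coeff_C_mul,
        Polynomial.coeff_eq_zero_of_natDegree_lt (Nat.lt_succ_of_le h1), mul_zero, sub_zero,
        zero_add]
    have h4 := ih g₁ h1 (h3 ▸ ha) (s.erase x₀) (fun x hx => ?_) fun x hx y hy =>
      hs' x (Finset.mem_of_mem_erase hx) y (Finset.mem_of_mem_erase hy)
    · rw [Finset.card_erase_of_mem h₀] at h4
      omega
    · obtain ⟨hne, hx⟩ := Finset.mem_erase.1 hx
      refine pz_cancel hπ _ t (u := x - x₀) ?_ fun h => hne (hs' x hx x₀ h₀ h)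
      have h5 := congrArg (Polynomial.eval x) h2
      rw [Polynomial.eval_add, Polynomial.eval_C, Polynomial.eval_mul, Polynomial.eval_sub,
        Polynomial.eval_X, Polynomial.eval_C] at h5
      rw [eq_sub_of_add_eq' h5, add_assoc, ← Nat.succ_mul]
      exact dvd_sub (hs x hx) (hs x₀ h₀)

/-- the approximate roots lie in at most `r` classes modulo `π^t` -/
theorem densA_dens_roots (hπ : Prime π) (a t r : ℕ) (B : Finset R) (g : Polynomial R)
    (hg : g.natDegree ≤ r) (ha : ¬π ^ a ∣ g.coeff r)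
    (hB : ∀ y, dens B (fun x => π ^ t ∣ x - y) ≤ (1 / 2 : ℝ) ^ t) :
    dens B (fun x => π ^ (a + r * t) ∣ g.eval x) ≤ r * (1 / 2 : ℝ) ^ t := by
  let S := B.filter fun x => π ^ (a + r * t) ∣ g.eval x
  have hmk : ∀ x y : R, Ideal.Quotient.mk (Ideal.span {π ^ t}) x =
      Ideal.Quotient.mk (Ideal.span {π ^ t}) y ↔ π ^ t ∣ x - y := fun x y => by
    rw [Ideal.Quotient.eq, Ideal.mem_span_singleton]
  obtain ⟨s, h1, h2, h3⟩ := Finset.exists_subset_injOn_image_eq_of_surjOn (S : Set R)
    (S.image (Ideal.Quotient.mk (Ideal.span {π ^ t})))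
    (f := Ideal.Quotient.mk (Ideal.span {π ^ t}))
    (by rw [Finset.coe_image]; exact Set.surjOn_image _ _)
  have h4 : s.card ≤ r := densA_card_roots hπ a t r g hg ha s
    (fun x hx => (Finset.mem_filter.1 (h1 hx)).2) fun x hx y hy h => h2 hx hy ((hmk x y).2 h)
  refine (dens_mono (Q := fun x => ∃ y ∈ s, π ^ t ∣ x - y) fun x hx h => ?_).trans
    ((dens_exists_le _ s fun y x => π ^ t ∣ x - y).trans ?_)
  · have h5 := Finset.mem_image_of_mem (Ideal.Quotient.mk (Ideal.span {π ^ t}))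
      (Finset.mem_filter.2 ⟨hx, h⟩ : x ∈ S)
    rw [← h3] at h5
    obtain ⟨y, hy, e⟩ := Finset.mem_image.1 h5
    exact ⟨y, hy, (hmk x y).1 e.symm⟩
  · refine (Finset.sum_le_card_nsmul _ _ _ fun y _ => hB y).trans ?_
    rw [nsmul_eq_mul]
    gcongr

/-- the values of a nonzero polynomial are rarely divisible by a high power of `π` -/
theorem densA_box (hπ : Prime π) (hsep : ∀ c : R, c ≠ 0 → ∃ n : ℕ, ¬π ^ n ∣ c)
    (B : ℕ → Finset R)
    (hB : ∀ t D, t ≤ D → ∀ y, dens (B D) (fun x => π ^ t ∣ x - y) ≤ (1 / 2 : ℝ) ^ t)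
    {m : ℕ} {p : MvPolynomial (Fin m) R} (hp : p ≠ 0) {ε : ℝ} (hε : 0 < ε) :
    ∃ M₀ D₀ : ℕ, ∀ D, D₀ ≤ D → dens (Fintype.piFinset fun _ : Fin m => B D)
      (fun x => π ^ M₀ ∣ MvPolynomial.eval x p) ≤ ε := by
  induction m generalizing ε with
  | zero =>
    obtain ⟨c, rfl⟩ := MvPolynomial.C_surjective (Fin 0) p
    obtain ⟨n, hn⟩ := hsep c fun e => hp (by rw [e, map_zero])
    refine ⟨n, 0, fun D _ => ?_⟩
    rw [dens_eq_avg]
    refine avg_le_of_le hε.le fun x _ => (ind_neg fun h => ?_).trans_le hε.le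
    rw [MvPolynomial.eval_C] at h
    exact hn h
  | succ m ih =>
    have hg : MvPolynomial.finSuccEquiv R m p ≠ 0 := by simpa using hp
    obtain ⟨a, D₁, h1⟩ := ih (Polynomial.leadingCoeff_ne_zero.2 hg) (half_pos hε)
    set r := (MvPolynomial.finSuccEquiv R m p).natDegree
    obtain ⟨t, ht⟩ := (((tendsto_pow_atTop_nhds_zero_of_lt_one (r := (1 / 2 : ℝ)) (by norm_num)
      (by norm_num)).const_mul (r : ℝ)).eventually_le_const
        (by simpa using half_pos hε : (r : ℝ) * 0 < ε / 2)).exists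
    refine ⟨a + r * t, max D₁ t, fun D hD => ?_⟩
    have h2 := h1 D (le_of_max_le_left hD)
    rw [dens_eq_avg] at h2 ⊢
    rw [pz_cons, ← add_halves ε]
    refine (avg_mono (G := fun y => ind (π ^ a ∣ MvPolynomial.eval y
      (MvPolynomial.finSuccEquiv R m p).leadingCoeff) + ε / 2) fun y _ => ?_).trans ?_
    · rw [← dens_eq_avg]
      by_cases hy : π ^ a ∣ MvPolynomial.eval y (MvPolynomial.finSuccEquiv R m p).leadingCoeff
      · rw [ind_pos hy]
        exact (dens_le_one _ _).trans (le_add_of_nonneg_right (half_pos hε).le)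
      · rw [ind_neg hy, zero_add]
        simp only [MvPolynomial.eval_eq_eval_mv_eval']
        exact (densA_dens_roots hπ a t r _ _ Polynomial.natDegree_map_le
          (by rwa [Polynomial.coeff_map]) (hB t D (le_of_max_le_right hD))).trans ht
    · rw [avg_add]
      exact add_le_add h2 (avg_le_of_le (half_pos hε).le fun _ _ => le_rfl)

end Generic

omit [Cv F] in
lemma densA_resv_eq_zero (v : Place F) (x : v.loc.O) : resv v x = 0 ↔ v.loc.unif ∣ x := by
  rw [(resv_isRed v).ker, v.loc.le_exp_iff_dvd, pow_one]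

omit [Cv F] in
lemma densA_prime (v : Place F) : Prime v.loc.unif := by
  refine ⟨LocalField.locBasic_unif_ne_zero _, fun h => ?_, fun a b h => ?_⟩
  · exact ((resv_isRed v).isUnit_iff _).1 h (resv_unif v)
  · rw [← densA_resv_eq_zero, map_mul, mul_eq_zero] at h
    rwa [← densA_resv_eq_zero, ← densA_resv_eq_zero]

omit [Cv F] in
lemma densA_sep (v : Place F) (c : v.loc.O) (hc : c ≠ 0) : ∃ n : ℕ, ¬v.loc.unif ^ n ∣ c := by
  by_contra h
  push Not at h
  exact hc (v.loc.incl_injective ((v.loc.eq_zero_of_forall_le fun n =>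
    (v.loc.le_exp_iff_dvd c n).2 (h n)).trans (map_zero _).symm))

/-- a section of the reduction modulo `ϖ^M` -/
noncomputable def densA_sec (v : Place F) (M : ℕ) : Rv v M ↪ v.loc.O :=
  ⟨Function.surjInv (redv_isRed v M).surj, Function.injective_surjInv _⟩

omit [Cv F] in
lemma densA_redv_sec (v : Place F) (M : ℕ) (x : Rv v M) : redv v M (densA_sec v M x) = x :=
  Function.surjInv_eq (redv_isRed v M).surj x

lemma densA_class (v : Place F) (t D : ℕ) (h : t ≤ D) (y : v.loc.O) :
    dens (Finset.univ.map (densA_sec v D)) (fun x => v.loc.unif ^ t ∣ x - y) ≤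
      (1 / 2 : ℝ) ^ t := by
  rw [dens_map]
  refine dens_le_of_card_le ?_ (by positivity)
  have h1 := (resv_isRed v).card_dvd (redv_isRed v D) h
  rw [Nat.card_eq_fintype_card, Fintype.card_subtype, Nat.card_eq_fintype_card] at h1
  have h2 : (Finset.univ.filter fun x : Rv v D => v.loc.unif ^ t ∣ densA_sec v D x - y).card ≤
      (Finset.univ.filter fun x : Rv v D => redv v D v.loc.unif ^ t ∣ x).card := by
    refine Finset.card_le_card_of_injOn (fun x => x - redv v D y) (fun x hx => ?_)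
      fun x _ x' _ e => sub_left_inj.1 e
    refine Finset.mem_coe.2 (Finset.mem_filter.2 ⟨Finset.mem_univ _, ?_⟩)
    have h3 := map_dvd (redv v D) (Finset.mem_filter.1 (Finset.mem_coe.1 hx)).2
    rwa [map_pow, map_sub, densA_redv_sec] at h3
  have h3 : 2 ^ t * Fintype.card (kv v) ^ (D - t) ≤ Fintype.card (kv v) ^ D := by
    conv_rhs => rw [← Nat.add_sub_cancel' h, pow_add]
    exact Nat.mul_le_mul_right _ (Nat.pow_le_pow_left Fintype.one_lt_card t)
  rw [Finset.card_univ, card_Rv, one_div, inv_pow, le_inv_mul_iff₀ (by positivity)]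
  exact_mod_cast (Nat.mul_le_mul_left _ (h2.trans h1.le)).trans h3

/-- port of `card_roots_mod_le`, `dens_roots_mod_le`, `dens_box_dvd_le` to the rings `Rv v M`
(a class modulo `ϖ^t` has density at most `2^(-t)`, `IsRed.card_dvd`) -/
theorem dens_zero_tendsto (v : Place F) {m : ℕ} {p : MvPolynomial (Fin m) v.loc.O} (hp : p ≠ 0) :
    Tendsto (fun M => dens Finset.univ fun x : Fin m → Rv v M =>
      MvPolynomial.eval x (MvPolynomial.map (redv v M) p) = 0) atTop (𝓝 0) := by
  refine tendsto_order.2 ⟨fun ε hε => Eventually.of_forall fun M => hε.trans_le (dens_nonneg _ _),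
    fun ε hε => ?_⟩
  obtain ⟨M₀, D₀, h⟩ := densA_box (densA_prime v) (densA_sep v)
    (fun D => Finset.univ.map (densA_sec v D)) (densA_class v) hp (half_pos hε)
  refine (eventually_ge_atTop (max M₀ D₀)).mono fun M hM => lt_of_le_of_lt ?_ (half_lt_self hε)
  refine le_trans ?_ (h M (le_of_max_le_right hM))
  have e : (Fintype.piFinset fun _ : Fin m => Finset.univ.map (densA_sec v M)) =
      Finset.univ.map (Function.Embedding.piCongrRight fun _ : Fin m => densA_sec v M) := by
    ext x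
    simp only [Fintype.mem_piFinset, Finset.mem_map, Finset.mem_univ, true_and]
    constructor
    · intro hx
      choose y hy using hx
      exact ⟨y, funext hy⟩
    · rintro ⟨y, rfl⟩ i
      exact ⟨y i, rfl⟩
  rw [e, dens_map]
  refine dens_mono fun x _ hx => (pow_dvd_pow _ (le_of_max_le_left hM)).trans
    ((redv_eq_zero_iff v M _).1 ?_)
  rw [← hx, MvPolynomial.eval_map, MvPolynomial.eval, MvPolynomial.coe_eval₂Hom,
    MvPolynomial.eval₂_comp_left, RingHom.comp_id]
  congr 1
  exact funext fun i => densA_redv_sec v M (x i)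

omit [Cv F] in
lemma densA_eval_gen {R S : Type*} [CommRing R] [CommRing S] (φ : R →+* S) (x : Fin 8 → S) :
    MvPolynomial.eval x (MvPolynomial.map φ
      (Model.equivVec.symm MvPolynomial.X : Model (MvPolynomial (Fin 8) R)).jac.Δ) =
      (Model.equivVec.symm x).jac.Δ := by
  rw [← RingHom.comp_apply, ← map_Δ, ← Model.jac_map, Model.equivVec_symm_map]
  simp

omit [Cv F] in
lemma densA_gen_ne_zero (R : Type*) [CommRing R] [Nontrivial R] :
    (Model.equivVec.symm MvPolynomial.X : Model (MvPolynomial (Fin 8) R)).jac.Δ ≠ 0 := by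
  intro h
  have key : ∀ W : WeierstrassCurve R, W.Δ = 0 := fun W => by
    have h1 := densA_eval_gen (RingHom.id R) (Model.equivVec (zO W).f)
    have h2 := zO_over W
    rw [Obj.Over, show (zO W).γ = 1 from rfl, one_smul] at h2
    rw [h, map_zero, map_zero, Equiv.symm_apply_apply, h2] at h1
    exact h1.symm
  have h1 := key ⟨0, 0, 1, -1, 0⟩
  have h2 := key ⟨0, -1, 1, 0, 0⟩
  simp only [Δ, b₂, b₄, b₆, b₈] at h1 h2
  exact one_ne_zero (α := R) (by linear_combination 3 * h1 + 10 * h2)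

/-- The generic discriminant is nonzero: the curves with discriminants `37` and `-11` are
Jacobians of models over `ℤ` (`zO`). -/
theorem dens_Delta_tendsto (v : Place F) : Tendsto (fun j => dens Finset.univ
    fun f : Model (Rv v (2 * (j + 1))) => f.jac.Δ = 0) atTop (𝓝 0) := by
  have h1 := (dens_zero_tendsto v (densA_gen_ne_zero v.loc.O)).comp
    (show Tendsto (fun j : ℕ => 2 * (j + 1)) atTop atTop from
      tendsto_atTop_mono (fun j => by change j ≤ 2 * (j + 1); omega) tendsto_id)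
  refine h1.congr fun j => ?_
  have h2 := avg_equiv Model.equivVec.symm
    fun f : Model (Rv v (2 * (j + 1))) => ind (f.jac.Δ = 0)
  rw [← dens_eq_avg, ← dens_eq_avg] at h2
  rw [← h2]
  exact dens_congr fun x _ => by rw [densA_eval_gen]

/-- `phiR_eq_phiL` -/
lemma phiR_thv_eq (v : Place F) (j : ℕ) {f : Model v.loc.O}
    (h : ¬v.loc.unif ^ (2 * (j + 1)) ∣ f.jac.Δ) :
    phiR (thv v j) (f.map (redv v (2 * (j + 1)))) = v.loc.phiL (resv v) f := by
  refine LocalField.phiR_eq_phiL (resv_isRed v) (redv_isRed v (2 * (j + 1))) (thv v j)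
    (thv_comp v j) fun h0 => h ((redv_eq_zero_iff v _ _).1 h0)

lemma phiR_thv_le_one (v : Place F) (j : ℕ) {f : Model (Rv v (2 * (j + 1)))} (h : f.jac.Δ ≠ 0) :
    phiR (thv v j) f ≤ 1 := by
  choose y hy using fun i => (redv_isRed v (2 * (j + 1))).surj (Model.equivVec f i)
  have e : (Model.equivVec.symm y).map (redv v (2 * (j + 1))) = f := by
    rw [Model.equivVec_symm_map, funext hy, Equiv.symm_apply_apply]
  subst e
  rw [Model.jac_map, map_Δ, Ne, redv_eq_zero_iff] at h
  rw [phiR_thv_eq v j h]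
  refine LocalField.phiL_le_one (resv_isRed v) fun h0 => h ?_
  rw [h0]
  exact dvd_zero _

lemma phiR_thv_le (v : Place F) (j : ℕ) (f : Model (Rv v (2 * (j + 1)))) :
    phiR (thv v j) f ≤ 2 * (qq F ^ dg v + 1) := by
  have h := phiR_le (thv v j) f
  rwa [Nat.card_eq_fintype_card, card_kv_real] at h

/-- `dens_W_Delta_le` -/
theorem dens_W_sq_le (v : Place F) :
    dens Finset.univ (fun W : WeierstrassCurve (Rv v (2 * (0 + 1))) => W.Δ = 0) ≤
      3 / (qq F ^ dg v) ^ 2 := by
  have h1 := dens_W_Delta_le (thv_isResidue v 0) (fun x y hx hy => by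
    obtain ⟨a, rfl⟩ := (redv_isRed v (2 * (0 + 1))).surj x
    obtain ⟨b, rfl⟩ := (redv_isRed v (2 * (0 + 1))).surj y
    rw [← RingHom.comp_apply, thv_comp, densA_resv_eq_zero] at hx hy
    rw [← map_mul, redv_eq_zero_iff]
    exact (sq v.loc.unif).dvd.trans (mul_dvd_mul hx hy)) (card_Rv v _)
  rwa [card_kv_real] at h1

/-- port of `dens_V_Delta_le` -/
theorem dens_V_sq_le (v : Place F) :
    dens Finset.univ (fun f : Model (Rv v (2 * (0 + 1))) => f.jac.Δ = 0) ≤
      4 / (qq F ^ dg v) ^ 2 := by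
  have h1 := dens_W_sq_le v
  have h2 := mass (thv_isResidue v 0) (fun W => ind (¬W.Δ = 0)) fun C W => by
    rw [variableChange_Δ, ((C.u⁻¹).isUnit.pow 12).mul_right_eq_zero]
  rw [← dens_eq_avg, dens_not Finset.univ_nonempty] at h2
  have h3 : avg Finset.univ (fun f : Model (Rv v (2 * (0 + 1))) =>
      phiR (thv v 0) f * ind (¬f.jac.Δ = 0)) ≤
      dens Finset.univ fun f : Model (Rv v (2 * (0 + 1))) => ¬f.jac.Δ = 0 := by
    rw [dens_eq_avg]
    refine avg_mono fun f _ => ?_
    by_cases hf : f.jac.Δ = 0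
    · rw [ind_neg (not_not.2 hf), mul_zero]
    · rw [ind_pos hf, mul_one]
      exact phiR_thv_le_one v 0 hf
  rw [h2, dens_not ⟨Model.equivVec.symm 0, Finset.mem_univ _⟩] at h3
  have h4 : (1 : ℝ) ≤ (Fintype.card (kv v) : ℝ) ^ 2 :=
    one_le_pow₀ (Nat.one_le_cast.2 Fintype.card_pos)
  rw [card_kv_real] at h3 h4
  have h5 := (div_le_one (zero_lt_one.trans_le h4)).2 h4
  have h6 := one_div_pos.2 (zero_lt_one.trans_le h4)
  rw [div_eq_mul_one_div] at h1 ⊢
  nlinarith [mul_le_mul_of_nonneg_left h1 (sub_nonneg.2 h5)]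

/-- the local density of minimal equations -/
noncomputable def nuLoc (v : Place F) (j : ℕ) : ℝ :=
  dens Finset.univ fun W : WeierstrassCurve (Rv v (2 * (j + 1))) =>
    ¬NonMin (redv v (2 * (j + 1)) v.loc.unif) W

/-- the product of the local densities -/
noncomputable def delta (S : Finset (Place F)) (j : ℕ) : ℝ := ∏ v ∈ S, nuLoc v j

lemma delta_nonneg (S : Finset (Place F)) (j : ℕ) : 0 ≤ delta S j := by
  exact Finset.prod_nonneg fun _ _ => dens_nonneg _ _

lemma delta_le_one (S : Finset (Place F)) (j : ℕ) : delta S j ≤ 1 := by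
  exact Finset.prod_le_one (fun _ _ => dens_nonneg _ _) fun _ _ => dens_le_one _ _

/-- reduction to level two -/
noncomputable def densA_two (v : Place F) (j : ℕ) :
    Rv v (2 * (j + 1)) →+* Rv v (2 * (0 + 1)) :=
  Ideal.Quotient.lift _ (redv v (2 * (0 + 1))) fun a ha =>
    (redv_eq_zero_iff v _ a).2 ((pow_dvd_pow _ (by omega)).trans (Ideal.mem_span_singleton.1 ha))

omit [Cv F] in
lemma densA_two_redv (v : Place F) (j : ℕ) (x : v.loc.O) :
    densA_two v j (redv v (2 * (j + 1)) x) = redv v (2 * (0 + 1)) x := rfl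

/-- `NonMin.dvd_Delta`; reduce to level two (`avg_comp_hom`), `dens_W_sq_le` -/
theorem le_nuLoc (v : Place F) (j : ℕ) : 1 - 3 / (qq F ^ dg v) ^ 2 ≤ nuLoc v j := by
  rw [nuLoc, dens_not Finset.univ_nonempty]
  refine sub_le_sub_left (le_trans ?_ (dens_W_sq_le v)) 1
  have h1 := avg_equiv wEquivVec.symm fun W : WeierstrassCurve (Rv v (2 * (j + 1))) =>
    ind (NonMin (redv v (2 * (j + 1)) v.loc.unif) W)
  have h2 := avg_equiv wEquivVec.symm fun W : WeierstrassCurve (Rv v (2 * (0 + 1))) =>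
    ind (W.Δ = 0)
  rw [dens_eq_avg, dens_eq_avg, ← h1, ← h2, ← avg_comp_hom (Finset.mem_univ 0)
    (fun _ _ _ _ => Finset.mem_univ _) ((densA_two v j).toAddMonoidHom.compLeft (Fin 5))
    fun b => ?_, ← dens_eq_avg, ← dens_eq_avg]
  · refine dens_mono fun x _ hx => ?_
    have h3 := map_dvd (densA_two v j) hx.dvd_Delta
    rw [map_pow, densA_two_redv, ← map_pow, (redv_eq_zero_iff v _ _).2 (pow_dvd_pow _ (by omega)),
      zero_dvd_iff, ← map_Δ] at h3
    exact h3
  · choose c hc using fun i => (redv_isRed v (2 * (0 + 1))).surj (b i)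
    exact ⟨fun i => redv v _ (c i), Finset.mem_univ _, funext hc⟩

/-- `(1 - x)^5 ≤ 1 - 3 x` for `0 ≤ x ≤ 1 / 4`, and `one_le_cS_mul_zt` -/
theorem le_delta (S : Finset (Place F)) (j : ℕ) : (1 / zt F) ^ 5 ≤ delta S j := by
  have hz : 0 < zt F := zero_lt_one.trans_le one_le_zt
  have h1 : 1 / zt F ≤ cS S := (div_le_iff₀ hz).2 (one_le_cS_mul_zt S)
  refine (pow_le_pow_left₀ (one_div_pos.2 hz).le h1 5).trans ?_
  rw [cS, ← Finset.prod_pow, delta]
  have key : ∀ v : Place F, 0 ≤ 1 / (qq F ^ dg v) ^ 2 ∧ 1 / (qq F ^ dg v) ^ 2 ≤ 1 / 4 := by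
    intro v
    have h2 : (2 : ℝ) ≤ qq F ^ dg v := by
      rw [← card_kv_real]
      exact_mod_cast Fintype.one_lt_card
    exact ⟨by positivity, one_div_le_one_div_of_le (by norm_num) (by nlinarith)⟩
  refine Finset.prod_le_prod (fun v _ => pow_nonneg (by linarith [(key v).2]) 5) fun v _ =>
    le_trans ?_ (le_nuLoc v j)
  obtain ⟨h2, h3⟩ := key v
  rw [div_eq_mul_one_div 3]
  generalize 1 / (qq F ^ dg v) ^ 2 = x at h2 h3
  have h4 : 0 ≤ 2 - 10 * x + 10 * x ^ 2 - 5 * x ^ 3 + x ^ 4 := by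
    nlinarith [mul_nonneg h2 (sub_nonneg.2 h3), sq_nonneg (x ^ 2), sq_nonneg (x - 1 / 4),
      mul_nonneg (mul_nonneg h2 h2) (sub_nonneg.2 h3)]
  nlinarith [mul_nonneg h2 h4]

/-- `mass` with `thv_isResidue`, `nonMin_smul`, `card_kv_real` -/
theorem avg_phiR (v : Place F) (j : ℕ) :
    avg Finset.univ (fun f : Model (Rv v (2 * (j + 1))) =>
      ind (¬NonMin (redv v (2 * (j + 1)) v.loc.unif) f.jac) * phiR (thv v j) f) =
      (1 - 1 / (qq F ^ dg v) ^ 2) * nuLoc v j := by
  have h := mass (thv_isResidue v j) (fun W => ind (¬NonMin (redv v (2 * (j + 1)) v.loc.unif) W))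
    fun C W => congrArg ind (propext (not_congr (nonMin_smul C W)))
  rw [card_kv_real, ← dens_eq_avg] at h
  rw [nuLoc, ← h]
  exact avg_congr fun f _ => mul_comm _ _

end SelAvg.FF
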