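import Pool.Agent.H81Sel.DensA
import Pool.Agent.H81Sel.Glob1

/-! Row DENSB: global densities from equidistribution; non-minimal equations. -/

namespace SelAvg.FF

open WeierstrassCurve WithZero Filter Topology
open scoped Classical

variable {F : Type} [Field F] [Cv F]

lemma db_ev (c : ℕ) : ∀ᶠ m in atTop, c ≤ m * pp F :=
  (eventually_ge_atTop c).mono fun m hm => hm.trans (Nat.le_mul_of_pos_right m (dg_pos _))

lemma db_one (L : Lat F 8) : ∃ b : ℕ, ∀ (m M : ℕ) (v : Place F), M * dg v + b ≤ m * pp F →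
    dens (L.box m) (fun x => v.loc.unif ^ M ∣ (toM (L.loc m v x)).jac.Δ) =
      dens Finset.univ fun f : Model (Rv v M) => f.jac.Δ = 0 := by
  obtain ⟨b, hb⟩ := L.equidist
  refine ⟨b, fun m M v h => ?_⟩
  have h1 := hb m M {v} (by simpa using h) fun w y => ind ((toM y).jac.Δ = 0)
  simp only [Finset.prod_singleton] at h1
  rw [dens_eq_avg, dens_eq_avg,
    ← avg_equiv Model.equivVec.symm fun f : Model (Rv v M) => ind (f.jac.Δ = 0), ← h1]
  refine avg_congr fun x _ => congrArg ind (propext ?_)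
  rw [← redv_eq_zero_iff, ← map_Δ, ← Model.jac_map]
  rfl

/-- `Lat.equidist`, `avg_phiR`, `nonMin_redv_iff`, `avg_equiv` -/
theorem avg_phiM (L : Lat F 8) (S : Finset (Place F)) {j : ℕ} (hj : 2 ≤ j) : ∀ᶠ m in atTop,
    avg (L.box m) (fun x => ind (∀ v ∈ S, ¬NonMin v.loc.unif (toM (L.loc m v x)).jac) *
      ∏ v ∈ S, phiR (thv v j) ((toM (L.loc m v x)).map (redv v (2 * (j + 1))))) =
      cS S * delta S j := by
  obtain ⟨b, hb⟩ := L.equidist
  filter_upwards [db_ev (F := F) (2 * (j + 1) * ∑ v ∈ S, dg v + b)] with m hm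
  have h := hb m (2 * (j + 1)) S hm fun v y =>
    ind (¬NonMin (redv v (2 * (j + 1)) v.loc.unif) (toM y).jac) * phiR (thv v j) (toM y)
  have h2 : ∀ v : Place F, avg Finset.univ (fun y : Fin 8 → Rv v (2 * (j + 1)) =>
      ind (¬NonMin (redv v (2 * (j + 1)) v.loc.unif) (toM y).jac) * phiR (thv v j) (toM y)) =
      (1 - 1 / (qq F ^ dg v) ^ 2) * nuLoc v j := fun v => by
    rw [← avg_phiR v j]
    exact avg_equiv Model.equivVec.symm fun f : Model (Rv v (2 * (j + 1))) =>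
      ind (¬NonMin (redv v (2 * (j + 1)) v.loc.unif) f.jac) * phiR (thv v j) f
  rw [Finset.prod_congr rfl fun v _ => h2 v, Finset.prod_mul_distrib] at h
  refine Eq.trans (avg_congr fun x _ => ?_) h
  rw [Finset.prod_mul_distrib, final1_ind_forall]
  refine congrArg₂ (· * ·) (Finset.prod_congr rfl fun v _ => congrArg ind (propext ?_)) rfl
  rw [← nonMin_redv_iff v hj, ← Model.jac_map]
  rfl

theorem dens_minOn (L : Lat F 5) (S : Finset (Place F)) {j : ℕ} (hj : 2 ≤ j) : ∀ᶠ m in atTop,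
    dens (L.box m) (fun x => ∀ v ∈ S, ¬NonMin v.loc.unif (toW (L.loc m v x))) = delta S j := by
  obtain ⟨b, hb⟩ := L.equidist
  filter_upwards [db_ev (F := F) (2 * (j + 1) * ∑ v ∈ S, dg v + b)] with m hm
  have h := hb m (2 * (j + 1)) S hm fun v y =>
    ind (¬NonMin (redv v (2 * (j + 1)) v.loc.unif) (toW y))
  have h2 : ∀ v : Place F, avg Finset.univ (fun y : Fin 5 → Rv v (2 * (j + 1)) =>
      ind (¬NonMin (redv v (2 * (j + 1)) v.loc.unif) (toW y))) = nuLoc v j := fun v => by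
    rw [nuLoc, dens_eq_avg]
    exact avg_equiv wEquivVec.symm fun W : WeierstrassCurve (Rv v (2 * (j + 1))) =>
      ind (¬NonMin (redv v (2 * (j + 1)) v.loc.unif) W)
  rw [Finset.prod_congr rfl fun v _ => h2 v] at h
  rw [dens_eq_avg]
  refine Eq.trans (avg_congr fun x _ => ?_) h
  rw [final1_ind_forall]
  refine Finset.prod_congr rfl fun v _ => congrArg ind (propext ?_)
  rw [← nonMin_redv_iff v hj]
  rfl

/-- `dens_Delta_tendsto`, `Lat.equidist` for one place, `dens_exists_le` -/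
theorem exists_level (S : Finset (Place F)) {ε : ℝ} (hε : 0 < ε) : ∃ j, 2 ≤ j ∧ ∀ L : Lat F 8,
    ∀ᶠ m in atTop, dens (L.box m)
      (fun x => ∃ v ∈ S, v.loc.unif ^ (2 * (j + 1)) ∣ (toM (L.loc m v x)).jac.Δ) ≤ ε := by
  have hc : (0 : ℝ) < S.card + 1 := by positivity
  obtain ⟨M, hM⟩ := eventually_atTop.1 ((eventually_all_finset S).2 fun v _ =>
    (dens_Delta_tendsto v).eventually_le_const (div_pos hε hc))
  refine ⟨M + 2, by omega, fun L => ?_⟩
  obtain ⟨b, hb⟩ := db_one L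
  filter_upwards [db_ev (F := F) (2 * (M + 2 + 1) * ∑ v ∈ S, dg v + b)] with m hm
  refine (dens_exists_le (L.box m) S fun v x =>
    v.loc.unif ^ (2 * (M + 2 + 1)) ∣ (toM (L.loc m v x)).jac.Δ).trans ?_
  refine (Finset.sum_le_card_nsmul _ _ (ε / (S.card + 1)) fun v hv => ?_).trans ?_
  · rw [hb m _ v (le_trans (Nat.add_le_add_right (Nat.mul_le_mul_left _
      (Finset.single_le_sum (f := fun v : Place F => dg v) (fun _ _ => Nat.zero_le _) hv)) b) hm)]
    exact hM (M + 2) (by omega) v hv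
  · rw [nsmul_eq_mul, ← mul_div_assoc, div_le_iff₀ hc]
    nlinarith

/-- `dens_V_sq_le`, `Lat.equidist` for one place, `sum_le_tau` (the places lie in a `plLE`) -/
theorem dens_medium (L : Lat F 8) : ∃ b : ℕ, ∀ N m : ℕ, dens (L.box m)
    (fun x => ∃ v : Place F, N < dg v ∧ 2 * dg v + b ≤ m * pp F ∧
      v.loc.unif ^ 2 ∣ (toM (L.loc m v x)).jac.Δ) ≤ 4 * tau F N := by
  obtain ⟨b, hb⟩ := db_one L
  refine ⟨b, fun N m => ?_⟩
  set T := (plLE F (m * pp F)).filter fun v => N < dg v ∧ 2 * dg v + b ≤ m * pp F with hT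
  refine (dens_mono (Q := fun x => ∃ v ∈ T,
    v.loc.unif ^ (2 * (0 + 1)) ∣ (toM (L.loc m v x)).jac.Δ) ?_).trans ?_
  · rintro x - ⟨v, h1, h2, h3⟩
    exact ⟨v, Finset.mem_filter.2 ⟨mem_plLE.2 (by omega), h1, h2⟩, h3⟩
  refine (dens_exists_le (L.box m) T fun v x =>
    v.loc.unif ^ (2 * (0 + 1)) ∣ (toM (L.loc m v x)).jac.Δ).trans ?_
  refine le_trans (Finset.sum_le_sum (g := fun v => 4 * (1 / (qq F ^ dg v) ^ 2)) fun v hv => ?_) ?_
  · rw [hb m _ v (Finset.mem_filter.1 hv).2.2, mul_one_div]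
    exact dens_V_sq_le v
  · rw [← Finset.mul_sum]
    exact mul_le_mul_of_nonneg_left
      (sum_le_tau T fun v hv => (Finset.mem_filter.1 hv).2.1) (by norm_num)

omit [Cv F] in
lemma db_vec_map {R S : Type} [CommRing R] [CommRing S] (φ : R →+* S) (W : WeierstrassCurve R)
    (i : Fin 5) : wEquivVec (W.map φ) i = φ (wEquivVec W i) := by
  fin_cases i <;> rfl

omit [Cv F] in
lemma db_wsh_map {R S : Type} [CommRing R] [CommRing S] (φ : R →+* S) (r s t : R)
    (W : WeierstrassCurve R) : (wsh r s t • W).map φ = wsh (φ r) (φ s) (φ t) • W.map φ := by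
  rw [← map_variableChange]
  congr 1
  simp [wsh, VariableChange.map]

/-- the correction terms of a shift -/
def dbPsi {R : Type} [CommRing R] (r s t : R) (a : Fin 5 → R) : Fin 5 → R :=
  ![2 * s, -s * a 0 + 3 * r - s ^ 2, r * a 0 + 2 * t,
    -s * a 2 + 2 * r * a 1 - (t + r * s) * a 0 + 3 * r ^ 2 - 2 * s * t,
    r * a 3 + r ^ 2 * a 1 + r ^ 3 - t * a 2 - t ^ 2 - r * t * a 0]

lemma db_vec_wsh {R : Type} [CommRing R] (r s t : R) (W : WeierstrassCurve R) (i : Fin 5) :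
    wEquivVec (wsh r s t • W) i = wEquivVec W i + dbPsi r s t (wEquivVec W) i := by
  fin_cases i <;> simp [wEquivVec, dbPsi, wsh, variableChange_def] <;> ring

lemma db_vec_wdiag {R : Type} [CommRing R] (u : Rˣ) (W : WeierstrassCurve R) (i : Fin 5) :
    wEquivVec (wdiag u • W) i = ((u⁻¹ ^ kW i : Rˣ) : R) * wEquivVec W i := by
  fin_cases i <;> simp [wEquivVec, kW, wdiag, variableChange_def]

lemma db_psi_congr {R : Type} [CommRing R] (r s t : R) (i : Fin 5) (a a' : Fin 5 → R)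
    (h : ∀ j, j < i → a j = a' j) : dbPsi r s t a i = dbPsi r s t a' i := by
  fin_cases i
  · rfl
  · simp [dbPsi, h 0 (by decide)]
  · simp [dbPsi, h 0 (by decide)]
  · simp [dbPsi, h 0 (by decide), h 1 (by decide), h 2 (by decide)]
  · simp [dbPsi, h 0 (by decide), h 1 (by decide), h 2 (by decide), h 3 (by decide)]

lemma db_dvd_vec {R : Type} [CommRing R] {ϖ : R} {W : WeierstrassCurve R} (h : DvdW ϖ W)
    (i : Fin 5) : ϖ ^ kW i ∣ wEquivVec W i := by
  obtain ⟨h1, h2, h3, h4, h6⟩ := h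
  fin_cases i
  · simpa [kW, wEquivVec] using h1
  · exact h2
  · exact h3
  · exact h4
  · exact h6

omit [Cv F] in
lemma db_sec (v : Place F) (M : ℕ) : ∃ σ : Rv v M → Oh F, ∀ x : v.loc.O,
    v.loc.unif ^ M ∣ prO v (σ (redv v M x)) - x := by
  have h : ∀ y : Rv v M, ∃ a : Oh F, redv v M (prO v a) = y := fun y => by
    obtain ⟨x, rfl⟩ := (redv_isRed v M).surj y
    obtain ⟨a, ha⟩ := exists_Oh (Function.update (fun w : Place F => (0 : w.loc.O)) v x)
    exact ⟨a, by rw [ha, Function.update_self]⟩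
  choose σ hσ using h
  exact ⟨σ, fun x => by rw [← redv_eq_zero_iff, map_sub, hσ, sub_self]⟩

omit [Cv F] in
lemma db_mem_AD {v : Place F} {k : ℕ} {a : Oh F} (h : v.loc.unif ^ k ∣ prO v a) :
    (a : A F) ∈ AD (-(k • Finsupp.single v (1 : ℤ)) : Div F) := by
  intro w
  by_cases hw : w = v
  · subst hw
    have h1 : w.vc (pr w (a : A F)) ≤ exp (-(k : ℤ)) := (w.loc.le_exp_iff_dvd (prO w a) k).2 h
    simpa using h1
  · have h1 : (-(k • Finsupp.single v (1 : ℤ)) : Div F) w = 0 := by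
      simp [Ne.symm hw]
    rw [h1, exp_zero]
    exact a.2 w

lemma db_card_le (D : Div F) (v : Place F) (r s t : Oh F) :
    ((WB D).filter fun W => DvdW v.loc.unif
      (wsh (prO v r) (prO v s) (prO v t) • locW v D W)).card ≤
      ∏ i, (box (kW i • (D - Finsupp.single v 1))).card := by
  rw [← Finset.card_map wEquivVec.toEmbedding]
  set u : (A F)ˣ := piD (-D) with hu
  refine card_tri_le _ (fun i x => dbPsi ((u : A F) ^ 2 * inc F r) ((u : A F) * inc F s)
    ((u : A F) ^ 3 * inc F t)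
    (fun j => toA F (x j)) i) (fun i x y h => db_psi_congr _ _ _ i _ _ fun j hj => by rw [h j hj])
    _ fun x hx i => ?_
  obtain ⟨W, hW, rfl⟩ := Finset.mem_map.1 hx
  obtain ⟨hW, hd⟩ := Finset.mem_filter.1 hW
  obtain ⟨W₀, h0⟩ := mem_WB_iff_int.1 hW
  rw [locW_eq h0, ← db_wsh_map] at hd
  have h1 := db_dvd_vec hd i
  rw [db_vec_map] at h1
  have h2 := db_mem_AD h1
  have h3 : ((wEquivVec (wsh r s t • W₀) i : Oh F) : A F) =
      wEquivVec ((wsh r s t • W₀).map (inc F)) i := (db_vec_map (inc F) _ i).symm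
  rw [h3, db_wsh_map, h0, cW, ← mul_smul, wsh_mul_wdiag, mul_smul, db_vec_wdiag, unit_mul_mem_AD,
    db_vec_wsh, db_vec_map, idiv_pow, idiv_inv, idiv_piD, neg_neg] at h2
  have h4 : wEquivVec (W.map (toA F)) = fun j => toA F (wEquivVec W j) :=
    funext fun j => db_vec_map _ _ j
  rw [h4] at h2
  rw [smul_sub, sub_eq_neg_add]
  exact h2

theorem db_dg_le {D : Div F} {W : WeierstrassCurve F} (hW : W ∈ WB D) (hΔ : W.Δ ≠ 0)
    {v : Place F} (h : NonMin v.loc.unif (locW v D W)) : (dg v : ℤ) ≤ deg D := by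
  by_contra hlt
  refine hΔ (eq_zero_of_deg_neg (D := (12 : ℕ) • (D - Finsupp.single v 1)) ?_ fun w => ?_)
  · rw [map_nsmul, map_sub, deg_single, nsmul_eq_mul]
    push_cast
    omega
  · have h1 := v_locW_Delta hW w
    have h2 : w.vc ((locW w D W).Δ : w.Compl) ≤ exp (-(12 * (Finsupp.single v (1 : ℤ) : Div F) w)) := by
      by_cases hw : w = v
      · subst hw
        have h3 : w.vc ((locW w D W).Δ : w.Compl) ≤ exp (-((12 : ℕ) : ℤ)) :=
          (w.loc.le_exp_iff_dvd _ _).2 h.dvd_Delta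
        simpa using h3
      · rw [Finsupp.single_eq_of_ne hw, mul_zero, neg_zero, exp_zero]
        exact w.loc.v_le_one _
    rw [h1, v_eq_exp w hΔ, ← exp_add, exp_le_exp] at h2
    rw [v_eq_exp w hΔ, exp_le_exp]
    simp only [Finsupp.smul_apply, Finsupp.sub_apply, nsmul_eq_mul]
    push_cast
    omega

/-- If `W ∈ WB D` is nonsingular and not minimal at `v` then `12 dg v ≤ 12 deg D`
(`NonMin.dvd_Delta`, `v_locW_Delta`, `eq_zero_of_deg_neg`).  Reduce `r, s, t` modulo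
`ϖ^2, ϖ, ϖ^3` (`DvdW.wsh`, `wsh_mul`): `q_v^6` choices.  For each choice, regarded as adeles
supported at `v`, the conditions form a triangular system with divisors `i (D - v)`;
`card_tri_le`, `card_box_le 0`, `card_WB`. -/
theorem dens_nonMin_one : ∃ C : ℝ, 0 ≤ C ∧ ∀ D : Div F, (c0 F : ℤ) ≤ deg D → ∀ v : Place F,
    dens (WB D) (fun W => W.Δ ≠ 0 ∧ NonMin v.loc.unif (locW v D W)) ≤
      C * (1 / (qq F ^ dg v) ^ 2) := by
  obtain ⟨C, hC1, hC⟩ := card_box_le (F := F) 0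
  have hC0 : 0 ≤ C := zero_le_one.trans hC1
  refine ⟨C ^ 5, by positivity, fun D hD v => ?_⟩
  have hq : (1 : ℝ) < qq F := one_lt_qq
  have hq0 : (0 : ℝ) < qq F := zero_lt_one.trans hq
  suffices H : ∀ U : Finset (WeierstrassCurve F),
      (∀ W ∈ U, W ∈ WB D ∧ W.Δ ≠ 0 ∧ NonMin v.loc.unif (locW v D W)) →
      (U.card : ℝ) ≤ C ^ 5 * (1 / (qq F ^ dg v) ^ 2) * (WB D).card from
    dens_le_of_card_le (H _ fun W hW => by simpa only [Finset.mem_filter] using hW) (by positivity)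
  intro U hU
  rcases U.eq_empty_or_nonempty with rfl | ⟨W₁, hW₁⟩
  · rw [Finset.card_empty, Nat.cast_zero]
    positivity
  obtain ⟨hW₁, hΔ₁, hn₁⟩ := hU W₁ hW₁
  have hdg := db_dg_le hW₁ hΔ₁ hn₁
  obtain ⟨σ2, h2⟩ := db_sec v 2
  obtain ⟨σ1, h1⟩ := db_sec v 1
  obtain ⟨σ3, h3⟩ := db_sec v 3
  have hsub : U ⊆
      (Finset.univ : Finset (Rv v 2 × Rv v 1 × Rv v 3)).biUnion fun τ => (WB D).filter fun W =>
        DvdW v.loc.unif (wsh (prO v (σ2 τ.1)) (prO v (σ1 τ.2.1)) (prO v (σ3 τ.2.2)) • locW v D W) := by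
    intro W hW
    obtain ⟨hW, -, r, s, t, hd⟩ := hU W hW
    refine Finset.mem_biUnion.2 ⟨(redv v 2 r, redv v 1 s,
      redv v 3 ((prO v (σ2 (redv v 2 r)) - r) * s + t)), Finset.mem_univ _,
      Finset.mem_filter.2 ⟨hW, ?_⟩⟩
    have h4 := hd.wsh (h2 r) (by simpa using h1 s) (h3 ((prO v (σ2 (redv v 2 r)) - r) * s + t))
    rw [← mul_smul, wsh_mul] at h4
    convert h4 using 3 <;> ring
  have hcard := (Finset.card_le_card hsub).trans (Finset.card_biUnion_le_card_mul _ _ _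
    fun τ _ => db_card_le D v (σ2 τ.1) (σ1 τ.2.1) (σ3 τ.2.2))
  have hT : ((Finset.univ : Finset (Rv v 2 × Rv v 1 × Rv v 3)).card : ℝ) = (qq F ^ dg v) ^ 6 := by
    rw [Finset.card_univ, Fintype.card_prod, Fintype.card_prod, card_Rv, card_Rv, card_Rv]
    push_cast
    rw [card_kv_real]
    ring
  have hb : ∀ i, ((box (kW i • (D - Finsupp.single v 1))).card : ℝ) ≤
      C * qq F ^ ((kW i : ℤ) * (deg D - dg v) + cc F) := fun i => by
    have e : deg (kW i • (D - Finsupp.single v 1)) = (kW i : ℤ) * (deg D - dg v) := by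
      rw [map_nsmul, map_sub, deg_single, nsmul_eq_mul, one_mul]
    rw [← e]
    refine hC _ ?_
    rw [e, Nat.cast_zero, neg_zero]
    exact mul_nonneg (Nat.cast_nonneg _) (by omega)
  have hp : (∏ i, ((box (kW i • (D - Finsupp.single v 1))).card : ℝ)) ≤
      C ^ 5 * qq F ^ (16 * (deg D - dg v) + 5 * cc F) := by
    refine (Finset.prod_le_prod (fun i _ => Nat.cast_nonneg _) fun i _ => hb i).trans (le_of_eq ?_)
    rw [Finset.prod_mul_distrib, Finset.prod_const, Finset.card_univ, Fintype.card_fin,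
      Fin.prod_univ_five, ← zpow_add₀ hq0.ne', ← zpow_add₀ hq0.ne', ← zpow_add₀ hq0.ne',
      ← zpow_add₀ hq0.ne']
    congr 2
    simp only [kW, Matrix.cons_val]
    push_cast
    ring
  have hQ : (1 : ℝ) ≤ qq F ^ dg v := one_le_pow₀ hq.le
  have e2 : qq F ^ (16 * deg D + 5 * cc F) =
      qq F ^ (16 * (deg D - dg v) + 5 * cc F) * (qq F ^ dg v) ^ 16 := by
    rw [← pow_mul, ← zpow_natCast, ← zpow_add₀ hq0.ne']
    congr 1
    push_cast
    ring
  have hX : 0 ≤ qq F ^ (16 * (deg D - dg v) + 5 * cc F) := by positivity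
  refine le_trans (Nat.cast_le.2 hcard) ?_
  rw [Nat.cast_mul, Nat.cast_prod, hT, card_WB hD, e2]
  refine (mul_le_mul_of_nonneg_left hp (by positivity)).trans ?_
  generalize qq F ^ (16 * (deg D - dg v) + 5 * cc F) = X at hX ⊢
  generalize qq F ^ dg v = Q at hQ ⊢
  have hQ0 : 0 < Q := zero_lt_one.trans_le hQ
  have e3 : C ^ 5 * (1 / Q ^ 2) * (X * Q ^ 16) = Q ^ 14 * (C ^ 5 * X) := by
    field_simp
  rw [e3]
  exact mul_le_mul_of_nonneg_right (pow_le_pow_right₀ hQ (by norm_num)) (by positivity)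

theorem dg_le_of_nonMin {D : Div F} {W : WeierstrassCurve F} (hW : W ∈ WB D) (hΔ : W.Δ ≠ 0)
    {v : Place F} (h : NonMin v.loc.unif (locW v D W)) : (dg v : ℤ) ≤ deg D := by
  exact db_dg_le hW hΔ h

theorem dens_nonMin : ∃ C : ℝ, 0 ≤ C ∧ ∀ D : Div F, (c0 F : ℤ) ≤ deg D → ∀ N : ℕ,
    dens (WB D) (fun W => W.Δ ≠ 0 ∧ ∃ v : Place F, N < dg v ∧ NonMin v.loc.unif (locW v D W)) ≤
      C * tau F N := by
  obtain ⟨C, hC0, hC⟩ := dens_nonMin_one (F := F)
  refine ⟨C, hC0, fun D hD N => ?_⟩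
  set T := (plLE F (deg D).toNat).filter fun v => N < dg v with hT
  refine (dens_mono (Q := fun W => ∃ v ∈ T, W.Δ ≠ 0 ∧ NonMin v.loc.unif (locW v D W)) ?_).trans ?_
  · rintro W hW ⟨hΔ, v, h1, h2⟩
    have h3 := dg_le_of_nonMin hW hΔ h2
    exact ⟨v, Finset.mem_filter.2 ⟨mem_plLE.2 (by omega), h1⟩, hΔ, h2⟩
  refine (dens_exists_le (WB D) T fun v W => W.Δ ≠ 0 ∧ NonMin v.loc.unif (locW v D W)).trans ?_
  refine (Finset.sum_le_sum fun v _ => hC D hD v).trans ?_
  rw [← Finset.mul_sum]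
  exact mul_le_mul_of_nonneg_left (sum_le_tau T fun v hv => (Finset.mem_filter.1 hv).2) hC0

end SelAvg.FF
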