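import Pool.Agent.H81Sel.Base

/-! Row DV: orders, degrees, the spaces `L(D)`, places of bounded degree. -/

namespace SelAvg.FF

open WeierstrassCurve WithZero Filter Topology
open scoped Classical

variable {F : Type} [Field F]

lemma v_eq_exp (v : Place F) {x : F} (hx : x ≠ 0) : v.1 x = exp (-ord v x) := by
  simp only [ord, neg_neg, exp_log (v.1.ne_zero_iff.2 hx)]

lemma ord_mul (v : Place F) {x y : F} (hx : x ≠ 0) (hy : y ≠ 0) :
    ord v (x * y) = ord v x + ord v y := by
  have h := map_mul v.1 x y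
  rw [v_eq_exp v (mul_ne_zero hx hy), v_eq_exp v hx, v_eq_exp v hy, ← exp_add, exp_inj] at h
  omega

lemma v_unifF (v : Place F) : v.1 (unifF v) = exp (-1) := by
  exact (v.2 (exp (-1))).choose_spec

lemma LL_mono {D E : Div F} (h : D ≤ E) : LL D ≤ LL E := by
  exact fun x hx v => (hx v).trans (exp_le_exp.2 (h v))

lemma mul_mem_LL {D E : Div F} {x y : F} (hx : x ∈ LL D) (hy : y ∈ LL E) : x * y ∈ LL (D + E) := by
  intro v
  rw [map_mul, Finsupp.add_apply, exp_add]
  exact mul_le_mul' (hx v) (hy v)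

lemma pow_mem_LL {D : Div F} {x : F} (hx : x ∈ LL D) (n : ℕ) : x ^ n ∈ LL (n • D) := by
  induction n with
  | zero => intro v; simp
  | succ n ih => rw [pow_succ, succ_nsmul]; exact mul_mem_LL ih hx

lemma one_mem_LL {D : Div F} (h : 0 ≤ D) : (1 : F) ∈ LL D := by
  intro v
  rw [map_one, ← exp_zero, exp_le_exp]
  exact h v

lemma natCast_mem_LL (n : ℕ) : (n : F) ∈ LL (0 : Div F) := by
  induction n with
  | zero => rw [Nat.cast_zero]; exact zero_mem _
  | succ n ih => rw [Nat.cast_succ]; exact add_mem ih (one_mem_LL le_rfl)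

variable [Cv F]

lemma one_lt_qq : 1 < qq F := by
  have h := Cv.two_le (F := F)
  exact_mod_cast h

/-- the residue field is nontrivial, `Cv.q_eq` -/
lemma dg_pos (v : Place F) : 0 < dg v := by
  refine Nat.pos_of_ne_zero fun h => ?_
  have h1 := Cv.q_eq v
  have := Cv.res_fin v
  have h2 : 1 < v.q := Finite.one_lt_card
  rw [show Cv.dg v = 0 from h, pow_zero] at h1
  omega

@[simp] lemma deg_single (v : Place F) (m : ℤ) : deg (Finsupp.single v m) = m * dg v := by
  rw [deg_eq, Finsupp.sum_single_index (by simp)]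

@[simp] lemma deg_PP : deg (PP F) = pp F := by
  rw [PP, deg_single, one_mul]

lemma PP_nonneg : 0 ≤ PP F := by
  exact Finsupp.single_nonneg.2 zero_le_one

lemma deg_nonneg {D : Div F} (h : 0 ≤ D) : 0 ≤ deg D := by
  exact Finset.sum_nonneg fun v _ => mul_nonneg (h v) (Nat.cast_nonneg _)

lemma deg_mono {D E : Div F} (h : D ≤ E) : deg D ≤ deg E := by
  have h1 := deg_nonneg (sub_nonneg.2 h)
  rw [map_sub] at h1
  omega

lemma eq_of_le_of_deg {D E : Div F} (h : D ≤ E) (hd : deg E ≤ deg D) : D = E := by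
  have h1 : 0 ≤ E - D := sub_nonneg.2 h
  have h2 : deg (E - D) = 0 := le_antisymm (by rw [map_sub]; omega) (deg_nonneg h1)
  have h3 := (Finset.sum_eq_zero_iff_of_nonneg
    fun v _ => mul_nonneg (h1 v) (Nat.cast_nonneg (dg v))).1 h2
  refine (sub_eq_zero.1 (Finsupp.ext fun v => ?_)).symm
  by_contra hv
  have h4 := h3 v (Finsupp.mem_support_iff.2 hv)
  have h5 := dg_pos v
  rcases mul_eq_zero.1 h4 with h6 | h6
  · exact hv h6
  · omega

lemma dv_zero : dv (0 : F) = 0 := Finsupp.ext fun v => by simp [dv_apply, ord]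

@[simp] lemma deg_dv (x : F) : deg (dv x) = 0 := by
  by_cases hx : x = 0
  · rw [hx, dv_zero, map_zero]
  · exact Cv.prod x (dv x) hx fun _ => rfl

lemma dv_mul {x y : F} (hx : x ≠ 0) (hy : y ≠ 0) : dv (x * y) = dv x + dv y := by
  exact Finsupp.ext fun v => ord_mul v hx hy

@[simp] lemma dv_one : dv (1 : F) = 0 := by
  exact Finsupp.ext fun v => by simp [dv_apply, ord]

@[simp] lemma dv_inv (x : F) : dv x⁻¹ = -dv x := by
  exact Finsupp.ext fun v => by simp [dv_apply, ord]

lemma dv_pow (x : F) (n : ℕ) : dv (x ^ n) = n • dv x := by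
  exact Finsupp.ext fun v => by simp [dv_apply, ord]

lemma mem_LL_iff {D : Div F} {x : F} : x ∈ LL D ↔ x = 0 ∨ 0 ≤ dv x + D := by
  by_cases hx : x = 0
  · subst hx
    exact iff_of_true (zero_mem _) (Or.inl rfl)
  rw [mem_LL, or_iff_right hx, Finsupp.le_def]
  refine forall_congr' fun v => ?_
  rw [v_eq_exp v hx, exp_le_exp, Finsupp.add_apply, dv_apply, Finsupp.zero_apply]
  omega

lemma mem_LL_neg_dv (x : F) : x ∈ LL (-dv x) := by
  rw [mem_LL_iff, add_neg_cancel]
  exact Or.inr le_rfl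

lemma mul_mem_LL_iff {u : F} (hu : u ≠ 0) {D : Div F} {x : F} :
    u * x ∈ LL D ↔ x ∈ LL (D + dv u) := by
  by_cases hx : x = 0
  · subst hx
    rw [mul_zero]
    exact iff_of_true (zero_mem _) (zero_mem _)
  rw [mem_LL_iff, mem_LL_iff, or_iff_right hx, or_iff_right (mul_ne_zero hu hx), dv_mul hu hx,
    show dv u + dv x + D = dv x + (D + dv u) by abel]

/-- finitely many elements have a common bound -/
lemma exists_mem_LL {ι : Type} [Finite ι] (x : ι → F) : ∃ B : Div F, 0 ≤ B ∧ ∀ i, x i ∈ LL B := by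
  have := Fintype.ofFinite ι
  refine ⟨∑ i, (-dv (x i))⁺, Finset.sum_nonneg fun i _ => posPart_nonneg _, fun i => ?_⟩
  exact LL_mono ((le_posPart _).trans (Finset.single_le_sum (f := fun i => (-dv (x i))⁺)
    (fun i _ => posPart_nonneg _) (Finset.mem_univ i))) (mem_LL_neg_dv _)

lemma eq_zero_of_deg_neg {D : Div F} (h : deg D < 0) {x : F} (hx : x ∈ LL D) : x = 0 := by
  refine (mem_LL_iff.1 hx).resolve_right fun h1 => ?_
  have h2 := deg_nonneg h1
  rw [map_add, deg_dv] at h2
  omega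

lemma dv_le (D : Div F) (n : ℕ) : D ≤ D + n • PP F :=
  le_add_of_nonneg_right (nsmul_nonneg PP_nonneg n)

lemma dv_deg_add (D : Div F) (n : ℕ) : deg (D + n • PP F) = deg D + n * pp F := by
  rw [map_add, map_nsmul, deg_PP, nsmul_eq_mul]

lemma dv_le_deg (D : Div F) (n : ℕ) : deg D + n ≤ deg (D + n • PP F) := by
  have h : (n : ℤ) * 1 ≤ n * pp F := mul_le_mul_of_nonneg_left
    (by exact_mod_cast dg_pos (Cv.P : Place F)) (Nat.cast_nonneg n)
  rw [dv_deg_add]
  omega

/-- `L(D) ≤ L(D + m P)` and `Cv.rr` (a set with nonzero `Nat.card` is finite) -/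
theorem finite_LL (D : Div F) : (LL D : Set F).Finite := by
  have h1 : (c0 F : ℤ) ≤ deg (D + (c0 F - deg D).toNat • PP F) := by
    have := dv_le_deg D (c0 F - deg D).toNat
    omega
  have h2 := Cv.rr _ h1
  have h3 : Nat.card (LL (D + (c0 F - deg D).toNat • PP F)) ≠ 0 := fun h => by
    rw [h, Nat.cast_zero] at h2
    exact (zpow_pos (zero_lt_one.trans (one_lt_qq (F := F))) _).ne h2
  exact Set.Finite.subset (Nat.finite_of_card_ne_zero h3) (LL_mono (dv_le D _))

lemma mem_box {D : Div F} {x : F} : x ∈ box D ↔ x ∈ LL D := by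
  rw [box, dif_pos (finite_LL D), Set.Finite.mem_toFinset, SetLike.mem_coe]

lemma zero_mem_box (D : Div F) : (0 : F) ∈ box D := by
  exact mem_box.2 (zero_mem _)

theorem card_box {D : Div F} (h : (c0 F : ℤ) ≤ deg D) :
    ((box D).card : ℝ) = qq F ^ (deg D + cc F) := by
  refine Eq.trans ?_ (Cv.rr D h)
  rw [box, dif_pos (finite_LL D), ← Set.ncard_eq_toFinset_card _ (finite_LL D)]
  rfl

lemma dv_box_mono {D E : Div F} (h : D ≤ E) : box D ⊆ box E :=
  fun _ hx => mem_box.2 (LL_mono h (mem_box.1 hx))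

/-- the spaces `L(E + n P)` become arbitrarily large -/
lemma dv_big (E : Div F) (K : ℝ) : ∃ n : ℕ, K < (box (E + n • PP F)).card := by
  have hq := one_lt_qq (F := F)
  obtain ⟨m, hm⟩ := pow_unbounded_of_one_lt K hq
  have h := dv_le_deg E ((c0 F - deg E).toNat + (m - cc F - deg E).toNat)
  refine ⟨(c0 F - deg E).toNat + (m - cc F - deg E).toNat, hm.trans_le ?_⟩
  rw [card_box (by omega), ← zpow_natCast]
  exact zpow_le_zpow_right₀ hq.le (by omega)

/-- add a multiple `j P` with `c0 ≤ deg D + j p`; `j` is bounded in terms of `b` -/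
theorem card_box_le (b : ℕ) : ∃ C : ℝ, 1 ≤ C ∧ ∀ D : Div F, -(b : ℤ) ≤ deg D →
    ((box D).card : ℝ) ≤ C * qq F ^ (deg D + cc F) := by
  have hq := one_lt_qq (F := F)
  refine ⟨qq F ^ (((c0 F + b : ℕ) : ℤ) * pp F), one_le_zpow₀ hq.le (by positivity), fun D hD => ?_⟩
  have h1 : (c0 F : ℤ) ≤ deg (D + (c0 F + b) • PP F) := by
    have := dv_le_deg D (c0 F + b)
    omega
  refine le_trans (Nat.cast_le.2 (Finset.card_le_card (dv_box_mono (dv_le D (c0 F + b))))) ?_
  rw [card_box h1, dv_deg_add, ← zpow_add₀ (by linarith)]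
  exact le_of_eq (congrArg _ (by ring))

/-- for divisors of bounded degree the spaces have bounded size -/
theorem card_box_le' (b : ℤ) : ∃ C : ℝ, 1 ≤ C ∧ ∀ D : Div F, deg D ≤ b → ((box D).card : ℝ) ≤ C := by
  have hq := one_lt_qq (F := F)
  obtain ⟨C, h1, hC⟩ := card_box_le (F := F) 0
  refine ⟨max 1 (C * qq F ^ (b + cc F)), le_max_left _ _, fun D hD => ?_⟩
  by_cases h : deg D < 0
  · refine le_max_of_le_left ?_
    exact_mod_cast Finset.card_le_one.2 fun x hx y hy => by
      rw [eq_zero_of_deg_neg h (mem_box.1 hx), eq_zero_of_deg_neg h (mem_box.1 hy)]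
  · refine le_max_of_le_right ((hC D (by omega)).trans ?_)
    exact mul_le_mul_of_nonneg_left (zpow_le_zpow_right₀ hq.le (by omega)) (by linarith)

omit [Cv F] in
lemma dv_sum_apply (T : Finset (Place F)) (v : Place F) :
    (∑ w ∈ T, Finsupp.single w 1 : Div F) v = if v ∈ T then 1 else 0 := by
  simp [Finsupp.finsetSum_apply, Finsupp.single_apply]

/-- a nonzero element of `L(E)` has at most `deg E` zeros outside the support of `E`
(it lies in `L(E - ∑ T)`) -/
theorem card_zeros_le {E : Div F} {x : F} (hx : x ≠ 0) (hE : x ∈ LL E) (T : Finset (Place F))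
    (hT : ∀ v ∈ T, E v = 0 ∧ v.1 x < 1) : (T.card : ℤ) ≤ deg E := by
  have h1 : x ∈ LL (E - ∑ v ∈ T, Finsupp.single v 1) := fun v => by
    rw [Finsupp.sub_apply, dv_sum_apply]
    split_ifs with hv
    · rw [(hT v hv).1, zero_sub]
      exact (LocalField.lt_one_iff _).1 (hT v hv).2
    · rw [sub_zero]
      exact hE v
  have h2 : 0 ≤ deg (E - ∑ v ∈ T, Finsupp.single v 1) :=
    not_lt.1 fun h => hx (eq_zero_of_deg_neg h h1)
  rw [map_sub, map_sum] at h2
  have h3 : ∑ _v ∈ T, (1 : ℤ) ≤ ∑ v ∈ T, deg (Finsupp.single v 1) :=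
    Finset.sum_le_sum fun v _ => by
      have := dg_pos v
      rw [deg_single]
      omega
  rw [Finset.sum_const, nsmul_one] at h3
  omega

theorem infinite_field : Infinite F := by
  have : Infinite ℤᵐ⁰ := Infinite.of_injective (exp : ℤ → ℤᵐ⁰) fun _ _ => exp_inj.1
  exact Infinite.of_surjective _ (Cv.P : Place F).2

/-- the integers lie in the finite set `L(0)` -/
theorem prime_ringChar : (ringChar F).Prime := by
  refine (CharP.char_is_prime_or_zero F (ringChar F)).resolve_right fun h => ?_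
  have : CharP F 0 := h ▸ ringChar.charP F
  have := CharP.charP_to_charZero F
  exact Set.infinite_of_injective_forall_mem (Nat.cast_injective (R := F)) natCast_mem_LL
    (finite_LL 0)

/-- Take `t` that is not a root of `X^Q - X`, `Q = q^(N!)`.  A place of degree at most `N` is a
pole of `t` or a zero of `t^Q - t` (the residue field has `q^dg` elements and `dg ∣ N!`). -/
theorem finite_dg_le (N : ℕ) : {v : Place F | dg v ≤ N}.Finite := by
  have := infinite_field (F := F)
  have hQ : 1 < Cv.q F ^ N.factorial := Nat.one_lt_pow (Nat.factorial_ne_zero N) Cv.two_le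
  obtain ⟨t, ht⟩ := Infinite.exists_notMem_finset
    (Polynomial.X ^ (Cv.q F ^ N.factorial) - Polynomial.X : Polynomial F).roots.toFinset
  rw [Multiset.mem_toFinset, Polynomial.mem_roots (FiniteField.X_pow_card_sub_X_ne_zero F hQ)] at ht
  have h1 : t ^ (Cv.q F ^ N.factorial) - t ≠ 0 := by simpa using ht
  have h0 : t ≠ 0 := by
    rintro rfl
    exact h1 (by rw [zero_pow (by omega), sub_zero])
  refine ((Cv.fin_supp t h0).union (Cv.fin_supp _ h1)).subset fun v hv => ?_
  by_cases h : v.1 t = 1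
  swap
  · exact Or.inl h
  refine Or.inr (ne_of_lt ?_)
  have := Cv.res_fin v
  have := Fintype.ofFinite (IsLocalRing.ResidueField v.1.valuationSubring)
  obtain ⟨e, he⟩ := Nat.dvd_factorial (dg_pos v) hv
  have h2 : Fintype.card (IsLocalRing.ResidueField v.1.valuationSubring) = Cv.q F ^ dg v := by
    rw [← Nat.card_eq_fintype_card]
    exact Cv.q_eq v
  let s : v.1.valuationSubring := ⟨t, h.le⟩
  have h3 : IsLocalRing.residue _ (s ^ (Cv.q F ^ N.factorial) - s) = 0 := by
    rw [map_sub, map_pow, he, pow_mul, ← h2, FiniteField.pow_card_pow, sub_self]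
  rw [IsLocalRing.residue_eq_zero_iff] at h3
  exact (Valuation.mem_maximalIdeal_iff F v.1).1 h3

variable (F) in
/-- the places of degree at most `N` -/
noncomputable def plLE (N : ℕ) : Finset (Place F) := (finite_dg_le (F := F) N).toFinset

lemma mem_plLE {N : ℕ} {v : Place F} : v ∈ plLE F N ↔ dg v ≤ N := by
  simp [plLE]

/-- Otherwise let `D = n P - ∑ (v ≠ P)`... simplest: if the set `S` of all places is finite, the
units with divisor supported anywhere are `L(D) \ 0`; the number of effective divisors of degree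
`n` is at most `(n + 1)^card S`, while each nonzero `x ∈ L(n P)` gives the effective divisor
`dv x + n P` of degree `n p` and each divisor arises from at most `card (box 0)` elements. -/
theorem infinite_place : Infinite (Place F) := by
  by_contra hf
  rw [not_infinite_iff_finite] at hf
  have := Fintype.ofFinite (Place F)
  obtain ⟨n, hn⟩ := dv_big (-∑ v : Place F, Finsupp.single v 1) ((box (0 : Div F)).card)
  obtain ⟨y, hy, hy0⟩ := Finset.exists_mem_notMem_of_card_lt_card (Nat.cast_lt.1 hn)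
  rw [mem_box] at hy hy0
  have h1 : ∀ v : Place F, v ≠ Cv.P → v.1 y < 1 := fun v hv => by
    have h := hy v
    rw [Finsupp.add_apply, Finsupp.neg_apply, dv_sum_apply, if_pos (Finset.mem_univ v),
      Finsupp.smul_apply, PP, Finsupp.single_eq_of_ne hv, smul_zero, add_zero] at h
    exact (LocalField.lt_one_iff _).2 h
  have h2 : 1 < (Cv.P : Place F).1 y := not_le.1 fun h => hy0 fun v => by
    by_cases hv : v = Cv.P
    · exact hv ▸ h
    · exact (h1 v hv).le
  have h3 : (Cv.P : Place F).1 (1 + y) = (Cv.P : Place F).1 y :=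
    Valuation.map_add_eq_of_lt_right _ (by rwa [map_one])
  have h4 : (1 + y)⁻¹ ∈ LL (-PP F) := fun v => by
    rw [map_inv₀, Finsupp.neg_apply, PP]
    by_cases hv : v = Cv.P
    · subst hv
      rw [h3, Finsupp.single_eq_same]
      exact (LocalField.lt_one_iff _).1 (inv_lt_one_of_one_lt₀ h2)
    · rw [Finsupp.single_eq_of_ne hv, Valuation.map_one_add_of_lt _ (h1 v hv)]
      simp
  have h5 := eq_zero_of_deg_neg (by
    have : 0 < pp F := dg_pos _
    rw [map_neg, deg_PP]
    omega) h4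
  rw [inv_eq_zero.1 h5, map_zero] at h3
  rw [← h3] at h2
  exact not_lt_zero h2

variable (F) in
/-- the number of units with trivial divisor -/
noncomputable def ww : ℕ := Nat.card {u : Fˣ // dv (u : F) = 0}

theorem finite_ww : {u : Fˣ | dv (u : F) = 0}.Finite := by
  refine ((finite_LL (0 : Div F)).preimage Units.val_injective.injOn).subset fun u hu => ?_
  have h := mem_LL_neg_dv (u : F)
  rwa [show dv (u : F) = 0 from hu, neg_zero] at h

lemma ww_pos : 0 < ww F := by
  have : Finite {u : Fˣ // dv (u : F) = 0} := finite_ww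
  have : Nonempty {u : Fˣ // dv (u : F) = 0} := ⟨⟨1, dv_one⟩⟩
  exact Nat.card_pos

/-- the degrees form a nonzero subgroup of `ℤ` -/
theorem exists_dl : ∃ d : ℕ, 0 < d ∧ (∃ D : Div F, deg D = d) ∧ ∀ D : Div F, (d : ℤ) ∣ deg D := by
  obtain ⟨a, ha⟩ := Int.subgroup_cyclic (deg (F := F)).range
  have h1 : ∀ D : Div F, a ∣ deg D := fun D => by
    have h : deg D ∈ (deg (F := F)).range := ⟨D, rfl⟩
    rw [ha, AddSubgroup.mem_closure_singleton] at h
    obtain ⟨n, hn⟩ := h
    exact ⟨n, by rw [← hn, smul_eq_mul, mul_comm]⟩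
  obtain ⟨D, hD⟩ : a ∈ (deg (F := F)).range := ha ▸ AddSubgroup.subset_closure rfl
  refine ⟨a.natAbs, Int.natAbs_pos.2 fun h => ?_, ⟨a.sign • D, ?_⟩, fun E => Int.natAbs_dvd.2 (h1 E)⟩
  · have h2 := h1 (PP F)
    have h3 : 0 < pp F := dg_pos _
    rw [h, deg_PP, zero_dvd_iff] at h2
    omega
  · rw [map_zsmul, hD, smul_eq_mul, Int.sign_mul_self_eq_natAbs]

variable (F) in
/-- the positive generator of the group of degrees -/
noncomputable def dl : ℕ := (exists_dl (F := F)).choose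

lemma dl_pos : 0 < dl F := exists_dl.choose_spec.1

lemma dl_dvd (D : Div F) : (dl F : ℤ) ∣ deg D := exists_dl.choose_spec.2.2 D

lemma exists_deg_eq {j : ℤ} (h : (dl F : ℤ) ∣ j) : ∃ D : Div F, deg D = j := by
  obtain ⟨D, hD⟩ := (exists_dl (F := F)).choose_spec.2.1
  obtain ⟨n, rfl⟩ := h
  exact ⟨n • D, by rw [map_zsmul, hD, smul_eq_mul, mul_comm]; rfl⟩

theorem finite_eff (i : ℤ) : {Z : Div F | 0 ≤ Z ∧ deg Z = i}.Finite := by
  refine (Set.finite_Icc (0 : Div F) (i.toNat • ∑ v ∈ plLE F i.toNat, Finsupp.single v 1)).subset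
    fun Z hZ => ⟨hZ.1, fun v => ?_⟩
  rw [Finsupp.smul_apply, dv_sum_apply]
  have h1 : Z v * dg v ≤ i := by
    rw [← hZ.2, ← deg_single]
    refine deg_mono fun w => ?_
    rw [Finsupp.single_apply]
    split_ifs with h
    · rw [h]
    · exact hZ.1 w
  have h2 : 0 ≤ Z v := hZ.1 v
  have h3 := dg_pos v
  split_ifs with hv
  · rw [nsmul_one]
    have : Z v * 1 ≤ Z v * dg v := mul_le_mul_of_nonneg_left (by omega) h2
    omega
  · rw [smul_zero]
    rw [mem_plLE] at hv
    by_contra h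
    have : 1 * (dg v : ℤ) ≤ Z v * dg v := mul_le_mul_of_nonneg_right (by omega) (by omega)
    omega

/-- Representatives of the divisor classes of degree at least `c0`.  A class of degree in
`[c0', c0' + p)` with `c0' + c > 0` contains an effective divisor, so there are finitely many;
shift by multiples of `P`. -/
theorem exists_reps : ∃ RR : Finset (Div F), RR.Nonempty ∧ (∀ R ∈ RR, (c0 F : ℤ) ≤ deg R) ∧
    (∀ R ∈ RR, deg R < c0 F + pp F) ∧
    (∀ D : Div F, (c0 F : ℤ) ≤ deg D → ∃ R ∈ RR, ∃ (m : ℕ) (u : Fˣ), D + dv (u : F) = R + m • PP F) ∧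
    ∀ R ∈ RR, ∀ R' ∈ RR, ∀ (m m' : ℕ) (u : Fˣ), R + m • PP F + dv (u : F) = R' + m' • PP F →
      R = R' ∧ m = m' := by
  have hq := one_lt_qq (F := F)
  have hp : (0 : ℤ) < pp F := by exact_mod_cast dg_pos (Cv.P : Place F)
  let s : Setoid (Div F) := ⟨fun D E => ∃ u : Fˣ, D + dv (u : F) = E, fun D => ⟨1, by simp⟩,
    fun {D E} ⟨u, h⟩ => ⟨u⁻¹, by rw [← h]; simp⟩,
    fun {D E G} ⟨u, h⟩ ⟨w, h'⟩ => ⟨u * w, by
      rw [Units.val_mul, dv_mul u.ne_zero w.ne_zero, ← add_assoc, h, h']⟩⟩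
  have hs : ∀ {D E : Div F}, s D E → deg D = deg E := fun ⟨u, h⟩ => by
    rw [← h, map_add, deg_dv, add_zero]
  let j : ℕ := (1 - cc F).toNat
  have hfin : {Z : Div F | 0 ≤ Z ∧ deg Z - j * pp F ∈ Set.Ico (c0 F : ℤ) (c0 F + pp F)}.Finite :=
    ((Set.finite_Ico (c0 F + j * pp F : ℤ) (c0 F + j * pp F + pp F)).biUnion
      fun i _ => finite_eff i).subset fun Z hZ => Set.mem_biUnion (x := deg Z)
        ⟨by have := hZ.2.1; omega, by have := hZ.2.2; omega⟩ ⟨hZ.1, rfl⟩
  let RR := hfin.toFinset.image fun Z => (Quotient.mk s (Z - j • PP F)).out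
  have hR : ∀ R ∈ RR, (Quotient.mk s R).out = R ∧ deg R ∈ Set.Ico (c0 F : ℤ) (c0 F + pp F) := by
    intro R hR
    obtain ⟨Z, hZ, rfl⟩ := Finset.mem_image.1 hR
    refine ⟨by rw [Quotient.out_eq], ?_⟩
    rw [hs (Quotient.mk_out (s := s) _), map_sub, map_nsmul, deg_PP, nsmul_eq_mul]
    exact (hfin.mem_toFinset.1 hZ).2
  have hex : ∀ D : Div F, (c0 F : ℤ) ≤ deg D →
      ∃ R ∈ RR, ∃ (m : ℕ) (u : Fˣ), D + dv (u : F) = R + m • PP F := by
    intro D hD
    obtain ⟨m, hm⟩ := Int.eq_ofNat_of_zero_le (Int.ediv_nonneg (sub_nonneg.2 hD) hp.le)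
    have e1 := Int.emod_add_ediv_mul (deg D - c0 F) (pp F)
    have e2 := Int.emod_nonneg (deg D - c0 F) hp.ne'
    have e3 := Int.emod_lt_of_pos (deg D - c0 F) hp
    rw [hm] at e1
    have e4 : deg (D - m • PP F) = deg D - m * pp F := by
      rw [map_sub, map_nsmul, deg_PP, nsmul_eq_mul]
    have e5 := dv_le_deg (D - m • PP F) j
    have e6 : ((1 : ℕ) : ℝ) < (box (D - m • PP F + j • PP F)).card := by
      rw [card_box (by omega), Nat.cast_one]
      exact one_lt_zpow₀ hq (by omega)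
    obtain ⟨x, hx, hx0⟩ := Finset.exists_mem_ne (Nat.cast_lt.1 e6) 0
    have e7 := (mem_LL_iff.1 (mem_box.1 hx)).resolve_left hx0
    obtain ⟨u, hu⟩ := s.symm (Quotient.mk_out (s := s)
      (dv x + (D - m • PP F + j • PP F) - j • PP F))
    refine ⟨_, Finset.mem_image_of_mem _ (hfin.mem_toFinset.2 ⟨e7, ?_⟩), m, Units.mk0 x hx0 * u, ?_⟩
    · rw [map_add, deg_dv, dv_deg_add, e4]
      constructor <;> omega
    · rw [← hu, Units.val_mul, Units.val_mk0, dv_mul hx0 u.ne_zero]
      abel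
  refine ⟨RR, ?_, fun R h => (hR R h).2.1, fun R h => (hR R h).2.2, hex, ?_⟩
  · obtain ⟨R, h, -⟩ := hex (0 + c0 F • PP F) (by simpa using dv_le_deg (0 : Div F) (c0 F))
    exact ⟨R, h⟩
  intro R h R' h' m m' u e
  have e1 := congrArg deg e
  rw [map_add, deg_dv, dv_deg_add, dv_deg_add] at e1
  obtain ⟨a1, a2, a3⟩ := hR R h
  obtain ⟨b1, b2, b3⟩ := hR R' h'
  have e2 : m = m' := by
    rcases lt_trichotomy m m' with c | c | c
    · have : ((m : ℤ) + 1) * pp F ≤ m' * pp F := mul_le_mul_of_nonneg_right (by omega) hp.le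
      exfalso; linarith
    · exact c
    · have : ((m' : ℤ) + 1) * pp F ≤ m * pp F := mul_le_mul_of_nonneg_right (by omega) hp.le
      exfalso; linarith
  subst e2
  rw [add_right_comm, add_left_inj] at e
  exact ⟨by rw [← a1, ← b1, Quotient.sound (s := s) ⟨u, e⟩], rfl⟩

end SelAvg.FF
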