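import Pool.Agent.H81Sel.DensB
import Pool.Agent.H81Sel.Sum1

/-! Row FIN1: asymptotic bounds for the averages (port of `Uup_le`, `le_Ulow`, `Td_le`,
`le_Td`). -/

namespace SelAvg.FF

open WeierstrassCurve WithZero Filter Topology
open scoped Classical

variable {F : Type} [Field F] [Cv F]

/-- `dens_medium` and, for the large places (eventually outside the support of `R + m P`),
`v_locM_Delta`, `cls_gm`, `Lat.tendsto_of_PB`, `tendsto_large` -/
theorem tail_le (B Z : Div F) (η : A F) (R : Div F) (N : ℕ) {ε : ℝ} (hε : 0 < ε) :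
    ∀ᶠ m : ℕ in atTop, dens ((LV B Z η R).box m) (fun x => ∃ v : Place F, N < dg v ∧
      v.loc.unif ^ 2 ∣ (toM ((LV B Z η R).loc m v x)).jac.Δ) ≤ 4 * tau F N + ε := by
  obtain ⟨b, hb⟩ := dens_medium (LV B Z η R)
  have h1 := (LV B Z η R).tendsto_of_PB _ fun D => tendsto_large D b
  have hp : 1 ≤ pp F := dg_pos _
  have h2 : ∀ᶠ m : ℕ in atTop, ∀ v ∈ insert (Cv.P : Place F) R.support, 2 * dg v + b ≤ m * pp F :=
    (eventually_all_finset _).2 fun v _ => (eventually_ge_atTop (2 * dg v + b)).mono fun m hm =>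
      hm.trans (Nat.le_mul_of_pos_right m hp)
  filter_upwards [h1.eventually (ge_mem_nhds hε), h2] with m hm h3
  refine le_trans (dens_mono fun x hx h => ?_) ((dens_or_le _ _ _).trans (add_le_add (hb N m) hm))
  obtain ⟨v, hv, hd⟩ := h
  rcases le_or_gt (2 * dg v + b) (m * pp F) with h4 | h4
  · exact Or.inl ⟨v, hv, h4, hd⟩
  · refine Or.inr ⟨v, h4, ?_⟩
    have h5 : v ∉ insert (Cv.P : Place F) R.support := fun h => (h3 v h).not_gt h4
    rw [Finset.mem_insert, not_or, Finsupp.notMem_support_iff] at h5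
    have h6 : cls (gm B Z η R m) v = 0 := by
      rw [cls_gm, Finsupp.add_apply, Finsupp.smul_apply, h5.2, PP, Finsupp.single_eq_of_ne h5.1,
        smul_zero, add_zero]
    have h7 := v_locM_Delta (mem_LV_box.1 hx) v
    rw [h6, mul_zero, neg_zero, exp_zero, one_mul] at h7
    rw [LV_loc, ← v.loc.le_exp_iff_dvd] at hd
    rw [← h7]
    exact hd

lemma fin1_prod_eq {S : Finset (Place F)} {j : ℕ} {g : G (A F)} {f : Model F}
    (h : ¬∃ v ∈ S, v.loc.unif ^ (2 * (j + 1)) ∣ (locM v g f).jac.Δ) :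
    ∏ v ∈ S, phiR (thv v j) ((locM v g f).map (redv v (2 * (j + 1)))) = PhiS S g f :=
  Finset.prod_congr rfl fun v hv => phiR_thv_eq v j fun h' => h ⟨v, hv, h'⟩

lemma fin1_up (S : Finset (Place F)) (j : ℕ) {g : G (A F)} {f : Model F} (hf : IntM g f) :
    upF S g f ≤ 2 * (ind (∀ v ∈ S, ¬NonMin v.loc.unif (locM v g f).jac) *
      ∏ v ∈ S, phiR (thv v j) ((locM v g f).map (redv v (2 * (j + 1))))) +
      2 * ind (∃ v ∈ S, v.loc.unif ^ (2 * (j + 1)) ∣ (locM v g f).jac.Δ) +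
      768 * ind (f.jac.c₄ = 0 ∨ f.jac.c₆ = 0) + 768 * ind (¬NoTwoTorsion f.jac) := by
  have p0 : 0 ≤ ind (∀ v ∈ S, ¬NonMin v.loc.unif (locM v g f).jac) *
      ∏ v ∈ S, phiR (thv v j) ((locM v g f).map (redv v (2 * (j + 1)))) :=
    mul_nonneg (ind_nonneg _) (Finset.prod_nonneg fun w _ => phiR_nonneg _ _)
  have p1 := ind_nonneg (∃ v ∈ S, v.loc.unif ^ (2 * (j + 1)) ∣ (locM v g f).jac.Δ)
  have p2 := ind_nonneg (f.jac.c₄ = 0 ∨ f.jac.c₆ = 0)
  have p3 := ind_nonneg (¬NoTwoTorsion f.jac)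
  unfold upF
  by_cases hm : MinM g f ∧ ¬f.Triv
  swap
  · rw [ind_neg hm, zero_mul, zero_mul, zero_mul]
    linarith
  have q0 := PhiS_nonneg S g f
  have q1 := PhiS_le_one S hf hm.1.1
  have q2 : (aut f.jac : ℝ) ≤ 192 := by exact_mod_cast aut_le hm.1.1
  have q3 : (autF f.jac : ℝ) ≤ 4 := by exact_mod_cast autF_le f.jac
  have q4 : (aut f.jac : ℝ) * autF f.jac * PhiS S g f ≤ 192 * 4 * 1 := by gcongr
  rw [ind_pos hm, one_mul]
  by_cases h1 : f.jac.c₄ = 0 ∨ f.jac.c₆ = 0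
  · rw [ind_pos h1]
    linarith
  by_cases h2 : NoTwoTorsion f.jac
  swap
  · rw [ind_pos h2]
    linarith
  have q5 : (aut f.jac : ℝ) ≤ 2 := by
    exact_mod_cast aut_le_two (fun h => h1 (Or.inl h)) fun h => h1 (Or.inr h)
  have q6 : (aut f.jac : ℝ) * PhiS S g f ≤ 2 * PhiS S g f := mul_le_mul_of_nonneg_right q5 q0
  rw [autF, if_pos h2, Nat.cast_one, mul_one]
  by_cases h3 : ∃ v ∈ S, v.loc.unif ^ (2 * (j + 1)) ∣ (locM v g f).jac.Δ
  · rw [ind_pos h3]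
    linarith
  · rw [ind_pos (show ∀ v ∈ S, ¬NonMin v.loc.unif (locM v g f).jac from fun v _ => hm.1.2 v),
      one_mul, fin1_prod_eq h3]
    linarith

/-- Pointwise the integrand is at most `2 * (ind (minimal on S) * ∏ phiR) + 2 * ind Bad
  + 768 * ind (c₄ = 0 ∨ c₆ = 0) + 768 * ind (¬NoTwoTorsion)` (`aut_le_two`, `aut_le`,
`phiR_thv_eq`, `PhiS_le_one`).  Use `avg_VB_gm`, `LV_loc`, `avg_phiM`, `Lat.tendsto_of_PB`. -/
theorem Uup_le (S : Finset (Place F)) {j : ℕ} (hj : 2 ≤ j) {ε η₀ : ℝ} (hη : 0 < η₀)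
    (h : ∀ L : Lat F 8, ∀ᶠ m in atTop, dens (L.box m)
      (fun x => ∃ v ∈ S, v.loc.unif ^ (2 * (j + 1)) ∣ (toM (L.loc m v x)).jac.Δ) ≤ ε)
    (B Z : Div F) (η : A F) (R : Div F) : ∀ᶠ m : ℕ in atTop,
    avg (VB (gm B Z η R m)) (upF S (gm B Z η R m)) ≤ 2 * (cS S * delta S j) + 2 * ε + η₀ := by
  have h1 := h (LV B Z η R)
  have h2 := avg_phiM (LV B Z η R) S hj
  simp only [LV_loc] at h1 h2
  filter_upwards [h1, h2,
    final3_small ((LV B Z η R).tendsto_of_PB _ tendsto_c46_V) 768 (half_pos hη),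
    final3_small ((LV B Z η R).tendsto_of_PB _ tendsto_twoTorsion) 768 (half_pos hη)]
    with m h1 h2 h4 h5
  have h6 := avg_mono (s := (LV B Z η R).box m) fun x hx => fin1_up S j (mem_LV_box.1 hx)
  rw [avg_add, avg_add, avg_add, avg_const_mul, avg_const_mul, avg_const_mul, avg_const_mul, h2,
    ← dens_eq_avg, ← dens_eq_avg, ← dens_eq_avg] at h6
  rw [avg_VB_gm]
  linarith

/-- the trivial bound for the product of the weights -/
noncomputable def CS (S : Finset (Place F)) : ℝ := ∏ v ∈ S, (2 * (qq F ^ dg v + 1))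

lemma CS_pos (S : Finset (Place F)) : 0 < CS S := by
  have := (zero_lt_one.trans (one_lt_qq (F := F)))
  exact Finset.prod_pos fun _ _ => by positivity

lemma fin1_low (N j : ℕ) {g : G (A F)} {f : Model F} (hf : IntM g f) :
    2 * (ind (∀ v ∈ plLE F N, ¬NonMin v.loc.unif (locM v g f).jac) *
      ∏ v ∈ plLE F N, phiR (thv v j) ((locM v g f).map (redv v (2 * (j + 1))))) -
      2 * CS (plLE F N) * ind (∃ v ∈ plLE F N, v.loc.unif ^ (2 * (j + 1)) ∣ (locM v g f).jac.Δ) -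
      2 * ind f.Triv - 2 * ind (∃ v : Place F, N < dg v ∧ v.loc.unif ^ 2 ∣ (locM v g f).jac.Δ) ≤
      lowF (plLE F N) g f := by
  have q0 := PhiS_nonneg (plLE F N) g f
  have p0 : 0 ≤ lowF (plLE F N) g f :=
    mul_nonneg (mul_nonneg (ind_nonneg _) (Nat.cast_nonneg _)) q0
  have p1 := ind_nonneg f.Triv
  have p2 := ind_nonneg (∃ v : Place F, N < dg v ∧ v.loc.unif ^ 2 ∣ (locM v g f).jac.Δ)
  have p3 : ind (∀ v ∈ plLE F N, ¬NonMin v.loc.unif (locM v g f).jac) *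
      ∏ v ∈ plLE F N, phiR (thv v j) ((locM v g f).map (redv v (2 * (j + 1)))) ≤
      ∏ v ∈ plLE F N, phiR (thv v j) ((locM v g f).map (redv v (2 * (j + 1)))) :=
    mul_le_of_le_one_left (Finset.prod_nonneg fun w _ => phiR_nonneg _ _) (ind_le_one _)
  by_cases h1 : ∃ v ∈ plLE F N, v.loc.unif ^ (2 * (j + 1)) ∣ (locM v g f).jac.Δ
  · have p4 : ∏ v ∈ plLE F N, phiR (thv v j) ((locM v g f).map (redv v (2 * (j + 1)))) ≤
        CS (plLE F N) :=
      Finset.prod_le_prod (fun w _ => phiR_nonneg _ _) fun w _ => phiR_thv_le w j _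
    rw [ind_pos h1]
    linarith
  have q1 : ∏ v ∈ plLE F N, phiR (thv v j) ((locM v g f).map (redv v (2 * (j + 1)))) ≤ 1 :=
    Finset.prod_le_one (fun w _ => phiR_nonneg _ _) fun w hw => phiR_thv_le_one w j fun h0 => by
      rw [Model.jac_map, map_Δ, redv_eq_zero_iff] at h0
      exact h1 ⟨w, hw, h0⟩
  rw [ind_neg h1]
  by_cases h2 : f.Triv
  · rw [ind_pos h2]
    linarith
  by_cases h3 : ∃ v : Place F, N < dg v ∧ v.loc.unif ^ 2 ∣ (locM v g f).jac.Δ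
  · rw [ind_pos h3]
    linarith
  by_cases h4 : ∀ v ∈ plLE F N, ¬NonMin v.loc.unif (locM v g f).jac
  swap
  · rw [ind_neg h4]
    linarith
  have hΔ : f.jac.Δ ≠ 0 := fun h0 => by
    have := infinite_place (F := F)
    obtain ⟨v, hv⟩ := Infinite.exists_notMem_finset (plLE F N)
    have h7 := v_locM_Delta hf v
    rw [h0, map_zero, mul_zero, Valuation.zero_iff, ZeroMemClass.coe_eq_zero] at h7
    exact h3 ⟨v, not_le.1 (mem_plLE.not.1 hv), h7 ▸ dvd_zero _⟩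
  have h5 : SqM (plLE F N) g f := fun p hp h => h3 ⟨p, not_le.1 (mem_plLE.not.1 hp), h⟩
  have h6 : MinM g f := ⟨hΔ, fun p hp => by
    by_cases h : p ∈ plLE F N
    · exact h4 p h hp
    · exact h5 p h ((pow_dvd_pow _ (by norm_num)).trans hp.dvd_Delta)⟩
  have q2 : (2 : ℝ) ≤ aut f.jac := by exact_mod_cast two_le_aut hΔ
  have q3 := mul_le_mul_of_nonneg_right q2 q0
  rw [lowF, ind_pos (And.intro h6 (And.intro h2 h5)), ind_pos h4, ind_neg h2, ind_neg h3,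
    fin1_prod_eq h1]
  linarith

/-- Pointwise the integrand is at least `2 * (ind (minimal on S) * ∏ phiR) - 2 * CS * ind Bad
  - 2 * ind Triv - 2 * ind (∃ v, N < dg v ∧ ϖ^2 ∣ Δ)`.  If the last event fails then `Δ ≠ 0`
(there is a place of degree greater than `N`; `v_locM_Delta`); `NonMin.dvd_Delta` gives
minimality outside `plLE F N`; `two_le_aut`.  Use `avg_phiM`, `tendsto_triv`, `tail_le`. -/
theorem le_Ulow (N : ℕ) {j : ℕ} (hj : 2 ≤ j) {ε η₀ : ℝ} (hη : 0 < η₀)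
    (h : ∀ L : Lat F 8, ∀ᶠ m in atTop, dens (L.box m)
      (fun x => ∃ v ∈ plLE F N, v.loc.unif ^ (2 * (j + 1)) ∣ (toM (L.loc m v x)).jac.Δ) ≤ ε)
    (B Z : Div F) (η : A F) (R : Div F) : ∀ᶠ m : ℕ in atTop,
    2 * (cS (plLE F N) * delta (plLE F N) j) - 2 * CS (plLE F N) * ε - 8 * tau F N - η₀ ≤
      avg (VB (gm B Z η R m)) (lowF (plLE F N) (gm B Z η R m)) := by
  have h1 := h (LV B Z η R)
  have h2 := avg_phiM (LV B Z η R) (plLE F N) hj
  have h5 := tail_le B Z η R N (half_pos (half_pos hη))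
  simp only [LV_loc] at h1 h2 h5
  filter_upwards [h1, h2, final3_small ((LV B Z η R).tendsto_of_PB _ tendsto_triv) 2 (half_pos hη),
    h5] with m h1 h2 h4 h5
  have h6 := avg_mono (s := (LV B Z η R).box m) fun x hx => fin1_low N j (mem_LV_box.1 hx)
  rw [avg_sub, avg_sub, avg_sub, avg_const_mul, avg_const_mul, avg_const_mul, avg_const_mul, h2,
    ← dens_eq_avg, ← dens_eq_avg, ← dens_eq_avg] at h6
  have h7 := mul_le_mul_of_nonneg_left h1 (CS_pos (plLE F N)).le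
  rw [avg_VB_gm]
  linarith

lemma fin1_TD_up (S : Finset (Place F)) (D : Div F) (W : WeierstrassCurve F) :
    ind (MinW D W) * aut W ≤ 2 * ind (∀ v ∈ S, ¬NonMin v.loc.unif (locW v D W)) +
      192 * ind (W.c₄ = 0 ∨ W.c₆ = 0) := by
  have p1 := ind_nonneg (∀ v ∈ S, ¬NonMin v.loc.unif (locW v D W))
  have p2 := ind_nonneg (W.c₄ = 0 ∨ W.c₆ = 0)
  by_cases hm : MinW D W
  swap
  · rw [ind_neg hm, zero_mul]
    linarith
  rw [ind_pos hm, one_mul,
    ind_pos (show ∀ v ∈ S, ¬NonMin v.loc.unif (locW v D W) from fun p _ => hm.2 p)]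
  by_cases h1 : W.c₄ = 0 ∨ W.c₆ = 0
  · have q2 : (aut W : ℝ) ≤ 192 := by exact_mod_cast aut_le hm.1
    rw [ind_pos h1]
    linarith
  · have q5 : (aut W : ℝ) ≤ 2 := by
      exact_mod_cast aut_le_two (fun h => h1 (Or.inl h)) fun h => h1 (Or.inr h)
    linarith

/-- `avg_WB`, `LW_loc`, `dens_minOn`, `aut_le_two`, `aut_le`, `tendsto_c46_W`, `PB_eq_box` -/
theorem TD_le (S : Finset (Place F)) {j : ℕ} (hj : 2 ≤ j) {η₀ : ℝ} (hη : 0 < η₀) (R : Div F) :
    ∀ᶠ m : ℕ in atTop, TD (R + m • PP F) ≤ 2 * delta S j + η₀ := by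
  have h1 := dens_minOn (LW R) S hj
  simp only [LW_loc] at h1
  filter_upwards [h1, final3_small ((LW R).tendsto_of_PB _ tendsto_c46_W) 192 hη] with m h1 h2
  have h3 := avg_mono (s := (LW R).box m) fun x _ => fin1_TD_up S (R + m • PP F) (toW x)
  rw [avg_add, avg_const_mul, avg_const_mul, ← dens_eq_avg, ← dens_eq_avg, h1] at h3
  rw [TD, avg_WB]
  linarith

lemma fin1_TD_low (N : ℕ) (D : Div F) (W : WeierstrassCurve F) :
    2 * ind (∀ v ∈ plLE F N, ¬NonMin v.loc.unif (locW v D W)) - 2 * ind (W.Δ = 0) -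
      2 * ind (W.Δ ≠ 0 ∧ ∃ v : Place F, N < dg v ∧ NonMin v.loc.unif (locW v D W)) ≤
    ind (MinW D W) * aut W := by
  have p0 : 0 ≤ ind (MinW D W) * aut W := mul_nonneg (ind_nonneg _) (Nat.cast_nonneg _)
  have p1 := ind_le_one (∀ v ∈ plLE F N, ¬NonMin v.loc.unif (locW v D W))
  have p2 := ind_nonneg (W.Δ = 0)
  have p3 := ind_nonneg (W.Δ ≠ 0 ∧ ∃ v : Place F, N < dg v ∧ NonMin v.loc.unif (locW v D W))
  by_cases h1 : W.Δ = 0
  · rw [ind_pos h1]
    linarith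
  by_cases h2 : W.Δ ≠ 0 ∧ ∃ v : Place F, N < dg v ∧ NonMin v.loc.unif (locW v D W)
  · rw [ind_pos h2]
    linarith
  by_cases h3 : ∀ v ∈ plLE F N, ¬NonMin v.loc.unif (locW v D W)
  swap
  · rw [ind_neg h3]
    linarith
  have h4 : MinW D W := ⟨h1, fun p hp => by
    by_cases h : p ∈ plLE F N
    · exact h3 p h hp
    · exact h2 ⟨h1, p, not_le.1 (mem_plLE.not.1 h), hp⟩⟩
  have q2 : (2 : ℝ) ≤ aut W := by exact_mod_cast two_le_aut h1
  rw [ind_pos h4]
  linarith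

lemma fin1_deg (R : Div F) : ∀ᶠ m : ℕ in atTop, (c0 F : ℤ) ≤ deg (R + m • PP F) := by
  filter_upwards [eventually_ge_atTop (c0 F - deg R).toNat] with m hm
  have h1 : (1 : ℤ) ≤ pp F := by exact_mod_cast dg_pos (Cv.P : Place F)
  have h2 : (c0 F : ℤ) - deg R ≤ m := Int.toNat_le.1 hm
  have h3 : (0 : ℤ) ≤ m := Int.natCast_nonneg m
  rw [map_add, map_nsmul, deg_PP, nsmul_eq_mul]
  nlinarith

/-- `dens_minOn`, `two_le_aut`, `tendsto_Delta_W`, `dens_nonMin` -/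
theorem le_TD : ∃ C : ℝ, 0 ≤ C ∧ ∀ (N : ℕ) {j : ℕ}, 2 ≤ j → ∀ {η₀ : ℝ}, 0 < η₀ → ∀ R : Div F,
    ∀ᶠ m : ℕ in atTop, 2 * delta (plLE F N) j - C * tau F N - η₀ ≤ TD (R + m • PP F) := by
  obtain ⟨C, hC, hd⟩ := dens_nonMin (F := F)
  refine ⟨2 * C, by positivity, fun N j hj η₀ hη R => ?_⟩
  have h1 := dens_minOn (LW R) (plLE F N) hj
  simp only [LW_loc] at h1
  filter_upwards [h1, final3_small ((LW R).tendsto_of_PB _ tendsto_Delta_W) 2 hη, fin1_deg R]
    with m h1 h2 h5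
  have h3 := avg_mono (s := (LW R).box m) fun x _ => fin1_TD_low N (R + m • PP F) (toW x)
  have h4 := hd _ h5 N
  rw [dens_eq_avg, avg_WB, ← dens_eq_avg] at h4
  rw [avg_sub, avg_sub, avg_const_mul, avg_const_mul, avg_const_mul, ← dens_eq_avg, ← dens_eq_avg,
    ← dens_eq_avg, h1] at h3
  rw [TD, avg_WB]
  linarith

end SelAvg.FF
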