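import Pool.Agent.H81Sel.Sieg
import Pool.Agent.H81Sel.Tail

/-! Row GLOB0: adelic points of the group, integrality, local models; invariance lemmas. -/

namespace SelAvg.FF

open WeierstrassCurve WithZero Filter Topology Matrix
open scoped Classical ENNReal

variable {F : Type} [Field F]

variable (F) in
/-- the inclusion of the integral adeles -/
noncomputable abbrev inc : Oh F →+* A F := (Oh F).subtype

variable (F) in
/-- the integral points -/
noncomputable def KG : Subgroup (G (A F)) := (G.map (inc F)).range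

variable (F) in
/-- torsors with a generic trivialisation -/
abbrev XG : Type := RC (KG F)

/-- the underlying bundle of rank two -/
noncomputable def pM (x : XG F) : X2 F := RC.mk (K2 F) x.out.M

/-- the divisor of the line bundle of the Jacobian -/
noncomputable def cls (g : G (A F)) : Div F := idiv g.det - idiv g.μ

/-- the local trivialisations of the line bundle of `D` -/
noncomputable def cW (D : Div F) : VariableChange (A F) := wdiag (piD (-D))

/-- integral changes of variables -/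
def IntC (C : VariableChange (A F)) : Prop := ∃ C₀ : VariableChange (Oh F), C₀.map (inc F) = C

lemma intC_iff {C : VariableChange (A F)} :
    IntC C ↔ idiv C.u = 0 ∧ C.r ∈ Oh F ∧ C.s ∈ Oh F ∧ C.t ∈ Oh F := by
  constructor
  · rintro ⟨C₀, rfl⟩
    exact ⟨(idiv_eq_zero_iff _).2 ⟨C₀.u, rfl⟩, C₀.r.2, C₀.s.2, C₀.t.2⟩
  · rintro ⟨hu, hr, hs, ht⟩
    obtain ⟨e, he⟩ := (idiv_eq_zero_iff _).1 hu
    exact ⟨⟨e, ⟨_, hr⟩, ⟨_, hs⟩, ⟨_, ht⟩⟩, VariableChange.ext he rfl rfl rfl⟩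

lemma IntC.mul {C C' : VariableChange (A F)} (h : IntC C) (h' : IntC C') : IntC (C * C') := by
  obtain ⟨C₀, rfl⟩ := h
  obtain ⟨C₁, rfl⟩ := h'
  exact ⟨C₀ * C₁, map_mul (VariableChange.mapHom (inc F)) C₀ C₁⟩

lemma IntC.inv {C : VariableChange (A F)} (h : IntC C) : IntC C⁻¹ := by
  obtain ⟨C₀, rfl⟩ := h
  exact ⟨C₀⁻¹, map_inv (VariableChange.mapHom (inc F)) C₀⟩

lemma mem_KG {k : G (A F)} :
    k ∈ KG F ↔ k.M ∈ K2 F ∧ idiv k.μ = 0 ∧ k.r0 ∈ Oh F ∧ k.r1 ∈ Oh F ∧ k.r2 ∈ Oh F := by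
  constructor
  · rintro ⟨k₀, rfl⟩
    exact ⟨⟨k₀.M, rfl⟩, (idiv_eq_zero_iff _).2 ⟨k₀.μ, rfl⟩, k₀.r0.2, k₀.r1.2, k₀.r2.2⟩
  · rintro ⟨⟨M, hM⟩, hu, h0, h1, h2⟩
    obtain ⟨e, he⟩ := (idiv_eq_zero_iff _).1 hu
    exact ⟨⟨M, e, ⟨_, h0⟩, ⟨_, h1⟩, ⟨_, h2⟩⟩, G.ext hM he rfl rfl rfl⟩

lemma glob0_mem {a : A F} (h : ∀ v : Place F, ∃ b : v.loc.O, v.loc.incl b = pr v a) :
    a ∈ Oh F := fun v => by
  obtain ⟨b, hb⟩ := h v
  rw [← hb]
  exact b.2

lemma glob0_idiv {u : (A F)ˣ} (h : ∀ v : Place F, ∃ e : (v.loc.O)ˣ,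
    Units.map (v.loc.incl : v.loc.O →* v.Compl) e = Units.map (pr v : A F →* v.Compl) u) :
    idiv u = 0 := by
  ext v
  obtain ⟨e, he⟩ := h v
  have h1 : v.vc (pr v (u : A F)) = 1 := by
    have h2 : v.loc.incl e = pr v (u : A F) := congrArg Units.val he
    rw [← h2]
    exact (v.loc.isUnit_iff _).1 e.isUnit
  rw [idiv_apply, h1]
  simp

/-- membership can be tested place by place -/
lemma mem_KG_of_forall {k : G (A F)}
    (h : ∀ v : Place F, ∃ h : G v.loc.O, G.map v.loc.incl h = G.map (pr v) k) : k ∈ KG F := by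
  choose h hh using h
  refine mem_KG.2 ⟨mem_K2.2 ⟨fun i j => glob0_mem fun v => ⟨(h v).M.1 i j, ?_⟩,
    glob0_idiv fun v => ⟨(h v).det, ?_⟩⟩, glob0_idiv fun v => ⟨(h v).μ, congrArg G.μ (hh v)⟩,
    glob0_mem fun v => ⟨_, congrArg G.r0 (hh v)⟩, glob0_mem fun v => ⟨_, congrArg G.r1 (hh v)⟩,
    glob0_mem fun v => ⟨_, congrArg G.r2 (hh v)⟩⟩
  · exact congrArg (fun g : G v.Compl => g.M.1 i j) (hh v)
  · have := congrArg G.det (hh v)
    rwa [G.map_det, G.map_det] at this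

/-- patching of local group elements that are trivial outside a finite set -/
lemma exists_G_patch (T : Finset (Place F)) (g : ∀ v : Place F, G v.Compl) :
    ∃ g₀ : G (A F), (∀ v ∈ T, G.map (pr v) g₀ = g v) ∧ ∀ v ∉ T, G.map (pr v) g₀ = 1 := by
  let g' : ∀ v : Place F, G v.Compl := fun v => if v ∈ T then g v else 1
  have hg : ∀ v ∉ T, g' v = 1 := fun v hv => if_neg hv
  have key : ∀ a : ∀ v : Place F, v.Compl, (∀ v ∉ T, a v = 0 ∨ a v = 1) →
      ∃ b : A F, ∀ v, pr v b = a v := fun a ha =>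
    exists_adele a (T.finite_toSet.subset fun v hv => by
      by_contra hT
      rcases ha v hT with h | h <;> exact hv (by simp [h]))
  have hone : ∀ (v : Place F) (i j : Fin 2), (1 : Matrix (Fin 2) (Fin 2) v.Compl) i j = 0 ∨
      (1 : Matrix (Fin 2) (Fin 2) v.Compl) i j = 1 := fun v i j => by
    by_cases h : i = j
    · exact Or.inr (by rw [h, one_apply_eq])
    · exact Or.inl (one_apply_ne h)
  choose M hM using fun i j => key (fun v => (g' v).M.1 i j) fun v hv => by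
    simpa [hg v hv] using hone v i j
  choose N hN using fun i j => key (fun v => ((g' v).M⁻¹).1 i j) fun v hv => by
    simpa [hg v hv] using hone v i j
  obtain ⟨μ, hμ⟩ := key (fun v => (g' v).μ) fun v hv => by simp [hg v hv]
  obtain ⟨ν, hν⟩ := key (fun v => ((g' v).μ⁻¹ : (v.Compl)ˣ)) fun v hv => by simp [hg v hv]
  obtain ⟨r0, h0⟩ := key (fun v => (g' v).r0) fun v hv => by simp [hg v hv]
  obtain ⟨r1, h1⟩ := key (fun v => (g' v).r1) fun v hv => by simp [hg v hv]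
  obtain ⟨r2, h2⟩ := key (fun v => (g' v).r2) fun v hv => by simp [hg v hv]
  have hM' : ∀ v, (pr v).mapMatrix (of M) = (g' v).M.1 := fun v => Matrix.ext fun i j => hM i j v
  have hN' : ∀ v, (pr v).mapMatrix (of N) = ((g' v).M⁻¹).1 := fun v =>
    Matrix.ext fun i j => hN i j v
  have hext : ∀ X Y : Matrix (Fin 2) (Fin 2) (A F),
      (∀ v, (pr v).mapMatrix X = (pr v).mapMatrix Y) → X = Y := fun X Y h =>
    Matrix.ext fun i j => A_ext fun v => congrFun (congrFun (h v) i) j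
  have e : ∀ v, G.map (pr v) ⟨⟨of M, of N, hext _ _ fun v => by
        rw [map_mul, hM', hN', map_one, Units.mul_inv], hext _ _ fun v => by
        rw [map_mul, hM', hN', map_one, Units.inv_mul]⟩,
      ⟨μ, ν, A_ext fun v => by rw [map_mul, hμ, hν, map_one, Units.mul_inv],
        A_ext fun v => by rw [map_mul, hμ, hν, map_one, Units.inv_mul]⟩, r0, r1, r2⟩ = g' v :=
    fun v => G.ext (Units.ext (hM' v)) (Units.ext (hμ v)) (h0 v) (h1 v) (h2 v)
  exact ⟨_, fun v hv => (e v).trans (if_pos hv), fun v hv => (e v).trans (hg v hv)⟩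

lemma pM_mk (g : G (A F)) : pM (RC.mk (KG F) g) = RC.mk (K2 F) g.M := by
  obtain ⟨k, hk, e⟩ := RC.out_mk (K := KG F) g
  rw [pM, e, G.mul_M]
  exact (RC.mk_eq.2 ⟨k.M, (mem_KG.1 hk).1, rfl⟩).symm

lemma cls_K {k : G (A F)} (hk : k ∈ KG F) (g : G (A F)) : cls (k * g) = cls g := by
  have h1 : idiv k.det = 0 := (mem_K2.1 (mem_KG.1 hk).1).2
  rw [cls, cls, G.det_mul, G.mul_μ, idiv_mul, idiv_mul, h1, (mem_KG.1 hk).2.1, zero_add, zero_add]

variable [Cv F]

variable (F) in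
/-- the diagonal embedding -/
noncomputable abbrev gA : G F →* G (A F) := G.map (toA F)

variable (F) in
/-- change of the generic trivialisation -/
noncomputable def actG : G F →* Equiv.Perm (XG F) := (RC.act (KG F)).comp (gA F)

lemma actG_mk (γ : G F) (g : G (A F)) :
    actG F γ (RC.mk (KG F) g) = RC.mk (KG F) (g * (gA F γ)⁻¹) := rfl

/-- the form in which invariance under `KG` and `G F` is used on representatives -/
lemma out_actG (γ : G F) (x : XG F) : ∃ k ∈ KG F, (actG F γ x).out = k * (x.out * (gA F γ)⁻¹) := by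
  conv => enter [1, k, 2, 1]; rw [← x.mk_out, actG_mk]
  exact RC.out_mk _

lemma pM_act (γ : G F) (x : XG F) : pM (actG F γ x) = act2 F γ.M (pM x) := by
  obtain ⟨g, rfl⟩ := x.mk_surj
  rw [actG_mk, pM_mk, pM_mk, act2_mk, G.mul_M, G.inv_M]
  rfl

lemma cls_act (γ : G F) (g : G (A F)) :
    cls (g * (gA F γ)⁻¹) = cls g - dv ((γ.det : Fˣ) : F) + dv ((γ.μ : Fˣ) : F) := by
  have h1 : idiv (gA F γ).det = dv ((γ.det : Fˣ) : F) := by
    rw [G.map_det]
    exact idiv_uA γ.det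
  have h2 : idiv (gA F γ).μ = dv ((γ.μ : Fˣ) : F) := idiv_uA γ.μ
  rw [cls, cls, G.det_mul, G.mul_μ, idiv_mul, idiv_mul, G.det_inv, G.inv_μ, idiv_inv, idiv_inv,
    h1, h2]
  abel

omit [Cv F] in
/-- all coordinates have poles bounded by `B` -/
structure Glob0Bd (B : Div F) (g : G (A F)) : Prop where
  m11 : g.m11 ∈ AD B
  m12 : g.m12 ∈ AD B
  m21 : g.m21 ∈ AD B
  m22 : g.m22 ∈ AD B
  mu : (g.μ : A F) ∈ AD B
  r0 : g.r0 ∈ AD B
  r1 : g.r1 ∈ AD B
  r2 : g.r2 ∈ AD B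

omit [Cv F] in
lemma glob0_exists_bd (g : G (A F)) : ∃ B : Div F, 0 ≤ B ∧ Glob0Bd B g := by
  obtain ⟨B, hB, h⟩ := exists_mem_AD ![g.m11, g.m12, g.m21, g.m22, g.μ, g.r0, g.r1, g.r2]
  exact ⟨B, hB, h 0, h 1, h 2, h 3, h 4, h 5, h 6, h 7⟩

omit [Cv F] in
lemma glob0Bd_K {k : G (A F)} (hk : k ∈ KG F) : Glob0Bd 0 k := by
  obtain ⟨hM, hμ, h0, h1, h2⟩ := mem_KG.1 hk
  have h := (mem_K2.1 hM).1
  exact ⟨mem_AD_zero.2 (h 0 0), mem_AD_zero.2 (h 0 1), mem_AD_zero.2 (h 1 0), mem_AD_zero.2 (h 1 1),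
    mem_AD_zero.2 ((unit_mem_Oh _).2 hμ.ge), mem_AD_zero.2 h0, mem_AD_zero.2 h1, mem_AD_zero.2 h2⟩

omit [Cv F] in
lemma Glob0Bd.mul {B B' : Div F} {g h : G (A F)} (hg : Glob0Bd B g) (hh : Glob0Bd B' h)
    (hB : 0 ≤ B) : Glob0Bd (B' + B + B) (g * h) := by
  have h2 : ∀ {a b : A F}, a ∈ AD B → b ∈ AD B' → a * b ∈ AD (B' + B + B) := fun ha hb =>
    AD_mono (by rw [add_comm B B']; exact le_add_of_nonneg_right hB) (mul_mem_AD ha hb)
  have h3 : ∀ {a b c : A F}, a ∈ AD B' → b ∈ AD B → c ∈ AD B → a * b * c ∈ AD (B' + B + B) :=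
    fun ha hb hc => mul_mem_AD (mul_mem_AD ha hb) hc
  refine ⟨?_, ?_, ?_, ?_, h2 hg.mu hh.mu, ?_, ?_, ?_⟩
  · rw [G.mul_m11]
    exact add_mem (h2 hg.m11 hh.m11) (h2 hg.m12 hh.m21)
  · rw [G.mul_m12]
    exact add_mem (h2 hg.m11 hh.m12) (h2 hg.m12 hh.m22)
  · rw [G.mul_m21]
    exact add_mem (h2 hg.m21 hh.m11) (h2 hg.m22 hh.m21)
  · rw [G.mul_m22]
    exact add_mem (h2 hg.m21 hh.m12) (h2 hg.m22 hh.m22)
  · rw [G.mul_r0, mul_comm, sq, sq, ← mul_assoc, ← mul_assoc]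
    exact add_mem (h2 hg.r0 hh.mu) (add_mem (add_mem (h3 hh.r0 hg.m11 hg.m11)
      (h3 hh.r1 hg.m11 hg.m12)) (h3 hh.r2 hg.m12 hg.m12))
  · rw [G.mul_r1, mul_comm, two_mul, two_mul]
    exact add_mem (h2 hg.r1 hh.mu) (add_mem (add_mem (add_mem
      (h3 (add_mem hh.r0 hh.r0) hg.m11 hg.m21) (h3 hh.r1 hg.m11 hg.m22)) (h3 hh.r1 hg.m12 hg.m21))
      (h3 (add_mem hh.r2 hh.r2) hg.m12 hg.m22))
  · rw [G.mul_r2, mul_comm, sq, sq, ← mul_assoc, ← mul_assoc]
    exact add_mem (h2 hg.r2 hh.mu) (add_mem (add_mem (h3 hh.r0 hg.m21 hg.m21)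
      (h3 hh.r1 hg.m21 hg.m22)) (h3 hh.r2 hg.m22 hg.m22))

/-- `M` by `finite_stab2`, `μ` by `finite_ww`, the shifts lie in a fixed `L(B)` -/
theorem finite_stabG (x : XG F) : {γ : G F | actG F γ x = x}.Finite := by
  obtain ⟨g, rfl⟩ := x.mk_surj
  obtain ⟨B, -, hg⟩ := glob0_exists_bd g
  obtain ⟨B', hB', hg'⟩ := glob0_exists_bd g⁻¹
  have hL := finite_LL (B + (0 + B' + B') + (0 + B' + B'))
  refine (((finite_stab2 (pM (RC.mk (KG F) g))).prod ((finite_ww (F := F)).prod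
    (hL.prod (hL.prod hL)))).image
      fun p => (⟨p.1, p.2.1, p.2.2.1, p.2.2.2.1, p.2.2.2.2⟩ : G F)).subset fun γ hγ => ?_
  obtain ⟨k, hk, e⟩ := RC.mk_eq.1 ((actG_mk _ _).symm.trans hγ)
  have e' : gA F γ = g⁻¹ * k * g := by
    rw [mul_assoc, eq_inv_mul_iff_mul_eq, ← eq_mul_inv_iff_mul_eq, mul_assoc]
    exact e
  have hb' := (hg'.mul (glob0Bd_K hk) hB').mul hg (add_nonneg (add_nonneg le_rfl hB') hB')
  rw [← e'] at hb'
  refine ⟨(γ.M, γ.μ, γ.r0, γ.r1, γ.r2), ⟨?_, ?_, toA_mem_AD.1 hb'.r0, toA_mem_AD.1 hb'.r1,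
    toA_mem_AD.1 hb'.r2⟩, rfl⟩
  · change act2 F γ.M _ = _
    rw [← pM_act, hγ]
  · have h2 : idiv (gA F γ).μ = dv ((γ.μ : Fˣ) : F) := idiv_uA γ.μ
    change dv ((γ.μ : Fˣ) : F) = 0
    rw [← h2, e', G.mul_μ, G.mul_μ, G.inv_μ, idiv_mul, idiv_mul, idiv_inv, (mem_KG.1 hk).2.1]
    abel

/-- the torsors whose line bundle is isomorphic to that of `D` -/
def XD (D : Div F) : Set (XG F) := {x | ∃ u : Fˣ, cls x.out = D + dv (u : F)}

lemma mk_mem_XD {D : Div F} {g : G (A F)} :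
    RC.mk (KG F) g ∈ XD D ↔ ∃ u : Fˣ, cls g = D + dv (u : F) := by
  obtain ⟨k, hk, e⟩ := RC.out_mk (K := KG F) g
  rw [XD, Set.mem_ofPred_eq, e, cls_K hk]

lemma act_mem_XD {D : Div F} (γ : G F) {x : XG F} : actG F γ x ∈ XD D ↔ x ∈ XD D := by
  obtain ⟨g, rfl⟩ := x.mk_surj
  rw [actG_mk, mk_mem_XD, mk_mem_XD, cls_act]
  constructor
  · rintro ⟨u, hu⟩
    refine ⟨u * γ.det * γ.μ⁻¹, ?_⟩
    rw [Units.val_mul, Units.val_mul, dv_mul (mul_ne_zero u.ne_zero γ.det.ne_zero) (Units.ne_zero _),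
      dv_mul u.ne_zero γ.det.ne_zero, Units.val_inv_eq_inv_val, dv_inv, ← add_assoc, ← add_assoc,
      ← hu]
    abel
  · rintro ⟨u, hu⟩
    refine ⟨u * γ.det⁻¹ * γ.μ, ?_⟩
    rw [Units.val_mul, Units.val_mul,
      dv_mul (mul_ne_zero u.ne_zero (Units.ne_zero _)) (Units.ne_zero _),
      dv_mul u.ne_zero (Units.ne_zero _), Units.val_inv_eq_inv_val, dv_inv, hu]
    abel

/-- the model is integral for the trivialisations `g` -/
def IntM (g : G (A F)) (f : Model F) : Prop :=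
  ∃ f₀ : Model (Oh F), f₀.map (inc F) = g • f.map (toA F)

lemma intM_iff {g : G (A F)} {f : Model F} :
    IntM g f ↔ ∀ i, Model.equivVec (g • f.map (toA F)) i ∈ Oh F := by
  constructor
  · rintro ⟨f₀, h⟩ i
    rw [← h, boxes2_vec_map]
    exact (Model.equivVec f₀ i).2
  · intro h
    exact ⟨toM fun i => ⟨_, h i⟩, (Model.equivVec_symm_map _ _).trans
      (Model.equivVec.symm_apply_apply _)⟩

lemma intM_K {k : G (A F)} (hk : k ∈ KG F) (g : G (A F)) (f : Model F) :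
    IntM (k * g) f ↔ IntM g f := by
  have key : ∀ {k : G (A F)}, k ∈ KG F → ∀ g, IntM g f → IntM (k * g) f := by
    rintro _ ⟨k₀, rfl⟩ g ⟨f₀, h⟩
    exact ⟨k₀ • f₀, by rw [G.map_smul, h, mul_smul]⟩
  refine ⟨fun h => ?_, key hk g⟩
  simpa using key ((KG F).inv_mem hk) _ h

lemma act_smul_map (γ : G F) (g : G (A F)) (f : Model F) :
    (g * (gA F γ)⁻¹) • (γ • f).map (toA F) = g • f.map (toA F) := by
  rw [G.map_smul, ← mul_smul, inv_mul_cancel_right]

lemma intM_act (γ : G F) (g : G (A F)) (f : Model F) :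
    IntM (g * (gA F γ)⁻¹) (γ • f) ↔ IntM g f := by
  rw [IntM, IntM, act_smul_map]

/-- the local model -/
noncomputable def locM (v : Place F) (g : G (A F)) (f : Model F) : Model v.loc.O :=
  toM fun i => cO v (Model.equivVec (g • f.map (toA F)) i)

/-- the local Weierstrass equation -/
noncomputable def locW (v : Place F) (D : Div F) (W : WeierstrassCurve F) :
    WeierstrassCurve v.loc.O :=
  toW fun i => cO v (wEquivVec (cW D • W.map (toA F)) i)

lemma locM_eq {g : G (A F)} {f : Model F} {f₀ : Model (Oh F)}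
    (h : f₀.map (inc F) = g • f.map (toA F)) (v : Place F) : locM v g f = f₀.map (prO v) := by
  rw [locM, ← h]
  apply Model.equivVec.injective
  funext i
  rw [Equiv.apply_symm_apply, boxes2_vec_map, boxes2_vec_map]
  exact cO_coe v _

lemma locW_eq {D : Div F} {W : WeierstrassCurve F} {W₀ : WeierstrassCurve (Oh F)}
    (h : W₀.map (inc F) = cW D • W.map (toA F)) (v : Place F) : locW v D W = W₀.map (prO v) := by
  rw [locW, ← h]
  apply wEquivVec.injective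
  funext i
  rw [Equiv.apply_symm_apply, boxes2_wvec_map, boxes2_wvec_map]
  exact cO_coe v _

lemma locM_act (v : Place F) (γ : G F) (g : G (A F)) (f : Model F) :
    locM v (g * (gA F γ)⁻¹) (γ • f) = locM v g f := by
  rw [locM, locM, act_smul_map]

lemma locM_K {k g : G (A F)} (hk : k ∈ KG F) {f : Model F} (hf : IntM g f) (v : Place F) :
    ∃ h : G v.loc.O, locM v (k * g) f = h • locM v g f := by
  obtain ⟨k₀, rfl⟩ := hk
  obtain ⟨f₀, h⟩ := hf
  refine ⟨G.map (prO v) k₀, ?_⟩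
  rw [locM_eq h, ← G.map_smul]
  exact locM_eq (by rw [G.map_smul, h, mul_smul]) v

lemma locM_map {g : G (A F)} {f : Model F} (hf : IntM g f) (v : Place F) :
    (locM v g f).map v.loc.incl = G.map (pr v) g • f.map (algebraMap F v.Compl) := by
  obtain ⟨f₀, h⟩ := hf
  rw [locM_eq h, Model.map_map, incl_comp_prO, ← Model.map_map, h, G.map_smul, Model.map_map,
    pr_comp_toA]

lemma glob0_Delta {g : G (A F)} {f : Model F} (hf : IntM g f) (v : Place F) :
    ((locM v g f).jac.Δ : v.Compl) =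
      pr v ((g.μ * g.det⁻¹)⁻¹ : (A F)ˣ) ^ 12 * algebraMap F v.Compl f.jac.Δ := by
  have h := congrArg (fun f => f.jac.Δ) (locM_map hf v)
  simp only [Model.jac_map, map_Δ, G.jac_smul, variableChange_Δ, G.Gam_u, G.map_det,
    G.map_μ] at h
  refine h.trans ?_
  rw [← map_inv, ← map_mul, ← map_inv]
  rfl

lemma locM_Delta {g : G (A F)} {f : Model F} (hf : IntM g f) (hΔ : f.jac.Δ ≠ 0) (v : Place F) :
    (locM v g f).jac.Δ ≠ 0 := by
  intro h0
  have h := glob0_Delta hf v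
  rw [h0, ZeroMemClass.coe_zero, eq_comm, mul_eq_zero] at h
  rcases h with h | h
  · exact pow_ne_zero _ ((Units.isUnit _).map (pr v)).ne_zero h
  · exact hΔ ((map_eq_zero _).1 h)

/-- `G.jac_smul`, `G.Gam_u`, `variableChange_Δ` -/
lemma v_locM_Delta {g : G (A F)} {f : Model F} (hf : IntM g f) (v : Place F) :
    v.vc ((locM v g f).jac.Δ : v.Compl) = exp (-(12 * cls g v)) * v.1 f.jac.Δ := by
  rw [glob0_Delta hf v, map_mul, map_pow, vc_unit, Place.vc_algebraMap, ← WithZero.exp_nsmul, idiv_inv,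
    idiv_mul, idiv_inv, cls]
  congr 2
  simp only [Finsupp.neg_apply, Finsupp.add_apply, Finsupp.sub_apply, nsmul_eq_mul]
  push_cast
  ring

end SelAvg.FF
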