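import Pool.Agent.H81Sel.Tail

/-! Block HT, part A: the minimal exponent of a Weierstrass equation at a valuation. -/

namespace SelAvg.FF

open WeierstrassCurve WithZero Filter Topology
open scoped Classical

section Val

variable {L : Type} [Field L]

/-- the coefficient `a_i` has a pole of order at most `i m` -/
def IntW (w : Valuation L ℤᵐ⁰) (m : ℤ) (W : WeierstrassCurve L) : Prop :=
  w W.a₁ ≤ exp (1 * m) ∧ w W.a₂ ≤ exp (2 * m) ∧ w W.a₃ ≤ exp (3 * m) ∧ w W.a₄ ≤ exp (4 * m) ∧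
    w W.a₆ ≤ exp (6 * m)

/-- the least exponent over all shifts -/
noncomputable def mu (w : Valuation L ℤᵐ⁰) (W : WeierstrassCurve L) : ℤ :=
  sInf {m : ℤ | ∃ r s t : L, IntW w m (wsh r s t • W)}

variable {w : Valuation L ℤᵐ⁰} {π : L} {m m' : ℤ} {W : WeierstrassCurve L}

lemma IntW.mono (h : IntW w m W) (hm : m ≤ m') : IntW w m' W :=
  ⟨h.1.trans (exp_le_exp.2 (by omega)), h.2.1.trans (exp_le_exp.2 (by omega)),
    h.2.2.1.trans (exp_le_exp.2 (by omega)), h.2.2.2.1.trans (exp_le_exp.2 (by omega)),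
    h.2.2.2.2.trans (exp_le_exp.2 (by omega))⟩

lemma ht_scale {u : L} {c : ℤ} (hu : w u = exp (-c)) (i : ℕ) (x : L) (e : ℤ) :
    w (u ^ i * x) ≤ exp (i * e) ↔ w x ≤ exp (i * (e + c)) := by
  rw [map_mul, map_pow, hu, ← exp_nsmul]
  by_cases ha : w x = 0
  · simp [ha]
  · rw [← exp_log ha, ← exp_add, exp_le_exp, exp_le_exp, nsmul_eq_mul]
    constructor <;> intro h <;> linarith

lemma intW_wsc {u : L} {c : ℤ} (hu : w u = exp (-c)) : IntW w m (wsc u W) ↔ IntW w (m + c) W := by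
  have h1 := ht_scale hu 1 W.a₁ m
  have h2 := ht_scale hu 2 W.a₂ m
  have h3 := ht_scale hu 3 W.a₃ m
  have h4 := ht_scale hu 4 W.a₄ m
  have h6 := ht_scale hu 6 W.a₆ m
  push_cast at h1 h2 h3 h4 h6
  rw [pow_one] at h1
  exact and_congr h1 (and_congr h2 (and_congr h3 (and_congr h4 h6)))

lemma ht_zpow (hπ : w π = exp (-1)) (m : ℤ) : w (π ^ m) = exp (-m) := by
  rw [map_zpow₀, hπ, ← exp_zsmul]
  simp

lemma ht_ne (hπ : w π = exp (-1)) : π ≠ 0 := fun h => by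
  rw [h, map_zero] at hπ
  exact exp_ne_zero hπ.symm

lemma intW_zero : IntW w 0 W ↔
    ∃ W₀ : WeierstrassCurve w.valuationSubring, W₀.map (algebraMap _ L) = W := by
  simp only [IntW, mul_zero, exp_zero]
  constructor
  · rintro ⟨h1, h2, h3, h4, h6⟩
    exact ⟨⟨⟨_, h1⟩, ⟨_, h2⟩, ⟨_, h3⟩, ⟨_, h4⟩, ⟨_, h6⟩⟩, rfl⟩
  · rintro ⟨W₀, rfl⟩
    exact ⟨W₀.a₁.2, W₀.a₂.2, W₀.a₃.2, W₀.a₄.2, W₀.a₆.2⟩

lemma intW_iff (hπ : w π = exp (-1)) : IntW w m W ↔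
    ∃ W₀ : WeierstrassCurve w.valuationSubring, W₀.map (algebraMap _ L) = wsc (π ^ m) W := by
  rw [← intW_zero, intW_wsc (ht_zpow hπ m), zero_add]

lemma ht_wsh_map {R S : Type} [CommRing R] [CommRing S] (φ : R →+* S) (r s t : R)
    (W : WeierstrassCurve R) : (wsh r s t • W).map φ = wsh (φ r) (φ s) (φ t) • W.map φ := by
  rw [← map_variableChange]
  congr 1
  simp [wsh, VariableChange.map]

lemma ht_int (hπ : w π = exp (-1)) (i : ℕ) (x : L) :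
    w ((π ^ m) ^ i * x) ≤ 1 ↔ w x ≤ exp (i * m) := by
  have h := ht_scale (ht_zpow hπ m) i x 0
  rwa [mul_zero, exp_zero, zero_add] at h

lemma IntW.wsh (hπ : w π = exp (-1)) (h : IntW w m W) {r s t : L} (hr : w r ≤ exp (2 * m))
    (hs : w s ≤ exp (1 * m)) (ht : w t ≤ exp (3 * m)) : IntW w m (wsh r s t • W) := by
  obtain ⟨W₀, e⟩ := (intW_iff hπ).1 h
  have h1 := (ht_int hπ 1 s).2 hs
  rw [pow_one] at h1
  refine (intW_iff hπ).2 ⟨SelAvg.wsh (R := w.valuationSubring) ⟨_, (ht_int hπ 2 r).2 hr⟩ ⟨_, h1⟩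
    ⟨_, (ht_int hπ 3 t).2 ht⟩ • W₀, ?_⟩
  rw [ht_wsh_map, e, wsc_wsh]
  rfl

lemma IntW.of_wsh (hπ : w π = exp (-1)) (h : IntW w m W) {r s t : L}
    (h' : IntW w m (SelAvg.wsh r s t • W)) :
    w r ≤ exp (2 * m) ∧ w s ≤ exp (1 * m) ∧ w t ≤ exp (3 * m) := by
  obtain ⟨W₀, e⟩ := (intW_iff hπ).1 h
  obtain ⟨W₁, e'⟩ := (intW_iff hπ).1 h'
  rw [wsc_wsh, ← e] at e'
  obtain ⟨C₀, hC, -⟩ := vc_integral 1 (by simp [SelAvg.wsh]) e'.symm
  have hr : ((C₀.r : w.valuationSubring) : L) = (π ^ m) ^ 2 * r := congrArg VariableChange.r hC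
  have hs : ((C₀.s : w.valuationSubring) : L) = π ^ m * s := congrArg VariableChange.s hC
  have ht : ((C₀.t : w.valuationSubring) : L) = (π ^ m) ^ 3 * t := congrArg VariableChange.t hC
  refine ⟨(ht_int hπ 2 r).1 (hr ▸ C₀.r.2), (ht_int hπ 1 s).1 ?_, (ht_int hπ 3 t).1 (ht ▸ C₀.t.2)⟩
  rw [pow_one]
  exact hs ▸ C₀.s.2

lemma IntW.Delta_le (hπ : w π = exp (-1)) (h : IntW w m W) : w W.Δ ≤ exp (12 * m) := by
  obtain ⟨W₀, e⟩ := (intW_iff hπ).1 h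
  have h1 := congrArg WeierstrassCurve.Δ e
  rw [map_Δ, wsc_Delta] at h1
  exact (ht_int hπ 12 W.Δ).1 (h1 ▸ W₀.Δ.2)

lemma wsh_Delta {R : Type} [CommRing R] (r s t : R) (W : WeierstrassCurve R) :
    (wsh r s t • W).Δ = W.Δ := by
  simp [variableChange_Δ, wsh]

lemma wsh_zero {R : Type} [CommRing R] (W : WeierstrassCurve R) : wsh (0 : R) 0 0 • W = W :=
  one_smul _ W

lemma exists_intW (w : Valuation L ℤᵐ⁰) (W : WeierstrassCurve L) : ∃ m, IntW w m W := by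
  obtain ⟨e1, h1⟩ := height1_ex (w W.a₁) (i := 1) (by norm_num)
  obtain ⟨e2, h2⟩ := height1_ex (w W.a₂) (i := 2) (by norm_num)
  obtain ⟨e3, h3⟩ := height1_ex (w W.a₃) (i := 3) (by norm_num)
  obtain ⟨e4, h4⟩ := height1_ex (w W.a₄) (i := 4) (by norm_num)
  obtain ⟨e6, h6⟩ := height1_ex (w W.a₆) (i := 6) (by norm_num)
  exact ⟨-min (min (min e1 e2) (min e3 e4)) e6, h1.trans (exp_le_exp.2 (by omega)),
    h2.trans (exp_le_exp.2 (by omega)), h3.trans (exp_le_exp.2 (by omega)),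
    h4.trans (exp_le_exp.2 (by omega)), h6.trans (exp_le_exp.2 (by omega))⟩

theorem mu_le_iff (hπ : w π = exp (-1)) (hΔ : W.Δ ≠ 0) :
    mu w W ≤ m ↔ ∃ r s t : L, IntW w m (wsh r s t • W) := by
  have hn : {m : ℤ | ∃ r s t : L, IntW w m (wsh r s t • W)}.Nonempty := by
    obtain ⟨m, h⟩ := exists_intW w W
    exact ⟨m, 0, 0, 0, by rwa [wsh_zero]⟩
  have hb : BddBelow {m : ℤ | ∃ r s t : L, IntW w m (wsh r s t • W)} := by
    refine ⟨-|log (w W.Δ)|, fun m ⟨r, s, t, h⟩ => ?_⟩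
    have h1 := h.Delta_le hπ
    rw [wsh_Delta, ← exp_log ((map_ne_zero w).2 hΔ), exp_le_exp] at h1
    have := neg_abs_le (log (w W.Δ))
    have := abs_nonneg (log (w W.Δ))
    omega
  constructor
  · intro h
    obtain ⟨r, s, t, h1⟩ := Int.csInf_mem hn hb
    exact ⟨r, s, t, h1.mono h⟩
  · exact fun h => csInf_le hb h

lemma IntW.mu_le (hπ : w π = exp (-1)) (hΔ : W.Δ ≠ 0) (h : IntW w m W) : mu w W ≤ m :=
  (mu_le_iff hπ hΔ).2 ⟨0, 0, 0, by rwa [wsh_zero]⟩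

lemma Delta_le_mu (hπ : w π = exp (-1)) (hΔ : W.Δ ≠ 0) : w W.Δ ≤ exp (12 * mu w W) := by
  obtain ⟨r, s, t, h⟩ := (mu_le_iff hπ hΔ).1 le_rfl
  have h1 := h.Delta_le hπ
  rwa [wsh_Delta] at h1

lemma vc_eq {R : Type} [CommRing R] (C : VariableChange R) :
    C = wdiag C.u * wsh C.r C.s C.t := by
  ext <;> simp [wsh, wdiag, VariableChange.mul_def]

lemma intW_wdiag (u : Lˣ) {c : ℤ} (hu : w (u : L) = exp (-c)) :
    IntW w m (wdiag u • W) ↔ IntW w (m - c) W := by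
  have h : w ((u⁻¹ : Lˣ) : L) = exp (- -c) := by
    rw [Units.val_inv_eq_inv_val, map_inv₀, hu, ← exp_neg]
  rw [← inv_inv u, ← wsc_unit, intW_wsc h, sub_eq_add_neg]

lemma mu_smul_le (hπ : w π = exp (-1)) (hΔ : W.Δ ≠ 0) (C : VariableChange L) {c : ℤ}
    (hu : w (C.u : L) = exp (-c)) : mu w (C • W) ≤ mu w W + c := by
  obtain ⟨r, s, t, h⟩ := (mu_le_iff hπ hΔ).1 le_rfl
  have h1 : (wsh r s t * C⁻¹) • (C • W) = wsh r s t • W := by rw [mul_smul, inv_smul_smul]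
  refine (mu_le_iff hπ ((Delta_smul_ne_zero C).2 hΔ)).2
    ⟨(wsh r s t * C⁻¹).r, (wsh r s t * C⁻¹).s, (wsh r s t * C⁻¹).t, ?_⟩
  have h2 : (wsh r s t * C⁻¹).u⁻¹ = C.u := by
    simp [wsh, VariableChange.mul_def, VariableChange.inv_def]
  rw [vcint_wsh_smul h1, h2, intW_wdiag _ hu, add_sub_cancel_right]
  exact h

theorem mu_smul (hπ : w π = exp (-1)) (hΔ : W.Δ ≠ 0) (C : VariableChange L) {c : ℤ}
    (hu : w (C.u : L) = exp (-c)) : mu w (C • W) = mu w W + c := by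
  refine le_antisymm (mu_smul_le hπ hΔ C hu) ?_
  have h : w ((C⁻¹).u : L) = exp (- -c) := by
    rw [VariableChange.inv_def, Units.val_inv_eq_inv_val, map_inv₀, hu, ← exp_neg]
  have h1 := mu_smul_le hπ ((Delta_smul_ne_zero C).2 hΔ) C⁻¹ h
  rw [inv_smul_smul] at h1
  omega

end Val

section Loc

variable {L : Type} [Field L] (V : LocalField L)

lemma dvdW_iff_intW (W₀ : WeierstrassCurve V.O) :
    DvdW V.unif W₀ ↔ IntW V.v (-1) (W₀.map V.incl) := by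
  have h1 := V.le_exp_iff_dvd W₀.a₁ 1
  rw [pow_one] at h1
  exact (and_congr h1 (and_congr (V.le_exp_iff_dvd W₀.a₂ 2) (and_congr (V.le_exp_iff_dvd W₀.a₃ 3)
    (and_congr (V.le_exp_iff_dvd W₀.a₄ 4) (V.le_exp_iff_dvd W₀.a₆ 6))))).symm

/-- an integral equation is not minimal iff its least exponent is negative -/
theorem nonMin_iff_mu {W₀ : WeierstrassCurve V.O} (hΔ : (W₀.map V.incl).Δ ≠ 0) :
    NonMin V.unif W₀ ↔ mu V.v (W₀.map V.incl) < 0 := by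
  rw [Int.lt_iff_add_one_le, ← le_sub_iff_add_le, zero_sub, mu_le_iff V.v_ϖ hΔ]
  constructor
  · rintro ⟨r, s, t, h⟩
    rw [dvdW_iff_intW, ht_wsh_map] at h
    exact ⟨_, _, _, h⟩
  · rintro ⟨r, s, t, h⟩
    obtain ⟨hr, hs, ht⟩ := (intW_zero.2 ⟨W₀, rfl⟩).of_wsh V.v_ϖ (h.mono (by norm_num))
    simp only [mul_zero, exp_zero] at hr hs ht
    refine ⟨⟨r, hr⟩, ⟨s, hs⟩, ⟨t, ht⟩, ?_⟩
    rw [dvdW_iff_intW, ht_wsh_map]
    exact h

end Loc

variable {F : Type} [Field F]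

lemma intW_map (v : Place F) (m : ℤ) (W : WeierstrassCurve F) :
    IntW v.vc m (W.map (algebraMap F v.Compl)) ↔ IntW v.1 m W := by
  simp only [IntW, map_a₁, map_a₂, map_a₃, map_a₄, map_a₆, Place.vc_algebraMap]

lemma ht_Delta_map {L : Type} [Field L] (φ : F →+* L) {W : WeierstrassCurve F} (hΔ : W.Δ ≠ 0) :
    (W.map φ).Δ ≠ 0 := by
  rw [map_Δ]
  exact (map_ne_zero φ).2 hΔ

lemma ht_dense (v : Place F) (y : v.Compl) (m : ℤ) :
    ∃ x : F, v.vc (algebraMap F v.Compl x - y) ≤ exp m := by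
  obtain ⟨x, hx⟩ := v.dense y m.natAbs
  refine ⟨x, ?_⟩
  rw [Valuation.map_sub_swap]
  exact hx.trans (exp_le_exp.2 (by omega))

/-- the least exponent does not change in the completion -/
theorem mu_map (v : Place F) {W : WeierstrassCurve F} (hΔ : W.Δ ≠ 0) :
    mu v.vc (W.map (algebraMap F v.Compl)) = mu v.1 W := by
  refine eq_of_forall_ge_iff fun m => ?_
  rw [mu_le_iff (v_unifF v) hΔ, mu_le_iff (w := v.vc) v.loc.v_ϖ (ht_Delta_map _ hΔ)]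
  constructor
  · rintro ⟨r, s, t, h⟩
    obtain ⟨r', hr⟩ := ht_dense v r (2 * m)
    obtain ⟨s', hs⟩ := ht_dense v s (1 * m)
    obtain ⟨t', ht⟩ := ht_dense v ((algebraMap F v.Compl r' - r) * s + t) (3 * m)
    refine ⟨r', s', t', ?_⟩
    have h1 := h.wsh (w := v.vc) v.loc.v_ϖ hr hs ht
    rw [← mul_smul, wsh_mul] at h1
    rw [← intW_map, ht_wsh_map]
    rwa [sub_add_cancel, sub_add_cancel, add_assoc, sub_add_cancel] at h1
  · rintro ⟨r, s, t, h⟩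
    rw [← intW_map, ht_wsh_map] at h
    exact ⟨_, _, _, h⟩

end SelAvg.FF
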