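import Pool.Agent.H81Sel.HtA

/-! Block HT, part B: the minimal divisor of a Weierstrass equation and the height. -/

namespace SelAvg.FF

open WeierstrassCurve WithZero Filter Topology
open scoped Classical

variable {F : Type} [Field F]

/-- the coefficient `a_i` lies in `L(i D)` -/
def InW (D : Div F) (W : WeierstrassCurve F) : Prop := ∀ v : Place F, IntW v.1 (D v) W

lemma InW.mono {D E : Div F} {W : WeierstrassCurve F} (h : InW D W) (hD : D ≤ E) : InW E W :=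
  fun v => (h v).mono (hD v)

lemma e_iff (v : Place F) {W : WeierstrassCurve F} (hΔ : W.Δ ≠ 0) (m : ℤ) :
    -v.e W ≤ m ↔ IntW v.1 m W := by
  rw [neg_le, v.le_e_iff hΔ]
  simp only [mul_neg, neg_neg]
  rfl

variable [Cv F]

lemma eventually_le_one (x : F) : ∀ᶠ v : Place F in cofinite, v.1 x ≤ 1 := by
  by_cases hx : x = 0
  · exact Eventually.of_forall fun v => by simp [hx]
  · exact (Cv.fin_supp x hx).subset fun v hv h => hv h.le

lemma eventually_intW (W : WeierstrassCurve F) : ∀ᶠ v : Place F in cofinite, IntW v.1 0 W := by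
  filter_upwards [eventually_le_one W.a₁, eventually_le_one W.a₂, eventually_le_one W.a₃,
    eventually_le_one W.a₄, eventually_le_one W.a₆] with v h1 h2 h3 h4 h6
  simp only [IntW, mul_zero, exp_zero]
  exact ⟨h1, h2, h3, h4, h6⟩

lemma eventually_good {W : WeierstrassCurve F} (hΔ : W.Δ ≠ 0) :
    ∀ᶠ v : Place F in cofinite, mu v.1 W = 0 ∧ v.e W = 0 := by
  have h0 : ∀ᶠ v : Place F in cofinite, v.1 W.Δ = 1 :=
    (Cv.fin_supp _ hΔ).subset fun v hv => hv
  filter_upwards [eventually_intW W, h0] with v h1 h2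
  have h3 := Delta_le_mu (v_unifF v) hΔ
  rw [h2, ← exp_zero, exp_le_exp] at h3
  have h4 := h1.mu_le (v_unifF v) hΔ
  have h5 := (e_iff v hΔ 0).2 h1
  have h6 := ((e_iff v hΔ _).1 le_rfl).mu_le (v_unifF v) hΔ
  omega

/-- the minimal divisor -/
noncomputable def DM (W : WeierstrassCurve F) : Div F :=
  if h : W.Δ ≠ 0 then Finsupp.ofSupportFinite (fun v => mu v.1 W)
    ((eventually_good h).mono fun _ h => h.1) else 0

lemma DM_apply {W : WeierstrassCurve F} (hΔ : W.Δ ≠ 0) (v : Place F) : DM W v = mu v.1 W := by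
  rw [DM, dif_pos hΔ]
  rfl

/-- the pole divisor of the given equation -/
noncomputable def DE (W : WeierstrassCurve F) : Div F :=
  if h : W.Δ ≠ 0 then Finsupp.ofSupportFinite (fun v => -v.e W)
    ((eventually_good h).mono fun _ h => by simp [h.2]) else 0

lemma DE_apply {W : WeierstrassCurve F} (hΔ : W.Δ ≠ 0) (v : Place F) : DE W v = -v.e W := by
  rw [DE, dif_pos hΔ]
  rfl

lemma DE_le_iff {W : WeierstrassCurve F} (hΔ : W.Δ ≠ 0) {D : Div F} : DE W ≤ D ↔ InW D W :=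
  forall_congr' fun v => by rw [DE_apply hΔ, e_iff v hΔ]

lemma InW.DM_le {D : Div F} {W : WeierstrassCurve F} (h : InW D W) (hΔ : W.Δ ≠ 0) : DM W ≤ D :=
  fun v => by rw [DM_apply hΔ]; exact (h v).mu_le (v_unifF v) hΔ

theorem DM_smul {W : WeierstrassCurve F} (hΔ : W.Δ ≠ 0) (C : VariableChange F) :
    DM (C • W) = DM W + dv (C.u : F) := by
  ext v
  rw [Finsupp.add_apply, DM_apply hΔ, DM_apply ((Delta_smul_ne_zero C).2 hΔ), dv_apply]
  exact mu_smul (v_unifF v) hΔ C (v_eq_exp v C.u.ne_zero)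

lemma deg_DM_smul {W : WeierstrassCurve F} (hΔ : W.Δ ≠ 0) (C : VariableChange F) :
    deg (DM (C • W)) = deg (DM W) := by
  rw [DM_smul hΔ, map_add, deg_dv, add_zero]

/-- strong approximation for a finitely supported family -/
lemma approxF {D : Div F} (h : (c0 F : ℤ) ≤ deg D) (a : Place F → F)
    (ha : ∀ᶠ v in cofinite, a v = 0) : ∃ x : F, ∀ v : Place F, v.1 (x - a v) ≤ exp (D v) := by
  obtain ⟨b, hb⟩ := exists_adele (fun v => algebraMap F v.Compl (a v))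
    (ha.mono fun v hv => by simp [hv])
  obtain ⟨x, hx⟩ := approx h b
  refine ⟨x, fun v => ?_⟩
  have h1 := mem_AD.1 hx v
  rwa [map_sub, pr_toA, hb, ← map_sub, Place.vc_algebraMap] at h1

/-- the local shifts patch if the degree is large -/
theorem exists_inW {W : WeierstrassCurve F} (hΔ : W.Δ ≠ 0) {D : Div F} (hD : (c0 F : ℤ) ≤ deg D)
    (h : DM W ≤ D) : ∃ r s t : F, InW D (wsh r s t • W) := by
  have h1 : ∀ v : Place F, ∃ r s t : F, IntW v.1 (D v) (wsh r s t • W) ∧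
      (IntW v.1 (D v) W → s = 0 ∧ r = 0 ∧ t = 0) := fun v => by
    by_cases hv : IntW v.1 (D v) W
    · exact ⟨0, 0, 0, by rwa [wsh_zero], fun _ => ⟨rfl, rfl, rfl⟩⟩
    · obtain ⟨r, s, t, h2⟩ := (mu_le_iff (v_unifF v) hΔ).1 ((DM_apply hΔ v).symm.trans_le (h v))
      exact ⟨r, s, t, h2, fun h3 => absurd h3 hv⟩
  choose r s t h2 h3 using h1
  have h4 : ∀ᶠ v : Place F in cofinite, IntW v.1 (D v) W := by
    have h5 : ∀ᶠ v : Place F in cofinite, D v = 0 := D.hasFiniteSupport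
    filter_upwards [eventually_intW W, h5] with v a b
    rwa [b]
  have hc : (0 : ℤ) ≤ c0 F := Int.natCast_nonneg _
  obtain ⟨r', hr⟩ := approxF (D := 2 • D) (by rw [map_nsmul, nsmul_eq_mul]; push_cast; omega) r
    (h4.mono fun v hv => (h3 v hv).2.1)
  obtain ⟨s', hs⟩ := approxF hD s (h4.mono fun v hv => (h3 v hv).1)
  obtain ⟨t', ht⟩ := approxF (D := 3 • D) (by rw [map_nsmul, nsmul_eq_mul]; push_cast; omega)
    (fun v => (r' - r v) * s v + t v)
    (h4.mono fun v hv => by rw [(h3 v hv).1, (h3 v hv).2.2, mul_zero, add_zero])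
  refine ⟨r', s', t', fun v => ?_⟩
  have h5 := (h2 v).wsh (v_unifF v) (r := r' - r v) (s := s' - s v)
    (t := t' - ((r' - r v) * s v + t v)) (by simpa using hr v) (by simpa using hs v)
    (by simpa using ht v)
  rwa [← mul_smul, wsh_mul, sub_add_cancel, sub_add_cancel, add_assoc, sub_add_cancel] at h5

lemma ht_prod_zpow {ι : Type} {q : ℝ} (hq : q ≠ 0) (T : Finset ι) (e : ι → ℤ) :
    ∏ i ∈ T, q ^ e i = q ^ ∑ i ∈ T, e i := by
  induction T using Finset.induction_on with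
  | empty => simp
  | insert p T hp ih => rw [Finset.prod_insert hp, Finset.sum_insert hp, ih, zpow_add₀ hq]

theorem modelHeight_eq {W : WeierstrassCurve F} (hΔ : W.Δ ≠ 0) :
    modelHeight W = qq F ^ (12 * deg (DE W)) := by
  have hq : qq F ≠ 0 := (one_pos.trans one_lt_qq).ne'
  rw [modelHeight, finprod_eq_prod_of_mulSupport_subset (s := (DE W).support), deg_eq, Finsupp.sum,
    Finset.mul_sum, ← ht_prod_zpow hq]
  · refine Finset.prod_congr rfl fun v _ => ?_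
    rw [Cv.q_eq, Nat.cast_pow, ← zpow_natCast, ← zpow_mul, DE_apply hΔ]
    congr 1
    ring
  · intro v hv
    by_contra hc
    have h1 : DE W v = 0 := by simpa using hc
    rw [DE_apply hΔ, neg_eq_zero] at h1
    exact hv (by simp [h1])

lemma InW.modelHeight_le {D : Div F} {W : WeierstrassCurve F} (h : InW D W) (hΔ : W.Δ ≠ 0) :
    modelHeight W ≤ qq F ^ (12 * deg D) := by
  rw [modelHeight_eq hΔ]
  have := deg_mono ((DE_le_iff hΔ).2 h)
  exact zpow_le_zpow_right₀ one_lt_qq.le (by omega)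

lemma le_modelHeight {W : WeierstrassCurve F} (hΔ : W.Δ ≠ 0) :
    qq F ^ (12 * deg (DM W)) ≤ modelHeight W := by
  rw [modelHeight_eq hΔ]
  have := deg_mono (((DE_le_iff hΔ).1 le_rfl).DM_le hΔ)
  exact zpow_le_zpow_right₀ one_lt_qq.le (by omega)

/-- an invertible integer is a unit at every place -/
lemma v_natCast {n : ℕ} (hn : (n : F) ≠ 0) (v : Place F) : v.1 (n : F) = 1 := by
  have h1 : 0 ≤ dv (n : F) := by simpa using (mem_LL_iff.1 (natCast_mem_LL n)).resolve_left hn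
  have h2 := eq_of_le_of_deg h1 (by simp)
  rw [v_eq_exp v hn, ← dv_apply, ← h2]
  simp

omit [Cv F] in
lemma ht_natCast_ne {p : ℕ} (hp : p.Prime) (h : ringChar F ≠ p) : (p : F) ≠ 0 := fun h0 => by
  rcases (Nat.dvd_prime hp).1 ((ringChar.spec F p).1 h0) with h1 | h1
  · exact CharP.ringChar_ne_one h1
  · exact h h1

omit [Cv F] in
lemma ht_mul {w : Valuation F ℤᵐ⁰} {a b : F} {i j k : ℤ} (ha : w a ≤ exp i) (hb : w b ≤ exp j)
    (h : i + j = k) : w (a * b) ≤ exp k := by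
  rw [map_mul, ← h, exp_add]
  exact mul_le_mul' ha hb

lemma InW.exists_short {D : Div F} {W : WeierstrassCurve F} (h : InW D W) (h2 : ringChar F ≠ 2)
    (h3 : ringChar F ≠ 3) : ∃ r s t : F, InW D (wsh r s t • W) ∧ (wsh r s t • W).a₁ = 0 ∧
      (wsh r s t • W).a₂ = 0 ∧ (wsh r s t • W).a₃ = 0 := by
  have n2 : ((2 : ℕ) : F) ≠ 0 := ht_natCast_ne Nat.prime_two h2
  have n3 : ((3 : ℕ) : F) ≠ 0 := ht_natCast_ne Nat.prime_three h3
  have v2 : ∀ v : Place F, v.1 (((2 : ℕ) : F)⁻¹) ≤ exp 0 := fun v => by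
    rw [map_inv₀, v_natCast n2, inv_one, exp_zero]
  have v3 : ∀ v : Place F, v.1 (((3 : ℕ) : F)⁻¹) ≤ exp 0 := fun v => by
    rw [map_inv₀, v_natCast n3, inv_one, exp_zero]
  have ei := mul_inv_cancel₀ n2
  have ej := mul_inv_cancel₀ n3
  generalize ((2 : ℕ) : F)⁻¹ = i at v2 ei
  generalize ((3 : ℕ) : F)⁻¹ = j at v3 ej
  push_cast at ei ej
  obtain ⟨s, es⟩ : ∃ s, s = -(i * W.a₁) := ⟨_, rfl⟩
  obtain ⟨r, er⟩ : ∃ r, r = -(j * (W.a₂ - s * W.a₁ - s * s)) := ⟨_, rfl⟩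
  refine ⟨r, s, -(i * (W.a₃ + r * W.a₁)), fun v => ?_, ?_, ?_, ?_⟩
  · obtain ⟨d1, d2, d3, -, -⟩ := h v
    have hs : v.1 s ≤ exp (1 * D v) := by
      rw [es, Valuation.map_neg]
      exact ht_mul (v2 v) d1 (by ring)
    have hr : v.1 r ≤ exp (2 * D v) := by
      rw [er, Valuation.map_neg]
      exact ht_mul (v3 v) (v.1.map_sub_le (v.1.map_sub_le d2 (ht_mul hs d1 (by ring)))
        (ht_mul hs hs (by ring))) (by ring)
    refine (h v).wsh (v_unifF v) hr hs ?_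
    rw [Valuation.map_neg]
    exact ht_mul (v2 v) (v.1.map_add_le d3 (ht_mul hr d1 (by ring))) (by ring)
  · simp only [wsh, variableChange_a₁, inv_one, Units.val_one, one_mul]
    linear_combination 2 * es - W.a₁ * ei
  · simp only [wsh, variableChange_a₂, inv_one, Units.val_one, one_pow, one_mul]
    linear_combination 3 * er - (W.a₂ - s * W.a₁ - s ^ 2) * ej
  · simp only [wsh, variableChange_a₃, inv_one, Units.val_one, one_pow, one_mul]
    linear_combination (-(W.a₃ + r * W.a₁)) * ei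

lemma ht_mem {W : WeierstrassCurve F} (hΔ : W.Δ ≠ 0) {D : Div F} (hD : (c0 F : ℤ) ≤ deg D)
    (h : DM W ≤ D) : ∃ C : VariableChange F, (ringChar F = 2 ∨ ringChar F = 3 ∨
      ((C • W).a₁ = 0 ∧ (C • W).a₂ = 0 ∧ (C • W).a₃ = 0)) ∧
      modelHeight (C • W) ≤ qq F ^ (12 * deg D) := by
  obtain ⟨r, s, t, h1⟩ := exists_inW hΔ hD h
  by_cases h2 : ringChar F = 2
  · exact ⟨_, Or.inl h2, h1.modelHeight_le ((Delta_smul_ne_zero _).2 hΔ)⟩
  by_cases h3 : ringChar F = 3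
  · exact ⟨_, Or.inr (Or.inl h3), h1.modelHeight_le ((Delta_smul_ne_zero _).2 hΔ)⟩
  obtain ⟨r', s', t', h4, h5⟩ := h1.exists_short h2 h3
  rw [← mul_smul] at h4 h5
  exact ⟨_, Or.inr (Or.inr h5), h4.modelHeight_le ((Delta_smul_ne_zero _).2 hΔ)⟩

lemma ht_pp_pos : 0 < pp F := dg_pos _

/-- add a multiple of `P` to reach the degree `c0` -/
lemma exists_ge (D : Div F) : ∃ E, D ≤ E ∧ (c0 F : ℤ) ≤ deg E ∧
    deg E ≤ max (deg D) (c0 F + pp F) := by
  by_cases h : (c0 F : ℤ) ≤ deg D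
  · exact ⟨D, le_rfl, h, le_max_left _ _⟩
  have hp : (0 : ℤ) < pp F := by exact_mod_cast ht_pp_pos (F := F)
  have h1 := Int.emod_add_mul_ediv (c0 F - deg D) (pp F)
  have h2 := Int.emod_nonneg (c0 F - deg D) hp.ne'
  have h3 := Int.emod_lt_of_pos (c0 F - deg D) hp
  have h4 : 0 ≤ (c0 F - deg D) / (pp F : ℤ) := Int.ediv_nonneg (by omega) hp.le
  have h5 : deg (D + ((c0 F - deg D) / (pp F : ℤ) + 1) • PP F) =
      deg D + (pp F * ((c0 F - deg D) / (pp F : ℤ)) + pp F) := by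
    rw [map_add, map_zsmul, deg_PP, smul_eq_mul]
    ring
  refine ⟨D + ((c0 F - deg D) / (pp F : ℤ) + 1) • PP F,
    le_add_of_nonneg_right (zsmul_nonneg PP_nonneg (by omega)), ?_, le_max_of_le_right ?_⟩
  · rw [h5]; omega
  · rw [h5]; omega

theorem le_height {W : WeierstrassCurve F} (hΔ : W.Δ ≠ 0) :
    qq F ^ (12 * deg (DM W)) ≤ height W := by
  obtain ⟨E, h1, h2, -⟩ := exists_ge (DM W)
  obtain ⟨C, hC, -⟩ := ht_mem hΔ h2 h1
  refine le_csInf ⟨_, C, hC, rfl⟩ ?_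
  rintro _ ⟨C, -, rfl⟩
  rw [← deg_DM_smul hΔ C]
  exact le_modelHeight ((Delta_smul_ne_zero _).2 hΔ)

theorem height_le {W : WeierstrassCurve F} (hΔ : W.Δ ≠ 0) :
    height W ≤ qq F ^ (12 * max (deg (DM W)) (c0 F + pp F)) := by
  obtain ⟨E, h1, h2, h3⟩ := exists_ge (DM W)
  obtain ⟨C, hC, h4⟩ := ht_mem hΔ h2 h1
  refine le_trans (csInf_le ⟨0, ?_⟩ ⟨C, hC, rfl⟩)
    (h4.trans (zpow_le_zpow_right₀ one_lt_qq.le (by omega)))
  rintro _ ⟨C, -, rfl⟩
  exact (zpow_pos (one_pos.trans one_lt_qq) _).le.trans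
    (le_modelHeight ((Delta_smul_ne_zero _).2 hΔ))

theorem height_le_iff {W : WeierstrassCurve F} (hΔ : W.Δ ≠ 0) {X : ℝ}
    (hX : qq F ^ (12 * (c0 F + pp F : ℤ)) ≤ X) :
    height W ≤ X ↔ qq F ^ (12 * deg (DM W)) ≤ X := by
  refine ⟨(le_height hΔ).trans, fun h => (height_le hΔ).trans ?_⟩
  rcases max_choice (deg (DM W)) (c0 F + pp F) with h1 | h1 <;> rwa [h1]

end SelAvg.FF
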