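import Pool.Agent.H81Sel.HtB
import Pool.Agent.H81Sel.Sum0

/-! Block HT, part C: minimal equations in the box, sums over isomorphism classes. -/

namespace SelAvg.FF

open WeierstrassCurve WithZero Filter Topology
open scoped Classical

variable {F : Type} [Field F]

lemma ncard_transp {W : WeierstrassCurve F} (C₀ : VariableChange F) :
    {C : VariableChange F | C • W = C₀ • W}.ncard = aut (C₀ • W) := by
  change _ = {C : VariableChange F | C • C₀ • W = C₀ • W}.ncard
  rw [← Set.ncard_image_of_injective {C : VariableChange F | C • C₀ • W = C₀ • W}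
    (mul_left_injective C₀)]
  congr 1
  ext C
  refine ⟨fun h => ⟨C * C₀⁻¹, ?_, inv_mul_cancel_right _ _⟩, ?_⟩
  · rw [Set.mem_ofPred_eq, ← mul_smul, inv_mul_cancel_right, h]
  · rintro ⟨C', h, rfl⟩
    rw [Set.mem_ofPred_eq, mul_smul, h]

/-- `W` is a model of the class `c` -/
def Models (c : IsoClass F) (W : WeierstrassCurve F) : Prop :=
  ∃ C : VariableChange F, C • (Quot.out c).1 = W

lemma exists_models {W : WeierstrassCurve F} (hΔ : W.Δ ≠ 0) : ∃! c, Models c W := by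
  have hE : W.IsElliptic := ⟨hΔ.isUnit⟩
  have h : ∀ c, Models c W ↔ c = Quot.mk _ ⟨_, hE⟩ := fun c =>
    (isoClass_mk_eq_iff (Quot.out c) ⟨_, hE⟩).symm.trans (by rw [Quot.out_eq]; rfl)
  simp only [h, existsUnique_eq]

lemma Models.Delta_ne {c : IsoClass F} {W : WeierstrassCurve F} (h : Models c W) : W.Δ ≠ 0 := by
  obtain ⟨C, rfl⟩ := h
  exact (Delta_smul_ne_zero C).2 (out_Delta_ne_zero c)

variable [Cv F]

lemma mem_WB_inW {D : Div F} {W : WeierstrassCurve F} : W ∈ WB D ↔ InW D W := by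
  simp only [mem_WB, InW, IntW, mem_LL, forall_and, Finsupp.smul_apply, nsmul_eq_mul, one_mul,
    Nat.cast_ofNat]

lemma WB_nonempty (D : Div F) : (WB D).Nonempty :=
  ⟨⟨0, 0, 0, 0, 0⟩, mem_WB.2 ⟨zero_mem _, zero_mem _, zero_mem _, zero_mem _, zero_mem _⟩⟩

theorem nonMin_locW_iff {D : Div F} {W : WeierstrassCurve F} (hW : W ∈ WB D) (hΔ : W.Δ ≠ 0)
    (v : Place F) : NonMin v.loc.unif (locW v D W) ↔ DM W v < D v := by
  have hΔ' := ht_Delta_map (algebraMap F v.Compl) hΔ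
  have h1 := locW_map hW v
  have h2 : v.loc.v (((cW D).map (pr v)).u : v.Compl) = exp (- -D v) := by
    change v.loc.v (pr v (piD (-D) : A F)) = _
    rw [pr_piD, ht_zpow v.loc.v_ϖ, Finsupp.neg_apply]
  rw [nonMin_iff_mu _ (h1 ▸ (Delta_smul_ne_zero _).2 hΔ'), h1, mu_smul v.loc.v_ϖ hΔ' _ h2,
    DM_apply hΔ, ← mu_map v hΔ]
  change mu v.vc _ + -D v < 0 ↔ _
  omega

theorem minW_iff_DM {D : Div F} {W : WeierstrassCurve F} (hW : W ∈ WB D) :
    MinW D W ↔ W.Δ ≠ 0 ∧ DM W = D :=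
  and_congr_right fun hΔ => ⟨fun e => le_antisymm ((mem_WB_inW.1 hW).DM_le hΔ) fun v =>
    not_lt.1 fun h => e v ((nonMin_locW_iff hW hΔ v).2 h),
    fun e v h => ((nonMin_locW_iff hW hΔ v).1 h).ne (by rw [e])⟩

lemma ht_unit {u : Fˣ} (hu : dv (u : F) = 0) (v : Place F) : v.1 (u : F) = exp (-0) := by
  rw [v_eq_exp v u.ne_zero, ← dv_apply, hu]
  rfl

lemma mem_GB_iff_smul {D : Div F} {W : WeierstrassCurve F} (hW : W ∈ WB D) {C : VariableChange F} :
    C ∈ GB D ↔ dv (C.u : F) = 0 ∧ C • W ∈ WB D := by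
  have h := mem_WB_inW.1 hW
  rw [mem_GB, mem_WB_inW]
  refine and_congr_right fun hu => ?_
  have h1 : ∀ v : Place F, IntW v.1 (D v) (C • W) ↔ IntW v.1 (D v) (wsh C.r C.s C.t • W) :=
    fun v => by
      conv_lhs => rw [vc_eq C, mul_smul, intW_wdiag _ (ht_unit hu v), sub_zero]
  constructor
  · rintro ⟨hr, hs, ht⟩ v
    exact (h1 v).2 ((h v).wsh (v_unifF v) (by simpa using hr v) (by simpa using hs v)
      (by simpa using ht v))
  · intro h2
    have h3 := fun v => (h v).of_wsh (v_unifF v) ((h1 v).1 (h2 v))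
    exact ⟨fun v => by simpa using (h3 v).1, fun v => by simpa using (h3 v).2.1,
      fun v => by simpa using (h3 v).2.2⟩

lemma dv_u_eq_zero {W : WeierstrassCurve F} (hΔ : W.Δ ≠ 0) {C : VariableChange F}
    (h : DM (C • W) = DM W) : dv (C.u : F) = 0 := by
  rw [DM_smul hΔ] at h
  exact add_eq_left.1 h

lemma minW_smul {D : Div F} {W : WeierstrassCurve F} (hW : W ∈ WB D) {C : VariableChange F}
    (hC : C ∈ GB D) : MinW D (C • W) ↔ MinW D W := by
  obtain ⟨h1, h2⟩ := (mem_GB_iff_smul hW).1 hC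
  rw [minW_iff_DM hW, minW_iff_DM h2, Delta_smul_ne_zero]
  exact and_congr_right fun hΔ => by rw [DM_smul hΔ, h1, add_zero]

/-- orbit-stabiliser -/
lemma sum_aut_orbit {D : Div F} {W : WeierstrassCurve F} (h : W ∈ WB D) (hΔ : W.Δ ≠ 0) :
    ∑ W' ∈ (GB D).image (fun C => C • W), aut W' = (GB D).card := by
  rw [Finset.card_eq_sum_card_image (fun C => C • W)]
  refine Finset.sum_congr rfl fun W' h' => ?_
  obtain ⟨C₀, hC, rfl⟩ := Finset.mem_image.1 h'
  rw [← ncard_transp C₀, ← Set.ncard_coe_finset]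
  congr 1
  ext C
  rw [Finset.coe_filter]
  refine ⟨fun (e : C • W = C₀ • W) => ⟨?_, e⟩, fun e => e.2⟩
  obtain ⟨h1, h2⟩ := (mem_GB_iff_smul h).1 hC
  exact (mem_GB_iff_smul h).2
    ⟨dv_u_eq_zero hΔ (by rw [e, DM_smul hΔ, h1, add_zero]), by rwa [e]⟩

/-- the minimal divisor of the chosen representative -/
noncomputable def DC (c : IsoClass F) : Div F := DM (Quot.out c).1

lemma Models.DC_eq {c : IsoClass F} {W : WeierstrassCurve F} (h : Models c W) :
    ∃ u : Fˣ, DC c + dv (u : F) = DM W := by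
  obtain ⟨C, rfl⟩ := h
  exact ⟨C.u, (DM_smul (out_Delta_ne_zero c) C).symm⟩

lemma exists_model {c : IsoClass F} {D : Div F} (hD : (c0 F : ℤ) ≤ deg D) {u : Fˣ}
    (h : DC c + dv (u : F) ≤ D) : ∃ W, Models c W ∧ W ∈ WB D ∧ DM W = DC c + dv (u : F) := by
  have h0 := out_Delta_ne_zero c
  have h1 := (Delta_smul_ne_zero (wdiag u)).2 h0
  have h2 : DM (wdiag u • (Quot.out c).1) = DC c + dv (u : F) := DM_smul h0 _
  obtain ⟨r, s, t, h3⟩ := exists_inW h1 hD (h2.trans_le h)
  refine ⟨_, ⟨wsh r s t * wdiag u, mul_smul _ _ _⟩, mem_WB_inW.2 h3, ?_⟩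
  rw [DM_smul h1, h2]
  simp [wsh]

lemma finite_models (D : Div F) : {c : IsoClass F | ∃ W ∈ WB D, Models c W}.Finite := by
  have h : ∀ W ∈ (WB D : Set (WeierstrassCurve F)), {c : IsoClass F | Models c W}.Finite :=
    fun W _ => Set.Subsingleton.finite fun _ a _ b => (exists_models a.Delta_ne).unique a b
  exact ((WB D).finite_toSet.biUnion h).subset fun c ⟨W, a, b⟩ => Set.mem_biUnion a b

theorem finite_DC_le (d : ℤ) : {c : IsoClass F | deg (DC c) ≤ d}.Finite := by
  obtain ⟨RR, -, h1, -, h3, -⟩ := exists_reps (F := F)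
  obtain ⟨N, hN⟩ : ∃ N : ℕ, max d (c0 F + pp F) ≤ N := ⟨(max d (c0 F + pp F)).toNat, by omega⟩
  refine (RR.finite_toSet.biUnion fun R _ => finite_models (R + N • PP F)).subset fun c hc => ?_
  obtain ⟨E, e1, e2, e3⟩ := exists_ge (DC c)
  obtain ⟨R, hR, m, u, e⟩ := h3 E e2
  have e4 := congrArg deg e
  rw [map_add, deg_dv, add_zero, map_add, map_nsmul, deg_PP, nsmul_eq_mul] at e4
  have hp : (1 : ℤ) ≤ pp F := by exact_mod_cast ht_pp_pos (F := F)
  have hm : m ≤ N := by
    have h4 := h1 R hR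
    have h5 : deg (DC c) ≤ d := hc
    have h6 : (m : ℤ) * 1 ≤ m * pp F := mul_le_mul_of_nonneg_left hp (Int.natCast_nonneg _)
    omega
  have e5 : DC c + dv (u : F) ≤ R + m • PP F := by
    rw [← e]
    exact add_le_add e1 le_rfl
  obtain ⟨W, a, b, -⟩ := exists_model (by rw [← e, map_add, deg_dv, add_zero]; exact e2) e5
  exact Set.mem_biUnion hR
    ⟨W, WB_mono (add_le_add le_rfl (nsmul_le_nsmul_left PP_nonneg hm)) b, a⟩

theorem finite_classesLE (X : ℝ) : (classesLE F X).Finite := by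
  obtain ⟨n, hn⟩ := pow_unbounded_of_one_lt X (one_lt_qq (F := F))
  refine (finite_DC_le (n : ℤ)).subset fun c hc => ?_
  have h := ((le_height (out_Delta_ne_zero c)).trans hc).trans_lt hn
  rw [← zpow_natCast, zpow_lt_zpow_iff_right₀ one_lt_qq] at h
  change deg (DM _) ≤ _
  omega

/-- the classes with a given minimal divisor class, summed over the minimal equations in the box -/
theorem classes_sum {D : Div F} (hD : (c0 F : ℤ) ≤ deg D)
    (S : Finset (IsoClass F)) (hS : ∀ c, c ∈ S ↔ ∃ u : Fˣ, DC c + dv (u : F) = D)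
    (f : IsoClass F → ℝ) (f' : WeierstrassCurve F → ℝ) (hf : ∀ c W, Models c W → f c = f' W) :
    (∑ c ∈ S, f c) * (GB D).card = ∑ W ∈ WB D, ind (MinW D W) * aut W * f' W := by
  rw [Finset.sum_mul]
  calc _ = ∑ c ∈ S, ∑ W ∈ WB D, if MinW D W ∧ Models c W then f c * aut W else 0 := by
        refine Finset.sum_congr rfl fun c hc => ?_
        obtain ⟨u, hu⟩ := (hS c).1 hc
        obtain ⟨W, ⟨C, e⟩, a, b⟩ := exists_model hD hu.le
        rw [hu] at b
        have hΔ : W.Δ ≠ 0 := Models.Delta_ne ⟨C, e⟩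
        rw [← Finset.sum_filter, ← Finset.mul_sum, ← sum_aut_orbit a hΔ, Nat.cast_sum]
        congr 2
        ext W'
        simp only [Finset.mem_image, Finset.mem_filter]
        constructor
        · rintro ⟨C₀, h0, rfl⟩
          exact ⟨((mem_GB_iff_smul a).1 h0).2, (minW_smul a h0).2 ((minW_iff_DM a).2 ⟨hΔ, b⟩),
            C₀ * C, by rw [mul_smul, e]⟩
        · rintro ⟨a', b', C', e'⟩
          have e2 : (C' * C⁻¹) • W = W' := by rw [mul_smul, ← e, inv_smul_smul, e']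
          exact ⟨_, (mem_GB_iff_smul a).2 ⟨dv_u_eq_zero hΔ
            (by rw [e2, b, ((minW_iff_DM a').1 b').2]), by rwa [e2]⟩, e2⟩
    _ = _ := by
        rw [Finset.sum_comm]
        refine Finset.sum_congr rfl fun W hW => ?_
        by_cases b : MinW D W
        · obtain ⟨c, e, u⟩ := exists_models b.1
          rw [Finset.sum_eq_single_of_mem c ((hS c).2 (((minW_iff_DM hW).1 b).2 ▸ e.DC_eq))
            fun c' _ hc => if_neg fun h => hc (u c' h.2), if_pos ⟨b, e⟩, hf c _ e, ind_pos b]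
          ring
        · rw [ind_neg b, zero_mul, zero_mul]
          exact Finset.sum_eq_zero fun c _ => if_neg fun h => b h.1

end SelAvg.FF
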