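import Pool.Agent.H81Sel.HtC

/-! Block HT, part D: from the ratios in the boxes to the average over all curves. -/

namespace SelAvg.FF

open WeierstrassCurve WithZero Filter Topology
open scoped Classical

variable {F : Type} [Field F]

/-- the size of the Selmer group of a class -/
noncomputable def selC (c : IsoClass F) : ℝ := (Sel (Quot.out c).1 2).ncard

variable [Cv F]

lemma selC_eq {c : IsoClass F} {W : WeierstrassCurve F} (h : Models c W) :
    selC c = (SelO W).ncard + 1 := by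
  obtain ⟨C, rfl⟩ := h
  have h0 := out_Delta_ne_zero c
  rw [selC, (finite_Sel_of h0 (finite_SelO h0)).2, Set.ncard_def (SelO (C • _)), encard_SelO_smul,
    ← Set.ncard_def]
  push_cast
  rfl

lemma ht_card {D : Div F} (hD : (c0 F : ℤ) ≤ deg D) (S : Finset (IsoClass F))
    (hS : ∀ c, c ∈ S ↔ ∃ u : Fˣ, DC c + dv (u : F) = D) :
    (S.card : ℝ) * (GB D).card = TD D * (WB D).card := by
  have hN : ((WB D).card : ℝ) ≠ 0 := by exact_mod_cast (WB_nonempty D).card_pos.ne'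
  have e1 := classes_sum hD S hS (fun _ => 1) (fun _ => 1) fun _ _ _ => rfl
  rw [TD, avg, div_mul_cancel₀ _ hN]
  simpa using e1

lemma ht_type {D : Div F} (hD : (c0 F : ℤ) ≤ deg D) (S : Finset (IsoClass F))
    (hS : ∀ c, c ∈ S ↔ ∃ u : Fˣ, DC c + dv (u : F) = D) (hT : TD D ≠ 0) :
    ∑ c ∈ S, (selC c - 3) = (SD D / TD D - 2) * S.card := by
  have hN : ((WB D).card : ℝ) ≠ 0 := by exact_mod_cast (WB_nonempty D).card_pos.ne'
  have hG : ((GB D).card : ℝ) ≠ 0 := by
    exact_mod_cast (Finset.card_pos.2 ⟨_, one_mem_GB D⟩).ne'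
  have e1 := ht_card hD S hS
  have e2 := classes_sum hD S hS selC (fun W => (SelO W).ncard + 1) fun _ _ h => selC_eq h
  have e3 : ∑ W ∈ WB D, ind (MinW D W) * aut W * (((SelO W).ncard : ℝ) + 1) =
      (SD D + TD D) * (WB D).card := by
    rw [TD, SD, avg, avg, ← add_div, div_mul_cancel₀ _ hN, ← Finset.sum_add_distrib]
    exact Finset.sum_congr rfl fun W _ => by ring
  rw [e3] at e2
  rw [Finset.sum_sub_distrib, Finset.sum_const, nsmul_eq_mul, eq_div_of_mul_eq hG e1,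
    eq_div_of_mul_eq hG e2]
  field_simp
  ring

lemma ht_est (h : ∀ R : Div F, (c0 F : ℤ) ≤ deg R →
      Tendsto (fun m : ℕ => SD (R + m • PP F) / TD (R + m • PP F)) atTop (𝓝 2))
    (hT : ∀ R : Div F, (c0 F : ℤ) ≤ deg R → ∀ᶠ m : ℕ in atTop, 0 < TD (R + m • PP F))
    {ε : ℝ} (hε : 0 < ε) : ∃ d : ℤ, ∀ S : Finset (IsoClass F), (∀ c ∈ S, d ≤ deg (DC c)) →
      (∀ c ∈ S, ∀ c', deg (DC c') = deg (DC c) → c' ∈ S) →
        |∑ c ∈ S, (selC c - 3)| ≤ ε * S.card := by
  obtain ⟨RR, -, h1, h2, h3, h4⟩ := exists_reps (F := F)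
  obtain ⟨m₀, hm⟩ := eventually_atTop.1 ((eventually_all_finset RR).2 fun R hR =>
    (Metric.tendsto_nhds.1 (h R (h1 R hR)) ε hε).and (hT R (h1 R hR)))
  have h5 : ∀ c : IsoClass F, ∃ (R : Div F) (m : ℕ) (u : Fˣ), (c0 F : ℤ) ≤ deg (DC c) →
      R ∈ RR ∧ DC c + dv (u : F) = R + m • PP F := fun c => by
    by_cases hc : (c0 F : ℤ) ≤ deg (DC c)
    · obtain ⟨R, hR, m, u, e⟩ := h3 _ hc
      exact ⟨R, m, u, fun _ => ⟨hR, e⟩⟩
    · exact ⟨0, 0, 1, fun h => absurd h hc⟩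
  choose R m u h5 using h5
  have hp : (0 : ℤ) < pp F := by exact_mod_cast ht_pp_pos (F := F)
  have hp' : (0 : ℤ) ≤ m₀ * pp F := by positivity
  refine ⟨c0 F + pp F + m₀ * pp F, fun S hS hS' => ?_⟩
  have h6 : ∀ c ∈ S, (c0 F : ℤ) ≤ deg (DC c) := fun c hc => by have := hS c hc; omega
  rw [← Finset.sum_fiberwise_of_maps_to (g := fun c => R c + m c • PP F)
    (fun c hc => Finset.mem_image_of_mem _ hc),
    Finset.card_eq_sum_card_image (fun c => R c + m c • PP F), Nat.cast_sum, Finset.mul_sum]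
  refine (Finset.abs_sum_le_sum_abs _ _).trans (Finset.sum_le_sum fun D hD => ?_)
  obtain ⟨c, hc, rfl⟩ := Finset.mem_image.1 hD
  obtain ⟨a, b⟩ := h5 c (h6 c hc)
  have e1 : deg (DC c) = deg (R c + m c • PP F) := by rw [← b, map_add, deg_dv, add_zero]
  have e2 : m₀ ≤ m c := by
    have e3 := hS c hc
    have e4 := h2 _ a
    rw [e1, map_add, map_nsmul, deg_PP, nsmul_eq_mul] at e3
    have e5 : (m₀ : ℤ) * pp F < m c * pp F := by omega
    exact_mod_cast (lt_of_mul_lt_mul_right e5 hp.le).le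
  obtain ⟨e3, e4⟩ := hm _ e2 _ a
  rw [ht_type (e1 ▸ h6 c hc) _ (fun c' => ?_) e4.ne', abs_mul, Nat.abs_cast]
  · exact mul_le_mul_of_nonneg_right (le_of_lt e3) (Nat.cast_nonneg _)
  rw [Finset.mem_filter]
  constructor
  · rintro ⟨hc', e⟩
    exact ⟨u c', (h5 c' (h6 c' hc')).2.trans e⟩
  · rintro ⟨u', e⟩
    have hc' : c' ∈ S := hS' c hc c' (by rw [e1, ← e, map_add, deg_dv, add_zero])
    obtain ⟨a', b'⟩ := h5 c' (h6 c' hc')
    obtain ⟨f1, f2⟩ := h4 _ a' _ a (m c') (m c) (u' * (u c')⁻¹) (by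
      rw [← b', ← e, Units.val_mul, dv_mul u'.ne_zero (u c')⁻¹.ne_zero, Units.val_inv_eq_inv_val,
        dv_inv]
      abel)
    exact ⟨hc', by rw [f1, f2]⟩

lemma ht_infinite
    (hT : ∀ R : Div F, (c0 F : ℤ) ≤ deg R → ∀ᶠ m : ℕ in atTop, 0 < TD (R + m • PP F)) :
    Infinite (IsoClass F) := by
  obtain ⟨RR, ⟨R, hR⟩, h1, -⟩ := exists_reps (F := F)
  obtain ⟨m₀, hm⟩ := eventually_atTop.1 (hT R (h1 R hR))
  have h2 : ∀ m : ℕ, ∃ c : IsoClass F, deg (DC c) = deg R + (m₀ + m : ℕ) * pp F := fun m => by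
    have h3 := (hm (m₀ + m) (by omega)).ne'
    rw [TD, avg] at h3
    obtain ⟨W, hW, h4⟩ := Finset.exists_ne_zero_of_sum_ne_zero (div_ne_zero_iff.1 h3).1
    have h5 : MinW (R + (m₀ + m) • PP F) W := by
      by_contra h6
      exact h4 (by rw [ind_neg h6, zero_mul])
    obtain ⟨c, hc, -⟩ := exists_models h5.1
    obtain ⟨u, hu⟩ := hc.DC_eq
    have h6 := congrArg deg (hu.trans ((minW_iff_DM hW).1 h5).2)
    rw [map_add, deg_dv, add_zero, map_add, map_nsmul, deg_PP, nsmul_eq_mul] at h6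
    exact ⟨c, h6⟩
  choose c hc using h2
  have hp : (pp F : ℤ) ≠ 0 := by exact_mod_cast (ht_pp_pos (F := F)).ne'
  refine Infinite.of_injective c fun m m' e => ?_
  have h3 := hc m
  rw [e, hc m', add_right_inj, mul_left_inj' hp, Nat.cast_inj] at h3
  omega

lemma tendsto_ncard_classesLE [Infinite (IsoClass F)] :
    Tendsto (fun X => ((classesLE F X).ncard : ℝ)) atTop atTop := by
  refine tendsto_natCast_atTop_atTop.comp (tendsto_atTop.2 fun n => ?_)
  obtain ⟨s, hs⟩ := Infinite.exists_subset_card_eq (IsoClass F) n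
  filter_upwards [(eventually_all_finset s).2 fun c _ =>
    eventually_ge_atTop (height (Quot.out c).1)] with X hX
  rw [← hs, ← Set.ncard_coe_finset]
  exact Set.ncard_le_ncard (fun c hc => hX c hc) (finite_classesLE X)

/-- the final step -/
theorem selmerAverage_of (h : ∀ R : Div F, (c0 F : ℤ) ≤ deg R →
      Tendsto (fun m : ℕ => SD (R + m • PP F) / TD (R + m • PP F)) atTop (𝓝 2))
    (hT : ∀ R : Div F, (c0 F : ℤ) ≤ deg R → ∀ᶠ m : ℕ in atTop, 0 < TD (R + m • PP F)) :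
    SelmerAverage F 2 3 := by
  refine ⟨fun W hW => (finite_Sel_of hW.isUnit.ne_zero (finite_SelO hW.isUnit.ne_zero)).1,
    finite_classesLE, Metric.tendsto_nhds.2 fun ε hε => ?_⟩
  have := ht_infinite hT
  obtain ⟨d, hd⟩ := ht_est h hT (half_pos hε)
  obtain ⟨K, hK⟩ : ∃ K, K = ∑ c ∈ (finite_DC_le (F := F) d).toFinset, |selC c - 3| := ⟨_, rfl⟩
  filter_upwards [eventually_ge_atTop (qq F ^ (12 * (c0 F + pp F : ℤ))),
    (tendsto_ncard_classesLE (F := F)).eventually_gt_atTop (max 0 (K / (ε / 2)))] with X h1 h2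
  have hS : ∀ c, c ∈ (finite_classesLE (F := F) X).toFinset ↔ qq F ^ (12 * deg (DC c)) ≤ X :=
    fun c => (finite_classesLE X).mem_toFinset.trans (height_le_iff (out_Delta_ne_zero c) h1)
  rw [Set.ncard_eq_toFinset_card _ (finite_classesLE X)] at h2
  rw [finsum_mem_eq_finite_toFinset_sum _ (finite_classesLE X),
    Set.ncard_eq_toFinset_card _ (finite_classesLE X)]
  generalize (finite_classesLE (F := F) X).toFinset = S at hS h2
  have hN : (0 : ℝ) < S.card := (le_max_left _ _).trans_lt h2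
  have h3 : K < S.card * (ε / 2) := (div_lt_iff₀ (half_pos hε)).1 ((le_max_right _ _).trans_lt h2)
  have h4 := hd (S.filter fun c => d ≤ deg (DC c)) (fun c hc => (Finset.mem_filter.1 hc).2)
    fun c hc c' e => by
      rw [Finset.mem_filter, hS] at hc ⊢
      rwa [e]
  have h5 : |∑ c ∈ S with ¬d ≤ deg (DC c), (selC c - 3)| ≤ K := by
    rw [hK]
    refine (Finset.abs_sum_le_sum_abs _ _).trans (Finset.sum_le_sum_of_subset_of_nonneg
      (fun c hc => ?_) fun _ _ _ => abs_nonneg _)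
    exact (Set.Finite.mem_toFinset _).2 (not_le.1 (Finset.mem_filter.1 hc).2).le
  have h6 : ((S.filter fun c => d ≤ deg (DC c)).card : ℝ) ≤ S.card := by
    exact_mod_cast Finset.card_filter_le _ _
  have h7 := Finset.sum_filter_add_sum_filter_not S (fun c => d ≤ deg (DC c)) fun c => selC c - 3
  have h8 : (∑ c ∈ S, selC c) / S.card - 3 = (∑ c ∈ S, (selC c - 3)) / S.card := by
    rw [Finset.sum_sub_distrib, Finset.sum_const, nsmul_eq_mul]
    field_simp
  change |(∑ c ∈ S, selC c) / S.card - 3| < ε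
  rw [h8, abs_div, abs_of_pos hN, div_lt_iff₀ hN, ← h7]
  have h9 := mul_le_mul_of_nonneg_left h6 (half_pos hε).le
  exact (abs_add_le _ _).trans_lt (by linarith)

end SelAvg.FF
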