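import Pool.Agent.H81Sel.LatD

/-! Row IWA: bundles of rank two as cosets, Iwasawa decomposition, sections, reduction. -/

namespace SelAvg.FF

open WeierstrassCurve WithZero Filter Topology Matrix
open scoped Classical ENNReal

variable {F : Type} [Field F]

variable (F) in
/-- the integral matrices -/
noncomputable def K2 : Subgroup (GL (Fin 2) (A F)) :=
  (GeneralLinearGroup.map (n := Fin 2) (Oh F).subtype).range

variable (F) in
/-- bundles of rank two with a generic trivialisation -/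
abbrev X2 : Type := RC (K2 F)

/-- the triangular matrix `[[ϖ^B, 0], [ϖ^Z η, ϖ^Z]]` -/
noncomputable def tri (B Z : Div F) (η : A F) : GL (Fin 2) (A F) :=
  GeneralLinearGroup.mk'' !![(piD B : A F), 0; piD Z * η, piD Z] (by simp [Matrix.det_fin_two])

lemma tri_val (B Z : Div F) (η : A F) : (tri B Z η : Matrix (Fin 2) (Fin 2) (A F)) =
    !![(piD B : A F), 0; piD Z * η, piD Z] := rfl

lemma det_tri (B Z : Div F) (η : A F) : GeneralLinearGroup.det (tri B Z η) = piD (B + Z) := by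
  refine Units.ext ?_
  rw [GeneralLinearGroup.val_det_apply, tri_val, piD_add, Matrix.det_fin_two_of, Units.val_mul,
    zero_mul, sub_zero]

lemma mem_K2 {k : GL (Fin 2) (A F)} :
    k ∈ K2 F ↔ (∀ i j, k.1 i j ∈ Oh F) ∧ idiv (GeneralLinearGroup.det k) = 0 := by
  constructor
  · rintro ⟨k0, rfl⟩
    refine ⟨fun i j => (k0.1 i j).2, (idiv_eq_zero_iff _).2 ⟨GeneralLinearGroup.det k0, ?_⟩⟩
    refine Units.ext ?_
    rw [GeneralLinearGroup.val_det_apply]
    exact RingHom.map_det (Oh F).subtype k0.1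
  · rintro ⟨h1, h2⟩
    obtain ⟨e, he⟩ := (idiv_eq_zero_iff _).1 h2
    have hd : (Matrix.of fun i j => (⟨k.1 i j, h1 i j⟩ : Oh F)).det = e := by
      refine Subtype.ext ?_
      have h3 := RingHom.map_det (Oh F).subtype (Matrix.of fun i j => (⟨k.1 i j, h1 i j⟩ : Oh F))
      have h4 : ((e : Oh F) : A F) = k.1.det := congrArg Units.val he
      rw [h4]
      exact h3
    exact ⟨GeneralLinearGroup.mk'' _ (hd ▸ e.isUnit), Units.ext rfl⟩

lemma iwa_tri_mul (B Z B' Z' : Div F) (η η' : A F) :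
    tri B' Z' η' * tri B Z η = tri (B' + B) (Z' + Z) (piD (B - Z) * η' + η) := by
  have h : (piD Z : A F) * piD (B - Z) = piD B := by
    rw [← Units.val_mul, ← piD_add, add_sub_cancel]
  refine Units.ext ?_
  rw [Units.val_mul, tri_val, tri_val, tri_val, piD_add, piD_add, Matrix.mul_fin_two]
  simp only [Units.val_mul]
  congrm !![?_, ?_; ?_, ?_]
  · ring
  · ring
  · linear_combination (-(piD Z' : A F) * η') * h
  · ring

lemma iwa_tri_mem {B Z : Div F} {η : A F} : tri B Z η ∈ K2 F ↔ B = 0 ∧ Z = 0 ∧ η ∈ Oh F := by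
  rw [mem_K2, det_tri, idiv_piD]
  constructor
  · rintro ⟨h, h0⟩
    have hB : 0 ≤ B := by simpa using (unit_mem_Oh (piD B)).1 (h 0 0)
    have hZ : 0 ≤ Z := by simpa using (unit_mem_Oh (piD Z)).1 (h 1 1)
    obtain ⟨rfl, rfl⟩ := (add_eq_zero_iff_of_nonneg hB hZ).1 h0
    have h1 : (piD (0 : Div F) : A F) * η ∈ Oh F := h 1 0
    exact ⟨rfl, rfl, by simpa using h1⟩
  · rintro ⟨rfl, rfl, h⟩
    refine ⟨fun i j => ?_, add_zero _⟩
    rw [tri_val]
    fin_cases i <;> fin_cases j <;> simp [h]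

lemma iwa_clear (b d : A F) : ∃ k ∈ K2 F, k.1 0 0 * b + k.1 0 1 * d = 0 := by
  have key : ∀ f : ∀ v : Place F, v.Compl, (∀ v : Place F, v.vc (f v) ≤ 1) →
      ∃ a ∈ Oh F, ∀ v, pr v a = f v := fun f hf => by
    obtain ⟨a, ha⟩ := exists_adele f (Eventually.of_forall hf)
    exact ⟨a, mem_Oh.2 fun v => by rw [ha]; exact hf v, ha⟩
  obtain ⟨x, hx, hx'⟩ := key
    (fun v => if v.vc (pr v b) ≤ v.vc (pr v d) then 1 else -(pr v d / pr v b)) fun v => by
      split_ifs with h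
      · simp
      · rw [Valuation.map_neg, map_div₀]
        exact div_le_one_of_le₀ (not_le.1 h).le zero_le
  obtain ⟨y, hy, hy'⟩ := key
    (fun v => if v.vc (pr v b) ≤ v.vc (pr v d) then -(pr v b / pr v d) else 1) fun v => by
      split_ifs with h
      · rw [Valuation.map_neg, map_div₀]
        exact div_le_one_of_le₀ h zero_le
      · simp
  obtain ⟨t, ht, ht'⟩ := key
    (fun v => if v.vc (pr v b) ≤ v.vc (pr v d) then 1 else 0) fun v => by
      split_ifs <;> simp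
  have hd : (!![x, y; 1 - t, t] : Matrix (Fin 2) (Fin 2) (A F)).det *
      (!![x, y; 1 - t, t] : Matrix (Fin 2) (Fin 2) (A F)).det = 1 := by
    rw [Matrix.det_fin_two_of]
    refine A_ext fun v => ?_
    simp only [map_mul, map_sub, map_one, hx', hy', ht']
    split_ifs <;> simp
  refine ⟨GeneralLinearGroup.mk'' _ (IsUnit.of_mul_eq_one _ hd), mem_K2.2 ⟨fun i j => ?_, ?_⟩, ?_⟩
  · change (!![x, y; 1 - t, t] : Matrix (Fin 2) (Fin 2) (A F)) i j ∈ Oh F
    fin_cases i <;> fin_cases j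
    exacts [hx, hy, (Oh F).sub_mem (Oh F).one_mem ht, ht]
  · generalize hu : GeneralLinearGroup.det
      (GeneralLinearGroup.mk'' _ (IsUnit.of_mul_eq_one _ hd)) = u
    have h1 : u * u = 1 := Units.ext (by rw [← hu]; exact hd)
    have h2 := congrArg idiv h1
    rw [idiv_mul, idiv_one] at h2
    ext v
    have h3 := DFunLike.congr_fun h2 v
    simp only [Finsupp.add_apply, Finsupp.zero_apply] at h3 ⊢
    omega
  · change x * b + y * d = 0
    refine A_ext fun v => ?_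
    simp only [map_mul, map_add, map_zero, hx', hy']
    split_ifs with h
    · by_cases h0 : pr v d = 0
      · rw [h0, map_zero, le_zero_iff, map_eq_zero] at h
        simp [h]
      · field_simp
        ring
    · have h0 : pr v b ≠ 0 := fun h0 => h (by rw [h0, map_zero]; exact zero_le)
      field_simp
      ring

lemma iwa_unit (u : (A F)ˣ) : ∃ e : (A F)ˣ, idiv e = 0 ∧ u = e * piD (idiv u) :=
  ⟨u * (piD (idiv u))⁻¹, by rw [idiv_mul, idiv_inv, idiv_piD, add_neg_cancel], by simp⟩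

lemma iwa_lower (g : GL (Fin 2) (A F)) (h : g.1 0 1 = 0) :
    ∃ k ∈ K2 F, ∃ B Z η, g = k * tri B Z η := by
  have hd : IsUnit (g.1 0 0 * g.1 1 1) := by
    have h1 := (GeneralLinearGroup.det g).isUnit
    rwa [GeneralLinearGroup.val_det_apply, Matrix.det_fin_two, h, zero_mul, sub_zero] at h1
  obtain ⟨u, hu⟩ := isUnit_of_mul_isUnit_left hd
  obtain ⟨z, hz⟩ := isUnit_of_mul_isUnit_right hd
  obtain ⟨e, he, he'⟩ := iwa_unit u
  obtain ⟨f, hf, hf'⟩ := iwa_unit z
  have hk : IsUnit (!![(e : A F), 0; 0, f] : Matrix (Fin 2) (Fin 2) (A F)).det := by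
    simp [Matrix.det_fin_two]
  refine ⟨GeneralLinearGroup.mk'' _ hk, mem_K2.2 ⟨fun i j => ?_, ?_⟩, idiv u, idiv z,
    ((z⁻¹ : (A F)ˣ) : A F) * g.1 1 0, Units.ext ?_⟩
  · change (!![(e : A F), 0; 0, f] : Matrix (Fin 2) (Fin 2) (A F)) i j ∈ Oh F
    fin_cases i <;> fin_cases j
    exacts [(unit_mem_Oh e).2 he.ge, (Oh F).zero_mem, (Oh F).zero_mem, (unit_mem_Oh f).2 hf.ge]
  · have h1 : GeneralLinearGroup.det (GeneralLinearGroup.mk'' _ hk) = e * f := Units.ext (by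
      change (!![(e : A F), 0; 0, f] : Matrix (Fin 2) (Fin 2) (A F)).det = _
      rw [Matrix.det_fin_two_of, zero_mul, sub_zero, Units.val_mul])
    rw [h1, idiv_mul, he, hf, add_zero]
  · have h1 : (e : A F) * piD (idiv u) = g.1 0 0 := by rw [← Units.val_mul, ← he', hu]
    have h2 : (f : A F) * piD (idiv z) = z := by rw [← Units.val_mul, ← hf']
    have h3 : (z : A F) * (z⁻¹ : (A F)ˣ) = 1 := z.mul_inv
    rw [Units.val_mul, tri_val]
    change _ = (!![(e : A F), 0; 0, f] : Matrix (Fin 2) (Fin 2) (A F)) * _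
    rw [Matrix.mul_fin_two, Matrix.eta_fin_two g.1]
    congrm !![?_, ?_; ?_, ?_]
    · linear_combination -h1
    · rw [h]; ring
    · simp only [Matrix.of_apply, Matrix.cons_val', Matrix.cons_val_zero, Matrix.cons_val_one,
        Matrix.cons_val_fin_one]
      linear_combination (-((z⁻¹ : (A F)ˣ) : A F) * g.1 1 0) * h2 - g.1 1 0 * h3
    · linear_combination -h2 - hz

/-- At each place the second column is `ϖ^(Z v)` times a primitive vector, which is the second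
column of a matrix in `GL₂(O_v)` (`exists_Oh`, `isUnit_Oh_iff`); `Z` has finite support since `g`
and its inverse are adelic.  Then absorb the unit part of the upper left entry. -/
theorem exists_tri (g : GL (Fin 2) (A F)) : ∃ k ∈ K2 F, ∃ B Z η, g = k * tri B Z η := by
  obtain ⟨k, hk, h⟩ := iwa_clear (g.1 0 1) (g.1 1 1)
  obtain ⟨k', hk', B, Z, η, h'⟩ := iwa_lower (k * g) (by
    rw [Units.val_mul, Matrix.mul_apply, Fin.sum_univ_two, h])
  exact ⟨k⁻¹ * k', (K2 F).mul_mem ((K2 F).inv_mem hk) hk', B, Z, η, by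
    rw [mul_assoc, ← h', inv_mul_cancel_left]⟩

lemma exists_mk_tri (x : X2 F) : ∃ B Z η, x = RC.mk (K2 F) (tri B Z η) := by
  obtain ⟨g, rfl⟩ := x.mk_surj
  obtain ⟨k, hk, B, Z, η, h⟩ := exists_tri g
  exact ⟨B, Z, η, (RC.mk_eq.2 ⟨k, hk, h⟩).symm⟩

theorem tri_eq_iff {B Z B' Z' : Div F} {η η' : A F} :
    RC.mk (K2 F) (tri B Z η) = RC.mk (K2 F) (tri B' Z' η') ↔
      B = B' ∧ Z = Z' ∧ η - η' ∈ AD (Z - B) := by
  have h1 : tri (B' - B) (Z' - Z) (piD (Z - B) * (η' - η)) * tri B Z η = tri B' Z' η' := by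
    rw [iwa_tri_mul, sub_add_cancel, sub_add_cancel, ← mul_assoc, ← Units.val_mul, ← piD_add,
      sub_add_sub_cancel, sub_self, piD_zero, Units.val_one, one_mul, sub_add_cancel]
  have h2 : RC.mk (K2 F) (tri B Z η) = RC.mk (K2 F) (tri B' Z' η') ↔
      tri (B' - B) (Z' - Z) (piD (Z - B) * (η' - η)) ∈ K2 F := by
    rw [RC.mk_eq]
    refine ⟨?_, fun h => ⟨_, h, h1.symm⟩⟩
    rintro ⟨k, hk, h⟩
    rwa [mul_right_cancel (h1.trans h)]
  rw [h2, iwa_tri_mem, ← mem_AD_zero, unit_mul_mem_AD, idiv_piD, zero_add, sub_eq_zero,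
    sub_eq_zero, ← neg_sub η η', neg_mem_iff, eq_comm, @eq_comm _ Z' Z]

/-- the divisor of the determinant -/
noncomputable def det2 (x : X2 F) : Div F := idiv (GeneralLinearGroup.det x.out)

lemma det2_mk (g : GL (Fin 2) (A F)) :
    det2 (RC.mk (K2 F) g) = idiv (GeneralLinearGroup.det g) := by
  obtain ⟨k, hk, h⟩ := RC.out_mk (K := K2 F) g
  rw [det2, h, map_mul, idiv_mul, (mem_K2.1 hk).2, zero_add]

/-- the twist by a divisor -/
noncomputable def tw2 (E : Div F) : Equiv.Perm (X2 F) := RC.act (K2 F) (G.scM (piD (-E)))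

lemma tw2_mk (E : Div F) (g : GL (Fin 2) (A F)) :
    tw2 E (RC.mk (K2 F) g) = RC.mk (K2 F) (G.scM (piD E) * g) := by
  have h : (G.scM (piD (-E)))⁻¹ = G.scM (piD E) := by
    rw [inv_eq_iff_mul_eq_one, ← G.scM_mul, ← piD_add, neg_add_cancel, piD_zero, G.scM_one]
  rw [tw2, RC.act_mk, h, G.scM_comm]

lemma tw2_tri (E B Z : Div F) (η : A F) :
    tw2 E (RC.mk (K2 F) (tri B Z η)) = RC.mk (K2 F) (tri (B + E) (Z + E) η) := by
  have h : G.scM (piD E) = tri E E 0 := by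
    ext i j
    rw [tri_val]
    fin_cases i <;> fin_cases j <;> simp [G.scM]
  rw [tw2_mk, h, iwa_tri_mul, mul_zero, zero_add, add_comm E, add_comm E]

lemma tw2_act (E : Div F) (γ : GL (Fin 2) (A F)) (x : X2 F) :
    tw2 E (RC.act (K2 F) γ x) = RC.act (K2 F) γ (tw2 E x) := by
  obtain ⟨g, rfl⟩ := x.mk_surj
  rw [RC.act_mk, tw2_mk, tw2_mk, RC.act_mk, mul_assoc]

/-- a matrix as a linear automorphism -/
noncomputable def mvL (g : GL (Fin 2) (A F)) : (Fin 2 → A F) ≃ₗ[A F] (Fin 2 → A F) :=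
  (GeneralLinearGroup.toLin g).toLinearEquiv

lemma mvL_apply (g : GL (Fin 2) (A F)) (a : Fin 2 → A F) : mvL g a = g.1 *ᵥ a := rfl

variable [Cv F]

variable (F) in
/-- the diagonal embedding of matrices -/
noncomputable abbrev glA : GL (Fin 2) F →* GL (Fin 2) (A F) := GeneralLinearGroup.map (toA F)

variable (F) in
/-- change of the generic trivialisation -/
noncomputable def act2 : GL (Fin 2) F →* Equiv.Perm (X2 F) := (RC.act (K2 F)).comp (glA F)

lemma act2_mk (γ : GL (Fin 2) F) (g : GL (Fin 2) (A F)) :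
    act2 F γ (RC.mk (K2 F) g) = RC.mk (K2 F) (g * (glA F γ)⁻¹) := rfl

/-- the degree -/
noncomputable def deg2 (x : X2 F) : ℤ := deg (det2 x)

lemma det2_act (γ : GL (Fin 2) F) (x : X2 F) :
    det2 (act2 F γ x) = det2 x - dv ((GeneralLinearGroup.det γ : Fˣ) : F) := by
  obtain ⟨g, rfl⟩ := x.mk_surj
  have h : GeneralLinearGroup.det (glA F γ) = uA (GeneralLinearGroup.det γ) :=
    Units.ext (RingHom.map_det (toA F) γ.1).symm
  rw [act2_mk, det2_mk, det2_mk, map_mul, map_inv, idiv_mul, idiv_inv, h, idiv_uA, sub_eq_add_neg]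

lemma deg2_act (γ : GL (Fin 2) F) (x : X2 F) : deg2 (act2 F γ x) = deg2 x := by
  rw [deg2, deg2, det2_act, map_sub, deg_dv, sub_zero]

lemma deg2_tri (B Z : Div F) (η : A F) : deg2 (RC.mk (K2 F) (tri B Z η)) = deg B + deg Z := by
  rw [deg2, det2_mk, det_tri, idiv_piD, map_add]

lemma deg2_tw2 (E : Div F) (x : X2 F) : deg2 (tw2 E x) = deg2 x + 2 * deg E := by
  obtain ⟨B, Z, η, rfl⟩ := exists_mk_tri x
  rw [tw2_tri, deg2_tri, deg2_tri, map_add, map_add]
  ring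

omit [Cv F] in
lemma iw56_int {k : GL (Fin 2) (A F)} (hk : k ∈ K2 F) {a : Fin 2 → A F} (ha : ∀ i, a i ∈ Oh F)
    (i : Fin 2) : (k.1 *ᵥ a) i ∈ Oh F := by
  simp only [mulVec, dotProduct]
  exact Subring.sum_mem _ fun j _ => mul_mem ((mem_K2.1 hk).1 i j) (ha j)

omit [Cv F] in
lemma iw56_iff {k : GL (Fin 2) (A F)} (hk : k ∈ K2 F) (g : GL (Fin 2) (A F)) (a : Fin 2 → A F) :
    (∀ i, mvL (k * g) a i ∈ Oh F) ↔ ∀ i, mvL g a i ∈ Oh F := by
  simp only [mvL_apply, Units.val_mul, ← mulVec_mulVec]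
  refine ⟨fun h i => ?_, fun h => iw56_int hk h⟩
  have h1 := iw56_int (inv_mem hk) h i
  rwa [mulVec_mulVec, ← Units.val_mul, inv_mul_cancel, Units.val_one, one_mulVec] at h1

lemma iw56_dlg (γ : GL (Fin 2) F) (s : Fin 2 → F) : dlg (γ.1 *ᵥ s) = (glA F γ).1 *ᵥ dlg s :=
  funext fun i => RingHom.map_mulVec (toA F) γ.1 s i

omit [Cv F] in
lemma iw56_scM (u : (A F)ˣ) (g : GL (Fin 2) (A F)) (a : Fin 2 → A F) (i : Fin 2) :
    mvL (G.scM u * g) a i = (u : A F) * mvL g a i := by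
  simp only [mvL_apply, Units.val_mul, ← mulVec_mulVec]
  generalize g.1 *ᵥ a = b
  fin_cases i <;> simp [G.scM, mulVec, dotProduct, Fin.sum_univ_two]

lemma iw56_vec {K : Type} [Field K] {s : Fin 2 → K} (hs : s ≠ 0) :
    ∃ γ : GL (Fin 2) K, γ.1 *ᵥ s = ![0, 1] := by
  by_cases h1 : s 1 = 0
  · have h0 : s 0 ≠ 0 := fun h0 => hs (funext fun i => by fin_cases i <;> simp [h0, h1])
    refine ⟨GeneralLinearGroup.mkOfDetNeZero !![0, 1; (s 0)⁻¹, 0] (by simp [det_fin_two, h0]), ?_⟩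
    funext i
    fin_cases i <;> simp [mulVec, dotProduct, Fin.sum_univ_two, h0, h1]
  · refine ⟨GeneralLinearGroup.mkOfDetNeZero !![1, -(s 0 / s 1); 0, (s 1)⁻¹]
      (by simp [det_fin_two, h1]), ?_⟩
    funext i
    fin_cases i <;> simp [mulVec, dotProduct, Fin.sum_univ_two, h1]

/-- the global sections -/
noncomputable def H0 (x : X2 F) : Finset (Fin 2 → F) := hbox (mvL x.out)

lemma H0_mk (g : GL (Fin 2) (A F)) : H0 (RC.mk (K2 F) g) = hbox (mvL g) := by
  obtain ⟨k, hk, e⟩ := RC.out_mk (K := K2 F) g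
  ext x
  rw [H0, e, mem_hbox, mem_hbox, iw56_iff hk]

lemma mem_H0_act (γ : GL (Fin 2) F) (x : X2 F) (s : Fin 2 → F) :
    γ.1 *ᵥ s ∈ H0 (act2 F γ x) ↔ s ∈ H0 x := by
  obtain ⟨g, rfl⟩ := x.mk_surj
  rw [act2_mk, H0_mk, H0_mk, mem_hbox, mem_hbox, iw56_dlg, mvL_apply, mvL_apply, mulVec_mulVec,
    ← Units.val_mul, inv_mul_cancel_right]

/-- if `γ = g⁻¹ k g` with `k` integral then the entries of `γ` lie in a fixed `L(B)` -/
theorem finite_stab2 (x : X2 F) : {γ : GL (Fin 2) F | act2 F γ x = x}.Finite := by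
  obtain ⟨g, rfl⟩ := x.mk_surj
  obtain ⟨E, -, hE⟩ := exists_mem_AD fun p : Fin 2 × Fin 2 => g.1 p.1 p.2
  have h1 : ∀ j : Fin 2, (Pi.single j 1 : Fin 2 → F) ∈ H0 (tw2 E (RC.mk (K2 F) g)) := fun j => by
    rw [tw2_mk, H0_mk, mem_hbox]
    intro i
    have e : dlg (Pi.single j 1 : Fin 2 → F) = Pi.single j 1 := by
      funext l
      by_cases h : l = j
      · subst h; simp [dlg]
      · simp [dlg, Pi.single_eq_of_ne h]
    rw [iw56_scM, ← mem_AD_zero, unit_mul_mem_AD, idiv_piD, zero_add, e, mvL_apply,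
      mulVec_single_one]
    exact hE (i, j)
  refine Set.Finite.of_finite_image (f := fun γ j => γ.1 *ᵥ Pi.single j 1)
    ((Set.Finite.pi' fun _ : Fin 2 => (H0 (tw2 E (RC.mk (K2 F) g))).finite_toSet).subset ?_)
    fun γ _ γ' _ h => ?_
  · rintro _ ⟨γ, hγ, rfl⟩ j
    have h2 := (mem_H0_act γ _ _).2 (h1 j)
    have h3 : act2 F γ (tw2 E (RC.mk (K2 F) g)) = tw2 E (act2 F γ (RC.mk (K2 F) g)) :=
      (tw2_act E (glA F γ) _).symm
    rw [h3, show act2 F γ (RC.mk (K2 F) g) = _ from hγ] at h2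
    exact h2
  · refine Units.ext (Matrix.ext fun i j => ?_)
    have h2 := congrFun (congrFun h j) i
    simpa only [mulVec_single_one, Matrix.col_apply] using h2

lemma mem_H0_tri (B Z : Div F) (η : A F) :
    (![0, 1] : Fin 2 → F) ∈ H0 (RC.mk (K2 F) (tri B Z η)) ↔ 0 ≤ Z := by
  rw [H0_mk, mem_hbox, Fin.forall_fin_two, mvL_apply, tri_val, ← idiv_piD Z, ← unit_mem_Oh,
    idiv_piD]
  simp [mulVec, dotProduct, Fin.sum_univ_two, dlg]

lemma H0_tw2 (g : GL (Fin 2) (A F)) (m : ℕ) :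
    H0 (tw2 (m • PP F) (RC.mk (K2 F) g)) = hbox (tw1 (mvL g) m) := by
  rw [tw2_mk, H0_mk]
  ext x
  rw [mem_hbox, mem_hbox]
  refine forall_congr' fun i => ?_
  rw [iw56_scM, tw1, LinearEquiv.trans_apply, wdg_apply, pow_one]

/-- `exists_tri`, `NN_congr`, `NN_tri` -/
theorem NN_mvL (g : GL (Fin 2) (A F)) :
    NN (mvL g) = qq F ^ (deg (idiv (GeneralLinearGroup.det g)) + 2 * cc F) := by
  obtain ⟨k, hk, B, Z, η, rfl⟩ := exists_tri g
  rw [NN_congr (iw56_iff hk _), NN_tri (mvL (tri B Z η)) ![B, Z]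
    ![0, η • LinearMap.proj 0] ?_ ?_, map_mul, idiv_mul, (mem_K2.1 hk).2, det_tri, idiv_piD,
    zero_add, map_add, Fin.sum_univ_two]
  · simp
  · intro i a a' h
    fin_cases i
    · simp
    · simp [h 0 (by simp)]
  · intro a i
    rw [mvL_apply, tri_val]
    fin_cases i
    · simp [mulVec, dotProduct, Fin.sum_univ_two]
    · simp [mulVec, dotProduct, Fin.sum_univ_two]
      ring

/-- Reduction.  Twist by an integer multiple of `P` so that the degree lies in
`(-2 c, -2 c + 2 p]`; there is a nonzero section (`NN_le_card`), move it to `![0, 1]`. -/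
theorem exists_reduced : ∃ b : ℕ, ∀ x : X2 F, ∃ (γ : GL (Fin 2) F) (B Z : Div F) (η : A F),
    act2 F γ x = RC.mk (K2 F) (tri B Z η) ∧ -(b : ℤ) ≤ deg (Z - B) := by
  refine ⟨(2 * cc F).natAbs + 2 * pp F, fun x => ?_⟩
  have hp : (0 : ℤ) < 2 * pp F := by have := dg_pos (Cv.P : Place F); positivity
  set j : ℤ := (-2 * cc F - deg2 x) / (2 * pp F) + 1 with hj
  have h1 := Int.emod_add_mul_ediv (-2 * cc F - deg2 x) (2 * pp F)
  have h2 := Int.emod_nonneg (-2 * cc F - deg2 x) hp.ne'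
  have h3 := Int.emod_lt_of_pos (-2 * cc F - deg2 x) hp
  have hE : deg (j • PP F) = j * pp F := by rw [map_zsmul, deg_PP, smul_eq_mul]
  have h4 : 0 < deg2 x + 2 * deg (j • PP F) + 2 * cc F := by rw [hE, hj]; linarith
  have h5 : deg2 x + 2 * deg (j • PP F) + 2 * cc F ≤ 2 * pp F := by rw [hE, hj]; linarith
  generalize j • PP F = E at h4 h5
  have h6 : (1 : ℝ) < (H0 (tw2 E x)).card := by
    refine lt_of_lt_of_le ?_ (NN_le_card (mvL (tw2 E x).out))
    rw [NN_mvL]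
    change 1 < qq F ^ (deg2 (tw2 E x) + 2 * cc F)
    rw [deg2_tw2]
    exact one_lt_zpow₀ one_lt_qq h4
  obtain ⟨s, hs, hs0⟩ := Finset.exists_mem_ne (Nat.one_lt_cast.1 h6) 0
  obtain ⟨γ, hγ⟩ := iw56_vec hs0
  obtain ⟨B, Z, η, e⟩ := exists_mk_tri (act2 F γ x)
  refine ⟨γ, B, Z, η, e, ?_⟩
  have h7 := (mem_H0_act γ _ s).2 hs
  have h8 : act2 F γ (tw2 E x) = tw2 E (act2 F γ x) := (tw2_act E (glA F γ) _).symm
  rw [hγ, h8, e, tw2_tri, mem_H0_tri] at h7
  have h9 := deg_nonneg h7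
  have h10 := deg2_act γ x
  rw [e, deg2_tri] at h10
  rw [map_add] at h9
  rw [map_sub]
  push_cast
  have h11 := neg_abs_le (2 * cc F)
  linarith

end SelAvg.FF
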