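import Pool.Agent.H81Sel.Ade
import Pool.Agent.H81Sel.Bru

/-! Row LATA: families of lattices, triangular systems, product boxes. -/

namespace SelAvg.FF

open WeierstrassCurve WithZero Filter Topology
open scoped Classical ENNReal

variable {F : Type} [Field F] {n : ℕ}

/-- the diagonal map with entries `u ^ k i` -/
noncomputable def wdg (k : Fin n → ℕ) (u : (A F)ˣ) : (Fin n → A F) ≃ₗ[A F] (Fin n → A F) :=
  LinearEquiv.piCongrRight fun i => LinearEquiv.smulOfUnit (u ^ k i)

lemma wdg_apply (k : Fin n → ℕ) (u : (A F)ˣ) (a : Fin n → A F) (i : Fin n) :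
    wdg k u a i = (u : A F) ^ k i * a i := by
  simp [wdg, LinearEquiv.smulOfUnit, Units.smul_def]

/-- the diagonal map with entries `ϖ ^ D i` -/
noncomputable def ddg (D : Fin n → Div F) : (Fin n → A F) ≃ₗ[A F] (Fin n → A F) :=
  LinearEquiv.piCongrRight fun i => LinearEquiv.smulOfUnit (piD (D i))

lemma ddg_apply (D : Fin n → Div F) (a : Fin n → A F) (i : Fin n) :
    ddg D a i = (piD (D i) : A F) * a i := by
  simp [ddg, LinearEquiv.smulOfUnit, Units.smul_def]

/-- the entries of a linear map are bounded (`exists_mem_AD` for the images of the basis) -/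
lemma exists_bound (T : (Fin n → A F) →ₗ[A F] (Fin n → A F)) : ∃ B : Div F, 0 ≤ B ∧
    ∀ (E : Div F) (a : Fin n → A F), (∀ i, a i ∈ AD E) → ∀ i, T a i ∈ AD (E + B) := by
  obtain ⟨B, hB, h⟩ :=
    exists_mem_AD fun p : Fin n × Fin n => T (fun j => if p.1 = j then 1 else 0) p.2
  refine ⟨B, hB, fun E a ha i => ?_⟩
  rw [LinearMap.pi_apply_eq_sum_univ, Finset.sum_apply]
  exact AddSubgroup.sum_mem _ fun j _ => mul_mem_AD (ha j) (h (j, i))

/-- a family of lattices with weights -/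
structure Lat (F : Type) [Field F] (n : ℕ) where
  k : Fin n → ℕ
  kpos : ∀ i, 0 < k i
  T : (Fin n → A F) ≃ₗ[A F] (Fin n → A F)
  comm : ∀ (u : (A F)ˣ) (a : Fin n → A F), T (wdg k u a) = wdg k u (T a)

variable [Cv F]

/-- the diagonal embedding of vectors -/
noncomputable def dlg (x : Fin n → F) : Fin n → A F := fun i => toA F (x i)

lemma lata_dlg_zero : dlg (0 : Fin n → F) = 0 := funext fun _ => map_zero (toA F)

lemma lata_dlg_sub (x y : Fin n → F) : dlg (x - y) = dlg x - dlg y :=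
  funext fun _ => map_sub (toA F) _ _

/-- the global sections -/
def HH (T : (Fin n → A F) ≃ₗ[A F] (Fin n → A F)) : Set (Fin n → F) :=
  {x | ∀ i, T (dlg x) i ∈ Oh F}

/-- `exists_bound` for the inverse map, `finite_LL` -/
theorem finite_HH (T : (Fin n → A F) ≃ₗ[A F] (Fin n → A F)) : (HH T).Finite := by
  obtain ⟨B, -, hB⟩ := exists_bound (T.symm : (Fin n → A F) →ₗ[A F] (Fin n → A F))
  refine (Set.Finite.pi' fun _ : Fin n => finite_LL (0 + B)).subset fun x hx i => ?_
  have h := hB 0 (T (dlg x)) (fun j => mem_AD_zero.2 (hx j)) i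
  rw [LinearEquiv.coe_coe, LinearEquiv.symm_apply_apply] at h
  exact toA_mem_AD.1 h

/-- the global sections as a finite set -/
noncomputable def hbox (T : (Fin n → A F) ≃ₗ[A F] (Fin n → A F)) : Finset (Fin n → F) :=
  (finite_HH T).toFinset

lemma mem_hbox {T : (Fin n → A F) ≃ₗ[A F] (Fin n → A F)} {x : Fin n → F} :
    x ∈ hbox T ↔ ∀ i, T (dlg x) i ∈ Oh F := by
  simp [hbox, HH]

lemma zero_mem_hbox (T : (Fin n → A F) ≃ₗ[A F] (Fin n → A F)) : 0 ∈ hbox T := by
  rw [mem_hbox, lata_dlg_zero, map_zero]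
  exact fun _ => (Oh F).zero_mem

lemma sub_mem_hbox {T : (Fin n → A F) ≃ₗ[A F] (Fin n → A F)} {x y : Fin n → F} (hx : x ∈ hbox T)
    (hy : y ∈ hbox T) : x - y ∈ hbox T := by
  rw [mem_hbox] at hx hy ⊢
  rw [lata_dlg_sub, map_sub]
  exact fun i => (Oh F).sub_mem (hx i) (hy i)

/-- a chosen solution of `s + a ∈ A(D)` -/
noncomputable def lataS (a : A F) (D : Div F) : F :=
  if h : ∃ y : F, toA F y + a ∈ AD D then h.choose else 0

lemma lataS_spec {a : A F} {D : Div F} (h : ∃ y : F, toA F y + a ∈ AD D) :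
    toA F (lataS a D) + a ∈ AD D := by
  rw [lataS, dif_pos h]
  exact h.choose_spec

lemma lata_inj (D : Fin n → Div F) (φ : Fin n → (Fin n → F) → A F)
    (hφ : ∀ i x y, (∀ j, j < i → x j = y j) → φ i x = φ i y) :
    Function.Injective fun (x : Fin n → F) (i : Fin n) => x i - lataS (φ i x) (D i) := by
  intro x y h
  funext i
  induction i using WellFoundedLT.induction with
  | ind i ih =>
    have h1 : x i - lataS (φ i x) (D i) = y i - lataS (φ i y) (D i) := congrFun h i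
    rw [hφ i x y ih] at h1
    exact sub_left_injective h1

lemma lata_surj (D : Fin n → Div F) (φ : Fin n → (Fin n → F) → A F)
    (hφ : ∀ i x y, (∀ j, j < i → x j = y j) → φ i x = φ i y) (z : Fin n → F) :
    ∃ x : Fin n → F, ∀ i, x i - lataS (φ i x) (D i) = z i := by
  have key : ∀ k : ℕ, ∃ x : Fin n → F, ∀ i : Fin n, (i : ℕ) < k →
      x i - lataS (φ i x) (D i) = z i := by
    intro k
    induction k with
    | zero => exact ⟨0, fun i hi => absurd hi (Nat.not_lt_zero _)⟩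
    | succ k ih =>
      obtain ⟨x, hx⟩ := ih
      refine ⟨fun j => if (j : ℕ) < k then x j else z j + lataS (φ j x) (D j), fun i hi => ?_⟩
      rw [hφ i _ x fun j hj => if_pos (by have : (j : ℕ) < i := hj; omega)]
      beta_reduce
      by_cases h : (i : ℕ) < k
      · rw [if_pos h]
        exact hx i h
      · rw [if_neg h, add_sub_cancel_right]
  obtain ⟨x, hx⟩ := key n
  exact ⟨x, fun i => hx i i.2⟩

lemma lata_mem {a : A F} {D : Div F} {y : F} (h : toA F y + a ∈ AD D) : y - lataS a D ∈ box D := by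
  rw [mem_box, ← toA_mem_AD, map_sub, ← add_sub_add_right_eq_sub _ _ a]
  exact (AD D).sub_mem h (lataS_spec ⟨y, h⟩)

/-- Triangular systems.  For each adele `a` and divisor `D` choose `s a D` in `F` with
`s + a ∈ A(D)` if there is one.  The map `x ↦ (x i - s (φ i x) (D i))_i` is a bijection of `F^n`
(induction on the coordinate); it maps the solutions into the product of the `L(D i)`. -/
theorem card_tri_le (D : Fin n → Div F) (φ : Fin n → (Fin n → F) → A F)
    (hφ : ∀ i x y, (∀ j, j < i → x j = y j) → φ i x = φ i y) (s : Finset (Fin n → F))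
    (hs : ∀ x ∈ s, ∀ i, toA F (x i) + φ i x ∈ AD (D i)) : s.card ≤ ∏ i, (box (D i)).card := by
  rw [← Fintype.card_piFinset]
  exact Finset.card_le_card_of_injOn (fun x i => x i - lataS (φ i x) (D i))
    (fun x hx => Finset.mem_coe.2 (Fintype.mem_piFinset.2 fun i => lata_mem (hs x hx i)))
    (lata_inj D φ hφ).injOn

/-- if all degrees are large the map is onto (`approx`) -/
theorem card_tri (D : Fin n → Div F) (hD : ∀ i, (c0 F : ℤ) ≤ deg (D i))
    (φ : Fin n → (Fin n → F) → A F) (hφ : ∀ i x y, (∀ j, j < i → x j = y j) → φ i x = φ i y)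
    (s : Finset (Fin n → F)) (hs : ∀ x, x ∈ s ↔ ∀ i, toA F (x i) + φ i x ∈ AD (D i)) :
    s.card = ∏ i, (box (D i)).card := by
  rw [← Fintype.card_piFinset]
  refine Finset.card_bij (fun x _ i => x i - lataS (φ i x) (D i))
    (fun x hx => Fintype.mem_piFinset.2 fun i => lata_mem ((hs x).1 hx i))
    (fun x _ y _ h => lata_inj D φ hφ h) fun z hz => ?_
  obtain ⟨x, hx⟩ := lata_surj D φ hφ z
  refine ⟨x, (hs x).2 fun i => ?_, funext hx⟩
  obtain ⟨y, hy⟩ := approx (hD i) (-φ i x)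
  rw [sub_neg_eq_add] at hy
  rw [sub_eq_iff_eq_add.1 (hx i), map_add, add_assoc]
  exact (AD (D i)).add_mem (toA_mem_AD.2 (mem_box.1 (Fintype.mem_piFinset.1 hz i)))
    (lataS_spec ⟨y, hy⟩)

/-- the twist by `m P` -/
noncomputable def Lat.tw (L : Lat F n) (m : ℕ) : (Fin n → A F) ≃ₗ[A F] (Fin n → A F) :=
  L.T.trans (wdg L.k (piD (m • PP F)))

/-- the sections of the twist -/
noncomputable def Lat.box (L : Lat F n) (m : ℕ) : Finset (Fin n → F) := hbox (L.tw m)

lemma lata_tw (L : Lat F n) (m : ℕ) (a : Fin n → A F) :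
    L.tw m a = L.T (wdg L.k (piD (m • PP F)) a) := (L.comm _ _).symm

lemma lata_wdg_mem (k : Fin n → ℕ) (m : ℕ) (a : Fin n → A F) (i : Fin n) (D : Div F) :
    wdg k (piD (m • PP F)) a i ∈ AD D ↔ a i ∈ AD (D + (k i * m) • PP F) := by
  rw [wdg_apply, ← Units.val_pow_eq_pow_val, unit_mul_mem_AD, idiv_pow, idiv_piD, smul_smul]

lemma lata_deg (D : Div F) (j : ℕ) : deg (D + j • PP F) = deg D + j * pp F := by
  rw [map_add, map_nsmul, deg_PP, nsmul_eq_mul]

/-- Let `B` bound `L.T`.  Approximate the coordinates of `(tw m)⁻¹ y` modulo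
`A(k i m P - B - E)` (`approx`) and use `comm`. -/
theorem Lat.approx (L : Lat F n) : ∃ b : ℕ, ∀ (m : ℕ) (E : Div F), 0 ≤ E →
    deg E + b ≤ m * pp F → ∀ y : Fin n → A F, ∃ x : Fin n → F,
      ∀ i, L.tw m (dlg x) i - y i ∈ AD (-E) := by
  obtain ⟨B, hB0, hB⟩ := exists_bound (L.T : (Fin n → A F) →ₗ[A F] (Fin n → A F))
  refine ⟨c0 F + (deg B).toNat, fun m E hE hm y => ?_⟩
  have h1 : ∀ i, ∃ x : F, toA F x - (L.tw m).symm y i ∈ AD (-E - B + (L.k i * m) • PP F) := by
    intro i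
    refine SelAvg.FF.approx ?_ _
    have h2 : ((m * pp F : ℕ) : ℤ) ≤ (L.k i * m * pp F : ℕ) := by
      rw [mul_assoc]
      exact_mod_cast Nat.le_mul_of_pos_left _ (L.kpos i)
    have h3 := Int.toNat_of_nonneg (deg_nonneg hB0)
    rw [lata_deg, map_sub, map_neg]
    push_cast at h2 hm ⊢
    omega
  choose x hx using h1
  refine ⟨x, fun i => ?_⟩
  have h2 : L.tw m (dlg x) i - y i = L.tw m (dlg x - (L.tw m).symm y) i := by
    rw [map_sub, LinearEquiv.apply_symm_apply, Pi.sub_apply]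
  have h3 := hB (-E - B) _ (fun j => (lata_wdg_mem L.k m (dlg x - (L.tw m).symm y) j _).2 (hx j)) i
  rw [sub_add_cancel] at h3
  rw [h2, lata_tw]
  exact h3

/-- the local coordinates modulo `𝔪^M` -/
noncomputable def Lat.loc (L : Lat F n) (m : ℕ) (v : Place F) (x : Fin n → F) : Fin n → v.loc.O :=
  fun i => cO v (L.tw m (dlg x) i)

/-- product boxes -/
noncomputable def PB (D : Fin n → Div F) (k : Fin n → ℕ) (m : ℕ) : Finset (Fin n → F) :=
  Fintype.piFinset fun i => box (D i + (k i * m) • PP F)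

lemma lata_mem_PB {D : Fin n → Div F} {k : Fin n → ℕ} {m : ℕ} {x : Fin n → F} :
    x ∈ PB D k m ↔ ∀ i, wdg k (piD (m • PP F)) (dlg x) i ∈ AD (D i) := by
  rw [PB, Fintype.mem_piFinset]
  exact forall_congr' fun i => by rw [lata_wdg_mem, mem_box, ← toA_mem_AD]; rfl

lemma lata_card_PB (B : Div F) {k : Fin n → ℕ} (hk : ∀ i, 0 < k i) : ∀ᶠ m in atTop,
    ((PB (fun _ => B) k m).card : ℝ) =
      (qq F ^ deg B) ^ n * ∏ i, qq F ^ (((k i * m : ℕ) : ℤ) * pp F + cc F) := by
  filter_upwards [eventually_ge_atTop (c0 F + (-deg B).toNat)] with m hm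
  have hq : qq F ≠ 0 := (zero_lt_one.trans one_lt_qq).ne'
  rw [PB, Fintype.card_piFinset, Nat.cast_prod, ← Fin.prod_const, ← Finset.prod_mul_distrib]
  refine Finset.prod_congr rfl fun i _ => ?_
  rw [card_box, lata_deg, add_assoc, zpow_add₀ hq]
  have h2 : (m : ℤ) ≤ (k i * m * pp F : ℕ) := by
    exact_mod_cast (Nat.le_mul_of_pos_left _ (hk i)).trans
      (Nat.le_mul_of_pos_right _ (dg_pos (Cv.P : Place F)))
  rw [lata_deg]
  push_cast at h2 ⊢
  omega

/-- With `B` bounding `T` and `T⁻¹`: `PB (-B) ⊆ box ⊆ PB B`, and `card_box` for large `m`. -/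
theorem Lat.sandwich (L : Lat F n) : ∃ (D : Fin n → Div F) (C : ℝ), 0 ≤ C ∧ ∀ᶠ m in atTop,
    L.box m ⊆ PB D L.k m ∧ ((PB D L.k m).card : ℝ) ≤ C * (L.box m).card := by
  obtain ⟨B, -, hB⟩ := exists_bound (L.T : (Fin n → A F) →ₗ[A F] (Fin n → A F))
  obtain ⟨B', -, hB'⟩ := exists_bound (L.T.symm : (Fin n → A F) →ₗ[A F] (Fin n → A F))
  have hq : 0 < qq F := zero_lt_one.trans one_lt_qq
  refine ⟨fun _ => B', (qq F ^ deg (B' + B)) ^ n, by positivity, ?_⟩
  filter_upwards [lata_card_PB B' L.kpos, lata_card_PB (-B) L.kpos] with m h1 h2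
  refine ⟨fun x hx => lata_mem_PB.2 fun i => ?_, ?_⟩
  · have h := hB' 0 _ (fun j => mem_AD_zero.2 (mem_hbox.1 hx j)) i
    rwa [lata_tw, LinearEquiv.coe_coe, LinearEquiv.symm_apply_apply, zero_add] at h
  · have h3 : PB (fun _ => -B) L.k m ⊆ L.box m := fun x hx => mem_hbox.2 fun i => by
      have h := hB (-B) _ (lata_mem_PB.1 hx) i
      rw [neg_add_cancel, mem_AD_zero] at h
      rw [lata_tw]
      exact h
    refine le_trans (le_of_eq ?_) (mul_le_mul_of_nonneg_left
      (Nat.cast_le.2 (Finset.card_le_card h3)) (by positivity))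
    rw [h1, h2, ← mul_assoc, ← mul_pow, ← zpow_add₀ hq.ne', ← map_add, add_neg_cancel_right]

/-- negligible sets of product boxes are negligible -/
theorem Lat.tendsto_of_PB (L : Lat F n) (Bad : ℕ → (Fin n → F) → Prop)
    (h : ∀ D : Fin n → Div F, Tendsto (fun m => dens (PB D L.k m) (Bad m)) atTop (𝓝 0)) :
    Tendsto (fun m => dens (L.box m) (Bad m)) atTop (𝓝 0) := by
  obtain ⟨D, C, hC, hs⟩ := L.sandwich
  have h0 := (h D).const_mul C
  rw [mul_zero] at h0
  refine squeeze_zero' (Eventually.of_forall fun m => dens_nonneg _ _) ?_ h0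
  filter_upwards [hs] with m hm
  have h1 : (0 : ℝ) < (L.box m).card :=
    Nat.cast_pos.2 (Finset.card_pos.2 ⟨0, zero_mem_hbox _⟩)
  have h2 : (0 : ℝ) < (PB D L.k m).card :=
    h1.trans_le (Nat.cast_le.2 (Finset.card_le_card hm.1))
  have h3 : (((L.box m).filter (Bad m)).card : ℝ) ≤ ((PB D L.k m).filter (Bad m)).card :=
    Nat.cast_le.2 (Finset.card_le_card (Finset.filter_subset_filter _ hm.1))
  unfold dens
  rw [← mul_div_assoc, div_le_div_iff₀ h1 h2]
  calc _ ≤ (((PB D L.k m).filter (Bad m)).card : ℝ) * (C * (L.box m).card) :=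
        mul_le_mul h3 hm.2 h2.le (Nat.cast_nonneg _)
    _ = _ := by ring

end SelAvg.FF
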