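import Pool.Agent.H81Sel.LatA

/-! Row LATB: equidistribution and the sieve. -/

namespace SelAvg.FF

open WeierstrassCurve WithZero Filter Topology
open scoped Classical ENNReal

variable {F : Type} [Field F] {n : ℕ} [Cv F]

omit [Cv F] in
/-- `avg_comp_hom` for a map that is additive on the subgroup only -/
lemma latb_avg_comp {α β : Type*} [AddCommGroup α] [AddCommGroup β] [Fintype β] {s : Finset α}
    (h0 : (0 : α) ∈ s) (hs : ∀ x ∈ s, ∀ y ∈ s, x - y ∈ s) (φ : α → β)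
    (hadd : ∀ x ∈ s, ∀ y ∈ s, φ (x + y) = φ x + φ y) (hφ : ∀ b, ∃ x ∈ s, φ x = b) (G : β → ℝ) :
    avg s (fun x => G (φ x)) = avg Finset.univ G := by
  choose σ h1 h2 using hφ
  rw [avg_shift (fun x hx y hy => by simpa using hs x hx _ (hs 0 h0 y hy)) Finset.univ_nonempty σ
    fun b _ => h1 b, ← avg_const ⟨0, h0⟩ (avg Finset.univ G)]
  refine avg_congr fun x hx => ?_
  simp only [hadd x hx _ (h1 _), h2, avg]
  rw [← Equiv.sum_comp (Equiv.addLeft (φ x)) G]
  rfl

lemma latb_loc_add (L : Lat F n) (m : ℕ) (v : Place F) {x y : Fin n → F} (hx : x ∈ L.box m)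
    (hy : y ∈ L.box m) (i : Fin n) :
    L.loc m v (x + y) i = L.loc m v x i + L.loc m v y i := by
  have h1 := mem_hbox.1 hx i
  have h2 := mem_hbox.1 hy i
  have e : L.tw m (dlg (x + y)) i = L.tw m (dlg x) i + L.tw m (dlg y) i := by
    have e' : dlg (x + y) = dlg x + dlg y := funext fun j => map_add (toA F) _ _
    rw [e', map_add]
    rfl
  have h := cO_coe v (⟨_, h1⟩ + ⟨_, h2⟩ : Oh F)
  rw [map_add, ← cO_coe, ← cO_coe] at h
  unfold Lat.loc
  rw [e]
  exact h

omit [Cv F] in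
lemma latb_red_eq {v : Place F} {R : Type} [CommRing R] {ρ : v.loc.O →+* R} {M : ℕ}
    (hρ : v.loc.IsRed ρ M) {a : A F} (ha : a ∈ Oh F) (y : Oh F)
    (h : v.vc (pr v (a - y)) ≤ exp (-(M : ℤ))) : ρ (cO v a) = ρ (prO v y) := by
  refine (hρ.eq_iff _ _).2 ?_
  have e1 : ((cO v a : v.loc.O) : v.Compl) = pr v a := incl_cO v (ha v)
  have e2 : ((prO v y : v.loc.O) : v.Compl) = pr v (y : A F) := incl_prO v y
  rw [e1, e2, ← map_sub]
  exact h

/-- every family of local data is approximated by a section -/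
lemma latb_onto (L : Lat F n) : ∃ b : ℕ, ∀ (m M : ℕ) (S : Finset (Place F)),
    M * ∑ v ∈ S, dg v + b ≤ m * pp F → ∀ y : Fin n → Oh F, ∃ x ∈ L.box m, ∀ i, ∀ v ∈ S,
      v.vc (pr v (L.tw m (dlg x) i - y i)) ≤ exp (-(M : ℤ)) := by
  obtain ⟨b, hb⟩ := L.approx
  refine ⟨b, fun m M S hm y => ?_⟩
  obtain ⟨E, hE⟩ : ∃ E : Div F, E = ∑ v ∈ S, Finsupp.single v (M : ℤ) := ⟨_, rfl⟩
  have hEv : ∀ v, E v = if v ∈ S then (M : ℤ) else 0 := fun v => by
    rw [hE, Finsupp.finsetSum_apply]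
    simp [Finsupp.single_apply]
  have hE0 : 0 ≤ E := fun v => by
    rw [hEv]
    split_ifs <;> simp
  have hd : deg E + b ≤ m * pp F := by
    rw [hE, map_sum]
    simp only [deg_single]
    rw [← Finset.mul_sum]
    exact_mod_cast hm
  obtain ⟨x, hx⟩ := hb m E hE0 hd fun i => (y i : A F)
  refine ⟨x, mem_hbox.2 fun i => ?_, fun i v hv => ?_⟩
  · have h2 : L.tw m (dlg x) i - y i ∈ Oh F :=
      mem_AD_zero.1 (AD_mono (neg_nonpos.2 hE0) (hx i))
    have h3 := (Oh F).add_mem h2 (y i).2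
    rwa [sub_add_cancel] at h3
  · have h4 := mem_AD.1 (hx i) v
    rwa [Finsupp.neg_apply, hEv, if_pos hv] at h4

/-- equidistribution for any family of reduction maps -/
lemma latb_equidist (L : Lat F n) : ∃ b : ℕ, ∀ (m M : ℕ) (S : Finset (Place F))
    (R : Place F → Type) [∀ v, CommRing (R v)] [∀ v, Fintype (R v)]
    (ρ : ∀ v : Place F, v.loc.O →+* R v), (∀ v : Place F, v.loc.IsRed (ρ v) M) →
    M * ∑ v ∈ S, dg v + b ≤ m * pp F → ∀ Φ : ∀ v : Place F, (Fin n → R v) → ℝ,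
      avg (L.box m) (fun x => ∏ v ∈ S, Φ v fun i => ρ v (L.loc m v x i)) =
        ∏ v ∈ S, avg Finset.univ (Φ v) := by
  obtain ⟨b, hb⟩ := latb_onto L
  refine ⟨b, fun m M S R _ _ ρ hρ hm Φ => ?_⟩
  have h1 := latb_avg_comp (s := L.box m) (zero_mem_hbox _) (fun x hx y hy => sub_mem_hbox hx hy)
    (fun x (w : S) (i : Fin n) => ρ w (L.loc m w x i))
    (fun x hx y hy => by
      funext w i
      simp only [Pi.add_apply, latb_loc_add L m _ hx hy, map_add])
    (fun c => by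
      choose a ha using fun (i : Fin n) (v : Place F) =>
        (hρ v).surj (if h : v ∈ S then c ⟨v, h⟩ i else 0)
      choose y hy using fun i : Fin n => exists_Oh (a i)
      obtain ⟨x, hx, hx'⟩ := hb m M S hm y
      refine ⟨x, hx, funext fun w => funext fun i => ?_⟩
      have h3 : ρ w (a i w) = c w i := (ha i w).trans (dif_pos w.2)
      rw [← h3, ← hy i w]
      exact latb_red_eq (hρ w) (mem_hbox.1 hx i) (y i) (hx' i w w.2))
    fun y => ∏ w : S, Φ w (y w)
  rw [avg_univ_prod fun w : S => Φ w, Finset.prod_coe_sort S fun w => avg Finset.univ (Φ w)] at h1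
  rw [← h1]
  exact avg_congr fun x _ =>
    (Finset.prod_coe_sort S fun w => Φ w fun i => ρ w (L.loc m w x i)).symm

/-- `avg_comp_hom` needs an additive map: work on the subgroup of sections, or replace `cO` by
`prO`; onto by `Lat.approx` and `exists_Oh`; then `avg_univ_prod`. -/
theorem Lat.equidist (L : Lat F n) : ∃ b : ℕ, ∀ (m M : ℕ) (S : Finset (Place F)),
    M * ∑ v ∈ S, dg v + b ≤ m * pp F → ∀ Φ : ∀ v : Place F, (Fin n → Rv v M) → ℝ,
      avg (L.box m) (fun x => ∏ v ∈ S, Φ v fun i => redv v M (L.loc m v x i)) =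
        ∏ v ∈ S, avg Finset.univ (Φ v) := by
  obtain ⟨b, hb⟩ := latb_equidist L
  exact ⟨b, fun m M S hm Φ =>
    hb m M S (fun v => Rv v M) (fun v => redv v M) (fun v => redv_isRed v M) hm Φ⟩

/-- the same for the residue fields -/
theorem Lat.equidist_res (L : Lat F n) : ∃ b : ℕ, ∀ (m : ℕ) (S : Finset (Place F)),
    ∑ v ∈ S, dg v + b ≤ m * pp F → ∀ Φ : ∀ v : Place F, (Fin n → kv v) → ℝ,
      avg (L.box m) (fun x => ∏ v ∈ S, Φ v fun i => resv v (L.loc m v x i)) =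
        ∏ v ∈ S, avg Finset.univ (Φ v) := by
  obtain ⟨b, hb⟩ := latb_equidist L
  exact ⟨b, fun m S hm Φ =>
    hb m 1 S (fun v => kv v) (fun v => resv v) resv_isRed (by rwa [one_mul]) Φ⟩

/-- The sieve.  For every `r` choose `r` places of degree at least `N₀` outside `S₀`
(`infinite_place`, `finite_dg_le`); the density is at most `(1 - c)^r` for large `m`. -/
theorem Lat.sieve (L : Lat F n) (Bad : ℕ → (Fin n → F) → Prop) {c : ℝ} (hc : 0 < c) (N₀ : ℕ)
    (Q : ∀ v : Place F, (Fin n → kv v) → Prop)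
    (hQ : ∀ v, N₀ ≤ dg v → dens Finset.univ (Q v) ≤ 1 - c)
    (hB : ∀ m v, N₀ ≤ dg v → ∀ x ∈ L.box m, Bad m x → Q v fun i => resv v (L.loc m v x i)) :
    Tendsto (fun m => dens (L.box m) (Bad m)) atTop (𝓝 0) := by
  have hinf : {v : Place F | dg v ≤ N₀}ᶜ.Infinite :=
    haveI := infinite_place (F := F)
    (finite_dg_le N₀).infinite_compl
  obtain ⟨p₀, hp₀⟩ := hinf.nonempty
  have h0 : 0 ≤ 1 - c := (dens_nonneg _ _).trans (hQ p₀ (le_of_not_ge hp₀))
  obtain ⟨b, hb⟩ := L.equidist_res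
  refine tendsto_order.2 ⟨fun a ha => Eventually.of_forall fun d =>
    ha.trans_le (dens_nonneg _ _), fun ε hε => ?_⟩
  obtain ⟨r, hr⟩ := exists_pow_lt_of_lt_one hε (show 1 - c < 1 by linarith)
  obtain ⟨T, hT, rfl⟩ := hinf.exists_subset_card_eq r
  have hT' : ∀ p ∈ T, N₀ ≤ dg p := fun p hp => le_of_not_ge (hT hp)
  filter_upwards [eventually_ge_atTop (∑ v ∈ T, dg v + b)] with m hm
  have e := hb m T (hm.trans (Nat.le_mul_of_pos_right m (dg_pos _))) fun v y => ind (Q v y)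
  simp only [← dens_eq_avg] at e
  refine lt_of_le_of_lt ?_ hr
  rw [dens_eq_avg]
  refine (avg_mono fun x hx => ?_).trans (e.trans_le ?_)
  · by_cases h : Bad m x
    · rw [ind_pos h, Finset.prod_eq_one fun p hp => ind_pos (hB m p (hT' p hp) x hx h)]
    · rw [ind_neg h]
      exact Finset.prod_nonneg fun _ _ => ind_nonneg _
  · rw [← Finset.prod_const]
    exact Finset.prod_le_prod (fun _ _ => dens_nonneg _ _) fun p hp => hQ p (hT' p hp)

end SelAvg.FF
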