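import Pool.Agent.H81Sel.LatA

/-! Row LATC: masses of lattices. -/

namespace SelAvg.FF

open WeierstrassCurve WithZero Filter Topology
open scoped Classical ENNReal

variable {F : Type} [Field F] {n : ℕ} [Cv F]

/-- the twist of a lattice with all weights one -/
noncomputable def tw1 (T : (Fin n → A F) ≃ₗ[A F] (Fin n → A F)) (m : ℕ) :
    (Fin n → A F) ≃ₗ[A F] (Fin n → A F) := T.trans (wdg (fun _ => 1) (piD (m • PP F)))

omit [Cv F] in
lemma lc_wdg (u : (A F)ˣ) (a : Fin n → A F) : wdg (fun _ => 1) u a = (u : A F) • a := by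
  funext i; rw [wdg_apply, pow_one]; rfl

lemma lc_mem (T : (Fin n → A F) ≃ₗ[A F] (Fin n → A F)) (m : ℕ) (x : Fin n → F) :
    x ∈ hbox (tw1 T m) ↔ ∀ i, T (dlg x) i ∈ AD (m • PP F) := by
  rw [mem_hbox]
  refine forall_congr' fun i => ?_
  rw [tw1, LinearEquiv.trans_apply, wdg_apply, pow_one, ← mem_AD_zero, unit_mul_mem_AD, idiv_piD,
    zero_add]

lemma lc_dlg_sub (x y : Fin n → F) : dlg (x - y) = dlg x - dlg y := by
  funext i; simp [dlg]

lemma lc_dlg_add (x y : Fin n → F) : dlg (x + y) = dlg x + dlg y := by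
  funext i; simp [dlg]

lemma lc_trans {D E : Div F} (h : D ≤ E) : ∃ s : Finset (Fin n → A F),
    (s.card : ℝ) = (qq F ^ (deg E - deg D)) ^ n ∧ (∀ b ∈ s, ∀ i, b i ∈ AD E) ∧
      ∀ a : Fin n → A F, (∀ i, a i ∈ AD E) → ∃! b, b ∈ s ∧ ∀ i, a i - b i ∈ AD D := by
  obtain ⟨s, h1, h2, h3⟩ := exists_transversal h
  refine ⟨Fintype.piFinset fun _ => s, ?_, fun b hb i => h2 _ (Fintype.mem_piFinset.1 hb i),
    fun a ha => ?_⟩
  · rw [Fintype.card_piFinset, Finset.prod_const, Finset.card_univ, Fintype.card_fin, Nat.cast_pow,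
      h1]
  · choose b hb hu using fun i => h3 (a i) (ha i)
    exact ⟨b, ⟨Fintype.mem_piFinset.2 fun i => (hb i).1, fun i => (hb i).2⟩,
      fun c hc => funext fun i => hu i _ ⟨Fintype.mem_piFinset.1 hc.1 i, hc.2 i⟩⟩

lemma lc_approx (T : (Fin n → A F) ≃ₗ[A F] (Fin n → A F)) : ∃ m0 : ℕ, ∀ m, m0 ≤ m →
    ∀ z : Fin n → A F, ∃ x : Fin n → F, ∀ i, T (dlg x) i - z i ∈ AD (m • PP F) := by
  obtain ⟨b, hb⟩ := Lat.approx (⟨fun _ => 1, fun _ => one_pos, T, fun u a => by
    rw [lc_wdg, lc_wdg, map_smul]⟩ : Lat F n)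
  refine ⟨b, fun m hm z => ?_⟩
  obtain ⟨x, hx⟩ := hb m 0 le_rfl (by
    have h1 : 1 ≤ pp F := dg_pos _
    have h2 : b ≤ m * pp F := hm.trans (Nat.le_mul_of_pos_right _ h1)
    rw [map_zero, zero_add]
    exact_mod_cast h2) (fun i => (piD (m • PP F) : A F) * z i)
  refine ⟨x, fun i => ?_⟩
  have := hx i
  rw [Lat.tw, LinearEquiv.trans_apply, wdg_apply, pow_one, ← mul_sub, unit_mul_mem_AD, idiv_piD,
    neg_zero, zero_add] at this
  exact this

lemma lc_coset (T : (Fin n → A F) ≃ₗ[A F] (Fin n → A F)) (m : ℕ) {z : Fin n → A F}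
    {x0 : Fin n → F} (h0 : ∀ i, T (dlg x0) i - z i ∈ AD (m • PP F)) (x : Fin n → F) :
    (∀ i, T (dlg x) i - z i ∈ AD (m • PP F)) ↔
      x ∈ (hbox (tw1 T m)).map (Equiv.addRight x0).toEmbedding := by
  rw [Finset.mem_map_equiv, lc_mem]
  refine forall_congr' fun i => ?_
  have e : T (dlg ((Equiv.addRight x0).symm x)) i =
      (T (dlg x) i - z i) - (T (dlg x0) i - z i) := by
    have : (Equiv.addRight x0).symm x = x - x0 := by simp [sub_eq_add_neg]
    rw [this, lc_dlg_sub, map_sub, Pi.sub_apply]; ring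
  rw [e]
  exact ⟨fun h => sub_mem h (h0 i), fun h => by simpa using add_mem h (h0 i)⟩

lemma lc_step (T : (Fin n → A F) ≃ₗ[A F] (Fin n → A F)) (m : ℕ) : ∃ s : Finset (Fin n → A F),
    s.card = Cv.q F ^ (n * pp F) ∧ ∃ c : (Fin n → A F) → ℕ,
      (hbox (tw1 T (m + 1))).card = ∑ b ∈ s, c b ∧ ∀ b ∈ s, c b ≤ (hbox (tw1 T m)).card ∧
        ((∃ x : Fin n → F, ∀ i, T (dlg x) i - b i ∈ AD (m • PP F)) →
          c b = (hbox (tw1 T m)).card) := by
  have hle : m • PP F ≤ (m + 1) • PP F := nsmul_le_nsmul_left PP_nonneg m.le_succ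
  obtain ⟨s, h1, h2, h3⟩ := lc_trans (n := n) hle
  refine ⟨s, ?_, fun b => ((hbox (tw1 T (m + 1))).filter
    fun x => ∀ i, T (dlg x) i - b i ∈ AD (m • PP F)).card, ?_, fun b hb => ?_⟩
  · have : deg ((m + 1) • PP F) - deg (m • PP F) = (pp F : ℤ) := by
      rw [succ_nsmul, map_add, deg_PP]; ring
    rw [this, zpow_natCast, ← pow_mul, mul_comm] at h1
    exact_mod_cast h1
  · simp only [Finset.card_filter]
    rw [Finset.sum_comm, Finset.card_eq_sum_ones]
    refine Finset.sum_congr rfl fun x hx => ?_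
    obtain ⟨b, hb, hu⟩ := h3 _ ((lc_mem T _ x).1 hx)
    rw [Finset.sum_eq_single_of_mem b hb.1 fun c hc hne => if_neg fun h => hne (hu c ⟨hc, h⟩),
      if_pos hb.2]
  · have key : (∃ x : Fin n → F, ∀ i, T (dlg x) i - b i ∈ AD (m • PP F)) →
        ((hbox (tw1 T (m + 1))).filter
          fun x => ∀ i, T (dlg x) i - b i ∈ AD (m • PP F)).card = (hbox (tw1 T m)).card := by
      rintro ⟨x0, h0⟩
      rw [← Finset.card_map (Equiv.addRight x0).toEmbedding (s := hbox (tw1 T m))]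
      congr 1
      ext x
      rw [Finset.mem_filter, ← lc_coset T m h0, and_iff_right_iff_imp, lc_mem]
      intro h i
      simpa using add_mem (AD_mono hle (h i)) (h2 b hb i)
    refine ⟨?_, key⟩
    by_cases h : ∃ x : Fin n → F, ∀ i, T (dlg x) i - b i ∈ AD (m • PP F)
    · exact (key h).le
    · beta_reduce
      rw [Finset.filter_false_of_mem fun x _ hx => h ⟨x, hx⟩]
      exact Nat.zero_le _

/-- the reduction at `P` of the sections of the twist by `(m + 1) P` has kernel the sections of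
the twist by `m P` -/
theorem card_tw1_le (T : (Fin n → A F) ≃ₗ[A F] (Fin n → A F)) (m : ℕ) :
    (hbox (tw1 T (m + 1))).card ≤ Cv.q F ^ (n * pp F) * (hbox (tw1 T m)).card := by
  obtain ⟨s, h1, c, h2, h3⟩ := lc_step T m
  rw [h2, ← h1, ← smul_eq_mul]
  exact Finset.sum_le_card_nsmul _ _ _ fun b hb => (h3 b hb).1

/-- for large `m` the reduction is onto (`Lat.approx`) -/
theorem card_tw1 (T : (Fin n → A F) ≃ₗ[A F] (Fin n → A F)) : ∃ N : ℝ, 0 < N ∧ ∀ᶠ m in atTop,
    ((hbox (tw1 T m)).card : ℝ) = N * qq F ^ (n * m * pp F) := by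
  obtain ⟨m0, h0⟩ := lc_approx T
  have hq : 0 < qq F := one_pos.trans one_lt_qq
  have hc : (0 : ℝ) < (hbox (tw1 T m0)).card := by
    exact_mod_cast Finset.card_pos.2 ⟨0, zero_mem_hbox _⟩
  refine ⟨(hbox (tw1 T m0)).card / qq F ^ (n * m0 * pp F), by positivity,
    eventually_atTop.2 ⟨m0, fun m hm => ?_⟩⟩
  induction m, hm using Nat.le_induction with
  | base => rw [div_mul_cancel₀ _ (by positivity)]
  | succ m hm ih =>
    obtain ⟨s, h1, c, h2, h3⟩ := lc_step T m
    rw [h2, Finset.sum_congr rfl fun b hb => (h3 b hb).2 (h0 m hm b), Finset.sum_const, h1,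
      smul_eq_mul, Nat.cast_mul, ih, Nat.cast_pow,
      show n * (m + 1) * pp F = n * pp F + n * m * pp F by ring, pow_add]
    ring

/-- The mass of `F^n` acting on `A^n / T⁻¹ Oh^n`.  Fix a large `m`.  `F^n` is transitive on the
classes modulo `(tw1 T m)⁻¹ Oh^n` (`Lat.approx`), with stabiliser `hbox (tw1 T m)`, and each such
class consists of `q^(n m p)` classes modulo `T⁻¹ Oh^n` (`exists_transversal`).  With a
transversal `s`: `card s = ∑ b ∈ s, ∑' y, σ (e (b + y)) = card (hbox ..) * ∑' x, σ x`. -/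
theorem mass_lattice (T : (Fin n → A F) ≃ₗ[A F] (Fin n → A F)) {N : ℝ} (hN0 : 0 < N)
    (hN : ∀ᶠ m in atTop, ((hbox (tw1 T m)).card : ℝ) = N * qq F ^ (n * m * pp F))
    {X : Type} (e : (Fin n → A F) → X) (he : ∀ a a', e a = e a' ↔ ∀ i, T (a - a') i ∈ Oh F)
    (σ : X → ℝ≥0∞) (hσ : ∀ a, ∑' y : Fin n → F, σ (e (a + dlg y)) = 1) :
    ∑' x, (if ∃ a, e a = x then σ x else 0) = ENNReal.ofReal N⁻¹ := by
  obtain ⟨m0, h0⟩ := lc_approx T
  obtain ⟨m, hm, hm0⟩ := (hN.and (eventually_ge_atTop m0)).exists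
  obtain ⟨s, h1, h2, h3⟩ := lc_trans (n := n) (nsmul_nonneg (PP_nonneg (F := F)) m)
  have hq : 0 < qq F := one_pos.trans one_lt_qq
  have hs : (s.card : ℝ) = qq F ^ (n * m * pp F) := by
    rw [h1, map_zero, sub_zero, map_nsmul, deg_PP, nsmul_eq_mul, ← Nat.cast_mul, zpow_natCast,
      ← pow_mul]
    congr 1; ring
  have key : ∀ x, ∑' y : Fin n → F, ∑ b ∈ s, (if x = e (T.symm b + dlg y) then σ x else 0) =
      (hbox (tw1 T m)).card * if ∃ a, e a = x then σ x else 0 := by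
    intro x
    by_cases hx : ∃ a, e a = x
    · rw [if_pos hx]
      obtain ⟨a, rfl⟩ := hx
      obtain ⟨x0, hx0⟩ := h0 m hm0 (T a)
      have e1 : ∀ b y, e a = e (T.symm b + dlg y) ↔
          ∀ i, -(T (dlg y) i - T a i) - b i ∈ AD (0 : Div F) := by
        intro b y
        rw [he]
        refine forall_congr' fun i => ?_
        rw [mem_AD_zero, map_sub, map_add, LinearEquiv.apply_symm_apply, Pi.sub_apply, Pi.add_apply]
        exact iff_of_eq (congrArg (· ∈ Oh F) (by ring))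
      have e2 : ∀ y, ∑ b ∈ s, (if e a = e (T.symm b + dlg y) then σ (e a) else 0) =
          if y ∈ (hbox (tw1 T m)).map (Equiv.addRight x0).toEmbedding then σ (e a) else 0 := by
        intro y
        by_cases hy : y ∈ (hbox (tw1 T m)).map (Equiv.addRight x0).toEmbedding
        · rw [if_pos hy]
          obtain ⟨b, hb, hu⟩ := h3 (fun i => -(T (dlg y) i - T a i))
            fun i => neg_mem ((lc_coset T m hx0 y).2 hy i)
          rw [Finset.sum_eq_single_of_mem b hb.1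
            fun c hc hne => if_neg fun h => hne (hu c ⟨hc, (e1 c y).1 h⟩), if_pos ((e1 b y).2 hb.2)]
        · rw [if_neg hy]
          refine Finset.sum_eq_zero fun b hb => if_neg fun h => hy ((lc_coset T m hx0 y).1 fun i => ?_)
          have := add_mem (AD_mono (nsmul_nonneg (PP_nonneg (F := F)) m) ((e1 b y).1 h i)) (h2 b hb i)
          rw [sub_add_cancel] at this
          exact neg_mem_iff.1 this
      rw [tsum_congr e2, tsum_eq_sum (s := (hbox (tw1 T m)).map (Equiv.addRight x0).toEmbedding)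
        fun y hy => if_neg hy, Finset.sum_congr rfl fun y hy => if_pos hy, Finset.sum_const,
        Finset.card_map, nsmul_eq_mul]
    · rw [if_neg hx, mul_zero]
      exact ENNReal.tsum_eq_zero.2 fun y => Finset.sum_eq_zero fun b _ =>
        if_neg fun h => hx ⟨_, h.symm⟩
  have main : (s.card : ℝ≥0∞) =
      (hbox (tw1 T m)).card * ∑' x, (if ∃ a, e a = x then σ x else 0) := by
    rw [← ENNReal.tsum_mul_left, ← tsum_congr key, ENNReal.tsum_comm]
    have : ∀ y : Fin n → F, ∑' x, ∑ b ∈ s, (if x = e (T.symm b + dlg y) then σ x else 0) =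
        ∑ b ∈ s, σ (e (T.symm b + dlg y)) := by
      intro y
      rw [Summable.tsum_finsetSum fun _ _ => ENNReal.summable]
      exact Finset.sum_congr rfl fun b _ => by
        rw [tsum_eq_single (e (T.symm b + dlg y)) fun x hx => if_neg hx, if_pos rfl]
    rw [tsum_congr this, Summable.tsum_finsetSum fun _ _ => ENNReal.summable,
      Finset.sum_congr rfl fun b _ => hσ (T.symm b), Finset.sum_const, nsmul_eq_mul, mul_one]
  have hc : (0 : ℝ) < (hbox (tw1 T m)).card := by rw [hm]; positivity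
  have hc' : ((hbox (tw1 T m)).card : ℝ≥0∞) ≠ 0 := by exact_mod_cast (Nat.cast_pos.1 hc).ne'
  have e3 : N⁻¹ = (s.card : ℝ) / (hbox (tw1 T m)).card := by
    rw [hs, hm]; field_simp
  rw [e3, ENNReal.ofReal_div_of_pos hc, ENNReal.ofReal_natCast, ENNReal.ofReal_natCast, main,
    mul_comm, ENNReal.mul_div_cancel_right hc' (ENNReal.natCast_ne_top _)]

/-- the case `n = 1`, `T = ϖ^D` -/
theorem mass_line (D : Div F) {X : Type} (e : A F → X) (he : ∀ a a', e a = e a' ↔ a - a' ∈ AD D)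
    (σ : X → ℝ≥0∞) (hσ : ∀ a, ∑' y : F, σ (e (a + toA F y)) = 1) :
    ∑' x, (if ∃ a, e a = x then σ x else 0) = ENNReal.ofReal (qq F ^ (-(deg D + cc F))) := by
  have hq : 0 < qq F := one_pos.trans one_lt_qq
  have hT : ∀ (a : Fin 1 → A F) (E : Div F) (i : Fin 1),
      ddg (fun _ => D) a i ∈ AD E ↔ a i ∈ AD (E + D) := fun a E i => by
    rw [ddg_apply, unit_mul_mem_AD, idiv_piD]
  have := mass_lattice (ddg fun _ : Fin 1 => D) (N := qq F ^ (deg D + cc F)) (by positivity) ?_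
    (fun a => e (a 0)) (fun a a' => ?_) σ fun a => ?_
  · rw [zpow_neg, ← this]
    refine tsum_congr fun x => if_congr ⟨?_, ?_⟩ rfl rfl
    · rintro ⟨a, rfl⟩; exact ⟨fun _ => a, rfl⟩
    · rintro ⟨a, rfl⟩; exact ⟨_, rfl⟩
  · refine eventually_atTop.2 ⟨(c0 F - deg D).toNat, fun m hm => ?_⟩
    have h1 : (1 : ℤ) ≤ pp F := by exact_mod_cast dg_pos (Cv.P : Place F)
    have h2 : deg (m • PP F + D) = m * pp F + deg D := by
      rw [map_add, map_nsmul, deg_PP, nsmul_eq_mul]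
    have h3 : (c0 F : ℤ) ≤ deg (m • PP F + D) := by
      have : (c0 F : ℤ) - deg D ≤ m := Int.toNat_le.1 hm
      have : (m : ℤ) ≤ m * pp F := le_mul_of_one_le_right (by positivity) h1
      omega
    have h4 : (hbox (tw1 (ddg fun _ : Fin 1 => D) m)).card = (box (m • PP F + D)).card := by
      refine Finset.card_equiv (Equiv.funUnique (Fin 1) F) fun x => ?_
      rw [lc_mem, mem_box, ← toA_mem_AD, Fin.forall_fin_one, hT]
      rfl
    rw [h4, card_box h3, h2, one_mul, ← zpow_natCast, ← zpow_add₀ hq.ne', Nat.cast_mul]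
    congr 1; ring
  · rw [he, Fin.forall_fin_one, ← mem_AD_zero, hT, zero_add]; rfl
  · rw [← hσ (a 0)]
    exact (Equiv.funUnique (Fin 1) F).tsum_eq fun y => σ (e (a 0 + toA F y))

end SelAvg.FF
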