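import Pool.Agent.H81Sel.LatC

/-! Row LATD: the Euler characteristic of a lattice. -/

namespace SelAvg.FF

open WeierstrassCurve WithZero Filter Topology
open scoped Classical ENNReal

variable {F : Type} [Field F] {n : ℕ} [Cv F]

/-- `q` to the Euler characteristic -/
noncomputable def NN (T : (Fin n → A F) ≃ₗ[A F] (Fin n → A F)) : ℝ := (card_tw1 T).choose

lemma NN_pos (T : (Fin n → A F) ≃ₗ[A F] (Fin n → A F)) : 0 < NN T := (card_tw1 T).choose_spec.1

lemma NN_spec (T : (Fin n → A F) ≃ₗ[A F] (Fin n → A F)) : ∀ᶠ m in atTop,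
    ((hbox (tw1 T m)).card : ℝ) = NN T * qq F ^ (n * m * pp F) := (card_tw1 T).choose_spec.2

lemma NN_eq {T : (Fin n → A F) ≃ₗ[A F] (Fin n → A F)} {N : ℝ} (h : ∀ᶠ m in atTop,
    ((hbox (tw1 T m)).card : ℝ) = N * qq F ^ (n * m * pp F)) : NN T = N := by
  obtain ⟨m, h1, h2⟩ := ((NN_spec T).and h).exists
  have hq : (0 : ℝ) < qq F := zero_lt_one.trans one_lt_qq
  exact mul_right_cancel₀ (pow_ne_zero _ hq.ne') (h1.symm.trans h2)

lemma latd_tw1 (T : (Fin n → A F) ≃ₗ[A F] (Fin n → A F)) (m : ℕ) (a : Fin n → A F) :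
    tw1 T m a = (piD (m • PP F) : A F) • T a := by
  funext i
  simp [tw1, wdg_apply]

lemma tw1_zero (T : (Fin n → A F) ≃ₗ[A F] (Fin n → A F)) : tw1 T 0 = T := by
  ext1 a
  rw [latd_tw1, zero_smul, piD_zero, Units.val_one, one_smul]

lemma tw1_tw1 (T : (Fin n → A F) ≃ₗ[A F] (Fin n → A F)) (m m' : ℕ) :
    tw1 (tw1 T m) m' = tw1 T (m + m') := by
  ext1 a
  rw [latd_tw1, latd_tw1, latd_tw1, add_smul, piD_add, smul_smul, Units.val_mul, mul_comm]

/-- the inequality of Riemann (`card_tw1_le`) -/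
theorem NN_le_card (T : (Fin n → A F) ≃ₗ[A F] (Fin n → A F)) : NN T ≤ (hbox T).card := by
  have h : ∀ m, (hbox (tw1 T m)).card ≤ Cv.q F ^ (n * m * pp F) * (hbox T).card := by
    intro m
    induction m with
    | zero => simp [tw1_zero]
    | succ m ih =>
      refine (card_tw1_le T m).trans ((Nat.mul_le_mul_left _ ih).trans (le_of_eq ?_))
      rw [← mul_assoc, ← pow_add]
      congr 2
      ring
  obtain ⟨m, hm⟩ := (NN_spec T).exists
  have hq : (0 : ℝ) < qq F ^ (n * m * pp F) := pow_pos (zero_lt_one.trans one_lt_qq) _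
  have h1 : ((hbox (tw1 T m)).card : ℝ) ≤ qq F ^ (n * m * pp F) * (hbox T).card := by
    exact_mod_cast h m
  rw [hm, mul_comm] at h1
  exact le_of_mul_le_mul_left h1 hq

/-- the sections only depend on the lattice -/
lemma NN_congr {T T' : (Fin n → A F) ≃ₗ[A F] (Fin n → A F)}
    (h : ∀ a, (∀ i, T a i ∈ Oh F) ↔ ∀ i, T' a i ∈ Oh F) : NN T = NN T' := by
  refine NN_eq ((NN_spec T').mono fun m hm => ?_)
  rw [← hm]
  congr 2
  ext x
  rw [mem_hbox, mem_hbox, latd_tw1, latd_tw1, ← map_smul, ← map_smul]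
  exact h _

lemma latd_zpow {ι : Type} {q : ℝ} (hq : q ≠ 0) (s : Finset ι) (f : ι → ℤ) :
    ∏ i ∈ s, q ^ f i = q ^ ∑ i ∈ s, f i := by
  induction s using Finset.induction_on with
  | empty => simp
  | insert a s ha ih => rw [Finset.prod_insert ha, Finset.sum_insert ha, ih, zpow_add₀ hq]

/-- triangular lattices (`card_tri` for `D i + m P`) -/
theorem NN_tri (T : (Fin n → A F) ≃ₗ[A F] (Fin n → A F)) (D : Fin n → Div F)
    (φ : Fin n → (Fin n → A F) →ₗ[A F] A F)
    (hφ : ∀ i a a', (∀ j, j < i → a j = a' j) → φ i a = φ i a')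
    (hT : ∀ a i, T a i = (piD (D i) : A F) * (a i + φ i a)) :
    NN T = qq F ^ (∑ i, deg (D i) + n * cc F) := by
  have hq : (0 : ℝ) < qq F := zero_lt_one.trans one_lt_qq
  have hp : (1 : ℤ) ≤ pp F := by exact_mod_cast dg_pos (Cv.P : Place F)
  have hd : ∀ (m : ℕ) i, deg (D i + m • PP F) = deg (D i) + m * pp F := fun m i => by
    rw [map_add, map_nsmul, deg_PP, nsmul_eq_mul]
  refine NN_eq ?_
  filter_upwards [eventually_all.2 fun i =>
    eventually_ge_atTop (c0 F + (deg (D i)).natAbs)] with m hm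
  have hD : ∀ i, (c0 F : ℤ) ≤ deg (D i + m • PP F) := fun i => by
    have h1 := hm i
    have h2 : (m : ℤ) ≤ m * pp F := le_mul_of_one_le_right (Int.natCast_nonneg m) hp
    rw [hd]
    omega
  rw [card_tri (fun i => D i + m • PP F) hD (fun i x => φ i (dlg x))
    (fun i x y hxy => hφ i _ _ fun j hj => congrArg (toA F) (hxy j hj)) _ fun x => ?_]
  · rw [Nat.cast_prod, Finset.prod_congr rfl fun i _ => card_box (hD i), ← zpow_natCast,
      ← zpow_add₀ hq.ne', latd_zpow hq.ne']
    congr 1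
    simp only [hd, Finset.sum_add_distrib, Finset.sum_const, Finset.card_univ, Fintype.card_fin,
      nsmul_eq_mul]
    push_cast
    ring
  · rw [mem_hbox]
    refine forall_congr' fun i => ?_
    rw [latd_tw1, Pi.smul_apply, smul_eq_mul, hT, ← mul_assoc, ← Units.val_mul, ← piD_add,
      ← mem_AD_zero, unit_mul_mem_AD, idiv_piD, zero_add, add_comm (m • PP F)]
    rfl

lemma latd_index {G H : Type} [AddCommGroup G] [AddCommGroup H] (f : G →+ H)
    {M M' : AddSubgroup H} (h : M ≤ M') (ha : ∀ y ∈ M', ∃ x, f x - y ∈ M) :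
    Nat.card (M'.comap f) = Nat.card (M.comap f) * M.relIndex M' := by
  have h1 : M' = (M'.comap f).map f ⊔ M := by
    refine le_antisymm (fun y hy => ?_) (sup_le (AddSubgroup.map_comap_le _ _) h)
    obtain ⟨x, hx⟩ := ha y hy
    rw [← sub_sub_cancel (f x) y]
    refine sub_mem (AddSubgroup.mem_sup_left ⟨x, ?_, rfl⟩) (AddSubgroup.mem_sup_right hx)
    have := add_mem (h hx) hy
    rwa [sub_add_cancel] at this
  have h2 : M.relIndex M' = (M.comap f).relIndex (M'.comap f) := by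
    rw [AddSubgroup.relIndex_comap, ← AddSubgroup.relIndex_sup_right ((M'.comap f).map f), ← h1]
  rw [h2, ← AddSubgroup.relIndex_bot_left, ← AddSubgroup.relIndex_bot_left,
    AddSubgroup.relIndex_mul_relIndex _ _ _ bot_le (AddSubgroup.comap_mono h)]

omit [Cv F] in
/-- the lattice of `S` -/
noncomputable def latdL (S : (Fin n → A F) ≃ₗ[A F] (Fin n → A F)) : AddSubgroup (Fin n → A F) where
  carrier := {a | ∀ i, S a i ∈ Oh F}
  add_mem' ha hb i := by rw [map_add]; exact add_mem (ha i) (hb i)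
  zero_mem' i := by rw [map_zero]; exact zero_mem _
  neg_mem' ha i := by rw [map_neg]; exact neg_mem (ha i)

/-- the map from the rational vectors -/
noncomputable def latdF (T : (Fin n → A F) ≃ₗ[A F] (Fin n → A F)) :
    (Fin n → F) →+ (Fin n → A F) :=
  AddMonoidHom.mk' (fun x => T (dlg x)) fun x y => by
    rw [← map_add]
    congr 1
    funext i
    exact map_add (toA F) _ _

lemma latd_card (T S : (Fin n → A F) ≃ₗ[A F] (Fin n → A F)) (m : ℕ) :
    Nat.card ((latdL S).comap (latdF (tw1 T m))) = (hbox (tw1 (T.trans S) m)).card := by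
  rw [← Nat.card_eq_finsetCard]
  refine Nat.card_congr (Equiv.subtypeEquivRight fun x => ?_)
  rw [mem_hbox, latd_tw1, LinearEquiv.trans_apply, ← map_smul, ← latd_tw1]
  rfl

lemma latd_main (T S : (Fin n → A F) ≃ₗ[A F] (Fin n → A F)) :
    NN (T.trans S) * (latdL S ⊓ latdL (.refl _ _)).relIndex (latdL (.refl _ _)) =
      NN T * (latdL S ⊓ latdL (.refl _ _)).relIndex (latdL S) ∧
    (latdL S ⊓ latdL (.refl _ _)).relIndex (latdL S) ≠ 0 := by
  have hq : (0 : ℝ) < qq F := zero_lt_one.trans one_lt_qq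
  have hp : (1 : ℤ) ≤ pp F := by exact_mod_cast dg_pos (Cv.P : Place F)
  obtain ⟨B, hB0, hB⟩ := exists_bound (S : (Fin n → A F) →ₗ[A F] (Fin n → A F))
  obtain ⟨b, hb⟩ := Lat.approx ⟨fun _ => 1, fun _ => one_pos, T, fun u a => by
    have e : ∀ a : Fin n → A F, wdg (fun _ => 1) u a = (u : A F) • a := fun a =>
      funext fun i => by simp [wdg_apply]
    rw [e, e, map_smul]⟩
  obtain ⟨m, ⟨h1, h2⟩, h3⟩ := (((NN_spec (T.trans S)).and (NN_spec T)).and
    (eventually_ge_atTop ((deg B).natAbs + b))).exists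
  have h4 : deg B + b ≤ m * pp F := by
    have h5 : (m : ℤ) ≤ m * pp F := le_mul_of_one_le_right (Int.natCast_nonneg m) hp
    omega
  have ha : ∀ y, ∃ x, latdF (tw1 T m) x - y ∈ latdL S ⊓ latdL (.refl _ _) := fun y => by
    obtain ⟨x, hx⟩ := hb m B hB0 h4 y
    refine ⟨x, fun i => ?_, fun i => mem_AD_zero.1 (AD_mono (neg_nonpos.2 hB0) (hx i))⟩
    have := hB (-B) (latdF (tw1 T m) x - y) hx i
    rwa [neg_add_cancel, mem_AD_zero] at this
  have e1 := latd_index (latdF (tw1 T m)) inf_le_left fun y _ => ha y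
  have e2 := latd_index (latdF (tw1 T m)) inf_le_right fun y _ => ha y
  rw [latd_card] at e1 e2
  rw [LinearEquiv.trans_refl] at e2
  refine ⟨mul_right_cancel₀ (pow_ne_zero (n * m * pp F) hq.ne') ?_, fun h0 => ?_⟩
  · rw [mul_right_comm, ← h1, mul_right_comm, ← h2, e1, e2]
    push_cast
    ring
  · rw [h0, mul_zero] at e1
    exact Finset.card_ne_zero_of_mem (zero_mem_hbox _) e1

/-- Multiplicativity.  Twisting `S` multiplies both sides by the same factor, so assume that `S`
maps `Oh^n` into itself.  For large `m` the sections of `tw1 (T.trans S) m` map onto the finite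
group `S⁻¹ Oh^n / Oh^n` (`Lat.approx`) with kernel the sections of `tw1 T m`; compare with
`T = refl`. -/
theorem NN_trans (T S : (Fin n → A F) ≃ₗ[A F] (Fin n → A F)) :
    NN (T.trans S) * qq F ^ (n * cc F) = NN T * NN S := by
  obtain ⟨h1, h0⟩ := latd_main T S
  obtain ⟨h2, -⟩ := latd_main (.refl _ _) S
  rw [LinearEquiv.refl_trans, NN_tri (.refl _ _) (fun _ => 0) (fun _ => 0) (fun _ _ _ _ => rfl)
    (fun a i => by simp)] at h2
  simp only [map_zero, Finset.sum_const_zero, zero_add] at h2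
  refine mul_right_cancel₀ (Nat.cast_ne_zero.2 h0) ?_
  linear_combination NN S * h1 - NN (T.trans S) * h2

end SelAvg.FF
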