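import Pool.Agent.H81Sel.Base

/-! Global function fields: places, divisors, Riemann's theorem, strong approximation. -/

namespace SelAvg

open WithZero Polynomial
open scoped IntermediateField

universe u

/-- `K` is a function field in one variable over the finite field `k` (not necessarily the full
constant field). -/
class GFF (k : Type*) (K : Type u) [Field k] [Field K] [Algebra k K] : Prop where
  fin : Finite k
  ex : ∃ t : K, Transcendental k t ∧ FiniteDimensional k⟮t⟯ K

variable {k : Type*} {K : Type u} [Field k] [Field K] [Algebra k K]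

/-- every valuation is trivial on the elements that are algebraic over a finite field -/
lemma val_alg [Finite k] {Γ : Type*} [LinearOrderedCommGroupWithZero Γ] (w : Valuation K Γ) {f : K}
    (hf : IsAlgebraic k f) (h0 : f ≠ 0) : w f = 1 := by
  have := IntermediateField.adjoin.finiteDimensional hf.isIntegral
  have : Finite k⟮f⟯ := Module.finite_of_finite k
  have h1 : IsOfFinOrder (IntermediateField.AdjoinSimple.gen k f) :=
    isOfFinOrder_iff_isUnit.2 (isUnit_iff_ne_zero.2 fun e => h0 (congrArg Subtype.val e))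
  obtain ⟨n, hn, e⟩ := isOfFinOrder_iff_pow_eq_one.1 h1
  have h2 : f ^ n = 1 := congrArg Subtype.val e
  have h3 : w f ^ n = 1 := by rw [← map_pow, h2, map_one]
  exact (pow_eq_one_iff_left hn.ne').1 h3

lemma val_const [Finite k] {Γ : Type*} [LinearOrderedCommGroupWithZero Γ] (w : Valuation K Γ)
    {c : k} (h : c ≠ 0) : w (algebraMap k K c) = 1 :=
  val_alg w (isAlgebraic_algebraMap c) (by simpa only [ne_eq, map_eq_zero] using h)

lemma val_const_le [Finite k] {Γ : Type*} [LinearOrderedCommGroupWithZero Γ] (w : Valuation K Γ)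
    (c : k) : w (algebraMap k K c) ≤ 1 := by
  by_cases h : c = 0
  · simp [h]
  · exact (val_const w h).le

namespace Place

@[ext] lemma ext {x y : Place K} (h : ∀ f, x.1 f = y.1 f) : x = y := Subtype.ext (Valuation.ext h)

variable (x : Place K)

/-- order of vanishing; `ord 0 = 0`. So `f` is regular at `x` iff `0 ≤ x.ord f`. -/
noncomputable def ord (f : K) : ℤ := - log (x.1 f)

/-- the residue field -/
abbrev Res : Type u := IsLocalRing.ResidueField x.1.valuationSubring

open Classical in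
/-- value at `x` (junk `0` at a pole). -/
noncomputable def val (f : K) : x.Res :=
  if h : x.1 f ≤ 1 then IsLocalRing.residue x.1.valuationSubring ⟨f, h⟩ else 0

variable {x} {f g : K}

lemma v_eq (hf : f ≠ 0) : x.1 f = exp (-x.ord f) := by
  simp only [ord, neg_neg, exp_log (x.1.ne_zero_iff.2 hf)]
@[simp] lemma ord_zero : x.ord 0 = 0 := by simp only [ord, map_zero, log_zero, neg_zero]
@[simp] lemma ord_one : x.ord 1 = 0 := by simp only [ord, map_one, log_one, neg_zero]
lemma v_le_exp {m : ℤ} : x.1 f ≤ exp m ↔ f = 0 ∨ 0 ≤ x.ord f + m := by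
  by_cases hf : f = 0
  · simp only [hf, map_zero, zero_le, ord_zero, zero_add, true_or]
  · rw [v_eq hf, exp_le_exp]; simp only [hf, false_or]; omega
lemma v_lt_exp {m : ℤ} : x.1 f < exp m ↔ f = 0 ∨ 0 < x.ord f + m := by
  by_cases hf : f = 0
  · simp only [hf, map_zero, exp_pos, ord_zero, zero_add, true_or]
  · rw [v_eq hf, exp_lt_exp]; simp only [hf, false_or]; omega
lemma v_le_one : x.1 f ≤ 1 ↔ 0 ≤ x.ord f := by
  rw [← exp_zero, v_le_exp]; by_cases hf : f = 0 <;> simp [hf]
lemma v_lt_one : x.1 f < 1 ↔ f = 0 ∨ 0 < x.ord f := by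
  rw [← exp_zero, v_lt_exp]; simp
lemma v_eq_one : x.1 f = 1 ↔ f ≠ 0 ∧ x.ord f = 0 := by
  by_cases hf : f = 0
  · simp only [hf, map_zero, zero_ne_one, ne_eq, not_true_eq_false, ord_zero, and_true]
  · rw [v_eq hf, exp_eq_one]; simp [hf]
lemma one_lt_v : 1 < x.1 f ↔ x.ord f < 0 := by rw [← not_le, v_le_one, not_le]
lemma ne_zero_of_ord (h : x.ord f ≠ 0) : f ≠ 0 := by rintro rfl; simp at h
lemma ord_mul (hf : f ≠ 0) (hg : g ≠ 0) : x.ord (f * g) = x.ord f + x.ord g := by
  simp only [ord, map_mul, log_mul (x.1.ne_zero_iff.2 hf) (x.1.ne_zero_iff.2 hg)]; ring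
@[simp] lemma ord_inv : x.ord f⁻¹ = -x.ord f := by simp only [ord, map_inv₀, log_inv, neg_neg]
@[simp] lemma ord_neg : x.ord (-f) = x.ord f := by simp only [ord, Valuation.map_neg]
lemma ord_div (hf : f ≠ 0) (hg : g ≠ 0) : x.ord (f / g) = x.ord f - x.ord g := by
  rw [div_eq_mul_inv, ord_mul hf (inv_ne_zero hg), ord_inv]; ring
@[simp] lemma ord_pow (n : ℕ) : x.ord (f ^ n) = n * x.ord f := by simp only [ord, map_pow, log_pow, Int.nsmul_eq_mul, mul_neg]
@[simp] lemma ord_zpow (n : ℤ) : x.ord (f ^ n) = n * x.ord f := by simp only [ord, map_zpow₀, log_zpow, Int.zsmul_eq_mul, mul_neg]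
lemma ord_prod {ι : Type*} (s : Finset ι) (F : ι → K) (h : ∀ i ∈ s, F i ≠ 0) :
    x.ord (∏ i ∈ s, F i) = ∑ i ∈ s, x.ord (F i) := by
  classical
  induction s using Finset.induction_on with
  | empty => simp
  | insert a s ha ih =>
    rw [Finset.prod_insert ha, Finset.sum_insert ha, ord_mul (h a (by simp))
      (Finset.prod_ne_zero_iff.2 fun i hi => h i (by simp [hi])),
      ih fun i hi => h i (by simp [hi])]
lemma v_const [Finite k] {c : k} (hc : c ≠ 0) : x.1 (algebraMap k K c) = 1 := val_const x.1 hc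
lemma ord_alg [Finite k] (hf : IsAlgebraic k f) : x.ord f = 0 := by
  by_cases h0 : f = 0
  · simp [h0]
  · simp [ord, val_alg x.1 hf h0]
@[simp] lemma ord_const [Finite k] (c : k) : x.ord (algebraMap k K c) = 0 :=
  ord_alg (isAlgebraic_algebraMap c)
lemma ord_smul [Finite k] {c : k} (hc : c ≠ 0) : x.ord (c • f) = x.ord f := by
  simp only [ord, Algebra.smul_def, map_mul, v_const hc, one_mul]
lemma transc [Finite k] (h : x.ord f ≠ 0) : Transcendental k f := fun e => h (ord_alg e)
lemma min_le_ord_add (h : f + g ≠ 0) (hf : f ≠ 0) (hg : g ≠ 0) :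
    min (x.ord f) (x.ord g) ≤ x.ord (f + g) := by
  have := x.1.map_add f g
  rw [v_eq h, v_eq hf, v_eq hg, le_max_iff, exp_le_exp, exp_le_exp] at this
  omega
lemma ord_add_of_lt (hf : f ≠ 0) (h : g = 0 ∨ x.ord f < x.ord g) :
    f + g ≠ 0 ∧ x.ord (f + g) = x.ord f := by
  have h1 : x.1 g < x.1 f := by
    rw [v_eq hf, v_lt_exp]; rcases h with h | h
    · exact .inl h
    · right; omega
  have h2 := x.1.map_add_eq_of_lt_left h1
  exact ⟨fun h0 => by rw [h0, map_zero] at h2; exact x.1.ne_zero_iff.2 hf h2.symm,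
    by simp only [ord, h2]⟩
lemma exists_ord (x : Place K) (m : ℤ) : ∃ t : K, t ≠ 0 ∧ x.ord t = m := by
  obtain ⟨t, ht⟩ := x.2 (exp (-1 : ℤ))
  have h1 : x.ord t = 1 := by simp [ord, ht]
  exact ⟨t ^ m, zpow_ne_zero _ (ne_zero_of_ord (x := x) (by omega)), by simp [h1]⟩
lemma ord_add_nonneg (hf : 0 ≤ x.ord f) (hg : 0 ≤ x.ord g) : 0 ≤ x.ord (f + g) :=
  v_le_one.1 (x.1.map_add_le (v_le_one.2 hf) (v_le_one.2 hg))
lemma ord_mul_nonneg (hf : 0 ≤ x.ord f) (hg : 0 ≤ x.ord g) : 0 ≤ x.ord (f * g) :=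
  v_le_one.1 (by rw [map_mul]; exact mul_le_one' (v_le_one.2 hf) (v_le_one.2 hg))
lemma val_of_le (h : x.1 f ≤ 1) :
    x.val f = IsLocalRing.residue x.1.valuationSubring ⟨f, h⟩ := by rw [val, dif_pos h]
lemma val_coe (a : x.1.valuationSubring) :
    x.val a = IsLocalRing.residue x.1.valuationSubring a := val_of_le a.2
lemma val_pole (h : x.ord f < 0) : x.val f = 0 := by
  rw [val, dif_neg (by rw [v_le_one]; omega)]
lemma val_add (hf : x.1 f ≤ 1) (hg : x.1 g ≤ 1) : x.val (f + g) = x.val f + x.val g := by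
  rw [val_of_le hf, val_of_le hg, val_of_le (x.1.map_add_le hf hg), ← map_add]; rfl
lemma val_sub (hf : x.1 f ≤ 1) (hg : x.1 g ≤ 1) : x.val (f - g) = x.val f - x.val g := by
  rw [val_of_le hf, val_of_le hg, val_of_le (x.1.map_sub_le hf hg), ← map_sub]; rfl
lemma val_mul (hf : x.1 f ≤ 1) (hg : x.1 g ≤ 1) : x.val (f * g) = x.val f * x.val g := by
  rw [val_of_le hf, val_of_le hg,
    val_of_le (f := f * g) (by rw [map_mul]; exact mul_le_one' hf hg)]
  exact map_mul (IsLocalRing.residue x.1.valuationSubring) ⟨f, hf⟩ ⟨g, hg⟩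
@[simp] lemma val_zero : x.val 0 = 0 := by
  rw [val_of_le (by simp)]; exact map_zero (IsLocalRing.residue x.1.valuationSubring)
@[simp] lemma val_one : x.val 1 = 1 := by
  rw [val_of_le (by simp)]; exact map_one (IsLocalRing.residue x.1.valuationSubring)
lemma val_pow (hf : x.1 f ≤ 1) (n : ℕ) : x.val (f ^ n) = x.val f ^ n := by
  induction n with
  | zero => simp
  | succ n ih => rw [pow_succ, val_mul (by rw [map_pow]; exact pow_le_one' hf _) hf, ih, pow_succ]
lemma val_sum {ι : Type*} (s : Finset ι) (F : ι → K) (h : ∀ i ∈ s, x.1 (F i) ≤ 1) :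
    x.val (∑ i ∈ s, F i) = ∑ i ∈ s, x.val (F i) := by
  classical
  induction s using Finset.induction_on with
  | empty => simp
  | insert a s ha ih =>
    rw [Finset.sum_insert ha, Finset.sum_insert ha, val_add (h a (by simp))
      (x.1.map_sum_le fun i hi => h i (by simp [hi])), ih fun i hi => h i (by simp [hi])]
lemma val_eq_zero (hf : x.1 f ≤ 1) : x.val f = 0 ↔ x.1 f < 1 := by
  rw [val_of_le hf, IsLocalRing.residue_eq_zero_iff, Valuation.mem_maximalIdeal_iff]
lemma val_surj (r : x.Res) : ∃ f : K, x.1 f ≤ 1 ∧ x.val f = r := by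
  obtain ⟨a, rfl⟩ := IsLocalRing.residue_surjective r
  exact ⟨a, a.2, val_coe a⟩

noncomputable instance algO [Finite k] (x : Place K) : Algebra k x.1.valuationSubring :=
  ((algebraMap k K).codRestrict x.1.valuationSubring (val_const_le x.1)).toAlgebra

lemma val_algebraMap [Finite k] (c : k) : x.val (algebraMap k K c) = algebraMap k x.Res c :=
  val_of_le (val_const_le x.1 c)
lemma val_smul [Finite k] (hf : x.1 f ≤ 1) (c : k) : x.val (c • f) = c • x.val f := by
  rw [Algebra.smul_def, Algebra.smul_def, val_mul (val_const_le x.1 c) hf, val_algebraMap]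

variable (k) in
/-- the degree of the place over `k` -/
noncomputable def pdeg [Finite k] (x : Place K) : ℕ := Module.finrank k x.Res

/-- A valuation with values in `ℤᵐ⁰` whose ring contains `O_x` and is proper is a power of `v_x`. -/
lemma exists_e (x : Place K) (w : Valuation K ℤᵐ⁰) (h : ∀ f, x.1 f ≤ 1 → w f ≤ 1)
    (hw : ∃ f, 1 < w f) : ∃ e : ℕ, 0 < e ∧ ∀ f, - log (w f) = e * x.ord f := by
  obtain ⟨t, ht0, ht⟩ := x.exists_ord 1
  have hu : ∀ u : K, u ≠ 0 → x.ord u = 0 → w u = 1 := fun u hu0 hu => by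
    refine le_antisymm (h u (v_le_one.2 hu.ge)) ?_
    have := h u⁻¹ (v_le_one.2 (by simp [hu]))
    rw [map_inv₀] at this
    exact (inv_le_one₀ (zero_lt_iff.2 (w.ne_zero_iff.2 hu0))).1 this
  have key : ∀ f, - log (w f) = - log (w t) * x.ord f := fun f => by
    by_cases hf : f = 0
    · simp only [hf, map_zero, log_zero, neg_zero, ord_zero, mul_zero]
    have h1 := hu (f / t ^ x.ord f) (div_ne_zero hf (zpow_ne_zero _ ht0))
      (by rw [ord_div hf (zpow_ne_zero _ ht0)]; simp [ht])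
    rw [map_div₀, div_eq_one_iff_eq (w.ne_zero_iff.2 (zpow_ne_zero _ ht0)), map_zpow₀] at h1
    rw [h1, log_zpow]; simp only [Int.zsmul_eq_mul, mul_comm, mul_neg]
  have h0 : 0 ≤ - log (w t) := by
    have := h t (v_le_one.2 (by omega))
    rw [← exp_zero, ← log_le_iff_le_exp (w.ne_zero_iff.2 ht0)] at this; omega
  obtain ⟨f, hf⟩ := hw
  refine ⟨(- log (w t)).toNat, ?_, fun f => by rw [Int.toNat_of_nonneg h0]; exact key f⟩
  have h2 := key f
  rw [← exp_zero, ← lt_log_iff_exp_lt (zero_lt_one.trans hf).ne'] at hf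
  rcases h0.eq_or_lt with h3 | h3
  · rw [← h3] at h2; omega
  · omega
lemma ext_ord {x y : Place K} (h : ∀ f, x.ord f = y.ord f) : x = y := by
  ext1 f; by_cases hf : f = 0
  · simp only [hf, map_zero]
  · rw [v_eq hf, v_eq hf, h]
/-- a place is determined by its ring; the rings are maximal. -/
lemma ext_le {x y : Place K} (h : ∀ f, 0 ≤ x.ord f → 0 ≤ y.ord f) : x = y := by
  obtain ⟨s, -, hs⟩ := y.exists_ord (-1)
  obtain ⟨e, he, H⟩ := x.exists_e y.1 (fun f hf => v_le_one.2 (h f (v_le_one.1 hf)))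
    ⟨s, one_lt_v.2 (by omega)⟩
  have h1 : (e : ℤ) * -x.ord s = 1 := by have := H s; rw [ord] at hs; linarith only [hs, this]
  have h2 : (e : ℤ) = 1 := Int.eq_one_of_mul_eq_one_right (by omega) h1
  exact ext_ord fun f => by have := H f; rw [h2, one_mul] at this; exact this.symm

end Place

namespace RR

lemma fin_adjoin [GFF k K] {y : K} (hy : Transcendental k y) : FiniteDimensional k⟮y⟯ K := by
  obtain ⟨x, hx, hfin⟩ := GFF.ex (k := k) (K := K)
  have h1 : IsAlgebraic k⟮y⟯ x :=
    IntermediateField.isAlgebraic_adjoin_iff.mpr (.adjoin_singleton hx hy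
      (IntermediateField.isAlgebraic_adjoin_iff.mp (Algebra.IsAlgebraic.isAlgebraic y)))
  let Fyx := IntermediateField.restrictScalars k k⟮y⟯⟮x⟯
  let Fxy := IntermediateField.restrictScalars k k⟮x⟯⟮y⟯
  let _ : Algebra k⟮y⟯ Fyx := k⟮y⟯⟮x⟯.algebra
  let _ : Module k⟮y⟯ Fyx := Algebra.toModule
  let _ : SMul k⟮y⟯ Fyx := Algebra.toSMul
  let _ : Algebra k⟮x⟯ Fxy := k⟮x⟯⟮y⟯.algebra
  let _ : Module k⟮x⟯ Fxy := Algebra.toModule
  let _ : SMul k⟮x⟯ Fxy := Algebra.toSMul
  have : FiniteDimensional k⟮y⟯ Fyx :=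
    IntermediateField.adjoin.finiteDimensional (isAlgebraic_iff_isIntegral.mp h1)
  have : FiniteDimensional Fyx K := by
    unfold Fyx
    rw [IntermediateField.adjoin_simple_comm]
    have : IsScalarTower k⟮x⟯ Fxy K := IntermediateField.isScalarTower_mid' k⟮x⟯⟮y⟯
    exact .right k⟮x⟯ Fxy K
  have : IsScalarTower k⟮y⟯ Fyx K := IntermediateField.isScalarTower_mid' k⟮y⟯⟮x⟯
  exact .trans k⟮y⟯ Fyx K

/-- a relation with polynomial coefficients can be made primitive at `0` -/
lemma prim {ι : Type*} [Fintype ι] {t : K} (ht : t ≠ 0) (z : ι → K) : ∀ (n : ℕ) (p : ι → k[X])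
    (i : ι), p i ≠ 0 → (p i).natDegree = n → ∑ j, aeval t (p j) * z j = 0 →
    ∃ q : ι → k[X], (∃ j, (q j).coeff 0 ≠ 0) ∧ ∑ j, aeval t (q j) * z j = 0 := by
  intro n
  induction n using Nat.strong_induction_on with
  | _ n ih =>
  intro p i hi hn h
  by_cases h0 : ∃ j, (p j).coeff 0 ≠ 0
  · exact ⟨p, h0, h⟩
  push Not at h0
  have h1 : ∀ j, X * divX (p j) = p j := fun j => by
    have := X_mul_divX_add (p j); rwa [h0 j, C_0, add_zero] at this
  have h2 : divX (p i) ≠ 0 := fun e => hi (by rw [← h1 i, e, mul_zero])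
  refine ih _ ?_ (fun j => divX (p j)) i h2 rfl ?_
  · rw [← hn, ← h1 i, natDegree_X_mul h2, h1 i]; omega
  · refine (mul_eq_zero.1 ?_).resolve_left ht
    rw [Finset.mul_sum, ← h]
    refine Finset.sum_congr rfl fun j _ => ?_
    conv_rhs => rw [← h1 j]
    rw [map_mul, aeval_X, mul_assoc]

lemma poly_rel {ι : Type*} [Fintype ι] {t : K} (z : ι → K) (h : ¬ LinearIndependent k⟮t⟯ z) :
    ∃ (p : ι → k[X]) (i : ι), p i ≠ 0 ∧ ∑ j, aeval t (p j) * z j = 0 := by
  classical
  obtain ⟨g, hg, i, hi⟩ := Fintype.not_linearIndependent_iff.1 h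
  have h1 : ∀ j, ∃ r s : k[X], aeval t s ≠ 0 ∧ (g j : K) * aeval t s = aeval t r := fun j => by
    obtain ⟨r, s, e⟩ := (IntermediateField.mem_adjoin_simple_iff k (g j : K)).1 (g j).2
    by_cases hs : aeval t s = 0
    · exact ⟨0, 1, by simp, by simp [e, hs]⟩
    · exact ⟨r, s, hs, by rw [e, div_mul_cancel₀ _ hs]⟩
  choose r s hs e using h1
  have h2 : ∀ j, aeval t (r j * ∏ l ∈ Finset.univ.erase j, s l) = (∏ l, aeval t (s l)) * g j :=
    fun j => by
    rw [map_mul, map_prod, ← e j, ← Finset.mul_prod_erase _ _ (Finset.mem_univ j)]; ring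
  refine ⟨fun j => r j * ∏ l ∈ Finset.univ.erase j, s l, i, fun h0 => ?_, ?_⟩
  · have := h2 i
    rw [show r i * ∏ l ∈ Finset.univ.erase i, s l = 0 from h0, map_zero] at this
    exact mul_ne_zero (Finset.prod_ne_zero_iff.2 fun l _ => hs l)
      (fun h => hi (Subtype.ext h)) this.symm
  · simp only [h2, mul_assoc, ← Finset.mul_sum]
    have : ∑ j, (g j : K) * z j = 0 := hg
    rw [this, mul_zero]

/-- the basic tool: more than `[K : k(t)]` elements are dependent over `k` modulo `t` -/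
lemma dep {ι : Type*} [Fintype ι] {t : K} (ht : t ≠ 0) [FiniteDimensional k⟮t⟯ K] (z : ι → K)
    (h : Module.finrank k⟮t⟯ K < Fintype.card ι) : ∃ (c : ι → k) (q : ι → k[X]), (∃ j, c j ≠ 0) ∧
      ∑ j, algebraMap k K (c j) * z j = t * ∑ j, aeval t (q j) * z j := by
  obtain ⟨p, i, hi, hp⟩ := poly_rel (k := k) (t := t) z fun hl =>
    absurd hl.fintype_card_le_finrank (by omega)
  obtain ⟨q, h0, hq⟩ := prim ht z _ p i hi rfl hp
  refine ⟨fun j => (q j).coeff 0, fun j => -divX (q j), h0, ?_⟩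
  rw [← sub_eq_zero, Finset.mul_sum, ← Finset.sum_sub_distrib, ← hq]
  refine Finset.sum_congr rfl fun j _ => ?_
  conv_rhs => rw [← X_mul_divX_add (q j)]
  simp only [map_neg, map_add, map_mul, aeval_X, aeval_C]; ring

section val
variable {Γ : Type*} [LinearOrderedCommGroupWithZero Γ] (w : Valuation K Γ)

lemma w_aeval [Finite k] {t : K} (ht : w t ≤ 1) (q : k[X]) : w (aeval t q) ≤ 1 := by
  rw [aeval_eq_sum_range]
  refine w.map_sum_le fun i _ => ?_
  rw [Algebra.smul_def, map_mul, map_pow]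
  exact mul_le_one' (val_const_le w _) (pow_le_one' ht _)

lemma w_dep [Finite k] {ι : Type*} [Fintype ι] {t : K} (ht : w t ≤ 1) (z : ι → K)
    (hz : ∀ j, w (z j) ≤ 1) (q : ι → k[X]) : w (t * ∑ j, aeval t (q j) * z j) ≤ w t := by
  rw [map_mul]
  refine mul_le_of_le_one_right' (w.map_sum_le fun j _ => ?_)
  rw [map_mul]
  exact mul_le_one' (w_aeval w ht _) (hz j)

variable [GFF k K]

lemma fin_of_lt {t : K} (h0 : t ≠ 0) (ht : w t < 1) : FiniteDimensional k⟮t⟯ K :=
  have := GFF.fin (k := k) (K := K)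
  fin_adjoin fun e => ht.ne (val_alg w e h0)

variable (k) in
include k in
lemma w_wf (hs : Function.Surjective w) : Set.IsWF {x : Γ | 1 ≤ x} := by
  classical
  have := GFF.fin (k := k) (K := K)
  rw [Set.isWF_iff_no_descending_seq]
  intro a ha h1
  choose f hf using fun n => hs (a n)⁻¹
  have h2 : ∀ n, 0 < a n := fun n => zero_lt_one.trans_le (h1 n)
  have h3 : StrictMono fun n => w (f n) := fun m n h => by
    simp only [hf]; exact (inv_lt_inv₀ (h2 m) (h2 n)).2 (ha h)
  have h4 : ∀ n, w (f n) ≤ 1 := fun n => by rw [hf]; exact inv_le_one_of_one_le₀ (h1 n)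
  have h0 : f 0 ≠ 0 := fun e => by
    have := hf 0; rw [e, map_zero] at this; exact (inv_pos.2 (h2 0)).ne this
  have ht : w (f 0) < 1 := (h3 zero_lt_one).trans_le (h4 1)
  have := fin_of_lt (k := k) w h0 ht
  obtain ⟨c, q, hj, e⟩ := dep (k := k) h0
    (fun i : Fin (Module.finrank k⟮f 0⟯ K + 1) => f (i + 1)) (by simp)
  have h5 := w_dep w ht.le _ (fun i : Fin (Module.finrank k⟮f 0⟯ K + 1) => h4 (i + 1)) q
  rw [← e] at h5
  obtain ⟨j, hj1, hj2⟩ := Finset.exists_max_image (Finset.univ.filter fun j => c j ≠ 0) id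
    (by obtain ⟨j, hj⟩ := hj; exact ⟨j, by simpa using hj⟩)
  have hcj : c j ≠ 0 := by simpa using hj1
  rw [w.map_sum_eq_of_lt (Finset.mem_univ j) fun i hi => ?_, map_mul, val_const w hcj,
    one_mul] at h5
  · exact (h3 (Nat.succ_pos j)).not_ge h5
  · rw [map_mul, map_mul, val_const w hcj, one_mul]
    by_cases hci : c i = 0
    · rw [hci, map_zero, map_zero, zero_mul]
      exact zero_le.trans_lt (h3 (Nat.succ_pos j))
    · rw [val_const w hci, one_mul]
      have h6 : i ≤ j := hj2 i (by simpa using hci)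
      have h7 : i ≠ j := by simpa using hi
      exact h3 (Nat.succ_lt_succ (Fin.lt_def.1 (lt_of_le_of_ne h6 h7)))

end val

variable [GFF k K]

variable (k) in
include k in
/-- every proper valuation subring is the ring of a place -/
theorem place_of_valuationSubring (B : ValuationSubring K)
    {t : K} (h0 : t ≠ 0) (ht : t ∈ B.nonunits) :
    ∃ x : Place K, (∀ f, 0 ≤ x.ord f ↔ f ∈ B) ∧ ∀ f, x.1 f < 1 ↔ f ∈ B.nonunits := by
  have ht' : B.valuation t < 1 := (B.mem_nonunits_iff).1 ht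
  have : Nontrivial B.ValueGroupˣ :=
    ⟨⟨Units.mk0 _ (B.valuation.ne_zero_iff.2 h0), 1, fun e => ht'.ne (congrArg Units.val e)⟩⟩
  obtain ⟨e⟩ := (LinearOrderedCommGroupWithZero.wellFoundedOn_setOfPred_le_lt_iff_nonempty_discrete_of_ne_zero
    (G₀ := B.ValueGroup) one_ne_zero).1 (w_wf k B.valuation B.valuation_surjective)
  let v : Valuation K ℤᵐ⁰ := B.valuation.map e.toMulEquiv.toMonoidWithZeroHom e.toOrderIso.monotone
  have hv : ∀ f, v f = e (B.valuation f) := fun _ => rfl
  have h1 : ∀ f, v f ≤ 1 ↔ B.valuation f ≤ 1 := fun f => by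
    rw [hv, ← map_one e]; exact e.toOrderIso.le_iff_le
  have h2 : ∀ f, v f < 1 ↔ B.valuation f < 1 := fun f => by
    rw [hv, ← map_one e]; exact e.toOrderIso.lt_iff_lt
  refine ⟨⟨v, fun y => ?_⟩, fun f => ?_, fun f => ?_⟩
  · obtain ⟨s, hs⟩ := B.valuation_surjective (e.symm y)
    exact ⟨s, by rw [hv, hs]; exact e.apply_symm_apply _⟩
  · rw [← Place.v_le_one]; exact (h1 f).trans (B.valuation_le_one_iff f)
  · exact (h2 f).trans B.mem_nonunits_iff.symm

/-- a place that dominates a proper nonzero ideal of a subalgebra -/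
theorem exists_place_dom (R : Subalgebra k K) (I : Ideal R) (hI : I ≠ ⊤) (h0 : I ≠ ⊥) :
    ∃ x : Place K, (∀ f ∈ R, 0 ≤ x.ord f) ∧ ∀ f : R, f ∈ I → x.1 f < 1 := by
  obtain ⟨B, h1, h2⟩ := Ideal.image_subset_nonunits_valuationSubring (A := R.toSubring) I hI
  obtain ⟨t, ht, ht0⟩ := I.ne_bot_iff.1 h0
  obtain ⟨x, hx, hx'⟩ := place_of_valuationSubring k B
    (t := t) (fun e => ht0 (Subtype.ext e)) (h2 ⟨t, ht, rfl⟩)
  exact ⟨x, fun f hf => (hx f).2 (h1 hf), fun f hf => (hx' f).2 (h2 ⟨f, hf, rfl⟩)⟩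

theorem exists_zero {f : K} (ht : Transcendental k f) : ∃ x : Place K, 0 < x.ord f := by
  have h0 : f ≠ 0 := fun e => ht (e ▸ isAlgebraic_zero)
  have hm : f ∈ Algebra.adjoin k {f} := Algebra.self_mem_adjoin_singleton k f
  obtain ⟨x, -, hx⟩ := exists_place_dom (Algebra.adjoin k {f}) (Ideal.span {⟨f, hm⟩}) (by
    rw [Ne, Ideal.span_singleton_eq_top, isUnit_iff_exists_inv]
    rintro ⟨⟨b, hb⟩, e⟩
    rw [Algebra.adjoin_singleton_eq_range_aeval] at hb
    obtain ⟨p, rfl⟩ := hb
    have e1 : f * aeval f p = 1 := congrArg Subtype.val e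
    refine ht ⟨X * p - 1, fun e2 => ?_, by simp [e1]⟩
    simpa using congrArg (fun p => p.coeff 0) e2) (by
    rw [Ne, Ideal.span_singleton_eq_bot]; exact fun e => h0 (congrArg Subtype.val e))
  exact ⟨x, (Place.v_lt_one.1 (hx _ (Ideal.mem_span_singleton_self _))).resolve_left h0⟩

theorem exists_pole {f : K} (h : Transcendental k f) : ∃ x : Place K, x.ord f < 0 := by
  obtain ⟨x, hx⟩ := exists_zero (k := k) (f := f⁻¹) fun e => h (IsAlgebraic.inv_iff.1 e)
  exact ⟨x, by simpa using hx⟩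

theorem alg_of_reg {f : K} (h : ∀ x : Place K, 0 ≤ x.ord f) : IsAlgebraic k f := by
  by_contra hn
  obtain ⟨x, hx⟩ := exists_pole hn
  exact (h x).not_gt hx

end RR

namespace RR

lemma sep2 {x y : Place K} (h : x ≠ y) : ∃ u : K, 0 < x.ord u ∧ y.ord u < 0 := by
  have h1 : ∀ {x y : Place K}, x ≠ y → ∃ u : K, 0 ≤ x.ord u ∧ y.ord u < 0 := fun h => by
    by_contra hn
    push Not at hn
    exact h (Place.ext_le hn)
  obtain ⟨a, a1, a2⟩ := h1 h
  obtain ⟨b, b1, b2⟩ := h1 h.symm
  have ha := Place.ne_zero_of_ord a2.ne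
  have hb := Place.ne_zero_of_ord b2.ne
  exact ⟨a / b, by rw [Place.ord_div ha hb]; omega, by rw [Place.ord_div ha hb]; omega⟩

lemma sep (x : Place K) (S : Finset (Place K)) (hx : x ∉ S) :
    ∃ u : K, 0 < x.ord u ∧ ∀ y ∈ S, y.ord u < 0 := by
  classical
  induction S using Finset.induction_on with
  | empty => obtain ⟨t, -, ht⟩ := x.exists_ord 1; exact ⟨t, by omega, by simp⟩
  | insert y S hy ih =>
    obtain ⟨u, u1, u2⟩ := ih fun h => hx (Finset.mem_insert_of_mem h)
    by_cases h : y.ord u < 0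
    · exact ⟨u, u1, fun z hz => (Finset.mem_insert.1 hz).elim (fun e => e ▸ h) (u2 z)⟩
    obtain ⟨z, z1, z2⟩ := sep2 (x := x) (y := y) fun e => hx (e ▸ Finset.mem_insert_self _ _)
    have hu := Place.ne_zero_of_ord u1.ne'
    have hz := Place.ne_zero_of_ord z1.ne'
    obtain ⟨r, hr⟩ : ∃ r : ℕ, 0 < r ∧ ∀ p ∈ S, -p.ord u < r := by
      refine ⟨∑ p ∈ S, (p.ord u).natAbs + 1, by omega, fun p hp => ?_⟩
      have := Finset.single_le_sum (f := fun p : Place K => (p.ord u).natAbs)
        (fun _ _ => Nat.zero_le _) hp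
      omega
    have hzr : z ^ r ≠ 0 := pow_ne_zero _ hz
    have hr0 : (0 : ℤ) < r := by exact_mod_cast hr.1
    have hy' : y.ord (z ^ r + u) = y.ord (z ^ r) ∧ y.ord (z ^ r) < 0 := by
      have : y.ord (z ^ r) < 0 := by rw [Place.ord_pow]; nlinarith only [z2, hr]
      exact ⟨(Place.ord_add_of_lt hzr (.inr (by omega))).2, this⟩
    refine ⟨z ^ r + u, ?_, fun p hp => ?_⟩
    · have h1 := Place.min_le_ord_add (x := x) (Place.ne_zero_of_ord (x := y) (by omega)) hzr hu
      have : 0 < x.ord (z ^ r) := by rw [Place.ord_pow]; positivity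
      omega
    · rcases Finset.mem_insert.1 hp with rfl | hp
      · omega
      have h1 := u2 p hp
      have h2 := hr.2 p hp
      by_cases h3 : 0 ≤ p.ord z
      · have : 0 ≤ p.ord (z ^ r) := by rw [Place.ord_pow]; positivity
        rw [add_comm, (Place.ord_add_of_lt hu (.inr (by omega))).2]; exact h1
      · have : p.ord (z ^ r) ≤ -r := by rw [Place.ord_pow]; nlinarith only [h3]
        rw [(Place.ord_add_of_lt hzr (.inr (by omega))).2]; omega

lemma bump (x : Place K) (S : Finset (Place K)) (hx : x ∉ S) (s : ℕ) :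
    ∃ b : K, x.1 (b - 1) ≤ exp (-s : ℤ) ∧ ∀ y ∈ S, y.1 b ≤ exp (-s : ℤ) := by
  obtain ⟨u, u1, u2⟩ := sep x S hx
  have hu := Place.ne_zero_of_ord u1.ne'
  have hp : u ^ (s + 1) ≠ 0 := pow_ne_zero _ hu
  have h1 : (s : ℤ) < x.ord (u ^ (s + 1)) := by rw [Place.ord_pow]; push_cast; nlinarith only [u1]
  obtain ⟨h2, h3⟩ := Place.ord_add_of_lt (x := x) (f := 1) (g := u ^ (s + 1)) one_ne_zero
    (.inr (by rw [Place.ord_one]; omega))
  refine ⟨(1 + u ^ (s + 1))⁻¹, ?_, fun y hy => ?_⟩
  · have e : (1 + u ^ (s + 1))⁻¹ - 1 = -(u ^ (s + 1) / (1 + u ^ (s + 1))) := by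
      field_simp; ring
    rw [e, Place.v_le_exp, Place.ord_neg, Place.ord_div hp h2, h3, Place.ord_one]
    right; omega
  · have h4 : y.ord (u ^ (s + 1)) < -s := by
      have := u2 y hy
      rw [Place.ord_pow]; push_cast; nlinarith only [this]
    rw [Place.v_le_exp, Place.ord_inv, add_comm 1,
      (Place.ord_add_of_lt hp (.inr (by rw [Place.ord_one]; omega))).2]
    right; omega

/-- weak approximation -/
theorem approx_v (S : Finset (Place K)) (a : Place K → K) (m : Place K → ℤ) :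
    ∃ f : K, ∀ x ∈ S, x.1 (f - a x) < exp (m x) := by
  classical
  obtain ⟨s, hs⟩ : ∃ s : ℕ, ∀ x ∈ S, ∀ y ∈ S, exp (-s : ℤ) * x.1 (a y) < exp (m x) := by
    refine ⟨∑ x ∈ S, ∑ y ∈ S, (x.ord (a y) + m x).natAbs + 1, fun x hx y hy => ?_⟩
    have h1 := Finset.single_le_sum (f := fun y => (x.ord (a y) + m x).natAbs)
      (fun _ _ => Nat.zero_le _) hy
    have h2 := Finset.single_le_sum (f := fun x : Place K => ∑ y ∈ S,
      (x.ord (a y) + m x).natAbs) (fun _ _ => Nat.zero_le _) hx
    by_cases h0 : a y = 0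
    · simp only [Nat.cast_add, Nat.cast_sum, Nat.cast_natAbs, Int.cast_abs, Int.cast_add, Int.cast_eq, Nat.cast_one, neg_add_rev, Int.reduceNeg, exp_add, exp_neg, h0, map_zero, mul_zero, exp_pos]
    · rw [Place.v_eq h0, ← exp_add, exp_lt_exp]; omega
  choose b b1 b2 using fun x : Place K => bump x (S.erase x) (Finset.notMem_erase x S) s
  refine ⟨∑ y ∈ S, b y * a y, fun x hx => ?_⟩
  rw [← Finset.add_sum_erase _ _ hx, add_sub_right_comm, ← sub_one_mul]
  refine x.1.map_add_lt ?_ (x.1.map_sum_lt exp_ne_zero fun y hy => ?_) <;> rw [map_mul]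
  · exact (mul_le_mul_left (b1 x) _).trans_lt (hs x hx x hx)
  · have := Finset.mem_erase.1 hy
    exact (mul_le_mul_left (b2 y x (Finset.mem_erase.2 ⟨this.1.symm, hx⟩)) _).trans_lt
      (hs x hx y this.2)

theorem approx_ord (S : Finset (Place K)) (m : Place K → ℤ) :
    ∃ f : K, f ≠ 0 ∧ ∀ x ∈ S, x.ord f = m x := by
  rcases S.eq_empty_or_nonempty with rfl | ⟨x0, hx0⟩
  · exact ⟨1, one_ne_zero, by simp⟩
  choose a a0 ha using fun x : Place K => x.exists_ord (m x)
  obtain ⟨f, hf⟩ := approx_v S a fun x => -m x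
  have h : ∀ x ∈ S, f ≠ 0 ∧ x.ord f = m x := fun x hx => by
    have h1 := Place.ord_add_of_lt (x := x) (g := f - a x) (a0 x)
      ((Place.v_lt_exp.1 (hf x hx)).imp_right fun h => by rw [ha]; omega)
    rwa [add_sub_cancel, ha] at h1
  exact ⟨f, (h x0 hx0).1, fun x hx => (h x hx).2⟩

variable [Finite k]

/-- more than `[K : k(t)]` residues at a zero of `t` are dependent -/
lemma res_finite {x : Place K} {t : K} [FiniteDimensional k⟮t⟯ K] (ht : 0 < x.ord t) :
    FiniteDimensional k x.Res := by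
  have h0 := Place.ne_zero_of_ord ht.ne'
  refine Module.rank_lt_aleph0_iff.1 ((rank_le (n := Module.finrank k⟮t⟯ K) fun s hs => ?_).trans_lt
    (Cardinal.natCast_lt_aleph0))
  by_contra hn
  choose z z1 hz using fun i : s => x.val_surj i.1
  obtain ⟨c, q, ⟨j, hj⟩, e⟩ := dep (k := k) h0 z (by rw [Fintype.card_coe]; omega)
  have h5 := (w_dep x.1 (Place.v_le_one.2 ht.le) z z1 q).trans_lt (Place.v_lt_one.2 (.inr ht))
  rw [← e] at h5
  have h6 := (Place.val_eq_zero h5.le).2 h5
  rw [Place.val_sum _ _ fun i _ => by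
    rw [map_mul]; exact mul_le_one' (val_const_le _ _) (z1 i)] at h6
  refine hj (Fintype.linearIndependent_iff.1 hs c ?_ j)
  rw [← h6]
  exact Finset.sum_congr rfl fun i _ => by rw [← Algebra.smul_def, Place.val_smul (z1 i), hz]

/-- lifts of independent residues at `x` that are regular on `S` -/
lemma exists_lifts (S : Finset (Place K)) {x : Place K} (hx : x ∈ S) :
    ∃ w : Fin (x.pdeg k) → K, (∀ j, ∀ y ∈ S, y.1 (w j) ≤ 1) ∧
      ∀ c : Fin (x.pdeg k) → k, (∃ j, c j ≠ 0) → x.1 (∑ j, algebraMap k K (c j) * w j) = 1 := by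
  classical
  obtain ⟨b, hb⟩ := exists_linearIndependent_of_le_finrank (R := k) (M := x.Res)
    (n := x.pdeg k) le_rfl
  choose z z1 hz using fun j => x.val_surj (b j)
  choose w hw using fun j => approx_v S (fun y => if y = x then z j else 0) fun _ => 0
  have h1 : ∀ j, x.1 (w j - z j) < 1 := fun j => by simpa using hw j x hx
  have h2 : ∀ j, x.1 (w j) ≤ 1 := fun j => by
    simpa using x.1.map_add_le (h1 j).le (z1 j)
  have h3 : ∀ j, x.val (w j) = b j := fun j => by
    rw [← hz, ← sub_eq_zero, ← Place.val_sub (h2 j) (z1 j), Place.val_eq_zero (h1 j).le]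
    exact h1 j
  refine ⟨w, fun j y hy => ?_, fun c ⟨j, hj⟩ => ?_⟩
  · by_cases h : y = x
    · exact h ▸ h2 j
    · exact le_of_lt (by simpa [h] using hw j y hy)
  · have h4 : ∀ i, x.1 (algebraMap k K (c i) * w i) ≤ 1 := fun i => by
      rw [map_mul]; exact mul_le_one' (val_const_le _ _) (h2 i)
    have h5 := x.1.map_sum_le (s := Finset.univ) fun i _ => h4 i
    refine h5.eq_of_not_lt fun h6 => hj (Fintype.linearIndependent_iff.1 hb c ?_ j)
    rw [← (Place.val_eq_zero h5).2 h6, Place.val_sum _ _ fun i _ => h4 i]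
    exact Finset.sum_congr rfl fun i _ => by rw [← Algebra.smul_def, Place.val_smul (h2 i), h3]

/-- the zeros of `t`, counted with multiplicity and degree, are at most `[K : k(t)]` -/
theorem sum_ord_le {t : K} [FiniteDimensional k⟮t⟯ K] (S : Finset (Place K))
    (hS : ∀ x ∈ S, 0 < x.ord t) : ∑ x ∈ S, x.ord t * x.pdeg k ≤ Module.finrank k⟮t⟯ K := by
  classical
  rcases S.eq_empty_or_nonempty with rfl | ⟨x0, hx0⟩
  · simp only [Finset.sum_empty, Nat.cast_nonneg]
  have h0 := Place.ne_zero_of_ord (hS x0 hx0).ne'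
  by_contra hn
  choose z z0 hz using fun i : (Σ x : S, Fin (x.1.ord t).toNat) =>
    approx_ord S fun y => if y = i.1.1 then (i.2 : ℕ) else y.ord t
  choose w w1 hw using fun x : S => exists_lifts (k := k) S x.2
  have hz1 : ∀ i, ∀ x ∈ S, x.1 (z i) ≤ 1 := fun i x hx => by
    have := hS x hx
    rw [Place.v_le_one, hz i x hx]; split_ifs <;> omega
  obtain ⟨c, q, hj, e⟩ := dep (k := k) h0
    (fun p : (Σ i : (Σ x : S, Fin (x.1.ord t).toNat), Fin (i.1.1.pdeg k)) => z p.1 * w p.1.1 p.2) (by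
    have : ((Fintype.card (Σ i : (Σ x : S, Fin (x.1.ord t).toNat), Fin (i.1.1.pdeg k)) : ℕ) : ℤ) =
        ∑ x ∈ S, x.ord t * x.pdeg k := by
      rw [Fintype.card_sigma, Fintype.sum_sigma, ← Finset.sum_coe_sort S]
      push_cast
      exact Finset.sum_congr rfl fun x _ => by
        simp only [Fintype.card_fin, Finset.sum_const, Finset.card_univ, nsmul_eq_mul,
          Int.toNat_of_nonneg (hS x x.2).le]
    omega)
  obtain ⟨W, hW⟩ : ∃ W : (Σ x : S, Fin (x.1.ord t).toNat) → K,
      ∀ i, W i = ∑ j, algebraMap k K (c ⟨i, j⟩) * w i.1 j := ⟨_, fun _ => rfl⟩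
  have e2 : ∑ p : (Σ i : (Σ x : S, Fin (x.1.ord t).toNat), Fin (i.1.1.pdeg k)),
      algebraMap k K (c p) * (z p.1 * w p.1.1 p.2) = ∑ i, W i * z i := by
    rw [Fintype.sum_sigma]
    refine Finset.sum_congr rfl fun i _ => ?_
    rw [hW, Finset.sum_mul]
    exact Finset.sum_congr rfl fun j _ => by ring
  have hW1 : ∀ i, ∀ x ∈ S, x.1 (W i) ≤ 1 := fun i x hx => by
    rw [hW]
    exact x.1.map_sum_le fun j _ => by
      rw [map_mul]; exact mul_le_one' (val_const_le _ _) (w1 _ j x hx)
  obtain ⟨j, hj1, hj2⟩ := Finset.exists_min_image (Finset.univ.filter fun i => ∃ j, c ⟨i, j⟩ ≠ 0)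
    (fun j => (j.2 : ℕ)) (by
      obtain ⟨⟨i, j⟩, hj⟩ := hj
      exact ⟨i, Finset.mem_filter.2 ⟨Finset.mem_univ _, j, hj⟩⟩)
  have hcj := hw j.1 _ (Finset.mem_filter.1 hj1).2
  rw [← hW] at hcj
  obtain ⟨⟨x, hx⟩, j⟩ := j
  have hxt := hS x hx
  have hjt : ((j : ℕ) : ℤ) < x.ord t := by have := j.2; simp only at this; omega
  have h5 := w_dep x.1 (Place.v_le_one.2 hxt.le)
    (fun p : (Σ i : (Σ x : S, Fin (x.1.ord t).toNat), Fin (i.1.1.pdeg k)) => z p.1 * w p.1.1 p.2)
    (fun p => by rw [map_mul]; exact mul_le_one' (hz1 _ x hx) (w1 _ _ x hx)) q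
  have h6 : x.ord (z ⟨⟨x, hx⟩, j⟩) = (j : ℕ) := by rw [hz _ x hx, if_pos rfl]
  change x.1 _ = 1 at hcj
  rw [← e, e2, x.1.map_sum_eq_of_lt (Finset.mem_univ ⟨⟨x, hx⟩, j⟩) fun i hi => ?_, map_mul,
    hcj, one_mul, Place.v_eq (z0 _), Place.v_eq h0, exp_le_exp] at h5
  · omega
  · rw [map_mul, map_mul, hcj, one_mul, Place.v_eq (z0 ⟨⟨x, hx⟩, j⟩), h6]
    by_cases hci : ∃ l, c ⟨i, l⟩ ≠ 0
    swap
    · push Not at hci
      simp only [hW, hci, map_zero, zero_mul, Finset.sum_const_zero, exp_pos]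
    refine (mul_le_of_le_one_left' (hW1 i x hx)).trans_lt ?_
    rw [Place.v_eq (z0 i), exp_lt_exp, hz i x hx]
    obtain ⟨⟨y, hy⟩, i⟩ := i
    split_ifs with h
    · simp only at h
      subst h
      have h7 : (j : ℕ) ≤ i := hj2 ⟨⟨x, hx⟩, i⟩ (Finset.mem_filter.2 ⟨Finset.mem_univ _, hci⟩)
      have h8 : (i : ℕ) ≠ j := fun e => by
        rw [Fin.val_inj] at e; subst e
        simp only [Finset.mem_sdiff, Finset.mem_univ, Finset.mem_singleton, not_true_eq_false,
          and_false] at hi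
      simp only; omega
    · omega

variable [GFF k K]

instance (x : Place K) : FiniteDimensional k x.Res := by
  obtain ⟨t, -, ht⟩ := x.exists_ord 1
  have := fin_adjoin (Place.transc (k := k) (x := x) (f := t) (by omega))
  exact res_finite (t := t) (by omega)

lemma pdeg_pos (x : Place K) : 0 < x.pdeg k := Module.finrank_pos

variable (k) in
include k in
theorem finite_zeros (f : K) : {x : Place K | 0 < x.ord f}.Finite := by
  by_contra hn
  obtain ⟨x, hx⟩ := Set.Infinite.nonempty hn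
  have := fin_adjoin (Place.transc (k := k) (x := x) (f := f) (ne_of_gt hx))
  obtain ⟨S, h1, h2⟩ := Set.Infinite.exists_subset_card_eq hn (Module.finrank k⟮f⟯ K + 1)
  have h3 := sum_ord_le (k := k) S fun x hx => h1 hx
  have h4 := Finset.card_nsmul_le_sum S (fun x => x.ord f * x.pdeg k) 1 fun x hx =>
    mul_pos (h1 hx) (Int.natCast_pos.2 (pdeg_pos x))
  rw [h2] at h4
  simp at h4
  omega

variable (k) in
include k in
theorem finite_supp (f : K) : (Function.support fun x : Place K => x.ord f).Finite :=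
  ((finite_zeros k f).union (finite_zeros k f⁻¹)).subset fun x hx => by
    have : x.ord f ≠ 0 := hx
    simp only [Set.mem_union, Set.mem_ofPred_eq, Place.ord_inv]; omega

end RR

namespace RR

/-- divisors -/
abbrev Div (K : Type u) [Field K] := Place K →₀ ℤ

variable [Finite k]

variable (k) in
/-- degree -/
noncomputable def deg : Div K →+ ℤ :=
  Finsupp.liftAddHom fun x => AddMonoidHom.mulRight (x.pdeg k : ℤ)
lemma deg_eq (D : Div K) : deg k D = D.sum fun x m => m * (x.pdeg k : ℤ) := rfl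
@[simp] lemma deg_single (x : Place K) (m : ℤ) : deg k (Finsupp.single x m) = m * x.pdeg k := by
  rw [deg_eq, Finsupp.sum_single_index (zero_mul _)]
lemma deg_eq_sum' {D : Div K} {S : Finset (Place K)} (h : D.support ⊆ S) :
    deg k D = ∑ x ∈ S, D x * x.pdeg k :=
  Finset.sum_subset h fun _ _ hx => by
    rw [Finsupp.notMem_support_iff.1 hx]; exact zero_mul _
lemma deg_nonneg {D : Div K} (h : 0 ≤ D) : 0 ≤ deg k D :=
  Finset.sum_nonneg fun x _ => mul_nonneg (h x) (Int.natCast_nonneg _)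

open Classical in
/-- the divisor of `f` (`dv 0 = 0`) -/
noncomputable def dv (f : K) : Div K :=
  if h : (Function.support fun x : Place K => x.ord f).Finite then
    Finsupp.ofSupportFinite _ h else 0

variable (k) in
/-- the Riemann-Roch space -/
def LL (D : Div K) : Submodule k K where
  carrier := {f | ∀ x : Place K, x.1 f ≤ exp (D x)}
  add_mem' ha hb x := x.1.map_add_le (ha x) (hb x)
  zero_mem' x := by simp only [map_zero, zero_le]
  smul_mem' c f hf x := by
    rw [Algebra.smul_def, map_mul]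
    exact (mul_le_of_le_one_left' (val_const_le x.1 c)).trans (hf x)
lemma mem_LL {D : Div K} {f : K} : f ∈ LL k D ↔ f = 0 ∨ ∀ x : Place K, 0 ≤ x.ord f + D x := by
  change (∀ x : Place K, x.1 f ≤ exp (D x)) ↔ _
  by_cases hf : f = 0 <;> simp only [hf, map_zero, zero_le, implies_true, Place.ord_zero, zero_add,
    true_or, Place.v_le_exp, false_or]
lemma LL_mono {D E : Div K} (h : D ≤ E) : LL k D ≤ LL k E :=
  fun _ hf x => (hf x).trans (exp_le_exp.2 (h x))
variable (k) in
/-- `ℓ(D)` -/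
noncomputable def ell (D : Div K) : ℕ := Module.finrank k (LL k D)

variable [GFF k K] {f g : K} {D E : Div K}

variable (k) in
include k in
theorem dv_apply (f : K) (x : Place K) : dv f x = x.ord f := by
  rw [dv, dif_pos (finite_supp k f)]; rfl
variable (k) in
include k in
lemma dv_mul (hf : f ≠ 0) (hg : g ≠ 0) : dv (f * g) = dv f + dv g := by
  ext; simp [dv_apply k, Place.ord_mul hf hg]
variable (k) in
include k in
lemma dv_inv : dv f⁻¹ = -dv f := by ext; simp [dv_apply k]
lemma mem_LL' : f ∈ LL k D ↔ f = 0 ∨ 0 ≤ dv f + D := by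
  rw [mem_LL]
  simp only [Finsupp.le_def, Finsupp.coe_zero, Pi.zero_apply, Finsupp.coe_add, Pi.add_apply,
    dv_apply k]

lemma DG.step (D : Div K) (x : Place K) [FiniteDimensional k (LL k D)] :
    FiniteDimensional k (LL k (D + Finsupp.single x 1)) ∧ ell k (D + Finsupp.single x 1) ≤ ell k D + x.pdeg k := by
  classical
  obtain ⟨t, t0, ht⟩ := x.exists_ord (D x + 1)
  have hr : ∀ f : LL k (D + Finsupp.single x 1), 0 ≤ x.ord (f.1 * t) := fun f => by
    by_cases hf : f.1 = 0
    · simp [hf]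
    have := (mem_LL.1 f.2).resolve_left hf x
    rw [Place.ord_mul hf t0, ht]
    simpa only [ge_iff_le, Finsupp.coe_add, Pi.add_apply, Finsupp.single_eq_same] using this
  let φ : LL k (D + Finsupp.single x 1) →ₗ[k] x.Res :=
    { toFun := fun f => x.val (f.1 * t)
      map_add' := fun f g => by
        rw [Submodule.coe_add, add_mul, Place.val_add (Place.v_le_one.2 (hr f)) (Place.v_le_one.2 (hr g))]
      map_smul' := fun c f => by
        rw [Submodule.coe_smul, smul_mul_assoc, Place.val_smul (Place.v_le_one.2 (hr f))]; rfl }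
  have hle : LL k D ≤ LL k (D + Finsupp.single x 1) :=
    LL_mono (le_add_of_nonneg_right (Finsupp.single_nonneg.2 zero_le_one))
  have hk : LinearMap.ker φ ≤ (LL k D).comap (LL k (D + Finsupp.single x 1)).subtype := fun f hf => by
    by_cases h0 : f.1 = 0
    · exact (mem_LL (k := k)).2 (.inl h0)
    have h1 := (Place.v_lt_one.1 ((Place.val_eq_zero (Place.v_le_one.2 (hr f))).1 hf)).resolve_left (mul_ne_zero h0 t0)
    rw [Place.ord_mul h0 t0, ht] at h1
    refine (mem_LL (k := k)).2 (.inr fun y => ?_)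
    by_cases hy : y = x
    · subst hy
      change 0 ≤ y.ord f.1 + D y
      omega
    · simpa only [Submodule.subtype_apply, Finsupp.coe_add, Pi.add_apply, ne_eq, hy, not_false_eq_true, Finsupp.single_eq_of_ne, add_zero] using (mem_LL.1 f.2).resolve_left h0 y
  have e := Submodule.comapSubtypeEquivOfLe hle
  have : FiniteDimensional k ((LL k D).comap (LL k (D + Finsupp.single x 1)).subtype) :=
    Module.Finite.equiv e.symm
  have := Submodule.finiteDimensional_of_le hk
  have hf : FiniteDimensional k (LL k (D + Finsupp.single x 1)) :=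
    ⟨Submodule.fg_of_fg_map_of_fg_inf_ker φ (IsNoetherian.noetherian _) (by
      rw [top_inf_eq]; exact Module.Finite.iff_fg.1 inferInstance)⟩
  refine ⟨hf, ?_⟩
  have h1 := φ.finrank_range_add_finrank_ker
  have h2 := Submodule.finrank_mono hk
  have h3 := (LinearMap.range φ).finrank_le
  rw [e.finrank_eq] at h2
  unfold ell Place.pdeg
  omega

lemma DG.steps (D : Div K) [FiniteDimensional k (LL k D)] : ∀ (n : ℕ) (F : Div K), 0 ≤ F →
    Finsupp.degree F = n → FiniteDimensional k (LL k (D + F)) ∧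
      (ell k (D + F) : ℤ) ≤ ell k D + deg k F
  | 0, F, h, hn => by
    have h2 := (Finset.sum_eq_zero_iff_of_nonneg fun x _ => h x).1 hn
    have : F = 0 := Finsupp.ext fun x => by
      by_contra hx
      exact hx (h2 x (Finsupp.mem_support_iff.2 hx))
    rw [this, add_zero, map_zero, add_zero]
    exact ⟨inferInstance, le_rfl⟩
  | n + 1, F, h, hn => by
    classical
    obtain ⟨x, hx⟩ : ∃ x, F x ≠ 0 := by
      by_contra h0
      push Not at h0
      rw [show F = 0 from Finsupp.ext h0, map_zero] at hn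
      omega
    obtain ⟨h1, h2⟩ := DG.steps D n (F - Finsupp.single x 1) (fun y => by
      have h3 : (0 : ℤ) ≤ F y := h y
      by_cases hy : y = x
      · subst hy; simp; omega
      · simpa only [Finsupp.coe_zero, Pi.zero_apply, Finsupp.coe_sub, Pi.sub_apply, ne_eq, hy,
          not_false_eq_true, Finsupp.single_eq_of_ne, sub_zero, ge_iff_le] using h3)
      (by rw [map_sub, hn, Finsupp.degree_single]; push_cast; ring)
    have h3 := DG.step (k := k) (D + (F - Finsupp.single x 1)) x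
    rw [add_assoc, sub_add_cancel] at h3
    rw [map_sub, deg_single] at h2
    exact ⟨h3.1, by omega⟩

lemma DG.steps' (D : Div K) [FiniteDimensional k (LL k D)] {F : Div K} (h : 0 ≤ F) :
    FiniteDimensional k (LL k (D + F)) ∧ (ell k (D + F) : ℤ) ≤ ell k D + deg k F :=
  DG.steps D (Finsupp.degree F).toNat F h
    (Int.toNat_of_nonneg (Finset.sum_nonneg fun x _ => h x)).symm

omit [Finite k] in
variable (k K) in
include k in
lemma nonempty_place : Nonempty (Place K) := by
  obtain ⟨t, ht, -⟩ := GFF.ex (k := k) (K := K)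
  obtain ⟨x, -⟩ := exists_zero ht
  exact ⟨x⟩

instance (D : Div K) : FiniteDimensional k (LL k D) := by
  classical
  obtain ⟨x⟩ := nonempty_place k K
  have h0 : LL k (-Finsupp.single x 1 : Div K) = ⊥ := (Submodule.eq_bot_iff _).2 fun f hf =>
    (mem_LL.1 hf).resolve_right fun h => by
      have h1 : IsAlgebraic k f := alg_of_reg fun y => by
        have := h y
        have h2 : (0 : ℤ) ≤ Finsupp.single x (1 : ℤ) y := Finsupp.single_nonneg.2 zero_le_one y
        rw [Finsupp.neg_apply] at this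
        omega
      have := h x
      rw [Place.ord_alg h1] at this
      simp at this
  have : FiniteDimensional k (LL k (-Finsupp.single x 1 : Div K)) := by rw [h0]; infer_instance
  have h := (DG.steps' (k := k) (-Finsupp.single x 1 : Div K) (F := Finsupp.single x 1 + D⁺)
    (add_nonneg (Finsupp.single_nonneg.2 zero_le_one) (posPart_nonneg D))).1
  rw [neg_add_cancel_left] at h
  exact Submodule.finiteDimensional_of_le (LL_mono (le_posPart D))
theorem ell_le_of_le (h : D ≤ E) : (ell k E : ℤ) + deg k D ≤ ell k D + deg k E := by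
  have h1 := (DG.steps' (k := k) D (sub_nonneg.2 h)).2
  rw [add_sub_cancel, map_sub] at h1
  omega
theorem ell_add_dv (hf : f ≠ 0) : ell k (D + dv f) = ell k D := by
  have h : ∀ {f : K} {D : Div K}, f ≠ 0 → ell k (D + dv f) ≤ ell k D := fun {f D} hf => by
    refine LinearMap.finrank_le_finrank_of_injective (f := (LinearMap.mulRight k f).restrict
      (p := LL k (D + dv f)) (q := LL k D) fun g hg => ?_) fun a b e => ?_
    · by_cases h0 : g = 0
      · simp [h0]
      refine mem_LL'.2 (.inr ?_)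
      rw [LinearMap.mulRight_apply, dv_mul k h0 hf, add_assoc, add_comm (dv f)]
      exact (mem_LL'.1 hg).resolve_left h0
    · exact Subtype.ext (mul_right_cancel₀ hf (congrArg Subtype.val e))
  refine le_antisymm (h hf) ?_
  simpa [dv_inv k] using h (D := D + dv f) (inv_ne_zero hf)
omit [Finite k] [GFF k K] in
lemma DG.neg_apply (D : Div K) (x : Place K) : D⁻ x = max (-D x) 0 := rfl
omit [Finite k] [GFF k K] in
lemma DG.pos_apply (D : Div K) (x : Place K) : D⁺ x = max (D x) 0 := rfl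
lemma ell_le_deg (h : 0 ≤ D) : (ell k D : ℤ) ≤ deg k D + ell k (0 : Div K) := by
  have := ell_le_of_le (k := k) h
  rw [map_zero] at this
  omega
/-- Riemann's estimate along the multiples of a pole divisor -/
theorem exists_ell_ge (a : K) (ht : Transcendental k a) : ∃ γ : ℕ, ∀ m : ℕ,
    (m : ℤ) * Module.finrank k⟮a⟯ K ≤ ell k (m • (dv a)⁻) + γ := by
  have := RR.fin_adjoin ht
  have h0 : a ≠ 0 := fun e => ht (e ▸ isAlgebraic_zero)
  let u := Module.finBasis k⟮a⟯ K
  let C : Div K := ∑ j, (dv (u j))⁻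
  have hC : 0 ≤ C := Finset.sum_nonneg fun j _ => negPart_nonneg _
  refine ⟨(deg k C).toNat, fun m => ?_⟩
  have h1 : LinearIndependent k fun i : ℕ => (IntermediateField.AdjoinSimple.gen k a) ^ i := by
    refine LinearIndependent.of_comp (k⟮a⟯.val.toLinearMap) ?_
    have := (Polynomial.basisMonomials k).linearIndependent.map' (Polynomial.aeval a).toLinearMap
      (LinearMap.ker_eq_bot.2 (transcendental_iff_injective.1 ht))
    have e : (k⟮a⟯.val.toLinearMap ∘ fun i : ℕ => (IntermediateField.AdjoinSimple.gen k a) ^ i) =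
        (Polynomial.aeval a).toLinearMap ∘ Polynomial.basisMonomials k := by
      funext i
      simp
    rw [e]
    exact this
  have h2 := linearIndependent_smul (h1.comp (Fin.val (n := m)) Fin.val_injective)
    u.linearIndependent
  have h3 : ∀ p : Fin m × Fin (Module.finrank k⟮a⟯ K), a ^ (p.1 : ℕ) * u p.2 ∈
      LL k (m • (dv a)⁻ + C) := fun p => by
    refine mem_LL.2 (.inr fun x => ?_)
    have h4 : (dv (u p.2))⁻ x ≤ C x :=
      Finset.single_le_sum (f := fun j => (dv (u j))⁻) (fun j _ => negPart_nonneg _)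
        (Finset.mem_univ p.2) x
    have h5 : ((p.1 : ℕ) : ℤ) ≤ m := by exact_mod_cast p.1.2.le
    rw [Place.ord_mul (pow_ne_zero _ h0) (u.ne_zero _), Place.ord_pow, Finsupp.add_apply,
      Finsupp.smul_apply, DG.neg_apply, dv_apply k, nsmul_eq_mul]
    rw [DG.neg_apply, dv_apply k] at h4
    have h6 := le_max_left (-x.ord (u p.2)) 0
    have h7 := le_max_left (-x.ord a) 0
    have h8 := le_max_right (-x.ord a) 0
    have h9 : (0 : ℤ) ≤ (p.1 : ℕ) := Int.natCast_nonneg _
    nlinarith only [h4, h5, h6, h7, h8]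
  have h4 : LinearIndependent k fun p => (⟨_, h3 p⟩ : LL k (m • (dv a)⁻ + C)) :=
    LinearIndependent.of_comp (Submodule.subtype _) h2
  have h5 := h4.fintype_card_le_finrank
  rw [Fintype.card_prod, Fintype.card_fin, Fintype.card_fin] at h5
  have h6 := ell_le_of_le (k := k) (le_add_of_nonneg_right hC : m • (dv a)⁻ ≤ _)
  have h7 : ((m * Module.finrank k⟮a⟯ K : ℕ) : ℤ) ≤ ell k (m • (dv a)⁻ + C) := by
    exact_mod_cast h5
  rw [map_add] at h6
  rw [Int.toNat_of_nonneg (deg_nonneg hC)]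
  push_cast at h7
  omega
lemma DG.deg_pos (a : K) (S : Finset (Place K)) (hS : ∀ x, x ∈ S ↔ 0 < x.ord a) :
    deg k (dv a)⁺ = ∑ x ∈ S, x.ord a * x.pdeg k := by
  rw [deg_eq_sum' (S := S) fun x hx => (hS x).2 (by
    have := Finsupp.mem_support_iff.1 hx
    rw [DG.pos_apply, dv_apply k] at this; omega)]
  exact Finset.sum_congr rfl fun x hx => by
    rw [DG.pos_apply, dv_apply k, max_eq_left ((hS x).1 hx).le]
omit [Finite k] [GFF k K] in
lemma adjoin_inv (a : K) : k⟮a⁻¹⟯ = k⟮a⟯ := le_antisymm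
  (IntermediateField.adjoin_simple_le_iff.2
    (inv_mem (IntermediateField.mem_adjoin_simple_self k a)))
  (IntermediateField.adjoin_simple_le_iff.2
    (inv_mem_iff.1 (IntermediateField.mem_adjoin_simple_self k a⁻¹)))
theorem deg_poles (a : K) (h : Transcendental k a) :
    deg k (dv a)⁻ = Module.finrank k⟮a⟯ K := by
  refine le_antisymm ?_ ?_
  · have hS : ∀ x, x ∈ (finite_zeros k a⁻¹).toFinset ↔ 0 < x.ord a⁻¹ := fun x =>
      Set.Finite.mem_toFinset _
    have := fin_adjoin (y := a⁻¹) fun e => h (IsAlgebraic.inv_iff.1 e)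
    have h1 := sum_ord_le (k := k) (t := a⁻¹) _ fun x hx => (hS x).1 hx
    rwa [← DG.deg_pos a⁻¹ _ hS, dv_inv k, posPart_neg, adjoin_inv] at h1
  · obtain ⟨γ, hγ⟩ := exists_ell_ge a h
    have h1 := hγ (γ + ell k (0 : Div K) + 1)
    have h2 := ell_le_deg (k := k) (nsmul_nonneg (negPart_nonneg (dv a)) (γ + ell k (0 : Div K) + 1))
    rw [map_nsmul, nsmul_eq_mul] at h2
    push_cast at h1 h2
    by_contra hn
    have h3 : deg k (dv a)⁻ + 1 ≤ Module.finrank k⟮a⟯ K := by omega
    have h4 : (0 : ℤ) ≤ γ := Int.natCast_nonneg _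
    have h5 : (0 : ℤ) ≤ ell k (0 : Div K) := Int.natCast_nonneg _
    nlinarith only [h1, h2, h3, h4, h5]
theorem deg_zeros (a : K) (h : Transcendental k a) :
    deg k (dv a)⁺ = Module.finrank k⟮a⟯ K := by
  have h1 := deg_poles (k := k) a⁻¹ fun e => h (IsAlgebraic.inv_iff.1 e)
  rwa [dv_inv k, negPart_neg, adjoin_inv] at h1
theorem deg_dv (f : K) : deg k (dv f) = 0 := by
  by_cases h : IsAlgebraic k f
  · rw [show dv f = 0 from Finsupp.ext fun x => by rw [dv_apply k, Place.ord_alg h]; rfl, map_zero]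
  · rw [← posPart_sub_negPart (dv f), map_sub, deg_zeros f h, deg_poles f h, sub_self]

variable (k K) in
theorem riemann : ∃ g c : ℕ, (∀ D : Div K, deg k D + ell k (0 : Div K) ≤ ell k D + g) ∧
    ∀ D : Div K, (c : ℤ) ≤ deg k D → (ell k D : ℤ) + g = deg k D + ell k (0 : Div K) := by
  classical
  have hne : ∀ D : Div K, 0 < ell k D → ∃ f : K, f ≠ 0 ∧ 0 ≤ dv f + D := fun D h => by
    by_contra hn
    push Not at hn
    have : LL k D = ⊥ := (Submodule.eq_bot_iff _).2 fun f hf => by
      by_contra h0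
      exact hn f h0 ((mem_LL'.1 hf).resolve_left h0)
    rw [ell, this, finrank_bot] at h
    omega
  have hex : ∃ g : ℕ, ∀ D : Div K, deg k D + ell k (0 : Div K) ≤ ell k D + g := by
    obtain ⟨t, ht, -⟩ := GFF.ex (k := k) (K := K)
    obtain ⟨γ, hγ⟩ := exists_ell_ge t ht
    have := RR.fin_adjoin ht
    have hN : (1 : ℤ) ≤ Module.finrank k⟮t⟯ K := by exact_mod_cast Module.finrank_pos
    refine ⟨γ + ell k (0 : Div K), fun D => ?_⟩
    have h0 := deg_nonneg (k := k) (posPart_nonneg D)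
    obtain ⟨m, hm⟩ : ∃ m : ℕ, (m : ℤ) = γ + deg k D⁺ + 1 := ⟨(γ + deg k D⁺ + 1).toNat, by omega⟩
    have h1 := hγ m
    have h2 := ell_le_of_le (k := k) (sub_le_self (m • (dv t)⁻) (posPart_nonneg D))
    rw [map_sub] at h2
    obtain ⟨z, z0, hz⟩ := hne (m • (dv t)⁻ - D⁺) (by
      have : (m : ℤ) ≤ m * Module.finrank k⟮t⟯ K := by nlinarith only [hN]
      omega)
    have h3 : D + dv z⁻¹ ≤ m • (dv t)⁻ := fun x => by
      have h4 := hz x
      have h5 := le_posPart D x
      simp only [dv_inv k, Finsupp.add_apply, Finsupp.sub_apply, Finsupp.neg_apply,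
        Finsupp.zero_apply] at h4 h5 ⊢
      omega
    have h4 := ell_le_of_le (k := k) h3
    rw [ell_add_dv (inv_ne_zero z0), map_add, deg_dv, map_nsmul, deg_poles t ht, nsmul_eq_mul] at h4
    push_cast
    omega
  obtain ⟨D0, h0⟩ : ∃ D : Div K, (ell k D : ℤ) + Nat.find hex ≤ deg k D + ell k (0 : Div K) := by
    rcases h : Nat.find hex with _ | g
    · exact ⟨0, by simp⟩
    · have := Nat.find_min hex (show g < Nat.find hex by omega)
      push Not at this
      obtain ⟨D, hD⟩ := this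
      exact ⟨D, by push_cast; omega⟩
  have hg := Nat.find_spec hex
  refine ⟨Nat.find hex, (deg k D0 + Nat.find hex + 1).toNat, hg, fun D hD => le_antisymm ?_ (hg D)⟩
  have h1 := hg (D - D0)
  rw [map_sub] at h1
  obtain ⟨z, z0, hz⟩ := hne (D - D0) (by omega)
  have h2 := ell_le_of_le (k := k) (D := D0) (E := D + dv z) (by
    rwa [← sub_nonneg, add_comm, add_sub_assoc])
  rw [ell_add_dv z0, map_add, deg_dv] at h2
  omega

end RR

end SelAvg

namespace SelAvg.FF

open WithZero
open scoped IntermediateField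

theorem rr_gff (k F : Type) [Field k] [Finite k] [Field F] [Algebra (RatFunc k) F]
    [FiniteDimensional (RatFunc k) F] [Algebra k F] [IsScalarTower k (RatFunc k) F] : GFF k F := by
  refine ⟨inferInstance, algebraMap (RatFunc k) F RatFunc.X,
    (transcendental_algebraMap_iff (algebraMap (RatFunc k) F).injective).2
      RatFunc.transcendental_X, ?_⟩
  have h : ∀ r : RatFunc k, algebraMap (RatFunc k) F r ∈ k⟮algebraMap (RatFunc k) F RatFunc.X⟯ :=
    fun r => by
      have h1 : r ∈ k⟮(RatFunc.X : RatFunc k)⟯ := by rw [RatFunc.adjoin_X]; trivial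
      have h2 := IntermediateField.adjoin_map k {(RatFunc.X : RatFunc k)}
        (IsScalarTower.toAlgHom k (RatFunc k) F)
      rw [Set.image_singleton] at h2
      exact h2 ▸ ⟨r, h1, rfl⟩
  let _ : Algebra (RatFunc k) k⟮algebraMap (RatFunc k) F RatFunc.X⟯ :=
    ((algebraMap (RatFunc k) F).codRestrict _ h).toAlgebra
  have : IsScalarTower (RatFunc k) k⟮algebraMap (RatFunc k) F RatFunc.X⟯ F :=
    IsScalarTower.of_algebraMap_eq fun _ => rfl
  exact Module.Finite.right (RatFunc k) _ F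

theorem exists_cv (k F : Type) [Field k] [Finite k] [Field F] [Algebra (RatFunc k) F]
    [FiniteDimensional (RatFunc k) F] : Nonempty (Cv F) := by
  let _ : Algebra k F := ((algebraMap (RatFunc k) F).comp (algebraMap k (RatFunc k))).toAlgebra
  have : IsScalarTower k (RatFunc k) F := IsScalarTower.of_algebraMap_eq fun _ => rfl
  have := rr_gff k F
  obtain ⟨P⟩ := RR.nonempty_place k F
  obtain ⟨g, c, -, hc⟩ := RR.riemann k F
  refine ⟨⟨Nat.card k, fun v => v.pdeg k, (RR.ell k (0 : RR.Div F) : ℤ) - g, c, P,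
    Finite.one_lt_card, fun v => Module.finite_of_finite k,
    fun v => Module.natCard_eq_pow_finrank, fun x hx => ?_, fun x D _ hD => ?_, fun D hD => ?_⟩⟩
  · exact (RR.finite_supp k x).subset fun v hv h => hv (Place.v_eq_one.2 ⟨hx, h⟩)
  · rw [show D = RR.dv x from Finsupp.ext fun v => (hD v).trans (RR.dv_apply k x v).symm]
    exact RR.deg_dv x
  · have h1 := hc D hD
    have h2 : Nat.card (LL D) = Nat.card k ^ RR.ell k D :=
      Module.natCard_eq_pow_finrank (K := k) (V := RR.LL k D)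
    rw [h2, ← RR.deg_eq, Nat.cast_pow, ← zpow_natCast]
    congr 1
    omega

end SelAvg.FF
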