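import Pool.Agent.H81Sel.HtD
import Pool.Agent.H81Sel.Fin2
import Pool.Agent.H81Sel.RR

/-! The average size of the 2-Selmer group. -/

namespace SelAvg.FF

open WeierstrassCurve WithZero Filter Topology
open scoped Classical

variable {F : Type} [Field F]

section

variable [Cv F]

lemma TD_pos (R : Div F) : ∀ᶠ m : ℕ in atTop, 0 < TD (R + m • PP F) :=
  (TD_ge R).mono fun _ h => (pow_pos (one_div_pos.2 (one_pos.trans_le one_le_zt)) 5).trans_le h

theorem tendsto_ratio (R : Div F) :
    Tendsto (fun m : ℕ => SD (R + m • PP F) / TD (R + m • PP F)) atTop (𝓝 2) := by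
  refine Metric.tendsto_nhds.2 fun ε hε => ?_
  filter_upwards [abs_SD_sub_le R (half_pos hε), TD_pos R] with m h1 h2
  have h3 : SD (R + m • PP F) / TD (R + m • PP F) - 2 =
      (SD (R + m • PP F) - 2 * TD (R + m • PP F)) / TD (R + m • PP F) := by field_simp
  rw [Real.dist_eq, h3, abs_div, abs_of_pos h2]
  exact ((div_le_iff₀ h2).2 h1).trans_lt (half_lt_self hε)

theorem selmerAverage_cv : SelmerAverage F 2 3 :=
  selmerAverage_of (fun R _ => tendsto_ratio R) fun R _ => TD_pos R

end

theorem selmerAverage_two (k F : Type) [Field k] [Finite k] [Field F] [Algebra (RatFunc k) F]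
    [FiniteDimensional (RatFunc k) F] : SelStmt.SelmerAverage F 2 3 := by
  obtain ⟨h⟩ := exists_cv k F
  exact selmerAverage_bridge selmerAverage_cv

end SelAvg.FF
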