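import Pool.Agent.H81Sel.Glob1
import Pool.Agent.H81Sel.Zorn

/-! Row SELO: Selmer elements as orbits of objects (port of `encard_Sel` etc. of `H38Sel`), the
local weights. -/

namespace SelAvg.FF

open WeierstrassCurve WithZero Filter Topology Matrix
open scoped Classical ENNReal

variable {F : Type} [Field F]

/-- everywhere locally soluble -/
def ELSF (f : Model F) : Prop := ∀ v : Place F, (f.map (algebraMap F v.Compl)).Soluble

/-- the classes of everywhere locally soluble nontrivial objects over `W` -/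
def SelO (W : WeierstrassCurve F) : Set (Orb F) :=
  {x | ∃ z, orb z = x ∧ z.Over W ∧ ELSF z.f ∧ ¬z.f.Triv}

lemma elsF_smul (g : G F) (f : Model F) : ELSF (g • f) ↔ ELSF f := by
  simp only [ELSF, G.map_smul, Model.soluble_smul]

lemma selo_image (W : WeierstrassCurve F) (C : VariableChange F) :
    selOrb_rmul C '' SelO (C • W) = SelO W := by
  ext x
  constructor
  · rintro ⟨_, ⟨z, rfl, h1, h2, h3⟩, rfl⟩
    exact ⟨z.rmul C, rfl, h1.rmul, h2, h3⟩
  · rintro ⟨z, rfl, h1, h2, h3⟩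
    refine ⟨orb (z.rmul C⁻¹), ⟨_, rfl, Obj.Over.rmul ?_, h2, h3⟩, ?_⟩
    · rwa [inv_smul_smul]
    · rw [selOrb_rmul_orb, Obj.rmul_rmul, inv_mul_cancel, Obj.rmul_one]

theorem encard_SelO_smul (W : WeierstrassCurve F) (C : VariableChange F) :
    (SelO (C • W)).encard = (SelO W).encard := by
  rw [← selo_image W C, (selOrb_rmul_inj C).encard_image]

/-- the bound for the number of automorphisms modulo scalars -/
noncomputable def autF (W : WeierstrassCurve F) : ℕ := if NoTwoTorsion W then 1 else 4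

lemma autF_le (W : WeierstrassCurve F) : autF W ≤ 4 := by
  unfold autF
  split_ifs <;> omega

lemma autF_smul (C : VariableChange F) (W : WeierstrassCurve F) : autF (C • W) = autF W := by
  simp only [autF, noTwoTorsion_smul]

variable (F) in
/-- the scalars -/
def scal : Fˣ →* G F := MonoidHom.mk' G.scalar G.scalar_mul

lemma scal_injective : Function.Injective (scal F) := G.scalar_injective

variable (F) in
/-- the action on objects -/
def actO : G F →* Equiv.Perm (Obj F) := MulAction.toPermHom (G F) (Obj F)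

lemma actO_apply (g : G F) (z : Obj F) : actO F g z = g • z := rfl

/-- `aut_eq_scalar`, `aut_card_le` -/
theorem card_le_autF {W : WeierstrassCurve F} (hW : W.Δ ≠ 0) {z : Obj F} (hz : z.Over W)
    (s : Finset (G F)) (hs : ∀ g ∈ s, actO F g z = z)
    (hs' : ∀ g ∈ s, ∀ g' ∈ s, ∀ t, g' = scal F t * g → g = g') : s.card ≤ autF W := by
  unfold autF
  split_ifs with h2
  · refine Finset.card_le_one.2 fun g hg g' hg' => ?_
    have h1 : g • z = z := hs g hg
    have h1' : g' • z = z := hs g' hg'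
    obtain ⟨t, ht⟩ := aut_eq_scalar hW h2 hz (g := g' * g⁻¹) (by
      rw [mul_smul, inv_smul_eq_iff.2 h1.symm, h1'])
    refine hs' g hg g' hg' t ?_
    change g' = G.scalar t * g
    rw [← ht, inv_mul_cancel_right]
  · exact aut_card_le hW hz s hs hs'

variable [Cv F]

lemma selo_bij {W : WeierstrassCurve F} (hW : W.Δ ≠ 0) :
    Set.BijOn (fun x : Orb F => cl W x.out) (SelO W) (Sel W 2 \ {trivClass W 2}) := by
  refine ⟨?_, ?_, ?_⟩
  · rintro _ ⟨z, rfl, h1, h2, h3⟩
    simp only [selOrb_cl_out hW h1]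
    exact ⟨(cl_mem_Sel_iff hW h1).2 h2, fun h => h3 ((cl_eq_triv_iff hW h1).1 h)⟩
  · rintro _ ⟨z, rfl, h1, -, -⟩ _ ⟨z', rfl, h1', -, -⟩ h
    simp only [selOrb_cl_out hW h1, selOrb_cl_out hW h1'] at h
    exact orb_eq_iff.2 (exists_smul_of_cl_eq hW h1 h1' h)
  · rintro x ⟨hx, hx'⟩
    obtain ⟨z, hz, rfl⟩ := exists_obj_of_mem_Sel hasseConic hW hx
    exact ⟨orb z, ⟨z, rfl, hz, (cl_mem_Sel_iff hW hz).1 hx,
      fun h => hx' ((cl_eq_triv_iff hW hz).2 h)⟩, selOrb_cl_out hW hz⟩

/-- port of `selOrb_bij`, `encard_Sel` with `FF.hasseConic` -/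
theorem encard_Sel_eq {W : WeierstrassCurve F} (hW : W.Δ ≠ 0) :
    (Sel W 2).encard = (SelO W).encard + 1 := by
  rw [← (selo_bij hW).injOn.encard_image, (selo_bij hW).image_eq,
    Set.encard_sdiff_singleton_add_one trivClass_mem_Sel]

theorem finite_Sel_of {W : WeierstrassCurve F} (hW : W.Δ ≠ 0) (h : (SelO W).Finite) :
    (Sel W 2).Finite ∧ (Sel W 2).ncard = (SelO W).ncard + 1 := by
  have h1 := encard_Sel_eq hW
  rw [← h.cast_ncard_eq] at h1
  have h2 : (Sel W 2).Finite := Set.finite_of_encard_eq_coe (k := (SelO W).ncard + 1)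
    (by rw [h1]; norm_cast)
  refine ⟨h2, ?_⟩
  rw [← h2.cast_ncard_eq] at h1
  exact_mod_cast h1

/-- the local weight -/
noncomputable def phi (v : Place F) (g : G (A F)) (f : Model F) : ℝ :=
  v.loc.phiL (resv v) (locM v g f)

/-- the product of the local weights -/
noncomputable def PhiS (S : Finset (Place F)) (g : G (A F)) (f : Model F) : ℝ := ∏ v ∈ S, phi v g f

/-- the discriminant is squarefree outside `S` -/
def SqM (S : Finset (Place F)) (g : G (A F)) (f : Model F) : Prop :=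
  ∀ v ∉ S, ¬v.loc.unif ^ 2 ∣ (locM v g f).jac.Δ

lemma phi_nonneg (v : Place F) (g : G (A F)) (f : Model F) : 0 ≤ phi v g f := by
  exact LocalField.phiL_nonneg _ _

lemma phi_le_one {g : G (A F)} {f : Model F} (hf : IntM g f) (hΔ : f.jac.Δ ≠ 0) (v : Place F) :
    phi v g f ≤ 1 := by
  exact LocalField.phiL_le_one (resv_isRed v) (locM_Delta hf hΔ v)

lemma phi_eq_one {v : Place F} {g : G (A F)} {f : Model F}
    (h : ¬v.loc.unif ^ 2 ∣ (locM v g f).jac.Δ) : phi v g f = 1 := by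
  exact LocalField.phiL_eq_one (resv_isRed v) h

lemma soluble_of_phi {v : Place F} {g : G (A F)} {f : Model F} (hf : IntM g f)
    (h : phi v g f ≠ 0) : (f.map (algebraMap F v.Compl)).Soluble := by
  have h1 : 0 < nSm ((locM v g f).map (resv v)) := by
    refine Nat.pos_of_ne_zero fun h0 => h ?_
    unfold phi LocalField.phiL
    rw [h0, Nat.cast_zero, zero_div]
  have h2 := LocalField.soluble_of_nSm_pos (resv_isRed v) _ h1
  rwa [locM_map hf, Model.soluble_smul] at h2

lemma PhiS_nonneg (S : Finset (Place F)) (g : G (A F)) (f : Model F) : 0 ≤ PhiS S g f := by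
  exact Finset.prod_nonneg fun v _ => phi_nonneg v g f

lemma PhiS_le_one (S : Finset (Place F)) {g : G (A F)} {f : Model F} (hf : IntM g f)
    (hΔ : f.jac.Δ ≠ 0) : PhiS S g f ≤ 1 := by
  exact Finset.prod_le_one (fun v _ => phi_nonneg v g f) fun v _ => phi_le_one hf hΔ v

lemma PhiS_K (S : Finset (Place F)) {k g : G (A F)} (hk : k ∈ KG F) {f : Model F} (hf : IntM g f)
    (hΔ : f.jac.Δ ≠ 0) : PhiS S (k * g) f = PhiS S g f := by
  refine Finset.prod_congr rfl fun v _ => ?_
  obtain ⟨h, e⟩ := locM_K hk hf v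
  rw [phi, e, LocalField.phiL_smul _ _ (locM_Delta hf hΔ v), phi]

lemma PhiS_act (S : Finset (Place F)) (γ : G F) (g : G (A F)) (f : Model F) :
    PhiS S (g * (gA F γ)⁻¹) (γ • f) = PhiS S g f := by
  simp only [PhiS, phi, locM_act]

lemma sqM_K (S : Finset (Place F)) {k g : G (A F)} (hk : k ∈ KG F) {f : Model F} (hf : IntM g f) :
    SqM S (k * g) f ↔ SqM S g f := by
  refine forall_congr' fun v => forall_congr' fun _ => ?_
  obtain ⟨h, e⟩ := locM_K hk hf v
  rw [e, G.jac_smul, variableChange_Δ, ← Units.val_pow_eq_pow_val, Units.dvd_mul_left]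

lemma sqM_act (S : Finset (Place F)) (γ : G F) (g : G (A F)) (f : Model F) :
    SqM S (g * (gA F γ)⁻¹) (γ • f) ↔ SqM S g f := by
  simp only [SqM, locM_act]

/-- the weight of an object on a torsor -/
noncomputable def PhiO (S : Finset (Place F)) (D : Div F) (z : Obj F) (x : XG F) : ℝ≥0∞ :=
  if z.f.jac.Δ ≠ 0 ∧ par (pM x) ∧ IntO D z x.out then ENNReal.ofReal (PhiS S x.out z.f) else 0

/-- the weight used in the lower bound -/
noncomputable def PhiL (S : Finset (Place F)) (D : Div F) (z : Obj F) (x : XG F) : ℝ≥0∞ :=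
  if SqM S x.out z.f then PhiO S D z x else 0

lemma PhiO_mk (S : Finset (Place F)) (D : Div F) (z : Obj F) (g : G (A F)) :
    PhiO S D z (RC.mk (KG F) g) = if z.f.jac.Δ ≠ 0 ∧ par (RC.mk (K2 F) g.M) ∧ IntO D z g then
      ENNReal.ofReal (PhiS S g z.f) else 0 := by
  obtain ⟨k, hk, e⟩ := RC.out_mk (K := KG F) g
  rw [PhiO, pM_mk, e, intO_K hk]
  split_ifs with h
  · rw [PhiS_K S hk h.2.2.1 h.1]
  · rfl

lemma PhiL_mk (S : Finset (Place F)) (D : Div F) (z : Obj F) (g : G (A F)) :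
    PhiL S D z (RC.mk (KG F) g) = if SqM S g z.f then PhiO S D z (RC.mk (KG F) g) else 0 := by
  obtain ⟨k, hk, e⟩ := RC.out_mk (K := KG F) g
  rw [PhiL, e]
  by_cases hf : IntM g z.f
  · rw [sqM_K S hk hf]
  · rw [PhiO_mk, if_neg (fun h : _ ∧ _ ∧ IntO D z g => hf h.2.2.1), ite_self, ite_self]

lemma PhiO_act (S : Finset (Place F)) (D : Div F) (γ : G F) (z : Obj F) (x : XG F) :
    PhiO S D (actO F γ z) (actG F γ x) = PhiO S D z x := by
  obtain ⟨g, rfl⟩ := x.mk_surj
  have h1 : par (RC.mk (K2 F) (g * (gA F γ)⁻¹).M) ↔ par (RC.mk (K2 F) g.M) := by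
    rw [← pM_mk, ← actG_mk, pM_act, par_act, pM_mk]
  have h2 : (γ • z.f).jac.Δ ≠ 0 ↔ z.f.jac.Δ ≠ 0 := by
    rw [G.jac_smul, variableChange_Δ, ← Units.val_pow_eq_pow_val, Ne, Units.mul_right_eq_zero]
  rw [actG_mk, PhiO_mk, PhiO_mk, actO_apply, intO_act, Obj.smul_f, PhiS_act, h1]
  simp only [h2]

lemma PhiL_act (S : Finset (Place F)) (D : Div F) (γ : G F) (z : Obj F) (x : XG F) :
    PhiL S D (actO F γ z) (actG F γ x) = PhiL S D z x := by
  obtain ⟨g, rfl⟩ := x.mk_surj
  have h := PhiO_act S D γ z (RC.mk (KG F) g)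
  rw [actG_mk] at h
  rw [actG_mk, PhiL_mk, PhiL_mk, h, actO_apply, Obj.smul_f, sqM_act]

/-- the twist of a torsor by a scalar idele -/
noncomputable def twG (E : Div F) (g : G (A F)) : XG F := RC.mk (KG F) (G.scalar (piD E) * g)

lemma twG_injective (g : G (A F)) : Function.Injective fun E : Div F => twG E g := by
  intro E E' h
  obtain ⟨k, hk, e⟩ := RC.mk_eq.1 h
  have h1 := congrArg (fun x : G (A F) => idiv x.μ) e
  simp only [G.mul_μ, G.scalar_μ, idiv_mul, idiv_pow, idiv_piD, (mem_KG.1 hk).2.1, zero_add,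
    add_left_inj] at h1
  ext v
  have h2 := DFunLike.congr_fun h1 v
  simp only [Finsupp.smul_apply, nsmul_eq_mul] at h2
  omega

lemma pM_twG (E : Div F) (g : G (A F)) : pM (twG E g) = tw2 E (RC.mk (K2 F) g.M) := by
  rw [twG, pM_mk, tw2_mk, G.mul_M, G.scalar_M]

/-- scalars act trivially on objects (`G.scalar_smul`, `G.Gam_scalar`) -/
lemma PhiO_twG (S : Finset (Place F)) (D : Div F) (z : Obj F) (E : Div F) (g : G (A F)) :
    PhiO S D z (twG E g) = if z.f.jac.Δ ≠ 0 ∧ par (pM (twG E g)) ∧ IntO D z g then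
      ENNReal.ofReal (PhiS S g z.f) else 0 := by
  have h1 : IntO D z (G.scalar (piD E) * g) ↔ IntO D z g := by
    rw [intO_iff, intO_iff, mul_smul, Obj.scalar_smul]
  have h2 : PhiS S (G.scalar (piD E) * g) z.f = PhiS S g z.f := by
    simp only [PhiS, phi, locM, mul_smul, G.scalar_smul]
  rw [twG, PhiO_mk, pM_mk, h1, h2]

omit [Cv F] in
lemma selo_mk_scalar (t : (A F)ˣ) (g : G (A F)) :
    RC.mk (KG F) (G.scalar t * g) = RC.mk (KG F) (G.scalar (piD (idiv t)) * g) := by
  obtain ⟨e, he⟩ := (idiv_eq_zero_iff (piD (idiv t) * t⁻¹)).1 (by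
    rw [idiv_mul, idiv_piD, idiv_inv, add_neg_cancel])
  refine RC.mk_eq.2 ⟨G.scalar (piD (idiv t) * t⁻¹), ⟨G.scalar e, ?_⟩, ?_⟩
  · rw [← he]
    exact G.map_scalar _ e
  · rw [← mul_assoc, ← G.scalar_mul, inv_mul_cancel_right]

/-- The function `E ↦ τ (twG E g)` is a Bruhat function for `actD` (the scalar `u` sends
`twG E g` to `twG (E - dv u) g`); `exists_par`, `kap_eq`. -/
theorem tsum_twG {τ : XG F → ℝ≥0∞} (hτ : IsBru ((actG F).comp (scal F)) τ) (g : G (A F)) :
    ∑' E : Div F, (if par (pM (twG E g)) then τ (twG E g) else 0) = kap F := by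
  have hβ : IsBru (actD F) fun E => τ (twG E g) := fun E => by
    rw [← hτ (twG E g), ← (Equiv.inv Fˣ).tsum_eq]
    refine tsum_congr fun u => congrArg τ ?_
    have e : G.scalar (piD E) * g * (gA F (scal F u))⁻¹ = G.scalar (piD E * uA u⁻¹) * g := by
      rw [← map_inv, ← map_inv, G.scalar_mul, mul_assoc, mul_assoc, G.scalar_comm (uA u⁻¹)]
      exact congrArg (fun x => G.scalar (piD E) * (g * x)) (G.map_scalar (toA F) u⁻¹)
    rw [MonoidHom.comp_apply, twG, twG, actG_mk, e, selo_mk_scalar (piD E * uA u⁻¹), idiv_mul,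
      idiv_piD, idiv_uA]
    rfl
  obtain ⟨j, hj, h⟩ := exists_par (RC.mk (K2 F) g.M)
  simp only [pM_twG, h]
  exact kap_eq hβ hj

end SelAvg.FF
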