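import Pool.Agent.H81Sel.Iwa
import Pool.Agent.H81Sel.Zeta

/-! Row SIEG: the mass formula of Siegel for bundles of rank two. -/

namespace SelAvg.FF

open WeierstrassCurve WithZero Filter Topology Matrix
open scoped Classical ENNReal

variable {F : Type} [Field F] [Cv F]

omit [Cv F] in
lemma sieg_orbit (z : Fin 2 → F) : (∃ g : GL (Fin 2) F, g • (![0, 1] : Fin 2 → F) = z) ↔ z ≠ 0 := by
  constructor
  · rintro ⟨g, rfl⟩ h
    simpa using congrFun ((smul_eq_zero_iff_eq g).1 h) 1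
  · intro hz
    by_cases h : z 1 = 0
    · have h0 : z 0 ≠ 0 := fun h0 => hz (funext fun i => by fin_cases i <;> assumption)
      refine ⟨GeneralLinearGroup.mkOfDetNeZero !![0, z 0; 1, z 1] (by simpa using h0), ?_⟩
      funext i
      fin_cases i <;> simp [Units.smul_def, GeneralLinearGroup.mkOfDetNeZero]
    · refine ⟨GeneralLinearGroup.mkOfDetNeZero !![1, z 0; 0, z 1] (by simpa using h), ?_⟩
      funext i
      fin_cases i <;> simp [Units.smul_def, GeneralLinearGroup.mkOfDetNeZero]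

omit [Cv F] in
lemma sieg_stab {g : GL (Fin 2) F} :
    g ∈ MulAction.stabilizer (GL (Fin 2) F) (![0, 1] : Fin 2 → F) ↔ g.1 0 1 = 0 ∧ g.1 1 1 = 1 := by
  rw [MulAction.mem_stabilizer_iff, funext_iff, Fin.forall_fin_two]
  simp [Units.smul_def]

/-- the unipotent matrices -/
def siegU (F : Type) [Field F] :
    Multiplicative F →* MulAction.stabilizer (GL (Fin 2) F) (![0, 1] : Fin 2 → F) :=
  MonoidHom.mk' (fun y => ⟨⟨!![1, 0; -y.toAdd, 1], !![1, 0; y.toAdd, 1],
    by simp [Matrix.one_fin_two], by simp [Matrix.one_fin_two]⟩, sieg_stab.2 ⟨rfl, rfl⟩⟩)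
    fun y y' => Subtype.ext (Units.ext (by simp [add_comm]))

lemma sieg_act (B Z : Div F) (η : A F) (y : Multiplicative F) :
    act2 F (siegU F y) (RC.mk (K2 F) (tri B Z η)) =
      RC.mk (K2 F) (tri B Z (η + toA F y.toAdd)) := by
  rw [act2_mk, mul_inv_eq_iff_eq_mul.2]
  refine Units.ext ?_
  rw [Units.val_mul, tri_val, tri_val]
  ext1 i j
  fin_cases i <;> fin_cases j <;> simp [siegU, Matrix.mul_apply, Fin.sum_univ_two, mul_add]

/-- a Bruhat function for the stabiliser -/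
lemma sieg_bru {β : Div F → ℝ≥0∞} (hβ : IsBru (actD F) β) {σ : X2 F → ℝ≥0∞}
    (hσ : IsBru (((act2 F).comp (MulAction.stabilizer (GL (Fin 2) F)
      (![0, 1] : Fin 2 → F)).subtype).comp (siegU F)) σ) :
    IsBru ((act2 F).comp (MulAction.stabilizer (GL (Fin 2) F) (![0, 1] : Fin 2 → F)).subtype)
      fun x => β (-det2 x) * σ x := by
  refine IsBru.mul (GeneralLinearGroup.det.comp (Subgroup.subtype _)) (fun u => ?_)
    (fun x => -det2 x) (fun g x => ?_) (siegU F) (fun y y' h => ?_) (fun g => ⟨fun h => ?_, ?_⟩)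
    hβ hσ
  · exact ⟨⟨GeneralLinearGroup.mkOfDetNeZero !![(u : F), 0; 0, 1] (by simp),
      sieg_stab.2 ⟨rfl, rfl⟩⟩, Units.ext (by simp [GeneralLinearGroup.mkOfDetNeZero])⟩
  · rw [actD_apply, MonoidHom.comp_apply, det2_act, neg_sub']
    exact sub_neg_eq_add _ _
  · exact neg_injective (G := F) (congrArg (fun g => g.1.1 1 0) h)
  · obtain ⟨h1, h2⟩ := sieg_stab.1 g.2
    have h3 : g.1.1.det = 1 := congrArg Units.val h
    rw [Matrix.det_fin_two, h1, h2, mul_one, zero_mul, sub_zero] at h3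
    refine ⟨Multiplicative.ofAdd (-g.1.1 1 0), Subtype.ext (Units.ext ?_)⟩
    ext1 i j
    fin_cases i <;> fin_cases j <;> simp [siegU, h1, h2, h3]
  · rintro ⟨y, rfl⟩
    exact Units.ext (by simp [siegU])

omit [Cv F] in
lemma sieg_split (f : X2 F → ℝ≥0∞) : ∑' x, f x =
    ∑' Z, ∑' B, ∑' x, if ∃ η, RC.mk (K2 F) (tri B Z η) = x then f x else 0 := by
  have h : ∀ x, f x = ∑' Z, ∑' B, if ∃ η, RC.mk (K2 F) (tri B Z η) = x then f x else 0 := by
    intro x
    obtain ⟨B, Z, η, rfl⟩ := exists_mk_tri x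
    rw [tsum_eq_single Z, tsum_eq_single B, if_pos ⟨η, rfl⟩]
    · exact fun B' h => if_neg fun ⟨_, h'⟩ => h (tri_eq_iff.1 h').1
    · exact fun Z' h => ENNReal.tsum_eq_zero.2 fun B' =>
        if_neg fun ⟨_, h'⟩ => h (tri_eq_iff.1 h').2.1
  rw [tsum_congr h, ENNReal.tsum_comm]
  exact tsum_congr fun Z => ENNReal.tsum_comm

/-- Count pairs `(x, s)` with `s` a nonzero section.  `GL₂(F)` is transitive on the nonzero
vectors, the stabiliser of `![0, 1]` is `H = {[[α, 0], [y, 1]]}`; apply `unfold_eq`.  Parametrise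
`x` by `(B, Z, η mod A(Z - B))` (`exists_mk_tri`, `tri_eq_iff`); `H` acts by
`B ↦ B - dv α` and `η ↦ (η - y) / α`.  A Bruhat function for `H` is `β (-B) * σ x` (`IsBru.mul`
with `actD` and the unipotent subgroup).  For fixed `B, Z` the sum of `σ` is
`q^(-(deg (Z - B) + c))` (`mass_line`); then `kap_eq`, `mem_H0_tri`, `tsum_ofReal_ztTerm`. -/
theorem siegel_pairs {ρ : X2 F → ℝ≥0∞} (hρ : IsBru (act2 F) ρ) {k : ℤ} (hk : (dl F : ℤ) ∣ k) :
    ∑' x, ρ x * (if deg2 x = k then (((H0 x).card - 1 : ℕ) : ℝ≥0∞) else 0) =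
      kap F * ENNReal.ofReal (qq F ^ (k - cc F) * zt F) := by
  have hq : 0 < qq F := zero_lt_one.trans one_lt_qq
  obtain ⟨β, hβ⟩ := exists_bruD (F := F)
  obtain ⟨σ, hσ⟩ := exists_bru (((act2 F).comp (MulAction.stabilizer (GL (Fin 2) F)
      (![0, 1] : Fin 2 → F)).subtype).comp (siegU F)) fun x =>
    (finite_stab2 x).preimage (f := fun y => (siegU F y : GL (Fin 2) F))
      fun y _ y' _ h => neg_injective (G := F) (congrArg (fun g => g.1 1 0) h)
  have key := unfold_eq (MulAction.toPermHom (GL (Fin 2) F) (Fin 2 → F)) (Subgroup.subtype _)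
    Subtype.val_injective hρ (sieg_bru hβ hσ) ![0, 1]
    (fun g => ⟨fun h => ⟨⟨g, h⟩, rfl⟩, fun ⟨t, h⟩ => h ▸ t.2⟩)
    (fun z x => if deg2 x = k ∧ z ∈ H0 x then 1 else 0)
    fun g z x => if_congr (and_congr (by rw [deg2_act]) (mem_H0_act g x z)) rfl rfl
  refine (tsum_congr fun x => ?_).trans (key.trans ?_)
  · congr 1
    by_cases hx : deg2 x = k
    · rw [if_pos hx, tsum_eq_sum (s := (H0 x).erase 0), ← Finset.card_erase_of_mem
        (show 0 ∈ H0 x from zero_mem_hbox _), Finset.card_eq_sum_ones, Nat.cast_sum]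
      · refine Finset.sum_congr rfl fun z hz => ?_
        obtain ⟨h1, h2⟩ := Finset.mem_erase.1 hz
        rw [if_pos (show deg2 x = k ∧ z ∈ H0 x from ⟨hx, h2⟩), Nat.cast_one]
        exact (if_pos ((sieg_orbit z).2 h1)).symm
      · intro z hz
        split_ifs with h1 h2
        · exact absurd (Finset.mem_erase.2 ⟨(sieg_orbit z).1 h1, h2.2⟩) hz
        · rfl
        · rfl
    · simp [hx]
  · rw [sieg_split, ENNReal.ofReal_mul (zpow_pos hq _).le, ← tsum_ofReal_ztTerm, ← mul_assoc,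
      ← ENNReal.tsum_mul_left]
    refine tsum_congr fun Z => ?_
    rw [← kap_eq hβ hk.neg_right, ← ((Equiv.addRight Z).trans (Equiv.neg _)).tsum_eq
      fun E => if deg E = -k then β E else 0, mul_assoc, ← ENNReal.tsum_mul_right]
    refine tsum_congr fun B => ?_
    have h1 := mass_line (Z - B) (fun η => RC.mk (K2 F) (tri B Z η))
      (fun a a' => by rw [tri_eq_iff]; simp) σ fun a => by
        rw [← hσ (RC.mk (K2 F) (tri B Z a))]
        exact tsum_congr fun y => congrArg σ (sieg_act B Z a (Multiplicative.ofAdd y)).symm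
    have h2 : ∀ x, (if ∃ η, RC.mk (K2 F) (tri B Z η) = x then
        β (-det2 x) * σ x * (if deg2 x = k ∧ ![0, 1] ∈ H0 x then 1 else 0) else 0) =
        β (-(B + Z)) * (if deg B + deg Z = k ∧ 0 ≤ Z then 1 else 0) *
          if ∃ η, RC.mk (K2 F) (tri B Z η) = x then σ x else 0 := by
      intro x
      by_cases hx : ∃ η, RC.mk (K2 F) (tri B Z η) = x
      · rw [if_pos hx, if_pos hx, mul_right_comm]
        obtain ⟨η, rfl⟩ := hx
        simp only [det2_mk, det_tri, idiv_piD, deg2_tri, mem_H0_tri]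
      · rw [if_neg hx, if_neg hx, mul_zero]
    rw [tsum_congr h2, ENNReal.tsum_mul_left, h1]
    change _ = (if deg (-(B + Z)) = -k then β (-(B + Z)) else 0) * _
    simp only [map_neg, neg_inj, map_add, ztTerm]
    by_cases h3 : deg B + deg Z = k
    · by_cases h4 : 0 ≤ Z
      · rw [if_pos ⟨h3, h4⟩, if_pos h3, if_pos h4, mul_one,
          ← ENNReal.ofReal_mul (zpow_pos hq _).le, ← zpow_add₀ hq.ne', map_sub, ← h3]
        congr 3
        ring
      · simp [h4]
    · simp [h3]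

lemma sieg_twist {ρ : X2 F → ℝ≥0∞} (hρ : IsBru (act2 F) ρ) {k : ℤ} (hk : (dl F : ℤ) ∣ k) (m : ℕ) :
    ∑' x : {x : X2 F | deg2 x = k},
      ρ x * (((hbox (tw1 (mvL (x : X2 F).out) m)).card - 1 : ℕ) : ℝ≥0∞) =
      kap F * ENNReal.ofReal (qq F ^ (k + 2 * (m * pp F) - cc F) * zt F) := by
  have hd : deg (m • PP F) = m * pp F := by rw [map_nsmul, deg_PP, nsmul_eq_mul]
  have h1 := hρ.comp_perm (tw2 (m • PP F)).symm fun g x => by
    rw [Equiv.symm_apply_eq]
    change _ = tw2 _ (RC.act (K2 F) (glA F g) _)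
    rw [tw2_act, Equiv.apply_symm_apply]
    rfl
  rw [← siegel_pairs h1 (hk.add (Dvd.dvd.mul_left (hd ▸ dl_dvd (m • PP F)) 2)),
    ← (tw2 (m • PP F)).tsum_eq, tsum_subtype {x : X2 F | deg2 x = k}
      fun x => ρ x * (((hbox (tw1 (mvL x.out) m)).card - 1 : ℕ) : ℝ≥0∞)]
  refine tsum_congr fun x => ?_
  have h2 := H0_tw2 x.out m
  rw [RC.mk_out] at h2
  rw [Equiv.symm_apply_apply, deg2_tw2, hd, h2, Set.indicator_apply]
  by_cases hx : deg2 x = k
  · rw [if_pos (show x ∈ {x : X2 F | deg2 x = k} from hx), if_pos (by rw [hx])]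
  · rw [if_neg (show x ∉ {x : X2 F | deg2 x = k} from hx), if_neg (by simpa using hx), mul_zero]

/-- Apply `siegel_pairs` to the degree `k + 2 m p` and the Bruhat function `ρ ∘ (tw2 (m P))⁻¹`
(`IsBru.comp_perm`, `tw2_act`), divide by `q^(k + 2 m p + 2 c)` and use `tsum_eq_of_antitone` with
`b m x = card (H0 (tw2 (m P) x)) / q^(k + 2 m p + 2 c)` (`H0_tw2`, `card_tw1_le`, `NN_spec`,
`NN_mvL`), on the subtype `deg2 x = k` or with `r x = if deg2 x = k then ρ x else 0`. -/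
theorem siegel {ρ : X2 F → ℝ≥0∞} (hρ : IsBru (act2 F) ρ) {k : ℤ} (hk : (dl F : ℤ) ∣ k) :
    ∑' x, (if deg2 x = k then ρ x else 0) =
      kap F * ENNReal.ofReal (qq F ^ (-3 * cc F) * zt F) := by
  have hq : 0 < qq F := zero_lt_one.trans one_lt_qq
  obtain ⟨N, hN⟩ : ∃ N, N = qq F ^ (k + 2 * cc F) := ⟨_, rfl⟩
  obtain ⟨Y, hY⟩ : ∃ Y, Y = qq F ^ (2 * pp F) := ⟨_, rfl⟩
  have hN0 : 0 < N := hN ▸ zpow_pos hq _
  have hY1 : 1 < Y := hY ▸ one_lt_pow₀ one_lt_qq (by have := dg_pos (Cv.P : Place F); positivity)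
  have hY0 : 0 < Y := zero_lt_one.trans hY1
  have key := tsum_eq_of_antitone (fun x : {x : X2 F | deg2 x = k} => ρ x)
    (fun m x => ((hbox (tw1 (mvL (x : X2 F).out) m)).card : ℝ≥0∞) * ENNReal.ofReal (N * Y ^ m)⁻¹)
    ?_ ?_ (fun m x => (((hbox (tw1 (mvL (x : X2 F).out) m)).card - 1 : ℕ) : ℝ≥0∞) *
      ENNReal.ofReal (N * Y ^ m)⁻¹) (fun m => ENNReal.ofReal (N * Y ^ m)⁻¹) ?_ ?_
    (M := kap F * ENNReal.ofReal (qq F ^ (-3 * cc F) * zt F))
    (ENNReal.mul_ne_top kap_ne_top ENNReal.ofReal_ne_top) ?_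
  · rw [← key, tsum_subtype {x : X2 F | deg2 x = k} ρ]
    exact tsum_congr fun x => by rw [Set.indicator_apply]; rfl
  · intro m x
    have h1 : ((hbox (tw1 (mvL (x : X2 F).out) (m + 1))).card : ℝ) ≤
        Y * (hbox (tw1 (mvL (x : X2 F).out) m)).card := by
      rw [hY]
      exact_mod_cast card_tw1_le (mvL (x : X2 F).out) m
    rw [← ENNReal.ofReal_natCast, ← ENNReal.ofReal_natCast,
      ← ENNReal.ofReal_mul (Nat.cast_nonneg _), ← ENNReal.ofReal_mul (Nat.cast_nonneg _)]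
    refine ENNReal.ofReal_le_ofReal
      ((mul_le_mul_of_nonneg_right h1 (by positivity)).trans (le_of_eq ?_))
    rw [pow_succ]
    field_simp
  · intro x
    filter_upwards [NN_spec (mvL (x : X2 F).out)] with m hm
    have hx : deg (idiv (GeneralLinearGroup.det (x : X2 F).out)) = k := x.2
    rw [NN_mvL, hx, ← hN, mul_right_comm, pow_mul, ← hY] at hm
    rw [← ENNReal.ofReal_natCast, ← ENNReal.ofReal_mul (Nat.cast_nonneg _), hm,
      mul_inv_cancel₀ (by positivity), ENNReal.ofReal_one]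
  · rw [← ENNReal.ofReal_zero]
    exact ENNReal.tendsto_ofReal (tendsto_inv_atTop_zero.comp
      ((tendsto_pow_atTop_atTop_of_one_lt hY1).const_mul_atTop hN0))
  · intro m x
    have h1 : 1 ≤ (hbox (tw1 (mvL (x : X2 F).out) m)).card :=
      Finset.card_pos.2 ⟨0, zero_mem_hbox _⟩
    rw [← add_one_mul, ← Nat.cast_succ, Nat.succ_eq_add_one, Nat.sub_add_cancel h1]
  · intro m
    simp only [← mul_assoc]
    rw [ENNReal.tsum_mul_right, sieg_twist hρ hk m, mul_assoc, ← ENNReal.ofReal_mul' (by positivity),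
      mul_right_comm, hN, hY, ← pow_mul, ← zpow_natCast, ← zpow_add₀ hq.ne', ← _root_.zpow_neg,
      ← zpow_add₀ hq.ne']
    congr 4
    push_cast
    ring

/-- the two degrees that represent all classes modulo twists -/
def par (x : X2 F) : Prop := deg2 x = 0 ∨ deg2 x = dl F

lemma par_act (γ : GL (Fin 2) F) (x : X2 F) : par (act2 F γ x) ↔ par x := by
  simp only [par, deg2_act]

theorem siegel_par {ρ : X2 F → ℝ≥0∞} (hρ : IsBru (act2 F) ρ) :
    ∑' x, (if par x then ρ x else 0) =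
      ENNReal.ofReal (2 * kapR F * (qq F ^ (-3 * cc F) * zt F)) := by
  have h0 : (dl F : ℤ) ≠ 0 := Nat.cast_ne_zero.2 dl_pos.ne'
  have h1 : ∀ x, (if par x then ρ x else 0) =
      (if deg2 x = 0 then ρ x else 0) + if deg2 x = dl F then ρ x else 0 := by
    intro x
    by_cases h : deg2 x = 0
    · rw [if_pos (show par x from Or.inl h), if_pos h, if_neg (h ▸ h0.symm), add_zero]
    · rw [if_neg h, zero_add]
      exact if_congr (show par x ↔ _ from or_iff_right h) rfl rfl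
  have h2 := (kapR_pos (F := F)).le
  simp only [h1]
  rw [ENNReal.tsum_add, siegel hρ (dvd_zero _), siegel hρ dvd_rfl, ← two_mul, ← ofReal_kapR,
    ← ENNReal.ofReal_mul h2, mul_assoc, ENNReal.ofReal_mul zero_le_two, ENNReal.ofReal_ofNat]

/-- for every `x` exactly one degree of a twist is allowed -/
theorem exists_par (x : X2 F) : ∃ j : ℤ, (dl F : ℤ) ∣ j ∧ ∀ E : Div F, par (tw2 E x) ↔ deg E = j := by
  have h0 : (dl F : ℤ) ≠ 0 := Nat.cast_ne_zero.2 dl_pos.ne'
  obtain ⟨a, ha⟩ : (dl F : ℤ) ∣ deg2 x := dl_dvd _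
  refine ⟨dl F * -(a / 2), dvd_mul_right _ _, fun E => ?_⟩
  obtain ⟨e, he⟩ := dl_dvd E
  have h1 : deg2 (tw2 E x) = dl F * (a + 2 * e) := by rw [deg2_tw2, ha, he]; ring
  rw [par, h1, he, mul_right_inj' h0, mul_eq_zero, or_iff_right h0, mul_eq_left₀ h0]
  omega

end SelAvg.FF
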