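import Pool.Agent.H81Sel.LatA

/-! Row TAILA: densities of roots in the spaces `L(D)`, the Schwartz-Zippel lemma for product
boxes and a one-variable form of the Ekedahl sieve. -/

namespace SelAvg.FF

open Polynomial WithZero Filter Topology
open scoped Classical

variable {F : Type} [Field F]

/-- the valuation ring of `v` in `F` -/
abbrev OO (v : Place F) : ValuationSubring F := v.1.valuationSubring

/-- the residue map of `OO v` -/
noncomputable abbrev rO (v : Place F) : OO v →+* IsLocalRing.ResidueField (OO v) :=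
  IsLocalRing.residue (OO v)

lemma rO_eq_zero {v : Place F} (y : OO v) : rO v y = 0 ↔ v.1 (y : F) < 1 := by
  rw [IsLocalRing.residue_eq_zero_iff, Valuation.mem_maximalIdeal_iff]

/-- the polynomial has integral coefficients at `v` and nonzero reduction -/
def RedNe (v : Place F) (Q : F[X]) : Prop :=
  ∃ Q' : (OO v)[X], Q'.map (OO v).subtype = Q ∧ Q'.map (rO v) ≠ 0

lemma ta_lift {v : Place F} {Q : F[X]} (h : ∀ i, v.1 (Q.coeff i) ≤ 1) :
    ∃ Q' : (OO v)[X], Q'.map (OO v).subtype = Q :=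
  (mem_lifts _).1 ((lifts_iff_coeff_lifts _).2 fun i => ⟨⟨_, h i⟩, rfl⟩)

lemma ta_le_one {D : Div F} {x : F} (hx : x ∈ LL D) {v : Place F} (hv : D v = 0) : v.1 x ≤ 1 := by
  have := hx v
  rwa [hv, exp_zero] at this

lemma ta_lt_one {v : Place F} {x : F} (h : v.1 x < 1) : v.1 x ≤ exp (-1) := by
  rcases eq_or_ne x 0 with rfl | hx
  · simp
  · rw [v_eq_exp v hx] at h ⊢
    rw [← exp_zero, exp_lt_exp] at h
    rw [exp_le_exp]
    omega

variable [Cv F]

lemma ta_two_le : (2 : ℝ) ≤ qq F := by exact_mod_cast (Cv.two_le (F := F))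

lemma ta_pow {N : ℕ} {a : ℤ} (h : (N : ℤ) ≤ a) : 1 ≤ (1 / 2 : ℝ) ^ N * qq F ^ a := by
  have h2 := ta_two_le (F := F)
  have h1 : (2 : ℝ) ^ N ≤ qq F ^ a :=
    (pow_le_pow_left₀ (by norm_num) h2 N).trans
      ((zpow_natCast _ N).ge.trans (zpow_le_zpow_right₀ (by linarith) h))
  rw [one_div, inv_pow, le_inv_mul_iff₀ (by positivity), mul_one]
  exact h1

theorem exists_tkap : ∃ C : ℝ, 1 ≤ C ∧ ∀ (D : Div F) (N : ℕ), (c0 F : ℤ) ≤ deg D → (N : ℤ) ≤ deg D →
    1 ≤ C * (1 / 2) ^ N * (box D).card ∧ ∀ v : Place F, N ≤ dg v →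
      ((box (D - Finsupp.single v 1)).card : ℝ) ≤ C * (1 / 2) ^ N * (box D).card := by
  obtain ⟨C, hC, h⟩ := card_box_le (F := F) 0
  have hq : 0 < qq F := lt_of_lt_of_le two_pos ta_two_le
  have hc : 0 < qq F ^ (-cc F) := zpow_pos hq _
  refine ⟨C + qq F ^ (-cc F), by linarith, fun D N h0 hN => ?_⟩
  have hp : (0 : ℝ) < (1 / 2) ^ N := by positivity
  have hb : (0 : ℝ) < qq F ^ (deg D + cc F) := zpow_pos hq _
  have h1 : 1 ≤ (C + qq F ^ (-cc F)) * (1 / 2) ^ N * (box D).card := by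
    rw [card_box h0]
    have e : qq F ^ (-cc F) * (1 / 2) ^ N * qq F ^ (deg D + cc F) =
        (1 / 2 : ℝ) ^ N * qq F ^ deg D := by
      rw [zpow_add₀ hq.ne', zpow_neg]
      field_simp
    have := ta_pow (F := F) hN
    have h3 : 0 ≤ C * (1 / 2) ^ N * qq F ^ (deg D + cc F) := by positivity
    nlinarith
  refine ⟨h1, fun v hv => ?_⟩
  rcases lt_or_ge (deg (D - Finsupp.single v 1)) 0 with h2 | h2
  · refine le_trans ?_ h1
    rw [Nat.cast_le_one]
    exact Finset.card_le_one.2 fun a ha b hb =>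
      (eq_zero_of_deg_neg h2 (mem_box.1 ha)).trans (eq_zero_of_deg_neg h2 (mem_box.1 hb)).symm
  · refine (h _ (by simpa using h2)).trans ?_
    rw [card_box h0, map_sub, deg_single, one_mul]
    have h3 := ta_pow (F := F) (a := dg v) (N := N) (by exact_mod_cast hv)
    have e : qq F ^ (deg D + cc F) = qq F ^ (dg v : ℤ) * qq F ^ (deg D - dg v + cc F) := by
      rw [← zpow_add₀ hq.ne']
      congr 1
      ring
    have h4 : (0 : ℝ) < qq F ^ (deg D - dg v + cc F) := zpow_pos hq _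
    have h5 : qq F ^ (deg D - dg v + cc F) ≤ (1 / 2) ^ N * qq F ^ (deg D + cc F) := by
      rw [e, ← mul_assoc]
      exact le_mul_of_one_le_left h4.le h3
    have h6 : 0 ≤ qq F ^ (-cc F) * (1 / 2) ^ N * qq F ^ (deg D + cc F) := by positivity
    have h7 := mul_le_mul_of_nonneg_left h5 (by linarith : 0 ≤ C)
    nlinarith

variable (F) in
/-- the constant in the bounds for the density of one residue class -/
noncomputable def tkap : ℝ := (exists_tkap (F := F)).choose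

lemma one_le_tkap : 1 ≤ tkap F := (exists_tkap (F := F)).choose_spec.1

lemma tkap_nonneg : 0 ≤ tkap F := zero_le_one.trans one_le_tkap

/-- At most `r` residue classes are roots, and each class has at most `card L(D - v)` elements. -/
theorem dens_root_le {D : Div F} {N : ℕ} (h0 : (c0 F : ℤ) ≤ deg D) (hN : (N : ℤ) ≤ deg D)
    {v : Place F} (hv : D v = 0) (hN' : N ≤ dg v) {Q : F[X]} {r : ℕ} (hQ : RedNe v Q)
    (hr : Q.natDegree ≤ r) :
    dens (box D) (fun y => v.1 (Q.eval y) < 1) ≤ r * (tkap F * (1 / 2 : ℝ) ^ N) := by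
  obtain ⟨Q', rfl, hQ⟩ := hQ
  have hk := tkap_nonneg (F := F)
  refine (dens_mono (Q := fun y => ∃ b ∈ (Q'.map (rO v)).roots.toFinset,
    ∃ y' : OO v, (y' : F) = y ∧ rO v y' = b) fun y hy h => ?_).trans
    ((dens_exists_le _ _ _).trans ((Finset.sum_le_card_nsmul _ _
      (tkap F * (1 / 2 : ℝ) ^ N) fun b _ => ?_).trans ?_))
  · refine ⟨_, ?_, ⟨y, ta_le_one (mem_box.1 hy) hv⟩, rfl, rfl⟩
    rw [Multiset.mem_toFinset, mem_roots hQ, IsRoot, eval_map, eval₂_hom, rO_eq_zero]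
    rw [eval_map] at h
    exact (congrArg v.1 (eval₂_hom (p := Q') (OO v).subtype ⟨y, _⟩)).ge.trans_lt h
  · refine dens_le_of_card_le (le_trans ?_
      (((exists_tkap (F := F)).choose_spec.2 D N h0 hN).2 v hN')) (by positivity)
    rw [Nat.cast_le]
    rcases Finset.eq_empty_or_nonempty ((box D).filter fun y =>
      ∃ y' : OO v, (y' : F) = y ∧ rO v y' = b) with he | ⟨y₀, hy₀⟩
    · convert Nat.zero_le _
      convert Finset.card_eq_zero.2 he
    obtain ⟨a1, y₁, rfl, a2⟩ := Finset.mem_filter.1 hy₀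
    refine Finset.card_le_card_of_injOn (fun y => y - y₁) (fun y hy => ?_)
      fun _ _ _ _ e => sub_left_inj.1 e
    simp only [Finset.coe_filter, Set.mem_ofPred_eq] at hy
    obtain ⟨b1, y₂, rfl, b2⟩ := hy
    refine Finset.mem_coe.2 (mem_box.2 fun w => ?_)
    rcases eq_or_ne w v with rfl | hw
    · rw [Finsupp.sub_apply, hv, Finsupp.single_eq_same, zero_sub]
      refine ta_lt_one ((rO_eq_zero (y₂ - y₁)).1 ?_)
      rw [map_sub, a2, b2, sub_self]
    · rw [Finsupp.sub_apply, Finsupp.single_eq_of_ne hw, sub_zero]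
      exact (LL D).sub_mem (mem_box.1 b1) (mem_box.1 a1) w
  · rw [nsmul_eq_mul]
    refine mul_le_mul_of_nonneg_right (Nat.cast_le.2 ?_) (by positivity)
    refine (Multiset.toFinset_card_le _).trans ((card_roots' _).trans (natDegree_map_le.trans ?_))
    rwa [natDegree_map_eq_of_injective (OO v).subtype_injective] at hr

/-- a set with at most `r` elements is rare -/
lemma dens_few_le {D : Div F} {N : ℕ} (h0 : (c0 F : ℤ) ≤ deg D) (hN : (N : ℤ) ≤ deg D)
    {P : F → Prop} {r : ℕ} (h : ∀ s : Finset F, (∀ u ∈ s, P u) → s.card ≤ r) :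
    dens (box D) P ≤ r * (tkap F * (1 / 2 : ℝ) ^ N) := by
  have hk := tkap_nonneg (F := F)
  refine dens_le_of_card_le ?_ (by positivity)
  rw [mul_assoc]
  exact le_trans (Nat.cast_le.2 (h _ fun u hu => (Finset.mem_filter.1 hu).2))
    (le_mul_of_one_le_right (Nat.cast_nonneg r)
      ((exists_tkap (F := F)).choose_spec.2 D N h0 hN).1)

/-- a nonzero polynomial has at most `r` roots -/
theorem dens_root_zero_le {D : Div F} {N : ℕ} (h0 : (c0 F : ℤ) ≤ deg D) (hN : (N : ℤ) ≤ deg D)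
    {Q : F[X]} {r : ℕ} (hQ : Q ≠ 0) (hr : Q.natDegree ≤ r) :
    dens (box D) (fun y => Q.eval y = 0) ≤ r * (tkap F * (1 / 2 : ℝ) ^ N) :=
  dens_few_le h0 hN fun _ hs => le_trans (Finset.card_le_card fun y hy =>
    Multiset.mem_toFinset.2 ((mem_roots hQ).2 (hs y hy)))
    ((Multiset.toFinset_card_le _).trans ((card_roots' Q).trans hr))

/-- `G` is the set of places that are considered -/
theorem ek_one {D E : Div F} {N : ℕ} (h0 : (c0 F : ℤ) ≤ deg D) (hN : (N : ℤ) ≤ deg D) {R : F}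
    (hR : R ≠ 0) (hE : R ∈ LL E) {B : ℕ} (hB : deg E ≤ B) {Q : F[X]} {r : ℕ}
    (hr : Q.natDegree ≤ r) (G : Place F → Prop) (hG : ∀ v, G v → D v = 0 ∧ E v = 0 ∧ N ≤ dg v) :
    dens (box D) (fun y => ∃ v, G v ∧ v.1 R < 1 ∧ RedNe v Q ∧ v.1 (Q.eval y) < 1) ≤
      B * (r * (tkap F * (1 / 2 : ℝ) ^ N)) := by
  have hk := tkap_nonneg (F := F)
  set T := (Cv.fin_supp R hR).toFinset.filter fun v => G v ∧ v.1 R < 1 ∧ RedNe v Q with hT
  have h1 : (T.card : ℤ) ≤ B := (card_zeros_le hR hE T fun v hv =>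
    ⟨(hG v (Finset.mem_filter.1 hv).2.1).2.1, (Finset.mem_filter.1 hv).2.2.1⟩).trans hB
  refine (dens_mono (Q := fun y => ∃ v ∈ T, v.1 (Q.eval y) < 1) fun y _ ⟨v, a1, a2, a3, a4⟩ =>
    ⟨v, Finset.mem_filter.2 ⟨(Cv.fin_supp R hR).mem_toFinset.2 a2.ne, a1, a2, a3⟩, a4⟩).trans ?_
  refine (dens_exists_le _ _ _).trans ?_
  refine (Finset.sum_le_card_nsmul _ _ (r * (tkap F * (1 / 2 : ℝ) ^ N)) fun v hv => ?_).trans ?_
  · obtain ⟨-, a1, -, a2⟩ := Finset.mem_filter.1 hv
    exact dens_root_le h0 hN (hG v a1).1 (hG v a1).2.2 a2 hr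
  · rw [nsmul_eq_mul]
    exact mul_le_mul_of_nonneg_right (by exact_mod_cast h1) (by positivity)

variable {n : ℕ}

lemma mem_PB {D : Fin n → Div F} {k : Fin n → ℕ} {m : ℕ} {x : Fin n → F} :
    x ∈ PB D k m ↔ ∀ i, x i ∈ LL (D i + (k i * m) • PP F) := by
  simp only [PB, Fintype.mem_piFinset, mem_box]

lemma pp_pos : 0 < pp F := dg_pos _

lemma ta_deg (A : Div F) (j : ℕ) : deg (A + j • PP F) = deg A + j * pp F := by
  rw [map_add, map_nsmul, deg_PP, nsmul_eq_mul]

/-- the degree grows at least like `j` -/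
lemma ta_deg_ge (A : Div F) : ∃ c : ℕ, ∀ j : ℕ, c ≤ j → (c0 F : ℤ) ≤ deg (A + j • PP F) ∧
    ((j - c : ℕ) : ℤ) ≤ deg (A + j • PP F) := by
  refine ⟨c0 F + (deg A).natAbs, fun j hj => ?_⟩
  have h1 : (j : ℤ) ≤ j * pp F :=
    le_mul_of_one_le_right (Nat.cast_nonneg _) (by exact_mod_cast pp_pos (F := F))
  rw [ta_deg]
  omega

/-- places of large degree are outside the support -/
lemma ta_supp (A : Div F) : ∃ c : ℕ, ∀ v : Place F, c ≤ dg v → ∀ j : ℕ, (A + j • PP F) v = 0 := by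
  refine ⟨(insert (Cv.P : Place F) A.support).sup dg + 1, fun v hv j => ?_⟩
  have h : v ∉ insert (Cv.P : Place F) A.support := fun h =>
    absurd (Finset.le_sup (f := dg) h) (by omega)
  rw [Finset.mem_insert, not_or, Finsupp.notMem_support_iff] at h
  rw [Finsupp.add_apply, h.2, Finsupp.smul_apply, PP, Finsupp.single_eq_of_ne h.1, smul_zero,
    add_zero]

lemma tendsto_card_box (A : Div F) {g : ℕ → ℕ} (hg : Tendsto g atTop atTop) :
    Tendsto (fun m => ((box (A + g m • PP F)).card : ℝ)) atTop atTop := by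
  obtain ⟨c, hc⟩ := ta_deg_ge A
  have hk : 0 < tkap F := zero_lt_one.trans_le one_le_tkap
  have h1 : Tendsto (fun m => (2 : ℝ) ^ (g m - c) / tkap F) atTop atTop :=
    ((tendsto_pow_atTop_atTop_of_one_lt one_lt_two).comp
      ((tendsto_sub_atTop_nat c).comp hg)).atTop_div_const hk
  refine tendsto_atTop_mono' _ ?_ h1
  filter_upwards [hg.eventually_ge_atTop c] with m hm
  have h2 : 1 ≤ tkap F * (1 / 2) ^ (g m - c) * (box (A + g m • PP F)).card :=
    ((exists_tkap (F := F)).choose_spec.2 _ _ (hc _ hm).1 (hc _ hm).2).1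
  rw [div_le_iff₀ hk]
  rw [one_div, inv_pow, mul_right_comm, le_mul_inv_iff₀ (by positivity), one_mul] at h2
  linarith

lemma ta_tendsto_mul {j : ℕ} (hj : 0 < j) : Tendsto (fun m : ℕ => j * m) atTop atTop :=
  tendsto_atTop_mono (fun m => Nat.le_mul_of_pos_left m hj) tendsto_id

/-- `MvPolynomial.schwartz_zippel_sum_degreeOf` -/
theorem dens_aeval_tendsto (D : Fin n → Div F) {k : Fin n → ℕ} (hk : ∀ i, 0 < k i)
    {p : MvPolynomial (Fin n) F} (hp : p ≠ 0) :
    Tendsto (fun m => dens (PB D k m) fun x => MvPolynomial.aeval x p = 0) atTop (𝓝 0) := by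
  have h4 : ∀ i, Tendsto (fun m => (p.degreeOf i : ℝ) /
      ((box (D i + (k i * m) • PP F)).card : ℝ)) atTop (𝓝 0) := fun i =>
    Tendsto.const_div_atTop (tendsto_card_box (D i) (ta_tendsto_mul (hk i))) _
  have h5 := tendsto_finsetSum Finset.univ fun i _ => h4 i
  rw [Finset.sum_const_zero] at h5
  refine squeeze_zero (fun d => dens_nonneg _ _) (fun m => ?_) h5
  have h6 := (NNRat.cast_le (K := ℝ)).2
    (MvPolynomial.schwartz_zippel_sum_degreeOf hp fun i => box (D i + (k i * m) • PP F))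
  push_cast at h6
  rw [dens, PB, Fintype.card_piFinset]
  push_cast
  refine le_trans (le_of_eq ?_) h6
  congr

omit [Cv F] in
lemma ta_prod_mem {ι : Type} (s : Finset ι) (x : ι → F) (E : ι → Div F)
    (h : ∀ i ∈ s, x i ∈ LL (E i)) : ∏ i ∈ s, x i ∈ LL (∑ i ∈ s, E i) := by
  induction s using Finset.induction_on with
  | empty => exact one_mem_LL le_rfl
  | insert a s ha ih =>
    rw [Finset.prod_insert ha, Finset.sum_insert ha]
    exact mul_mem_LL (h a (Finset.mem_insert_self _ _))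
      (ih fun i hi => h i (Finset.mem_insert_of_mem hi))

/-- the poles of the value of a polynomial -/
lemma aeval_mem_LL (p : MvPolynomial (Fin n) F) : ∃ B : Div F, 0 ≤ B ∧ ∀ E : Div F, 0 ≤ E →
    ∀ x : Fin n → F, (∀ i, x i ∈ LL E) → MvPolynomial.aeval x p ∈ LL (B + p.totalDegree • E) := by
  obtain ⟨B, h0, hB⟩ := exists_mem_LL fun s : p.support => p.coeff s
  refine ⟨B, h0, fun E hE x hx => ?_⟩
  rw [MvPolynomial.aeval_def, MvPolynomial.eval₂_eq']
  refine sum_mem fun s hs => ?_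
  refine LL_mono ?_ (mul_mem_LL (hB ⟨s, hs⟩)
    (ta_prod_mem Finset.univ _ (fun i => s i • E) fun i _ => pow_mem_LL (hx i) _))
  rw [← Finset.sum_smul]
  refine add_le_add le_rfl (nsmul_le_nsmul_left hE ?_)
  refine le_trans (le_of_eq ?_) (MvPolynomial.le_totalDegree hs)
  rw [Finsupp.sum_fintype _ _ fun _ => rfl]

/-- a common bound for the coordinates -/
lemma PB_bound (D : Fin n → Div F) (k : Fin n → ℕ) : ∃ (B : Div F) (c : ℕ), 0 ≤ B ∧
    ∀ m, ∀ x ∈ PB D k m, ∀ i, x i ∈ LL (B + (c * m) • PP F) := by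
  refine ⟨∑ i, (D i)⁺, ∑ i, k i, Finset.sum_nonneg fun i _ => posPart_nonneg _,
    fun m x hx i => LL_mono (add_le_add ?_ ?_) (mem_PB.1 hx i)⟩
  · exact (le_posPart _).trans (Finset.single_le_sum (f := fun i => (D i)⁺)
      (fun i _ => posPart_nonneg _) (Finset.mem_univ i))
  · exact nsmul_le_nsmul_left PP_nonneg (Nat.mul_le_mul_right _
      (Finset.single_le_sum (f := k) (fun i _ => Nat.zero_le _) (Finset.mem_univ i)))

theorem aeval_PB (D : Fin n → Div F) (k : Fin n → ℕ) (p : MvPolynomial (Fin n) F) :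
    ∃ (B : Div F) (c : ℕ), 0 ≤ B ∧
      ∀ m, ∀ x ∈ PB D k m, MvPolynomial.aeval x p ∈ LL (B + (c * m) • PP F) := by
  obtain ⟨B, c, h0, hB⟩ := PB_bound D k
  obtain ⟨B', h0', hB'⟩ := aeval_mem_LL p
  refine ⟨B' + p.totalDegree • B, p.totalDegree * c, add_nonneg h0' (nsmul_nonneg h0 _),
    fun m x hx => ?_⟩
  have := hB' _ (add_nonneg h0 (nsmul_nonneg PP_nonneg _)) x (hB m x hx)
  rwa [smul_add, smul_smul, ← add_assoc, ← mul_assoc] at this

lemma ta_deg_le (B : Div F) (c m : ℕ) :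
    deg (B + (c * m) • PP F) ≤ ((c * pp F * m + (deg B).natAbs : ℕ) : ℤ) := by
  rw [ta_deg]
  push_cast
  have := le_abs_self (deg B)
  linarith [mul_right_comm (c : ℤ) m (pp F)]

lemma ta_tendsto {N : ℕ → ℕ} {c e : ℕ} (he : 0 < e) (hN : ∀ m, (m - c) / e ≤ N m) :
    Tendsto N atTop atTop :=
  tendsto_atTop_mono hN ((Nat.tendsto_div_const_atTop he.ne').comp (tendsto_sub_atTop_nat c))

lemma ta_div_le (m c c' e : ℕ) : (m - (c + c')) / e ≤ (m - c) / e :=
  Nat.div_le_div_right (by omega)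

/-- The Ekedahl sieve in the form needed.  `F₁` and the polynomial `Q x` do not depend on the
coordinate `i`. -/
theorem ek_tendsto (D : Fin n → Div F) {k : Fin n → ℕ} (hk : ∀ i, 0 < k i) {N : ℕ → ℕ} {c e : ℕ}
    (he : 0 < e) (hN : ∀ m, (m - c) / e ≤ N m) (i : Fin n) {F₁ : MvPolynomial (Fin n) F}
    (hF₁ : F₁ ≠ 0) (hi : ∀ (x : Fin n → F) a, MvPolynomial.aeval (Function.update x i a) F₁ =
      MvPolynomial.aeval x F₁)
    (Q : (Fin n → F) → F[X]) (hQ : ∀ x a, Q (Function.update x i a) = Q x) {r : ℕ}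
    (hr : ∀ x, (Q x).natDegree ≤ r) :
    Tendsto (fun m => dens (PB D k m) fun x => ∃ v : Place F, N m ≤ dg v ∧
      v.1 (MvPolynomial.aeval x F₁) < 1 ∧ RedNe v (Q x) ∧ v.1 ((Q x).eval (x i)) < 1)
      atTop (𝓝 0) := by
  obtain ⟨B, b, -, hB⟩ := aeval_PB D k F₁
  obtain ⟨c₁, hc₁⟩ := ta_deg_ge (D i)
  obtain ⟨c₂, hc₂⟩ := ta_supp (D i)
  obtain ⟨c₃, hc₃⟩ := ta_supp B
  have hk0 := tkap_nonneg (F := F)
  have h1 := dens_aeval_tendsto D hk hF₁
  have h2 := tendsto_lin_mul_pow (b * pp F * (r * tkap F)) ((deg B).natAbs * (r * tkap F))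
    (fun m => (m - (c + c₁)) / e) (c + c₁) e he fun _ => le_rfl
  have h3 := h1.add h2
  rw [add_zero] at h3
  refine squeeze_zero' (Eventually.of_forall fun d => dens_nonneg _ _) ?_ h3
  filter_upwards [eventually_ge_atTop c₁, (ta_tendsto he hN).eventually_ge_atTop c₂,
    (ta_tendsto he hN).eventually_ge_atTop c₃] with m hm hm₂ hm₃
  have h4 : m ≤ k i * m := Nat.le_mul_of_pos_left m (hk i)
  have h5 := hc₁ (k i * m) (hm.trans h4)
  refine dens_pi_le _ i _ _ (by positivity) fun x hx h => ?_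
  simp only [hi, hQ, Function.update_self]
  refine (ek_one (N := (m - (c + c₁)) / e) h5.1 (le_trans ?_ h5.2) h (hB m x hx)
    (ta_deg_le B b m) (hr x) (fun v => N m ≤ dg v) fun v hv =>
      ⟨hc₂ v (hm₂.trans hv) _, hc₃ v (hm₃.trans hv) _,
        (ta_div_le m c c₁ e).trans ((hN m).trans hv)⟩).trans_eq ?_
  · exact_mod_cast (Nat.div_le_self _ _).trans (by omega)
  · push_cast
    ring

end SelAvg.FF
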