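import Pool.Agent.H81Sel.Iwa

/-! Row ZORNA: from an everywhere locally isotropic, anisotropic conic to a division algebra
inside the adelic matrices. -/

namespace SelAvg.FF

open WeierstrassCurve WithZero Filter Topology Matrix
open scoped Classical

/-- the form `x^2 + x y + c y^2 - b z^2` -/
def nf {R : Type} [CommRing R] (c b : R) : Fin 6 → R := ![1, c, -b, 1, 0, 0]

lemma za_form {K : Type} [Field K] {a : Fin 6 → K} (hi : ¬Isotropic a)
    (e e' : Fin 3 → K) (hp : tpol a e e' ≠ 0) (hind : ∀ s : K, e - s • e' ≠ 0) :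
    ∃ (c b lam : K) (T : Matrix (Fin 3) (Fin 3) K), T.det ≠ 0 ∧ lam ≠ 0 ∧ b ≠ 0 ∧ 1 - 4 * c ≠ 0 ∧
      tcomp a T = fun i => lam * nf c b i := by
  have hne : ∀ x : Fin 3 → K, x ≠ 0 → tern a x ≠ 0 := fun x hx h0 => hi ⟨x, hx, h0⟩
  have hl : tern a e ≠ 0 := hne e (by simpa using hind 0)
  obtain ⟨g, hg, hg'⟩ : ∃ g, tpol a e g = tern a e ∧ e - (2 : K) • g ≠ 0 := by
    refine ⟨(tern a e / tpol a e e') • e', ?_, by rw [smul_smul]; exact hind _⟩
    have : ∀ s : K, tpol a e (s • e') = s * tpol a e e' := fun s => by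
      simp only [tpol, tern, Pi.add_apply, Pi.smul_apply, smul_eq_mul]; ring
    rw [this, div_mul_cancel₀ _ hp]
  have h4 : 4 * tern a g - tern a e ≠ 0 := by
    have : tern a (e - (2 : K) • g) = tern a e - 2 * tpol a e g + 4 * tern a g := by
      simp only [tpol, tern, Pi.add_apply, Pi.sub_apply, Pi.smul_apply, smul_eq_mul]; ring
    intro h0
    exact hne _ hg' (by rw [this, hg]; linear_combination h0)
  obtain ⟨f, hf1, hf2, hf3⟩ : ∃ f, tpol a e f = 0 ∧ tpol a g f = 0 ∧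
      (of ![e, g, f]).det = 4 * tern a e * tern a g - tpol a e g ^ 2 := by
    refine ⟨crossProduct ![2 * a 0 * e 0 + a 3 * e 1 + a 4 * e 2,
      a 3 * e 0 + 2 * a 1 * e 1 + a 5 * e 2, a 4 * e 0 + a 5 * e 1 + 2 * a 2 * e 2]
      ![2 * a 0 * g 0 + a 3 * g 1 + a 4 * g 2, a 3 * g 0 + 2 * a 1 * g 1 + a 5 * g 2,
        a 4 * g 0 + a 5 * g 1 + 2 * a 2 * g 2], ?_, ?_, ?_⟩ <;>
      simp only [cross_apply, tpol, tern, Pi.add_apply, det_fin_three, of_apply, cons_val] <;> ring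
  have hdet : (of ![e, g, f]).det ≠ 0 := by
    rw [hf3, hg]
    intro h0
    exact mul_ne_zero hl h4 (by linear_combination h0)
  have hf : f ≠ 0 := by
    rintro rfl
    exact hdet (by simp [det_fin_three])
  refine ⟨tern a g / tern a e, -tern a f / tern a e, tern a e, of ![e, g, f], hdet, hl,
    div_ne_zero (neg_ne_zero.2 (hne f hf)) hl, fun h0 => h4 ?_, ?_⟩
  · field_simp at h0
    linear_combination -h0
  · show ![tern a e, tern a g, tern a f, tpol a e g, tpol a e f, tpol a g f] = _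
    rw [hg, hf1, hf2]
    funext i
    fin_cases i <;> simp [nf] <;> field_simp

/-- Choose independent `e₀, e₁` with nonzero polar value (possible as `hd a ≠ 0`; in
characteristic not 2 use `e₀` and `e₀ + e'` or `e'`), scale `e₁` so that the polar value is
`lam = tern a e₀`.  If `1 = 4 c` then `e₀ - 2 e₁` is isotropic.  Take `e₂` orthogonal to both. -/
theorem exists_norm_form {K : Type} [Field K] {a : Fin 6 → K} (h : hd a ≠ 0) (hi : ¬Isotropic a) :
    ∃ (c b lam : K) (T : Matrix (Fin 3) (Fin 3) K), T.det ≠ 0 ∧ lam ≠ 0 ∧ b ≠ 0 ∧ 1 - 4 * c ≠ 0 ∧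
      tcomp a T = fun i => lam * nf c b i := by
  by_cases h3 : a 3 = 0
  swap
  · exact za_form hi ![1, 0, 0] ![0, 1, 0] (fun h0 => h3 (by
      simp only [tpol, tern, Pi.add_apply, cons_val] at h0; linear_combination h0)) fun s h0 => by
      simpa using congrFun h0 0
  by_cases h4 : a 4 = 0
  swap
  · exact za_form hi ![1, 0, 0] ![0, 0, 1] (fun h0 => h4 (by
      simp only [tpol, tern, Pi.add_apply, cons_val] at h0; linear_combination h0)) fun s h0 => by
      simpa using congrFun h0 0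
  by_cases h5 : a 5 = 0
  swap
  · exact za_form hi ![0, 1, 0] ![0, 0, 1] (fun h0 => h5 (by
      simp only [tpol, tern, Pi.add_apply, cons_val] at h0; linear_combination h0)) fun s h0 => by
      simpa using congrFun h0 1
  refine za_form hi ![1, 0, 0] ![1, 1, 0] (fun h0 => h ?_) fun s h0 => ?_
  · simp only [tpol, tern, Pi.add_apply, cons_val] at h0
    simp only [hd, h3, h4, h5] at h0 ⊢
    linear_combination (2 * a 1 * a 2) * h0
  · have h1 := congrFun h0 1
    have h2 := congrFun h0 0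
    simp at h1 h2
    simp [h1] at h2

lemma za_split {K : Type} [Field K] {c r : K} (b : K) (hr : r ^ 2 + r + c = 0)
    (h : 2 * r + 1 ≠ 0) : (1 + r * ((b - 1) / (2 * r + 1))) ^ 2 +
      (1 + r * ((b - 1) / (2 * r + 1))) * ((b - 1) / (2 * r + 1)) +
        c * ((b - 1) / (2 * r + 1)) ^ 2 = b := by
  have h1 := div_mul_cancel₀ (b - 1) h
  generalize (b - 1) / (2 * r + 1) = y at h1 ⊢
  linear_combination y ^ 2 * hr + h1

/-- a nondegenerate isotropic binary form is universal -/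
theorem exists_norm_of_isotropic {K : Type} [Field K] {c b : K} (hc : 1 - 4 * c ≠ 0)
    (h : Isotropic (nf c b)) : ∃ x y : K, x ^ 2 + x * y + c * y ^ 2 = b := by
  obtain ⟨w, hw, h0⟩ := h
  simp only [tern, nf, cons_val] at h0
  by_cases h2 : w 2 = 0
  · have h1 : w 1 ≠ 0 := fun h1 => hw (funext fun i => by
      rw [h1, h2] at h0
      have h3 : w 0 ^ 2 = 0 := by linear_combination h0
      fin_cases i
      exacts [pow_eq_zero_iff two_ne_zero |>.1 h3, h1, h2])
    have hr : (w 0 / w 1) ^ 2 + w 0 / w 1 + c = 0 := by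
      rw [h2] at h0
      field_simp
      linear_combination h0
    exact ⟨_, _, za_split b hr fun h3 => hc (by
      linear_combination (2 * (w 0 / w 1) + 1) * h3 - 4 * hr)⟩
  · refine ⟨w 0 / w 2, w 1 / w 2, ?_⟩
    field_simp
    linear_combination h0

/-- If `t^2 + t + c` has a root modulo the maximal ideal, lift it (`hensel`), factor the form and
solve two linear equations.  Otherwise `v (x^2 + x y + c y^2) = max (v x) (v y) ^ 2`, so every
solution is integral. -/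
theorem exists_norm_integral {L : Type} [Field L] (V : LocalField L) {c b x y : L} (hc : V.v c ≤ 1)
    (hc' : V.v (1 - 4 * c) = 1) (hb : V.v b ≤ 1) (h : x ^ 2 + x * y + c * y ^ 2 = b) :
    ∃ x' y' : L, V.v x' ≤ 1 ∧ V.v y' ≤ 1 ∧ x' ^ 2 + x' * y' + c * y' ^ 2 = b := by
  have hsq : ∀ z : L, V.v (z ^ 2) = 1 → V.v z = 1 := fun z hz => by
    rw [map_pow] at hz
    exact (pow_eq_one_iff_of_nonneg zero_le two_ne_zero).1 hz
  by_cases hx : ∃ t : V.O, V.v ((t : L) ^ 2 + t + c) < 1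
  · obtain ⟨t, ht⟩ := hx
    obtain ⟨r, hr, -⟩ := V.hensel (Polynomial.X ^ 2 + Polynomial.X + Polynomial.C ⟨c, hc⟩) t
      (by simpa using ht) (by
        rw [V.isUnit_iff]
        apply hsq
        have e : ((((Polynomial.X ^ 2 + Polynomial.X + Polynomial.C (⟨c, hc⟩ : V.O)).derivative.eval
            t : V.O)) : L) ^ 2 = (1 - 4 * c) + 4 * ((t : L) ^ 2 + t + c) := by
          simp
          ring
        have h4 : V.v (4 : L) ≤ 1 := V.v_le_one (4 : V.O)
        rw [e, V.v.map_add_eq_of_lt_left, hc']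
        rw [hc', map_mul]
        exact (mul_le_of_le_one_left zero_le h4).trans_lt ht)
    have hr' : (r : L) ^ 2 + r + c = 0 := by simpa using congrArg (fun z : V.O => (z : L)) hr
    have h1 : V.v (2 * (r : L) + 1) = 1 := hsq _ (by
      rw [← hc']; congr 1; linear_combination 4 * hr')
    have h2 : V.v ((b - 1) / (2 * (r : L) + 1)) ≤ 1 := by
      rw [map_div₀, h1, div_one]
      exact V.v.map_sub_le hb (by simp)
    refine ⟨_, _, ?_, h2, za_split b hr' fun h0 => by simp [h0] at h1⟩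
    refine V.v.map_add_le (by simp) ?_
    rw [map_mul]
    exact mul_le_one' (V.v_le_one r) h2
  · refine ⟨x, y, ?_⟩
    rw [← and_assoc]
    refine ⟨?_, h⟩
    by_contra hn
    rcases le_or_gt (V.v x) (V.v y) with hxy | hxy
    · have hy : 1 < V.v y := by
        by_contra hy
        exact hn ⟨hxy.trans (not_lt.1 hy), not_lt.1 hy⟩
      have hy0 : y ≠ 0 := fun h0 => by simp [h0] at hy
      refine hx ⟨⟨x / y, ?_⟩, ?_⟩
      · rw [Valuation.mem_valuationSubring_iff, map_div₀]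
        exact div_le_one_of_le₀ hxy zero_le
      · have e : (x / y) ^ 2 + x / y + c = b / y ^ 2 := by rw [← h]; field_simp
        show V.v ((x / y) ^ 2 + x / y + c) < 1
        rw [e, map_div₀, map_pow, div_lt_one₀ (pow_pos (zero_lt_one.trans hy) 2)]
        exact hb.trans_lt (one_lt_pow₀ hy two_ne_zero)
    · have hx1 : 1 < V.v x := by
        by_contra hx1
        exact hn ⟨not_lt.1 hx1, hxy.le.trans (not_lt.1 hx1)⟩
      have hx0 : 0 < V.v x := zero_lt_one.trans hx1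
      have h1 : V.v (x * y + c * y ^ 2) < V.v (x ^ 2) := by
        refine V.v.map_add_lt ?_ ?_
        · rw [map_mul, map_pow, sq]
          exact mul_lt_mul_of_pos_left hxy hx0
        · rw [map_mul, map_pow, map_pow]
          exact (mul_le_of_le_one_left zero_le hc).trans_lt
            (pow_lt_pow_left₀ hxy zero_le two_ne_zero)
      rw [← h, add_assoc, V.v.map_add_eq_of_lt_left h1, map_pow] at hb
      exact absurd hb (not_le.2 (one_lt_pow₀ hx1 two_ne_zero))

variable {F : Type} [Field F] [Cv F]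

theorem exists_adelic_norm {c b : F} (hc : 1 - 4 * c ≠ 0)
    (h : ∀ v : Place F, Isotropic fun i => algebraMap F v.Compl (nf c b i)) :
    ∃ u₀ u₁ : A F, u₀ ^ 2 + u₀ * u₁ + toA F c * u₁ ^ 2 = toA F b := by
  have key : ∀ v : Place F, ∃ x y : v.Compl, x ^ 2 + x * y + algebraMap F v.Compl c * y ^ 2 =
      algebraMap F v.Compl b ∧ (v.1 c ≤ 1 ∧ v.1 (1 - 4 * c) = 1 ∧ v.1 b ≤ 1 →
        v.vc x ≤ 1 ∧ v.vc y ≤ 1) := by
    intro v
    have e : 1 - 4 * algebraMap F v.Compl c = algebraMap F v.Compl (1 - 4 * c) := by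
      simp [map_ofNat]
    obtain ⟨x, y, hxy⟩ := exists_norm_of_isotropic (c := algebraMap F v.Compl c)
      (b := algebraMap F v.Compl b) (by rw [e]; exact (_root_.map_ne_zero _).2 hc) (by
        have e2 : nf (algebraMap F v.Compl c) (algebraMap F v.Compl b) =
            fun i => algebraMap F v.Compl (nf c b i) := by
          funext i
          fin_cases i <;> simp [nf]
        rw [e2]
        exact h v)
    by_cases hv : v.1 c ≤ 1 ∧ v.1 (1 - 4 * c) = 1 ∧ v.1 b ≤ 1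
    · obtain ⟨x', y', h1, h2, h3⟩ := exists_norm_integral v.loc
        ((v.vc_algebraMap c).trans_le hv.1) (by rw [e]; exact (v.vc_algebraMap _).trans hv.2.1)
        ((v.vc_algebraMap b).trans_le hv.2.2) hxy
      exact ⟨x', y', h3, fun _ => ⟨h1, h2⟩⟩
    · exact ⟨x, y, hxy, fun h => absurd h hv⟩
  choose x y hxy hint using key
  have hev : ∀ᶠ v : Place F in cofinite, v.1 c ≤ 1 ∧ v.1 (1 - 4 * c) = 1 ∧ v.1 b ≤ 1 := by
    refine ((mem_Ad.1 (toA_mem c)).mono fun v hv => ?_).and (Eventually.and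
      (Cv.fin_supp _ hc) ((mem_Ad.1 (toA_mem b)).mono fun v hv => ?_)) <;>
      rwa [Place.vc_algebraMap] at hv
  obtain ⟨u₀, h0⟩ := exists_adele x (hev.mono fun v hv => (hint v hv).1)
  obtain ⟨u₁, h1⟩ := exists_adele y (hev.mono fun v hv => (hint v hv).2)
  refine ⟨u₀, u₁, A_ext fun v => ?_⟩
  simp only [map_add, map_mul, map_pow, h0, h1, pr_toA]
  exact hxy v

section Quat

variable {R S : Type} [CommRing R] [CommRing S]

/-- the matrix of `y 0 + y 1 Ω + (y 2 + y 3 Ω) J` -/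
def zaI (c u₀ u₁ : R) (y : Fin 4 → R) : Matrix (Fin 2) (Fin 2) R :=
  !![y 0 + (y 2 * u₀ - c * y 3 * u₁), -(c * y 1) + (y 2 * u₀ + c * y 3 * u₀ + c * y 2 * u₁);
    y 1 + (y 3 * u₀ + y 2 * u₁ + y 3 * u₁), y 0 + y 1 - (y 2 * u₀ - c * y 3 * u₁)]

/-- the reduced norm -/
def zaN (c b : R) (y : Fin 4 → R) : R :=
  y 0 ^ 2 + y 0 * y 1 + c * y 1 ^ 2 - b * (y 2 ^ 2 + y 2 * y 3 + c * y 3 ^ 2)

/-- the product -/
def zaM (c b : R) (y z : Fin 4 → R) : Fin 4 → R :=
  ![y 0 * z 0 - c * y 1 * z 1 + b * (y 2 * (z 2 + z 3) + c * y 3 * z 3),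
    y 0 * z 1 + y 1 * z 0 + y 1 * z 1 + b * (y 3 * z 2 - y 2 * z 3),
    y 0 * z 2 - c * y 1 * z 3 + (y 2 * (z 0 + z 1) + c * y 3 * z 1),
    y 0 * z 3 + y 1 * z 2 + y 1 * z 3 + (y 3 * z 0 - y 2 * z 1)]

variable {c b u₀ u₁ : R}

lemma zaI_det (hu : u₀ ^ 2 + u₀ * u₁ + c * u₁ ^ 2 = b) (y : Fin 4 → R) :
    (zaI c u₀ u₁ y).det = zaN c b y := by
  subst hu
  simp only [zaI, zaN, det_fin_two_of]
  ring

lemma zaI_mul (hu : u₀ ^ 2 + u₀ * u₁ + c * u₁ ^ 2 = b) (y z : Fin 4 → R) :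
    zaI c u₀ u₁ y * zaI c u₀ u₁ z = zaI c u₀ u₁ (zaM c b y z) := by
  subst hu
  simp only [zaI, zaM, mul_fin_two, cons_val]
  ext i j
  fin_cases i <;> fin_cases j <;> simp <;> ring

lemma zaI_one : zaI c u₀ u₁ ![1, 0, 0, 0] = 1 := by
  ext i j
  fin_cases i <;> fin_cases j <;> simp [zaI]

lemma zaM_map (φ : R →+* S) (y z : Fin 4 → R) :
    zaM (φ c) (φ b) (fun i => φ (y i)) (fun i => φ (z i)) = fun i => φ (zaM c b y z i) := by
  funext i
  fin_cases i <;> simp [zaM]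

lemma zaN_map (φ : R →+* S) (y : Fin 4 → R) :
    zaN (φ c) (φ b) (fun i => φ (y i)) = φ (zaN c b y) := by
  simp [zaN]

lemma za_equiv (hu : u₀ ^ 2 + u₀ * u₁ + c * u₁ ^ 2 = b) {d β : R} (hd : d * (1 - 4 * c) = 1)
    (hβ : β * b = 1) : ∃ ι : (Fin 4 → R) ≃ₗ[R] Matrix (Fin 2) (Fin 2) R,
      ∀ y, ι y = zaI c u₀ u₁ y := by
  subst hu
  let f : (Fin 4 → R) →ₗ[R] Matrix (Fin 2) (Fin 2) R :=
    { toFun := zaI c u₀ u₁
      map_add' := fun y z => by
        ext i j
        fin_cases i <;> fin_cases j <;> simp [zaI] <;> ring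
      map_smul' := fun s y => by
        ext i j
        fin_cases i <;> fin_cases j <;> simp [zaI] <;> ring }
  refine ⟨LinearEquiv.ofBijective f ⟨(injective_iff_map_eq_zero f).2 fun y hy => ?_, fun M => ?_⟩,
    fun _ => rfl⟩
  · have h00 := congrFun (congrFun hy 0) 0
    have h01 := congrFun (congrFun hy 0) 1
    have h10 := congrFun (congrFun hy 1) 0
    have h11 := congrFun (congrFun hy 1) 1
    simp only [f, zaI, LinearMap.coe_mk, AddHom.coe_mk, of_apply, cons_val, Matrix.zero_apply]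
      at h00 h01 h10 h11
    have e1 : y 1 = 0 := by
      linear_combination d * (h11 - h00 + 2 * (h01 - c * h10)) - y 1 * hd
    have ep : y 2 * u₀ - c * y 3 * u₁ = 0 := by linear_combination h01 - c * h10 + 2 * c * e1
    have eq : y 3 * u₀ + y 2 * u₁ + y 3 * u₁ = 0 := by linear_combination h10 - e1
    funext i
    fin_cases i
    · show y 0 = 0
      linear_combination h00 - ep
    · exact e1
    · show y 2 = 0
      linear_combination β * ((u₀ + u₁) * ep + c * u₁ * eq) - y 2 * hβ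
    · show y 3 = 0
      linear_combination β * (u₀ * eq - u₁ * ep) - y 3 * hβ
  · obtain ⟨t, ht⟩ : ∃ t, t = d * (M 1 1 - M 0 0 + 2 * (M 0 1 - c * M 1 0)) := ⟨_, rfl⟩
    obtain ⟨p, hp⟩ : ∃ p, p = M 0 1 - c * M 1 0 + 2 * c * t := ⟨_, rfl⟩
    obtain ⟨q, hq⟩ : ∃ q, q = M 1 0 - t := ⟨_, rfl⟩
    refine ⟨![M 0 0 - p, t, β * (p * (u₀ + u₁) + c * q * u₁), β * (q * u₀ - p * u₁)], ?_⟩
    ext i j
    fin_cases i <;> fin_cases j <;>
      simp only [f, zaI, LinearMap.coe_mk, AddHom.coe_mk, of_apply, cons_val, Fin.zero_eta,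
        Fin.mk_one, Fin.isValue]
    · linear_combination p * hβ
    · linear_combination (p + c * q) * hβ + hp + c * hq
    · linear_combination q * hβ + hq
    · linear_combination -p * hβ - 2 * hp + (1 - 4 * c) * ht +
        (M 1 1 - M 0 0 + 2 * (M 0 1 - c * M 1 0)) * hd

lemma zaN_ne {K : Type} [Field K] {c b : K} (hi : ¬Isotropic (nf c b)) {y : Fin 4 → K}
    (hy : y ≠ 0) : zaN c b y ≠ 0 := by
  have key : ∀ s t z : K, s ^ 2 + s * t + c * t ^ 2 = b * z ^ 2 → s = 0 ∧ t = 0 ∧ z = 0 := by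
    intro s t z h
    by_contra hn
    refine hi ⟨![s, t, z], fun h0 => hn ⟨congrFun h0 0, congrFun h0 1, congrFun h0 2⟩, ?_⟩
    simp only [tern, nf, cons_val]
    linear_combination h
  intro h0
  simp only [zaN] at h0
  obtain ⟨-, -, h1⟩ := key (y 0 * (y 2 + y 3) + c * y 1 * y 3) (y 1 * y 2 - y 0 * y 3)
    (y 2 ^ 2 + y 2 * y 3 + c * y 3 ^ 2)
    (by linear_combination (y 2 ^ 2 + y 2 * y 3 + c * y 3 ^ 2) * h0)
  obtain ⟨h2, h3, -⟩ := key (y 2) (y 3) 0 (by linear_combination h1)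
  obtain ⟨h4, h5, -⟩ := key (y 0) (y 1) 0 (by linear_combination h0 + b * h1)
  refine hy (funext fun i => ?_)
  fin_cases i
  exacts [h4, h5, h2, h3]

lemma zaM_inv {K : Type} [Field K] {c b : K} {y : Fin 4 → K} (hy : zaN c b y ≠ 0) :
    ∃ z, zaM c b y z = ![1, 0, 0, 0] := by
  have h := mul_inv_cancel₀ hy
  generalize (zaN c b y)⁻¹ = s at h
  refine ⟨![s * (y 0 + y 1), -(s * y 1), -(s * y 2), -(s * y 3)], funext fun i => ?_⟩
  simp only [zaN] at h
  fin_cases i <;> simp only [zaM, cons_val, Fin.zero_eta, Fin.mk_one, Fin.reduceFinMk, Fin.isValue]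
  · linear_combination h
  all_goals ring

end Quat

/-- a division algebra of dimension four inside the adelic matrices -/
structure IsDiv (Γ : Subgroup (GL (Fin 2) (A F)))
    (ι : (Fin 4 → A F) ≃ₗ[A F] Matrix (Fin 2) (Fin 2) (A F)) : Prop where
  ex : ∀ y : Fin 4 → F, y ≠ 0 → ∃ g ∈ Γ, g.1 = ι (dlg y)
  mem : ∀ g ∈ Γ, ∃ y : Fin 4 → F, g.1 = ι (dlg y)
  dg0 : ∀ g ∈ Γ, deg (idiv (GeneralLinearGroup.det g)) = 0

/-- `Ω = !![0, -c; 1, 1]`, `S = !![1, 1; 0, -1]`, `J = (u₀ + u₁ Ω) S`; then `Ω^2 = Ω - c`,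
`J Ω = (1 - Ω) J`, `J^2 = b`.  Put `ι y = y 0 + y 1 Ω + (y 2 + y 3 Ω) J`; its determinant is
`N(y 0, y 1) - b N(y 2, y 3)`, which is anisotropic over `F` (multiply by the conjugate).
`ι` is bijective: `1, Ω, S, Ω S` is a basis because `1 - 4 c` is a unit, and multiplication by
`u₀ + u₁ Ω` is invertible.  The adjugate of `ι y` is `ι ![y 0 + y 1, -y 1, -y 2, -y 3]`. -/
theorem exists_isDiv {c b : F} (hc : 1 - 4 * c ≠ 0) (hb : b ≠ 0) (hi : ¬Isotropic (nf c b))
    {u₀ u₁ : A F} (hu : u₀ ^ 2 + u₀ * u₁ + toA F c * u₁ ^ 2 = toA F b) :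
    ∃ Γ ι, IsDiv (F := F) Γ ι := by
  obtain ⟨ι, hι⟩ := za_equiv hu (d := toA F (1 - 4 * c)⁻¹) (β := toA F b⁻¹)
    (by
      have e : 1 - 4 * toA F c = toA F (1 - 4 * c) := by simp [map_ofNat]
      rw [e, ← map_mul, inv_mul_cancel₀ hc, map_one])
    (by rw [← map_mul, inv_mul_cancel₀ hb, map_one])
  have hdet : ∀ y : Fin 4 → F, (ι (dlg y)).det = toA F (zaN c b y) := fun y => by
    rw [hι, zaI_det hu]; exact zaN_map (toA F) y
  have hmul : ∀ y z : Fin 4 → F, ι (dlg y) * ι (dlg z) = ι (dlg (zaM c b y z)) := fun y z => by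
    rw [hι, hι, hι, zaI_mul hu]; exact congrArg _ (zaM_map (toA F) y z)
  have hone : ι (dlg ![1, 0, 0, 0]) = 1 := by
    rw [hι, ← zaI_one (c := toA F c) (u₀ := u₀) (u₁ := u₁)]
    congr 1
    funext i
    fin_cases i <;> simp [dlg]
  have hN : ∀ (g : GL (Fin 2) (A F)) (y : Fin 4 → F), g.1 = ι (dlg y) → zaN c b y ≠ 0 := by
    intro g y hg h0
    have h1 : IsUnit (toA F 0) := by
      rw [← h0, ← hdet, ← hg]
      exact (GeneralLinearGroup.det g).isUnit
    rw [map_zero, isUnit_zero_iff, ← map_zero (toA F), ← map_one (toA F)] at h1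
    exact zero_ne_one (toA_injective h1)
  let Γ : Subgroup (GL (Fin 2) (A F)) :=
    { carrier := {g | ∃ y : Fin 4 → F, g.1 = ι (dlg y)}
      mul_mem' := by
        rintro g g' ⟨y, hy⟩ ⟨z, hz⟩
        exact ⟨_, by rw [Units.val_mul, hy, hz, hmul]⟩
      one_mem' := ⟨_, hone.symm⟩
      inv_mem' := by
        rintro g ⟨y, hy⟩
        obtain ⟨z, hz⟩ := zaM_inv (hN g y hy)
        exact ⟨z, Units.inv_eq_of_mul_eq_one_right (by rw [hy, hmul, hz, hone])⟩ }
  refine ⟨Γ, ι, fun y hy => ⟨GeneralLinearGroup.mk'' (ι (dlg y)) ?_, ⟨y, rfl⟩, rfl⟩,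
    fun g hg => hg, ?_⟩
  · rw [hdet]
    exact (zaN_ne hi hy).isUnit.map _
  · rintro g ⟨y, hy⟩
    have e : GeneralLinearGroup.det g = uA (Units.mk0 _ (hN g y hy)) := Units.ext (by
      rw [GeneralLinearGroup.val_det_apply, hy, hdet]; rfl)
    rw [e, idiv_uA, deg_dv]

end SelAvg.FF
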